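import Pool.Agent.CutS3.Clock1

/-!
Module CLOCK2: monotonicity of the clocks in `r`.
-/

set_option autoImplicit false

namespace Pool.Agent.CutS3

open Set Filter Topology MeasureTheory

noncomputable section

open ClockAux

namespace ClockAux

/-- comparison of two kernels `N / √(W K)` -/
lemma kernel_lt {N W K K' : ℝ} (hN : 0 < N) (hW : 0 < W) (hK : 0 < K) (hKK : K < K') :
    N / Real.sqrt (W * K') < N / Real.sqrt (W * K) := by
  apply div_lt_div_of_pos_left hN (Real.sqrt_pos.mpr (mul_pos hW hK))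
  exact Real.sqrt_lt_sqrt (mul_pos hW hK).le (mul_lt_mul_of_pos_left hKK hW)

end ClockAux

section clock
variable {a₁ a₂ a₃ r r' τ x x' : ℝ}

/-- monotonicity in `r` -/
theorem gg1_mono_r (hax : Ax a₁ a₂ a₃) (hr : a₃ ≤ r) (hrr : r ≤ r') (hr' : r' < a₁)
    (hx : 0 ≤ x) (hxk : x ≤ a₁ - r') (hxm : x ≤ a₁ - a₂) (h : x < a₁ - a₂ ∨ r' < a₂) :
    gg1 a₁ a₂ a₃ r x ≤ gg1 a₁ a₂ a₃ r' x ∧
    (r < r' → 0 < x → gg1 a₁ a₂ a₃ r x < gg1 a₁ a₂ a₃ r' x) := by
  have h12 := hax.h12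
  have h23 := hax.h23
  have h3 := hax.pos
  rcases hrr.eq_or_lt with he | hlt
  · subst he
    exact ⟨le_rfl, fun h => absurd h (lt_irrefl _)⟩
  · have i1 : IntervalIntegrable (gk1 a₁ a₂ a₃ r) volume 0 x :=
      int1 hax hr (hlt.trans hr') hx (by linarith) hxm
        (h.imp id (fun h' => (hlt.trans h').ne))
    have i2 : IntervalIntegrable (gk1 a₁ a₂ a₃ r') volume 0 x :=
      int1 hax (hr.trans hrr) hr' hx hxk hxm (h.imp id (fun h' => h'.ne))
    have key := gg_cmp le_rfl hx i1 i2 (fun s h1 h2 => by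
      unfold gk1
      have e1 : 4 * s * (a₁ - r - s) * (a₁ - a₂ - s) * (a₁ - a₃ - s) =
        (4 * s * (a₁ - a₂ - s) * (a₁ - a₃ - s)) * (a₁ - r - s) := by ring
      have e2 : 4 * s * (a₁ - r' - s) * (a₁ - a₂ - s) * (a₁ - a₃ - s) =
        (4 * s * (a₁ - a₂ - s) * (a₁ - a₃ - s)) * (a₁ - r' - s) := by ring
      rw [e1, e2]
      have h5 : 0 < a₁ - a₂ - s := by linarith
      have h6 : 0 < a₁ - a₃ - s := by linarith
      exact kernel_lt (by linarith) (by positivity) (by linarith) (by linarith))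
    simp only [intervalIntegral.integral_same, sub_zero] at key
    exact ⟨key.1, fun _ hx0 => key.2 hx0⟩

theorem gg3_anti_r (hax : Ax a₁ a₂ a₃) (hr : a₃ < r) (hrr : r ≤ r') (hr' : r' < a₁)
    (hx : 0 ≤ x) (hxk : x ≤ r - a₃) (hxm : x ≤ a₂ - a₃) (h : x < a₂ - a₃ ∨ a₂ < r) :
    gg3 a₁ a₂ a₃ r' x ≤ gg3 a₁ a₂ a₃ r x ∧
    (r < r' → 0 < x → gg3 a₁ a₂ a₃ r' x < gg3 a₁ a₂ a₃ r x) := by
  have h12 := hax.h12
  have h23 := hax.h23
  have h3 := hax.pos
  rcases hrr.eq_or_lt with he | hlt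
  · subst he
    exact ⟨le_rfl, fun h => absurd h (lt_irrefl _)⟩
  · have i1 : IntervalIntegrable (gk3 a₁ a₂ a₃ r) volume 0 x :=
      int3 hax hr (hlt.trans hr') hx hxk hxm (h.imp id (fun h' => h'.ne'))
    have i2 : IntervalIntegrable (gk3 a₁ a₂ a₃ r') volume 0 x :=
      int3 hax (hr.trans hlt) hr' hx (by linarith) hxm
        (h.imp id (fun h' => (h'.trans hlt).ne'))
    have key := gg_cmp le_rfl hx i2 i1 (fun s h1 h2 => by
      unfold gk3
      have e1 : 4 * s * (r - a₃ - s) * (a₂ - a₃ - s) * (a₁ - a₃ - s) =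
        (4 * s * (a₂ - a₃ - s) * (a₁ - a₃ - s)) * (r - a₃ - s) := by ring
      have e2 : 4 * s * (r' - a₃ - s) * (a₂ - a₃ - s) * (a₁ - a₃ - s) =
        (4 * s * (a₂ - a₃ - s) * (a₁ - a₃ - s)) * (r' - a₃ - s) := by ring
      rw [e1, e2]
      have h5 : 0 < a₂ - a₃ - s := by linarith
      have h6 : 0 < a₁ - a₃ - s := by linarith
      exact kernel_lt (by linarith) (by positivity) (by linarith) (by linarith))
    simp only [intervalIntegral.integral_same, sub_zero] at key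
    exact ⟨key.1, fun _ hx0 => key.2 hx0⟩

/-- increments of the index `2` clocks -/
theorem gg2I_anti_r (hax : Ax a₁ a₂ a₃) (hr : a₂ < r) (hrr : r ≤ r') (hr' : r' < a₁)
    (hx : 0 ≤ x) (hxx : x ≤ x') (hx' : x' ≤ a₂ - a₃) :
    gg2I a₁ a₂ a₃ r' x' - gg2I a₁ a₂ a₃ r' x ≤ gg2I a₁ a₂ a₃ r x' - gg2I a₁ a₂ a₃ r x ∧
    (r < r' → x < x' →
      gg2I a₁ a₂ a₃ r' x' - gg2I a₁ a₂ a₃ r' x < gg2I a₁ a₂ a₃ r x' - gg2I a₁ a₂ a₃ r x) := by
  have h12 := hax.h12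
  have h23 := hax.h23
  have h3 := hax.pos
  rcases hrr.eq_or_lt with he | hlt
  · subst he
    exact ⟨le_rfl, fun h => absurd h (lt_irrefl _)⟩
  · have i1 : IntervalIntegrable (gk2I a₁ a₂ a₃ r) volume 0 x' :=
      int2I hax hr (hlt.trans hr') (hx.trans hxx) hx'
    have i2 : IntervalIntegrable (gk2I a₁ a₂ a₃ r') volume 0 x' :=
      int2I hax (hr.trans hlt) hr' (hx.trans hxx) hx'
    have key := gg_cmp hx hxx i2 i1 (fun s h1 h2 => by
      unfold gk2I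
      have e1 : 4 * s * (r - a₂ + s) * (a₂ - a₃ - s) * (a₁ - a₂ + s) =
        (4 * s * (a₂ - a₃ - s) * (a₁ - a₂ + s)) * (r - a₂ + s) := by ring
      have e2 : 4 * s * (r' - a₂ + s) * (a₂ - a₃ - s) * (a₁ - a₂ + s) =
        (4 * s * (a₂ - a₃ - s) * (a₁ - a₂ + s)) * (r' - a₂ + s) := by ring
      rw [e1, e2]
      have h5 : 0 < a₂ - a₃ - s := by linarith
      have h6 : 0 < a₁ - a₂ + s := by linarith
      exact kernel_lt (by linarith) (by positivity) (by linarith) (by linarith))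
    exact ⟨key.1, fun _ hx0 => key.2 hx0⟩

theorem gg2T_mono_r (hax : Ax a₁ a₂ a₃) (hr : a₃ ≤ r) (hrr : r ≤ r') (hr' : r' < a₂)
    (hx : 0 ≤ x) (hxx : x ≤ x') (hx' : x' ≤ a₁ - a₂) :
    gg2T a₁ a₂ a₃ r x' - gg2T a₁ a₂ a₃ r x ≤ gg2T a₁ a₂ a₃ r' x' - gg2T a₁ a₂ a₃ r' x ∧
    (r < r' → x < x' →
      gg2T a₁ a₂ a₃ r x' - gg2T a₁ a₂ a₃ r x < gg2T a₁ a₂ a₃ r' x' - gg2T a₁ a₂ a₃ r' x) := by
  have h12 := hax.h12
  have h23 := hax.h23
  have h3 := hax.pos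
  rcases hrr.eq_or_lt with he | hlt
  · subst he
    exact ⟨le_rfl, fun h => absurd h (lt_irrefl _)⟩
  · have i1 : IntervalIntegrable (gk2T a₁ a₂ a₃ r) volume 0 x' :=
      int2T hax hr (hlt.trans hr') (hx.trans hxx) hx'
    have i2 : IntervalIntegrable (gk2T a₁ a₂ a₃ r') volume 0 x' :=
      int2T hax (hr.trans hrr) hr' (hx.trans hxx) hx'
    have key := gg_cmp hx hxx i1 i2 (fun s h1 h2 => by
      unfold gk2T
      have e1 : 4 * s * (a₂ - r + s) * (a₂ - a₃ + s) * (a₁ - a₂ - s) =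
        (4 * s * (a₂ - a₃ + s) * (a₁ - a₂ - s)) * (a₂ - r + s) := by ring
      have e2 : 4 * s * (a₂ - r' + s) * (a₂ - a₃ + s) * (a₁ - a₂ - s) =
        (4 * s * (a₂ - a₃ + s) * (a₁ - a₂ - s)) * (a₂ - r' + s) := by ring
      rw [e1, e2]
      have h5 : 0 < a₂ - a₃ + s := by linarith
      have h6 : 0 < a₁ - a₂ - s := by linarith
      exact kernel_lt (by linarith) (by positivity) (by linarith) (by linarith))
    exact ⟨key.1, fun _ hx0 => key.2 hx0⟩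

end clock

end

end Pool.Agent.CutS3
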