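import Pool.Agent.CutS3.Yrel

/-!
Module CLOCK1: the angles as functions of `|yᵢ|` on the first half period.
-/

set_option autoImplicit false

namespace Pool.Agent.CutS3

open Set Filter Topology MeasureTheory

noncomputable section

namespace ClockAux

/-- change of variables for `y' = √Q(y) > 0` -/
lemma clock_gen {y v Q N : ℝ → ℝ} {τ : ℝ} (hτ : 0 ≤ τ) (hy0 : y 0 = 0)
    (hy : ∀ t, HasDerivAt y (v t) t) (hpos : ∀ t, 0 < t → t < τ → 0 < v t)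
    (hv : ∀ t, 0 < t → t < τ → v t = Real.sqrt (Q (y t))) (hN : Continuous N) :
    IntervalIntegrable (fun x => N x / Real.sqrt (Q x)) volume 0 (y τ) ∧
    ∫ s in (0:ℝ)..τ, N (y s) = ∫ x in (0:ℝ)..(y τ), N x / Real.sqrt (Q x) := by
  have hyc : Continuous y := continuous_iff_continuousAt.mpr fun t => (hy t).continuousAt
  have hmono : StrictMonoOn y (Icc 0 τ) := by
    apply strictMonoOn_of_deriv_pos (convex_Icc 0 τ) hyc.continuousOn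
    intro x hx
    rw [interior_Icc] at hx
    rw [(hy x).deriv]
    exact hpos x hx.1 hx.2
  have hyτ : 0 ≤ y τ := by
    rcases hτ.eq_or_lt with h | h
    · rw [← h, hy0]
    · have := hmono (show (0:ℝ) ∈ Icc 0 τ from ⟨le_rfl, hτ⟩) ⟨hτ, le_rfl⟩ h
      rw [hy0] at this
      exact this.le
  have himg : y '' Ioo 0 τ = Ioo 0 (y τ) := by
    ext z
    constructor
    · rintro ⟨t, ht, rfl⟩
      have h1 := hmono (show (0:ℝ) ∈ Icc 0 τ from ⟨le_rfl, hτ⟩) ⟨ht.1.le, ht.2.le⟩ ht.1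
      have h2 := hmono ⟨ht.1.le, ht.2.le⟩ (show τ ∈ Icc 0 τ from ⟨hτ, le_rfl⟩) ht.2
      rw [hy0] at h1
      exact ⟨h1, h2⟩
    · intro hz
      have := intermediate_value_Ioo hτ hyc.continuousOn
      rw [hy0] at this
      exact this hz
  have hinj : InjOn y (Ioo 0 τ) := (hmono.mono Ioo_subset_Icc_self).injOn
  have hder : ∀ x ∈ Ioo 0 τ, HasDerivWithinAt y (v x) (Ioo 0 τ) x :=
    fun x _ => (hy x).hasDerivWithinAt
  have heq : ∀ x ∈ Ioo 0 τ, |v x| • (N (y x) / Real.sqrt (Q (y x))) = N (y x) := by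
    intro x hx
    have h1 := hpos x hx.1 hx.2
    have h2 := hv x hx.1 hx.2
    rw [abs_of_pos h1, smul_eq_mul, ← h2]
    field_simp
  have hNy : IntegrableOn (fun x => N (y x)) (Ioo 0 τ) :=
    ((hN.comp hyc).continuousOn.integrableOn_Icc (μ := volume)).mono_set Ioo_subset_Icc_self
  have hint : IntegrableOn (fun x => N x / Real.sqrt (Q x)) (Ioo 0 (y τ)) := by
    rw [← himg, integrableOn_image_iff_integrableOn_abs_deriv_smul measurableSet_Ioo hder hinj]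
    exact hNy.congr_fun (fun x hx => (heq x hx).symm) measurableSet_Ioo
  constructor
  · rw [intervalIntegrable_iff_integrableOn_Ioo_of_le hyτ]
    exact hint
  · rw [intervalIntegral.integral_of_le hτ, intervalIntegral.integral_of_le hyτ,
      integral_Ioc_eq_integral_Ioo, integral_Ioc_eq_integral_Ioo, ← himg,
      integral_image_eq_integral_abs_deriv_smul measurableSet_Ioo hder hinj]
    exact setIntegral_congr_fun measurableSet_Ioo (fun x hx => (heq x hx).symm)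

/-- integrability away from the second singularity -/
lemma int_interior {N R : ℝ → ℝ} {X : ℝ} (hX : 0 ≤ X) (hN : Continuous N) (hR : Continuous R)
    (hpos : ∀ x ∈ Icc 0 X, 0 < R x) :
    IntervalIntegrable (fun x => N x / Real.sqrt (x * R x)) volume 0 X := by
  have h1 : IntervalIntegrable (fun x : ℝ => x ^ (-(1/2) : ℝ)) volume 0 X :=
    intervalIntegral.intervalIntegrable_rpow' (by norm_num)
  have h2 : ContinuousOn (fun x => N x / Real.sqrt (R x)) (uIcc 0 X) := by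
    rw [uIcc_of_le hX]
    apply hN.continuousOn.div (hR.sqrt).continuousOn
    intro x hx
    exact (Real.sqrt_pos.mpr (hpos x hx)).ne'
  have h3 := h1.mul_continuousOn h2
  rw [intervalIntegrable_iff_integrableOn_Ioo_of_le hX] at h3 ⊢
  refine h3.congr_fun ?_ measurableSet_Ioo
  intro x hx
  have hx0 : 0 < x := hx.1
  simp only
  rw [Real.sqrt_mul hx0.le, Real.rpow_neg hx0.le, ← Real.sqrt_eq_rpow]
  have h5 := Real.sqrt_pos.mpr hx0
  have h6 := Real.sqrt_pos.mpr (hpos x ⟨hx0.le, hx.2.le⟩)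
  field_simp

lemma gg_cmp {g g' : ℝ → ℝ} {x x' : ℝ} (hx : 0 ≤ x) (hxx : x ≤ x')
    (hint : IntervalIntegrable g volume 0 x') (hint' : IntervalIntegrable g' volume 0 x')
    (h : ∀ s, 0 < s → s < x' → g s < g' s) :
    ((∫ s in (0:ℝ)..x', g s) - (∫ s in (0:ℝ)..x, g s) ≤
      (∫ s in (0:ℝ)..x', g' s) - (∫ s in (0:ℝ)..x, g' s)) ∧
    (x < x' → (∫ s in (0:ℝ)..x', g s) - (∫ s in (0:ℝ)..x, g s) <
      (∫ s in (0:ℝ)..x', g' s) - (∫ s in (0:ℝ)..x, g' s)) := by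
  have hsub : uIcc 0 x ⊆ uIcc 0 x' := by
    rw [uIcc_of_le hx, uIcc_of_le (hx.trans hxx)]
    exact Icc_subset_Icc le_rfl hxx
  have i1 := hint.mono_set hsub
  have i2 := hint'.mono_set hsub
  have e1 := intervalIntegral.integral_interval_sub_left hint i1
  have e2 := intervalIntegral.integral_interval_sub_left hint' i2
  rw [e1, e2]
  have hsub2 : uIcc x x' ⊆ uIcc 0 x' := by
    rw [uIcc_of_le hxx, uIcc_of_le (hx.trans hxx)]
    exact Icc_subset_Icc hx le_rfl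
  have j1 := hint.mono_set hsub2
  have j2 := hint'.mono_set hsub2
  have key : x < x' → (∫ s in x..x', g s) < ∫ s in x..x', g' s := by
    intro hlt
    have h3 := intervalIntegral.intervalIntegral_pos_of_pos_on (j2.sub j1)
      (fun s hs => sub_pos.mpr (h s (lt_of_le_of_lt hx hs.1) hs.2)) hlt
    rw [intervalIntegral.integral_sub j2 j1] at h3
    linarith
  refine ⟨?_, key⟩
  rcases hxx.eq_or_lt with he | hlt
  · rw [he, intervalIntegral.integral_same, intervalIntegral.integral_same]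
  · exact (key hlt).le

lemma gg_strict {g : ℝ → ℝ} {x x' : ℝ} (hx : 0 ≤ x) (hxx : x < x')
    (hint : IntervalIntegrable g volume 0 x') (h : ∀ s, 0 < s → s < x' → 0 < g s) :
    (∫ s in (0:ℝ)..x, g s) < ∫ s in (0:ℝ)..x', g s := by
  have h1 := (gg_cmp hx hxx.le (g := fun _ => 0) (by simp) hint h).2 hxx
  simp only [intervalIntegral.integral_zero, sub_self] at h1
  linarith

lemma gg_contOn {g : ℝ → ℝ} {X : ℝ} (hX : 0 ≤ X) (hint : IntervalIntegrable g volume 0 X) :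
    ContinuousOn (fun x => ∫ s in (0:ℝ)..x, g s) (Icc 0 X) := by
  have := intervalIntegral.continuousOn_primitive_interval' hint (a := 0) left_mem_uIcc
  rwa [uIcc_of_le hX] at this

lemma gg_hasDerivAt {g : ℝ → ℝ} {x : ℝ} (hint : IntervalIntegrable g volume 0 x)
    (hm : Measurable g) (hc : ContinuousAt g x) :
    HasDerivAt (fun x => ∫ s in (0:ℝ)..x, g s) (g x) x :=
  intervalIntegral.integral_hasDerivAt_right hint
    hm.stronglyMeasurable.stronglyMeasurableAtFilter hc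

lemma contAt_kernel {N Q : ℝ → ℝ} (hN : Continuous N) (hQ : Continuous Q) {x : ℝ}
    (h : 0 < Q x) : ContinuousAt (fun x => N x / Real.sqrt (Q x)) x :=
  hN.continuousAt.div hQ.sqrt.continuousAt (Real.sqrt_pos.mpr h).ne'

/-! the four kernels -/

variable {a₁ a₂ a₃ r r' τ x x' : ℝ}

lemma sqrt_of_pos_sq {v P : ℝ} (hv : 0 < v) (h : v ^ 2 = P) : v = Real.sqrt P := by
  rw [← h, Real.sqrt_sq hv.le]

lemma clock1_aux (hax : Ax a₁ a₂ a₃) (hr : r ∈ Ico a₃ a₁) (h : First a₁ a₂ a₃ r τ) :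
    IntervalIntegrable (gk1 a₁ a₂ a₃ r) volume 0 (y1 a₁ a₂ a₃ r τ) ∧
    G1 a₁ a₂ a₃ r τ = gg1 a₁ a₂ a₃ r (y1 a₁ a₂ a₃ r τ) := by
  have hs := isY1 a₁ a₂ a₃ r
  have hpos : ∀ t, 0 < t → t < τ → 0 < v1 a₁ a₂ a₃ r t := fun t h1 h2 =>
    v1_pos hax.h12 hax.h23 hr h1 (fun hne => lt_of_lt_of_le h2 (h.2 hne))
  exact clock_gen (y := y1 a₁ a₂ a₃ r) (v := v1 a₁ a₂ a₃ r)
    (Q := fun x => 4 * x * (a₁ - r - x) * (a₁ - a₂ - x) * (a₁ - a₃ - x))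
    (N := fun x => a₁ - x) h.1 hs.y0 hs.hy hpos
    (fun t h1 h2 => sqrt_of_pos_sq (hpos t h1 h2) (yd_sq _ _ _ t)) (by fun_prop)

lemma clock3_aux (hax : Ax a₁ a₂ a₃) (hr : r ∈ Ioo a₃ a₁) (h : First a₁ a₂ a₃ r τ) :
    IntervalIntegrable (gk3 a₁ a₂ a₃ r) volume 0 (-y3 a₁ a₂ a₃ r τ) ∧
    G3 a₁ a₂ a₃ r τ = gg3 a₁ a₂ a₃ r (-y3 a₁ a₂ a₃ r τ) := by
  have hs := isY3 a₁ a₂ a₃ r
  have hpos : ∀ t, 0 < t → t < τ → 0 < -v3 a₁ a₂ a₃ r t := fun t h1 h2 =>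
    neg_pos.mpr (v3_neg hax.h12 hax.h23 hr h1 (fun hne => lt_of_lt_of_le h2 (h.2 hne)))
  obtain ⟨h1, h2⟩ := clock_gen (y := fun t => -y3 a₁ a₂ a₃ r t) (v := fun t => -v3 a₁ a₂ a₃ r t)
    (Q := fun x => 4 * x * (r - a₃ - x) * (a₂ - a₃ - x) * (a₁ - a₃ - x))
    (N := fun x => a₃ + x) h.1 (by simp [hs.y0]) (fun t => (hs.hy t).neg) hpos
    (fun t h1 h2 => sqrt_of_pos_sq (hpos t h1 h2) (by
      have := yd_sq (a₃ - r) (a₃ - a₁) (a₃ - a₂) t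
      have h3 : (-v3 a₁ a₂ a₃ r t) ^ 2 = v3 a₁ a₂ a₃ r t ^ 2 := by ring
      rw [h3, show v3 a₁ a₂ a₃ r t ^ 2 = PP (a₃ - r) (a₃ - a₁) (a₃ - a₂)
        (y3 a₁ a₂ a₃ r t) from this]
      unfold PP
      ring)) (by fun_prop)
  refine ⟨h1, ?_⟩
  rw [show gg3 a₁ a₂ a₃ r (-y3 a₁ a₂ a₃ r τ) = _ from h2.symm]
  unfold G3
  apply intervalIntegral.integral_congr
  intro s _
  simp only
  ring

lemma clock2I_aux (hax : Ax a₁ a₂ a₃) (hr : r ∈ Ioo a₂ a₁) (h : First a₁ a₂ a₃ r τ) :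
    IntervalIntegrable (gk2I a₁ a₂ a₃ r) volume 0 (y2 a₁ a₂ a₃ r τ) ∧
    G2 a₁ a₂ a₃ r τ = gg2I a₁ a₂ a₃ r (y2 a₁ a₂ a₃ r τ) := by
  have hs := isY2 a₁ a₂ a₃ r
  have hpos : ∀ t, 0 < t → t < τ → 0 < v2 a₁ a₂ a₃ r t := fun t h1 h2 =>
    v2_posI hax.h12 hax.h23 hr h1 (lt_of_lt_of_le h2 (h.2 hr.1.ne'))
  exact clock_gen (y := y2 a₁ a₂ a₃ r) (v := v2 a₁ a₂ a₃ r)
    (Q := fun x => 4 * x * (r - a₂ + x) * (a₂ - a₃ - x) * (a₁ - a₂ + x))
    (N := fun x => a₂ - x) h.1 hs.y0 hs.hy hpos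
    (fun t h1 h2 => sqrt_of_pos_sq (hpos t h1 h2) (by
      rw [show v2 a₁ a₂ a₃ r t ^ 2 = PP (a₂ - r) (a₂ - a₃) (a₂ - a₁)
        (y2 a₁ a₂ a₃ r t) from yd_sq _ _ _ t]
      unfold PP
      ring)) (by fun_prop)

lemma clock2T_aux (hax : Ax a₁ a₂ a₃) (hr : r ∈ Ico a₃ a₂) (h : First a₁ a₂ a₃ r τ) :
    IntervalIntegrable (gk2T a₁ a₂ a₃ r) volume 0 (-y2 a₁ a₂ a₃ r τ) ∧
    G2 a₁ a₂ a₃ r τ = gg2T a₁ a₂ a₃ r (-y2 a₁ a₂ a₃ r τ) := by
  have hs := isY2 a₁ a₂ a₃ r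
  have hpos : ∀ t, 0 < t → t < τ → 0 < -v2 a₁ a₂ a₃ r t := fun t h1 h2 =>
    neg_pos.mpr (v2_negT hax.h12 hax.h23 hr h1 (lt_of_lt_of_le h2 (h.2 hr.2.ne)))
  obtain ⟨h1, h2⟩ := clock_gen (y := fun t => -y2 a₁ a₂ a₃ r t) (v := fun t => -v2 a₁ a₂ a₃ r t)
    (Q := fun x => 4 * x * (a₂ - r + x) * (a₂ - a₃ + x) * (a₁ - a₂ - x))
    (N := fun x => a₂ + x) h.1 (by simp [hs.y0]) (fun t => (hs.hy t).neg) hpos
    (fun t h1 h2 => sqrt_of_pos_sq (hpos t h1 h2) (by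
      have h3 : (-v2 a₁ a₂ a₃ r t) ^ 2 = v2 a₁ a₂ a₃ r t ^ 2 := by ring
      rw [h3, show v2 a₁ a₂ a₃ r t ^ 2 = PP (a₂ - r) (a₂ - a₃) (a₂ - a₁)
        (y2 a₁ a₂ a₃ r t) from yd_sq _ _ _ t]
      unfold PP
      ring)) (by fun_prop)
  refine ⟨h1, ?_⟩
  rw [show gg2T a₁ a₂ a₃ r (-y2 a₁ a₂ a₃ r τ) = _ from h2.symm]
  unfold G2
  apply intervalIntegral.integral_congr
  intro s _
  simp only
  ring

lemma first_Ts (hax : Ax a₁ a₂ a₃) (hr : r ∈ Ico a₃ a₁) (h2 : r ≠ a₂) :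
    First a₁ a₂ a₃ r (Ts a₁ a₂ a₃ r) := ⟨(Ts_pos hax.h12 hax.h23 hr h2).le, fun _ => le_rfl⟩

lemma int1 (hax : Ax a₁ a₂ a₃) (hr : a₃ ≤ r) (hr' : r < a₁) (hx : 0 ≤ x) (hk : x ≤ a₁ - r)
    (hm : x ≤ a₁ - a₂) (h : x < a₁ - a₂ ∨ r ≠ a₂) :
    IntervalIntegrable (gk1 a₁ a₂ a₃ r) volume 0 x := by
  have h12 := hax.h12
  have h23 := hax.h23
  by_cases h2 : r = a₂
  · have hx2 : x < a₁ - a₂ := h.resolve_right (fun hne => hne h2)
    have := int_interior (N := fun x => a₁ - x)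
      (R := fun x => 4 * (a₁ - r - x) * (a₁ - a₂ - x) * (a₁ - a₃ - x)) hx (by fun_prop)
      (by fun_prop) (by
        intro y hy
        have h4 : 0 < a₁ - r - y := by
          rw [h2]
          linarith [hy.2]
        have h5 : 0 < a₁ - a₂ - y := by linarith [hy.2]
        have h6 : 0 < a₁ - a₃ - y := by linarith [hy.2]
        positivity)
    refine this.congr (by
      intro y _
      unfold gk1
      simp only
      congr 2
      ring)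
  · have hF := first_Ts hax ⟨hr, hr'⟩ h2
    have h3 := (clock1_aux hax ⟨hr, hr'⟩ hF).1
    have hle : x ≤ y1 a₁ a₂ a₃ r (Ts a₁ a₂ a₃ r) := by
      rcases lt_or_gt_of_ne h2 with hlt | hgt
      · rw [(TsT h12 h23 ⟨hr, hlt⟩).1]
        exact hm
      · rw [(TsI h12 h23 ⟨hgt, hr'⟩).1]
        exact hk
    apply h3.mono_set
    rw [uIcc_of_le hx, uIcc_of_le (hx.trans hle)]
    exact Icc_subset_Icc le_rfl hle

lemma int3 (hax : Ax a₁ a₂ a₃) (hr : a₃ < r) (hr' : r < a₁) (hx : 0 ≤ x) (hk : x ≤ r - a₃)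
    (hm : x ≤ a₂ - a₃) (h : x < a₂ - a₃ ∨ r ≠ a₂) :
    IntervalIntegrable (gk3 a₁ a₂ a₃ r) volume 0 x := by
  have h12 := hax.h12
  have h23 := hax.h23
  by_cases h2 : r = a₂
  · have hx2 : x < a₂ - a₃ := h.resolve_right (fun hne => hne h2)
    have := int_interior (N := fun x => a₃ + x)
      (R := fun x => 4 * (r - a₃ - x) * (a₂ - a₃ - x) * (a₁ - a₃ - x)) hx (by fun_prop)
      (by fun_prop) (by
        intro y hy
        have h4 : 0 < r - a₃ - y := by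
          rw [h2]
          linarith [hy.2]
        have h5 : 0 < a₂ - a₃ - y := by linarith [hy.2]
        have h6 : 0 < a₁ - a₃ - y := by linarith [hy.2]
        positivity)
    refine this.congr (by
      intro y _
      unfold gk3
      simp only
      congr 2
      ring)
  · have hF := first_Ts hax ⟨hr.le, hr'⟩ h2
    have h3 := (clock3_aux hax ⟨hr, hr'⟩ hF).1
    have hle : x ≤ -y3 a₁ a₂ a₃ r (Ts a₁ a₂ a₃ r) := by
      rcases lt_or_gt_of_ne h2 with hlt | hgt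
      · rw [(TsT h12 h23 ⟨hr.le, hlt⟩).2.2]
        linarith
      · rw [(TsI h12 h23 ⟨hgt, hr'⟩).2.2]
        linarith
    apply h3.mono_set
    rw [uIcc_of_le hx, uIcc_of_le (hx.trans hle)]
    exact Icc_subset_Icc le_rfl hle

lemma int2I (hax : Ax a₁ a₂ a₃) (hr : a₂ < r) (hr' : r < a₁) (hx : 0 ≤ x)
    (hm : x ≤ a₂ - a₃) : IntervalIntegrable (gk2I a₁ a₂ a₃ r) volume 0 x := by
  have h12 := hax.h12
  have h23 := hax.h23
  have hF := first_Ts hax ⟨h23.le.trans hr.le, hr'⟩ hr.ne'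
  have h3 := (clock2I_aux hax ⟨hr, hr'⟩ hF).1
  have hle : x ≤ y2 a₁ a₂ a₃ r (Ts a₁ a₂ a₃ r) := by
    rw [(TsI h12 h23 ⟨hr, hr'⟩).2.1]
    exact hm
  apply h3.mono_set
  rw [uIcc_of_le hx, uIcc_of_le (hx.trans hle)]
  exact Icc_subset_Icc le_rfl hle

lemma int2T (hax : Ax a₁ a₂ a₃) (hr : a₃ ≤ r) (hr' : r < a₂) (hx : 0 ≤ x)
    (hm : x ≤ a₁ - a₂) : IntervalIntegrable (gk2T a₁ a₂ a₃ r) volume 0 x := by
  have h12 := hax.h12
  have h23 := hax.h23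
  have hF := first_Ts hax ⟨hr, hr'.trans h12⟩ hr'.ne
  have h3 := (clock2T_aux hax ⟨hr, hr'⟩ hF).1
  have hle : x ≤ -y2 a₁ a₂ a₃ r (Ts a₁ a₂ a₃ r) := by
    rw [(TsT h12 h23 ⟨hr, hr'⟩).2.1]
    linarith
  apply h3.mono_set
  rw [uIcc_of_le hx, uIcc_of_le (hx.trans hle)]
  exact Icc_subset_Icc le_rfl hle

lemma measurable_gk1 : Measurable (gk1 a₁ a₂ a₃ r) := by
  unfold gk1
  fun_prop

lemma measurable_gk2T : Measurable (gk2T a₁ a₂ a₃ r) := by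
  unfold gk2T
  fun_prop

lemma gk1_pos (hax : Ax a₁ a₂ a₃) (hx : 0 < x) (hk : x < a₁ - r)
    (hm : x < a₁ - a₂) : 0 < gk1 a₁ a₂ a₃ r x := by
  have h12 := hax.h12
  have h23 := hax.h23
  have h3 := hax.pos
  unfold gk1
  have h4 : 0 < a₁ - r - x := by linarith
  have h5 : 0 < a₁ - a₂ - x := by linarith
  have h6 : 0 < a₁ - a₃ - x := by linarith
  have h7 : 0 < a₁ - x := by linarith
  have h8 : 0 < 4 * x * (a₁ - r - x) * (a₁ - a₂ - x) * (a₁ - a₃ - x) := by positivity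
  exact div_pos h7 (Real.sqrt_pos.mpr h8)

lemma gk3_pos (hax : Ax a₁ a₂ a₃) (hx : 0 < x) (hk : x < r - a₃)
    (hm : x < a₂ - a₃) : 0 < gk3 a₁ a₂ a₃ r x := by
  have h12 := hax.h12
  have h23 := hax.h23
  have h3 := hax.pos
  unfold gk3
  have h4 : 0 < r - a₃ - x := by linarith
  have h5 : 0 < a₂ - a₃ - x := by linarith
  have h6 : 0 < a₁ - a₃ - x := by linarith
  have h7 : 0 < a₃ + x := by linarith
  have h8 : 0 < 4 * x * (r - a₃ - x) * (a₂ - a₃ - x) * (a₁ - a₃ - x) := by positivity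
  exact div_pos h7 (Real.sqrt_pos.mpr h8)

lemma gk2I_pos (hax : Ax a₁ a₂ a₃) (hr : a₂ < r) (hx : 0 < x) (hm : x < a₂ - a₃) :
    0 < gk2I a₁ a₂ a₃ r x := by
  have h12 := hax.h12
  have h23 := hax.h23
  have h3 := hax.pos
  unfold gk2I
  have h4 : 0 < r - a₂ + x := by linarith
  have h5 : 0 < a₂ - a₃ - x := by linarith
  have h6 : 0 < a₁ - a₂ + x := by linarith
  have h7 : 0 < a₂ - x := by linarith
  have h8 : 0 < 4 * x * (r - a₂ + x) * (a₂ - a₃ - x) * (a₁ - a₂ + x) := by positivity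
  exact div_pos h7 (Real.sqrt_pos.mpr h8)

lemma gk2T_pos (hax : Ax a₁ a₂ a₃) (hr : r < a₂) (hx : 0 < x) (hm : x < a₁ - a₂) :
    0 < gk2T a₁ a₂ a₃ r x := by
  have h12 := hax.h12
  have h23 := hax.h23
  have h3 := hax.pos
  unfold gk2T
  have h4 : 0 < a₂ - r + x := by linarith
  have h5 : 0 < a₂ - a₃ + x := by linarith
  have h6 : 0 < a₁ - a₂ - x := by linarith
  have h7 : 0 < a₂ + x := by linarith
  have h8 : 0 < 4 * x * (a₂ - r + x) * (a₂ - a₃ + x) * (a₁ - a₂ - x) := by positivity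
  exact div_pos h7 (Real.sqrt_pos.mpr h8)

end ClockAux

open ClockAux

section clock
variable {a₁ a₂ a₃ r r' τ x x' : ℝ}

theorem clock1 (hax : Ax a₁ a₂ a₃) (hr : r ∈ Ico a₃ a₁) (h : First a₁ a₂ a₃ r τ) :
    G1 a₁ a₂ a₃ r τ = gg1 a₁ a₂ a₃ r (y1 a₁ a₂ a₃ r τ) := (clock1_aux hax hr h).2
theorem clock3 (hax : Ax a₁ a₂ a₃) (hr : r ∈ Ioo a₃ a₁) (h : First a₁ a₂ a₃ r τ) :
    G3 a₁ a₂ a₃ r τ = gg3 a₁ a₂ a₃ r (-y3 a₁ a₂ a₃ r τ) := (clock3_aux hax hr h).2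
theorem clock2I (hax : Ax a₁ a₂ a₃) (hr : r ∈ Ioo a₂ a₁) (h : First a₁ a₂ a₃ r τ) :
    G2 a₁ a₂ a₃ r τ = gg2I a₁ a₂ a₃ r (y2 a₁ a₂ a₃ r τ) := (clock2I_aux hax hr h).2
theorem clock2T (hax : Ax a₁ a₂ a₃) (hr : r ∈ Ico a₃ a₂) (h : First a₁ a₂ a₃ r τ) :
    G2 a₁ a₂ a₃ r τ = gg2T a₁ a₂ a₃ r (-y2 a₁ a₂ a₃ r τ) := (clock2T_aux hax hr h).2

/-- monotonicity in `x` -/
theorem gg1_strictMono (hax : Ax a₁ a₂ a₃) (hr : a₃ ≤ r) (hr' : r < a₁) (hx : 0 ≤ x)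
    (hxx : x < x') (hk : x' ≤ a₁ - r) (hm : x' ≤ a₁ - a₂) (h : x' < a₁ - a₂ ∨ r ≠ a₂) :
    gg1 a₁ a₂ a₃ r x < gg1 a₁ a₂ a₃ r x' :=
  gg_strict hx hxx (int1 hax hr hr' (hx.trans hxx.le) hk hm h)
    (fun s h1 h2 => gk1_pos hax h1 (by linarith) (by linarith))
theorem gg3_strictMono (hax : Ax a₁ a₂ a₃) (hr : a₃ < r) (hr' : r < a₁) (hx : 0 ≤ x)
    (hxx : x < x') (hk : x' ≤ r - a₃) (hm : x' ≤ a₂ - a₃) (h : x' < a₂ - a₃ ∨ r ≠ a₂) :
    gg3 a₁ a₂ a₃ r x < gg3 a₁ a₂ a₃ r x' :=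
  gg_strict hx hxx (int3 hax hr hr' (hx.trans hxx.le) hk hm h)
    (fun s h1 h2 => gk3_pos hax h1 (by linarith) (by linarith))
theorem gg2I_strictMono (hax : Ax a₁ a₂ a₃) (hr : a₂ < r) (hr' : r < a₁) (hx : 0 ≤ x)
    (hxx : x < x') (hm : x' ≤ a₂ - a₃) :
    gg2I a₁ a₂ a₃ r x < gg2I a₁ a₂ a₃ r x' :=
  gg_strict hx hxx (int2I hax hr hr' (hx.trans hxx.le) hm)
    (fun s h1 h2 => gk2I_pos hax hr h1 (by linarith))
theorem gg2T_strictMono (hax : Ax a₁ a₂ a₃) (hr : a₃ ≤ r) (hr' : r < a₂) (hx : 0 ≤ x)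
    (hxx : x < x') (hm : x' ≤ a₁ - a₂) :
    gg2T a₁ a₂ a₃ r x < gg2T a₁ a₂ a₃ r x' :=
  gg_strict hx hxx (int2T hax hr hr' (hx.trans hxx.le) hm)
    (fun s h1 h2 => gk2T_pos hax hr' h1 (by linarith))
/-- continuity in `x` up to the end, and the derivative inside -/
theorem gg1_cont (hax : Ax a₁ a₂ a₃) (hr : a₃ ≤ r) (hr' : r < a₁) (hk : x ≤ a₁ - r)
    (hm : x ≤ a₁ - a₂) (h : x < a₁ - a₂ ∨ r ≠ a₂) :
    ContinuousOn (gg1 a₁ a₂ a₃ r) (Icc 0 x) := by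
  rcases le_or_gt 0 x with hx | hx
  · exact gg_contOn hx (int1 hax hr hr' hx hk hm h)
  · rw [Icc_eq_empty (not_le.mpr hx)]
    exact continuousOn_empty _
theorem gg1_deriv (hax : Ax a₁ a₂ a₃) (hr : a₃ ≤ r) (hr' : r < a₁) (hx : 0 < x)
    (hk : x < a₁ - r) (hm : x < a₁ - a₂) :
    HasDerivAt (gg1 a₁ a₂ a₃ r) (gk1 a₁ a₂ a₃ r x) x := by
  apply gg_hasDerivAt (int1 hax hr hr' hx.le hk.le hm.le (Or.inl hm)) measurable_gk1
  have h12 := hax.h12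
  have h23 := hax.h23
  have h4 : 0 < a₁ - r - x := by linarith
  have h5 : 0 < a₁ - a₂ - x := by linarith
  have h6 : 0 < a₁ - a₃ - x := by linarith
  have h8 : 0 < 4 * x * (a₁ - r - x) * (a₁ - a₂ - x) * (a₁ - a₃ - x) := by positivity
  exact contAt_kernel (N := fun x => a₁ - x)
    (Q := fun x => 4 * x * (a₁ - r - x) * (a₁ - a₂ - x) * (a₁ - a₃ - x))
    (by fun_prop) (by fun_prop) h8
theorem gg2T_cont (hax : Ax a₁ a₂ a₃) (hr : a₃ ≤ r) (hr' : r < a₂) :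
    ContinuousOn (gg2T a₁ a₂ a₃ r) (Icc 0 (a₁ - a₂)) :=
  gg_contOn (by linarith [hax.h12])
    (int2T hax hr hr' (by linarith [hax.h12]) le_rfl)
theorem gg2T_deriv (hax : Ax a₁ a₂ a₃) (hr : a₃ ≤ r) (hr' : r < a₂) (hx : 0 < x)
    (hm : x < a₁ - a₂) :
    HasDerivAt (gg2T a₁ a₂ a₃ r) (gk2T a₁ a₂ a₃ r x) x := by
  apply gg_hasDerivAt (int2T hax hr hr' hx.le hm.le) measurable_gk2T
  have h12 := hax.h12
  have h23 := hax.h23
  have h4 : 0 < a₂ - r + x := by linarith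
  have h5 : 0 < a₂ - a₃ + x := by linarith
  have h6 : 0 < a₁ - a₂ - x := by linarith
  have h8 : 0 < 4 * x * (a₂ - r + x) * (a₂ - a₃ + x) * (a₁ - a₂ - x) := by positivity
  exact contAt_kernel (N := fun x => a₂ + x)
    (Q := fun x => 4 * x * (a₂ - r + x) * (a₂ - a₃ + x) * (a₁ - a₂ - x))
    (by fun_prop) (by fun_prop) h8

end clock

end

end Pool.Agent.CutS3
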