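import Pool.Agent.CutS3.Defs
import Pool.Agent.MP_4423d6_an.Flow

set_option autoImplicit false

/-!
# The cut locus of left-invariant metrics on `S^3` : ordinary differential equations
-/

namespace Pool.Agent.CutS3

open Set Filter Topology Metric
open scoped NNReal

theorem ode_global {E : Type} [NormedAddCommGroup E] [NormedSpace ℝ E] [FiniteDimensional ℝ E]
    {v : E → E} (hv : ContDiff ℝ 1 v) {F : E → ℝ} (hF : ContDiff ℝ 1 F)
    (hcons : ∀ x, fderiv ℝ F x (v x) = 0) (x₀ : E)
    (hb : Bornology.IsBounded {x | F x = F x₀}) :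
    ∃ c : ℝ → E, c 0 = x₀ ∧ ∀ t, HasDerivAt c (v (c t)) t := by
  have : CompleteSpace E := FiniteDimensional.complete ℝ E
  obtain ⟨R, hR⟩ := hb.subset_closedBall (0 : E)
  let χ : ContDiffBump (0 : E) := ⟨max R 0 + 1, max R 0 + 2, by positivity, by linarith⟩
  let w : E → E := fun x => χ x • v x
  have hw : ContDiff ℝ 1 w := (χ.contDiff (n := 1)).smul hv
  have hws : HasCompactSupport w := χ.hasCompactSupport.smul_right
  obtain ⟨K, hK⟩ := hw.lipschitzWith_of_hasCompactSupport hws one_ne_zero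
  obtain ⟨L, hL⟩ := hws.exists_bound_of_continuous hw.continuous
  obtain ⟨c, hc0, hc⟩ := MP_4423d6_an.exists_sol hK (L := ⟨max L 0, le_max_right _ _⟩)
    (fun x => (hL x).trans (le_max_left _ _)) x₀
  have hconst : ∀ t, F (c t) = F x₀ := by
    have hd : ∀ t, HasDerivAt (fun s => F (c s)) 0 t := by
      intro t
      have h1 := ((hF.differentiable one_ne_zero) (c t)).hasFDerivAt.comp_hasDerivAt t (hc t)
      have h2 : fderiv ℝ F (c t) (w (c t)) = 0 := by
        simp only [w, map_smul, hcons, smul_zero]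
      rw [h2] at h1
      exact h1
    intro t
    have := is_const_of_deriv_eq_zero (fun t => (hd t).differentiableAt) (fun t => (hd t).deriv) t 0
    simpa [hc0] using this
  refine ⟨c, hc0, fun t => ?_⟩
  have hmem : c t ∈ closedBall (0 : E) χ.rIn := by
    have := hR (hconst t)
    rw [mem_closedBall] at this ⊢
    exact this.trans ((le_max_left R 0).trans (by simp [χ]))
  have h1 : χ (c t) = 1 := χ.one_of_mem_closedBall hmem
  have h2 := hc t
  simp only [w, h1, one_smul] at h2
  exact h2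

theorem ode_unique {E : Type} [NormedAddCommGroup E] [NormedSpace ℝ E] [FiniteDimensional ℝ E]
    {v : E → E} (hv : ContDiff ℝ 1 v) {c d : ℝ → E} (hc : ∀ t, HasDerivAt c (v (c t)) t)
    (hd : ∀ t, HasDerivAt d (v (d t)) t) {t₀ : ℝ} (h : c t₀ = d t₀) : c = d := by
  have hcc : Continuous c := continuous_iff_continuousAt.2 fun t => (hc t).continuousAt
  have hdc : Continuous d := continuous_iff_continuousAt.2 fun t => (hd t).continuousAt
  have hclosed : IsClosed {t | c t = d t} := isClosed_eq hcc hdc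
  have hopen : IsOpen {t | c t = d t} := by
    rw [isOpen_iff_mem_nhds]
    intro t ht
    obtain ⟨K, s, hs, hK⟩ := (hv.contDiffAt (x := c t)).exists_lipschitzOnWith
    have h1 : ∀ᶠ τ in 𝓝 t, HasDerivAt c (v (c τ)) τ ∧ c τ ∈ s :=
      (Eventually.of_forall hc).and (hcc.continuousAt.eventually hs)
    have h2 : ∀ᶠ τ in 𝓝 t, HasDerivAt d (v (d τ)) τ ∧ d τ ∈ s := by
      have hs' : s ∈ 𝓝 (d t) := by rw [← (show c t = d t from ht)]; exact hs
      exact (Eventually.of_forall hd).and (hdc.continuousAt.eventually hs')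
    exact ODE_solution_unique_of_eventually (v := fun _ => v) (s := fun _ => s)
      (Eventually.of_forall fun _ => hK) h1 h2 ht
  have huniv : {t | c t = d t} = univ := IsClopen.eq_univ ⟨hclosed, hopen⟩ ⟨t₀, h⟩
  funext t
  have : t ∈ {t | c t = d t} := by rw [huniv]; trivial
  exact this

namespace OdeAux

theorem dist_forward {E : Type*} [NormedAddCommGroup E] [NormedSpace ℝ E] {v : E → E} {s : Set E}
    {K : ℝ≥0} (hv : LipschitzOnWith K v s) {f g : ℝ → E} (hf : ∀ t, HasDerivAt f (v (f t)) t)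
    (hg : ∀ t, HasDerivAt g (v (g t)) t) (hfs : ∀ t, f t ∈ s) (hgs : ∀ t, g t ∈ s)
    {t : ℝ} (ht : 0 ≤ t) : dist (f t) (g t) ≤ dist (f 0) (g 0) * Real.exp (K * t) := by
  have := dist_le_of_trajectories_ODE_of_mem (v := fun _ => v) (s := fun _ => s) (K := K)
    (a := 0) (b := t) (fun _ _ => hv) (f := f) (g := g)
    (fun r _ => (hf r).continuousAt.continuousWithinAt)
    (fun r _ => (hf r).hasDerivWithinAt) (fun r _ => hfs r)
    (fun r _ => (hg r).continuousAt.continuousWithinAt)
    (fun r _ => (hg r).hasDerivWithinAt) (fun r _ => hgs r) le_rfl t ⟨ht, le_rfl⟩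
  simpa using this

theorem dist_both {E : Type*} [NormedAddCommGroup E] [NormedSpace ℝ E] {v : E → E} {s : Set E}
    {K : ℝ≥0} (hv : LipschitzOnWith K v s) {f g : ℝ → E} (hf : ∀ t, HasDerivAt f (v (f t)) t)
    (hg : ∀ t, HasDerivAt g (v (g t)) t) (hfs : ∀ t, f t ∈ s) (hgs : ∀ t, g t ∈ s)
    (t : ℝ) : dist (f t) (g t) ≤ dist (f 0) (g 0) * Real.exp (K * |t|) := by
  rcases le_total 0 t with ht | ht
  · rw [abs_of_nonneg ht]; exact dist_forward hv hf hg hfs hgs ht
  · have hv' : LipschitzOnWith K (fun x => - v x) s := by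
      intro x hx y hy
      have := hv hx hy
      simpa [edist_neg_neg] using this
    have aux : ∀ h : ℝ → E, (∀ t, HasDerivAt h (v (h t)) t) →
        ∀ t, HasDerivAt (fun s => h (-s)) (- v (h (-t))) t := by
      intro h hh t
      have := (hh (-t)).scomp t (hasDerivAt_neg t)
      simpa [Function.comp_def] using this
    have h1 := dist_forward hv' (aux f hf) (aux g hg) (fun t => hfs _) (fun t => hgs _)
      (t := -t) (by linarith)
    simpa [abs_of_nonpos ht] using h1

theorem lipschitzOn_ball {E F : Type*} [NormedAddCommGroup E] [NormedSpace ℝ E]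
    [FiniteDimensional ℝ E] [NormedAddCommGroup F] [NormedSpace ℝ F] {v : E → F}
    (hv : ContDiff ℝ 1 v) (x : E) (R : ℝ) : ∃ K : ℝ≥0, LipschitzOnWith K v (closedBall x R) := by
  have : ProperSpace E := FiniteDimensional.proper ℝ E
  have hc : Continuous fun y => fderiv ℝ v y := hv.continuous_fderiv one_ne_zero
  obtain ⟨C, hC⟩ := (isCompact_closedBall x R).exists_bound_of_continuousOn hc.continuousOn
  refine ⟨⟨max C 0, le_max_right _ _⟩, ?_⟩
  refine (convex_closedBall x R).lipschitzOnWith_of_nnnorm_fderiv_le (𝕜 := ℝ)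
    (fun y _ => hv.differentiable one_ne_zero y) (fun y hy => ?_)
  exact (hC y hy).trans (le_max_left _ _)

end OdeAux

theorem ode_continuous {P E : Type} [NormedAddCommGroup P] [NormedSpace ℝ P]
    [FiniteDimensional ℝ P] [NormedAddCommGroup E] [NormedSpace ℝ E] [FiniteDimensional ℝ E]
    {V : P × E → E} (hV : ContDiff ℝ 1 V) {c : P → ℝ → E}
    (hc : ∀ p t, HasDerivAt (c p) (V (p, c p t)) t) (h0 : Continuous fun p => c p 0)
    {B : P → ℝ} (hB : Continuous B) (hb : ∀ p t, ‖c p t‖ ≤ B p) :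
    Continuous fun x : P × ℝ => c x.1 x.2 := by
  rw [continuous_iff_continuousAt]
  rintro ⟨p₀, t₀⟩
  let M : ℝ := max (B p₀ + 1) (‖p₀‖ + 1)
  let W : P × E → P × E := fun z => (0, V z)
  have hW : ContDiff ℝ 1 W := contDiff_const.prodMk hV
  obtain ⟨K, hK⟩ := OdeAux.lipschitzOn_ball hW (0 : P × E) M
  have hder : ∀ p t, HasDerivAt (fun t => (p, c p t)) (W (p, c p t)) t := fun p t =>
    (hasDerivAt_const t p).prodMk (hc p t)
  have hnear : ∀ᶠ p in 𝓝 p₀, ∀ t, (p, c p t) ∈ closedBall (0 : P × E) M := by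
    have h1 : ∀ᶠ p in 𝓝 p₀, B p < B p₀ + 1 :=
      hB.continuousAt.eventually (gt_mem_nhds (by linarith))
    have h2 : ∀ᶠ p in 𝓝 p₀, ‖p‖ < ‖p₀‖ + 1 :=
      continuous_norm.continuousAt.eventually (gt_mem_nhds (by linarith))
    filter_upwards [h1, h2] with p hp1 hp2 t
    rw [mem_closedBall, dist_zero_right, Prod.norm_def]
    refine max_le (hp2.le.trans (le_max_right _ _)) ?_
    exact ((hb p t).trans hp1.le).trans (le_max_left _ _)
  have hself := hnear.self_of_nhds
  have hbound : ∀ᶠ x : P × ℝ in 𝓝 (p₀, t₀), dist (c x.1 x.2) (c p₀ t₀) ≤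
      dist (x.1, c x.1 0) (p₀, c p₀ 0) * Real.exp (K * |x.2|) + dist (c p₀ x.2) (c p₀ t₀) := by
    have h1 : ∀ᶠ x : P × ℝ in 𝓝 (p₀, t₀), ∀ t, (x.1, c x.1 t) ∈ closedBall (0 : P × E) M :=
      (continuous_fst.tendsto (p₀, t₀)).eventually hnear
    filter_upwards [h1] with x hx
    refine (dist_triangle _ (c p₀ x.2) _).trans (add_le_add_left ?_ _)
    have h2 := OdeAux.dist_both hK (hder x.1) (hder p₀) hx hself x.2
    refine le_trans ?_ h2
    exact le_max_right _ _
  have hcc : Continuous (c p₀) := continuous_iff_continuousAt.2 fun t => (hc p₀ t).continuousAt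
  have hlim : Tendsto (fun x : P × ℝ => dist (x.1, c x.1 0) (p₀, c p₀ 0) * Real.exp (K * |x.2|)
      + dist (c p₀ x.2) (c p₀ t₀)) (𝓝 (p₀, t₀)) (𝓝 0) := by
    have hcont : Continuous fun x : P × ℝ =>
        dist (x.1, c x.1 0) (p₀, c p₀ 0) * Real.exp (K * |x.2|)
      + dist (c p₀ x.2) (c p₀ t₀) := by
      have h3 : Continuous fun x : P × ℝ => c x.1 0 := h0.comp continuous_fst
      have h4 : Continuous fun x : P × ℝ => c p₀ x.2 := hcc.comp continuous_snd
      fun_prop
    have := hcont.tendsto (p₀, t₀)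
    simpa using this
  rw [ContinuousAt, tendsto_iff_dist_tendsto_zero]
  exact squeeze_zero' (Eventually.of_forall fun _ => dist_nonneg) hbound hlim

end Pool.Agent.CutS3
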