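import Pool.Agent.CutS3.Defs
import Pool.Agent.CutS3.Ode

set_option autoImplicit false
set_option linter.unusedVariables false

/-!
# The cut locus of left-invariant metrics on `S^3` : geodesics
-/

namespace Pool.Agent.CutS3

open Set Quaternion Filter Topology Metric

noncomputable section

namespace GeoAux

theorem starModR : StarModule ℝ ℍ[ℝ] := ⟨fun r q => by simp⟩

attribute [local instance] starModR

theorem rf1_re (q : ℍ[ℝ]) : (rf1 q).re = q.re := rfl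
theorem rf1_imI (q : ℍ[ℝ]) : (rf1 q).imI = -q.imI := rfl
theorem rf1_imJ (q : ℍ[ℝ]) : (rf1 q).imJ = q.imJ := rfl
theorem rf1_imK (q : ℍ[ℝ]) : (rf1 q).imK = q.imK := rfl
theorem rf2_re (q : ℍ[ℝ]) : (rf2 q).re = q.re := rfl
theorem rf2_imI (q : ℍ[ℝ]) : (rf2 q).imI = q.imI := rfl
theorem rf2_imJ (q : ℍ[ℝ]) : (rf2 q).imJ = -q.imJ := rfl
theorem rf2_imK (q : ℍ[ℝ]) : (rf2 q).imK = q.imK := rfl
theorem rf3_re (q : ℍ[ℝ]) : (rf3 q).re = q.re := rfl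
theorem rf3_imI (q : ℍ[ℝ]) : (rf3 q).imI = q.imI := rfl
theorem rf3_imJ (q : ℍ[ℝ]) : (rf3 q).imJ = q.imJ := rfl
theorem rf3_imK (q : ℍ[ℝ]) : (rf3 q).imK = -q.imK := rfl
theorem cyc_re (q : ℍ[ℝ]) : (cyc q).re = q.re := rfl
theorem cyc_imI (q : ℍ[ℝ]) : (cyc q).imI = q.imJ := rfl
theorem cyc_imJ (q : ℍ[ℝ]) : (cyc q).imJ = q.imK := rfl
theorem cyc_imK (q : ℍ[ℝ]) : (cyc q).imK = q.imI := rfl
theorem dg_re (a₁ a₂ a₃ : ℝ) (q : ℍ[ℝ]) : (dg a₁ a₂ a₃ q).re = 0 := rfl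
theorem dg_imI (a₁ a₂ a₃ : ℝ) (q : ℍ[ℝ]) : (dg a₁ a₂ a₃ q).imI = a₁ * q.imI := rfl
theorem dg_imJ (a₁ a₂ a₃ : ℝ) (q : ℍ[ℝ]) : (dg a₁ a₂ a₃ q).imJ = a₂ * q.imJ := rfl
theorem dg_imK (a₁ a₂ a₃ : ℝ) (q : ℍ[ℝ]) : (dg a₁ a₂ a₃ q).imK = a₃ * q.imK := rfl
theorem mk_re (a b c d : ℝ) : ((⟨a, b, c, d⟩ : ℍ[ℝ])).re = a := rfl
theorem mk_imI (a b c d : ℝ) : ((⟨a, b, c, d⟩ : ℍ[ℝ])).imI = b := rfl
theorem mk_imJ (a b c d : ℝ) : ((⟨a, b, c, d⟩ : ℍ[ℝ])).imJ = c := rfl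
theorem mk_imK (a b c d : ℝ) : ((⟨a, b, c, d⟩ : ℍ[ℝ])).imK = d := rfl

attribute [local simp] rf1_re rf1_imI rf1_imJ rf1_imK rf2_re rf2_imI rf2_imJ rf2_imK rf3_re
  rf3_imI rf3_imJ rf3_imK cyc_re cyc_imI cyc_imJ cyc_imK dg_re dg_imI dg_imJ dg_imK
  mk_re mk_imI mk_imJ mk_imK

theorem norm_sq_eq (q : ℍ[ℝ]) : ‖q‖ ^ 2 = q.re ^ 2 + q.imI ^ 2 + q.imJ ^ 2 + q.imK ^ 2 := by
  rw [sq, ← normSq_eq_norm_mul_self, normSq_def']

theorem norm_eq_of {p q : ℍ[ℝ]} (h : p.re ^ 2 + p.imI ^ 2 + p.imJ ^ 2 + p.imK ^ 2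
    = q.re ^ 2 + q.imI ^ 2 + q.imJ ^ 2 + q.imK ^ 2) : ‖p‖ = ‖q‖ := by
  have h1 : ‖p‖ ^ 2 = ‖q‖ ^ 2 := by rw [norm_sq_eq, norm_sq_eq, h]
  exact (pow_left_inj₀ (norm_nonneg _) (norm_nonneg _) two_ne_zero).1 h1

theorem star_mul_of_norm {q : ℍ[ℝ]} (hq : ‖q‖ = 1) : star q * q = 1 := by
  rw [star_mul_self, normSq_eq_norm_mul_self, hq]; simp

theorem mul_star_of_norm {q : ℍ[ℝ]} (hq : ‖q‖ = 1) : q * star q = 1 := by
  rw [self_mul_star, normSq_eq_norm_mul_self, hq]; simp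

def rf1L : ℍ[ℝ] →L[ℝ] ℍ[ℝ] := LinearMap.toContinuousLinearMap
  { toFun := rf1
    map_add' := fun p q => by ext <;> simp; ring
    map_smul' := fun r q => by ext <;> simp }
def rf2L : ℍ[ℝ] →L[ℝ] ℍ[ℝ] := LinearMap.toContinuousLinearMap
  { toFun := rf2
    map_add' := fun p q => by ext <;> simp; ring
    map_smul' := fun r q => by ext <;> simp }
def rf3L : ℍ[ℝ] →L[ℝ] ℍ[ℝ] := LinearMap.toContinuousLinearMap
  { toFun := rf3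
    map_add' := fun p q => by ext <;> simp; ring
    map_smul' := fun r q => by ext <;> simp }
def cycL : ℍ[ℝ] →L[ℝ] ℍ[ℝ] := LinearMap.toContinuousLinearMap
  { toFun := cyc
    map_add' := fun p q => by ext <;> simp
    map_smul' := fun r q => by ext <;> simp }
def dgL (a₁ a₂ a₃ : ℝ) : ℍ[ℝ] →L[ℝ] ℍ[ℝ] := LinearMap.toContinuousLinearMap
  { toFun := dg a₁ a₂ a₃
    map_add' := fun p q => by ext <;> simp <;> ring
    map_smul' := fun r q => by ext <;> simp <;> ring }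
def stL : ℍ[ℝ] →L[ℝ] ℍ[ℝ] := LinearMap.toContinuousLinearMap
  { toFun := star
    map_add' := fun p q => by simp
    map_smul' := fun r q => by simp }

theorem rf1L_apply (q : ℍ[ℝ]) : rf1L q = rf1 q := rfl
theorem rf2L_apply (q : ℍ[ℝ]) : rf2L q = rf2 q := rfl
theorem rf3L_apply (q : ℍ[ℝ]) : rf3L q = rf3 q := rfl
theorem cycL_apply (q : ℍ[ℝ]) : cycL q = cyc q := rfl
theorem dgL_apply (a₁ a₂ a₃ : ℝ) (q : ℍ[ℝ]) : dgL a₁ a₂ a₃ q = dg a₁ a₂ a₃ q := rfl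
theorem stL_apply (q : ℍ[ℝ]) : stL q = star q := rfl

theorem dg_smul (a₁ a₂ a₃ : ℝ) (s : ℝ) (q : ℍ[ℝ]) :
    dg a₁ a₂ a₃ (s • q) = s • dg a₁ a₂ a₃ q := (dgL a₁ a₂ a₃).map_smul s q

theorem star_dg (a₁ a₂ a₃ : ℝ) (q : ℍ[ℝ]) : star (dg a₁ a₂ a₃ q) = -dg a₁ a₂ a₃ q := by
  ext <;> simp

theorem dg_rf1 (a₁ a₂ a₃ : ℝ) (q : ℍ[ℝ]) : dg a₁ a₂ a₃ (rf1 q) = rf1 (dg a₁ a₂ a₃ q) := by
  ext <;> simp
theorem dg_rf2 (a₁ a₂ a₃ : ℝ) (q : ℍ[ℝ]) : dg a₁ a₂ a₃ (rf2 q) = rf2 (dg a₁ a₂ a₃ q) := by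
  ext <;> simp
theorem dg_rf3 (a₁ a₂ a₃ : ℝ) (q : ℍ[ℝ]) : dg a₁ a₂ a₃ (rf3 q) = rf3 (dg a₁ a₂ a₃ q) := by
  ext <;> simp
theorem dg_cyc (a₁ a₂ a₃ : ℝ) (q : ℍ[ℝ]) : dg a₂ a₃ a₁ (cyc q) = cyc (dg a₁ a₂ a₃ q) := by
  ext <;> simp
theorem star_rf1 (q : ℍ[ℝ]) : star (rf1 q) = rf1 (star q) := by ext <;> simp
theorem star_rf2 (q : ℍ[ℝ]) : star (rf2 q) = rf2 (star q) := by ext <;> simp
theorem star_rf3 (q : ℍ[ℝ]) : star (rf3 q) = rf3 (star q) := by ext <;> simp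
theorem star_cyc (q : ℍ[ℝ]) : star (cyc q) = cyc (star q) := by ext <;> simp
theorem cyc_mul (p q : ℍ[ℝ]) : cyc (p * q) = cyc p * cyc q := by ext <;> simp <;> ring
theorem rf1_one : rf1 1 = 1 := by ext <;> simp
theorem rf2_one : rf2 1 = 1 := by ext <;> simp
theorem rf3_one : rf3 1 = 1 := by ext <;> simp
theorem cyc_one : cyc 1 = 1 := by ext <;> simp

theorem bm_smul (s : ℝ) (m q : ℍ[ℝ]) : bm (s • m) q = s • bm m q := by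
  simp [bm]

theorem bm_mul (m g q : ℍ[ℝ]) : bm m (g * q) = bm (bm m g) q := by
  simp [bm, mul_assoc]

theorem contDiff_vf (a₁ a₂ a₃ : ℝ) :
    ContDiff ℝ 1 fun x : ℍ[ℝ] × ℍ[ℝ] => vf a₁ a₂ a₃ x.1 x.2 := by
  have h1 : ContDiff ℝ 1 fun x : ℍ[ℝ] × ℍ[ℝ] => star x.2 * x.1 * x.2 :=
    ((stL.contDiff.comp contDiff_snd).mul contDiff_fst).mul contDiff_snd
  exact contDiff_snd.mul ((dgL a₁ a₂ a₃).contDiff.comp h1)

theorem contDiff_vf' (a₁ a₂ a₃ : ℝ) (m : ℍ[ℝ]) : ContDiff ℝ 1 (vf a₁ a₂ a₃ m) :=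
  (contDiff_vf a₁ a₂ a₃).comp (contDiff_const.prodMk contDiff_id)

theorem vf_cons (a₁ a₂ a₃ : ℝ) (m q : ℍ[ℝ]) :
    fderiv ℝ (fun x : ℍ[ℝ] => ‖x‖ ^ 2) q (vf a₁ a₂ a₃ m q) = 0 := by
  rw [fderiv_norm_sq_apply]
  have h : (dg a₁ a₂ a₃ (bm m q)).re = 0 := rfl
  simp only [vf]
  generalize dg a₁ a₂ a₃ (bm m q) = w at *
  change (2 : ℕ) • inner ℝ q (q * w) = 0
  rw [inner_def]
  simp [h]
  ring

end GeoAux

open GeoAux

attribute [local instance] GeoAux.starModR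
attribute [local simp] rf1_re rf1_imI rf1_imJ rf1_imK rf2_re rf2_imI rf2_imJ rf2_imK rf3_re
  rf3_imI rf3_imJ rf3_imK cyc_re cyc_imI cyc_imJ cyc_imK dg_re dg_imI dg_imJ dg_imK
  mk_re mk_imI mk_imJ mk_imK

section geo
variable {a₁ a₂ a₃ : ℝ}

theorem rf1_mul (p q : ℍ[ℝ]) : rf1 (p * q) = rf1 q * rf1 p := by ext <;> simp <;> ring
theorem rf2_mul (p q : ℍ[ℝ]) : rf2 (p * q) = rf2 q * rf2 p := by ext <;> simp <;> ring
theorem rf3_mul (p q : ℍ[ℝ]) : rf3 (p * q) = rf3 q * rf3 p := by ext <;> simp <;> ring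
theorem norm_rf1 (q : ℍ[ℝ]) : ‖rf1 q‖ = ‖q‖ := norm_eq_of (by simp)
theorem norm_rf2 (q : ℍ[ℝ]) : ‖rf2 q‖ = ‖q‖ := norm_eq_of (by simp)
theorem norm_rf3 (q : ℍ[ℝ]) : ‖rf3 q‖ = ‖q‖ := norm_eq_of (by simp)
theorem continuous_rf1 : Continuous rf1 := rf1L.continuous
theorem continuous_rf2 : Continuous rf2 := rf2L.continuous
theorem continuous_rf3 : Continuous rf3 := rf3L.continuous

theorem bm_re {m : ℍ[ℝ]} (hm : m.re = 0) (q : ℍ[ℝ]) : (bm m q).re = 0 := by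
  simp [bm, hm]; ring
theorem bm_one (m : ℍ[ℝ]) : bm m 1 = m := by simp [bm]
theorem norm_bm (m : ℍ[ℝ]) {q : ℍ[ℝ]} (hq : ‖q‖ = 1) : ‖bm m q‖ = ‖m‖ := by
  simp [bm, norm_mul, hq]
theorem bm_inj {m m' q : ℍ[ℝ]} (hq : ‖q‖ = 1) (h : bm m q = bm m' q) : m = m' := by
  have h1 : ∀ n : ℍ[ℝ], q * bm n q * star q = n := by
    intro n
    have : q * bm n q * star q = (q * star q) * n * (q * star q) := by
      simp only [bm, mul_assoc]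
    rw [this, mul_star_of_norm hq, one_mul, mul_one]
  rw [← h1 m, h, h1]

theorem isGeo_geo (a₁ a₂ a₃ : ℝ) (m : ℍ[ℝ]) : IsGeo a₁ a₂ a₃ m (geo a₁ a₂ a₃ m) := by
  have hex : ∃ c, IsGeo a₁ a₂ a₃ m c := by
    refine ode_global (contDiff_vf' a₁ a₂ a₃ m) (F := fun x => ‖x‖ ^ 2) (contDiff_norm_sq ℝ)
      (vf_cons a₁ a₂ a₃ m) 1 ?_
    refine (isBounded_closedBall (x := (0 : ℍ[ℝ])) (r := 1)).subset ?_
    intro x hx
    have hx' : ‖x‖ ^ 2 = 1 := by simpa using hx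
    rw [mem_closedBall, dist_zero_right]
    nlinarith [norm_nonneg x]
  unfold geo
  rw [dif_pos hex]
  exact hex.choose_spec

theorem geo_unique {m : ℍ[ℝ]} {c : ℝ → ℍ[ℝ]} (h : IsGeo a₁ a₂ a₃ m c) :
    c = geo a₁ a₂ a₃ m :=
  ode_unique (contDiff_vf' a₁ a₂ a₃ m) h.2 (isGeo_geo a₁ a₂ a₃ m).2
    (h.1.trans (isGeo_geo a₁ a₂ a₃ m).1.symm)

theorem geo_zero (m : ℍ[ℝ]) : geo a₁ a₂ a₃ m 0 = 1 := (isGeo_geo a₁ a₂ a₃ m).1

theorem GeoAux.hasDerivAt_geo (m : ℍ[ℝ]) (t : ℝ) :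
    HasDerivAt (geo a₁ a₂ a₃ m) (vf a₁ a₂ a₃ m (geo a₁ a₂ a₃ m t)) t :=
  (isGeo_geo a₁ a₂ a₃ m).2 t

theorem norm_geo (m : ℍ[ℝ]) (t : ℝ) : ‖geo a₁ a₂ a₃ m t‖ = 1 := by
  have hd : ∀ t, HasDerivAt (fun s => ‖geo a₁ a₂ a₃ m s‖ ^ 2) 0 t := by
    intro t
    have h1 := (((contDiff_norm_sq ℝ (n := 1)).differentiable one_ne_zero)
      (geo a₁ a₂ a₃ m t)).hasFDerivAt.comp_hasDerivAt t (hasDerivAt_geo m t)
    rw [vf_cons] at h1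
    exact h1
  have := is_const_of_deriv_eq_zero (fun t => (hd t).differentiableAt) (fun t => (hd t).deriv) t 0
  simp only [geo_zero] at this
  have h2 : ‖geo a₁ a₂ a₃ m t‖ ^ 2 = 1 := by simpa using this
  nlinarith [norm_nonneg (geo a₁ a₂ a₃ m t)]

theorem geo_smul (s : ℝ) (m : ℍ[ℝ]) (t : ℝ) :
    geo a₁ a₂ a₃ (s • m) t = geo a₁ a₂ a₃ m (s * t) := by
  have h : IsGeo a₁ a₂ a₃ (s • m) (fun t => geo a₁ a₂ a₃ m (s * t)) := by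
    refine ⟨by simp [geo_zero], fun t => ?_⟩
    have h1 := (hasDerivAt_geo (a₁ := a₁) (a₂ := a₂) (a₃ := a₃) m (s * t)).scomp t
      ((hasDerivAt_id t).const_mul s)
    have h2 : vf a₁ a₂ a₃ (s • m) (geo a₁ a₂ a₃ m (s * t))
        = (s * 1) • vf a₁ a₂ a₃ m (geo a₁ a₂ a₃ m (s * t)) := by
      simp only [vf, bm_smul, dg_smul, mul_smul_comm, mul_one]
    rw [h2]
    exact h1
  rw [← geo_unique h]

theorem geo_add (m : ℍ[ℝ]) (s t : ℝ) :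
    geo a₁ a₂ a₃ m (s + t) = geo a₁ a₂ a₃ m s * geo a₁ a₂ a₃ (bg a₁ a₂ a₃ m s) t := by
  have h := ode_unique (contDiff_vf' a₁ a₂ a₃ m)
    (c := fun t => geo a₁ a₂ a₃ m (s + t))
    (d := fun t => geo a₁ a₂ a₃ m s * geo a₁ a₂ a₃ (bg a₁ a₂ a₃ m s) t) (t₀ := 0)
    (fun t => (hasDerivAt_geo m (s + t)).comp_const_add s t) (fun t => ?_)
    (by simp [geo_zero])
  · exact congrFun h t
  · have h1 := (hasDerivAt_geo (a₁ := a₁) (a₂ := a₂) (a₃ := a₃) (bg a₁ a₂ a₃ m s) t).const_mul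
      (geo a₁ a₂ a₃ m s)
    have h2 : vf a₁ a₂ a₃ m (geo a₁ a₂ a₃ m s * geo a₁ a₂ a₃ (bg a₁ a₂ a₃ m s) t)
      = geo a₁ a₂ a₃ m s * vf a₁ a₂ a₃ (bg a₁ a₂ a₃ m s)
        (geo a₁ a₂ a₃ (bg a₁ a₂ a₃ m s) t) := by
      simp only [vf, bm_mul, mul_assoc]
      rfl
    rw [h2]
    exact h1

theorem bg_add (m : ℍ[ℝ]) (s t : ℝ) :
    bg a₁ a₂ a₃ m (s + t) = bg a₁ a₂ a₃ (bg a₁ a₂ a₃ m s) t := by
  unfold bg
  rw [geo_add, bm_mul]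
  rfl

theorem bg_zero (m : ℍ[ℝ]) : bg a₁ a₂ a₃ m 0 = m := by
  unfold bg
  rw [geo_zero, bm_one]

theorem bg_smul (s : ℝ) (m : ℍ[ℝ]) (t : ℝ) :
    bg a₁ a₂ a₃ (s • m) t = s • bg a₁ a₂ a₃ m (s * t) := by
  unfold bg
  rw [geo_smul, bm_smul]

theorem continuous_geo :
    Continuous fun x : ℍ[ℝ] × ℝ => geo a₁ a₂ a₃ x.1 x.2 := by
  refine ode_continuous (P := ℍ[ℝ]) (E := ℍ[ℝ]) (V := fun x => vf a₁ a₂ a₃ x.1 x.2)
    (contDiff_vf a₁ a₂ a₃) (c := geo a₁ a₂ a₃) (fun m t => hasDerivAt_geo m t) ?_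
    (B := fun _ => 1) continuous_const (fun m t => (norm_geo m t).le)
  simp only [geo_zero]
  exact continuous_const

theorem continuous_bg :
    Continuous fun x : ℍ[ℝ] × ℝ => bg a₁ a₂ a₃ x.1 x.2 := by
  have h := continuous_geo (a₁ := a₁) (a₂ := a₂) (a₃ := a₃)
  have h1 : Continuous fun x : ℍ[ℝ] × ℝ => star (geo a₁ a₂ a₃ x.1 x.2) := h.star
  exact (h1.mul continuous_fst).mul h

theorem bg_re {m : ℍ[ℝ]} (hm : m.re = 0) (t : ℝ) : (bg a₁ a₂ a₃ m t).re = 0 := bm_re hm _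
theorem norm_bg (m : ℍ[ℝ]) (t : ℝ) : ‖bg a₁ a₂ a₃ m t‖ = ‖m‖ := norm_bm m (norm_geo m t)

theorem hasDerivAt_bg {m : ℍ[ℝ]} (hm : m.re = 0) (t : ℝ) :
    HasDerivAt (bg a₁ a₂ a₃ m) (⟨0,
      2 * (a₃ - a₂) * (bg a₁ a₂ a₃ m t).imJ * (bg a₁ a₂ a₃ m t).imK,
      2 * (a₁ - a₃) * (bg a₁ a₂ a₃ m t).imI * (bg a₁ a₂ a₃ m t).imK,
      2 * (a₂ - a₁) * (bg a₁ a₂ a₃ m t).imI * (bg a₁ a₂ a₃ m t).imJ⟩ : ℍ[ℝ]) t := by
  have hq := hasDerivAt_geo (a₁ := a₁) (a₂ := a₂) (a₃ := a₃) m t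
  have h1 := (hq.star.mul_const m).mul hq
  have h2 : star (vf a₁ a₂ a₃ m (geo a₁ a₂ a₃ m t)) * m * geo a₁ a₂ a₃ m t
      + star (geo a₁ a₂ a₃ m t) * m * vf a₁ a₂ a₃ m (geo a₁ a₂ a₃ m t)
      = bg a₁ a₂ a₃ m t * dg a₁ a₂ a₃ (bg a₁ a₂ a₃ m t)
        - dg a₁ a₂ a₃ (bg a₁ a₂ a₃ m t) * bg a₁ a₂ a₃ m t := by
    simp only [vf, star_mul, star_dg, bg]
    simp only [bm, mul_assoc, neg_mul]
    abel
  have h3 := bg_re (a₁ := a₁) (a₂ := a₂) (a₃ := a₃) hm t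
  rw [h2] at h1
  have h4 : bg a₁ a₂ a₃ m t * dg a₁ a₂ a₃ (bg a₁ a₂ a₃ m t)
        - dg a₁ a₂ a₃ (bg a₁ a₂ a₃ m t) * bg a₁ a₂ a₃ m t = (⟨0,
      2 * (a₃ - a₂) * (bg a₁ a₂ a₃ m t).imJ * (bg a₁ a₂ a₃ m t).imK,
      2 * (a₁ - a₃) * (bg a₁ a₂ a₃ m t).imI * (bg a₁ a₂ a₃ m t).imK,
      2 * (a₂ - a₁) * (bg a₁ a₂ a₃ m t).imI * (bg a₁ a₂ a₃ m t).imJ⟩ : ℍ[ℝ]) := by
    generalize bg a₁ a₂ a₃ m t = p at *
    ext <;> simp [h3] <;> ring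
  rw [h4] at h1
  exact h1

namespace GeoAux

def cIL : ℍ[ℝ] →L[ℝ] ℝ := LinearMap.toContinuousLinearMap
  { toFun := fun q => q.imI
    map_add' := fun p q => by simp
    map_smul' := fun r q => by simp }
def cJL : ℍ[ℝ] →L[ℝ] ℝ := LinearMap.toContinuousLinearMap
  { toFun := fun q => q.imJ
    map_add' := fun p q => by simp
    map_smul' := fun r q => by simp }
def cKL : ℍ[ℝ] →L[ℝ] ℝ := LinearMap.toContinuousLinearMap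
  { toFun := fun q => q.imK
    map_add' := fun p q => by simp
    map_smul' := fun r q => by simp }

theorem deriv_comp {f : ℝ → ℍ[ℝ]} {f' : ℍ[ℝ]} {t : ℝ} (h : HasDerivAt f f' t) :
    HasDerivAt (fun s => (f s).imI) f'.imI t ∧ HasDerivAt (fun s => (f s).imJ) f'.imJ t ∧
    HasDerivAt (fun s => (f s).imK) f'.imK t :=
  ⟨cIL.hasFDerivAt.comp_hasDerivAt t h, cJL.hasFDerivAt.comp_hasDerivAt t h,
    cKL.hasFDerivAt.comp_hasDerivAt t h⟩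

end GeoAux

theorem HH_bg {m : ℍ[ℝ]} (hm : m.re = 0) (t : ℝ) :
    HH a₁ a₂ a₃ (bg a₁ a₂ a₃ m t) = HH a₁ a₂ a₃ m := by
  have hd : ∀ t, HasDerivAt (fun s => HH a₁ a₂ a₃ (bg a₁ a₂ a₃ m s)) 0 t := by
    intro t
    obtain ⟨h1, h2, h3⟩ := deriv_comp (hasDerivAt_bg (a₁ := a₁) (a₂ := a₂) (a₃ := a₃) hm t)
    have h4 := (((h1.pow 2).const_mul a₁).add ((h2.pow 2).const_mul a₂)).add
      ((h3.pow 2).const_mul a₃)
    refine h4.congr_deriv ?_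
    push_cast
    ring
  have := is_const_of_deriv_eq_zero (fun t => (hd t).differentiableAt) (fun t => (hd t).deriv) t 0
  simpa only [bg_zero] using this

theorem bg_mem_Ell {m : ℍ[ℝ]} (hm : m ∈ Ell a₁ a₂ a₃) (t : ℝ) :
    bg a₁ a₂ a₃ m t ∈ Ell a₁ a₂ a₃ := ⟨bg_re hm.1 t, (HH_bg hm.1 t).trans hm.2⟩
theorem bg_mem_Un {m : ℍ[ℝ]} (hm : m ∈ Un) (t : ℝ) : bg a₁ a₂ a₃ m t ∈ Un :=
  ⟨bg_re hm.1 t, (norm_bg m t).trans hm.2⟩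

namespace GeoAux

theorem geo_rf_gen (R : ℍ[ℝ] →L[ℝ] ℍ[ℝ]) (hmul : ∀ p q, R (p * q) = R q * R p)
    (hstar : ∀ q, star (R q) = R (star q)) (hone : R 1 = 1)
    (hdg : ∀ q, dg a₁ a₂ a₃ (R q) = R (dg a₁ a₂ a₃ q)) (m : ℍ[ℝ]) (T t : ℝ) :
    geo a₁ a₂ a₃ (R (bg a₁ a₂ a₃ m T)) t
      = R (star (geo a₁ a₂ a₃ m (T - t)) * geo a₁ a₂ a₃ m T) ∧
    bg a₁ a₂ a₃ (R (bg a₁ a₂ a₃ m T)) t = R (bg a₁ a₂ a₃ m (T - t)) := by
  have key : ∀ t, bm (R (bg a₁ a₂ a₃ m T)) (R (star (geo a₁ a₂ a₃ m (T - t)) *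
      geo a₁ a₂ a₃ m T)) = R (bg a₁ a₂ a₃ m (T - t)) := by
    intro t
    have h1 : (star (geo a₁ a₂ a₃ m (T - t)) * geo a₁ a₂ a₃ m T) * (bg a₁ a₂ a₃ m T *
        star (star (geo a₁ a₂ a₃ m (T - t)) * geo a₁ a₂ a₃ m T))
        = bg a₁ a₂ a₃ m (T - t) := by
      have e1 := mul_star_of_norm (norm_geo (a₁ := a₁) (a₂ := a₂) (a₃ := a₃) m T)
      simp only [bg, bm, star_mul, star_star]
      generalize geo a₁ a₂ a₃ m T = u at *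
      generalize geo a₁ a₂ a₃ m (T - t) = h at *
      calc star h * u * (star u * m * u * (star u * h))
          = star h * (u * star u) * m * (u * star u) * h := by simp only [mul_assoc]
        _ = star h * m * h := by rw [e1, mul_one, mul_one]
    rw [← h1]
    generalize star (geo a₁ a₂ a₃ m (T - t)) * geo a₁ a₂ a₃ m T = u
    rw [hmul, hmul, ← hstar]
    rfl
  have hc : IsGeo a₁ a₂ a₃ (R (bg a₁ a₂ a₃ m T))
      (fun t => R (star (geo a₁ a₂ a₃ m (T - t)) * geo a₁ a₂ a₃ m T)) := by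
    refine ⟨?_, fun t => ?_⟩
    · simp only [sub_zero]
      rw [star_mul_of_norm (norm_geo m T), hone]
    · have h1 := (((hasDerivAt_geo (a₁ := a₁) (a₂ := a₂) (a₃ := a₃) m (T - t)).comp_const_sub
        T t).star.mul_const (geo a₁ a₂ a₃ m T))
      have h2 := R.hasFDerivAt.comp_hasDerivAt t h1
      refine h2.congr_deriv ?_
      change _ = R (star (geo a₁ a₂ a₃ m (T - t)) * geo a₁ a₂ a₃ m T) *
        dg a₁ a₂ a₃ (bm (R (bg a₁ a₂ a₃ m T)) (R (star (geo a₁ a₂ a₃ m (T - t)) *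
          geo a₁ a₂ a₃ m T)))
      rw [key, hdg, ← hmul]
      congr 1
      simp only [vf, star_neg, star_mul, star_dg, neg_mul, neg_neg, mul_assoc]
      rfl
  have h := geo_unique hc
  have h' := congrFun h t
  refine ⟨h'.symm, ?_⟩
  rw [bg, ← h', key]

end GeoAux

theorem geo_rf1 {m : ℍ[ℝ]} (hm : m.re = 0) (T t : ℝ) :
    geo a₁ a₂ a₃ (rf1 (bg a₁ a₂ a₃ m T)) t
      = rf1 (star (geo a₁ a₂ a₃ m (T - t)) * geo a₁ a₂ a₃ m T) :=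
  (geo_rf_gen rf1L rf1_mul star_rf1 rf1_one (dg_rf1 a₁ a₂ a₃) m T t).1
theorem geo_rf2 {m : ℍ[ℝ]} (hm : m.re = 0) (T t : ℝ) :
    geo a₁ a₂ a₃ (rf2 (bg a₁ a₂ a₃ m T)) t
      = rf2 (star (geo a₁ a₂ a₃ m (T - t)) * geo a₁ a₂ a₃ m T) :=
  (geo_rf_gen rf2L rf2_mul star_rf2 rf2_one (dg_rf2 a₁ a₂ a₃) m T t).1
theorem geo_rf3 {m : ℍ[ℝ]} (hm : m.re = 0) (T t : ℝ) :
    geo a₁ a₂ a₃ (rf3 (bg a₁ a₂ a₃ m T)) t
      = rf3 (star (geo a₁ a₂ a₃ m (T - t)) * geo a₁ a₂ a₃ m T) :=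
  (geo_rf_gen rf3L rf3_mul star_rf3 rf3_one (dg_rf3 a₁ a₂ a₃) m T t).1
theorem bg_rf1 {m : ℍ[ℝ]} (hm : m.re = 0) (T t : ℝ) :
    bg a₁ a₂ a₃ (rf1 (bg a₁ a₂ a₃ m T)) t = rf1 (bg a₁ a₂ a₃ m (T - t)) :=
  (geo_rf_gen rf1L rf1_mul star_rf1 rf1_one (dg_rf1 a₁ a₂ a₃) m T t).2
theorem bg_rf2 {m : ℍ[ℝ]} (hm : m.re = 0) (T t : ℝ) :
    bg a₁ a₂ a₃ (rf2 (bg a₁ a₂ a₃ m T)) t = rf2 (bg a₁ a₂ a₃ m (T - t)) :=
  (geo_rf_gen rf2L rf2_mul star_rf2 rf2_one (dg_rf2 a₁ a₂ a₃) m T t).2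
theorem bg_rf3 {m : ℍ[ℝ]} (hm : m.re = 0) (T t : ℝ) :
    bg a₁ a₂ a₃ (rf3 (bg a₁ a₂ a₃ m T)) t = rf3 (bg a₁ a₂ a₃ m (T - t)) :=
  (geo_rf_gen rf3L rf3_mul star_rf3 rf3_one (dg_rf3 a₁ a₂ a₃) m T t).2

namespace GeoAux

theorem rot_eq (θ : ℝ) (n : ℍ[ℝ]) : rot θ n = Real.cos θ • (1 : ℍ[ℝ]) + Real.sin θ • n := by
  unfold rot
  congr 1
  ext <;> simp

theorem rot_re (θ : ℝ) (n : ℍ[ℝ]) : (rot θ n).re = Real.cos θ + Real.sin θ * n.re := by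
  simp [rot]
theorem rot_imI (θ : ℝ) (n : ℍ[ℝ]) : (rot θ n).imI = Real.sin θ * n.imI := by
  simp [rot]
theorem rot_imJ (θ : ℝ) (n : ℍ[ℝ]) : (rot θ n).imJ = Real.sin θ * n.imJ := by
  simp [rot]
theorem rot_imK (θ : ℝ) (n : ℍ[ℝ]) : (rot θ n).imK = Real.sin θ * n.imK := by
  simp [rot]

theorem hasDerivAt_rot (k t : ℝ) (n : ℍ[ℝ]) :
    HasDerivAt (fun t => rot (k * t) n)
      ((-(k * Real.sin (k * t))) • (1 : ℍ[ℝ]) + (k * Real.cos (k * t)) • n) t := by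
  have h1 : HasDerivAt (fun t => k * t) k t := by
    simpa using (hasDerivAt_id t).const_mul k
  have h2 := (Real.hasDerivAt_cos (k * t)).comp t h1
  have h3 := (Real.hasDerivAt_sin (k * t)).comp t h1
  have h4 := (h2.smul_const (1 : ℍ[ℝ])).add (h3.smul_const n)
  have h5 : (fun t => rot (k * t) n) = fun t => (Real.cos ∘ fun t => k * t) t • (1 : ℍ[ℝ])
      + (Real.sin ∘ fun t => k * t) t • n := by
    funext t
    rw [rot_eq]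
    rfl
  rw [h5]
  refine h4.congr_deriv ?_
  congr 2 <;> ring

theorem bm_rot {e : ℍ[ℝ]} (he : e.re = 0) (hn : ‖e‖ = 1) (s θ : ℝ) :
    bm (s • e) (rot θ e) = s • e := by
  have h := Real.sin_sq_add_cos_sq θ
  have h0 := norm_sq_eq e
  rw [hn, he] at h0
  ext <;> simp only [bm, rot_re, rot_imI, rot_imJ, rot_imK, re_mul, imI_mul, imJ_mul, imK_mul,
    re_smul, imI_smul, imJ_smul, imK_smul, re_star, imI_star, imJ_star, imK_star, smul_eq_mul, he]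
  · ring
  · linear_combination s * e.imI * h - s * e.imI * Real.sin θ ^ 2 * h0
  · linear_combination s * e.imJ * h - s * e.imJ * Real.sin θ ^ 2 * h0
  · linear_combination s * e.imK * h - s * e.imK * Real.sin θ ^ 2 * h0

theorem geo_axis_gen {e : ℍ[ℝ]} (he : e.re = 0) (hn : ‖e‖ = 1) {a : ℝ}
    (hd : dg a₁ a₂ a₃ e = a • e) (s t : ℝ) :
    geo a₁ a₂ a₃ (s • e) t = rot (a * s * t) e := by
  have h : IsGeo a₁ a₂ a₃ (s • e) (fun t => rot (a * s * t) e) := by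
    refine ⟨by simp [rot], fun t => (hasDerivAt_rot (a * s) t _).congr_deriv ?_⟩
    have h0 := norm_sq_eq e
    rw [hn, he] at h0
    change _ = rot (a * s * t) e * dg a₁ a₂ a₃ (bm (s • e) (rot (a * s * t) e))
    rw [bm_rot he hn, dg_smul, hd]
    ext <;> simp only [rot_re, rot_imI, rot_imJ, rot_imK, re_mul, imI_mul, imJ_mul, imK_mul,
      re_smul, imI_smul, imJ_smul, imK_smul, re_add, imI_add, imJ_add, imK_add, smul_eq_mul, he,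
      re_one, imI_one, imJ_one, imK_one]
    · linear_combination (-(a * s * Real.sin (a * s * t))) * h0
    · ring
    · ring
    · ring
  rw [← geo_unique h]

def mkq (a b c d : ℝ) : ℍ[ℝ] := ⟨a, b, c, d⟩
theorem mkq_re (a b c d : ℝ) : (mkq a b c d).re = a := rfl
theorem mkq_imI (a b c d : ℝ) : (mkq a b c d).imI = b := rfl
theorem mkq_imJ (a b c d : ℝ) : (mkq a b c d).imJ = c := rfl
theorem mkq_imK (a b c d : ℝ) : (mkq a b c d).imK = d := rfl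

attribute [local simp] mkq_re mkq_imI mkq_imJ mkq_imK

theorem eq_mkq {m : ℍ[ℝ]} {a b c d : ℝ} (h0 : m.re = a) (h1 : m.imI = b) (h2 : m.imJ = c)
    (h3 : m.imK = d) : m = mkq a b c d := QuaternionAlgebra.ext h0 h1 h2 h3

/-- the derivative of the body momentum -/
def dbg (a₁ a₂ a₃ : ℝ) (m : ℍ[ℝ]) : ℍ[ℝ] := mkq 0 (2 * (a₃ - a₂) * m.imJ * m.imK)
  (2 * (a₁ - a₃) * m.imI * m.imK) (2 * (a₂ - a₁) * m.imI * m.imJ)

theorem hasDerivAt_bgq {m : ℍ[ℝ]} (hm : m.re = 0) (t : ℝ) :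
    HasDerivAt (bg a₁ a₂ a₃ m) (dbg a₁ a₂ a₃ (bg a₁ a₂ a₃ m t)) t := hasDerivAt_bg hm t

theorem norm_eq_one_of {q : ℍ[ℝ]} (h : q.re ^ 2 + q.imI ^ 2 + q.imJ ^ 2 + q.imK ^ 2 = 1) :
    ‖q‖ = 1 := by
  have h1 := norm_sq_eq q
  rw [h] at h1
  nlinarith [norm_nonneg q]

theorem bm_rot1 (s θ : ℝ) : bm (mkq 0 s 0 0) (rot θ (mkq 0 1 0 0)) = mkq 0 s 0 0 := by
  have h : mkq 0 s 0 0 = s • mkq 0 1 0 0 := by ext <;> simp
  rw [h, bm_rot (by simp) (norm_eq_one_of (by simp))]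
theorem bm_rot2 (s θ : ℝ) : bm (mkq 0 0 s 0) (rot θ (mkq 0 0 1 0)) = mkq 0 0 s 0 := by
  have h : mkq 0 0 s 0 = s • mkq 0 0 1 0 := by ext <;> simp
  rw [h, bm_rot (by simp) (norm_eq_one_of (by simp))]
theorem bm_rot3 (s θ : ℝ) : bm (mkq 0 0 0 s) (rot θ (mkq 0 0 0 1)) = mkq 0 0 0 s := by
  have h : mkq 0 0 0 s = s • mkq 0 0 0 1 := by ext <;> simp
  rw [h, bm_rot (by simp) (norm_eq_one_of (by simp))]

theorem geo_axis1q (s t : ℝ) :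
    geo a₁ a₂ a₃ (mkq 0 s 0 0) t = rot (a₁ * s * t) (mkq 0 1 0 0) := by
  have h : mkq 0 s 0 0 = s • mkq 0 1 0 0 := by ext <;> simp
  rw [h, geo_axis_gen (a := a₁) (by simp) (norm_eq_one_of (by simp)) (by ext <;> simp)]
theorem geo_axis2q (s t : ℝ) :
    geo a₁ a₂ a₃ (mkq 0 0 s 0) t = rot (a₂ * s * t) (mkq 0 0 1 0) := by
  have h : mkq 0 0 s 0 = s • mkq 0 0 1 0 := by ext <;> simp
  rw [h, geo_axis_gen (a := a₂) (by simp) (norm_eq_one_of (by simp)) (by ext <;> simp)]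
theorem geo_axis3q (s t : ℝ) :
    geo a₁ a₂ a₃ (mkq 0 0 0 s) t = rot (a₃ * s * t) (mkq 0 0 0 1) := by
  have h : mkq 0 0 0 s = s • mkq 0 0 0 1 := by ext <;> simp
  rw [h, geo_axis_gen (a := a₃) (by simp) (norm_eq_one_of (by simp)) (by ext <;> simp)]

end GeoAux

theorem geo_axis1 (s t : ℝ) : geo a₁ a₂ a₃ ⟨0, s, 0, 0⟩ t = rot (a₁ * s * t) ⟨0, 1, 0, 0⟩ :=
  geo_axis1q s t
theorem geo_axis2 (s t : ℝ) : geo a₁ a₂ a₃ ⟨0, 0, s, 0⟩ t = rot (a₂ * s * t) ⟨0, 0, 1, 0⟩ :=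
  geo_axis2q s t
theorem geo_axis3 (s t : ℝ) : geo a₁ a₂ a₃ ⟨0, 0, 0, s⟩ t = rot (a₃ * s * t) ⟨0, 0, 0, 1⟩ :=
  geo_axis3q s t

theorem geo_cyc (m : ℍ[ℝ]) (t : ℝ) :
    geo a₂ a₃ a₁ (cyc m) t = cyc (geo a₁ a₂ a₃ m t) := by
  have h : IsGeo a₂ a₃ a₁ (cyc m) (fun t => cyc (geo a₁ a₂ a₃ m t)) := by
    refine ⟨by simp only [geo_zero, cyc_one], fun t => ?_⟩
    have h1 := cycL.hasFDerivAt.comp_hasDerivAt t
      (hasDerivAt_geo (a₁ := a₁) (a₂ := a₂) (a₃ := a₃) m t)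
    refine h1.congr_deriv ?_
    rw [cycL_apply]
    simp only [vf, cyc_mul, bm, ← dg_cyc, ← star_cyc]
  rw [← geo_unique h]

theorem bg_cyc (m : ℍ[ℝ]) (t : ℝ) :
    bg a₂ a₃ a₁ (cyc m) t = cyc (bg a₁ a₂ a₃ m t) := by
  simp only [bg, bm, geo_cyc, cyc_mul, star_cyc]

theorem rf1_mem_Ell {m : ℍ[ℝ]} : rf1 m ∈ Ell a₁ a₂ a₃ ↔ m ∈ Ell a₁ a₂ a₃ := by
  simp [Ell, HH]
theorem rf2_mem_Ell {m : ℍ[ℝ]} : rf2 m ∈ Ell a₁ a₂ a₃ ↔ m ∈ Ell a₁ a₂ a₃ := by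
  simp [Ell, HH]
theorem rf3_mem_Ell {m : ℍ[ℝ]} : rf3 m ∈ Ell a₁ a₂ a₃ ↔ m ∈ Ell a₁ a₂ a₃ := by
  simp [Ell, HH]

namespace GeoAux

theorem axis_of_prod (hax : Ax a₁ a₂ a₃) {m : ℍ[ℝ]}
    (h : dbg a₁ a₂ a₃ m = 0) :
    (m.imJ = 0 ∧ m.imK = 0) ∨ (m.imI = 0 ∧ m.imK = 0) ∨ (m.imI = 0 ∧ m.imJ = 0) := by
  have h1 : 2 * (a₃ - a₂) * m.imJ * m.imK = 0 := congrArg (fun q : ℍ[ℝ] => q.imI) h
  have h2 : 2 * (a₁ - a₃) * m.imI * m.imK = 0 := congrArg (fun q : ℍ[ℝ] => q.imJ) h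
  have h3 : 2 * (a₂ - a₁) * m.imI * m.imJ = 0 := congrArg (fun q : ℍ[ℝ] => q.imK) h
  have e1 : (2 * (a₃ - a₂)) ≠ 0 := by
    have := hax.h23
    intro h
    linarith
  have e2 : (2 * (a₁ - a₃)) ≠ 0 := by
    have := hax.h23
    have := hax.h12
    intro h
    linarith
  have e3 : (2 * (a₂ - a₁)) ≠ 0 := by
    have := hax.h12
    intro h
    linarith
  rw [mul_assoc] at h1 h2 h3
  have h1' := (mul_eq_zero.1 h1).resolve_left e1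
  have h2' := (mul_eq_zero.1 h2).resolve_left e2
  have h3' := (mul_eq_zero.1 h3).resolve_left e3
  rcases mul_eq_zero.1 h1' with hJ | hK
  · rcases mul_eq_zero.1 h2' with hI | hK
    · exact Or.inr (Or.inr ⟨hI, hJ⟩)
    · exact Or.inl ⟨hJ, hK⟩
  · rcases mul_eq_zero.1 h3' with hI | hJ
    · exact Or.inr (Or.inl ⟨hI, hK⟩)
    · exact Or.inl ⟨hJ, hK⟩

theorem bg_axis {m : ℍ[ℝ]} (hm : m.re = 0)
    (h : (m.imJ = 0 ∧ m.imK = 0) ∨ (m.imI = 0 ∧ m.imK = 0) ∨ (m.imI = 0 ∧ m.imJ = 0)) (t : ℝ) :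
    bg a₁ a₂ a₃ m t = m := by
  rcases h with ⟨h1, h2⟩ | ⟨h1, h2⟩ | ⟨h1, h2⟩
  · have : m = mkq 0 m.imI 0 0 := eq_mkq hm rfl h1 h2
    rw [this]
    unfold bg
    rw [geo_axis1q, bm_rot1]
  · have : m = mkq 0 0 m.imJ 0 := eq_mkq hm h1 rfl h2
    rw [this]
    unfold bg
    rw [geo_axis2q, bm_rot2]
  · have : m = mkq 0 0 0 m.imK := eq_mkq hm h1 h2 rfl
    rw [this]
    unfold bg
    rw [geo_axis3q, bm_rot3]

end GeoAux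

/-- equilibria: if the body momentum agrees with its time reversal for small times, two of
its components vanish -/
theorem axis_of_even (hax : Ax a₁ a₂ a₃) {m : ℍ[ℝ]} (hm : m.re = 0) {δ : ℝ} (hδ : 0 < δ)
    (h : ∀ s ∈ Ioo 0 δ, bg a₁ a₂ a₃ m s = bg a₁ a₂ a₃ m (-s)) :
    (m.imJ = 0 ∧ m.imK = 0) ∨ (m.imI = 0 ∧ m.imK = 0) ∨ (m.imI = 0 ∧ m.imJ = 0) := by
  refine axis_of_prod hax ?_
  have h1 := hasDerivAt_bgq (a₁ := a₁) (a₂ := a₂) (a₃ := a₃) hm 0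
  have h1' := hasDerivAt_bgq (a₁ := a₁) (a₂ := a₂) (a₃ := a₃) hm (-0)
  have h2 := h1'.scomp (0 : ℝ) (hasDerivAt_neg (0 : ℝ))
  have h3 := h1.sub h2
  have h4 : (bg a₁ a₂ a₃ m - bg a₁ a₂ a₃ m ∘ Neg.neg) =ᶠ[𝓝 0] fun _ => (0 : ℍ[ℝ]) := by
    filter_upwards [Ioo_mem_nhds (neg_lt_zero.2 hδ) hδ] with s hs
    simp only [Pi.sub_apply, Function.comp_apply]
    rcases lt_trichotomy s 0 with h0 | h0 | h0
    · have := h (-s) ⟨by linarith, by linarith [hs.1]⟩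
      rw [neg_neg] at this
      rw [this, sub_self]
    · simp [h0]
    · rw [h s ⟨h0, hs.2⟩, sub_self]
  have h5 := (h3.congr_of_eventuallyEq h4.symm).unique (hasDerivAt_const (0 : ℝ) (0 : ℍ[ℝ]))
  simp only [neg_zero, bg_zero] at h5
  refine (smul_eq_zero.1 (?_ : (2 : ℝ) • dbg a₁ a₂ a₃ m = 0)).resolve_left two_ne_zero
  refine Eq.trans ?_ h5
  rw [two_smul, neg_smul, one_smul, sub_neg_eq_add]

theorem axis_of_const (hax : Ax a₁ a₂ a₃) {m : ℍ[ℝ]} (hm : m.re = 0) {s t : ℝ} (hst : s < t)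
    (h : ∀ x ∈ Ioo s t, bg a₁ a₂ a₃ m x = bg a₁ a₂ a₃ m s) :
    (m.imJ = 0 ∧ m.imK = 0) ∨ (m.imI = 0 ∧ m.imK = 0) ∨ (m.imI = 0 ∧ m.imJ = 0) := by
  set x := (s + t) / 2 with hx
  have hxm : x ∈ Ioo s t := ⟨by linarith, by linarith⟩
  have h1 := hasDerivAt_bgq (a₁ := a₁) (a₂ := a₂) (a₃ := a₃) hm x
  have h2 : bg a₁ a₂ a₃ m =ᶠ[𝓝 x] fun _ => bg a₁ a₂ a₃ m s := by
    filter_upwards [Ioo_mem_nhds hxm.1 hxm.2] with y hy using h y hy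
  have h3 := (h1.congr_of_eventuallyEq h2.symm).unique
    (hasDerivAt_const x (bg a₁ a₂ a₃ m s))
  have h4 := axis_of_prod hax h3
  have h5 := bg_axis (a₁ := a₁) (a₂ := a₂) (a₃ := a₃) (bg_re hm x) h4 (-x)
  rw [← bg_add, add_neg_cancel, bg_zero] at h5
  rw [← h5] at h4
  exact h4

theorem HH_mem_Icc {n : ℍ[ℝ]} (hn : n ∈ Un) (hax : Ax a₁ a₂ a₃) :
    HH a₁ a₂ a₃ n ∈ Icc a₃ a₁ ∧ (HH a₁ a₂ a₃ n = a₁ → n.imJ = 0 ∧ n.imK = 0) ∧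
    (HH a₁ a₂ a₃ n = a₃ → n.imI = 0 ∧ n.imJ = 0) := by
  have h1 := hax.h23
  have h2 := hax.h12
  have h0 := norm_sq_eq n
  rw [hn.2, hn.1] at h0
  have e1 := sq_nonneg n.imI
  have e2 := sq_nonneg n.imJ
  have e3 := sq_nonneg n.imK
  have f1 : 0 ≤ (a₁ - a₂) * n.imJ ^ 2 := mul_nonneg (by linarith) e2
  have f2 : 0 ≤ (a₁ - a₃) * n.imK ^ 2 := mul_nonneg (by linarith) e3
  have f3 : 0 ≤ (a₂ - a₃) * n.imJ ^ 2 := mul_nonneg (by linarith) e2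
  have f4 : 0 ≤ (a₁ - a₃) * n.imI ^ 2 := mul_nonneg (by linarith) e1
  have g1 : a₁ - HH a₁ a₂ a₃ n = (a₁ - a₂) * n.imJ ^ 2 + (a₁ - a₃) * n.imK ^ 2 := by
    unfold HH; linear_combination a₁ * h0
  have g2 : HH a₁ a₂ a₃ n - a₃ = (a₂ - a₃) * n.imJ ^ 2 + (a₁ - a₃) * n.imI ^ 2 := by
    unfold HH; linear_combination -a₃ * h0
  refine ⟨⟨by linarith, by linarith⟩, fun h => ?_, fun h => ?_⟩
  · have k1 : (a₁ - a₂) * n.imJ ^ 2 = 0 := by linarith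
    have k2 : (a₁ - a₃) * n.imK ^ 2 = 0 := by linarith
    exact ⟨pow_eq_zero_iff two_ne_zero |>.1 ((mul_eq_zero.1 k1).resolve_left (by linarith)),
      pow_eq_zero_iff two_ne_zero |>.1 ((mul_eq_zero.1 k2).resolve_left (by linarith))⟩
  · have k1 : (a₂ - a₃) * n.imJ ^ 2 = 0 := by linarith
    have k2 : (a₁ - a₃) * n.imI ^ 2 = 0 := by linarith
    exact ⟨pow_eq_zero_iff two_ne_zero |>.1 ((mul_eq_zero.1 k2).resolve_left (by linarith)),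
      pow_eq_zero_iff two_ne_zero |>.1 ((mul_eq_zero.1 k1).resolve_left (by linarith))⟩

/-- rescaling to unit momentum -/
theorem unit_of_Ell {m : ℍ[ℝ]} (hm : m ∈ Ell a₁ a₂ a₃) (hax : Ax a₁ a₂ a₃) :
    0 < ‖m‖ ∧ ‖m‖⁻¹ • m ∈ Un ∧ HH a₁ a₂ a₃ (‖m‖⁻¹ • m) = rr m ∧
    rr m ∈ Icc a₃ a₁ ∧ (∀ t, geo a₁ a₂ a₃ m t = geo a₁ a₂ a₃ (‖m‖⁻¹ • m) (‖m‖ * t)) ∧
    (∀ t, bg a₁ a₂ a₃ m t = ‖m‖ • bg a₁ a₂ a₃ (‖m‖⁻¹ • m) (‖m‖ * t)) := by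
  have hpos : 0 < ‖m‖ := by
    rw [norm_pos_iff]
    rintro rfl
    have := hm.2
    simp [HH] at this
  have hun : ‖m‖⁻¹ • m ∈ Un := by
    refine ⟨by simp [hm.1], ?_⟩
    rw [norm_smul, norm_inv, norm_norm, inv_mul_cancel₀ hpos.ne']
  have hH : HH a₁ a₂ a₃ (‖m‖⁻¹ • m) = rr m := by
    have h1 : HH a₁ a₂ a₃ (‖m‖⁻¹ • m) = (‖m‖⁻¹) ^ 2 * HH a₁ a₂ a₃ m := by
      simp only [HH, imI_smul, imJ_smul, imK_smul, smul_eq_mul]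
      ring
    rw [h1, hm.2, rr, mul_one, inv_pow, one_div]
  have hmm : ‖m‖ • (‖m‖⁻¹ • m) = m := by
    rw [smul_smul, mul_inv_cancel₀ hpos.ne', one_smul]
  refine ⟨hpos, hun, hH, ?_, fun t => ?_, fun t => ?_⟩
  · rw [← hH]; exact (HH_mem_Icc hun hax).1
  · conv_lhs => rw [← hmm]
    rw [geo_smul]
  · conv_lhs => rw [← hmm]
    rw [bg_smul]

theorem isCompact_Ell (hax : Ax a₁ a₂ a₃) : IsCompact (Ell a₁ a₂ a₃) := by
  have hcl : IsClosed (Ell a₁ a₂ a₃) := by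
    have h1 : IsClosed {p : ℍ[ℝ] | p.re = 0} := isClosed_eq continuous_re continuous_const
    have h2 : IsClosed {p : ℍ[ℝ] | HH a₁ a₂ a₃ p = 1} := by
      refine isClosed_eq ?_ continuous_const
      unfold HH
      have := continuous_imI
      have := continuous_imJ
      have := continuous_imK
      fun_prop
    exact h1.inter h2
  refine isCompact_of_isClosed_isBounded hcl ?_
  refine (isBounded_closedBall (x := (0 : ℍ[ℝ])) (r := 1 + 1 / a₃)).subset ?_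
  intro m hm
  rw [mem_closedBall, dist_zero_right]
  have h1 := hax.h23
  have h2 := hax.h12
  have h3 := hax.pos
  have h0 := norm_sq_eq m
  have hE := hm.2
  unfold HH at hE
  rw [hm.1] at h0
  have f1 : a₃ * m.imI ^ 2 ≤ a₁ * m.imI ^ 2 := by
    apply mul_le_mul_of_nonneg_right _ (sq_nonneg _); linarith
  have f2 : a₃ * m.imJ ^ 2 ≤ a₂ * m.imJ ^ 2 := by
    apply mul_le_mul_of_nonneg_right _ (sq_nonneg _); linarith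
  have h4 : a₃ * ‖m‖ ^ 2 ≤ 1 := by
    rw [h0]
    nlinarith
  have h5 : ‖m‖ ^ 2 ≤ 1 / a₃ := by
    rw [le_div_iff₀ h3]; linarith
  have h6 : 0 < 1 / a₃ := by positivity
  nlinarith [norm_nonneg m, sq_nonneg (‖m‖ - 1)]

namespace GeoAux

/-- symmetric bilinear form of `HH` -/
def BB (a₁ a₂ a₃ : ℝ) (p q : ℍ[ℝ]) : ℝ :=
  a₁ * p.imI * q.imI + a₂ * p.imJ * q.imJ + a₃ * p.imK * q.imK

/-- Moving `m` towards an axis `e`: here `‖e‖² = k` and `⟨m, e⟩ = k B(m, e)`, `HH e = 1`. -/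
theorem dense_aux {m e : ℍ[ℝ]} (hm : m ∈ Ell a₁ a₂ a₃) (he : e ∈ Ell a₁ a₂ a₃) {k : ℝ}
    (hk : ‖e‖ ^ 2 = k)
    (hme : m.imI * e.imI + m.imJ * e.imJ + m.imK * e.imK = k * BB a₁ a₂ a₃ m e)
    (hne : ‖m‖ ^ 2 ≠ k) (S : Set ℝ) (hS : S.Finite) {ε : ℝ} (hε : 0 < ε) :
    ∃ m' ∈ Ell a₁ a₂ a₃, ‖m' - m‖ < ε ∧ ‖m'‖ ^ 2 ∉ S := by
  -- we may assume that the bilinear form is nonnegative
  wlog hB : 0 ≤ BB a₁ a₂ a₃ m e generalizing e with H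
  · refine H (e := -e) ⟨by simp [he.1], ?_⟩ (by simpa using hk) ?_ ?_
    · have := he.2
      simpa [HH] using this
    · simp only [BB, imI_neg, imJ_neg, imK_neg] at hme ⊢
      linarith
    · simp only [BB, imI_neg, imJ_neg, imK_neg] at hB ⊢
      linarith
  set h := BB a₁ a₂ a₃ m e with hh
  let f : ℝ → ℍ[ℝ] := fun s => (Real.sqrt (1 + 2 * s * h + s ^ 2))⁻¹ • (m + s • e)
  have hpos : ∀ s, 0 ≤ s → 0 < 1 + 2 * s * h + s ^ 2 := by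
    intro s hs
    have := mul_nonneg hs hB
    nlinarith [sq_nonneg s]
  have hHH : ∀ s, HH a₁ a₂ a₃ (m + s • e) = 1 + 2 * s * h + s ^ 2 := by
    intro s
    have h1 := hm.2
    have h2 := he.2
    simp only [HH, BB, imI_add, imJ_add, imK_add, imI_smul, imJ_smul, imK_smul, smul_eq_mul]
      at h1 h2 hh ⊢
    rw [hh]
    linear_combination h1 + s ^ 2 * h2
  have hnorm : ∀ s, ‖m + s • e‖ ^ 2 = ‖m‖ ^ 2 + k * (2 * s * h + s ^ 2) := by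
    intro s
    have h1 := norm_sq_eq m
    have h2 := norm_sq_eq e
    rw [hk] at h2
    rw [norm_sq_eq]
    simp only [re_add, re_smul, imI_add, imJ_add, imK_add, imI_smul, imJ_smul, imK_smul,
      smul_eq_mul]
    rw [hm.1, he.1] at *
    linear_combination (-1 : ℝ) * h1 - s ^ 2 * h2 + 2 * s * hme
  have hfE : ∀ s, 0 ≤ s → f s ∈ Ell a₁ a₂ a₃ := by
    intro s hs
    refine ⟨by simp [f, hm.1, he.1], ?_⟩
    have h1 : HH a₁ a₂ a₃ (f s) = ((Real.sqrt (1 + 2 * s * h + s ^ 2))⁻¹) ^ 2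
        * HH a₁ a₂ a₃ (m + s • e) := by
      simp only [f, HH, imI_smul, imJ_smul, imK_smul, smul_eq_mul]
      ring
    rw [h1, hHH, inv_pow, Real.sq_sqrt (hpos s hs).le, inv_mul_cancel₀ (hpos s hs).ne']
  have hfn : ∀ s, 0 ≤ s → ‖f s‖ ^ 2 = k + (‖m‖ ^ 2 - k) / (1 + 2 * s * h + s ^ 2) := by
    intro s hs
    have h1 := (hpos s hs).ne'
    simp only [f]
    rw [norm_smul, mul_pow, norm_inv, Real.norm_eq_abs, abs_of_nonneg (Real.sqrt_nonneg _),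
      inv_pow, Real.sq_sqrt (hpos s hs).le, hnorm]
    field_simp
    ring
  have hcont : ContinuousAt f 0 := by
    have h1 : ContinuousAt (fun s : ℝ => (Real.sqrt (1 + 2 * s * h + s ^ 2))⁻¹) 0 := by
      refine ContinuousAt.inv₀ ?_ ?_
      · exact (Real.continuous_sqrt.comp (by fun_prop)).continuousAt
      · simp
    exact h1.smul (by fun_prop)
  have hf0 : f 0 = m := by simp [f]
  have hev : ∀ᶠ s in 𝓝 (0 : ℝ), ‖f s - m‖ < ε := by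
    have h1 := hcont.tendsto
    rw [hf0] at h1
    have h2 := (Metric.tendsto_nhds.1 h1) ε hε
    filter_upwards [h2] with s hs
    rwa [dist_eq_norm] at hs
  obtain ⟨δ, hδ, hδs⟩ := Metric.eventually_nhds_iff.1 hev
  -- the function `s ↦ ‖f s‖²` is injective on positive numbers
  have hinj : InjOn (fun s => ‖f s‖ ^ 2) (Ioo 0 δ) := by
    intro s hs t ht hst
    simp only at hst
    rw [hfn s hs.1.le, hfn t ht.1.le] at hst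
    have h1 : ‖m‖ ^ 2 - k ≠ 0 := sub_ne_zero.2 hne
    have h2 := (hpos s hs.1.le).ne'
    have h3 := (hpos t ht.1.le).ne'
    have h4 : (‖m‖ ^ 2 - k) / (1 + 2 * s * h + s ^ 2)
        = (‖m‖ ^ 2 - k) / (1 + 2 * t * h + t ^ 2) := by linarith
    rw [div_eq_div_iff h2 h3] at h4
    have h5 := mul_left_cancel₀ h1 h4
    have h6 : (s - t) * (2 * h + s + t) = 0 := by linear_combination -h5
    rcases mul_eq_zero.1 h6 with h7 | h7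
    · linarith
    · exfalso
      linarith [hs.1, ht.1]
  have hinf : (Ioo 0 δ).Infinite := Ioo_infinite hδ
  have hfin : (Ioo 0 δ ∩ (fun s => ‖f s‖ ^ 2) ⁻¹' S).Finite := by
    refine Finite.of_finite_image (f := fun s => ‖f s‖ ^ 2) (hS.subset ?_)
      (hinj.mono inter_subset_left)
    rintro _ ⟨s, hs, rfl⟩
    exact hs.2
  obtain ⟨s, hs, hs'⟩ := hinf.exists_notMem_finite hfin
  refine ⟨f s, hfE s hs.1.le, hδs ?_, fun h => hs' ⟨hs, h⟩⟩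
  rw [dist_zero_right, Real.norm_eq_abs, abs_of_pos hs.1]
  exact hs.2

end GeoAux

/-- regular momenta are dense -/
theorem dense_regular (hax : Ax a₁ a₂ a₃) {m : ℍ[ℝ]} (hm : m ∈ Ell a₁ a₂ a₃) {ε : ℝ}
    (hε : 0 < ε) : ∃ m' ∈ Ell a₁ a₂ a₃, ‖m' - m‖ < ε ∧ rr m' ∈ Ioo a₃ a₁ ∧ rr m' ≠ a₂ := by
  have h1 := hax.h23
  have h2 := hax.h12
  have h3 := hax.pos
  have h4 : 0 < a₁ := by linarith
  have key : ∃ m' ∈ Ell a₁ a₂ a₃, ‖m' - m‖ < ε ∧ ‖m'‖ ^ 2 ∉ ({1 / a₁, 1 / a₂, 1 / a₃} : Set ℝ) := by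
    by_cases hc : ‖m‖ ^ 2 = 1 / a₁
    · have hc' : ‖m‖ ^ 2 ≠ 1 / a₃ := by
        rw [hc]
        intro h
        rw [div_eq_div_iff h4.ne' h3.ne'] at h
        linarith
      have hs : Real.sqrt a₃ ^ 2 = a₃ := Real.sq_sqrt h3.le
      have hs0 : Real.sqrt a₃ ≠ 0 := (Real.sqrt_pos.2 h3).ne'
      refine dense_aux hm (e := mkq 0 0 0 (1 / Real.sqrt a₃)) ⟨mkq_re _ _ _ _, ?_⟩ (k := 1 / a₃) ?_ ?_
        hc' _ (toFinite _) hε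
      · simp only [HH, mkq_imI, mkq_imJ, mkq_imK]
        field_simp
        rw [hs]; ring
      · rw [norm_sq_eq]
        simp only [mkq_re, mkq_imI, mkq_imJ, mkq_imK, one_div, inv_pow, hs]
        ring
      · simp only [BB, mkq_imI, mkq_imJ, mkq_imK]
        field_simp
        ring
    · have hs : Real.sqrt a₁ ^ 2 = a₁ := Real.sq_sqrt h4.le
      have hs0 : Real.sqrt a₁ ≠ 0 := (Real.sqrt_pos.2 h4).ne'
      refine dense_aux hm (e := mkq 0 (1 / Real.sqrt a₁) 0 0) ⟨mkq_re _ _ _ _, ?_⟩ (k := 1 / a₁) ?_ ?_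
        hc _ (toFinite _) hε
      · simp only [HH, mkq_imI, mkq_imJ, mkq_imK]
        field_simp
        rw [hs]; ring
      · rw [norm_sq_eq]
        simp only [mkq_re, mkq_imI, mkq_imJ, mkq_imK, one_div, inv_pow, hs]
        ring
      · simp only [BB, mkq_imI, mkq_imJ, mkq_imK]
        field_simp
        ring
  obtain ⟨m', hm', hd, hS⟩ := key
  obtain ⟨_, _, _, hr, _⟩ := unit_of_Ell hm' hax
  have hrr : ∀ a : ℝ, rr m' = a → ‖m'‖ ^ 2 = 1 / a := by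
    intro a h
    rw [← h, rr, one_div_one_div]
  refine ⟨m', hm', hd, ⟨lt_of_le_of_ne hr.1 fun h => hS ?_, lt_of_le_of_ne hr.2 fun h => hS ?_⟩,
    fun h => hS ?_⟩
  · rw [hrr _ h.symm]; simp
  · rw [hrr _ h]; simp
  · rw [hrr _ h]; simp

end geo

end

end Pool.Agent.CutS3
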