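import Pool.Agent.CutS3.Defs
import Pool.Agent.CutS3.Geo

set_option autoImplicit false
set_option linter.unusedVariables false

/-!
# The cut locus of left-invariant metrics on `S^3` : the distance
-/

namespace Pool.Agent.CutS3

open Set Quaternion Filter Topology Metric MeasureTheory

noncomputable section

section dist
variable {a b c : ℝ}

namespace DistAux

open GeoAux

attribute [local instance] GeoAux.starModR
attribute [local simp] rf1_re rf1_imI rf1_imJ rf1_imK rf2_re rf2_imI rf2_imJ rf2_imK rf3_re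
  rf3_imI rf3_imJ rf3_imK cyc_re cyc_imI cyc_imJ cyc_imK dg_re dg_imI dg_imJ dg_imK
  mkq_re mkq_imI mkq_imJ mkq_imK

theorem speed_nonneg (q v : ℍ[ℝ]) : 0 ≤ speed a b c q v := Real.sqrt_nonneg _

theorem speed_smul (q v : ℍ[ℝ]) (s : ℝ) : speed a b c q (s • v) = |s| * speed a b c q v := by
  unfold speed
  rw [← Real.sqrt_sq_eq_abs, ← Real.sqrt_mul (sq_nonneg s)]
  congr 1
  simp only [mul_smul_comm, imI_smul, imJ_smul, imK_smul, smul_eq_mul]
  ring

theorem speed_mul_left {g : ℍ[ℝ]} (hg : ‖g‖ = 1) (q v : ℍ[ℝ]) :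
    speed a b c (g * q) (g * v) = speed a b c q v := by
  have h : star (g * q) * (g * v) = star q * v := by
    rw [star_mul, mul_assoc, ← mul_assoc (star g), star_mul_of_norm hg, one_mul]
  unfold speed
  rw [h]

theorem continuous_speed : Continuous fun x : ℍ[ℝ] × ℍ[ℝ] => speed a b c x.1 x.2 := by
  have h1 : Continuous fun x : ℍ[ℝ] × ℍ[ℝ] => star x.1 * x.2 :=
    (stL.continuous.comp continuous_fst).mul continuous_snd
  have h2 : Continuous fun x : ℍ[ℝ] × ℍ[ℝ] => (star x.1 * x.2).imI := continuous_imI.comp h1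
  have h3 : Continuous fun x : ℍ[ℝ] × ℍ[ℝ] => (star x.1 * x.2).imJ := continuous_imJ.comp h1
  have h4 : Continuous fun x : ℍ[ℝ] × ℍ[ℝ] => (star x.1 * x.2).imK := continuous_imK.comp h1
  unfold speed
  exact Real.continuous_sqrt.comp (by fun_prop)

theorem continuous_speed' {f g : ℝ → ℍ[ℝ]} (hf : Continuous f) (hg : Continuous g) :
    Continuous fun x => speed a b c (f x) (g x) := by
  have h1 : Continuous fun x => (f x, g x) := hf.prodMk hg
  have h2 := (continuous_speed (a := a) (b := b) (c := c)).comp h1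
  exact h2

theorem continuous_speed_path {γ : ℝ → ℍ[ℝ]} (hγ : ContDiff ℝ 1 γ) :
    Continuous fun x => speed a b c (γ x) (deriv γ x) :=
  continuous_speed' hγ.continuous (hγ.continuous_deriv le_rfl)

theorem length_comp {γ : ℝ → ℍ[ℝ]} (hγ : ContDiff ℝ 1 γ) {φ φ' : ℝ → ℝ} {s t : ℝ} (hst : s ≤ t)
    (h : ∀ x ∈ Icc s t, HasDerivAt φ (φ' x) x) (h' : ContinuousOn φ' (Icc s t))
    (h0 : ∀ x ∈ Icc s t, 0 ≤ φ' x) :
    ∫ x in s..t, speed a b c (γ (φ x)) (φ' x • deriv γ (φ x))
      = ∫ x in φ s..φ t, speed a b c (γ x) (deriv γ x) := by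
  rw [← intervalIntegral.integral_comp_mul_deriv (f := φ) (f' := φ')
    (g := fun x => speed a b c (γ x) (deriv γ x)) (by rwa [uIcc_of_le hst])
    (by rwa [uIcc_of_le hst]) (continuous_speed_path hγ)]
  refine intervalIntegral.integral_congr fun x hx => ?_
  rw [uIcc_of_le hst] at hx
  simp only [Function.comp_apply]
  rw [speed_smul, abs_of_nonneg (h0 x hx), mul_comm]

theorem pathLength_nonneg (γ : ℝ → ℍ[ℝ]) : 0 ≤ pathLength a b c γ :=
  intervalIntegral.integral_nonneg zero_le_one fun x _ => speed_nonneg _ _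

theorem bddBelow (p q : ℍ[ℝ]) :
    BddBelow {L : ℝ | ∃ γ : ℝ → ℍ[ℝ], IsPath p q γ ∧ L = pathLength a b c γ} := by
  refine ⟨0, ?_⟩
  rintro L ⟨γ, _, rfl⟩
  exact pathLength_nonneg γ

/-- polar decomposition of unit quaternions -/
theorem exists_polar {u : ℍ[ℝ]} (hu : ‖u‖ = 1) :
    ∃ θ : ℝ, ∃ n : ℍ[ℝ], 0 ≤ θ ∧ θ ≤ Real.pi ∧ n.re = 0 ∧ ‖n‖ = 1 ∧ u = rot θ n := by
  have h0 := norm_sq_eq u
  rw [hu] at h0
  have h1 : u.re ^ 2 ≤ 1 := by nlinarith [sq_nonneg u.imI, sq_nonneg u.imJ, sq_nonneg u.imK]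
  have h2 : -1 ≤ u.re := by nlinarith
  have h3 : u.re ≤ 1 := by nlinarith
  have hcos : Real.cos (Real.arccos u.re) = u.re := Real.cos_arccos h2 h3
  have hsin : Real.sin (Real.arccos u.re) = Real.sqrt (1 - u.re ^ 2) := Real.sin_arccos _
  set θ := Real.arccos u.re with hθ
  have hs2 : Real.sin θ ^ 2 = 1 - u.re ^ 2 := by rw [hsin, Real.sq_sqrt (by linarith)]
  by_cases hz : Real.sin θ = 0
  · refine ⟨θ, mkq 0 1 0 0, Real.arccos_nonneg _, Real.arccos_le_pi _, rfl,
      norm_eq_one_of (by simp), ?_⟩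
    rw [hz] at hs2
    have e1 : u.imI = 0 := by nlinarith [sq_nonneg u.imI, sq_nonneg u.imJ, sq_nonneg u.imK]
    have e2 : u.imJ = 0 := by nlinarith [sq_nonneg u.imI, sq_nonneg u.imJ, sq_nonneg u.imK]
    have e3 : u.imK = 0 := by nlinarith [sq_nonneg u.imI, sq_nonneg u.imJ, sq_nonneg u.imK]
    ext
    · simp [rot_re, hcos, hz]
    · simp [rot_imI, hz, e1]
    · simp [rot_imJ, hz, e2]
    · simp [rot_imK, hz, e3]
  · refine ⟨θ, mkq 0 (u.imI / Real.sin θ) (u.imJ / Real.sin θ) (u.imK / Real.sin θ),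
      Real.arccos_nonneg _, Real.arccos_le_pi _, rfl, norm_eq_one_of ?_, ?_⟩
    · simp only [mkq_re, mkq_imI, mkq_imJ, mkq_imK]
      field_simp
      linarith
    · ext
      · simp [rot_re, hcos]
      · simp only [rot_imI, mkq_imI]; field_simp
      · simp only [rot_imJ, mkq_imJ]; field_simp
      · simp only [rot_imK, mkq_imK]; field_simp

theorem norm_rot {n : ℍ[ℝ]} (h0 : n.re = 0) (hn : ‖n‖ = 1) (θ : ℝ) : ‖rot θ n‖ = 1 := by
  have h1 := norm_sq_eq n
  rw [hn, h0] at h1
  refine norm_eq_one_of ?_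
  rw [rot_re, rot_imI, rot_imJ, rot_imK, h0]
  have := Real.sin_sq_add_cos_sq θ
  linear_combination this - Real.sin θ ^ 2 * h1

theorem contDiff_rot (n : ℍ[ℝ]) (k : ℝ) : ContDiff ℝ 1 fun t => rot (k * t) n := by
  have h : (fun t => rot (k * t) n) = fun t => Real.cos (k * t) • (1 : ℍ[ℝ])
      + Real.sin (k * t) • n := by
    funext t; rw [rot_eq]
  rw [h]
  fun_prop

theorem star_rot_mul_deriv {n : ℍ[ℝ]} (h0 : n.re = 0) (hn : ‖n‖ = 1) (k t : ℝ) :
    star (rot (k * t) n) * deriv (fun t => rot (k * t) n) t = k • n := by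
  rw [(hasDerivAt_rot k t n).deriv]
  have h1 := norm_sq_eq n
  rw [hn, h0] at h1
  have h2 := Real.sin_sq_add_cos_sq (k * t)
  ext <;> simp only [rot_re, rot_imI, rot_imJ, rot_imK, re_mul, imI_mul, imJ_mul, imK_mul,
    re_smul, imI_smul, imJ_smul, imK_smul, re_star, imI_star, imJ_star, imK_star, re_add,
    imI_add, imJ_add, imK_add, smul_eq_mul, h0, re_one, imI_one, imJ_one, imK_one]
  · linear_combination (-(k * Real.sin (k * t) * Real.cos (k * t))) * h1
  · linear_combination (k * n.imI) * h2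
  · linear_combination (k * n.imJ) * h2
  · linear_combination (k * n.imK) * h2

/-- the great circle arc -/
theorem exists_arc (ha : 0 ≤ |a|) (p q : ℍ[ℝ]) (hp : ‖p‖ = 1) (hq : ‖q‖ = 1) :
    ∃ γ, IsPath p q γ ∧ pathLength a b c γ ≤
      (Real.sqrt (|a| + |b| + |c|) * (Real.pi / 2)) * ‖p - q‖ := by
  have hu : ‖star p * q‖ = 1 := by rw [norm_mul, norm_star, hp, hq, one_mul]
  obtain ⟨θ, n, h1, h2, h3, h4, h5⟩ := exists_polar hu
  refine ⟨fun t => p * rot (θ * t) n, ⟨contDiff_const.mul (contDiff_rot n θ), fun t => ?_, ?_,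
    ?_⟩, ?_⟩
  · rw [norm_mul, hp, norm_rot h3 h4, one_mul]
  · simp [rot]
  · simp only [mul_one]
    rw [← h5, ← mul_assoc, mul_star_of_norm hp, one_mul]
  · have hsp : ∀ t, speed a b c (p * rot (θ * t) n) (deriv (fun t => p * rot (θ * t) n) t)
        = θ * Real.sqrt (a * n.imI ^ 2 + b * n.imJ ^ 2 + c * n.imK ^ 2) := by
      intro t
      have hd : deriv (fun t => p * rot (θ * t) n) t = p * deriv (fun t => rot (θ * t) n) t := by
        rw [deriv_const_mul _ (hasDerivAt_rot θ t n).differentiableAt]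
      rw [hd, speed_mul_left hp]
      unfold speed
      rw [star_rot_mul_deriv h3 h4]
      simp only [imI_smul, imJ_smul, imK_smul, smul_eq_mul]
      rw [← Real.sqrt_sq h1, ← Real.sqrt_mul (sq_nonneg _), Real.sqrt_sq h1]
      congr 1
      ring
    have hlen : pathLength a b c (fun t => p * rot (θ * t) n)
        = θ * Real.sqrt (a * n.imI ^ 2 + b * n.imJ ^ 2 + c * n.imK ^ 2) := by
      unfold pathLength
      simp only [hsp]
      simp
    rw [hlen]
    have hn := norm_sq_eq n
    rw [h4, h3] at hn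
    have hle : Real.sqrt (a * n.imI ^ 2 + b * n.imJ ^ 2 + c * n.imK ^ 2)
        ≤ Real.sqrt (|a| + |b| + |c|) := by
      apply Real.sqrt_le_sqrt
      have e1 : n.imI ^ 2 ≤ 1 := by nlinarith [sq_nonneg n.imI, sq_nonneg n.imJ, sq_nonneg n.imK]
      have e2 : n.imJ ^ 2 ≤ 1 := by nlinarith [sq_nonneg n.imI, sq_nonneg n.imJ, sq_nonneg n.imK]
      have e3 : n.imK ^ 2 ≤ 1 := by nlinarith [sq_nonneg n.imI, sq_nonneg n.imJ, sq_nonneg n.imK]
      have f1 : a * n.imI ^ 2 ≤ |a| := by
        calc a * n.imI ^ 2 ≤ |a| * n.imI ^ 2 :=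
              mul_le_mul_of_nonneg_right (le_abs_self a) (sq_nonneg _)
          _ ≤ |a| * 1 := mul_le_mul_of_nonneg_left e1 (abs_nonneg a)
          _ = |a| := mul_one _
      have f2 : b * n.imJ ^ 2 ≤ |b| := by
        calc b * n.imJ ^ 2 ≤ |b| * n.imJ ^ 2 :=
              mul_le_mul_of_nonneg_right (le_abs_self b) (sq_nonneg _)
          _ ≤ |b| * 1 := mul_le_mul_of_nonneg_left e2 (abs_nonneg b)
          _ = |b| := mul_one _
      have f3 : c * n.imK ^ 2 ≤ |c| := by
        calc c * n.imK ^ 2 ≤ |c| * n.imK ^ 2 :=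
              mul_le_mul_of_nonneg_right (le_abs_self c) (sq_nonneg _)
          _ ≤ |c| * 1 := mul_le_mul_of_nonneg_left e3 (abs_nonneg c)
          _ = |c| := mul_one _
      linarith
    have hpq : ‖p - q‖ ^ 2 = (2 * Real.sin (θ / 2)) ^ 2 := by
      have e1 : ‖p - q‖ = ‖(1 : ℍ[ℝ]) - rot θ n‖ := by
        rw [← h5]
        have : p - q = p * (1 - star p * q) := by
          rw [mul_sub, mul_one, ← mul_assoc, mul_star_of_norm hp, one_mul]
        rw [this, norm_mul, hp, one_mul]
      rw [e1, norm_sq_eq]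
      simp only [re_sub, imI_sub, imJ_sub, imK_sub, re_one, imI_one, imJ_one, imK_one, rot_re,
        rot_imI, rot_imJ, rot_imK, h3]
      have e2 : Real.cos θ = 1 - 2 * Real.sin (θ / 2) ^ 2 := by
        have := Real.cos_sq' (θ / 2)
        have h6 : Real.cos θ = 2 * Real.cos (θ / 2) ^ 2 - 1 := by
          rw [← Real.cos_two_mul]; congr 1; ring
        rw [h6, this]; ring
      have e3 := Real.sin_sq_add_cos_sq θ
      linear_combination e3 - Real.sin θ ^ 2 * hn - 2 * e2
    have hs : 2 / Real.pi * (θ / 2) ≤ Real.sin (θ / 2) :=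
      Real.mul_le_sin (by linarith) (by linarith)
    have hs0 : 0 ≤ Real.sin (θ / 2) := by
      refine le_trans ?_ hs
      positivity
    have hpq' : ‖p - q‖ = 2 * Real.sin (θ / 2) :=
      (pow_left_inj₀ (norm_nonneg _) (by positivity) two_ne_zero).1 hpq
    have hθle : θ ≤ Real.pi / 2 * ‖p - q‖ := by
      rw [hpq']
      have hpi := Real.pi_pos
      have h7 : θ = Real.pi / 2 * (2 * (2 / Real.pi * (θ / 2))) := by field_simp
      calc θ = Real.pi / 2 * (2 * (2 / Real.pi * (θ / 2))) := h7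
        _ ≤ Real.pi / 2 * (2 * Real.sin (θ / 2)) := by gcongr
    calc θ * Real.sqrt (a * n.imI ^ 2 + b * n.imJ ^ 2 + c * n.imK ^ 2)
        ≤ (Real.pi / 2 * ‖p - q‖) * Real.sqrt (|a| + |b| + |c|) := by gcongr
      _ = _ := by ring

theorem nonempty_set (p q : ℍ[ℝ]) (hp : ‖p‖ = 1) (hq : ‖q‖ = 1) :
    {L : ℝ | ∃ γ : ℝ → ℍ[ℝ], IsPath p q γ ∧ L = pathLength a b c γ}.Nonempty := by
  obtain ⟨γ, h, _⟩ := exists_arc (a := a) (b := b) (c := c) (abs_nonneg a) p q hp hq
  exact ⟨_, γ, h, rfl⟩

end DistAux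

open DistAux GeoAux

attribute [local instance] GeoAux.starModR
attribute [local simp] rf1_re rf1_imI rf1_imJ rf1_imK rf2_re rf2_imI rf2_imJ rf2_imK rf3_re
  rf3_imI rf3_imJ rf3_imK cyc_re cyc_imI cyc_imJ cyc_imK dg_re dg_imI dg_imJ dg_imK
  mkq_re mkq_imI mkq_imJ mkq_imK

theorem gdist_nonneg (p q : ℍ[ℝ]) : 0 ≤ gdist a b c p q := by
  refine Real.sInf_nonneg ?_
  rintro L ⟨γ, _, rfl⟩
  exact pathLength_nonneg γ

theorem gdist_le_pathLength {p q : ℍ[ℝ]} {γ : ℝ → ℍ[ℝ]} (h : IsPath p q γ) :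
    gdist a b c p q ≤ pathLength a b c γ := csInf_le (bddBelow p q) ⟨γ, h, rfl⟩

theorem gdist_self (p : ℍ[ℝ]) (hp : ‖p‖ = 1) : gdist a b c p p = 0 := by
  refine le_antisymm ?_ (gdist_nonneg p p)
  have h : IsPath p p (fun _ => p) := ⟨contDiff_const, fun _ => hp, rfl, rfl⟩
  refine (gdist_le_pathLength h).trans ?_
  simp [pathLength, speed]

theorem exists_near_path (p q : ℍ[ℝ]) (hp : ‖p‖ = 1) (hq : ‖q‖ = 1) {ε : ℝ} (hε : 0 < ε) :
    ∃ γ, IsPath p q γ ∧ pathLength a b c γ < gdist a b c p q + ε := by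
  have h : gdist a b c p q < gdist a b c p q + ε := by linarith
  obtain ⟨L, ⟨γ, h1, rfl⟩, h2⟩ := exists_lt_of_csInf_lt (nonempty_set p q hp hq) h
  exact ⟨γ, h1, h2⟩

theorem gdist_curve {γ : ℝ → ℍ[ℝ]} {s t : ℝ} (hst : s ≤ t) (hγ : ContDiff ℝ 1 γ)
    (hu : ∀ x, ‖γ x‖ = 1) :
    gdist a b c (γ s) (γ t) ≤ ∫ x in s..t, speed a b c (γ x) (deriv γ x) := by
  have h1 : IsPath (γ s) (γ t) (fun x => γ (s + (t - s) * x)) :=
    ⟨hγ.comp (by fun_prop), fun x => hu _, by simp, by simp⟩
  refine (gdist_le_pathLength h1).trans (le_of_eq ?_)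
  unfold pathLength
  have hφ : ∀ x, HasDerivAt (fun x : ℝ => s + (t - s) * x) (t - s) x := by
    intro x
    simpa using ((hasDerivAt_id x).const_mul (t - s)).const_add s
  have h2 := length_comp (a := a) (b := b) (c := c) hγ (φ := fun x => s + (t - s) * x)
    (φ' := fun _ => t - s) (s := 0) (t := 1) zero_le_one (fun x _ => hφ x) continuousOn_const
    (fun x _ => by linarith)
  simp only [mul_zero, add_zero, mul_one, add_sub_cancel] at h2
  rw [← h2]
  refine intervalIntegral.integral_congr fun x _ => ?_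
  have h3 := ((hγ.differentiable one_ne_zero) (s + (t - s) * x)).hasDerivAt.scomp x (hφ x)
  have h4 : deriv (fun x => γ (s + (t - s) * x)) x = (t - s) • deriv γ (s + (t - s) * x) :=
    h3.deriv
  simp only [h4]

theorem gdist_comm (p q : ℍ[ℝ]) (hp : ‖p‖ = 1) (hq : ‖q‖ = 1) :
    gdist a b c p q = gdist a b c q p := by
  have key : ∀ p q : ℍ[ℝ], ‖p‖ = 1 → ‖q‖ = 1 → gdist a b c p q ≤ gdist a b c q p := by
    intro p q hp hq
    refine le_csInf (nonempty_set q p hq hp) ?_
    rintro L ⟨γ, h, rfl⟩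
    have h1 : IsPath p q (fun x => γ (1 - x)) :=
      ⟨h.smooth.comp (by fun_prop), fun x => h.unit _, by simp [h.target], by simp [h.source]⟩
    refine (gdist_le_pathLength h1).trans (le_of_eq ?_)
    unfold pathLength
    have h2 : ∀ x, speed a b c (γ (1 - x)) (deriv (fun x => γ (1 - x)) x)
        = speed a b c (γ (1 - x)) (deriv γ (1 - x)) := by
      intro x
      have h3 := ((h.smooth.differentiable one_ne_zero) (1 - x)).hasDerivAt.comp_const_sub 1 x
      rw [h3.deriv]
      have := speed_smul (a := a) (b := b) (c := c) (γ (1 - x)) (deriv γ (1 - x)) (-1)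
      simpa using this
    simp only [h2]
    rw [intervalIntegral.integral_comp_sub_left
      (fun y => speed a b c (γ y) (deriv γ y)) 1]
    simp
  exact le_antisymm (key p q hp hq) (key q p hq hp)

theorem gdist_mul_left (g p q : ℍ[ℝ]) (hg : ‖g‖ = 1) (hp : ‖p‖ = 1) (hq : ‖q‖ = 1) :
    gdist a b c (g * p) (g * q) = gdist a b c p q := by
  have key : ∀ g p q : ℍ[ℝ], ‖g‖ = 1 → ‖p‖ = 1 → ‖q‖ = 1 →
      gdist a b c (g * p) (g * q) ≤ gdist a b c p q := by
    intro g p q hg hp hq
    refine le_csInf (nonempty_set p q hp hq) ?_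
    rintro L ⟨γ, h, rfl⟩
    have h1 : IsPath (g * p) (g * q) (fun x => g * γ x) :=
      ⟨contDiff_const.mul h.smooth, fun x => by rw [norm_mul, hg, h.unit, one_mul],
        by simp [h.source], by simp [h.target]⟩
    refine (gdist_le_pathLength h1).trans (le_of_eq ?_)
    unfold pathLength
    refine intervalIntegral.integral_congr fun x _ => ?_
    have hd : deriv (fun x => g * γ x) x = g * deriv γ x := by
      rw [deriv_const_mul _ (h.smooth.differentiable one_ne_zero x)]
    simp only [hd, speed_mul_left hg]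
  refine le_antisymm (key g p q hg hp hq) ?_
  have h := key (star g) (g * p) (g * q) (by rw [norm_star, hg])
    (by rw [norm_mul, hg, hp, one_mul]) (by rw [norm_mul, hg, hq, one_mul])
  rwa [← mul_assoc, ← mul_assoc, star_mul_of_norm hg, one_mul, one_mul] at h

theorem gdist_triangle (p q r : ℍ[ℝ]) (hp : ‖p‖ = 1) (hq : ‖q‖ = 1) (hr : ‖r‖ = 1) :
    gdist a b c p r ≤ gdist a b c p q + gdist a b c q r := by
  have key : ∀ γ₁ γ₂ : ℝ → ℍ[ℝ], IsPath p q γ₁ → IsPath q r γ₂ →
      gdist a b c p r ≤ pathLength a b c γ₁ + pathLength a b c γ₂ := by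
    intro γ₁ γ₂ h₁ h₂
    set θ := Real.smoothTransition with hθdef
    have hθc : ContDiff ℝ 1 θ := Real.smoothTransition.contDiff (n := 1)
    have hθd : ∀ x, HasDerivAt θ (deriv θ x) x := fun x =>
      (hθc.differentiable one_ne_zero x).hasDerivAt
    have hθ' : Continuous (deriv θ) := hθc.continuous_deriv le_rfl
    have hθpos : ∀ x, 0 ≤ deriv θ x := by
      intro x
      rw [← derivWithin_univ]
      exact (Real.smoothTransition.monotone.monotoneOn univ).derivWithin_nonneg
    have hθ0 : ∀ x ≤ 0, deriv θ x = 0 := by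
      intro x hx
      have : IsLocalMin θ x := Eventually.of_forall fun y => by
        rw [hθdef, Real.smoothTransition.zero_of_nonpos hx]
        exact Real.smoothTransition.nonneg y
      exact this.deriv_eq_zero
    have hθ1 : ∀ x, 1 ≤ x → deriv θ x = 0 := by
      intro x hx
      have : IsLocalMax θ x := Eventually.of_forall fun y => by
        rw [hθdef, Real.smoothTransition.one_of_one_le hx]
        exact Real.smoothTransition.le_one y
      exact this.deriv_eq_zero
    have hφ1 : ∀ x, HasDerivAt (fun x : ℝ => θ (2 * x)) (deriv θ (2 * x) * 2) x := by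
      intro x
      have h3 : HasDerivAt (fun x : ℝ => 2 * x) 2 x := by
        simpa using (hasDerivAt_id x).const_mul (2 : ℝ)
      exact (hθd (2 * x)).comp x h3
    have hφ2 : ∀ x, HasDerivAt (fun x : ℝ => θ (2 * x - 1)) (deriv θ (2 * x - 1) * 2) x := by
      intro x
      have h3 : HasDerivAt (fun x : ℝ => 2 * x - 1) 2 x := by
        simpa using ((hasDerivAt_id x).const_mul (2 : ℝ)).sub_const 1
      exact (hθd (2 * x - 1)).comp x h3
    have hd1 : ∀ x, HasDerivAt (fun x => γ₁ (θ (2 * x)))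
        ((deriv θ (2 * x) * 2) • deriv γ₁ (θ (2 * x))) x := fun x =>
      ((h₁.smooth.differentiable one_ne_zero) (θ (2 * x))).hasDerivAt.scomp x (hφ1 x)
    have hd2 : ∀ x, HasDerivAt (fun x => γ₂ (θ (2 * x - 1)))
        ((deriv θ (2 * x - 1) * 2) • deriv γ₂ (θ (2 * x - 1))) x := fun x =>
      ((h₂.smooth.differentiable one_ne_zero) (θ (2 * x - 1))).hasDerivAt.scomp x (hφ2 x)
    let δ : ℝ → ℍ[ℝ] := fun x => γ₁ (θ (2 * x)) * star q * γ₂ (θ (2 * x - 1))
    have hδd : ∀ x, HasDerivAt δ (((deriv θ (2 * x) * 2) • deriv γ₁ (θ (2 * x))) * star q *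
        γ₂ (θ (2 * x - 1)) + γ₁ (θ (2 * x)) * star q *
        ((deriv θ (2 * x - 1) * 2) • deriv γ₂ (θ (2 * x - 1)))) x := fun x =>
      ((hd1 x).mul_const (star q)).mul (hd2 x)
    have hδ : IsPath p r δ := by
      refine ⟨?_, fun x => ?_, ?_, ?_⟩
      · refine (ContDiff.mul (h₁.smooth.comp (hθc.comp (by fun_prop))) contDiff_const).mul
          (h₂.smooth.comp (hθc.comp (by fun_prop)))
      · simp only [δ]
        rw [norm_mul, norm_mul, norm_star, h₁.unit, h₂.unit, hq]
        norm_num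
      · simp only [δ]
        rw [mul_zero, hθdef, Real.smoothTransition.zero_of_nonpos le_rfl,
          Real.smoothTransition.zero_of_nonpos (by norm_num), h₁.source, h₂.source, mul_assoc,
          star_mul_of_norm hq, mul_one]
      · simp only [δ]
        rw [mul_one, hθdef, Real.smoothTransition.one_of_one_le (by norm_num),
          Real.smoothTransition.one_of_one_le (by norm_num), h₁.target, h₂.target,
          mul_star_of_norm hq, one_mul]
    refine (gdist_le_pathLength hδ).trans (le_of_eq ?_)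
    have hcont := continuous_speed_path (a := a) (b := b) (c := c) hδ.smooth
    unfold pathLength
    rw [← intervalIntegral.integral_add_adjacent_intervals (b := 1 / 2)
      (hcont.intervalIntegrable _ _) (hcont.intervalIntegrable _ _)]
    congr 1
    · have h3 := length_comp (a := a) (b := b) (c := c) h₁.smooth (φ := fun x => θ (2 * x))
        (φ' := fun x => deriv θ (2 * x) * 2) (s := 0) (t := 1 / 2) (by norm_num)
        (fun x _ => hφ1 x) (by fun_prop) (fun x _ => mul_nonneg (hθpos _) (by norm_num))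
      have e0 : θ (2 * 0) = 0 := by
        rw [mul_zero, hθdef, Real.smoothTransition.zero_of_nonpos le_rfl]
      have e1 : θ (2 * (1 / 2)) = 1 := by
        rw [hθdef, Real.smoothTransition.one_of_one_le (by norm_num)]
      rw [e0, e1] at h3
      rw [← h3]
      refine intervalIntegral.integral_congr fun x hx => ?_
      rw [uIcc_of_le (by norm_num)] at hx
      have hx1 : 2 * x - 1 ≤ 0 := by linarith [hx.2]
      have f1 : δ x = γ₁ (θ (2 * x)) := by
        simp only [δ]
        rw [show θ (2 * x - 1) = 0 from Real.smoothTransition.zero_of_nonpos hx1, h₂.source,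
          mul_assoc, star_mul_of_norm hq, mul_one]
      have f2 : deriv δ x = (deriv θ (2 * x) * 2) • deriv γ₁ (θ (2 * x)) := by
        rw [(hδd x).deriv, hθ0 _ hx1,
          show θ (2 * x - 1) = 0 from Real.smoothTransition.zero_of_nonpos hx1, h₂.source,
          mul_assoc, star_mul_of_norm hq, mul_one, zero_mul, zero_smul, mul_zero, add_zero]
      simp only [f1, f2]
    · have h3 := length_comp (a := a) (b := b) (c := c) h₂.smooth (φ := fun x => θ (2 * x - 1))
        (φ' := fun x => deriv θ (2 * x - 1) * 2) (s := 1 / 2) (t := 1) (by norm_num)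
        (fun x _ => hφ2 x) (by fun_prop) (fun x _ => mul_nonneg (hθpos _) (by norm_num))
      have e0 : θ (2 * (1 / 2) - 1) = 0 := by
        rw [hθdef, Real.smoothTransition.zero_of_nonpos (by norm_num)]
      have e1 : θ (2 * 1 - 1) = 1 := by
        rw [hθdef, Real.smoothTransition.one_of_one_le (by norm_num)]
      rw [e0, e1] at h3
      rw [← h3]
      refine intervalIntegral.integral_congr fun x hx => ?_
      rw [uIcc_of_le (by norm_num)] at hx
      have hx1 : 1 ≤ 2 * x := by linarith [hx.1]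
      have f1 : δ x = γ₂ (θ (2 * x - 1)) := by
        simp only [δ]
        rw [show θ (2 * x) = 1 from Real.smoothTransition.one_of_one_le hx1, h₁.target,
          mul_star_of_norm hq, one_mul]
      have f2 : deriv δ x = (deriv θ (2 * x - 1) * 2) • deriv γ₂ (θ (2 * x - 1)) := by
        rw [(hδd x).deriv, hθ1 _ hx1,
          show θ (2 * x) = 1 from Real.smoothTransition.one_of_one_le hx1, h₁.target,
          mul_star_of_norm hq, one_mul, zero_mul, zero_smul, zero_mul, zero_mul, zero_add]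
      simp only [f1, f2]
  have h1 : gdist a b c p r - gdist a b c q r ≤ gdist a b c p q := by
    refine le_csInf (nonempty_set p q hp hq) ?_
    rintro L ⟨γ₁, h₁, rfl⟩
    have h2 : gdist a b c p r - pathLength a b c γ₁ ≤ gdist a b c q r := by
      refine le_csInf (nonempty_set q r hq hr) ?_
      rintro L ⟨γ₂, h₂, rfl⟩
      linarith [key γ₁ γ₂ h₁ h₂]
    linarith
  linarith

namespace DistAux

theorem gdist_star (q : ℍ[ℝ]) (hq : ‖q‖ = 1) :
    gdist a b c 1 (star q) = gdist a b c 1 q := by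
  have h1 : ‖star q‖ = 1 := by rw [Quaternion.norm_star, hq]
  have h := gdist_mul_left (a := a) (b := b) (c := c) q 1 (star q) hq norm_one h1
  rw [mul_one, mul_star_of_norm hq, gdist_comm q 1 hq norm_one] at h
  exact h.symm

/-- invariance under automorphisms which only change signs of the imaginary coordinates -/
theorem gdist_aut (κ : ℍ[ℝ] →L[ℝ] ℍ[ℝ]) (hmul : ∀ p q, κ (p * q) = κ p * κ q)
    (hstar : ∀ q, star (κ q) = κ (star q)) (hone : κ 1 = 1) (hnorm : ∀ q, ‖κ q‖ = ‖q‖)
    (h1 : ∀ q, (κ q).imI ^ 2 = q.imI ^ 2) (h2 : ∀ q, (κ q).imJ ^ 2 = q.imJ ^ 2)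
    (h3 : ∀ q, (κ q).imK ^ 2 = q.imK ^ 2) (hinv : ∀ q, κ (κ q) = q) (q : ℍ[ℝ]) (hq : ‖q‖ = 1) :
    gdist a b c 1 (κ q) = gdist a b c 1 q := by
  have key : ∀ q : ℍ[ℝ], ‖q‖ = 1 → gdist a b c 1 (κ q) ≤ gdist a b c 1 q := by
    intro q hq
    refine le_csInf (nonempty_set 1 q norm_one hq) ?_
    rintro L ⟨γ, h, rfl⟩
    have h0 : IsPath 1 (κ q) (fun x => κ (γ x)) :=
      ⟨κ.contDiff.comp h.smooth, fun x => by rw [hnorm, h.unit],
        by rw [h.source, hone], by rw [h.target]⟩
    refine (gdist_le_pathLength h0).trans (le_of_eq ?_)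
    unfold pathLength
    refine intervalIntegral.integral_congr fun x _ => ?_
    have hd : deriv (fun x => κ (γ x)) x = κ (deriv γ x) :=
      (κ.hasFDerivAt.comp_hasDerivAt x (h.smooth.differentiable one_ne_zero x).hasDerivAt).deriv
    simp only [hd]
    unfold speed
    rw [hstar, ← hmul, h1, h2, h3]
  refine le_antisymm (key q hq) ?_
  have := key (κ q) (by rw [hnorm, hq])
  rwa [hinv] at this

end DistAux

theorem gdist_rf1 (q : ℍ[ℝ]) (hq : ‖q‖ = 1) : gdist a b c 1 (rf1 q) = gdist a b c 1 q := by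
  have h := gdist_aut (a := a) (b := b) (c := c) (stL.comp rf1L)
    (fun p q => by simp only [ContinuousLinearMap.comp_apply, stL_apply, rf1L_apply, rf1_mul,
      star_mul])
    (fun q => by simp only [ContinuousLinearMap.comp_apply, stL_apply, rf1L_apply, star_rf1])
    (by simp only [ContinuousLinearMap.comp_apply, stL_apply, rf1L_apply, rf1_one, star_one])
    (fun q => by simp only [ContinuousLinearMap.comp_apply, stL_apply, rf1L_apply, Quaternion.norm_star,
      norm_rf1])
    (fun q => by simp [stL_apply, rf1L_apply]) (fun q => by simp [stL_apply, rf1L_apply])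
    (fun q => by simp [stL_apply, rf1L_apply])
    (fun q => by
      simp only [ContinuousLinearMap.comp_apply, stL_apply, rf1L_apply]
      ext <;> simp)
    (star q) (by rw [Quaternion.norm_star, hq])
  simp only [ContinuousLinearMap.comp_apply, stL_apply, rf1L_apply, star_rf1, star_star] at h
  rw [h, gdist_star q hq]

theorem gdist_rf2 (q : ℍ[ℝ]) (hq : ‖q‖ = 1) : gdist a b c 1 (rf2 q) = gdist a b c 1 q := by
  have h := gdist_aut (a := a) (b := b) (c := c) (stL.comp rf2L)
    (fun p q => by simp only [ContinuousLinearMap.comp_apply, stL_apply, rf2L_apply, rf2_mul,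
      star_mul])
    (fun q => by simp only [ContinuousLinearMap.comp_apply, stL_apply, rf2L_apply, star_rf2])
    (by simp only [ContinuousLinearMap.comp_apply, stL_apply, rf2L_apply, rf2_one, star_one])
    (fun q => by simp only [ContinuousLinearMap.comp_apply, stL_apply, rf2L_apply, Quaternion.norm_star,
      norm_rf2])
    (fun q => by simp [stL_apply, rf2L_apply]) (fun q => by simp [stL_apply, rf2L_apply])
    (fun q => by simp [stL_apply, rf2L_apply])
    (fun q => by
      simp only [ContinuousLinearMap.comp_apply, stL_apply, rf2L_apply]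
      ext <;> simp)
    (star q) (by rw [Quaternion.norm_star, hq])
  simp only [ContinuousLinearMap.comp_apply, stL_apply, rf2L_apply, star_rf2, star_star] at h
  rw [h, gdist_star q hq]

theorem gdist_rf3 (q : ℍ[ℝ]) (hq : ‖q‖ = 1) : gdist a b c 1 (rf3 q) = gdist a b c 1 q := by
  have h := gdist_aut (a := a) (b := b) (c := c) (stL.comp rf3L)
    (fun p q => by simp only [ContinuousLinearMap.comp_apply, stL_apply, rf3L_apply, rf3_mul,
      star_mul])
    (fun q => by simp only [ContinuousLinearMap.comp_apply, stL_apply, rf3L_apply, star_rf3])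
    (by simp only [ContinuousLinearMap.comp_apply, stL_apply, rf3L_apply, rf3_one, star_one])
    (fun q => by simp only [ContinuousLinearMap.comp_apply, stL_apply, rf3L_apply, Quaternion.norm_star,
      norm_rf3])
    (fun q => by simp [stL_apply, rf3L_apply]) (fun q => by simp [stL_apply, rf3L_apply])
    (fun q => by simp [stL_apply, rf3L_apply])
    (fun q => by
      simp only [ContinuousLinearMap.comp_apply, stL_apply, rf3L_apply]
      ext <;> simp)
    (star q) (by rw [Quaternion.norm_star, hq])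
  simp only [ContinuousLinearMap.comp_apply, stL_apply, rf3L_apply, star_rf3, star_star] at h
  rw [h, gdist_star q hq]

/-- the distance is equivalent to the euclidean distance -/
theorem gdist_le_norm (ha : 0 < a) (hb : 0 < b) (hc : 0 < c) :
    ∃ C, 0 < C ∧ ∀ p q : ℍ[ℝ], ‖p‖ = 1 → ‖q‖ = 1 → gdist a b c p q ≤ C * ‖p - q‖ := by
  refine ⟨Real.sqrt (|a| + |b| + |c|) * (Real.pi / 2), ?_, fun p q hp hq => ?_⟩
  · have := abs_pos.2 ha.ne'
    positivity
  · obtain ⟨γ, h1, h2⟩ := exists_arc (a := a) (b := b) (c := c) (abs_nonneg a) p q hp hq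
    exact (gdist_le_pathLength h1).trans h2

namespace DistAux

/-- the velocity of a curve in the sphere is `γ` times a pure quaternion -/
theorem star_mul_deriv_re {γ : ℝ → ℍ[ℝ]} (hγ : ContDiff ℝ 1 γ) (hu : ∀ x, ‖γ x‖ = 1) (x : ℝ) :
    (star (γ x) * deriv γ x).re = 0 := by
  have hd := ((hγ.differentiable one_ne_zero) x).hasDerivAt
  have h1 := (((contDiff_norm_sq ℝ (n := 1)).differentiable one_ne_zero)
      (γ x)).hasFDerivAt.comp_hasDerivAt x hd
  have h2 : (fun y => ‖γ y‖ ^ 2) = fun _ => (1 : ℝ) := by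
    funext y; rw [hu]; norm_num
  have h3 : HasDerivAt (fun y => ‖γ y‖ ^ 2) (0 : ℝ) x := by
    rw [h2]; exact hasDerivAt_const _ _
  have h4 := h1.unique h3
  rw [fderiv_norm_sq_apply] at h4
  change (2 : ℕ) • inner ℝ (γ x) (deriv γ x) = 0 at h4
  rw [inner_def] at h4
  simp only [nsmul_eq_mul, Nat.cast_ofNat, mul_eq_zero, OfNat.ofNat_ne_zero, false_or] at h4
  simp only [re_mul, re_star, imI_star, imJ_star, imK_star] at h4 ⊢
  linarith

theorem norm_deriv_le (ha : 0 < a) (hb : 0 < b) (hc : 0 < c) {γ : ℝ → ℍ[ℝ]}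
    (hγ : ContDiff ℝ 1 γ) (hu : ∀ x, ‖γ x‖ = 1) (x : ℝ) :
    Real.sqrt (min a (min b c)) * ‖deriv γ x‖ ≤ speed a b c (γ x) (deriv γ x) := by
  set m := min a (min b c) with hm
  have hm0 : 0 < m := lt_min ha (lt_min hb hc)
  have hma : m ≤ a := min_le_left _ _
  have hmb : m ≤ b := (min_le_right _ _).trans (min_le_left _ _)
  have hmc : m ≤ c := (min_le_right _ _).trans (min_le_right _ _)
  have h1 : ‖deriv γ x‖ = ‖star (γ x) * deriv γ x‖ := by
    rw [norm_mul, norm_star, hu, one_mul]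
  have h2 := star_mul_deriv_re hγ hu x
  have h3 := norm_sq_eq (star (γ x) * deriv γ x)
  rw [h2] at h3
  unfold speed
  rw [h1]
  set w := star (γ x) * deriv γ x
  rw [← Real.sqrt_sq (norm_nonneg w), ← Real.sqrt_mul hm0.le]
  apply Real.sqrt_le_sqrt
  rw [h3]
  have e1 := mul_le_mul_of_nonneg_right hma (sq_nonneg w.imI)
  have e2 := mul_le_mul_of_nonneg_right hmb (sq_nonneg w.imJ)
  have e3 := mul_le_mul_of_nonneg_right hmc (sq_nonneg w.imK)
  nlinarith

end DistAux

theorem norm_le_gdist (ha : 0 < a) (hb : 0 < b) (hc : 0 < c) :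
    ∃ C, 0 < C ∧ ∀ p q : ℍ[ℝ], ‖p‖ = 1 → ‖q‖ = 1 → ‖p - q‖ ≤ C * gdist a b c p q := by
  have hm0 : 0 < min a (min b c) := lt_min ha (lt_min hb hc)
  have hs : 0 < Real.sqrt (min a (min b c)) := Real.sqrt_pos.2 hm0
  refine ⟨(Real.sqrt (min a (min b c)))⁻¹, inv_pos.2 hs, fun p q hp hq => ?_⟩
  rw [← div_eq_inv_mul, le_div_iff₀ hs]
  refine le_csInf (nonempty_set p q hp hq) ?_
  rintro L ⟨γ, h, rfl⟩
  have hc' : Continuous (deriv γ) := h.smooth.continuous_deriv le_rfl
  have h1 : ∫ x in (0 : ℝ)..1, deriv γ x = q - p := by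
    rw [intervalIntegral.integral_deriv_eq_sub
      (fun x _ => h.smooth.differentiable one_ne_zero x) (hc'.intervalIntegrable _ _), h.source,
      h.target]
  have h2 : ‖p - q‖ ≤ ∫ x in (0 : ℝ)..1, ‖deriv γ x‖ := by
    rw [norm_sub_rev, ← h1]
    exact intervalIntegral.norm_integral_le_integral_norm zero_le_one
  calc ‖p - q‖ * Real.sqrt (min a (min b c))
      ≤ (∫ x in (0 : ℝ)..1, ‖deriv γ x‖) * Real.sqrt (min a (min b c)) := by gcongr
    _ = ∫ x in (0 : ℝ)..1, Real.sqrt (min a (min b c)) * ‖deriv γ x‖ := by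
        rw [mul_comm, intervalIntegral.integral_const_mul]
    _ ≤ pathLength a b c γ := by
        refine intervalIntegral.integral_mono_on zero_le_one ?_ ?_ ?_
        · exact (continuous_const.mul hc'.norm).intervalIntegrable _ _
        · exact (continuous_speed_path h.smooth).intervalIntegrable _ _
        · intro x _
          exact norm_deriv_le ha hb hc h.smooth h.unit x

end dist

end

end Pool.Agent.CutS3
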