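import Pool.Agent.CutS3.VarA
import Pool.Agent.CutS3.Geo

/-! # Module VARB: existence of minimal geodesics -/

set_option autoImplicit false
set_option linter.unusedVariables false

namespace Pool.Agent.CutS3

open Set Quaternion

noncomputable section

namespace VarBAux

open VarAAux

theorem abs_imI_le (p : ℍ[ℝ]) : |p.imI| ≤ ‖p‖ := by
  apply abs_le_of_sq_le_sq _ (norm_nonneg _)
  rw [norm_sq_eq]; nlinarith [sq_nonneg p.re, sq_nonneg p.imJ, sq_nonneg p.imK]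

theorem abs_imJ_le (p : ℍ[ℝ]) : |p.imJ| ≤ ‖p‖ := by
  apply abs_le_of_sq_le_sq _ (norm_nonneg _)
  rw [norm_sq_eq]; nlinarith [sq_nonneg p.re, sq_nonneg p.imI, sq_nonneg p.imK]

theorem abs_imK_le (p : ℍ[ℝ]) : |p.imK| ≤ ‖p‖ := by
  apply abs_le_of_sq_le_sq _ (norm_nonneg _)
  rw [norm_sq_eq]; nlinarith [sq_nonneg p.re, sq_nonneg p.imJ, sq_nonneg p.imI]

theorem dg_sub (a₁ a₂ a₃ : ℝ) (p q : ℍ[ℝ]) :
    dg a₁ a₂ a₃ (p - q) = dg a₁ a₂ a₃ p - dg a₁ a₂ a₃ q := by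
  ext <;> simp [dg] <;> ring

theorem dg_smul (a₁ a₂ a₃ r : ℝ) (p : ℍ[ℝ]) :
    dg a₁ a₂ a₃ (r • p) = r • dg a₁ a₂ a₃ p := by
  ext <;> simp [dg] <;> ring

theorem norm_dg {a₁ a₂ a₃ : ℝ} (h1 : 0 < a₁) (h2 : 0 < a₂) (h3 : 0 < a₃) (p : ℍ[ℝ]) :
    ‖dg a₁ a₂ a₃ p‖ ≤ (a₁ + a₂ + a₃) * ‖p‖ := by
  apply le_of_sq_le_sq _ (by positivity)
  rw [mul_pow, norm_sq_eq, norm_sq_eq]
  simp only [dg]
  have hA : ∀ x : ℝ, 0 < x → x ≤ a₁ + a₂ + a₃ → x ^ 2 ≤ (a₁ + a₂ + a₃) ^ 2 :=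
    fun x hx hxx => pow_le_pow_left₀ hx.le hxx 2
  have e1 := mul_le_mul_of_nonneg_right (hA a₁ h1 (by linarith)) (sq_nonneg p.imI)
  have e2 := mul_le_mul_of_nonneg_right (hA a₂ h2 (by linarith)) (sq_nonneg p.imJ)
  have e3 := mul_le_mul_of_nonneg_right (hA a₃ h3 (by linarith)) (sq_nonneg p.imK)
  have e4 := mul_nonneg (sq_nonneg (a₁ + a₂ + a₃)) (sq_nonneg p.re)
  nlinarith

theorem HH_sub_le {a₁ a₂ a₃ : ℝ} (h1 : 0 < a₁) (h2 : 0 < a₂) (h3 : 0 < a₃) (p q : ℍ[ℝ]) :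
    |HH a₁ a₂ a₃ p - HH a₁ a₂ a₃ q| ≤ (a₁ + a₂ + a₃) * (‖p - q‖ * (‖p‖ + ‖q‖)) := by
  have hs : ∀ x y : ℝ, |x| ≤ ‖p - q‖ → |y| ≤ ‖p‖ + ‖q‖ → |x * y| ≤ ‖p - q‖ * (‖p‖ + ‖q‖) := by
    intro x y hx hy
    rw [abs_mul]
    exact mul_le_mul hx hy (abs_nonneg _) (norm_nonneg _)
  have eI := hs (p.imI - q.imI) (p.imI + q.imI)
    (by have := abs_imI_le (p - q); rwa [Quaternion.imI_sub] at this)
    ((abs_add_le _ _).trans (add_le_add (abs_imI_le p) (abs_imI_le q)))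
  have eJ := hs (p.imJ - q.imJ) (p.imJ + q.imJ)
    (by have := abs_imJ_le (p - q); rwa [Quaternion.imJ_sub] at this)
    ((abs_add_le _ _).trans (add_le_add (abs_imJ_le p) (abs_imJ_le q)))
  have eK := hs (p.imK - q.imK) (p.imK + q.imK)
    (by have := abs_imK_le (p - q); rwa [Quaternion.imK_sub] at this)
    ((abs_add_le _ _).trans (add_le_add (abs_imK_le p) (abs_imK_le q)))
  have e : HH a₁ a₂ a₃ p - HH a₁ a₂ a₃ q = a₁ * ((p.imI - q.imI) * (p.imI + q.imI))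
      + a₂ * ((p.imJ - q.imJ) * (p.imJ + q.imJ)) + a₃ * ((p.imK - q.imK) * (p.imK + q.imK)) := by
    unfold HH
    ring
  rw [e]
  rw [abs_le] at eI eJ eK ⊢
  constructor <;> nlinarith [eI.1, eI.2, eJ.1, eJ.2, eK.1, eK.2]

theorem bm_sub_left (m m' q : ℍ[ℝ]) : bm (m - m') q = bm m q - bm m' q := by
  simp [bm, mul_sub, sub_mul]

theorem bm_smul_left (r : ℝ) (m q : ℍ[ℝ]) : bm (r • m) q = r • bm m q := by
  simp [bm]

theorem vf_smul_left (a₁ a₂ a₃ r : ℝ) (m q : ℍ[ℝ]) :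
    vf a₁ a₂ a₃ (r • m) q = r • vf a₁ a₂ a₃ m q := by
  simp [vf, bm_smul_left, dg_smul]

theorem bm_sub_right {m q q' : ℍ[ℝ]} (hq : ‖q‖ = 1) (hq' : ‖q'‖ = 1) :
    ‖bm m q - bm m q'‖ ≤ 2 * ‖m‖ * ‖q - q'‖ := by
  have e : bm m q - bm m q' = star q * m * (q - q') + star (q - q') * m * q' := by
    simp only [bm, mul_sub, sub_mul, star_sub]
    abel
  rw [e]
  calc _ ≤ ‖star q * m * (q - q')‖ + ‖star (q - q') * m * q'‖ := norm_add_le _ _
    _ = 2 * ‖m‖ * ‖q - q'‖ := by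
        rw [norm_mul, norm_mul, norm_mul, norm_mul, Quaternion.norm_star, Quaternion.norm_star, hq,
          hq']
        ring

theorem vf_lip {a₁ a₂ a₃ : ℝ} (h1 : 0 < a₁) (h2 : 0 < a₂) (h3 : 0 < a₃) {m ν q q' : ℍ[ℝ]}
    (hq : ‖q‖ = 1) (hq' : ‖q'‖ = 1) :
    ‖vf a₁ a₂ a₃ ν q - vf a₁ a₂ a₃ m q'‖ ≤ (a₁ + a₂ + a₃) * ‖ν - m‖
      + 3 * (a₁ + a₂ + a₃) * ‖m‖ * ‖q - q'‖ := by
  have e : vf a₁ a₂ a₃ ν q - vf a₁ a₂ a₃ m q'
      = q * dg a₁ a₂ a₃ (bm (ν - m) q) + (q - q') * dg a₁ a₂ a₃ (bm m q)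
        + q' * dg a₁ a₂ a₃ (bm m q - bm m q') := by
    simp only [vf, bm_sub_left, dg_sub, mul_sub, sub_mul]
    abel
  have n1 : ‖q * dg a₁ a₂ a₃ (bm (ν - m) q)‖ ≤ (a₁ + a₂ + a₃) * ‖ν - m‖ := by
    rw [norm_mul, hq, one_mul]
    refine (norm_dg h1 h2 h3 _).trans ?_
    rw [norm_bm _ hq]
  have n2 : ‖(q - q') * dg a₁ a₂ a₃ (bm m q)‖ ≤ ‖q - q'‖ * ((a₁ + a₂ + a₃) * ‖m‖) := by
    rw [norm_mul]
    refine mul_le_mul_of_nonneg_left ((norm_dg h1 h2 h3 _).trans ?_) (norm_nonneg _)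
    rw [norm_bm _ hq]
  have n3 : ‖q' * dg a₁ a₂ a₃ (bm m q - bm m q')‖ ≤ (a₁ + a₂ + a₃) * (2 * ‖m‖ * ‖q - q'‖) := by
    rw [norm_mul, hq', one_mul]
    refine (norm_dg h1 h2 h3 _).trans ?_
    exact mul_le_mul_of_nonneg_left (bm_sub_right hq hq') (by positivity)
  rw [e]
  calc _ ≤ ‖q * dg a₁ a₂ a₃ (bm (ν - m) q) + (q - q') * dg a₁ a₂ a₃ (bm m q)‖
        + ‖q' * dg a₁ a₂ a₃ (bm m q - bm m q')‖ := norm_add_le _ _
    _ ≤ ‖q * dg a₁ a₂ a₃ (bm (ν - m) q)‖ + ‖(q - q') * dg a₁ a₂ a₃ (bm m q)‖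
        + ‖q' * dg a₁ a₂ a₃ (bm m q - bm m q')‖ := by
        gcongr
        exact norm_add_le _ _
    _ ≤ (a₁ + a₂ + a₃) * ‖ν - m‖ + ‖q - q'‖ * ((a₁ + a₂ + a₃) * ‖m‖)
        + (a₁ + a₂ + a₃) * (2 * ‖m‖ * ‖q - q'‖) := by gcongr
    _ = _ := by ring

/-- the velocity of a unit curve in terms of its momentum -/
theorem vf_mom {a b c : ℝ} (ha : 0 < a) (hb : 0 < b) (hc : 0 < c) {q v : ℍ[ℝ]} (hq : ‖q‖ = 1)
    (hv : (star q * v).re = 0) : vf (1 / a) (1 / b) (1 / c) (mom a b c q v) q = v := by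
  have e1 : bm (mom a b c q v) q = II a b c (star q * v) := by
    rw [mom_eq, bm]
    calc star q * (q * II a b c (star q * v) * star q) * q
        = (star q * q) * II a b c (star q * v) * (star q * q) := by simp only [mul_assoc]
      _ = II a b c (star q * v) := by rw [star_mul_unit hq, one_mul, mul_one]
  have e2 : dg (1 / a) (1 / b) (1 / c) (II a b c (star q * v)) = star q * v := by
    ext
    · rw [hv]; rfl
    · simp only [dg, II]; field_simp
    · simp only [dg, II]; field_simp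
    · simp only [dg, II]; field_simp
  rw [vf, e1, e2, ← mul_assoc, unit_mul_star hq, one_mul]

theorem HH_mom {a b c : ℝ} (ha : 0 < a) (hb : 0 < b) (hc : 0 < c) {q v : ℍ[ℝ]} (hq : ‖q‖ = 1)
    (r : ℝ) : HH (1 / a) (1 / b) (1 / c) (bm (r • mom a b c q v) q)
      = r ^ 2 * speed a b c q v ^ 2 := by
  have e1 : bm (mom a b c q v) q = II a b c (star q * v) := by
    rw [mom_eq, bm]
    calc star q * (q * II a b c (star q * v) * star q) * q
        = (star q * q) * II a b c (star q * v) * (star q * q) := by simp only [mul_assoc]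
      _ = II a b c (star q * v) := by rw [star_mul_unit hq, one_mul, mul_one]
  rw [bm_smul_left, e1, speed_sq ha hb hc]
  simp only [HH, II, QI, Quaternion.imI_smul, Quaternion.imJ_smul, Quaternion.imK_smul,
    smul_eq_mul]
  field_simp

theorem re_vel {γ : ℝ → ℍ[ℝ]} (hγ : ContDiff ℝ 1 γ) (hu : ∀ t, ‖γ t‖ = 1) (t : ℝ) :
    (star (γ t) * deriv γ t).re = 0 := by
  have h1 : HasDerivAt γ (deriv γ t) t := (hγ.differentiable one_ne_zero t).hasDerivAt
  have h2 := h1.inner ℝ h1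
  have h3 : (fun t => inner ℝ (γ t) (γ t)) = fun _ => (1 : ℝ) := by
    funext s
    rw [real_inner_self_eq_norm_sq, hu s]
    norm_num
  rw [h3] at h2
  have h4 := h2.unique (hasDerivAt_const t (1 : ℝ))
  have h6 := real_inner_comm (γ t) (deriv γ t)
  have h5 : inner ℝ (γ t) (deriv γ t) = (star (γ t) * deriv γ t).re := by
    rw [inner_eq, Quaternion.re_mul]
    simp
  rw [← h5]
  linarith

/-- quantitative estimate for one near minimising path -/
theorem main_est {a b c : ℝ} (ha : 0 < a) (hb : 0 < b) (hc : 0 < c) (C : ℝ) (hC : 0 < C) :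
    ∃ C' : ℝ, 0 < C' ∧ ∀ (q : ℍ[ℝ]) (γ : ℝ → ℍ[ℝ]) (ε : ℝ) (m : ℍ[ℝ]), IsPath 1 q γ → 0 < ε →
      ε ≤ 1 → pathLength a b c γ ≤ gdist a b c 1 q + ε ^ 2 → m.re = 0 → ‖m‖ ≤ C →
      ∫ t in (0 : ℝ)..1, (speed a b c (γ t) (deriv γ t) + ε ^ 2) *
          ‖(speed a b c (γ t) (deriv γ t) + ε ^ 2)⁻¹ • mom a b c (γ t) (deriv γ t) - m‖ ^ 2
        ≤ C * ε →
      ‖q - geo (1 / a) (1 / b) (1 / c) m (pathLength a b c γ + ε ^ 2)‖ ≤ C' * Real.sqrt ε ∧
      |HH (1 / a) (1 / b) (1 / c) m - 1| * (pathLength a b c γ + ε ^ 2) ≤ C' * Real.sqrt ε := by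
  obtain ⟨C0, hC0, hdist⟩ := gdist_le_norm (a := a) (b := b) (c := c) ha hb hc
  obtain ⟨M, hM⟩ : ∃ M, M = 1 / a + 1 / b + 1 / c := ⟨_, rfl⟩
  have hia : 0 < 1 / a := by positivity
  have hib : 0 < 1 / b := by positivity
  have hic : 0 < 1 / c := by positivity
  have hM0 : 0 < M := by rw [hM]; positivity
  obtain ⟨K, hK⟩ : ∃ K, K = Real.sqrt (a + b + c) := ⟨_, rfl⟩
  have hK0 : 0 ≤ K := by rw [hK]; exact Real.sqrt_nonneg _
  obtain ⟨D, hD⟩ : ∃ D, D = 2 * C0 + 2 := ⟨_, rfl⟩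
  have hD0 : 0 < D := by rw [hD]; positivity
  obtain ⟨K1, hK1⟩ : ∃ K1, K1 = 3 * M * C := ⟨_, rfl⟩
  have hK10 : 0 ≤ K1 := by rw [hK1]; positivity
  obtain ⟨Q1, hQ1⟩ : ∃ Q1, Q1 = Real.exp (K1 * D) * (2 + M * (D + C)) := ⟨_, rfl⟩
  have hQ10 : 0 < Q1 := by rw [hQ1]; positivity
  refine ⟨Q1 + 2 + M * (K + C) * ((D + C) + 2 * C * Q1 * D), by positivity, ?_⟩
  intro q γ ε m hγ hε hε1 hL hmre hmC hJ
  have hq : ‖q‖ = 1 := by rw [← hγ.target]; exact hγ.unit 1
  obtain ⟨s, hs⟩ : ∃ s : ℝ → ℝ, s = fun t => speed a b c (γ t) (deriv γ t) := ⟨_, rfl⟩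
  have hsc : Continuous s := by rw [hs]; exact continuous_speed a b c hγ.smooth
  obtain ⟨w, hw⟩ : ∃ w : ℝ → ℝ, w = fun t => s t + ε ^ 2 := ⟨_, rfl⟩
  have hwc : Continuous w := by rw [hw]; exact hsc.add continuous_const
  have hs0 : ∀ t, 0 ≤ s t := fun t => by rw [hs]; exact speed_nonneg _ _ _ _ _
  have hsw : ∀ t, s t ≤ w t := fun t => by
    rw [hw]
    simp only
    nlinarith [sq_nonneg ε]
  have hw0 : ∀ t, 0 < w t := fun t => by
    have := hs0 t
    have h2 : 0 < ε ^ 2 := by positivity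
    simp only [hw]
    linarith
  obtain ⟨μ, hμ⟩ : ∃ μ : ℝ → ℍ[ℝ], μ = fun t => mom a b c (γ t) (deriv γ t) := ⟨_, rfl⟩
  have hμc : Continuous μ := by rw [hμ]; exact continuous_mom a b c hγ.smooth
  have hμK : ∀ t, ‖μ t‖ ≤ K * w t := fun t => by
    have h1 := norm_mom ha hb hc (hγ.unit t) (deriv γ t)
    have h2 := hsw t
    rw [hs] at h2
    rw [hμ, hK]
    exact h1.trans (mul_le_mul_of_nonneg_left h2 (Real.sqrt_nonneg _))
  obtain ⟨ν, hν⟩ : ∃ ν : ℝ → ℍ[ℝ], ν = fun t => (w t)⁻¹ • μ t := ⟨_, rfl⟩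
  have hνc : Continuous ν := by
    rw [hν]
    exact (hwc.inv₀ fun t => (hw0 t).ne').smul hμc
  have hνK : ∀ t, ‖ν t‖ ≤ K := fun t => by
    rw [hν]
    simp only
    rw [norm_smul, norm_inv, Real.norm_eq_abs, abs_of_pos (hw0 t)]
    calc (w t)⁻¹ * ‖μ t‖ ≤ (w t)⁻¹ * (K * w t) :=
          mul_le_mul_of_nonneg_left (hμK t) (inv_nonneg.2 (hw0 t).le)
      _ = K := by
          have := (hw0 t).ne'
          field_simp
  have hwi : ∀ x y, IntervalIntegrable w MeasureTheory.volume x y :=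
    fun x y => hwc.intervalIntegrable x y
  have hJ' : ∫ t in (0 : ℝ)..1, w t * ‖ν t - m‖ ^ 2 ≤ C * ε := by
    rw [hν, hμ, hw, hs]
    exact hJ
  obtain ⟨W, hW⟩ : ∃ W, W = ∫ t in (0 : ℝ)..1, w t := ⟨_, rfl⟩
  have hWL : pathLength a b c γ + ε ^ 2 = W := by
    rw [hW, pathLength, hw]
    rw [intervalIntegral.integral_add (hsc.intervalIntegrable _ _)
      (continuous_const.intervalIntegrable _ _)]
    simp [hs]
  rw [hWL]
  have hL0 : 0 ≤ pathLength a b c γ := by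
    unfold pathLength
    exact intervalIntegral.integral_nonneg (by norm_num) fun t _ => speed_nonneg _ _ _ _ _
  have hW0 : 0 < W := by
    rw [← hWL]
    positivity
  have hg : gdist a b c 1 q ≤ 2 * C0 := by
    have h1 := hdist 1 q (by simp) hq
    have h2 : ‖(1 : ℍ[ℝ]) - q‖ ≤ 2 := (norm_sub_le _ _).trans (by rw [hq, norm_one]; norm_num)
    nlinarith
  have hWD : W ≤ D := by
    rw [← hWL, hD]
    nlinarith
  have hrt0 : 0 < Real.sqrt ε := Real.sqrt_pos.2 hε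
  have hrt1 : Real.sqrt ε ≤ 1 := Real.sqrt_le_one.2 hε1
  have hrt2 : Real.sqrt ε * Real.sqrt ε = ε := Real.mul_self_sqrt hε.le
  -- first moment
  obtain ⟨e, he⟩ : ∃ e : ℝ → ℝ, e = fun t => w t * ‖ν t - m‖ := ⟨_, rfl⟩
  have hec : Continuous e := by
    rw [he]
    exact hwc.mul (hνc.sub continuous_const).norm
  have he0 : ∀ t, 0 ≤ e t := fun t => by
    rw [he]
    exact mul_nonneg (hw0 t).le (norm_nonneg _)
  have hE : ∫ t in (0 : ℝ)..1, e t ≤ Real.sqrt ε * (D + C) := by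
    have c2 : Continuous fun t => w t * ‖ν t - m‖ ^ 2 :=
      hwc.mul ((hνc.sub continuous_const).norm.pow 2)
    have h1 : ∫ t in (0 : ℝ)..1, e t ≤ ∫ t in (0 : ℝ)..1,
        (Real.sqrt ε * w t + (Real.sqrt ε)⁻¹ * (w t * ‖ν t - m‖ ^ 2)) := by
      apply intervalIntegral.integral_mono_on (by norm_num) (hec.intervalIntegrable _ _)
      · exact ((continuous_const.mul hwc).add (continuous_const.mul c2)).intervalIntegrable _ _
      · intro t _
        rw [he]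
        simp only
        have h2 : ‖ν t - m‖ ≤ Real.sqrt ε + (Real.sqrt ε)⁻¹ * ‖ν t - m‖ ^ 2 := by
          have h3 : Real.sqrt ε * ‖ν t - m‖ ≤ Real.sqrt ε * (Real.sqrt ε
              + (Real.sqrt ε)⁻¹ * ‖ν t - m‖ ^ 2) := by
            have h4 : Real.sqrt ε * (Real.sqrt ε + (Real.sqrt ε)⁻¹ * ‖ν t - m‖ ^ 2)
                = Real.sqrt ε ^ 2 + ‖ν t - m‖ ^ 2 := by
              rw [mul_add, ← mul_assoc, mul_inv_cancel₀ hrt0.ne', one_mul, sq (Real.sqrt ε)]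
            rw [h4]
            nlinarith [sq_nonneg (Real.sqrt ε - ‖ν t - m‖), sq_nonneg (Real.sqrt ε),
              sq_nonneg ‖ν t - m‖]
          exact le_of_mul_le_mul_left h3 hrt0
        calc w t * ‖ν t - m‖ ≤ w t * (Real.sqrt ε + (Real.sqrt ε)⁻¹ * ‖ν t - m‖ ^ 2) :=
              mul_le_mul_of_nonneg_left h2 (hw0 t).le
          _ = _ := by ring
    have c3 : Continuous fun t => Real.sqrt ε * w t := continuous_const.mul hwc
    have c4 : Continuous fun t => (Real.sqrt ε)⁻¹ * (w t * ‖ν t - m‖ ^ 2) :=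
      continuous_const.mul c2
    rw [intervalIntegral.integral_add (c3.intervalIntegrable _ _) (c4.intervalIntegrable _ _),
      intervalIntegral.integral_const_mul, intervalIntegral.integral_const_mul, ← hW] at h1
    have h5 : (Real.sqrt ε)⁻¹ * ∫ t in (0 : ℝ)..1, w t * ‖ν t - m‖ ^ 2
        ≤ (Real.sqrt ε)⁻¹ * (C * ε) := mul_le_mul_of_nonneg_left hJ' (by positivity)
    have h6 : (Real.sqrt ε)⁻¹ * (C * ε) = Real.sqrt ε * C := by
      calc (Real.sqrt ε)⁻¹ * (C * ε) = (Real.sqrt ε)⁻¹ * (C * (Real.sqrt ε * Real.sqrt ε)) := by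
            rw [hrt2]
        _ = ((Real.sqrt ε)⁻¹ * Real.sqrt ε) * (Real.sqrt ε * C) := by ring
        _ = Real.sqrt ε * C := by rw [inv_mul_cancel₀ hrt0.ne', one_mul]
    have h7 : Real.sqrt ε * W ≤ Real.sqrt ε * D := mul_le_mul_of_nonneg_left hWD hrt0.le
    nlinarith
  -- the two curves
  obtain ⟨θ, hθ⟩ : ∃ θ : ℝ → ℝ, θ = fun t => ∫ x in (0 : ℝ)..t, w x := ⟨_, rfl⟩
  have hθd : ∀ t, HasDerivAt θ (w t) t := fun t => by
    rw [hθ]
    exact (hwc.integral_hasStrictDerivAt 0 t).hasDerivAt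
  have hθ0 : θ 0 = 0 := by rw [hθ]; simp
  have hθ1 : θ 1 = W := by rw [hθ, hW]
  have hθmono : Monotone θ := monotone_of_deriv_nonneg (fun t => (hθd t).differentiableAt)
    (fun t => by rw [(hθd t).deriv]; exact (hw0 t).le)
  obtain ⟨σ, hσ⟩ : ∃ σ : ℝ → ℍ[ℝ], σ = fun t => geo (1 / a) (1 / b) (1 / c) m (θ t) :=
    ⟨_, rfl⟩
  have hσu : ∀ t, ‖σ t‖ = 1 := fun t => by rw [hσ]; exact norm_geo _ _
  have hσd : ∀ t, HasDerivAt σ (w t • vf (1 / a) (1 / b) (1 / c) m (σ t)) t := fun t => by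
    have h1 := (isGeo_geo (1 / a) (1 / b) (1 / c) m).2 (θ t)
    rw [hσ]
    exact h1.scomp t (hθd t)
  have hγd : ∀ t, HasDerivAt γ (w t • vf (1 / a) (1 / b) (1 / c) (ν t) (γ t)) t := fun t => by
    have h1 : HasDerivAt γ (deriv γ t) t := (hγ.smooth.differentiable one_ne_zero t).hasDerivAt
    have h2 := vf_mom ha hb hc (hγ.unit t) (re_vel hγ.smooth hγ.unit t)
    have h3 : w t • vf (1 / a) (1 / b) (1 / c) (ν t) (γ t) = deriv γ t := by
      rw [hν, hμ]
      simp only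
      rw [vf_smul_left, h2, smul_smul, mul_inv_cancel₀ (hw0 t).ne', one_smul]
    rw [h3]
    exact h1
  -- Gronwall
  obtain ⟨E, hEd⟩ : ∃ E : ℝ → ℝ, E = fun t => ∫ x in (0 : ℝ)..t, e x := ⟨_, rfl⟩
  have hEd' : ∀ t, HasDerivAt E (e t) t := fun t => by
    rw [hEd]
    exact (hec.integral_hasStrictDerivAt 0 t).hasDerivAt
  have hE0 : E 0 = 0 := by rw [hEd]; simp
  have hEmono : Monotone E := monotone_of_deriv_nonneg (fun t => (hEd' t).differentiableAt)
    (fun t => by rw [(hEd' t).deriv]; exact he0 t)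
  have hE1 : E 1 ≤ Real.sqrt ε * (D + C) := by rw [hEd]; exact hE
  set δ := Real.sqrt ε with hδ
  have hgron : ∀ t ∈ Icc (0 : ℝ) 1, ‖γ t - σ t‖ ≤ Real.exp (K1 * θ t) * (δ + δ * t + M * E t) := by
    apply image_norm_le_of_norm_deriv_right_lt_deriv_boundary
      (f := fun t => γ t - σ t)
      (f' := fun t => w t • vf (1 / a) (1 / b) (1 / c) (ν t) (γ t)
        - w t • vf (1 / a) (1 / b) (1 / c) m (σ t))
      (B := fun t => Real.exp (K1 * θ t) * (δ + δ * t + M * E t))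
      (B' := fun t => Real.exp (K1 * θ t) * (K1 * w t) * (δ + δ * t + M * E t)
        + Real.exp (K1 * θ t) * (δ * 1 + M * e t))
    · exact fun t _ => ((hγd t).sub (hσd t)).continuousAt.continuousWithinAt
    · exact fun t _ => ((hγd t).sub (hσd t)).hasDerivWithinAt
    · have h0 : γ 0 = σ 0 := by rw [hγ.source, hσ]; simp only [hθ0]; rw [geo_zero]
      show ‖γ 0 - σ 0‖ ≤ Real.exp (K1 * θ 0) * (δ + δ * 0 + M * E 0)
      rw [h0, sub_self, norm_zero, hθ0, hE0, mul_zero, mul_zero, mul_zero, Real.exp_zero,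
        add_zero, add_zero, one_mul]
      exact hrt0.le
    · intro t
      have h1 : HasDerivAt (fun t => Real.exp (K1 * θ t)) (Real.exp (K1 * θ t) * (K1 * w t)) t :=
        ((hθd t).const_mul K1).exp
      have h2 : HasDerivAt (fun t => δ + δ * t + M * E t) (δ * 1 + M * e t) t := by
        have h3 := ((hasDerivAt_id t).const_mul δ).const_add δ
        exact h3.add ((hEd' t).const_mul M)
      exact h1.mul h2
    · intro t ht hft
      rw [← smul_sub, norm_smul, Real.norm_eq_abs, abs_of_pos (hw0 t)]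
      have h1 := vf_lip (a₁ := 1 / a) (a₂ := 1 / b) (a₃ := 1 / c) hia hib hic (m := m) (ν := ν t)
        (hγ.unit t) (hσu t)
      rw [← hM] at h1
      have hexp : 1 ≤ Real.exp (K1 * θ t) := by
        apply Real.one_le_exp
        have : 0 ≤ θ t := by rw [← hθ0]; exact hθmono ht.1
        positivity
      have h2 : w t * ‖vf (1 / a) (1 / b) (1 / c) (ν t) (γ t) - vf (1 / a) (1 / b) (1 / c) m (σ t)‖
          ≤ M * e t + K1 * w t * ‖γ t - σ t‖ := by
        calc _ ≤ w t * (M * ‖ν t - m‖ + 3 * M * ‖m‖ * ‖γ t - σ t‖) :=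
              mul_le_mul_of_nonneg_left h1 (hw0 t).le
          _ ≤ w t * (M * ‖ν t - m‖ + 3 * M * C * ‖γ t - σ t‖) := by
              have := (hw0 t).le
              gcongr
          _ = M * e t + K1 * w t * ‖γ t - σ t‖ := by rw [he, hK1]; ring
      rw [hft] at h2
      have h3 : M * e t < Real.exp (K1 * θ t) * (δ * 1 + M * e t) := by
        have h4 : 0 ≤ M * e t := mul_nonneg hM0.le (he0 t)
        have h5 : 0 < δ * 1 + M * e t := by linarith
        nlinarith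
      calc _ ≤ _ := h2
        _ < Real.exp (K1 * θ t) * (K1 * w t) * (δ + δ * t + M * E t)
            + Real.exp (K1 * θ t) * (δ * 1 + M * e t) := by
            have h6 : K1 * w t * (Real.exp (K1 * θ t) * (δ + δ * t + M * E t))
                = Real.exp (K1 * θ t) * (K1 * w t) * (δ + δ * t + M * E t) := by ring
            linarith
  have hclose : ∀ t ∈ Icc (0 : ℝ) 1, ‖γ t - σ t‖ ≤ Q1 * δ := by
    intro t ht
    have h1 := hgron t ht
    have h2 : Real.exp (K1 * θ t) ≤ Real.exp (K1 * D) := by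
      apply Real.exp_le_exp.2
      have : θ t ≤ D := (hθmono ht.2).trans (by rw [hθ1]; exact hWD)
      exact mul_le_mul_of_nonneg_left this hK10
    have h3 : δ + δ * t + M * E t ≤ δ * (2 + M * (D + C)) := by
      have h4 : E t ≤ δ * (D + C) := (hEmono ht.2).trans hE1
      have h5 : δ * t ≤ δ := by nlinarith [ht.2]
      nlinarith
    have h6 : 0 ≤ δ + δ * t + M * E t := by
      have h7 : 0 ≤ E t := by rw [← hE0]; exact hEmono ht.1
      have h8 : 0 ≤ δ * t := mul_nonneg hrt0.le ht.1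
      positivity
    calc _ ≤ _ := h1
      _ ≤ Real.exp (K1 * D) * (δ * (2 + M * (D + C))) :=
          mul_le_mul h2 h3 h6 (Real.exp_pos _).le
      _ = Q1 * δ := by rw [hQ1]; ring
  have hγ1 : γ 1 = q := hγ.target
  have hfirst : ‖q - geo (1 / a) (1 / b) (1 / c) m W‖ ≤ Q1 * δ := by
    have h1 := hclose 1 ⟨zero_le_one, le_rfl⟩
    rw [hγ1, hσ] at h1
    simp only [hθ1] at h1
    exact h1
  -- the energy
  obtain ⟨P, hP⟩ : ∃ P : ℝ → ℝ, P = fun t => HH (1 / a) (1 / b) (1 / c) (bm (ν t) (γ t)) :=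
    ⟨_, rfl⟩
  have hPeq : ∀ t, P t = (w t)⁻¹ ^ 2 * s t ^ 2 := fun t => by
    rw [hP, hν, hμ, hs]
    exact HH_mom ha hb hc (hγ.unit t) _
  have hP1 : ∀ t, |w t * (1 - P t)| ≤ 2 * ε ^ 2 := fun t => by
    have h1 : w t * (1 - P t) = (w t - s t) * ((w t + s t) / w t) := by
      rw [hPeq]
      have := (hw0 t).ne'
      field_simp
      ring
    have h2 : w t - s t = ε ^ 2 := by rw [hw]; ring
    have h3 : (w t + s t) / w t ≤ 2 := by
      rw [div_le_iff₀ (hw0 t)]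
      linarith [hsw t]
    have h4 : 0 ≤ (w t + s t) / w t := div_nonneg (by linarith [hs0 t, hw0 t]) (hw0 t).le
    rw [h1, h2, abs_of_nonneg (mul_nonneg (sq_nonneg _) h4)]
    nlinarith [sq_nonneg ε]
  have hHm : ∀ t, HH (1 / a) (1 / b) (1 / c) (bm m (σ t)) = HH (1 / a) (1 / b) (1 / c) m :=
    fun t => by
      have := HH_bg (a₁ := 1 / a) (a₂ := 1 / b) (a₃ := 1 / c) hmre (θ t)
      rw [hσ]
      exact this
  have hdiff : ∀ t ∈ Icc (0 : ℝ) 1, w t * |P t - HH (1 / a) (1 / b) (1 / c) m|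
      ≤ M * (K + C) * (e t + 2 * C * (Q1 * δ) * w t) := by
    intro t ht
    have h1 := HH_sub_le (a₁ := 1 / a) (a₂ := 1 / b) (a₃ := 1 / c) hia hib hic
      (bm (ν t) (γ t)) (bm m (σ t))
    rw [hHm, norm_bm _ (hγ.unit t), norm_bm _ (hσu t), ← hM] at h1
    have h2 : ‖bm (ν t) (γ t) - bm m (σ t)‖ ≤ ‖ν t - m‖ + 2 * C * (Q1 * δ) := by
      have e1 : bm (ν t) (γ t) - bm m (σ t)
          = bm (ν t - m) (γ t) + (bm m (γ t) - bm m (σ t)) := by
        rw [bm_sub_left]; abel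
      rw [e1]
      refine (norm_add_le _ _).trans ?_
      rw [norm_bm _ (hγ.unit t)]
      have h3 := bm_sub_right (m := m) (hγ.unit t) (hσu t)
      have h4 : 2 * ‖m‖ * ‖γ t - σ t‖ ≤ 2 * C * (Q1 * δ) := by
        have := hclose t ht
        gcongr
      linarith
    have h5 : |P t - HH (1 / a) (1 / b) (1 / c) m|
        ≤ M * ((‖ν t - m‖ + 2 * C * (Q1 * δ)) * (K + C)) := by
      rw [hP]
      refine h1.trans ?_
      have := hνK t
      gcongr
    calc w t * |P t - HH (1 / a) (1 / b) (1 / c) m|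
        ≤ w t * (M * ((‖ν t - m‖ + 2 * C * (Q1 * δ)) * (K + C))) :=
          mul_le_mul_of_nonneg_left h5 (hw0 t).le
      _ = M * (K + C) * (e t + 2 * C * (Q1 * δ) * w t) := by rw [he]; ring
  have hsecond : |HH (1 / a) (1 / b) (1 / c) m - 1| * W
      ≤ 2 * ε ^ 2 + M * (K + C) * (δ * (D + C) + 2 * C * (Q1 * δ) * W) := by
    have h1 : |HH (1 / a) (1 / b) (1 / c) m - 1| * W
        = ∫ t in (0 : ℝ)..1, w t * |HH (1 / a) (1 / b) (1 / c) m - 1| := by
      rw [intervalIntegral.integral_mul_const, ← hW, mul_comm]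
    have h2 : ∫ t in (0 : ℝ)..1, w t * |HH (1 / a) (1 / b) (1 / c) m - 1|
        ≤ ∫ t in (0 : ℝ)..1, (2 * ε ^ 2 + M * (K + C) * (e t + 2 * C * (Q1 * δ) * w t)) := by
      apply intervalIntegral.integral_mono_on (by norm_num)
        ((hwc.mul continuous_const).intervalIntegrable _ _)
      · exact (continuous_const.add (continuous_const.mul
          (hec.add (continuous_const.mul hwc)))).intervalIntegrable _ _
      · intro t ht
        have h3 := hdiff t ht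
        have h4 := hP1 t
        rw [abs_mul, abs_of_pos (hw0 t)] at h4
        have h5 : |HH (1 / a) (1 / b) (1 / c) m - 1|
            ≤ |1 - P t| + |P t - HH (1 / a) (1 / b) (1 / c) m| := by
          have e1 : HH (1 / a) (1 / b) (1 / c) m - 1
              = -((1 - P t) + (P t - HH (1 / a) (1 / b) (1 / c) m)) := by ring
          rw [e1, abs_neg]
          exact abs_add_le _ _
        have h6 := mul_le_mul_of_nonneg_left h5 (hw0 t).le
        rw [mul_add] at h6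
        show w t * |HH (1 / a) (1 / b) (1 / c) m - 1| ≤ _
        linarith
    have c1 : Continuous fun t => 2 * C * (Q1 * δ) * w t := continuous_const.mul hwc
    have c2 : Continuous fun t => e t + 2 * C * (Q1 * δ) * w t := hec.add c1
    have c3 : Continuous fun t => M * (K + C) * (e t + 2 * C * (Q1 * δ) * w t) :=
      continuous_const.mul c2
    have c0 : Continuous fun _ : ℝ => 2 * ε ^ 2 := continuous_const
    have h7 : ∫ _ in (0 : ℝ)..1, 2 * ε ^ 2 = 2 * ε ^ 2 := by simp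
    rw [intervalIntegral.integral_add (c0.intervalIntegrable _ _) (c3.intervalIntegrable _ _), h7,
      intervalIntegral.integral_const_mul,
      intervalIntegral.integral_add (hec.intervalIntegrable _ _) (c1.intervalIntegrable _ _),
      intervalIntegral.integral_const_mul, ← hW] at h2
    rw [h1]
    refine h2.trans ?_
    have hKC : 0 ≤ M * (K + C) := by positivity
    gcongr
  constructor
  · refine hfirst.trans (mul_le_mul_of_nonneg_right ?_ hrt0.le)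
    have : 0 ≤ M * (K + C) * ((D + C) + 2 * C * Q1 * D) := by positivity
    linarith
  · refine hsecond.trans ?_
    have h1 : ε ^ 2 ≤ δ := by
      have h2 : ε ^ 2 ≤ ε := by nlinarith
      have h3 : ε ≤ δ := by rw [← hrt2]; nlinarith
      linarith
    have h4 : 2 * C * (Q1 * δ) * W ≤ 2 * C * (Q1 * δ) * D := by gcongr
    have hKC : 0 ≤ M * (K + C) := by positivity
    have h5 : M * (K + C) * (δ * (D + C) + 2 * C * (Q1 * δ) * W)
        ≤ M * (K + C) * (δ * (D + C) + 2 * C * (Q1 * δ) * D) := by gcongr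
    have h6 : 0 ≤ Q1 * δ := by positivity
    calc _ ≤ 2 * δ + M * (K + C) * (δ * (D + C) + 2 * C * (Q1 * δ) * D) := by linarith
      _ ≤ Q1 * δ + (2 * δ + M * (K + C) * (δ * (D + C) + 2 * C * (Q1 * δ) * D)) := by linarith
      _ = _ := by ring

end VarBAux

open VarAAux VarBAux in
/-- VARB -/
theorem exists_min {a b c : ℝ} (ha : 0 < a) (hb : 0 < b) (hc : 0 < c) (q : ℍ[ℝ]) (hq : ‖q‖ = 1) :
    ∃ m, Minl a b c m (gdist a b c 1 q) ∧
      geo (1 / a) (1 / b) (1 / c) m (gdist a b c 1 q) = q := by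
  suffices h : ∃ m ∈ Ell (1 / a) (1 / b) (1 / c),
      geo (1 / a) (1 / b) (1 / c) m (gdist a b c 1 q) = q by
    obtain ⟨m, hm, hgeo⟩ := h
    refine ⟨m, ⟨hm, gdist_nonneg _ _, ?_⟩, hgeo⟩
    rw [hgeo]
  have hd0 : 0 ≤ gdist a b c 1 q := gdist_nonneg _ _
  rcases hd0.eq_or_lt with hd | hd
  · -- distance zero
    obtain ⟨C, hC, hn⟩ := norm_le_gdist (a := a) (b := b) (c := c) ha hb hc
    have h1 := hn 1 q (by simp) hq
    rw [← hd, mul_zero] at h1
    have h2 : (1 : ℍ[ℝ]) = q := sub_eq_zero.1 (norm_le_zero_iff.1 h1)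
    refine ⟨⟨0, Real.sqrt a, 0, 0⟩, ⟨rfl, ?_⟩, ?_⟩
    · simp only [HH]
      rw [Real.sq_sqrt ha.le]
      field_simp
      ring
    · rw [← hd, geo_zero, h2]
  · obtain ⟨C, hC, hnear⟩ := near_min (a := a) (b := b) (c := c) ha hb hc
    obtain ⟨C', hC', hest⟩ := main_est ha hb hc C hC
    -- the sequence
    have hex : ∀ k : ℕ, ∃ (m : ℍ[ℝ]) (W : ℝ), m.re = 0 ∧ ‖m‖ ≤ C ∧ gdist a b c 1 q ≤ W ∧
        W ≤ gdist a b c 1 q + 2 * (1 / ((k : ℝ) + 1)) ^ 2 ∧
        ‖q - geo (1 / a) (1 / b) (1 / c) m W‖ ≤ C' * Real.sqrt (1 / ((k : ℝ) + 1)) ∧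
        |HH (1 / a) (1 / b) (1 / c) m - 1| * W ≤ C' * Real.sqrt (1 / ((k : ℝ) + 1)) := by
      intro k
      have hε : 0 < 1 / ((k : ℝ) + 1) := by positivity
      have hε1 : 1 / ((k : ℝ) + 1) ≤ 1 := by
        rw [div_le_one (by positivity)]
        linarith [(Nat.cast_nonneg k : (0 : ℝ) ≤ k)]
      obtain ⟨γ, hγ, hL⟩ := exists_near_path (a := a) (b := b) (c := c) 1 q (by simp) hq
        (ε := (1 / ((k : ℝ) + 1)) ^ 2) (by positivity)
      obtain ⟨m, hm1, hm2, hm3⟩ := hnear q γ _ hγ hε hε1 hL.le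
      obtain ⟨h1, h2⟩ := hest q γ _ m hγ hε hε1 hL.le hm1 hm2 hm3
      have h3 := gdist_le_pathLength (a := a) (b := b) (c := c) hγ
      refine ⟨m, _, hm1, hm2, ?_, ?_, h1, h2⟩
      · have : 0 ≤ (1 / ((k : ℝ) + 1)) ^ 2 := by positivity
        linarith
      · linarith
    choose m W hmre hmC hW1 hW2 hW3 hW4 using hex
    have hε0 : Filter.Tendsto (fun k : ℕ => 1 / ((k : ℝ) + 1)) Filter.atTop (nhds 0) :=
      tendsto_one_div_add_atTop_nhds_zero_nat
    have hrt : Filter.Tendsto (fun k : ℕ => C' * Real.sqrt (1 / ((k : ℝ) + 1))) Filter.atTop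
        (nhds 0) := by
      have h1 := (Real.continuous_sqrt.tendsto 0).comp hε0
      rw [Real.sqrt_zero] at h1
      simpa using h1.const_mul C'
    have hWt : Filter.Tendsto W Filter.atTop (nhds (gdist a b c 1 q)) := by
      apply tendsto_of_tendsto_of_tendsto_of_le_of_le tendsto_const_nhds _ hW1 hW2
      have h1 := ((hε0.pow 2).const_mul 2).const_add (gdist a b c 1 q)
      simpa using h1
    obtain ⟨m0, -, φ, hφ, hφt⟩ := (isCompact_closedBall (0 : ℍ[ℝ]) C).tendsto_subseq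
      (x := m) (fun k => by simpa using hmC k)
    have hWφ := hWt.comp hφ.tendsto_atTop
    have hrtφ := hrt.comp hφ.tendsto_atTop
    refine ⟨m0, ⟨?_, ?_⟩, ?_⟩
    · have h1 := (Quaternion.continuous_re.tendsto m0).comp hφt
      have h2 : ((fun q : ℍ[ℝ] => q.re) ∘ m ∘ φ) = fun _ => 0 := by
        funext k
        exact hmre _
      rw [h2] at h1
      exact tendsto_nhds_unique h1 tendsto_const_nhds |>.symm ▸ rfl
    · -- energy one
      have hHc : Continuous (HH (1 / a) (1 / b) (1 / c)) := by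
        unfold HH
        exact ((continuous_const.mul (Quaternion.continuous_imI.pow 2)).add
          (continuous_const.mul (Quaternion.continuous_imJ.pow 2))).add
          (continuous_const.mul (Quaternion.continuous_imK.pow 2))
      have h1 := (hHc.tendsto m0).comp hφt
      have h2 : Filter.Tendsto (fun k => |HH (1 / a) (1 / b) (1 / c) (m (φ k)) - 1| * W (φ k))
          Filter.atTop (nhds (|HH (1 / a) (1 / b) (1 / c) m0 - 1| * gdist a b c 1 q)) :=
        ((h1.sub_const 1).abs).mul hWφ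
      have h3 : |HH (1 / a) (1 / b) (1 / c) m0 - 1| * gdist a b c 1 q ≤ 0 :=
        le_of_tendsto_of_tendsto' h2 hrtφ (fun k => hW4 (φ k))
      have h4 : |HH (1 / a) (1 / b) (1 / c) m0 - 1| ≤ 0 := by
        by_contra hcon
        push Not at hcon
        have := mul_pos hcon hd
        linarith
      have h5 := abs_nonpos_iff.1 h4
      linarith
    · have h1 : Filter.Tendsto (fun k => (m (φ k), W (φ k))) Filter.atTop
          (nhds (m0, gdist a b c 1 q)) := hφt.prodMk_nhds hWφ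
      have h2 := ((continuous_geo (a₁ := 1 / a) (a₂ := 1 / b) (a₃ := 1 / c)).tendsto
        (m0, gdist a b c 1 q)).comp h1
      have h3 : Filter.Tendsto (fun k => ‖q - geo (1 / a) (1 / b) (1 / c) (m (φ k)) (W (φ k))‖)
          Filter.atTop (nhds ‖q - geo (1 / a) (1 / b) (1 / c) m0 (gdist a b c 1 q)‖) :=
        (h2.const_sub q).norm
      have h4 : ‖q - geo (1 / a) (1 / b) (1 / c) m0 (gdist a b c 1 q)‖ ≤ 0 :=
        le_of_tendsto_of_tendsto' h3 hrtφ (fun k => hW3 (φ k))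
      exact (sub_eq_zero.1 (norm_le_zero_iff.1 h4)).symm

end

end Pool.Agent.CutS3
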