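import Pool.Agent.CutS3.Geo
import Pool.Agent.CutS3.Dist
import Pool.Agent.CutS3.VarB

set_option autoImplicit false

namespace Pool.Agent.CutS3

open Set Quaternion

noncomputable section

namespace CornerAux

/-- the scalar product of the imaginary parts -/
def dot (p q : ℍ[ℝ]) : ℝ := p.imI * q.imI + p.imJ * q.imJ + p.imK * q.imK

theorem unit_comp {q : ℍ[ℝ]} (hq : ‖q‖ = 1) :
    q.re ^ 2 + q.imI ^ 2 + q.imJ ^ 2 + q.imK ^ 2 = 1 := by
  have h := Quaternion.normSq_def' q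
  rw [Quaternion.normSq_eq_norm_mul_self, hq] at h
  linarith

theorem norm_of_comp {q : ℍ[ℝ]} (h : q.re ^ 2 + q.imI ^ 2 + q.imJ ^ 2 + q.imK ^ 2 = 1) :
    ‖q‖ = 1 := by
  have h1 := Quaternion.normSq_def' q
  rw [Quaternion.normSq_eq_norm_mul_self, h] at h1
  have h0 := norm_nonneg q
  nlinarith

theorem star_mul_self' {q : ℍ[ℝ]} (hq : ‖q‖ = 1) : star q * q = 1 := by
  rw [Quaternion.star_mul_self, Quaternion.normSq_eq_norm_mul_self, hq]; simp

theorem self_mul_star' {q : ℍ[ℝ]} (hq : ‖q‖ = 1) : q * star q = 1 := by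
  rw [Quaternion.self_mul_star, Quaternion.normSq_eq_norm_mul_self, hq]; simp

theorem star_cancel {q : ℍ[ℝ]} (hq : ‖q‖ = 1) (x : ℍ[ℝ]) : star q * (q * x) = x := by
  rw [← mul_assoc, star_mul_self' hq, one_mul]

theorem norm_star' {q : ℍ[ℝ]} (hq : ‖q‖ = 1) : ‖star q‖ = 1 := by rw [norm_star, hq]

theorem norm_mul' {p q : ℍ[ℝ]} (hp : ‖p‖ = 1) (hq : ‖q‖ = 1) : ‖p * q‖ = 1 := by
  rw [norm_mul, hp, hq, one_mul]

/-- invariance of the scalar product under rotations -/
theorem dot_bm {m n q : ℍ[ℝ]} (hm : m.re = 0) (hn : n.re = 0) (hq : ‖q‖ = 1) :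
    dot (bm m q) (bm n q) = dot m n := by
  have h := unit_comp hq
  have key : dot (bm m q) (bm n q)
      = (q.re ^ 2 + q.imI ^ 2 + q.imJ ^ 2 + q.imK ^ 2) ^ 2 * dot m n := by
    unfold dot bm
    simp only [Quaternion.re_mul, Quaternion.imI_mul, Quaternion.imJ_mul, Quaternion.imK_mul,
      Quaternion.re_star, Quaternion.imI_star, Quaternion.imJ_star, Quaternion.imK_star, hm, hn]
    ring
  rw [key, h]; ring

theorem rot_unit {ξ : ℍ[ℝ]} (hξ : ξ ∈ Un) (θ : ℝ) : ‖rot θ ξ‖ = 1 := by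
  have h := unit_comp hξ.2
  rw [hξ.1] at h
  apply norm_of_comp
  unfold rot
  simp only [Quaternion.re_add, Quaternion.imI_add, Quaternion.imJ_add, Quaternion.imK_add,
    Quaternion.re_coe, Quaternion.imI_coe, Quaternion.imJ_coe, Quaternion.imK_coe,
    Quaternion.re_smul, Quaternion.imI_smul, Quaternion.imJ_smul, Quaternion.imK_smul, hξ.1,
    smul_eq_mul]
  have := Real.sin_sq_add_cos_sq θ
  nlinarith

theorem rot_zero (ξ : ℍ[ℝ]) : rot 0 ξ = 1 := by
  unfold rot; simp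

theorem sq_Un {ξ : ℍ[ℝ]} (hξ : ξ ∈ Un) : ξ * ξ = -1 := by
  have h := unit_comp hξ.2
  rw [hξ.1] at h
  apply Quaternion.ext
  · simp [hξ.1]; nlinarith
  · simp [hξ.1]; ring
  · simp [hξ.1]; ring
  · simp [hξ.1]; ring

theorem hasDerivAt_rot {ξ : ℍ[ℝ]} (hξ : ξ ∈ Un) (θ : ℝ) :
    HasDerivAt (fun x => rot x ξ) (rot θ ξ * ξ) θ := by
  have h1 : HasDerivAt (fun x : ℝ => ((Real.cos x : ℝ) : ℍ[ℝ]) + (Real.sin x) • ξ)
      ((-Real.sin θ) • (1 : ℍ[ℝ]) + (Real.cos θ) • ξ) θ := by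
    have hc : HasDerivAt (fun x : ℝ => (Real.cos x) • (1 : ℍ[ℝ])) ((-Real.sin θ) • (1 : ℍ[ℝ])) θ :=
      (Real.hasDerivAt_cos θ).smul_const _
    have hs : HasDerivAt (fun x : ℝ => (Real.sin x) • ξ) ((Real.cos θ) • ξ) θ :=
      (Real.hasDerivAt_sin θ).smul_const _
    have := hc.add hs
    refine this.congr_of_eventuallyEq ?_
    filter_upwards with x
    congr 1
    apply Quaternion.ext <;> simp
  have h2 : rot θ ξ * ξ = (-Real.sin θ) • (1 : ℍ[ℝ]) + (Real.cos θ) • ξ := by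
    unfold rot
    rw [add_mul, smul_mul_assoc, sq_Un hξ, ← Quaternion.coe_mul_eq_smul (Real.cos θ) ξ]
    simp only [smul_neg, neg_smul]
    abel
  rw [h2]
  exact h1

/-- conjugation of a rotation -/
theorem rot_bm {x ξ : ℍ[ℝ]} (hx : ‖x‖ = 1) (θ : ℝ) : rot θ ξ * x = x * rot θ (bm ξ x) := by
  unfold rot bm
  rw [add_mul, mul_add]
  congr 1
  · exact (Quaternion.coe_commutes _ _)
  · rw [smul_mul_assoc, mul_smul_comm]
    congr 1
    rw [← mul_assoc, ← mul_assoc, self_mul_star' hx, one_mul]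

theorem rot_neg_mul {ξ : ℍ[ℝ]} (hξ : ξ ∈ Un) (θ : ℝ) : rot (-θ) ξ * rot θ ξ = 1 := by
  unfold rot
  have h := unit_comp hξ.2
  rw [hξ.1] at h
  have h2 := Real.sin_sq_add_cos_sq θ
  have e1 : (-Real.sin θ) * Real.sin θ * (ξ.imI ^ 2 + ξ.imJ ^ 2 + ξ.imK ^ 2)
      = -Real.sin θ ^ 2 := by
    have : ξ.imI ^ 2 + ξ.imJ ^ 2 + ξ.imK ^ 2 = 1 := by linarith
    rw [this]; ring
  apply Quaternion.ext
  · simp [hξ.1]; linear_combination h2 - e1
  · simp [hξ.1]; ring
  · simp [hξ.1]; ring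
  · simp [hξ.1]; ring

section

variable {a b c : ℝ}

theorem speed_geo (ha : 0 < a) (hb : 0 < b) (hc : 0 < c) {m : ℍ[ℝ]}
    (hm : m ∈ Ell (1 / a) (1 / b) (1 / c)) (t : ℝ) :
    speed a b c (geo (1 / a) (1 / b) (1 / c) m t)
      (deriv (geo (1 / a) (1 / b) (1 / c) m) t) = 1 := by
  have hd := (isGeo_geo (1 / a) (1 / b) (1 / c) m).2 t
  rw [hd.deriv]
  unfold speed vf
  rw [star_cancel (norm_geo m t)]
  have h2 := HH_bg (a₁ := 1 / a) (a₂ := 1 / b) (a₃ := 1 / c) hm.1 t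
  rw [hm.2] at h2
  unfold HH bg at h2
  unfold dg
  simp only
  rw [Real.sqrt_eq_one]
  refine Eq.trans ?_ h2
  field_simp

theorem continuous_geo' (a₁ a₂ a₃ : ℝ) (m : ℍ[ℝ]) : Continuous (geo a₁ a₂ a₃ m) := by
  have hd := (isGeo_geo a₁ a₂ a₃ m).2
  rw [continuous_iff_continuousAt]
  exact fun t => (hd t).continuousAt

theorem continuous_dg (a₁ a₂ a₃ : ℝ) : Continuous (dg a₁ a₂ a₃) := by
  have h : dg a₁ a₂ a₃ = fun p => (a₁ * p.imI) • (⟨0, 1, 0, 0⟩ : ℍ[ℝ])
      + (a₂ * p.imJ) • (⟨0, 0, 1, 0⟩ : ℍ[ℝ]) + (a₃ * p.imK) • (⟨0, 0, 0, 1⟩ : ℍ[ℝ]) := by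
    funext p
    apply Quaternion.ext <;> simp [dg]
  rw [h]
  have h1 : Continuous fun P : ℍ[ℝ] => P.imI := Quaternion.continuous_imI
  have h2 : Continuous fun P : ℍ[ℝ] => P.imJ := Quaternion.continuous_imJ
  have h3 : Continuous fun P : ℍ[ℝ] => P.imK := Quaternion.continuous_imK
  exact (((continuous_const.mul h1).smul continuous_const).add
    ((continuous_const.mul h2).smul continuous_const)).add
    ((continuous_const.mul h3).smul continuous_const)

theorem contDiff_geo (a₁ a₂ a₃ : ℝ) (m : ℍ[ℝ]) : ContDiff ℝ 1 (geo a₁ a₂ a₃ m) := by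
  rw [contDiff_one_iff_deriv]
  have hd := (isGeo_geo a₁ a₂ a₃ m).2
  refine ⟨fun t => (hd t).differentiableAt, ?_⟩
  have : deriv (geo a₁ a₂ a₃ m) = fun t => vf a₁ a₂ a₃ m (geo a₁ a₂ a₃ m t) := by
    funext t; exact (hd t).deriv
  rw [this]
  unfold vf bm
  have hg := continuous_geo' a₁ a₂ a₃ m
  exact hg.mul ((continuous_dg a₁ a₂ a₃).comp (((continuous_star.comp hg).mul
    continuous_const).mul hg))

/-- first variation -/
theorem first_variation (ha : 0 < a) (hb : 0 < b) (hc : 0 < c) {m ξ : ℍ[ℝ]}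
    (hm : m ∈ Ell (1 / a) (1 / b) (1 / c)) (hξ : ξ ∈ Un) {T : ℝ} (hT : 0 < T) :
    ∃ C : ℝ, 0 ≤ C ∧ ∀ ε : ℝ, gdist a b c 1 (rot ε ξ * geo (1 / a) (1 / b) (1 / c) m T)
      ≤ T + ε * dot m ξ + C * ε ^ 2 := by
  refine ⟨(a + b + c) / (2 * T), by positivity, fun ε => ?_⟩
  set q := geo (1 / a) (1 / b) (1 / c) m with hq
  have hqn : ∀ t, ‖q t‖ = 1 := fun t => norm_geo m t
  set δ : ℝ → ℍ[ℝ] := fun t => rot (ε / T * t) ξ * q t with hδ
  have hqd := (isGeo_geo (1 / a) (1 / b) (1 / c) m).2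
  have hrd : ∀ t, HasDerivAt (fun t => rot (ε / T * t) ξ)
      ((ε / T) • (rot (ε / T * t) ξ * ξ)) t := by
    intro t
    have h1 := hasDerivAt_rot hξ (ε / T * t)
    have h2 : HasDerivAt (fun t : ℝ => ε / T * t) (ε / T) t := by
      simpa using (hasDerivAt_id t).const_mul (ε / T)
    exact HasDerivAt.scomp t h1 h2
  have hdd : ∀ t, HasDerivAt δ ((ε / T) • (rot (ε / T * t) ξ * ξ) * q t
      + rot (ε / T * t) ξ * vf (1 / a) (1 / b) (1 / c) m (q t)) t := by
    intro t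
    exact (hrd t).mul (hqd t)
  have hrotc : Continuous fun t : ℝ => rot (ε / T * t) ξ := by
    rw [continuous_iff_continuousAt]
    exact fun t => (hrd t).continuousAt
  have hqc : Continuous q := continuous_geo' _ _ _ m
  have hcd : ContDiff ℝ 1 δ := by
    rw [contDiff_one_iff_deriv]
    refine ⟨fun t => (hdd t).differentiableAt, ?_⟩
    have : deriv δ = fun t => (ε / T) • (rot (ε / T * t) ξ * ξ) * q t
      + rot (ε / T * t) ξ * vf (1 / a) (1 / b) (1 / c) m (q t) := by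
      funext t; exact (hdd t).deriv
    rw [this]
    unfold vf bm
    have hvf := hqc.mul ((continuous_dg (1 / a) (1 / b) (1 / c)).comp
      (((continuous_star.comp hqc).mul (continuous_const (y := m))).mul hqc))
    exact (((hrotc.mul continuous_const).const_smul (ε / T)).mul hqc).add (hrotc.mul hvf)
  have hδn : ∀ t, ‖δ t‖ = 1 := fun t => norm_mul' (rot_unit hξ _) (hqn t)
  have hcurve := gdist_curve (a := a) (b := b) (c := c) hT.le hcd hδn
  have hδ0 : δ 0 = 1 := by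
    simp only [hδ, mul_zero, rot_zero, one_mul]
    exact geo_zero m
  have hδT : δ T = rot ε ξ * q T := by
    simp only [hδ]
    congr 2
    field_simp
  rw [hδ0, hδT] at hcurve
  refine hcurve.trans ?_
  -- the speed
  have hsp : ∀ t, speed a b c (δ t) (deriv δ t)
      ≤ 1 + ε / T * dot m ξ + (a + b + c) / 2 * (ε / T) ^ 2 := by
    intro t
    rw [(hdd t).deriv]
    have hR := rot_unit hξ (ε / T * t)
    have hω : star (δ t) * ((ε / T) • (rot (ε / T * t) ξ * ξ) * q t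
        + rot (ε / T * t) ξ * vf (1 / a) (1 / b) (1 / c) m (q t))
        = (ε / T) • bm ξ (q t) + dg (1 / a) (1 / b) (1 / c) (bm m (q t)) := by
      simp only [hδ]
      rw [star_mul, mul_add]
      congr 1
      · unfold bm
        rw [smul_mul_assoc, mul_smul_comm]
        congr 1
        calc star (q t) * star (rot (ε / T * t) ξ) * (rot (ε / T * t) ξ * ξ * q t)
            = star (q t) * (star (rot (ε / T * t) ξ) * rot (ε / T * t) ξ) * ξ * q t := by
              simp only [mul_assoc]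
          _ = star (q t) * ξ * q t := by rw [star_mul_self' hR, mul_one]
      · unfold vf
        calc star (q t) * star (rot (ε / T * t) ξ) * (rot (ε / T * t) ξ *
              (q t * dg (1 / a) (1 / b) (1 / c) (bm m (q t))))
            = star (q t) * (star (rot (ε / T * t) ξ) * rot (ε / T * t) ξ) * q t
                * dg (1 / a) (1 / b) (1 / c) (bm m (q t)) := by
              simp only [mul_assoc]
          _ = dg (1 / a) (1 / b) (1 / c) (bm m (q t)) := by
              rw [star_mul_self' hR, mul_one, star_mul_self' (hqn t), one_mul]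
    unfold speed
    rw [hω]
    have hdot := dot_bm hm.1 hξ.1 (hqn t)
    have hH := HH_bg (a₁ := 1 / a) (a₂ := 1 / b) (a₃ := 1 / c) hm.1 t
    rw [hm.2] at hH
    have hη : ‖bm ξ (q t)‖ = 1 := by rw [norm_bm ξ (hqn t)]; exact hξ.2
    have hη2 := unit_comp hη
    rw [bm_re hξ.1] at hη2
    change HH (1 / a) (1 / b) (1 / c) (bm m (q t)) = 1 at hH
    set η := bm ξ (q t) with hηdef
    set p := bm m (q t) with hpdef
    set S := a * ((ε / T) • η + dg (1 / a) (1 / b) (1 / c) p).imI ^ 2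
      + b * ((ε / T) • η + dg (1 / a) (1 / b) (1 / c) p).imJ ^ 2
      + c * ((ε / T) • η + dg (1 / a) (1 / b) (1 / c) p).imK ^ 2 with hS
    have hSeq : S = 1 + 2 * (ε / T) * dot m ξ
        + (ε / T) ^ 2 * (a * η.imI ^ 2 + b * η.imJ ^ 2 + c * η.imK ^ 2) := by
      rw [hS, ← hdot]
      unfold HH at hH
      unfold dot dg
      simp only [Quaternion.imI_add, Quaternion.imJ_add, Quaternion.imK_add,
        Quaternion.imI_smul, Quaternion.imJ_smul, Quaternion.imK_smul, smul_eq_mul]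
      have h3 : a * (1 / a * p.imI) ^ 2 + b * (1 / b * p.imJ) ^ 2 + c * (1 / c * p.imK) ^ 2 = 1 := by
        refine Eq.trans ?_ hH
        field_simp
      have e1 : a * (1 / a) = 1 := by field_simp
      have e2 : b * (1 / b) = 1 := by field_simp
      have e3 : c * (1 / c) = 1 := by field_simp
      linear_combination h3 + 2 * (ε / T) * η.imI * p.imI * e1
        + 2 * (ε / T) * η.imJ * p.imJ * e2 + 2 * (ε / T) * η.imK * p.imK * e3
    have hS0 : 0 ≤ S := by rw [hS]; positivity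
    have hsq : Real.sqrt S ≤ (S + 1) / 2 := by
      have := Real.sq_sqrt hS0
      nlinarith [sq_nonneg (Real.sqrt S - 1)]
    refine hsq.trans ?_
    have hI : a * η.imI ^ 2 + b * η.imJ ^ 2 + c * η.imK ^ 2 ≤ a + b + c := by
      have i1 : η.imI ^ 2 ≤ 1 := by nlinarith [sq_nonneg η.imJ, sq_nonneg η.imK]
      have i2 : η.imJ ^ 2 ≤ 1 := by nlinarith [sq_nonneg η.imI, sq_nonneg η.imK]
      have i3 : η.imK ^ 2 ≤ 1 := by nlinarith [sq_nonneg η.imI, sq_nonneg η.imJ]
      nlinarith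
    have hI2 := mul_le_mul_of_nonneg_left hI (sq_nonneg (ε / T))
    rw [hSeq]
    linarith
  have hcont : Continuous fun t => speed a b c (δ t) (deriv δ t) := by
    unfold speed
    have hdc : Continuous (deriv δ) := (contDiff_one_iff_deriv.mp hcd).2
    have hm2 : Continuous fun t => star (δ t) * deriv δ t :=
      (continuous_star.comp hcd.continuous).mul hdc
    have h1 : Continuous fun t => (star (δ t) * deriv δ t).imI :=
      Quaternion.continuous_imI.comp hm2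
    have h2 : Continuous fun t => (star (δ t) * deriv δ t).imJ :=
      Quaternion.continuous_imJ.comp hm2
    have h3 : Continuous fun t => (star (δ t) * deriv δ t).imK :=
      Quaternion.continuous_imK.comp hm2
    fun_prop
  have hint : ∫ t in (0 : ℝ)..T, speed a b c (δ t) (deriv δ t)
      ≤ ∫ t in (0 : ℝ)..T, (1 + ε / T * dot m ξ + (a + b + c) / 2 * (ε / T) ^ 2) := by
    apply intervalIntegral.integral_mono_on hT.le (hcont.intervalIntegrable _ _)
      (continuous_const.intervalIntegrable _ _)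
    intro t _
    exact hsp t
  refine hint.trans ?_
  rw [intervalIntegral.integral_const, smul_eq_mul]
  have : (T - 0) * (1 + ε / T * dot m ξ + (a + b + c) / 2 * (ε / T) ^ 2)
      = T + ε * dot m ξ + (a + b + c) / (2 * T) * ε ^ 2 := by
    field_simp
    ring
  rw [this]

end

end CornerAux

open CornerAux

section corner
variable {a b c : ℝ}

theorem gdist_geo_le (ha : 0 < a) (hb : 0 < b) (hc : 0 < c) {m : ℍ[ℝ]}
    (hm : m ∈ Ell (1 / a) (1 / b) (1 / c)) {s t : ℝ} (hst : s ≤ t) :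
    gdist a b c (geo (1 / a) (1 / b) (1 / c) m s) (geo (1 / a) (1 / b) (1 / c) m t)
      ≤ t - s := by
  have h := gdist_curve (a := a) (b := b) (c := c) hst (contDiff_geo (1 / a) (1 / b) (1 / c) m)
    (fun x => norm_geo m x)
  refine h.trans ?_
  have : ∀ x, speed a b c (geo (1 / a) (1 / b) (1 / c) m x)
      (deriv (geo (1 / a) (1 / b) (1 / c) m) x) = 1 := fun x => speed_geo ha hb hc hm x
  simp only [this, intervalIntegral.integral_const, smul_eq_mul, mul_one, le_refl]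

theorem minl_dist (ha : 0 < a) (hb : 0 < b) (hc : 0 < c) {m : ℍ[ℝ]} {T : ℝ}
    (h : Minl a b c m T) {s t : ℝ} (hs : 0 ≤ s) (hst : s ≤ t) (ht : t ≤ T) :
    gdist a b c (geo (1 / a) (1 / b) (1 / c) m s) (geo (1 / a) (1 / b) (1 / c) m t)
      = t - s := by
  obtain ⟨hm, hT, hd⟩ := h
  apply le_antisymm (gdist_geo_le ha hb hc hm hst)
  have h1 := gdist_geo_le ha hb hc hm hs
  have h2 := gdist_geo_le ha hb hc hm ht
  rw [geo_zero] at h1
  have t1 := gdist_triangle (a := a) (b := b) (c := c) 1 (geo (1 / a) (1 / b) (1 / c) m s)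
    (geo (1 / a) (1 / b) (1 / c) m T) norm_one (norm_geo m s) (norm_geo m T)
  have t2 := gdist_triangle (a := a) (b := b) (c := c) (geo (1 / a) (1 / b) (1 / c) m s)
    (geo (1 / a) (1 / b) (1 / c) m t) (geo (1 / a) (1 / b) (1 / c) m T) (norm_geo m s)
    (norm_geo m t) (norm_geo m T)
  linarith

theorem minl_mono (ha : 0 < a) (hb : 0 < b) (hc : 0 < c) {m : ℍ[ℝ]} {T s : ℝ}
    (h : Minl a b c m T) (hs : 0 ≤ s) (hst : s ≤ T) : Minl a b c m s := by
  refine ⟨h.1, hs, ?_⟩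
  have := minl_dist ha hb hc h le_rfl hs hst
  rw [geo_zero] at this
  rw [this, sub_zero]

theorem minl_zero (ha : 0 < a) (hb : 0 < b) (hc : 0 < c) {m : ℍ[ℝ]}
    (hm : m ∈ Ell (1 / a) (1 / b) (1 / c)) : Minl a b c m 0 := by
  refine ⟨hm, le_rfl, ?_⟩
  rw [geo_zero]
  exact gdist_self 1 norm_one

theorem no_corner (ha : 0 < a) (hb : 0 < b) (hc : 0 < c) {m m' : ℍ[ℝ]} {s t : ℝ}
    (hs : 0 < s) (ht : 0 < t) (h : m ∈ Ell (1 / a) (1 / b) (1 / c))
    (h' : m' ∈ Ell (1 / a) (1 / b) (1 / c))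
    (hd : gdist a b c 1 (geo (1 / a) (1 / b) (1 / c) m s * geo (1 / a) (1 / b) (1 / c) m' t)
      = s + t) : m' = bg (1 / a) (1 / b) (1 / c) m s := by
  set x := geo (1 / a) (1 / b) (1 / c) m s with hx
  have hxn : ‖x‖ = 1 := norm_geo m s
  have key : ∀ η ∈ Un, dot (bm m x) η = dot m' η := by
    intro η hη
    set ξ : ℍ[ℝ] := bm η (star x) with hξ
    have hξx : bm ξ x = η := by
      rw [hξ]; unfold bm
      rw [star_star]
      calc star x * (x * η * star x) * x = (star x * x) * η * (star x * x) := by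
            simp only [mul_assoc]
        _ = η := by rw [star_mul_self' hxn, one_mul, mul_one]
    have hξU : ξ ∈ Un := ⟨bm_re hη.1 _, by rw [hξ, norm_bm η (norm_star' hxn)]; exact hη.2⟩
    obtain ⟨C, hC, h1⟩ := first_variation ha hb hc h hξU hs
    obtain ⟨C', hC', h2⟩ := first_variation ha hb hc h' hη ht
    have hdot : dot m ξ = dot (bm m x) η := by
      rw [← hξx, dot_bm h.1 hξU.1 hxn]
    have h3 : ∀ ε : ℝ, 0 ≤ ε * (dot (bm m x) η - dot m' η) + (C + C') * ε ^ 2 := by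
      intro ε
      have e1 := h1 ε
      have e2 := h2 (-ε)
      rw [hdot] at e1
      have hgm' := norm_geo (a₁ := 1 / a) (a₂ := 1 / b) (a₃ := 1 / c) m' t
      have hR := rot_unit hξU ε
      have hR2 := rot_unit hη ε
      have hR3 := rot_unit hη (-ε)
      have tri := gdist_triangle (a := a) (b := b) (c := c) 1 (rot ε ξ * x)
        (x * geo (1 / a) (1 / b) (1 / c) m' t) norm_one (norm_mul' hR hxn)
        (norm_mul' hxn hgm')
      rw [hd] at tri
      have e3 : gdist a b c (rot ε ξ * x) (x * geo (1 / a) (1 / b) (1 / c) m' t)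
          = gdist a b c 1 (rot (-ε) η * geo (1 / a) (1 / b) (1 / c) m' t) := by
        rw [rot_bm hxn, hξx, gdist_mul_left x _ _ hxn hR2 hgm',
          ← gdist_mul_left (rot (-ε) η) _ _ hR3 hR2 hgm', rot_neg_mul hη]
      rw [e3] at tri
      have : (-ε) ^ 2 = ε ^ 2 := by ring
      rw [this] at e2
      nlinarith
    by_contra hne
    set D := dot (bm m x) η - dot m' η with hD
    have hD0 : D ≠ 0 := sub_ne_zero.mpr hne
    have hpos : 0 < C + C' + 1 := by linarith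
    have h4 := h3 (-(D / (2 * (C + C' + 1))))
    have h5 : -(D / (2 * (C + C' + 1))) * D + (C + C') * (-(D / (2 * (C + C' + 1)))) ^ 2
        = -(D ^ 2 * ((C + C') + 2)) / (4 * (C + C' + 1) ^ 2) := by
      field_simp
      ring
    rw [h5] at h4
    have h6 : 0 < D ^ 2 := by positivity
    have h7 : -(D ^ 2 * ((C + C') + 2)) / (4 * (C + C' + 1) ^ 2) < 0 := by
      apply div_neg_of_neg_of_pos
      · have : 0 < D ^ 2 * ((C + C') + 2) := by positivity
        linarith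
      · positivity
    linarith
  have hi := key ⟨0, 1, 0, 0⟩ ⟨rfl, norm_of_comp (by norm_num)⟩
  have hj := key ⟨0, 0, 1, 0⟩ ⟨rfl, norm_of_comp (by norm_num)⟩
  have hk := key ⟨0, 0, 0, 1⟩ ⟨rfl, norm_of_comp (by norm_num)⟩
  simp only [dot, mul_one, mul_zero, add_zero, zero_add] at hi hj hk
  unfold bg
  apply Quaternion.ext
  · rw [h'.1, bm_re h.1]
  · exact hi.symm
  · exact hj.symm
  · exact hk.symm

theorem minl_unique (ha : 0 < a) (hb : 0 < b) (hc : 0 < c) {m m' : ℍ[ℝ]} {s T : ℝ}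
    (h : Minl a b c m T) (hs : 0 < s) (hsT : s < T)
    (h' : m' ∈ Ell (1 / a) (1 / b) (1 / c))
    (he : geo (1 / a) (1 / b) (1 / c) m' s = geo (1 / a) (1 / b) (1 / c) m s) : m' = m := by
  have hbg := bg_mem_Ell h.1 s
  have h1 := no_corner ha hb hc hs (sub_pos.mpr hsT) h' hbg (by
    rw [he, ← geo_add, add_sub_cancel, h.2.2])
  unfold bg at h1
  rw [he] at h1
  exact bm_inj (norm_geo m s) h1.symm

namespace CornerAux

theorem continuous_gdist_geo (ha : 0 < a) (hb : 0 < b) (hc : 0 < c) :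
    Continuous fun x : ℍ[ℝ] × ℝ => gdist a b c 1 (geo (1 / a) (1 / b) (1 / c) x.1 x.2) := by
  obtain ⟨C, hC, hle⟩ := gdist_le_norm ha hb hc
  have hg := continuous_geo (a₁ := 1 / a) (a₂ := 1 / b) (a₃ := 1 / c)
  have hlip : ∀ p q : ℍ[ℝ], ‖p‖ = 1 → ‖q‖ = 1 →
      |gdist a b c 1 p - gdist a b c 1 q| ≤ C * ‖p - q‖ := by
    intro p q hp hq
    have t1 := gdist_triangle (a := a) (b := b) (c := c) 1 p q norm_one hp hq
    have t2 := gdist_triangle (a := a) (b := b) (c := c) 1 q p norm_one hq hp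
    have l1 := hle p q hp hq
    have l2 := hle q p hq hp
    rw [norm_sub_rev] at l2
    rw [abs_le]
    constructor <;> linarith
  rw [Metric.continuous_iff]
  intro x ε hε
  obtain ⟨δ, hδ, h⟩ := (Metric.continuous_iff.mp hg) x (ε / C) (by positivity)
  refine ⟨δ, hδ, fun y hy => ?_⟩
  have h1 := h y hy
  rw [dist_eq_norm] at h1
  rw [Real.dist_eq]
  refine (hlip _ _ (norm_geo _ _) (norm_geo _ _)).trans_lt ?_
  calc C * ‖geo (1 / a) (1 / b) (1 / c) y.1 y.2 - geo (1 / a) (1 / b) (1 / c) x.1 x.2‖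
      < C * (ε / C) := by exact mul_lt_mul_of_pos_left h1 hC
    _ = ε := by field_simp

theorem isClosed_Ell (a₁ a₂ a₃ : ℝ) : IsClosed (Ell a₁ a₂ a₃) := by
  have h0 : Continuous fun P : ℍ[ℝ] => P.re := Quaternion.continuous_re
  have h1 : Continuous fun P : ℍ[ℝ] => P.imI := Quaternion.continuous_imI
  have h2 : Continuous fun P : ℍ[ℝ] => P.imJ := Quaternion.continuous_imJ
  have h3 : Continuous fun P : ℍ[ℝ] => P.imK := Quaternion.continuous_imK
  have hH : Continuous (HH a₁ a₂ a₃) := by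
    unfold HH; fun_prop
  exact (isClosed_eq h0 continuous_const).inter (isClosed_eq hH continuous_const)

end CornerAux

theorem minl_closed (ha : 0 < a) (hb : 0 < b) (hc : 0 < c) :
    IsClosed {x : ℍ[ℝ] × ℝ | Minl a b c x.1 x.2} := by
  have e : {x : ℍ[ℝ] × ℝ | Minl a b c x.1 x.2}
      = (Prod.fst ⁻¹' Ell (1 / a) (1 / b) (1 / c)) ∩ ({x : ℍ[ℝ] × ℝ | 0 ≤ x.2} ∩
        {x : ℍ[ℝ] × ℝ | gdist a b c 1 (geo (1 / a) (1 / b) (1 / c) x.1 x.2) = x.2}) := by
    ext x
    rfl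
  rw [e]
  exact ((isClosed_Ell _ _ _).preimage continuous_fst).inter
    ((isClosed_le continuous_const continuous_snd).inter
      (isClosed_eq (continuous_gdist_geo ha hb hc) continuous_snd))

theorem minl_rf1 (ha : 0 < a) (hb : 0 < b) (hc : 0 < c) {m : ℍ[ℝ]} {T : ℝ}
    (h : Minl a b c m T) : Minl a b c (rf1 (bg (1 / a) (1 / b) (1 / c) m T)) T := by
  have _ := ha
  have _ := hb
  have _ := hc
  refine ⟨rf1_mem_Ell.mpr (bg_mem_Ell h.1 T), h.2.1, ?_⟩
  rw [geo_rf1 h.1.1, sub_self, geo_zero, star_one, one_mul, gdist_rf1 _ (norm_geo m T)]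
  exact h.2.2

theorem minl_rf2 (ha : 0 < a) (hb : 0 < b) (hc : 0 < c) {m : ℍ[ℝ]} {T : ℝ}
    (h : Minl a b c m T) : Minl a b c (rf2 (bg (1 / a) (1 / b) (1 / c) m T)) T := by
  have _ := ha
  have _ := hb
  have _ := hc
  refine ⟨rf2_mem_Ell.mpr (bg_mem_Ell h.1 T), h.2.1, ?_⟩
  rw [geo_rf2 h.1.1, sub_self, geo_zero, star_one, one_mul, gdist_rf2 _ (norm_geo m T)]
  exact h.2.2

theorem minl_bound (ha : 0 < a) (hb : 0 < b) (hc : 0 < c) :
    ∃ D, ∀ m T, Minl a b c m T → T ≤ D := by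
  obtain ⟨C, hC, hle⟩ := gdist_le_norm ha hb hc
  refine ⟨C * 2, fun m T h => ?_⟩
  rw [← h.2.2]
  refine (hle _ _ norm_one (norm_geo m T)).trans ?_
  apply mul_le_mul_of_nonneg_left _ hC.le
  refine (norm_sub_le _ _).trans ?_
  rw [norm_one, norm_geo]
  norm_num

/-- gluing minimal geodesics -/
theorem minl_join (ha : 0 < a) (hb : 0 < b) (hc : 0 < c) {x y : ℍ[ℝ]} (hx : ‖x‖ = 1)
    (hy : ‖y‖ = 1) {s t : ℝ} (hs : 0 < s) (ht : 0 < t) (h1 : gdist a b c 1 x = s)
    (h2 : gdist a b c x y = t) (h3 : gdist a b c 1 y = s + t) :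
    ∃ m, Minl a b c m (s + t) ∧ geo (1 / a) (1 / b) (1 / c) m s = x ∧
      geo (1 / a) (1 / b) (1 / c) m (s + t) = y := by
  obtain ⟨m, hm, hmx⟩ := exists_min ha hb hc x hx
  rw [h1] at hm hmx
  have hxy : ‖star x * y‖ = 1 := norm_mul' (norm_star' hx) hy
  have h4 : gdist a b c 1 (star x * y) = t := by
    rw [← gdist_mul_left x 1 (star x * y) hx norm_one hxy, mul_one, ← mul_assoc,
      self_mul_star' hx, one_mul, h2]
  obtain ⟨m2, hm2, hm2x⟩ := exists_min ha hb hc (star x * y) hxy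
  rw [h4] at hm2 hm2x
  have hprod : geo (1 / a) (1 / b) (1 / c) m s * geo (1 / a) (1 / b) (1 / c) m2 t = y := by
    rw [hmx, hm2x, ← mul_assoc, self_mul_star' hx, one_mul]
  have h5 := no_corner ha hb hc hs ht hm.1 hm2.1 (by rw [hprod, h3])
  have h6 : geo (1 / a) (1 / b) (1 / c) m (s + t) = y := by
    rw [geo_add, ← h5, hprod]
  refine ⟨m, ⟨hm.1, by linarith, ?_⟩, hmx, h6⟩
  rw [h6, h3]

end corner

end

end Pool.Agent.CutS3
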