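import Pool.Agent.CutS3.Yrel

set_option autoImplicit false
set_option linter.unusedVariables false

/-! # Module GREL: relations between the angles; `a₁ > a₂ > a₃` real -/

namespace Pool.Agent.CutS3

open Set Quaternion

noncomputable section

namespace GrelAux

/-- the linear combination `cos Δ · u - sin Δ · v` vanishes -/
theorem rel_core {k m n : ℝ} (hk : 0 < k) (hm : 0 < m) (hn : 0 < n) {y v w D z : ℝ → ℝ}
    (hy0 : y 0 = 0) (hD0 : D 0 = 0)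
    (hy : ∀ t, HasDerivAt y (v t) t) (hv : ∀ t, HasDerivAt v (w t) t)
    (hD : ∀ t, HasDerivAt D (m - y t - z t) t)
    (hsq : ∀ t, v t ^ 2 = 4 * y t * (k - y t) * (m - y t) * (n - y t))
    (hw : ∀ t, w t + (m - y t - z t) * (2 * y t * (m - y t)) =
      2 * (k - y t) * (n - y t) * (m - 3 * y t + z t))
    (hky : ∀ t, y t ≤ k) (hny : ∀ t, y t ≤ n)
    {t : ℝ} (ht : 0 < t) (hpos : ∀ s, 0 < s → s ≤ t → 0 < y s ∧ y s < m) :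
    Real.cos (D t) * (2 * y t * (m - y t)) = Real.sin (D t) * v t := by
  set u : ℝ → ℝ := fun s => 2 * y s * (m - y s) with hu
  set K : ℝ → ℝ := fun s => 2 * (k - y s) * (n - y s) with hK
  set e : ℝ → ℝ := fun s => m - 3 * y s + z s with he
  set E : ℝ → ℝ := fun s => Real.cos (D s) * u s - Real.sin (D s) * v s with hE
  have hcy : Continuous y := continuous_iff_continuousAt.2 fun s => (hy s).continuousAt
  have hcv : Continuous v := continuous_iff_continuousAt.2 fun s => (hv s).continuousAt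
  have hcD : Continuous D := continuous_iff_continuousAt.2 fun s => (hD s).continuousAt
  have hcu : Continuous u := by fun_prop
  have hcK : Continuous K := by fun_prop
  have hcE : Continuous E := by fun_prop
  have hvsq : ∀ s, v s ^ 2 = u s * K s := by
    intro s; rw [hsq s]; simp only [hu, hK]; ring
  have hupos : ∀ s, 0 < s → s ≤ t → 0 < u s := by
    intro s h1 h2
    obtain ⟨h3, h4⟩ := hpos s h1 h2
    simp only [hu]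
    have : 0 < m - y s := by linarith
    positivity
  have hKnn : ∀ s, 0 ≤ K s := by
    intro s
    simp only [hK]
    have h1 : 0 ≤ k - y s := by linarith [hky s]
    have h2 : 0 ≤ n - y s := by linarith [hny s]
    positivity
  have hR : ∀ s, 0 < s → s ≤ t → 0 < u s * (u s + K s) := by
    intro s h1 h2
    have := hupos s h1 h2
    have := hKnn s
    positivity
  -- derivatives
  have hud : ∀ s, HasDerivAt u ((m - y s - z s) * v s + v s * e s) s := by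
    intro s
    have h1 := ((hy s).const_mul 2).mul ((hy s).const_sub m)
    refine h1.congr_deriv ?_
    simp only [he]; ring
  have hwd : ∀ s, w s = -(m - y s - z s) * u s + K s * e s := by
    intro s
    have := hw s
    simp only [hu, hK, he]; linear_combination this
  have hEd : ∀ s, HasDerivAt E (e s * (Real.cos (D s) * v s - Real.sin (D s) * K s)) s := by
    intro s
    have h1 := ((hD s).cos.mul (hud s)).sub ((hD s).sin.mul (hv s))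
    refine h1.congr_deriv ?_
    rw [hwd s]; ring
  -- the quotient
  set Q : ℝ → ℝ := fun s => E s ^ 2 / (u s ^ 2 + v s ^ 2) with hQ
  have hRv : ∀ s, u s ^ 2 + v s ^ 2 = u s * (u s + K s) := by
    intro s; rw [hvsq s]; ring
  have hRpos : ∀ s, 0 < s → s ≤ t → 0 < u s ^ 2 + v s ^ 2 := by
    intro s h1 h2; rw [hRv]; exact hR s h1 h2
  have hQd : ∀ s, 0 < s → s ≤ t → HasDerivAt Q 0 s := by
    intro s h1 h2
    have hne := (hRpos s h1 h2).ne'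
    have h3 := ((hEd s).pow 2).div (((hud s).pow 2).add ((hv s).pow 2)) hne
    refine h3.congr_deriv ?_
    rw [div_eq_zero_iff]
    left
    have hu0 := (hupos s h1 h2).ne'
    have h4 : u s * (Real.cos (D s) * v s - Real.sin (D s) * K s) = v s * E s := by
      simp only [hE]
      have := hvsq s
      linear_combination (Real.sin (D s)) * this
    have h5 : u s * ((m - y s - z s) * v s + v s * e s) + v s * w s = v s * e s * (u s + K s) := by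
      rw [hwd s]; ring
    apply mul_left_cancel₀ hu0
    have h6 := hRv s
    simp only [Pi.add_apply, Pi.pow_apply]
    push_cast
    rw [mul_zero]
    linear_combination (2 * E s * e s * (u s ^ 2 + v s ^ 2)) * h4 -
      (2 * u s * E s ^ 2) * h5 + (2 * E s ^ 2 * e s * v s) * h6
  have hQc : ∀ s, 0 < s → s < t → Q s = Q t := by
    intro s h1 h2
    have hcont : ContinuousOn Q (Icc s t) := fun x hx =>
      (hQd x (lt_of_lt_of_le h1 hx.1) hx.2).continuousAt.continuousWithinAt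
    obtain ⟨c, hc, hceq⟩ := exists_hasDerivAt_eq_slope Q (fun _ => 0) h2 hcont
      (fun x hx => hQd x (h1.trans hx.1) hx.2.le)
    have h3 : t - s ≠ 0 := sub_ne_zero.2 h2.ne'
    have h4 : Q t - Q s = 0 := by
      have := hceq.symm
      rwa [div_eq_zero_iff, or_iff_left h3] at this
    linarith
  -- the estimate near zero
  have hbound : ∀ s, 0 < s → s < t →
      Q t * (u s + K s) ≤ 2 * (u s + Real.sin (D s) ^ 2 * K s) := by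
    intro s h1 h2
    rw [← hQc s h1 h2]
    have hus := hupos s h1 h2.le
    have h3 : E s ^ 2 ≤ 2 * (u s * (u s + Real.sin (D s) ^ 2 * K s)) := by
      have hc2 : Real.cos (D s) ^ 2 ≤ 1 := Real.cos_sq_le_one _
      have h5 : (Real.cos (D s) * u s) ^ 2 ≤ u s ^ 2 := by
        rw [mul_pow]
        exact mul_le_of_le_one_left (sq_nonneg _) hc2
      have h6 : (Real.sin (D s) * v s) ^ 2 = Real.sin (D s) ^ 2 * (u s * K s) := by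
        rw [mul_pow, hvsq]
      have h7 : E s ^ 2 ≤ 2 * ((Real.cos (D s) * u s) ^ 2 + (Real.sin (D s) * v s) ^ 2) := by
        simp only [hE]
        nlinarith [sq_nonneg (Real.cos (D s) * u s + Real.sin (D s) * v s)]
      calc E s ^ 2 ≤ 2 * ((Real.cos (D s) * u s) ^ 2 + (Real.sin (D s) * v s) ^ 2) := h7
        _ ≤ 2 * (u s ^ 2 + Real.sin (D s) ^ 2 * (u s * K s)) := by rw [h6]; linarith
        _ = _ := by ring
    have h8 : Q s * (u s * (u s + K s)) = E s ^ 2 := by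
      simp only [hQ]
      rw [hRv s, div_mul_cancel₀ _ (hR s h1 h2.le).ne']
    have h9 : u s * (Q s * (u s + K s)) ≤ u s * (2 * (u s + Real.sin (D s) ^ 2 * K s)) := by
      calc u s * (Q s * (u s + K s)) = Q s * (u s * (u s + K s)) := by ring
        _ = E s ^ 2 := h8
        _ ≤ _ := h3
        _ = _ := by ring
    exact le_of_mul_le_mul_left h9 hus
  have hlim : Q t * (u 0 + K 0) ≤ 2 * (u 0 + Real.sin (D 0) ^ 2 * K 0) := by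
    have hc1 : Continuous fun s => Q t * (u s + K s) := by fun_prop
    have hc2 : Continuous fun s => 2 * (u s + Real.sin (D s) ^ 2 * K s) := by fun_prop
    have hf : Ioo (0 : ℝ) t ∈ nhdsWithin (0 : ℝ) (Ioi 0) := Ioo_mem_nhdsGT ht
    refine le_of_tendsto_of_tendsto
      ((hc1.tendsto 0).mono_left (nhdsWithin_le_nhds (s := Ioi (0 : ℝ))))
      ((hc2.tendsto 0).mono_left (nhdsWithin_le_nhds (s := Ioi (0 : ℝ)))) ?_
    filter_upwards [hf] with s hs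
    exact hbound s hs.1 hs.2
  have hu0 : u 0 = 0 := by simp only [hu, hy0]; ring
  have hK0 : K 0 = 2 * k * n := by simp only [hK, hy0]; ring
  rw [hu0, hK0, hD0, Real.sin_zero] at hlim
  have hQt : Q t ≤ 0 := by
    have h1 : Q t * (2 * k * n) ≤ 0 := by
      calc Q t * (2 * k * n) = Q t * (0 + 2 * k * n) := by ring
        _ ≤ _ := hlim
        _ = 0 := by ring
    by_contra hcon
    push Not at hcon
    have : 0 < Q t * (2 * k * n) := by positivity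
    linarith
  have hE0 : E t ^ 2 ≤ 0 := by
    have h1 := hRpos t ht le_rfl
    have h2 : E t ^ 2 = Q t * (u t ^ 2 + v t ^ 2) := by
      simp only [hQ]; rw [div_mul_cancel₀ _ h1.ne']
    rw [h2]
    exact mul_nonpos_of_nonpos_of_nonneg hQt h1.le
  have hEt : E t = 0 := by
    have := sq_nonneg (E t)
    exact pow_eq_zero_iff (two_ne_zero) |>.1 (le_antisymm hE0 this)
  have : Real.cos (D t) * u t - Real.sin (D t) * v t = 0 := hEt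
  simp only [hu] at this
  linarith

/-- the angle stays between `0` and `π` as long as the sine does not vanish -/
theorem angle_core {D d : ℝ → ℝ} (hD0 : D 0 = 0) (hD : ∀ t, HasDerivAt D (d t) t)
    (hd0 : 0 < d 0) {t : ℝ} (ht : 0 < t) (hs : ∀ s, 0 < s → s ≤ t → Real.sin (D s) ≠ 0) :
    0 < D t ∧ D t < Real.pi := by
  have hcD : Continuous D := continuous_iff_continuousAt.2 fun s => (hD s).continuousAt
  -- a small positive time with `0 < D s₀ < π`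
  have h1 : ∀ᶠ s in nhdsWithin (0 : ℝ) (Ioi 0), 0 < D s := by
    have h := (hD 0).hasDerivWithinAt (s := Ioi 0)
    rw [hasDerivWithinAt_iff_tendsto_slope] at h
    have h2 : ∀ᶠ s in nhdsWithin (0 : ℝ) (Ioi 0 \ {0}), 0 < slope D 0 s :=
      h.eventually (lt_mem_nhds hd0)
    have h3 : Ioi (0 : ℝ) \ {0} = Ioi 0 := by
      ext x; simp only [mem_sdiff, mem_Ioi, mem_singleton_iff]
      constructor
      · exact fun h => h.1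
      · exact fun h => ⟨h, h.ne'⟩
    rw [h3] at h2
    filter_upwards [h2, self_mem_nhdsWithin] with s hs1 hs2
    rw [slope_def_field, hD0] at hs1
    have hs2' : 0 < s := hs2
    have : 0 < (D s - 0) / (s - 0) * (s - 0) := mul_pos hs1 (by linarith)
    rw [div_mul_cancel₀ _ (by linarith : (s - 0 : ℝ) ≠ 0) ] at this
    linarith
  have h2 : ∀ᶠ s in nhdsWithin (0 : ℝ) (Ioi 0), D s < Real.pi := by
    have h := (hcD.tendsto 0).mono_left (nhdsWithin_le_nhds (s := Ioi (0 : ℝ)))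
    rw [hD0] at h
    exact h.eventually (gt_mem_nhds Real.pi_pos)
  have h3 : Ioo (0 : ℝ) t ∈ nhdsWithin (0 : ℝ) (Ioi 0) := Ioo_mem_nhdsGT ht
  obtain ⟨s₀, ⟨hs1, hs2⟩, hs3⟩ := ((h1.and h2).and h3).exists
  constructor
  · by_contra hcon
    push Not at hcon
    obtain ⟨c, hc, hc0⟩ := intermediate_value_Icc' hs3.2.le (f := D) hcD.continuousOn
      (show (0 : ℝ) ∈ Icc (D t) (D s₀) from ⟨hcon, hs1.le⟩)
    exact hs c (lt_of_lt_of_le hs3.1 hc.1) hc.2 (by rw [hc0, Real.sin_zero])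
  · by_contra hcon
    push Not at hcon
    obtain ⟨c, hc, hc0⟩ := intermediate_value_Icc hs3.2.le (f := D) hcD.continuousOn
      (show Real.pi ∈ Icc (D s₀) (D t) from ⟨hs2.le, hcon⟩)
    exact hs c (lt_of_lt_of_le hs3.1 hc.1) hc.2 (by rw [hc0, Real.sin_pi])

theorem sin_ne_of_rel {D u v : ℝ} (h : Real.cos D * u = Real.sin D * v) (hu : u ≠ 0) :
    Real.sin D ≠ 0 := by
  intro hs
  rw [hs, zero_mul] at h
  rcases mul_eq_zero.1 h with hc | hc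
  · have := Real.sin_sq_add_cos_sq D
    rw [hs, hc] at this
    norm_num at this
  · exact hu hc

end GrelAux

section grel
variable {a₁ a₂ a₃ r τ : ℝ}

theorem continuous_y : Continuous (fun x : ℝ × ℝ => y1 a₁ a₂ a₃ x.1 x.2) ∧
    Continuous (fun x : ℝ × ℝ => y2 a₁ a₂ a₃ x.1 x.2) ∧
    Continuous (fun x : ℝ × ℝ => y3 a₁ a₂ a₃ x.1 x.2) := by
  refine ⟨?_, ?_, ?_⟩
  · exact continuous_yf.comp
      (show Continuous fun x : ℝ × ℝ => (a₁ - x.1, a₁ - a₂, a₁ - a₃, x.2) by fun_prop)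
  · exact continuous_yf.comp
      (show Continuous fun x : ℝ × ℝ => (a₂ - x.1, a₂ - a₃, a₂ - a₁, x.2) by fun_prop)
  · exact continuous_yf.comp
      (show Continuous fun x : ℝ × ℝ => (a₃ - x.1, a₃ - a₁, a₃ - a₂, x.2) by fun_prop)

theorem continuous_G : Continuous (fun x : ℝ × ℝ => G1 a₁ a₂ a₃ x.1 x.2) ∧
    Continuous (fun x : ℝ × ℝ => G2 a₁ a₂ a₃ x.1 x.2) ∧
    Continuous (fun x : ℝ × ℝ => G3 a₁ a₂ a₃ x.1 x.2) := by
  obtain ⟨h1, h2, h3⟩ := continuous_y (a₁ := a₁) (a₂ := a₂) (a₃ := a₃)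
  refine ⟨?_, ?_, ?_⟩
  · refine intervalIntegral.continuous_parametric_intervalIntegral_of_continuous
      (f := fun (x : ℝ × ℝ) s => a₁ - y1 a₁ a₂ a₃ x.1 s) (s := fun x : ℝ × ℝ => x.2) ?_ continuous_snd
    exact continuous_const.sub (h1.comp
      (show Continuous fun q : (ℝ × ℝ) × ℝ => (q.1.1, q.2) by fun_prop))
  · refine intervalIntegral.continuous_parametric_intervalIntegral_of_continuous
      (f := fun (x : ℝ × ℝ) s => a₂ - y2 a₁ a₂ a₃ x.1 s) (s := fun x : ℝ × ℝ => x.2) ?_ continuous_snd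
    exact continuous_const.sub (h2.comp
      (show Continuous fun q : (ℝ × ℝ) × ℝ => (q.1.1, q.2) by fun_prop))
  · refine intervalIntegral.continuous_parametric_intervalIntegral_of_continuous
      (f := fun (x : ℝ × ℝ) s => a₃ - y3 a₁ a₂ a₃ x.1 s) (s := fun x : ℝ × ℝ => x.2) ?_ continuous_snd
    exact continuous_const.sub (h3.comp
      (show Continuous fun q : (ℝ × ℝ) × ℝ => (q.1.1, q.2) by fun_prop))

theorem hasDerivAt_G1 (r τ : ℝ) :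
    HasDerivAt (G1 a₁ a₂ a₃ r) (a₁ - y1 a₁ a₂ a₃ r τ) τ := by
  have hc : Continuous fun s => a₁ - y1 a₁ a₂ a₃ r s :=
    continuous_const.sub ((continuous_y (a₁ := a₁) (a₂ := a₂) (a₃ := a₃)).1.comp
      (show Continuous fun s : ℝ => (r, s) by fun_prop))
  exact (hc.integral_hasStrictDerivAt 0 τ).hasDerivAt

theorem hasDerivAt_G2 (r τ : ℝ) :
    HasDerivAt (G2 a₁ a₂ a₃ r) (a₂ - y2 a₁ a₂ a₃ r τ) τ := by
  have hc : Continuous fun s => a₂ - y2 a₁ a₂ a₃ r s :=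
    continuous_const.sub ((continuous_y (a₁ := a₁) (a₂ := a₂) (a₃ := a₃)).2.1.comp
      (show Continuous fun s : ℝ => (r, s) by fun_prop))
  exact (hc.integral_hasStrictDerivAt 0 τ).hasDerivAt

theorem hasDerivAt_G3 (r τ : ℝ) :
    HasDerivAt (G3 a₁ a₂ a₃ r) (a₃ - y3 a₁ a₂ a₃ r τ) τ := by
  have hc : Continuous fun s => a₃ - y3 a₁ a₂ a₃ r s :=
    continuous_const.sub ((continuous_y (a₁ := a₁) (a₂ := a₂) (a₃ := a₃)).2.2.comp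
      (show Continuous fun s : ℝ => (r, s) by fun_prop))
  exact (hc.integral_hasStrictDerivAt 0 τ).hasDerivAt

namespace GrelAux

theorem G1_zero (r : ℝ) : G1 a₁ a₂ a₃ r 0 = 0 := by simp [G1]
theorem G2_zero (r : ℝ) : G2 a₁ a₂ a₃ r 0 = 0 := by simp [G2]
theorem G3_zero (r : ℝ) : G3 a₁ a₂ a₃ r 0 = 0 := by simp [G3]

/-- reflection of a primitive -/
theorem refl_core {G g : ℝ → ℝ} {T : ℝ} (hG : ∀ t, HasDerivAt G (g t) t)
    (hg : ∀ t, g (2 * T - t) = g t) (t : ℝ) : G (2 * T - t) = 2 * G T - G t := by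
  have hd : ∀ s, HasDerivAt (fun s => G (2 * T - s) + G s) 0 s := by
    intro s
    have h1 : HasDerivAt (fun s => 2 * T - s) (-1) s := by
      simpa using (hasDerivAt_id s).const_sub (2 * T)
    have h2 := ((hG (2 * T - s)).comp s h1).add (hG s)
    refine h2.congr_deriv ?_
    rw [hg s]; ring
  have hc := is_const_of_deriv_eq_zero (f := fun s => G (2 * T - s) + G s)
    (fun s => (hd s).differentiableAt) (fun s => (hd s).deriv) t T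
  have h3 : 2 * T - T = T := by ring
  simp only [h3] at hc
  linarith

end GrelAux

open GrelAux

theorem G_refl (h12 : a₂ < a₁) (h23 : a₃ < a₂) (hr : r ∈ Ico a₃ a₁) (h2 : r ≠ a₂) (τ : ℝ) :
    G1 a₁ a₂ a₃ r (2 * Ts a₁ a₂ a₃ r - τ)
      = 2 * G1 a₁ a₂ a₃ r (Ts a₁ a₂ a₃ r) - G1 a₁ a₂ a₃ r τ ∧
    G2 a₁ a₂ a₃ r (2 * Ts a₁ a₂ a₃ r - τ)
      = 2 * G2 a₁ a₂ a₃ r (Ts a₁ a₂ a₃ r) - G2 a₁ a₂ a₃ r τ ∧
    G3 a₁ a₂ a₃ r (2 * Ts a₁ a₂ a₃ r - τ)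
      = 2 * G3 a₁ a₂ a₃ r (Ts a₁ a₂ a₃ r) - G3 a₁ a₂ a₃ r τ := by
  refine ⟨refl_core (hasDerivAt_G1 r) (fun t => ?_) τ, refl_core (hasDerivAt_G2 r) (fun t => ?_) τ,
    refl_core (hasDerivAt_G3 r) (fun t => ?_) τ⟩
  · rw [(y_refl h12 h23 hr h2 t).1]
  · rw [(y_refl h12 h23 hr h2 t).2.1]
  · rw [(y_refl h12 h23 hr h2 t).2.2.1]

namespace GrelAux

theorem per_sub {s : ℝ} (h : Per a₁ a₂ a₃ r τ) (h0 : 0 < s) (hs : s ≤ τ) :
    Per a₁ a₂ a₃ r s := ⟨h0, fun h2 => lt_of_le_of_lt hs (h.2 h2)⟩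

theorem v1_sq (a₁ a₂ a₃ r t : ℝ) : v1 a₁ a₂ a₃ r t ^ 2 =
    4 * y1 a₁ a₂ a₃ r t * (a₁ - r - y1 a₁ a₂ a₃ r t) * (a₁ - a₂ - y1 a₁ a₂ a₃ r t) *
      (a₁ - a₃ - y1 a₁ a₂ a₃ r t) := by
  have := yd_sq (a₁ - r) (a₁ - a₂) (a₁ - a₃) t
  simpa [v1, y1, PP] using this

theorem ico_icc (hr : r ∈ Ico a₃ a₁) : r ∈ Icc a₃ a₁ := ⟨hr.1, hr.2.le⟩

/-- the relation for `G₁ - G₃` -/
theorem rel13' (h12 : a₂ < a₁) (h23 : a₃ < a₂) (hr : r ∈ Ico a₃ a₁) (h : Per a₁ a₂ a₃ r τ) :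
    Real.cos (G1 a₁ a₂ a₃ r τ - G3 a₁ a₂ a₃ r τ) *
        (2 * y1 a₁ a₂ a₃ r τ * (a₁ - a₃ - y1 a₁ a₂ a₃ r τ))
      = Real.sin (G1 a₁ a₂ a₃ r τ - G3 a₁ a₂ a₃ r τ) * v1 a₁ a₂ a₃ r τ := by
  have hY := isY1 a₁ a₂ a₃ r
  have hr1 := hr.2
  refine rel_core (k := a₁ - r) (m := a₁ - a₃) (n := a₁ - a₂) (y := y1 a₁ a₂ a₃ r)
    (v := v1 a₁ a₂ a₃ r) (w := fun t => PD (a₁ - r) (a₁ - a₂) (a₁ - a₃) (y1 a₁ a₂ a₃ r t))
    (D := fun t => G1 a₁ a₂ a₃ r t - G3 a₁ a₂ a₃ r t) (z := fun t => -y3 a₁ a₂ a₃ r t)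
    (by linarith) (by linarith) (by linarith) hY.y0 (by rw [G1_zero, G3_zero, sub_zero])
    hY.hy hY.hv ?_ ?_ ?_ ?_ ?_ h.1 ?_
  · intro t
    refine ((hasDerivAt_G1 r t).sub (hasDerivAt_G3 r t)).congr_deriv ?_
    ring
  · intro t
    rw [v1_sq]; ring
  · intro t
    have hm := (moebius3 h12 h23 hr t).1
    simp only [PD]
    linear_combination (-2) * hm
  · intro t
    exact (y1_range h12 h23 (ico_icc hr) t).2.1
  · intro t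
    exact (y1_range h12 h23 (ico_icc hr) t).2.2
  · intro s h1 h2
    refine ⟨y1_pos h12 h23 hr (per_sub h h1 h2), ?_⟩
    have := (y1_range h12 h23 (ico_icc hr) s).2.2
    linarith

/-- the relation for `G₁ - G₂` as long as `y₁ < a₁ - a₂` -/
theorem rel12' (h12 : a₂ < a₁) (h23 : a₃ < a₂) (hr : r ∈ Ico a₃ a₁) (h : Per a₁ a₂ a₃ r τ)
    (h' : a₂ ≤ r ∨ τ < Ts a₁ a₂ a₃ r) :
    Real.cos (G1 a₁ a₂ a₃ r τ - G2 a₁ a₂ a₃ r τ) *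
        (2 * y1 a₁ a₂ a₃ r τ * (a₁ - a₂ - y1 a₁ a₂ a₃ r τ))
      = Real.sin (G1 a₁ a₂ a₃ r τ - G2 a₁ a₂ a₃ r τ) * v1 a₁ a₂ a₃ r τ := by
  have hY := isY1 a₁ a₂ a₃ r
  have hr1 := hr.2
  refine rel_core (k := a₁ - r) (m := a₁ - a₂) (n := a₁ - a₃) (y := y1 a₁ a₂ a₃ r)
    (v := v1 a₁ a₂ a₃ r) (w := fun t => PD (a₁ - r) (a₁ - a₂) (a₁ - a₃) (y1 a₁ a₂ a₃ r t))
    (D := fun t => G1 a₁ a₂ a₃ r t - G2 a₁ a₂ a₃ r t) (z := fun t => -y2 a₁ a₂ a₃ r t)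
    (by linarith) (by linarith) (by linarith) hY.y0 (by rw [G1_zero, G2_zero, sub_zero])
    hY.hy hY.hv ?_ ?_ ?_ ?_ ?_ h.1 ?_
  · intro t
    refine ((hasDerivAt_G1 r t).sub (hasDerivAt_G2 r t)).congr_deriv ?_
    ring
  · intro t
    rw [v1_sq]
  · intro t
    have hm := (moebius2 h12 h23 hr t).1
    simp only [PD]
    linear_combination 2 * hm
  · intro t
    exact (y1_range h12 h23 (ico_icc hr) t).2.1
  · intro t
    have := (y1_range h12 h23 (ico_icc hr) t).2.2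
    linarith
  · intro s h1 h2
    refine ⟨y1_pos h12 h23 hr (per_sub h h1 h2), ?_⟩
    refine y1_lt_m2 h12 h23 hr (per_sub h h1 h2) ?_
    rcases h' with h' | h'
    · exact Or.inl h'
    · exact Or.inr (lt_of_le_of_lt h2 h').ne

theorem angle12 (h12 : a₂ < a₁) (h23 : a₃ < a₂) (hr : r ∈ Ico a₃ a₁) (h : Per a₁ a₂ a₃ r τ)
    (h' : a₂ ≤ r ∨ τ < Ts a₁ a₂ a₃ r) :
    0 < G1 a₁ a₂ a₃ r τ - G2 a₁ a₂ a₃ r τ ∧
      G1 a₁ a₂ a₃ r τ - G2 a₁ a₂ a₃ r τ < Real.pi := by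
  refine angle_core (D := fun t => G1 a₁ a₂ a₃ r t - G2 a₁ a₂ a₃ r t)
    (d := fun t => (a₁ - y1 a₁ a₂ a₃ r t) - (a₂ - y2 a₁ a₂ a₃ r t))
    (by rw [G1_zero, G2_zero, sub_zero])
    (fun t => (hasDerivAt_G1 r t).sub (hasDerivAt_G2 r t)) ?_ h.1 ?_
  · have e1 : y1 a₁ a₂ a₃ r 0 = 0 := (isY1 a₁ a₂ a₃ r).y0
    have e2 : y2 a₁ a₂ a₃ r 0 = 0 := (isY2 a₁ a₂ a₃ r).y0
    simp only [e1, e2]; linarith
  · intro s h1 h2
    have h3 : a₂ ≤ r ∨ s < Ts a₁ a₂ a₃ r := h'.imp id fun h => lt_of_le_of_lt h2 h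
    have hp := per_sub h h1 h2
    refine sin_ne_of_rel (rel12' h12 h23 hr hp h3) ?_
    have e1 := y1_pos h12 h23 hr hp
    have e2 := y1_lt_m2 h12 h23 hr hp (h3.imp id fun h => h.ne)
    have : 0 < a₁ - a₂ - y1 a₁ a₂ a₃ r s := by linarith
    positivity

theorem v1_Ts (h12 : a₂ < a₁) (h23 : a₃ < a₂) (hr : r ∈ Ico a₃ a₁) (h2 : r ≠ a₂) :
    v1 a₁ a₂ a₃ r (Ts a₁ a₂ a₃ r) = 0 := by
  have h := (y_refl h12 h23 hr h2 (Ts a₁ a₂ a₃ r)).2.2.2.1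
  have h3 : 2 * Ts a₁ a₂ a₃ r - Ts a₁ a₂ a₃ r = Ts a₁ a₂ a₃ r := by ring
  rw [h3] at h
  linarith

theorem v3_Ts (h12 : a₂ < a₁) (h23 : a₃ < a₂) (hr : r ∈ Ico a₃ a₁) (h2 : r ≠ a₂) :
    v3 a₁ a₂ a₃ r (Ts a₁ a₂ a₃ r) = 0 := by
  have h := (y_refl h12 h23 hr h2 (Ts a₁ a₂ a₃ r)).2.2.2.2.2
  have h3 : 2 * Ts a₁ a₂ a₃ r - Ts a₁ a₂ a₃ r = Ts a₁ a₂ a₃ r := by ring
  rw [h3] at h
  linarith

theorem per_Ts (h12 : a₂ < a₁) (h23 : a₃ < a₂) (hr : r ∈ Ico a₃ a₁) (h2 : r ≠ a₂) :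
    Per a₁ a₂ a₃ r (Ts a₁ a₂ a₃ r) := by
  have h := Ts_pos h12 h23 hr h2
  exact ⟨h, fun _ => by linarith⟩

/-- differentiated Moebius relation -/
theorem v3_formula (h12 : a₂ < a₁) (h23 : a₃ < a₂) (hr : r ∈ Ico a₃ a₁) (τ : ℝ) :
    -v3 a₁ a₂ a₃ r τ *
        ((a₁ - a₂) * (a₁ - r) - y1 a₁ a₂ a₃ r τ * ((a₁ - r) - (a₂ - a₃))) ^ 2 =
      v1 a₁ a₂ a₃ r τ * ((a₂ - a₃) * (r - a₃) * ((a₁ - a₂) * (a₁ - r))) := by
  have hY1 := isY1 a₁ a₂ a₃ r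
  have hY3 := isY3 a₁ a₂ a₃ r
  have hd : HasDerivAt (fun t => -y3 a₁ a₂ a₃ r t *
      ((a₁ - a₂) * (a₁ - r) - y1 a₁ a₂ a₃ r t * ((a₁ - r) - (a₂ - a₃))) -
      (a₂ - a₃) * (r - a₃) * y1 a₁ a₂ a₃ r t)
      (-v3 a₁ a₂ a₃ r τ *
      ((a₁ - a₂) * (a₁ - r) - y1 a₁ a₂ a₃ r τ * ((a₁ - r) - (a₂ - a₃))) +
      -y3 a₁ a₂ a₃ r τ * (-(v1 a₁ a₂ a₃ r τ * ((a₁ - r) - (a₂ - a₃)))) -
      (a₂ - a₃) * (r - a₃) * v1 a₁ a₂ a₃ r τ) τ :=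
    (((hY3.hy τ).neg).mul (((hY1.hy τ).mul_const _).const_sub _)).sub ((hY1.hy τ).const_mul _)
  have h0 : (fun t => -y3 a₁ a₂ a₃ r t *
      ((a₁ - a₂) * (a₁ - r) - y1 a₁ a₂ a₃ r t * ((a₁ - r) - (a₂ - a₃))) -
      (a₂ - a₃) * (r - a₃) * y1 a₁ a₂ a₃ r t) = fun _ => 0 := by
    funext t
    rw [(moebius3 h12 h23 hr t).1]; ring
  rw [h0] at hd
  have h1 := hd.unique (hasDerivAt_const τ (0 : ℝ))
  have h2 := (moebius3 h12 h23 hr τ).1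
  linear_combination ((a₁ - a₂) * (a₁ - r) - y1 a₁ a₂ a₃ r τ * ((a₁ - r) - (a₂ - a₃))) * h1 +
    (v1 a₁ a₂ a₃ r τ * ((a₁ - r) - (a₂ - a₃))) * h2

end GrelAux

/-- `G₁ - G₃` -/
theorem rel13 (h12 : a₂ < a₁) (h23 : a₃ < a₂) (hr : r ∈ Ico a₃ a₁) (h : Per a₁ a₂ a₃ r τ) :
    0 < G1 a₁ a₂ a₃ r τ - G3 a₁ a₂ a₃ r τ ∧ G1 a₁ a₂ a₃ r τ - G3 a₁ a₂ a₃ r τ < Real.pi ∧
    Real.cos (G1 a₁ a₂ a₃ r τ - G3 a₁ a₂ a₃ r τ) *
        (2 * y1 a₁ a₂ a₃ r τ * (a₁ - a₃ - y1 a₁ a₂ a₃ r τ))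
      = Real.sin (G1 a₁ a₂ a₃ r τ - G3 a₁ a₂ a₃ r τ) * v1 a₁ a₂ a₃ r τ := by
  have h0 : 0 < G1 a₁ a₂ a₃ r τ - G3 a₁ a₂ a₃ r τ ∧
      G1 a₁ a₂ a₃ r τ - G3 a₁ a₂ a₃ r τ < Real.pi := by
    refine angle_core (D := fun t => G1 a₁ a₂ a₃ r t - G3 a₁ a₂ a₃ r t)
      (d := fun t => (a₁ - y1 a₁ a₂ a₃ r t) - (a₃ - y3 a₁ a₂ a₃ r t))
      (by rw [G1_zero, G3_zero, sub_zero])
      (fun t => (hasDerivAt_G1 r t).sub (hasDerivAt_G3 r t)) ?_ h.1 ?_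
    · have e1 : y1 a₁ a₂ a₃ r 0 = 0 := (isY1 a₁ a₂ a₃ r).y0
      have e2 : y3 a₁ a₂ a₃ r 0 = 0 := (isY3 a₁ a₂ a₃ r).y0
      simp only [e1, e2]; linarith
    · intro s h1 h2
      have hp := per_sub h h1 h2
      refine sin_ne_of_rel (rel13' h12 h23 hr hp) ?_
      have e1 := y1_pos h12 h23 hr hp
      have e2 := (y1_range h12 h23 (ico_icc hr) s).2.2
      have : 0 < a₁ - a₃ - y1 a₁ a₂ a₃ r s := by linarith
      positivity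
  exact ⟨h0.1, h0.2, rel13' h12 h23 hr h⟩

namespace GrelAux

theorem sq_sin_formula (h12 : a₂ < a₁) (h23 : a₃ < a₂) (hr : r ∈ Ico a₃ a₁)
    (h : Per a₁ a₂ a₃ r τ) (h' : τ < Ts a₁ a₂ a₃ r) :
    Real.sin (G1 a₁ a₂ a₃ r τ - G2 a₁ a₂ a₃ r τ) ^ 2 *
      ((a₁ - a₃) * (a₁ - r) - y1 a₁ a₂ a₃ r τ * ((a₁ - r) + (a₂ - a₃))) =
      y1 a₁ a₂ a₃ r τ * (a₁ - a₂ - y1 a₁ a₂ a₃ r τ) := by
  have h1 := rel12' h12 h23 hr h (Or.inr h')
  have h2 := v1_sq a₁ a₂ a₃ r τ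
  have e1 := y1_pos h12 h23 hr h
  have e2 := y1_lt_m2 h12 h23 hr h (Or.inr h'.ne)
  have e3 : 0 < a₁ - a₂ - y1 a₁ a₂ a₃ r τ := by linarith
  have h3 := Real.sin_sq_add_cos_sq (G1 a₁ a₂ a₃ r τ - G2 a₁ a₂ a₃ r τ)
  set s := Real.sin (G1 a₁ a₂ a₃ r τ - G2 a₁ a₂ a₃ r τ)
  set c := Real.cos (G1 a₁ a₂ a₃ r τ - G2 a₁ a₂ a₃ r τ)
  set y := y1 a₁ a₂ a₃ r τ
  set v := v1 a₁ a₂ a₃ r τ
  have h4 : (c * (2 * y * (a₁ - a₂ - y))) ^ 2 = (s * v) ^ 2 := by rw [h1]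
  have h5 : (4 * y * (a₁ - a₂ - y)) ≠ 0 := by positivity
  apply mul_left_cancel₀ h5
  linear_combination (-1) * h4 + s ^ 2 * h2 * (-1) + (4 * y ^ 2 * (a₁ - a₂ - y) ^ 2) * h3

theorem angle12_half (h12 : a₂ < a₁) (h23 : a₃ < a₂) (hr : r ∈ Ico a₃ a₂)
    (h0 : 0 < τ) (h' : τ < Ts a₁ a₂ a₃ r) :
    0 < G1 a₁ a₂ a₃ r τ - G2 a₁ a₂ a₃ r τ ∧
      G1 a₁ a₂ a₃ r τ - G2 a₁ a₂ a₃ r τ < Real.pi / 2 ∧
      0 < Real.cos (G1 a₁ a₂ a₃ r τ - G2 a₁ a₂ a₃ r τ) := by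
  have hr' : r ∈ Ico a₃ a₁ := ⟨hr.1, hr.2.trans h12⟩
  have hp : Per a₁ a₂ a₃ r τ := ⟨h0, fun _ => by linarith⟩
  obtain ⟨h1, h2⟩ := angle12 h12 h23 hr' hp (Or.inr h')
  have h3 := rel12' h12 h23 hr' hp (Or.inr h')
  have e1 := y1_pos h12 h23 hr' hp
  have e2 := y1_lt_m2 h12 h23 hr' hp (Or.inr h'.ne)
  have e3 : 0 < a₁ - a₂ - y1 a₁ a₂ a₃ r τ := by linarith
  have e4 := v1_pos h12 h23 hr' h0 (fun _ => h')
  have h4 : 0 < Real.sin (G1 a₁ a₂ a₃ r τ - G2 a₁ a₂ a₃ r τ) := Real.sin_pos_of_pos_of_lt_pi h1 h2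
  have h5 : 0 < Real.cos (G1 a₁ a₂ a₃ r τ - G2 a₁ a₂ a₃ r τ) := by
    have h6 : 0 < Real.cos (G1 a₁ a₂ a₃ r τ - G2 a₁ a₂ a₃ r τ) *
        (2 * y1 a₁ a₂ a₃ r τ * (a₁ - a₂ - y1 a₁ a₂ a₃ r τ)) := by
      rw [h3]; positivity
    have h7 : 0 < 2 * y1 a₁ a₂ a₃ r τ * (a₁ - a₂ - y1 a₁ a₂ a₃ r τ) := by positivity
    exact (mul_pos_iff_of_pos_right h7).1 h6
  refine ⟨h1, ?_, h5⟩
  by_contra hcon
  push Not at hcon
  have := Real.cos_nonpos_of_pi_div_two_le_of_le hcon (by linarith [Real.pi_pos])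
  linarith

end GrelAux

theorem star12T (h12 : a₂ < a₁) (h23 : a₃ < a₂) (hr : r ∈ Ico a₃ a₂) :
    G2 a₁ a₂ a₃ r (Ts a₁ a₂ a₃ r) = G1 a₁ a₂ a₃ r (Ts a₁ a₂ a₃ r) := by
  have hr' : r ∈ Ico a₃ a₁ := ⟨hr.1, hr.2.trans h12⟩
  have hr2 : r ≠ a₂ := hr.2.ne
  have hT := Ts_pos h12 h23 hr' hr2
  have hcG1 : Continuous fun s => G1 a₁ a₂ a₃ r s :=
    continuous_iff_continuousAt.2 fun s => (hasDerivAt_G1 r s).continuousAt
  have hcG2 : Continuous fun s => G2 a₁ a₂ a₃ r s :=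
    continuous_iff_continuousAt.2 fun s => (hasDerivAt_G2 r s).continuousAt
  have hcy : Continuous fun s => y1 a₁ a₂ a₃ r s :=
    continuous_iff_continuousAt.2 fun s => ((isY1 a₁ a₂ a₃ r).hy s).continuousAt
  have hf : Ioo (0 : ℝ) (Ts a₁ a₂ a₃ r) ∈ nhdsWithin (Ts a₁ a₂ a₃ r) (Iio (Ts a₁ a₂ a₃ r)) :=
    Ioo_mem_nhdsLT hT
  set T := Ts a₁ a₂ a₃ r with hTdef
  -- the sine vanishes at the half period
  have hsin : Real.sin (G1 a₁ a₂ a₃ r T - G2 a₁ a₂ a₃ r T) ^ 2 *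
      ((a₁ - a₃) * (a₁ - r) - y1 a₁ a₂ a₃ r T * ((a₁ - r) + (a₂ - a₃))) =
      y1 a₁ a₂ a₃ r T * (a₁ - a₂ - y1 a₁ a₂ a₃ r T) := by
    have hc1 : Continuous fun s => Real.sin (G1 a₁ a₂ a₃ r s - G2 a₁ a₂ a₃ r s) ^ 2 *
      ((a₁ - a₃) * (a₁ - r) - y1 a₁ a₂ a₃ r s * ((a₁ - r) + (a₂ - a₃))) := by fun_prop
    have hc2 : Continuous fun s => y1 a₁ a₂ a₃ r s * (a₁ - a₂ - y1 a₁ a₂ a₃ r s) := by fun_prop
    refine tendsto_nhds_unique_of_eventuallyEq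
      ((hc1.tendsto T).mono_left (nhdsWithin_le_nhds (s := Iio T)))
      ((hc2.tendsto T).mono_left nhdsWithin_le_nhds) ?_
    filter_upwards [hf] with s hs
    exact sq_sin_formula h12 h23 hr' ⟨hs.1, fun _ => by linarith [hs.2]⟩ hs.2
  have hyT := (TsT h12 h23 hr).1
  rw [← hTdef] at hyT
  rw [hyT, sub_self, mul_zero] at hsin
  have hD : (a₁ - a₃) * (a₁ - r) - (a₁ - a₂) * ((a₁ - r) + (a₂ - a₃)) ≠ 0 := by
    have : (a₁ - a₃) * (a₁ - r) - (a₁ - a₂) * ((a₁ - r) + (a₂ - a₃)) = (a₂ - a₃) * (a₂ - r) := by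
      ring
    rw [this]
    have e1 : 0 < a₂ - a₃ := by linarith
    have e2 : 0 < a₂ - r := by linarith [hr.2]
    positivity
  have hsin0 : Real.sin (G1 a₁ a₂ a₃ r T - G2 a₁ a₂ a₃ r T) = 0 := by
    rcases mul_eq_zero.1 hsin with h | h
    · exact pow_eq_zero_iff (two_ne_zero) |>.1 h
    · exact absurd h hD
  -- the angle at the half period is in `[0, π/2]`
  have hlo : 0 ≤ G1 a₁ a₂ a₃ r T - G2 a₁ a₂ a₃ r T := by
    refine ge_of_tendsto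
      (((hcG1.sub hcG2).tendsto T).mono_left (nhdsWithin_le_nhds (s := Iio T))) ?_
    filter_upwards [hf] with s hs
    exact (angle12_half h12 h23 hr hs.1 hs.2).1.le
  have hhi : G1 a₁ a₂ a₃ r T - G2 a₁ a₂ a₃ r T ≤ Real.pi / 2 := by
    refine le_of_tendsto
      (((hcG1.sub hcG2).tendsto T).mono_left (nhdsWithin_le_nhds (s := Iio T))) ?_
    filter_upwards [hf] with s hs
    exact (angle12_half h12 h23 hr hs.1 hs.2).2.1.le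
  rcases hlo.eq_or_lt with h | h
  · linarith
  · have := Real.sin_pos_of_pos_of_lt_pi h (by linarith [Real.pi_pos])
    linarith

theorem rel12I (h12 : a₂ < a₁) (h23 : a₃ < a₂) (hr : r ∈ Ico a₂ a₁) (h : Per a₁ a₂ a₃ r τ) :
    0 < G1 a₁ a₂ a₃ r τ - G2 a₁ a₂ a₃ r τ ∧
    G1 a₁ a₂ a₃ r τ - G2 a₁ a₂ a₃ r τ < Real.pi :=
  angle12 h12 h23 ⟨h23.le.trans hr.1, hr.2⟩ h (Or.inl hr.1)

namespace GrelAux

/-- reflection of the difference `G₁ - G₂` in type III -/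
theorem refl12 (h12 : a₂ < a₁) (h23 : a₃ < a₂) (hr : r ∈ Ico a₃ a₂) (τ : ℝ) :
    G1 a₁ a₂ a₃ r τ - G2 a₁ a₂ a₃ r τ =
      -(G1 a₁ a₂ a₃ r (2 * Ts a₁ a₂ a₃ r - τ) - G2 a₁ a₂ a₃ r (2 * Ts a₁ a₂ a₃ r - τ)) := by
  have hr' : r ∈ Ico a₃ a₁ := ⟨hr.1, hr.2.trans h12⟩
  obtain ⟨e1, e2, -⟩ := G_refl h12 h23 hr' hr.2.ne τ
  rw [e1, e2, star12T h12 h23 hr]
  ring

end GrelAux

theorem rel12T (h12 : a₂ < a₁) (h23 : a₃ < a₂) (hr : r ∈ Ico a₃ a₂) (h : Per a₁ a₂ a₃ r τ) :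
    (τ < Ts a₁ a₂ a₃ r → 0 < G1 a₁ a₂ a₃ r τ - G2 a₁ a₂ a₃ r τ ∧
      G1 a₁ a₂ a₃ r τ - G2 a₁ a₂ a₃ r τ < Real.pi / 2) ∧
    (Ts a₁ a₂ a₃ r < τ → G1 a₁ a₂ a₃ r τ - G2 a₁ a₂ a₃ r τ < 0 ∧
      -(Real.pi / 2) < G1 a₁ a₂ a₃ r τ - G2 a₁ a₂ a₃ r τ) := by
  constructor
  · intro h1
    exact ⟨(angle12_half h12 h23 hr h.1 h1).1, (angle12_half h12 h23 hr h.1 h1).2.1⟩
  · intro h1
    have h2 := h.2 hr.2.ne
    obtain ⟨h3, h4, -⟩ := angle12_half (τ := 2 * Ts a₁ a₂ a₃ r - τ) h12 h23 hr (by linarith)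
      (by linarith)
    rw [refl12 h12 h23 hr τ]
    exact ⟨by linarith, by linarith⟩

/-- `G₁ - G₂` -/
theorem rel12 (h12 : a₂ < a₁) (h23 : a₃ < a₂) (hr : r ∈ Ico a₃ a₁) (h : Per a₁ a₂ a₃ r τ) :
    Real.cos (G1 a₁ a₂ a₃ r τ - G2 a₁ a₂ a₃ r τ) *
        (2 * y1 a₁ a₂ a₃ r τ * (a₁ - a₂ - y1 a₁ a₂ a₃ r τ))
      = Real.sin (G1 a₁ a₂ a₃ r τ - G2 a₁ a₂ a₃ r τ) * v1 a₁ a₂ a₃ r τ := by
  rcases le_or_gt a₂ r with h2 | h2
  · exact rel12' h12 h23 hr h (Or.inl h2)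
  rcases lt_trichotomy τ (Ts a₁ a₂ a₃ r) with h3 | h3 | h3
  · exact rel12' h12 h23 hr h (Or.inr h3)
  · rw [h3, (TsT h12 h23 ⟨hr.1, h2⟩).1, v1_Ts h12 h23 hr h2.ne]
    ring
  · have h4 := h.2 h2.ne
    have hp : Per a₁ a₂ a₃ r (2 * Ts a₁ a₂ a₃ r - τ) := ⟨by linarith, fun _ => by linarith⟩
    have h5 := rel12' h12 h23 hr hp (Or.inr (by linarith))
    obtain ⟨e1, -, -, e2, -, -⟩ := y_refl h12 h23 hr h2.ne τ
    rw [e1, e2] at h5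
    rw [refl12 h12 h23 ⟨hr.1, h2⟩ τ, Real.cos_neg, Real.sin_neg]
    linear_combination h5

/-- `G₂ - G₃`, type III -/
theorem star13 (h12 : a₂ < a₁) (h23 : a₃ < a₂) (hr : r ∈ Ico a₃ a₁) (h2 : r ≠ a₂) :
    G1 a₁ a₂ a₃ r (Ts a₁ a₂ a₃ r) = G3 a₁ a₂ a₃ r (Ts a₁ a₂ a₃ r) + Real.pi / 2 := by
  have hp := per_Ts h12 h23 hr h2
  obtain ⟨h3, h4, h5⟩ := rel13 h12 h23 hr hp
  rw [v1_Ts h12 h23 hr h2, mul_zero] at h5
  have e1 := y1_pos h12 h23 hr hp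
  have e2 := (y1_range h12 h23 (ico_icc hr) (Ts a₁ a₂ a₃ r)).2.2
  have e3 : 0 < a₁ - a₃ - y1 a₁ a₂ a₃ r (Ts a₁ a₂ a₃ r) := by linarith
  have e4 : 2 * y1 a₁ a₂ a₃ r (Ts a₁ a₂ a₃ r) * (a₁ - a₃ - y1 a₁ a₂ a₃ r (Ts a₁ a₂ a₃ r)) ≠ 0 := by
    positivity
  have h6 := (mul_eq_zero.1 h5).resolve_right e4
  have h7 : G1 a₁ a₂ a₃ r (Ts a₁ a₂ a₃ r) - G3 a₁ a₂ a₃ r (Ts a₁ a₂ a₃ r) = Real.pi / 2 := by
    apply Real.injOn_cos ⟨h3.le, h4.le⟩ ⟨by linarith [Real.pi_pos], by linarith [Real.pi_pos]⟩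
    rw [h6, Real.cos_pi_div_two]
  linarith

theorem rel23T (h12 : a₂ < a₁) (h23 : a₃ < a₂) (hr : r ∈ Ico a₃ a₂) (h : Per a₁ a₂ a₃ r τ) :
    0 < G2 a₁ a₂ a₃ r τ - G3 a₁ a₂ a₃ r τ ∧ G2 a₁ a₂ a₃ r τ - G3 a₁ a₂ a₃ r τ < Real.pi := by
  have hr' : r ∈ Ico a₃ a₁ := ⟨hr.1, hr.2.trans h12⟩
  -- the first half
  have key : ∀ s, 0 < s → s < Ts a₁ a₂ a₃ r →
      0 < G2 a₁ a₂ a₃ r s - G3 a₁ a₂ a₃ r s ∧ G2 a₁ a₂ a₃ r s - G3 a₁ a₂ a₃ r s < Real.pi / 2 := by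
    intro s h0 hs
    have hp : Per a₁ a₂ a₃ r s := ⟨h0, fun _ => by linarith⟩
    obtain ⟨f1, f2, f3⟩ := angle12_half h12 h23 hr h0 hs
    obtain ⟨g1, g2, g3⟩ := rel13 h12 h23 hr' hp
    have f4 := rel12 h12 h23 hr' hp
    have e1 := y1_pos h12 h23 hr' hp
    have e2 := (y1_range h12 h23 (ico_icc hr') s).2.2
    have e3 : 0 < a₁ - a₃ - y1 a₁ a₂ a₃ r s := by linarith
    have e4 := v1_pos h12 h23 hr' h0 (fun _ => hs)
    have g4 : 0 < Real.sin (G1 a₁ a₂ a₃ r s - G3 a₁ a₂ a₃ r s) :=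
      Real.sin_pos_of_pos_of_lt_pi g1 g2
    have g5 : 0 < Real.cos (G1 a₁ a₂ a₃ r s - G3 a₁ a₂ a₃ r s) := by
      have h6 : 0 < Real.cos (G1 a₁ a₂ a₃ r s - G3 a₁ a₂ a₃ r s) *
          (2 * y1 a₁ a₂ a₃ r s * (a₁ - a₃ - y1 a₁ a₂ a₃ r s)) := by
        rw [g3]; positivity
      have h7 : 0 < 2 * y1 a₁ a₂ a₃ r s * (a₁ - a₃ - y1 a₁ a₂ a₃ r s) := by positivity
      exact (mul_pos_iff_of_pos_right h7).1 h6
    have g6 : G1 a₁ a₂ a₃ r s - G3 a₁ a₂ a₃ r s < Real.pi / 2 := by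
      by_contra hcon
      push Not at hcon
      have := Real.cos_nonpos_of_pi_div_two_le_of_le hcon (by linarith [Real.pi_pos])
      linarith
    set A := G1 a₁ a₂ a₃ r s - G3 a₁ a₂ a₃ r s with hA
    set B := G1 a₁ a₂ a₃ r s - G2 a₁ a₂ a₃ r s with hB
    have hAB : G2 a₁ a₂ a₃ r s - G3 a₁ a₂ a₃ r s = A - B := by rw [hA, hB]; ring
    rw [hAB]
    have h8 : v1 a₁ a₂ a₃ r s * Real.sin (A - B) =
        Real.cos A * Real.cos B * (2 * y1 a₁ a₂ a₃ r s * (a₂ - a₃)) := by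
      rw [Real.sin_sub]
      linear_combination (-Real.cos B) * g3 + Real.cos A * f4
    have h9 : 0 < v1 a₁ a₂ a₃ r s * Real.sin (A - B) := by
      rw [h8]
      have : 0 < a₂ - a₃ := by linarith
      positivity
    have h10 : 0 < Real.sin (A - B) := by
      by_contra hcon
      push Not at hcon
      nlinarith
    constructor
    · by_contra hcon
      push Not at hcon
      have := Real.sin_nonpos_of_nonpos_of_neg_pi_le hcon (by linarith [Real.pi_pos])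
      linarith
    · linarith
  have h2 := h.2 hr.2.ne
  rcases lt_trichotomy τ (Ts a₁ a₂ a₃ r) with h3 | h3 | h3
  · have := key τ h.1 h3
    exact ⟨this.1, by linarith [Real.pi_pos]⟩
  · have e1 := star12T h12 h23 hr
    have e2 := star13 h12 h23 hr' hr.2.ne
    rw [h3, e1, e2]
    constructor <;> linarith [Real.pi_pos]
  · obtain ⟨g1, g2⟩ := key (2 * Ts a₁ a₂ a₃ r - τ) (by linarith) (by linarith)
    obtain ⟨-, e2, e3⟩ := G_refl h12 h23 hr' hr.2.ne τ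
    have e4 := star12T h12 h23 hr
    have e5 := star13 h12 h23 hr' hr.2.ne
    rw [e2, e3, e4, e5] at g1 g2
    constructor <;> linarith [Real.pi_pos]

theorem star23I (h12 : a₂ < a₁) (h23 : a₃ < a₂) (hr : r ∈ Ioo a₂ a₁) :
    G2 a₁ a₂ a₃ r (Ts a₁ a₂ a₃ r) = G3 a₁ a₂ a₃ r (Ts a₁ a₂ a₃ r) := by
  have hr' : r ∈ Ico a₃ a₁ := ⟨(h23.trans hr.1).le, hr.2⟩
  have h2 : r ≠ a₂ := hr.1.ne'
  have hp := per_Ts h12 h23 hr' h2
  obtain ⟨h3, h4⟩ := rel12I h12 h23 ⟨hr.1.le, hr.2⟩ hp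
  have h5 := rel12 h12 h23 hr' hp
  rw [v1_Ts h12 h23 hr' h2, mul_zero] at h5
  have e1 := y1_pos h12 h23 hr' hp
  have e2 := y1_lt_m2 h12 h23 hr' hp (Or.inl hr.1.le)
  have e3 : 0 < a₁ - a₂ - y1 a₁ a₂ a₃ r (Ts a₁ a₂ a₃ r) := by linarith
  have e4 : 2 * y1 a₁ a₂ a₃ r (Ts a₁ a₂ a₃ r) * (a₁ - a₂ - y1 a₁ a₂ a₃ r (Ts a₁ a₂ a₃ r)) ≠ 0 := by
    positivity
  have h6 := (mul_eq_zero.1 h5).resolve_right e4
  have h7 : G1 a₁ a₂ a₃ r (Ts a₁ a₂ a₃ r) - G2 a₁ a₂ a₃ r (Ts a₁ a₂ a₃ r) = Real.pi / 2 := by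
    apply Real.injOn_cos ⟨h3.le, h4.le⟩ ⟨by linarith [Real.pi_pos], by linarith [Real.pi_pos]⟩
    rw [h6, Real.cos_pi_div_two]
  have h8 := star13 h12 h23 hr' h2
  linarith

/-- the relations with base index `3` -/
theorem rel31 (h12 : a₂ < a₁) (h23 : a₃ < a₂) (hr : r ∈ Ico a₃ a₁) (h : Per a₁ a₂ a₃ r τ) :
    Real.cos (G1 a₁ a₂ a₃ r τ - G3 a₁ a₂ a₃ r τ) *
        (2 * y3 a₁ a₂ a₃ r τ * (a₁ - a₃ + y3 a₁ a₂ a₃ r τ))
      = Real.sin (G1 a₁ a₂ a₃ r τ - G3 a₁ a₂ a₃ r τ) * v3 a₁ a₂ a₃ r τ := by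
  obtain ⟨-, -, h1⟩ := rel13 h12 h23 hr h
  obtain ⟨h2, h3⟩ := moebius3 h12 h23 hr τ
  have h4 := v3_formula h12 h23 hr τ
  have e1 := y1_pos h12 h23 hr h
  have e2 := (y1_range h12 h23 (ico_icc hr) τ).2.2
  have e3 : 0 < a₁ - a₃ - y1 a₁ a₂ a₃ r τ := by linarith
  set D := (a₁ - a₂) * (a₁ - r) - y1 a₁ a₂ a₃ r τ * ((a₁ - r) - (a₂ - a₃)) with hD
  set c := Real.cos (G1 a₁ a₂ a₃ r τ - G3 a₁ a₂ a₃ r τ)
  set s := Real.sin (G1 a₁ a₂ a₃ r τ - G3 a₁ a₂ a₃ r τ)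
  set y := y1 a₁ a₂ a₃ r τ
  set v := v1 a₁ a₂ a₃ r τ
  set w := v3 a₁ a₂ a₃ r τ
  set z := y3 a₁ a₂ a₃ r τ
  -- `z (a₁-a₃+z) D² = - (a₂-a₃)(r-a₃)(a₁-a₂)(a₁-r) y (a₁-a₃-y)`
  have h5 : z * (a₁ - a₃ + z) * D ^ 2 =
      -((a₂ - a₃) * (r - a₃) * ((a₁ - a₂) * (a₁ - r)) * (y * (a₁ - a₃ - y))) := by
    have h6 : z * D = -((a₂ - a₃) * (r - a₃) * y) := by linear_combination -h2
    have h7 : (a₁ - a₃ + z) * D = (a₁ - a₂) * (a₁ - r) * (a₁ - a₃ - y) := by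
      have : (a₁ - a₃ + z) * D = (a₁ - a₃) * D + z * D := by ring
      rw [this, h6, hD]; ring
    calc z * (a₁ - a₃ + z) * D ^ 2 = (z * D) * ((a₁ - a₃ + z) * D) := by ring
      _ = _ := by rw [h6, h7]; ring
  have h8 : (y * (a₁ - a₃ - y)) * D ^ 2 ≠ 0 := by positivity
  apply mul_left_cancel₀ h8
  linear_combination (2 * c * (y * (a₁ - a₃ - y))) * h5 + (s * (y * (a₁ - a₃ - y))) * h4 -
    ((a₂ - a₃) * (r - a₃) * ((a₁ - a₂) * (a₁ - r)) * (y * (a₁ - a₃ - y))) * h1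

theorem rel32 (h12 : a₂ < a₁) (h23 : a₃ < a₂) (hr : r ∈ Ico a₃ a₁) (h : Per a₁ a₂ a₃ r τ) :
    Real.cos (G2 a₁ a₂ a₃ r τ - G3 a₁ a₂ a₃ r τ) *
        (2 * y3 a₁ a₂ a₃ r τ * (a₂ - a₃ + y3 a₁ a₂ a₃ r τ))
      = Real.sin (G2 a₁ a₂ a₃ r τ - G3 a₁ a₂ a₃ r τ) * v3 a₁ a₂ a₃ r τ := by
  by_cases hex : r < a₂ ∧ τ = Ts a₁ a₂ a₃ r
  · obtain ⟨h1, h2⟩ := hex
    have e1 := star12T h12 h23 ⟨hr.1, h1⟩
    have e2 := star13 h12 h23 hr h1.ne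
    have e3 := v3_Ts h12 h23 hr h1.ne
    have e4 : G2 a₁ a₂ a₃ r (Ts a₁ a₂ a₃ r) - G3 a₁ a₂ a₃ r (Ts a₁ a₂ a₃ r) = Real.pi / 2 := by
      rw [e1, e2]; ring
    rw [h2, e4, Real.cos_pi_div_two, e3, zero_mul, mul_zero]
  have hex' : a₂ ≤ r ∨ τ ≠ Ts a₁ a₂ a₃ r := by
    by_cases h1 : r < a₂
    · exact Or.inr fun h2 => hex ⟨h1, h2⟩
    · exact Or.inl (not_lt.1 h1)
  obtain ⟨-, -, h1⟩ := rel13 h12 h23 hr h
  have h1' := rel12 h12 h23 hr h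
  obtain ⟨h2, h3⟩ := moebius3 h12 h23 hr τ
  have h4 := v3_formula h12 h23 hr τ
  have hsq := v1_sq a₁ a₂ a₃ r τ
  have e1 := y1_pos h12 h23 hr h
  have e2 := y1_lt_m2 h12 h23 hr h hex'
  have e3 : 0 < a₁ - a₃ - y1 a₁ a₂ a₃ r τ := by linarith
  have e4 : 0 < a₁ - a₂ - y1 a₁ a₂ a₃ r τ := by linarith
  have hG : G2 a₁ a₂ a₃ r τ - G3 a₁ a₂ a₃ r τ = (G1 a₁ a₂ a₃ r τ - G3 a₁ a₂ a₃ r τ) -
      (G1 a₁ a₂ a₃ r τ - G2 a₁ a₂ a₃ r τ) := by ring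
  have hGc := Real.cos_sub (G1 a₁ a₂ a₃ r τ - G3 a₁ a₂ a₃ r τ)
    (G1 a₁ a₂ a₃ r τ - G2 a₁ a₂ a₃ r τ)
  have hGs := Real.sin_sub (G1 a₁ a₂ a₃ r τ - G3 a₁ a₂ a₃ r τ)
    (G1 a₁ a₂ a₃ r τ - G2 a₁ a₂ a₃ r τ)
  rw [hG, hGc, hGs]
  set D := (a₁ - a₂) * (a₁ - r) - y1 a₁ a₂ a₃ r τ * ((a₁ - r) - (a₂ - a₃)) with hD
  set c3 := Real.cos (G1 a₁ a₂ a₃ r τ - G3 a₁ a₂ a₃ r τ)
  set s3 := Real.sin (G1 a₁ a₂ a₃ r τ - G3 a₁ a₂ a₃ r τ)
  set c2 := Real.cos (G1 a₁ a₂ a₃ r τ - G2 a₁ a₂ a₃ r τ)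
  set s2 := Real.sin (G1 a₁ a₂ a₃ r τ - G2 a₁ a₂ a₃ r τ)
  set y := y1 a₁ a₂ a₃ r τ
  set v := v1 a₁ a₂ a₃ r τ
  set w := v3 a₁ a₂ a₃ r τ
  set z := y3 a₁ a₂ a₃ r τ
  have h5 : z * (a₂ - a₃ + z) * D ^ 2 =
      -((a₂ - a₃) ^ 2 * (r - a₃) * (a₁ - a₂) * (y * (a₁ - r - y))) := by
    have h6 : z * D = -((a₂ - a₃) * (r - a₃) * y) := by linear_combination -h2
    have h7 : (a₂ - a₃ + z) * D = (a₂ - a₃) * (a₁ - a₂) * (a₁ - r - y) := by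
      have : (a₂ - a₃ + z) * D = (a₂ - a₃) * D + z * D := by ring
      rw [this, h6, hD]; ring
    calc z * (a₂ - a₃ + z) * D ^ 2 = (z * D) * ((a₂ - a₃ + z) * D) := by ring
      _ = _ := by rw [h6, h7]; ring
  -- products of sines and cosines
  set u3 := 2 * y * (a₁ - a₃ - y) with hu3
  set u2 := 2 * y * (a₁ - a₂ - y) with hu2
  have hcc : (c3 * c2 + s3 * s2) * (u3 * u2) = s3 * s2 * (v ^ 2 + u3 * u2) := by
    linear_combination (c2 * u2) * h1 + (s3 * v) * h1'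
  have hss : (s3 * c2 - c3 * s2) * (u3 * u2) = s3 * s2 * v * (u3 - u2) := by
    linear_combination (s3 * u3) * h1' - (s2 * u2) * h1
  have hU : (v ^ 2 + u3 * u2) * (2 * z * (a₂ - a₃ + z)) * D ^ 2 = v * (u3 - u2) * w * D ^ 2 := by
    have e5 : v ^ 2 + u3 * u2 = 4 * y * (a₁ - a₂ - y) * (a₁ - a₃ - y) * (a₁ - r) := by
      rw [hsq, hu3, hu2]; ring
    have e6 : u3 - u2 = 2 * y * (a₂ - a₃) := by rw [hu3, hu2]; ring
    rw [e5, e6]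
    linear_combination (8 * y * (a₁ - a₂ - y) * (a₁ - a₃ - y) * (a₁ - r)) * h5 +
      (2 * y * (a₂ - a₃) * v) * h4 -
      (2 * y * (a₂ - a₃) * ((a₂ - a₃) * (r - a₃) * ((a₁ - a₂) * (a₁ - r)))) * hsq * (-1)
  have hne : u3 * u2 * D ^ 2 ≠ 0 := by
    rw [hu3, hu2]; positivity
  apply mul_left_cancel₀ hne
  calc u3 * u2 * D ^ 2 * ((c3 * c2 + s3 * s2) * (2 * z * (a₂ - a₃ + z)))
      = (c3 * c2 + s3 * s2) * (u3 * u2) * (2 * z * (a₂ - a₃ + z)) * D ^ 2 := by ring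
    _ = s3 * s2 * ((v ^ 2 + u3 * u2) * (2 * z * (a₂ - a₃ + z)) * D ^ 2) := by rw [hcc]; ring
    _ = s3 * s2 * (v * (u3 - u2) * w * D ^ 2) := by rw [hU]
    _ = (s3 * s2 * v * (u3 - u2)) * w * D ^ 2 := by ring
    _ = (s3 * c2 - c3 * s2) * (u3 * u2) * w * D ^ 2 := by rw [hss]
    _ = _ := by ring

end grel

end

end Pool.Agent.CutS3
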