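import Pool.Agent.CutS3.Grel

set_option autoImplicit false
set_option linter.unusedVariables false

/-! # Module TAUA: hitting times of `π` -/

namespace Pool.Agent.CutS3

open Set Quaternion

noncomputable section

namespace TauAAux

theorem tau_core {G g : ℝ → ℝ} {c : ℝ} (hc : 0 < c) (hG : ∀ t, HasDerivAt G (g t) t)
    (hg : ∀ t, c ≤ g t) (h0 : G 0 = 0) :
    StrictMono G ∧ 0 < sInf {τ : ℝ | 0 ≤ τ ∧ Real.pi ≤ G τ} ∧
      G (sInf {τ : ℝ | 0 ≤ τ ∧ Real.pi ≤ G τ}) = Real.pi := by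
  have hmono : StrictMono G := strictMono_of_deriv_pos fun t => by
    rw [(hG t).deriv]; exact lt_of_lt_of_le hc (hg t)
  have hcont : Continuous G := continuous_iff_continuousAt.2 fun s => (hG s).continuousAt
  have hlin : Monotone fun t => G t - c * t := by
    refine monotone_of_deriv_nonneg (fun t => ?_) fun t => ?_
    · exact ((hG t).sub ((hasDerivAt_id t).const_mul c)).differentiableAt
    · have hd := ((hG t).sub ((hasDerivAt_id t).const_mul c)).deriv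
      have hd' : deriv (fun t => G t - c * t) t = g t - c * 1 := hd
      rw [hd']
      linarith [hg t]
  have hpc : 0 ≤ Real.pi / c := by positivity
  have hbig : Real.pi ≤ G (Real.pi / c) := by
    have h1 := hlin hpc
    simp only [h0, mul_zero, sub_zero] at h1
    rw [mul_div_cancel₀ _ hc.ne'] at h1
    linarith
  obtain ⟨t, ht, htG⟩ := intermediate_value_Icc hpc (f := G) hcont.continuousOn
    (show Real.pi ∈ Icc (G 0) (G (Real.pi / c)) from ⟨by rw [h0]; exact Real.pi_pos.le, hbig⟩)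
  have hleast : IsLeast {τ : ℝ | 0 ≤ τ ∧ Real.pi ≤ G τ} t := by
    refine ⟨⟨ht.1, htG.ge⟩, ?_⟩
    rintro τ ⟨_, hτ⟩
    rw [← htG] at hτ
    exact hmono.le_iff_le.1 hτ
  rw [hleast.csInf_eq]
  refine ⟨hmono, ?_, htG⟩
  rcases ht.1.eq_or_lt with h | h
  · rw [← h, h0] at htG
    exact absurd htG Real.pi_pos.ne
  · exact h

end TauAAux

open TauAAux

section tau
variable {a₁ a₂ a₃ r r' τ : ℝ}

theorem G_zero : G1 a₁ a₂ a₃ r 0 = 0 ∧ G2 a₁ a₂ a₃ r 0 = 0 ∧ G3 a₁ a₂ a₃ r 0 = 0 :=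
  ⟨GrelAux.G1_zero r, GrelAux.G2_zero r, GrelAux.G3_zero r⟩

namespace TauAAux

theorem core1 (hax : Ax a₁ a₂ a₃) (hr : r ∈ Icc a₃ a₁) :
    StrictMono (G1 a₁ a₂ a₃ r) ∧ 0 < tau1 a₁ a₂ a₃ r ∧
      G1 a₁ a₂ a₃ r (tau1 a₁ a₂ a₃ r) = Real.pi := by
  refine tau_core hax.pos (hasDerivAt_G1 r) (fun t => ?_) G_zero.1
  have h1 := (y1_range hax.h12 hax.h23 hr t).2.1
  have h2 := hr.1
  linarith

theorem core2 (hax : Ax a₁ a₂ a₃) (hr : r ∈ Icc a₃ a₁) :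
    StrictMono (G2 a₁ a₂ a₃ r) ∧ 0 < tau2 a₁ a₂ a₃ r ∧
      G2 a₁ a₂ a₃ r (tau2 a₁ a₂ a₃ r) = Real.pi := by
  refine tau_core hax.pos (hasDerivAt_G2 r) (fun t => ?_) G_zero.2.1
  rcases le_total a₂ r with h | h
  · have h1 := (y2_rangeI hax.h12 hax.h23 ⟨h, hr.2⟩ t).2
    linarith
  · have h1 := (y2_rangeT hax.h12 hax.h23 ⟨hr.1, h⟩ t).1
    have h2 := hax.h23
    linarith

theorem core3 (hax : Ax a₁ a₂ a₃) (hr : r ∈ Icc a₃ a₁) :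
    StrictMono (G3 a₁ a₂ a₃ r) := by
  refine (tau_core hax.pos (hasDerivAt_G3 r) (fun t => ?_) G_zero.2.2).1
  have h1 := (y3_range hax.h12 hax.h23 hr t).1
  linarith

end TauAAux

theorem G_strictMono (hax : Ax a₁ a₂ a₃) (hr : r ∈ Icc a₃ a₁) :
    StrictMono (G1 a₁ a₂ a₃ r) ∧ StrictMono (G2 a₁ a₂ a₃ r) ∧
    StrictMono (G3 a₁ a₂ a₃ r) :=
  ⟨(core1 hax hr).1, (core2 hax hr).1, core3 hax hr⟩

theorem tau1_spec (hax : Ax a₁ a₂ a₃) (hr : r ∈ Icc a₃ a₁) :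
    0 < tau1 a₁ a₂ a₃ r ∧ G1 a₁ a₂ a₃ r (tau1 a₁ a₂ a₃ r) = Real.pi := (core1 hax hr).2

theorem tau2_spec (hax : Ax a₁ a₂ a₃) (hr : r ∈ Icc a₃ a₁) :
    0 < tau2 a₁ a₂ a₃ r ∧ G2 a₁ a₂ a₃ r (tau2 a₁ a₂ a₃ r) = Real.pi := (core2 hax hr).2

theorem tcut_pos (hax : Ax a₁ a₂ a₃) (hr : r ∈ Icc a₃ a₁) : 0 < tcut a₁ a₂ a₃ r := by
  unfold tcut
  split_ifs
  · exact (tau1_spec hax hr).1
  · exact (tau2_spec hax hr).1

namespace TauAAux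

theorem not_reg1 (h : ¬ Reg1 a₁ a₂ a₃ r) :
    r < a₂ ∧ G1 a₁ a₂ a₃ r (Ts a₁ a₂ a₃ r) < Real.pi := by
  unfold Reg1 at h
  push Not at h
  exact h

theorem tau_lt (hax : Ax a₁ a₂ a₃) (hr : r ∈ Ico a₃ a₁) (h2 : r ≠ a₂) :
    tcut a₁ a₂ a₃ r < 2 * Ts a₁ a₂ a₃ r := by
  have hT := Ts_pos hax.h12 hax.h23 hr h2
  have hrc : r ∈ Icc a₃ a₁ := ⟨hr.1, hr.2.le⟩
  obtain ⟨m1, m2, m3⟩ := G_strictMono hax hrc
  obtain ⟨z1, z2, z3⟩ := G_zero (a₁ := a₁) (a₂ := a₂) (a₃ := a₃) (r := r)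
  have h3 : 0 < G3 a₁ a₂ a₃ r (Ts a₁ a₂ a₃ r) := by
    have := m3 hT
    rwa [z3] at this
  have h13 := star13 hax.h12 hax.h23 hr h2
  obtain ⟨e1, e2, -⟩ := G_refl hax.h12 hax.h23 hr h2 0
  rw [sub_zero, z1, sub_zero] at e1
  rw [sub_zero, z2, sub_zero] at e2
  unfold tcut
  split_ifs with h
  · apply m1.lt_iff_lt.1
    rw [(tau1_spec hax hrc).2, e1, h13]
    linarith
  · obtain ⟨h4, h5⟩ := not_reg1 h
    apply m2.lt_iff_lt.1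
    rw [(tau2_spec hax hrc).2, e2, star12T hax.h12 hax.h23 ⟨hr.1, h4⟩, h13]
    linarith

end TauAAux

theorem tcut_per (hax : Ax a₁ a₂ a₃) (hr : r ∈ Ico a₃ a₁) (h0 : 0 < τ)
    (h : τ ≤ tcut a₁ a₂ a₃ r) : Per a₁ a₂ a₃ r τ :=
  ⟨h0, fun h2 => lt_of_le_of_lt h (tau_lt hax hr h2)⟩

/-- in region 1 of type III the cut comes in the first half, outside region 1 in the second -/
theorem tau1_first (hax : Ax a₁ a₂ a₃) (hr : r ∈ Ico a₃ a₂) (h : Reg1 a₁ a₂ a₃ r) :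
    tau1 a₁ a₂ a₃ r ≤ Ts a₁ a₂ a₃ r ∧
    (Real.pi < G1 a₁ a₂ a₃ r (Ts a₁ a₂ a₃ r) → tau1 a₁ a₂ a₃ r < Ts a₁ a₂ a₃ r) := by
  have hrc : r ∈ Icc a₃ a₁ := ⟨hr.1, (hr.2.trans hax.h12).le⟩
  obtain ⟨m1, -, -⟩ := G_strictMono hax hrc
  have h1 := (tau1_spec hax hrc).2
  have h2 : Real.pi ≤ G1 a₁ a₂ a₃ r (Ts a₁ a₂ a₃ r) := by
    rcases h with h | h
    · exact absurd hr.2 (not_lt.2 h)
    · exact h
  constructor
  · apply m1.le_iff_le.1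
    rw [h1]; exact h2
  · intro h3
    apply m1.lt_iff_lt.1
    rw [h1]; exact h3

theorem tau2_second (hax : Ax a₁ a₂ a₃) (hr : r ∈ Ico a₃ a₂) (h : ¬ Reg1 a₁ a₂ a₃ r) :
    Ts a₁ a₂ a₃ r < tau2 a₁ a₂ a₃ r := by
  have hrc : r ∈ Icc a₃ a₁ := ⟨hr.1, (hr.2.trans hax.h12).le⟩
  obtain ⟨-, m2, -⟩ := G_strictMono hax hrc
  obtain ⟨-, h2⟩ := not_reg1 h
  apply m2.lt_iff_lt.1
  rw [(tau2_spec hax hrc).2, star12T hax.h12 hax.h23 hr]
  exact h2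

theorem tcut_G (hax : Ax a₁ a₂ a₃) (hr : r ∈ Icc a₃ a₁) (h0 : 0 < τ)
    (h : τ < tcut a₁ a₂ a₃ r) :
    (0 < G1 a₁ a₂ a₃ r τ ∧ G1 a₁ a₂ a₃ r τ < Real.pi) ∧
    (0 < G2 a₁ a₂ a₃ r τ ∧ G2 a₁ a₂ a₃ r τ < Real.pi) ∧
    (0 < G3 a₁ a₂ a₃ r τ ∧ G3 a₁ a₂ a₃ r τ < Real.pi) := by
  obtain ⟨m1, m2, m3⟩ := G_strictMono hax hr
  obtain ⟨z1, z2, z3⟩ := G_zero (a₁ := a₁) (a₂ := a₂) (a₃ := a₃) (r := r)
  have p1 : 0 < G1 a₁ a₂ a₃ r τ := by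
    have := m1 h0
    rwa [z1] at this
  have p2 : 0 < G2 a₁ a₂ a₃ r τ := by
    have := m2 h0
    rwa [z2] at this
  have p3 : 0 < G3 a₁ a₂ a₃ r τ := by
    have := m3 h0
    rwa [z3] at this
  have h12 := hax.h12
  have h23 := hax.h23
  by_cases hreg : Reg1 a₁ a₂ a₃ r
  · -- the cut time is `tau1`
    have hlt : τ < tau1 a₁ a₂ a₃ r := by
      unfold tcut at h; rwa [if_pos hreg] at h
    have hG1 : G1 a₁ a₂ a₃ r τ < Real.pi := by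
      rw [← (tau1_spec hax hr).2]; exact m1 hlt
    rcases hr.2.eq_or_lt with he | hlt1
    · -- `r = a₁`
      have hy1 : ∀ t, y1 a₁ a₂ a₃ r t = 0 := by
        intro t
        obtain ⟨e1, e2, -⟩ := y1_range h12 h23 hr t
        rw [he, sub_self] at e2
        rw [he] at e1 ⊢
        exact le_antisymm e2 e1
      have hm12 : StrictMono fun t => G1 a₁ a₂ a₃ r t - G2 a₁ a₂ a₃ r t := by
        refine strictMono_of_deriv_pos fun t => ?_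
        have hd : deriv (fun t => G1 a₁ a₂ a₃ r t - G2 a₁ a₂ a₃ r t) t =
          (a₁ - y1 a₁ a₂ a₃ r t) - (a₂ - y2 a₁ a₂ a₃ r t) :=
          ((hasDerivAt_G1 r t).sub (hasDerivAt_G2 r t)).deriv
        rw [hd, hy1]
        have := (y2_rangeI h12 h23 ⟨by rw [he]; exact h12.le, hr.2⟩ t).1
        linarith
      have hm13 : StrictMono fun t => G1 a₁ a₂ a₃ r t - G3 a₁ a₂ a₃ r t := by
        refine strictMono_of_deriv_pos fun t => ?_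
        have hd : deriv (fun t => G1 a₁ a₂ a₃ r t - G3 a₁ a₂ a₃ r t) t =
          (a₁ - y1 a₁ a₂ a₃ r t) - (a₃ - y3 a₁ a₂ a₃ r t) :=
          ((hasDerivAt_G1 r t).sub (hasDerivAt_G3 r t)).deriv
        rw [hd, hy1]
        have := (y3_range h12 h23 hr t).2.2
        linarith
      have q2 := hm12 h0
      have q3 := hm13 h0
      simp only [z1, z2, z3, sub_zero] at q2 q3
      exact ⟨⟨p1, hG1⟩, ⟨p2, by linarith⟩, ⟨p3, by linarith⟩⟩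
    · have hr' : r ∈ Ico a₃ a₁ := ⟨hr.1, hlt1⟩
      have hper := tcut_per hax hr' h0 h.le
      have h13 := (rel13 h12 h23 hr' hper).1
      have hG2 : G2 a₁ a₂ a₃ r τ < G1 a₁ a₂ a₃ r τ := by
        rcases le_or_gt a₂ r with h2 | h2
        · have := (rel12I h12 h23 ⟨h2, hlt1⟩ hper).1
          linarith
        · have hT := (tau1_first hax ⟨hr.1, h2⟩ hreg).1
          have := ((rel12T h12 h23 ⟨hr.1, h2⟩ hper).1 (lt_of_lt_of_le hlt hT)).1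
          linarith
      exact ⟨⟨p1, hG1⟩, ⟨p2, by linarith⟩, ⟨p3, by linarith⟩⟩
  · -- the cut time is `tau2`
    have hlt : τ < tau2 a₁ a₂ a₃ r := by
      unfold tcut at h; rwa [if_neg hreg] at h
    obtain ⟨h2, hs⟩ := not_reg1 hreg
    have hr' : r ∈ Ico a₃ a₁ := ⟨hr.1, h2.trans h12⟩
    have hper := tcut_per hax hr' h0 h.le
    have hG2 : G2 a₁ a₂ a₃ r τ < Real.pi := by
      rw [← (tau2_spec hax hr).2]; exact m2 hlt
    have hG3 := (rel23T h12 h23 ⟨hr.1, h2⟩ hper).1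
    have hG1 : G1 a₁ a₂ a₃ r τ < Real.pi := by
      rcases le_or_gt τ (Ts a₁ a₂ a₃ r) with h4 | h4
      · exact lt_of_le_of_lt (m1.monotone h4) hs
      · have := ((rel12T h12 h23 ⟨hr.1, h2⟩ hper).2 h4).1
        linarith
    exact ⟨⟨p1, hG1⟩, ⟨p2, hG2⟩, ⟨p3, by linarith⟩⟩

end tau

end

end Pool.Agent.CutS3
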