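import Pool.Agent.CutS3.Ya1

/-!
Module YA2: the half period.
-/

set_option autoImplicit false

namespace Pool.Agent.CutS3

open Set Filter Topology

noncomputable section

namespace YaAux

lemma yf_at0 (k m n : ℝ) : yf k m n 0 = 0 := (yf_spec k m n).y0
lemma yd_at0 (k m n : ℝ) : yd k m n 0 = 0 := (yf_spec k m n).v0
lemma yf_cont (k m n : ℝ) : Continuous (yf k m n) :=
  continuous_iff_continuousAt.mpr fun t => ((yf_spec k m n).hy t).continuousAt
lemma yd_cont (k m n : ℝ) : Continuous (yd k m n) :=
  continuous_iff_continuousAt.mpr fun t => ((yf_spec k m n).hv t).continuousAt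

/-- the derivative is positive for small positive times -/
lemma yd_pos_small {k m n : ℝ} (h : 0 < k * (m * n)) : ∃ ε, 0 < ε ∧ ∀ t, 0 < t → t < ε →
    0 < yd k m n t := by
  have hs := yf_spec k m n
  have hd : HasDerivAt (yd k m n) (2 * (k * (m * n))) 0 := by
    refine (hs.hv 0).congr_deriv ?_
    rw [hs.y0]
    unfold PD
    ring
  have h1 := hd.tendsto_slope
  have h2 : ∀ᶠ t in 𝓝[≠] (0:ℝ), 0 < slope (yd k m n) 0 t :=
    h1.eventually (lt_mem_nhds (by linarith))
  obtain ⟨ε, hε, h3⟩ := Metric.eventually_nhds_iff.mp (eventually_nhdsWithin_iff.mp h2)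
  refine ⟨ε, hε, fun t ht htε => ?_⟩
  have h4 := h3 (y := t) (by rw [Real.dist_eq, sub_zero, abs_of_pos ht]; exact htε)
    (by simpa using ht.ne')
  rw [slope_def_field, hs.v0, sub_zero, sub_zero] at h4
  exact (div_pos_iff_of_pos_right ht).mp h4

/-- a continuous function that is positive somewhere and has no zero on an interval is positive -/
lemma pos_of_no_zero {f : ℝ → ℝ} (hf : Continuous f) {T : ℝ} {t₀ : ℝ} (h0 : 0 < t₀)
    (hpos : ∀ t, 0 < t → t < t₀ → 0 < f t) (hz : ∀ t, 0 < t → t < T → f t ≠ 0) :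
    ∀ t, 0 < t → t < T → 0 < f t := by
  intro t ht htT
  by_contra hneg
  push Not at hneg
  have hlt : f t < 0 := lt_of_le_of_ne hneg (hz t ht htT)
  obtain ⟨s, hs1, hs2⟩ : ∃ s, 0 < s ∧ s < min t t₀ := exists_between (lt_min ht h0)
  have hs3 := lt_min_iff.mp hs2
  have hfs := hpos s hs1 hs3.2
  obtain ⟨x, hx, hx0⟩ := intermediate_value_Icc' hs3.1.le hf.continuousOn
    (show (0:ℝ) ∈ Icc (f t) (f s) from ⟨hlt.le, hfs.le⟩)
  exact hz x (lt_of_lt_of_le hs1 hx.1) (lt_of_le_of_lt hx.2 htT) hx0

/-- on an interval `(0,T)` where the derivative is positive, `0 < y`, and `y` avoids `k` if `PP`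
vanishes at `k` -/
lemma yf_range {k m n T : ℝ} (hk : 0 < k) (hpos : ∀ t, 0 < t → t < T → 0 < yd k m n t) :
    ∀ t, 0 < t → t < T → 0 < yf k m n t ∧ yf k m n t < k := by
  have hs := yf_spec k m n
  have hmono : StrictMonoOn (yf k m n) (Ico 0 T) := by
    apply strictMonoOn_of_deriv_pos (convex_Ico 0 T) (yf_cont k m n).continuousOn
    intro x hx
    rw [interior_Ico] at hx
    exact hpos x hx.1 hx.2
  intro t ht htT
  constructor
  · have := hmono (show (0:ℝ) ∈ Ico 0 T from ⟨le_rfl, ht.trans htT⟩) ⟨ht.le, htT⟩ ht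
    rwa [hs.y0] at this
  · by_contra hge
    push Not at hge
    obtain ⟨x, hx, hx0⟩ := intermediate_value_Icc ht.le (yf_cont k m n).continuousOn
      (show k ∈ Icc (yf k m n 0) (yf k m n t) from ⟨by rw [hs.y0]; exact hk.le, hge⟩)
    have hx1 : 0 < x := by
      rcases hx.1.lt_or_eq with h | h
      · exact h
      · exfalso
        rw [← h, hs.y0] at hx0
        exact hk.ne hx0
    have h1 := hpos x hx1 (lt_of_le_of_lt hx.2 htT)
    have h2 := yd_sq k m n x
    rw [hx0] at h2
    have h3 : PP k m n k = 0 := by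
      unfold PP
      ring
    rw [h3] at h2
    have h4 : yd k m n x = 0 := by
      exact pow_eq_zero_iff (two_ne_zero) |>.mp h2
    exact h1.ne' h4

end YaAux

open YaAux

/-- half period lemma -/
theorem half {k m n : ℝ} (hk : 0 < k) (hmn : 0 < m * n) (hm : m < 0 ∨ k < m)
    (hn : n < 0 ∨ k < n) :
    0 < hT k m n ∧ yf k m n (hT k m n) = k ∧ yd k m n (hT k m n) = 0 ∧
    (∀ t, 0 < t → t < hT k m n → 0 < yd k m n t) ∧
    (∀ t, yf k m n (2 * hT k m n - t) = yf k m n t) := by
  have hs := yf_spec k m n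
  -- lower bound of the cofactor
  obtain ⟨c, hc, hcb⟩ : ∃ c : ℝ, 0 < c ∧ ∀ y, 0 ≤ y → y ≤ k → c ≤ (m - y) * (n - y) := by
    rcases hm with hm | hm
    · have hn' : n < 0 := by
        by_contra hge
        push Not at hge
        nlinarith
      refine ⟨m * n, hmn, fun y h0 h1 => ?_⟩
      nlinarith
    · have hn' : k < n := by
        rcases hn with h | h
        · exfalso
          nlinarith
        · exact h
      refine ⟨(m - k) * (n - k), mul_pos (by linarith) (by linarith), fun y h0 h1 => ?_⟩
      nlinarith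
  obtain ⟨ε, hε, hεpos⟩ := yd_pos_small (show 0 < k * (m * n) from mul_pos hk hmn)
  -- a zero exists
  have hne : ∃ t, 0 < t ∧ yd k m n t = 0 := by
    by_contra hno
    push Not at hno
    have hpos : ∀ t, 0 < t → 0 < yd k m n t := by
      intro t ht
      exact pos_of_no_zero (yd_cont k m n) hε hεpos (T := t + 1) (fun s hs _ => hno s hs) t ht
        (by linarith)
    have hrange : ∀ t, 0 < t → 0 < yf k m n t ∧ yf k m n t < k := by
      intro t ht
      exact yf_range hk (T := t + 1) (fun s hs _ => hpos s hs) t ht (by linarith)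
    have hmono : StrictMonoOn (yf k m n) (Ici 0) := by
      apply strictMonoOn_of_deriv_pos (convex_Ici 0) (yf_cont k m n).continuousOn
      intro x hx
      rw [interior_Ici] at hx
      exact hpos x hx
    set y₁ := yf k m n 1 with hy1
    have hy1pos : 0 < y₁ := (hrange 1 one_pos).1
    set g := Real.sqrt (4 * y₁ * c) with hg
    have hgpos : 0 < g := Real.sqrt_pos.mpr (by positivity)
    -- the derivative of sqrt (k - y)
    have hder : ∀ t, 0 < t → HasDerivAt (fun t => Real.sqrt (k - yf k m n t))
        (-yd k m n t / (2 * Real.sqrt (k - yf k m n t))) t := by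
      intro t ht
      have h1 : HasDerivAt (fun t => k - yf k m n t) (-yd k m n t) t := (hs.hy t).const_sub k
      exact h1.sqrt (by have := (hrange t ht).2; linarith)
    have hdle : ∀ t, 1 < t → -yd k m n t / (2 * Real.sqrt (k - yf k m n t)) ≤ -(g / 2) := by
      intro t ht
      have ht0 : 0 < t := by linarith
      obtain ⟨h1, h2⟩ := hrange t ht0
      have h3 : y₁ ≤ yf k m n t :=
        (hmono (mem_Ici.mpr zero_le_one : (1:ℝ) ∈ Ici 0) (show t ∈ Ici 0 from ht0.le) ht).le
      have h4 : 0 < k - yf k m n t := by linarith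
      have h5 : g * Real.sqrt (k - yf k m n t) ≤ yd k m n t := by
        rw [hg, ← Real.sqrt_mul (by positivity)]
        apply Real.sqrt_le_iff.mpr
        refine ⟨(hpos t ht0).le, ?_⟩
        rw [yd_sq]
        unfold PP
        have h6 := hcb _ h1.le h2.le
        have h7 : 4 * y₁ * c ≤ 4 * yf k m n t * ((m - yf k m n t) * (n - yf k m n t)) := by
          gcongr
        calc 4 * y₁ * c * (k - yf k m n t)
            ≤ 4 * yf k m n t * ((m - yf k m n t) * (n - yf k m n t)) * (k - yf k m n t) := by
              gcongr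
          _ = _ := by ring
      have h6 : 0 < Real.sqrt (k - yf k m n t) := Real.sqrt_pos.mpr h4
      rw [neg_div, neg_le_neg_iff, le_div_iff₀ (by positivity)]
      linarith
    have hbound : ∀ t, 1 ≤ t → Real.sqrt (k - yf k m n t) - Real.sqrt (k - yf k m n 1) ≤
        -(g / 2) * (t - 1) := by
      intro t ht
      apply Convex.image_sub_le_mul_sub_of_deriv_le (convex_Ici (1:ℝ)) (f := fun t =>
        Real.sqrt (k - yf k m n t)) _ _ _ 1 (mem_Ici.mpr le_rfl : (1:ℝ) ∈ Ici 1) t
        (show t ∈ Ici 1 from ht) ht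
      · intro x hx
        exact (hder x (lt_of_lt_of_le one_pos hx)).continuousAt.continuousWithinAt
      · intro x hx
        rw [interior_Ici] at hx
        exact (hder x (lt_trans one_pos hx)).differentiableAt.differentiableWithinAt
      · intro x hx
        rw [interior_Ici] at hx
        rw [(hder x (lt_trans one_pos hx)).deriv]
        exact hdle x hx
    have h1 := hbound (1 + 2 * (Real.sqrt (k - yf k m n 1) + 1) / g) (by
      have : 0 ≤ 2 * (Real.sqrt (k - yf k m n 1) + 1) / g := by positivity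
      linarith)
    have h2 : -(g / 2) * (1 + 2 * (Real.sqrt (k - yf k m n 1) + 1) / g - 1) =
        -(Real.sqrt (k - yf k m n 1) + 1) := by
      field_simp
      ring
    rw [h2] at h1
    have h3 := Real.sqrt_nonneg (k - yf k m n (1 + 2 * (Real.sqrt (k - yf k m n 1) + 1) / g))
    linarith
  -- the first zero
  set Z : Set ℝ := {t : ℝ | 0 < t ∧ yd k m n t = 0} with hZ
  have hZne : Z.Nonempty := hne
  have hZlow : ∀ t ∈ Z, ε ≤ t := by
    rintro t ⟨h1, h2⟩
    by_contra hlt
    push Not at hlt
    exact (hεpos t h1 hlt).ne' h2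
  have hZcl : IsClosed Z := by
    have : Z = Ici ε ∩ {t | yd k m n t = 0} := by
      ext t
      constructor
      · intro h
        exact ⟨hZlow t h, h.2⟩
      · rintro ⟨h1, h2⟩
        exact ⟨lt_of_lt_of_le hε h1, h2⟩
    rw [this]
    exact isClosed_Ici.inter (isClosed_eq (yd_cont k m n) continuous_const)
  have hbdd : BddBelow Z := ⟨ε, hZlow⟩
  have hmem : hT k m n ∈ Z := hZcl.csInf_mem hZne hbdd
  have hTpos : 0 < hT k m n := hmem.1
  have hTz : yd k m n (hT k m n) = 0 := hmem.2
  have hpos : ∀ t, 0 < t → t < hT k m n → 0 < yd k m n t := by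
    apply pos_of_no_zero (yd_cont k m n) hε hεpos
    intro t ht htT h0
    have : hT k m n ≤ t := csInf_le hbdd ⟨ht, h0⟩
    linarith
  have hrange := yf_range hk hpos
  have hmono : StrictMonoOn (yf k m n) (Icc 0 (hT k m n)) := by
    apply strictMonoOn_of_deriv_pos (convex_Icc 0 _) (yf_cont k m n).continuousOn
    intro x hx
    rw [interior_Icc] at hx
    exact hpos x hx.1 hx.2
  have hy0 : 0 < yf k m n (hT k m n) := by
    have := hmono (show (0:ℝ) ∈ Icc 0 (hT k m n) from ⟨le_rfl, hTpos.le⟩)
      ⟨hTpos.le, le_rfl⟩ hTpos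
    rwa [hs.y0] at this
  have hyk : yf k m n (hT k m n) ≤ k := by
    by_contra hgt
    push Not at hgt
    obtain ⟨x, hx, hx0⟩ := intermediate_value_Ioo hTpos.le (yf_cont k m n).continuousOn
      (show k ∈ Ioo (yf k m n 0) (yf k m n (hT k m n)) from ⟨by rw [hs.y0]; exact hk, hgt⟩)
    have := (hrange x hx.1 hx.2).2
    linarith
  have hyT : yf k m n (hT k m n) = k := by
    have h1 := yd_sq k m n (hT k m n)
    rw [hTz] at h1
    have h2 := hcb _ hy0.le hyk
    have h3 : 0 < 4 * yf k m n (hT k m n) *
        ((m - yf k m n (hT k m n)) * (n - yf k m n (hT k m n))) := by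
      have := lt_of_lt_of_le hc h2
      positivity
    have h4 : (4 * yf k m n (hT k m n) *
        ((m - yf k m n (hT k m n)) * (n - yf k m n (hT k m n)))) *
        (k - yf k m n (hT k m n)) = 0 := by
      unfold PP at h1
      linarith
    rcases mul_eq_zero.mp h4 with h5 | h5
    · exact absurd h5 h3.ne'
    · linarith
  refine ⟨hTpos, hyT, hTz, hpos, ?_⟩
  -- reflection
  have hrefl : ∀ t, HasDerivAt (fun t : ℝ => 2 * hT k m n - t) (-1) t := by
    intro t
    simpa using (hasDerivAt_id t).const_sub (2 * hT k m n)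
  have h := pair_unique (k := k) (m := m) (n := n)
    (y := fun t => yf k m n (2 * hT k m n - t)) (v := fun t => -yd k m n (2 * hT k m n - t))
    (y' := yf k m n) (v' := yd k m n) (t₀ := hT k m n)
    (fun t => by
      refine ((hs.hy (2 * hT k m n - t)).comp t (hrefl t)).congr_deriv ?_
      ring)
    (fun t => by
      refine (((hs.hv (2 * hT k m n - t)).comp t (hrefl t)).neg).congr_deriv ?_
      ring)
    hs.hy hs.hv (by
      show yf k m n (2 * hT k m n - hT k m n) = yf k m n (hT k m n)
      congr 1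
      ring)
    (by
      show -yd k m n (2 * hT k m n - hT k m n) = yd k m n (hT k m n)
      rw [show 2 * hT k m n - hT k m n = hT k m n by ring, hTz, neg_zero])
  exact fun t => congrFun h.1 t

theorem half_sep {k n : ℝ} (hk : 0 < k) (hkn : k < n) :
    ∀ t, 0 < t → 0 < yd k k n t ∧ 0 < yf k k n t ∧ yf k k n t < k := by
  have hs := yf_spec k k n
  obtain ⟨ε, hε, hεpos⟩ := yd_pos_small (show 0 < k * (k * n) from
    mul_pos hk (mul_pos hk (hk.trans hkn)))
  -- the equilibrium is never reached
  have hneq : ∀ t, ¬ (yf k k n t = k ∧ yd k k n t = 0) := by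
    rintro t ⟨h1, h2⟩
    have hPD : PD k k n k = 0 := by
      unfold PD
      ring
    have h := pair_unique (k := k) (m := k) (n := n) (y := yf k k n) (v := yd k k n)
      (y' := fun _ => k) (v' := fun _ => 0) (t₀ := t) hs.hy hs.hv
      (fun t => hasDerivAt_const t k)
      (fun t => by rw [hPD]; exact hasDerivAt_const t 0) h1 h2
    have h3 := congrFun h.1 0
    rw [hs.y0] at h3
    exact hk.ne h3
  have hneverk : ∀ t, yf k k n t ≠ k := by
    intro t h1
    apply hneq t
    refine ⟨h1, ?_⟩
    have h2 := yd_sq k k n t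
    rw [h1] at h2
    have h3 : PP k k n k = 0 := by
      unfold PP
      ring
    rw [h3] at h2
    exact pow_eq_zero_iff (two_ne_zero) |>.mp h2
  have hltk : ∀ t, 0 ≤ t → yf k k n t < k := by
    intro t ht
    by_contra hge
    push Not at hge
    obtain ⟨x, -, hx0⟩ := intermediate_value_Icc ht (yf_cont k k n).continuousOn
      (show k ∈ Icc (yf k k n 0) (yf k k n t) from ⟨by rw [hs.y0]; exact hk.le, hge⟩)
    exact hneverk x hx0
  have hpos : ∀ t, 0 < t → 0 < yd k k n t := by
    by_contra hno
    push Not at hno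
    obtain ⟨t₁, ht₁, hle₁⟩ := hno
    -- there is a first zero
    set Z : Set ℝ := {t : ℝ | 0 < t ∧ yd k k n t = 0} with hZ
    have hZne : Z.Nonempty := by
      by_contra hemp
      rw [Set.not_nonempty_iff_eq_empty] at hemp
      have h1 : ∀ t, 0 < t → t < t₁ + 1 → yd k k n t ≠ 0 := by
        intro t ht _ h0
        have : t ∈ Z := ⟨ht, h0⟩
        rw [hemp] at this
        exact this
      have := pos_of_no_zero (yd_cont k k n) hε hεpos h1 t₁ ht₁ (by linarith)
      linarith
    have hZlow : ∀ t ∈ Z, ε ≤ t := by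
      rintro t ⟨h1, h2⟩
      by_contra hlt
      push Not at hlt
      exact (hεpos t h1 hlt).ne' h2
    have hZcl : IsClosed Z := by
      have : Z = Ici ε ∩ {t | yd k k n t = 0} := by
        ext t
        constructor
        · intro h
          exact ⟨hZlow t h, h.2⟩
        · rintro ⟨h1, h2⟩
          exact ⟨lt_of_lt_of_le hε h1, h2⟩
      rw [this]
      exact isClosed_Ici.inter (isClosed_eq (yd_cont k k n) continuous_const)
    have hbdd : BddBelow Z := ⟨ε, hZlow⟩
    set T := sInf Z with hT
    have hmem : T ∈ Z := hZcl.csInf_mem hZne hbdd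
    have hp : ∀ t, 0 < t → t < T → 0 < yd k k n t := by
      apply pos_of_no_zero (yd_cont k k n) hε hεpos
      intro t ht htT h0
      have : T ≤ t := csInf_le hbdd ⟨ht, h0⟩
      linarith
    have hmono : StrictMonoOn (yf k k n) (Icc 0 T) := by
      apply strictMonoOn_of_deriv_pos (convex_Icc 0 _) (yf_cont k k n).continuousOn
      intro x hx
      rw [interior_Icc] at hx
      exact hp x hx.1 hx.2
    have hy0 : 0 < yf k k n T := by
      have := hmono (show (0:ℝ) ∈ Icc 0 T from ⟨le_rfl, hmem.1.le⟩)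
        ⟨hmem.1.le, le_rfl⟩ hmem.1
      rwa [hs.y0] at this
    have hyk := hltk T hmem.1.le
    have h1 := yd_sq k k n T
    rw [hmem.2] at h1
    have h2 : 0 < PP k k n (yf k k n T) := by
      unfold PP
      have a1 : 0 < k - yf k k n T := by linarith
      have a2 : 0 < n - yf k k n T := by linarith
      positivity
    rw [← h1] at h2
    norm_num at h2
  intro t ht
  refine ⟨hpos t ht, ?_, hltk t ht.le⟩
  exact (yf_range hk (T := t + 1) (fun s hs _ => hpos s hs) t ht (by linarith)).1

end

end Pool.Agent.CutS3
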