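import Pool.Agent.CutS3.Defs
import Pool.Agent.CutS3.Ya

set_option autoImplicit false
set_option linter.unusedVariables false

namespace Pool.Agent.CutS3

open Set Quaternion

noncomputable section

/-! ############ Module YREL1 : ranges and Moebius relations ############ -/

namespace YrelAux

theorem cont_yf (k m n : ℝ) : Continuous (yf k m n) :=
  continuous_iff_continuousAt.2 fun t => ((yf_spec k m n).hy t).continuousAt

/-- the range of the solution -/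
theorem range_half {k m n : ℝ} (hk : 0 < k) (hmn : 0 < m * n) (hm : m < 0 ∨ k < m)
    (hn : n < 0 ∨ k < n) (t : ℝ) : 0 ≤ yf k m n t ∧ yf k m n t ≤ k := by
  have y0 : yf k m n 0 = 0 := (yf_spec k m n).y0
  have hivt : ∀ w, (w ∈ uIcc (yf k m n 0) (yf k m n t)) → 0 ≤ PP k m n w := by
    intro w hw
    obtain ⟨s, -, hs⟩ := intermediate_value_uIcc (cont_yf k m n).continuousOn hw
    rw [← hs, ← yd_sq]
    positivity
  have hsame : (m < 0 ∧ n < 0) ∨ (k < m ∧ k < n) := by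
    rcases hm with hm | hm <;> rcases hn with hn | hn
    · exact Or.inl ⟨hm, hn⟩
    · exfalso
      have : m * n < 0 := mul_neg_of_neg_of_pos hm (hk.trans hn)
      linarith
    · exfalso
      have : m * n < 0 := mul_neg_of_pos_of_neg (hk.trans hm) hn
      linarith
    · exact Or.inr ⟨hm, hn⟩
  constructor
  · by_contra hlt
    push Not at hlt
    -- a value between `yf t` and `0`, above the negative roots
    obtain ⟨w, hw1, hw0, hwm⟩ : ∃ w, yf k m n t < w ∧ w < 0 ∧ 0 < (m - w) * (n - w) := by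
      rcases hsame with ⟨h1, h2⟩ | ⟨h1, h2⟩
      · obtain ⟨w, hwa, hwb⟩ := exists_between
          (show max (yf k m n t) (max m n) < 0 from max_lt hlt (max_lt h1 h2))
        have e1 := (le_max_left (yf k m n t) (max m n)).trans_lt hwa
        have e2 := ((le_max_left m n).trans (le_max_right (yf k m n t) (max m n))).trans_lt hwa
        have e3 := ((le_max_right m n).trans (le_max_right (yf k m n t) (max m n))).trans_lt hwa
        exact ⟨w, e1, hwb, mul_pos_of_neg_of_neg (by linarith) (by linarith)⟩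
      · obtain ⟨w, hwa, hwb⟩ := exists_between hlt
        exact ⟨w, hwa, hwb, mul_pos (by linarith) (by linarith)⟩
    have h := hivt w (by
      rw [y0, uIcc_of_ge hlt.le]
      exact ⟨hw1.le, hw0.le⟩)
    have hpp : PP k m n w = 4 * w * (k - w) * ((m - w) * (n - w)) := by unfold PP; ring
    rw [hpp] at h
    have : 4 * w * (k - w) < 0 := mul_neg_of_neg_of_pos (by linarith) (by linarith)
    have := mul_neg_of_neg_of_pos this hwm
    linarith
  · by_contra hlt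
    push Not at hlt
    obtain ⟨w, hw1, hw0, hwm⟩ : ∃ w, w < yf k m n t ∧ k < w ∧ 0 < (m - w) * (n - w) := by
      rcases hsame with ⟨h1, h2⟩ | ⟨h1, h2⟩
      · obtain ⟨w, hwa, hwb⟩ := exists_between hlt
        exact ⟨w, hwb, hwa, mul_pos_of_neg_of_neg (by linarith) (by linarith)⟩
      · obtain ⟨w, hwa, hwb⟩ := exists_between
          (show k < min (yf k m n t) (min m n) from lt_min hlt (lt_min h1 h2))
        have e1 := hwb.trans_le (min_le_left (yf k m n t) (min m n))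
        have e2 := hwb.trans_le ((min_le_right (yf k m n t) (min m n)).trans (min_le_left m n))
        have e3 := hwb.trans_le ((min_le_right (yf k m n t) (min m n)).trans (min_le_right m n))
        exact ⟨w, e1, hwa, mul_pos (by linarith) (by linarith)⟩
    have h := hivt w (by
      rw [y0, uIcc_of_le (hk.le.trans hlt.le)]
      exact ⟨(hk.trans hw0).le, hw1.le⟩)
    have hpp : PP k m n w = 4 * w * (k - w) * ((m - w) * (n - w)) := by unfold PP; ring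
    rw [hpp] at h
    have : 4 * w * (k - w) < 0 := mul_neg_of_pos_of_neg (by linarith) (by linarith)
    have := mul_neg_of_neg_of_pos this hwm
    linarith

/-- the range at the separatrix -/
theorem range_sep {k n : ℝ} (hk : 0 < k) (hkn : k < n) (t : ℝ) :
    0 ≤ yf k k n t ∧ yf k k n t < k := by
  rcases lt_trichotomy t 0 with h | h | h
  · have := half_sep hk hkn (-t) (by linarith)
    rw [yf_even] at this
    exact ⟨this.2.1.le, this.2.2⟩
  · subst h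
    rw [(yf_spec k k n).y0]
    exact ⟨le_rfl, hk⟩
  · have := half_sep hk hkn t h
    exact ⟨this.2.1.le, this.2.2⟩

/-- the range for `0 ≤ k ≤ n`, `0 < m < n` -/
theorem range_gen {k m n : ℝ} (hk : 0 ≤ k) (hkn : k ≤ n) (hm : 0 < m) (hmn : m < n) (t : ℝ) :
    0 ≤ yf k m n t ∧ yf k m n t ≤ k ∧ yf k m n t ≤ m := by
  rcases hk.eq_or_lt with h0 | h0
  · subst h0
    rw [yf_zero]
    exact ⟨le_rfl, le_rfl, hm.le⟩
  rcases lt_trichotomy k m with h | h | h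
  · have := range_half h0 (mul_pos hm (hm.trans hmn)) (Or.inr h) (Or.inr (h.trans hmn)) t
    exact ⟨this.1, this.2, this.2.trans h.le⟩
  · subst h
    have := range_sep hm hmn t
    exact ⟨this.1, this.2.le, this.2.le⟩
  · have := range_half hm (mul_pos h0 (hm.trans hmn)) (Or.inr h) (Or.inr hmn) t
    rw [yf_swap12 k m n]
    exact ⟨this.1, this.2.trans h.le, this.2⟩

/-- transport by a Moebius map, general form -/
theorem moebius_isY {k m n k' m' n' A B C : ℝ} {y v : ℝ → ℝ} (h : IsY k m n y v)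
    (hsq : ∀ t, v t ^ 2 = PP k m n (y t)) (hD : ∀ t, B - C * y t ≠ 0)
    (hid : ∀ x, B - C * x ≠ 0 → 2 * A * B * C / (B - C * x) ^ 3 * PP k m n x
      + A * B / (B - C * x) ^ 2 * PD k m n x = PD k' m' n' (A * x / (B - C * x))) :
    IsY k' m' n' (fun t => A * y t / (B - C * y t))
      (fun t => A * B / (B - C * y t) ^ 2 * v t) := by
  refine ⟨?_, ?_, ?_, ?_⟩
  · simp [h.y0]
  · simp [h.v0]
  · intro t
    have h1 := (h.hy t).const_mul A
    have h2 := ((h.hy t).const_mul C).const_sub B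
    have h3 : HasDerivAt (fun t => A * y t / (B - C * y t))
        ((A * v t * (B - C * y t) - A * y t * -(C * v t)) / (B - C * y t) ^ 2) t :=
      h1.fun_div h2 (hD t)
    refine h3.congr_deriv ?_
    have := hD t
    field_simp
    ring
  · intro t
    have h2 : HasDerivAt (fun t => B - C * y t) (-(C * v t)) t :=
      ((h.hy t).const_mul C).const_sub B
    have h3 : HasDerivAt (fun t => (B - C * y t) ^ 2)
        (((2 : ℕ) : ℝ) * (B - C * y t) ^ (2 - 1) * -(C * v t)) t := h2.fun_pow 2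
    have h4 : HasDerivAt (fun t => A * B / (B - C * y t) ^ 2)
        ((0 * (B - C * y t) ^ 2 - A * B *
          (((2 : ℕ) : ℝ) * (B - C * y t) ^ (2 - 1) * -(C * v t))) / ((B - C * y t) ^ 2) ^ 2) t :=
      (hasDerivAt_const t (A * B)).fun_div h3 (pow_ne_zero 2 (hD t))
    have h5 := h4.fun_mul (h.hv t)
    have h6 : HasDerivAt (fun t => A * B / (B - C * y t) ^ 2 * v t)
        (2 * A * B * C / (B - C * y t) ^ 3 * PP k m n (y t)
          + A * B / (B - C * y t) ^ 2 * PD k m n (y t)) t := by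
      rw [← hsq t]
      refine h5.congr_deriv ?_
      have := hD t
      push_cast
      field_simp
      ring
    rw [← hid (y t) (hD t)]
    exact h6

end YrelAux

section yrel
variable {a₁ a₂ a₃ r τ : ℝ}

theorem isY1 (a₁ a₂ a₃ r : ℝ) : IsY (a₁ - r) (a₁ - a₂) (a₁ - a₃) (y1 a₁ a₂ a₃ r) (v1 a₁ a₂ a₃ r) :=
  yf_spec _ _ _
theorem isY2 (a₁ a₂ a₃ r : ℝ) : IsY (a₂ - r) (a₂ - a₃) (a₂ - a₁) (y2 a₁ a₂ a₃ r) (v2 a₁ a₂ a₃ r) :=
  yf_spec _ _ _
theorem isY3 (a₁ a₂ a₃ r : ℝ) : IsY (a₃ - r) (a₃ - a₁) (a₃ - a₂) (y3 a₁ a₂ a₃ r) (v3 a₁ a₂ a₃ r) :=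
  yf_spec _ _ _

/-- the equation of `-y₃` -/
theorem YrelAux.neg_y3 (a₁ a₂ a₃ r τ : ℝ) :
    -y3 a₁ a₂ a₃ r τ = yf (r - a₃) (a₂ - a₃) (a₁ - a₃) τ := by
  unfold y3
  rw [← yf_neg, yf_swap23]
  congr 1 <;> ring

theorem YrelAux.neg_y2 (a₁ a₂ a₃ r τ : ℝ) :
    -y2 a₁ a₂ a₃ r τ = yf (r - a₂) (a₃ - a₂) (a₁ - a₂) τ := by
  unfold y2
  rw [← yf_neg]
  congr 1 <;> ring

theorem y1_range (h12 : a₂ < a₁) (h23 : a₃ < a₂) (hr : r ∈ Icc a₃ a₁) (τ : ℝ) :
    0 ≤ y1 a₁ a₂ a₃ r τ ∧ y1 a₁ a₂ a₃ r τ ≤ a₁ - r ∧ y1 a₁ a₂ a₃ r τ ≤ a₁ - a₂ :=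
  YrelAux.range_gen (by linarith [hr.2]) (by linarith [hr.1]) (by linarith) (by linarith) τ

theorem y3_range (h12 : a₂ < a₁) (h23 : a₃ < a₂) (hr : r ∈ Icc a₃ a₁) (τ : ℝ) :
    y3 a₁ a₂ a₃ r τ ≤ 0 ∧ -y3 a₁ a₂ a₃ r τ ≤ r - a₃ ∧ -y3 a₁ a₂ a₃ r τ ≤ a₂ - a₃ := by
  have h := YrelAux.range_gen (k := r - a₃) (m := a₂ - a₃) (n := a₁ - a₃) (by linarith [hr.1])
    (by linarith [hr.2]) (by linarith) (by linarith) τ
  rw [← YrelAux.neg_y3] at h
  exact ⟨by linarith [h.1], h.2.1, h.2.2⟩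

theorem y2_rangeI (h12 : a₂ < a₁) (h23 : a₃ < a₂) (hr : r ∈ Icc a₂ a₁) (τ : ℝ) :
    0 ≤ y2 a₁ a₂ a₃ r τ ∧ y2 a₁ a₂ a₃ r τ ≤ a₂ - a₃ := by
  rcases hr.1.eq_or_lt with h | h
  · have : y2 a₁ a₂ a₃ r τ = 0 := by
      unfold y2
      rw [← h, sub_self, yf_zero]
    rw [this]
    exact ⟨le_rfl, by linarith⟩
  · have := YrelAux.range_half (k := a₂ - a₃) (m := a₂ - r) (n := a₂ - a₁) (by linarith)
      (mul_pos_of_neg_of_neg (by linarith) (by linarith)) (Or.inl (by linarith))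
      (Or.inl (by linarith)) τ
    rw [yf_swap12] at this
    exact this

theorem y2_rangeT (h12 : a₂ < a₁) (h23 : a₃ < a₂) (hr : r ∈ Icc a₃ a₂) (τ : ℝ) :
    y2 a₁ a₂ a₃ r τ ≤ 0 ∧ -y2 a₁ a₂ a₃ r τ ≤ a₁ - a₂ := by
  rcases hr.2.eq_or_lt with h | h
  · have : y2 a₁ a₂ a₃ r τ = 0 := by
      unfold y2
      rw [h, sub_self, yf_zero]
    rw [this]
    exact ⟨le_rfl, by linarith⟩
  · have := YrelAux.range_half (k := a₁ - a₂) (m := r - a₂) (n := a₃ - a₂) (by linarith)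
      (mul_pos_of_neg_of_neg (by linarith) (by linarith)) (Or.inl (by linarith))
      (Or.inl (by linarith)) τ
    rw [yf_swap12, yf_swap23, ← YrelAux.neg_y2] at this
    exact ⟨by linarith [this.1], this.2⟩

/-- positivity of the first denominator -/
theorem YrelAux.den2 (h12 : a₂ < a₁) (h23 : a₃ < a₂) (hr : r ∈ Ico a₃ a₁) (h2 : r ≠ a₂) (τ : ℝ) :
    0 < (a₁ - a₃) * (a₁ - r) - y1 a₁ a₂ a₃ r τ * ((a₁ - r) + (a₂ - a₃)) := by
  obtain ⟨h0, hk, hm⟩ := y1_range h12 h23 ⟨hr.1, hr.2.le⟩ τ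
  have hr1 := hr.1
  have hr2 := hr.2
  rcases lt_or_gt_of_ne h2 with h | h
  · -- type III
    have h3 := mul_le_mul_of_nonneg_right hm (show 0 ≤ (a₁ - r) + (a₂ - a₃) by linarith)
    have h4 : 0 < (a₂ - a₃) * (a₂ - r) := mul_pos (by linarith) (by linarith)
    nlinarith
  · have h3 := mul_le_mul_of_nonneg_right hk (show 0 ≤ (a₁ - r) + (a₂ - a₃) by linarith)
    have h4 : 0 < (a₁ - r) * (r - a₂) := mul_pos (by linarith) (by linarith)
    nlinarith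

theorem moebius2 (h12 : a₂ < a₁) (h23 : a₃ < a₂) (hr : r ∈ Ico a₃ a₁) (τ : ℝ) :
    y2 a₁ a₂ a₃ r τ * ((a₁ - a₃) * (a₁ - r) - y1 a₁ a₂ a₃ r τ * ((a₁ - r) + (a₂ - a₃)))
      = (a₂ - a₃) * (r - a₂) * y1 a₁ a₂ a₃ r τ ∧
    0 ≤ (a₁ - a₃) * (a₁ - r) - y1 a₁ a₂ a₃ r τ * ((a₁ - r) + (a₂ - a₃)) ∧
    (r ≠ a₂ → 0 < (a₁ - a₃) * (a₁ - r) - y1 a₁ a₂ a₃ r τ * ((a₁ - r) + (a₂ - a₃))) := by
  by_cases h2 : r = a₂
  · have h0 : y2 a₁ a₂ a₃ r τ = 0 := by
      unfold y2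
      rw [h2, sub_self, yf_zero]
    have h1 := (y1_range h12 h23 ⟨hr.1, hr.2.le⟩ τ).2.2
    refine ⟨by rw [h0, h2]; ring, ?_, fun h => absurd h2 h⟩
    have h3 : 0 ≤ (a₁ - a₃) * (a₁ - a₂ - y1 a₁ a₂ a₃ r τ) :=
      mul_nonneg (by linarith) (by linarith)
    subst h2
    nlinarith
  · have hD := fun t => YrelAux.den2 h12 h23 hr h2 t
    refine ⟨?_, (hD τ).le, fun _ => hD τ⟩
    have hD' : ∀ t, (a₁ - a₃) * (a₁ - r) - ((a₁ - r) + (a₂ - a₃)) * y1 a₁ a₂ a₃ r t ≠ 0 := by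
      intro t
      have := hD t
      rw [mul_comm (y1 a₁ a₂ a₃ r t)] at this
      exact this.ne'
    have hY := YrelAux.moebius_isY (k' := a₂ - r) (m' := a₂ - a₃) (n' := a₂ - a₁)
      (A := (a₂ - a₃) * (r - a₂)) (B := (a₁ - a₃) * (a₁ - r)) (C := (a₁ - r) + (a₂ - a₃))
      (isY1 a₁ a₂ a₃ r) (fun t => yd_sq _ _ _ t) hD' (by
        intro x hx
        unfold PP PD
        field_simp
        ring)
    have := congrFun (yf_unique hY).1 τ
    have h7 : y2 a₁ a₂ a₃ r τ = (a₂ - a₃) * (r - a₂) * y1 a₁ a₂ a₃ r τ /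
        ((a₁ - a₃) * (a₁ - r) - ((a₁ - r) + (a₂ - a₃)) * y1 a₁ a₂ a₃ r τ) := this.symm
    rw [h7, mul_comm (y1 a₁ a₂ a₃ r τ) ((a₁ - r) + (a₂ - a₃)), div_mul_cancel₀ _ (hD' τ)]

/-- positivity of the second denominator -/
theorem YrelAux.den3 (h12 : a₂ < a₁) (h23 : a₃ < a₂) (hr : r ∈ Ico a₃ a₁) (τ : ℝ) :
    0 < (a₁ - a₂) * (a₁ - r) - y1 a₁ a₂ a₃ r τ * ((a₁ - r) - (a₂ - a₃)) := by
  obtain ⟨h0, hk, hm⟩ := y1_range h12 h23 ⟨hr.1, hr.2.le⟩ τ
  have hr1 := hr.1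
  have hr2 := hr.2
  rcases le_or_gt ((a₁ - r) - (a₂ - a₃)) 0 with h | h
  · have h3 : 0 ≤ y1 a₁ a₂ a₃ r τ * -((a₁ - r) - (a₂ - a₃)) := mul_nonneg h0 (by linarith)
    have h4 : 0 < (a₁ - a₂) * (a₁ - r) := mul_pos (by linarith) (by linarith)
    nlinarith
  · rcases le_or_gt r a₂ with h2 | h2
    · -- type III
      have h3 := mul_le_mul_of_nonneg_right hm h.le
      have h4 : 0 < (a₁ - a₂) * (a₂ - a₃) := mul_pos (by linarith) (by linarith)
      nlinarith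
    · have h3 := mul_le_mul_of_nonneg_right hk h.le
      have h4 : 0 < (a₁ - r) * (r - a₃) := mul_pos (by linarith) (by linarith)
      nlinarith

theorem moebius3 (h12 : a₂ < a₁) (h23 : a₃ < a₂) (hr : r ∈ Ico a₃ a₁) (τ : ℝ) :
    -y3 a₁ a₂ a₃ r τ * ((a₁ - a₂) * (a₁ - r) - y1 a₁ a₂ a₃ r τ * ((a₁ - r) - (a₂ - a₃)))
      = (a₂ - a₃) * (r - a₃) * y1 a₁ a₂ a₃ r τ ∧
    0 < (a₁ - a₂) * (a₁ - r) - y1 a₁ a₂ a₃ r τ * ((a₁ - r) - (a₂ - a₃)) := by
  have hD := fun t => YrelAux.den3 h12 h23 hr t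
  refine ⟨?_, hD τ⟩
  have hD' : ∀ t, (a₁ - a₂) * (a₁ - r) - ((a₁ - r) - (a₂ - a₃)) * y1 a₁ a₂ a₃ r t ≠ 0 := by
    intro t
    have := hD t
    rw [mul_comm (y1 a₁ a₂ a₃ r t)] at this
    exact this.ne'
  have hY := YrelAux.moebius_isY (k' := a₃ - r) (m' := a₃ - a₁) (n' := a₃ - a₂)
    (A := -((a₂ - a₃) * (r - a₃))) (B := (a₁ - a₂) * (a₁ - r)) (C := (a₁ - r) - (a₂ - a₃))
    (isY1 a₁ a₂ a₃ r) (fun t => yd_sq _ _ _ t) hD' (by
      intro x hx
      unfold PP PD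
      field_simp
      ring)
  have := congrFun (yf_unique hY).1 τ
  have h7 : y3 a₁ a₂ a₃ r τ = -((a₂ - a₃) * (r - a₃)) * y1 a₁ a₂ a₃ r τ /
      ((a₁ - a₂) * (a₁ - r) - ((a₁ - r) - (a₂ - a₃)) * y1 a₁ a₂ a₃ r τ) := this.symm
  rw [h7, mul_comm (y1 a₁ a₂ a₃ r τ) ((a₁ - r) - (a₂ - a₃)), neg_mul, div_mul_cancel₀ _ (hD' τ)]
  ring

end yrel

end

end Pool.Agent.CutS3
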