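import Pool.Agent.CutS3.Defs
import Pool.Agent.CutS3.Ya
import Pool.Agent.CutS3.Yrel1

set_option autoImplicit false
set_option linter.unusedVariables false

namespace Pool.Agent.CutS3

open Set Quaternion

noncomputable section

/-! ############ Module YREL2 : the common half period, signs and strict inequalities ############ -/

namespace YrelAux

theorem hT_swap12 (k m n : ℝ) : hT k m n = hT m k n := by
  unfold hT yd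
  rw [yf_swap12]

theorem yd_swap12 (k m n : ℝ) : yd k m n = yd m k n := by
  unfold yd
  rw [yf_swap12]

/-- strict monotonicity on the first half -/
theorem strictMono_half {k m n : ℝ} (hk : 0 < k) (hmn : 0 < m * n) (hm : m < 0 ∨ k < m)
    (hn : n < 0 ∨ k < n) : StrictMonoOn (yf k m n) (Icc 0 (hT k m n)) := by
  obtain ⟨h0, h1, h2, h3, h4⟩ := half hk hmn hm hn
  refine strictMonoOn_of_deriv_pos (convex_Icc _ _) (cont_yf k m n).continuousOn ?_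
  intro t ht
  rw [interior_Icc] at ht
  exact h3 t ht.1 ht.2

/-- strict inequalities inside the period -/
theorem strict_half {k m n : ℝ} (hk : 0 < k) (hmn : 0 < m * n) (hm : m < 0 ∨ k < m)
    (hn : n < 0 ∨ k < n) {t : ℝ} (h0 : 0 < t) (ht : t < 2 * hT k m n) :
    0 < yf k m n t ∧ (t ≠ hT k m n → yf k m n t < k) := by
  obtain ⟨hp, h1, h2, h3, h4⟩ := half hk hmn hm hn
  have hmono := strictMono_half hk hmn hm hn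
  have key : ∀ s, 0 < s → s ≤ hT k m n →
      0 < yf k m n s ∧ (s ≠ hT k m n → yf k m n s < k) := by
    intro s hs hs'
    constructor
    · have := hmono ⟨le_rfl, hp.le⟩ ⟨hs.le, hs'⟩ hs
      rwa [(yf_spec k m n).y0] at this
    · intro hne
      have := hmono ⟨hs.le, hs'⟩ ⟨hp.le, le_rfl⟩ (lt_of_le_of_ne hs' hne)
      rwa [h1] at this
  rcases le_or_gt t (hT k m n) with h | h
  · exact key t h0 h
  · have := key (2 * hT k m n - t) (by linarith) (by linarith)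
    rw [h4] at this
    exact ⟨this.1, fun hne => this.2 (by intro he; apply hne; linarith)⟩

end YrelAux

section yrel
variable {a₁ a₂ a₃ r τ : ℝ}

/-- the data of `y₁` on the common half period, both types at once: `k` is the smaller of
`a₁ - r` and `a₁ - a₂`, `k'` the larger one -/
theorem YrelAux.common (h12 : a₂ < a₁) (h23 : a₃ < a₂) (hr : r ∈ Ico a₃ a₁) (h2 : r ≠ a₂) :
    ∃ k k' : ℝ, 0 < k ∧ k < k' ∧ k < a₁ - a₃ ∧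
      ((a₂ < r ∧ k = a₁ - r ∧ k' = a₁ - a₂) ∨ (r < a₂ ∧ k = a₁ - a₂ ∧ k' = a₁ - r)) ∧
      y1 a₁ a₂ a₃ r = yf k k' (a₁ - a₃) ∧ v1 a₁ a₂ a₃ r = yd k k' (a₁ - a₃) ∧
      Ts a₁ a₂ a₃ r = hT k k' (a₁ - a₃) := by
  have hr2 := hr.2
  rcases lt_or_gt_of_ne h2 with h | h
  · refine ⟨a₁ - a₂, a₁ - r, by linarith, by linarith, by linarith, Or.inr ⟨h, rfl, rfl⟩, ?_, ?_, ?_⟩
    · unfold y1
      rw [yf_swap12]
    · unfold v1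
      rw [YrelAux.yd_swap12]
    · unfold Ts
      rw [YrelAux.hT_swap12]
  · exact ⟨a₁ - r, a₁ - a₂, by linarith, by linarith, by linarith, Or.inl ⟨h, rfl, rfl⟩, rfl,
      rfl, rfl⟩

/-- common half period, values there -/
theorem Ts_pos (h12 : a₂ < a₁) (h23 : a₃ < a₂) (hr : r ∈ Ico a₃ a₁) (h2 : r ≠ a₂) :
    0 < Ts a₁ a₂ a₃ r := by
  obtain ⟨k, k', hk, hkk, hk3, -, -, -, hT'⟩ := YrelAux.common h12 h23 hr h2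
  rw [hT']
  exact (half hk (mul_pos (hk.trans hkk) (hk.trans hk3)) (Or.inr hkk) (Or.inr hk3)).1

theorem TsI (h12 : a₂ < a₁) (h23 : a₃ < a₂) (hr : r ∈ Ioo a₂ a₁) :
    y1 a₁ a₂ a₃ r (Ts a₁ a₂ a₃ r) = a₁ - r ∧ y2 a₁ a₂ a₃ r (Ts a₁ a₂ a₃ r) = a₂ - a₃ ∧
    y3 a₁ a₂ a₃ r (Ts a₁ a₂ a₃ r) = a₃ - a₂ := by
  have hr' : r ∈ Ico a₃ a₁ := ⟨(h23.trans hr.1).le, hr.2⟩
  have hr1 := hr.1
  have hr2 := hr.2
  have h1 : y1 a₁ a₂ a₃ r (Ts a₁ a₂ a₃ r) = a₁ - r :=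
    (half (k := a₁ - r) (m := a₁ - a₂) (n := a₁ - a₃) (by linarith)
      (mul_pos (by linarith) (by linarith)) (Or.inr (by linarith)) (Or.inr (by linarith))).2.1
  have hm2 := (moebius2 h12 h23 hr' (Ts a₁ a₂ a₃ r)).1
  have hm3 := (moebius3 h12 h23 hr' (Ts a₁ a₂ a₃ r)).1
  rw [h1] at hm2 hm3
  refine ⟨h1, ?_, ?_⟩
  · have hne : (a₁ - r) * (r - a₂) ≠ 0 := (mul_pos (by linarith) (by linarith)).ne'
    apply mul_right_cancel₀ hne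
    linear_combination hm2
  · have hne : (a₁ - r) * (r - a₃) ≠ 0 := (mul_pos (by linarith) (by linarith)).ne'
    apply mul_right_cancel₀ hne
    linear_combination -hm3

theorem TsT (h12 : a₂ < a₁) (h23 : a₃ < a₂) (hr : r ∈ Ico a₃ a₂) :
    y1 a₁ a₂ a₃ r (Ts a₁ a₂ a₃ r) = a₁ - a₂ ∧ y2 a₁ a₂ a₃ r (Ts a₁ a₂ a₃ r) = a₂ - a₁ ∧
    y3 a₁ a₂ a₃ r (Ts a₁ a₂ a₃ r) = a₃ - r := by
  have hr' : r ∈ Ico a₃ a₁ := ⟨hr.1, hr.2.trans h12⟩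
  have hr1 := hr.1
  have hr2 := hr.2
  have h1 : y1 a₁ a₂ a₃ r (Ts a₁ a₂ a₃ r) = a₁ - a₂ := by
    unfold y1 Ts
    rw [yf_swap12, YrelAux.hT_swap12]
    exact (half (k := a₁ - a₂) (m := a₁ - r) (n := a₁ - a₃) (by linarith)
      (mul_pos (by linarith) (by linarith)) (Or.inr (by linarith)) (Or.inr (by linarith))).2.1
  have hm2 := (moebius2 h12 h23 hr' (Ts a₁ a₂ a₃ r)).1
  have hm3 := (moebius3 h12 h23 hr' (Ts a₁ a₂ a₃ r)).1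
  rw [h1] at hm2 hm3
  refine ⟨h1, ?_, ?_⟩
  · have hne : (a₂ - a₃) * (a₂ - r) ≠ 0 := (mul_pos (by linarith) (by linarith)).ne'
    apply mul_right_cancel₀ hne
    linear_combination hm2
  · have hne : (a₁ - a₂) * (a₂ - a₃) ≠ 0 := (mul_pos (by linarith) (by linarith)).ne'
    apply mul_right_cancel₀ hne
    linear_combination -hm3

theorem YrelAux.deriv_refl {y v : ℝ → ℝ} (hy : ∀ t, HasDerivAt y (v t) t) {c : ℝ}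
    (h : ∀ t, y (c - t) = y t) (t : ℝ) : v (c - t) = -v t := by
  have h1 : HasDerivAt (fun s => y (c - s)) (-v (c - t)) t := by
    have := (hy (c - t)).comp_const_sub c t
    simpa using this
  have h2 : (fun s => y (c - s)) = y := funext h
  rw [h2] at h1
  have := h1.unique (hy t)
  linarith

theorem YrelAux.y1_refl (h12 : a₂ < a₁) (h23 : a₃ < a₂) (hr : r ∈ Ico a₃ a₁) (h2 : r ≠ a₂)
    (τ : ℝ) : y1 a₁ a₂ a₃ r (2 * Ts a₁ a₂ a₃ r - τ) = y1 a₁ a₂ a₃ r τ := by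
  obtain ⟨k, k', hk, hkk, hk3, -, hy, -, hT'⟩ := YrelAux.common h12 h23 hr h2
  rw [hT', hy]
  exact (half hk (mul_pos (hk.trans hkk) (hk.trans hk3)) (Or.inr hkk) (Or.inr hk3)).2.2.2.2 τ

theorem YrelAux.y2_refl (h12 : a₂ < a₁) (h23 : a₃ < a₂) (hr : r ∈ Ico a₃ a₁) (h2 : r ≠ a₂)
    (τ : ℝ) : y2 a₁ a₂ a₃ r (2 * Ts a₁ a₂ a₃ r - τ) = y2 a₁ a₂ a₃ r τ := by
  have e := YrelAux.y1_refl h12 h23 hr h2 τ
  obtain ⟨a1, -, a3⟩ := moebius2 h12 h23 hr (2 * Ts a₁ a₂ a₃ r - τ)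
  obtain ⟨b1, -, b3⟩ := moebius2 h12 h23 hr τ
  rw [e] at a1
  have hD := (b3 h2).ne'
  exact mul_right_cancel₀ hD (a1.trans b1.symm)

theorem YrelAux.y3_refl (h12 : a₂ < a₁) (h23 : a₃ < a₂) (hr : r ∈ Ico a₃ a₁) (h2 : r ≠ a₂)
    (τ : ℝ) : y3 a₁ a₂ a₃ r (2 * Ts a₁ a₂ a₃ r - τ) = y3 a₁ a₂ a₃ r τ := by
  have e := YrelAux.y1_refl h12 h23 hr h2 τ
  obtain ⟨a1, -⟩ := moebius3 h12 h23 hr (2 * Ts a₁ a₂ a₃ r - τ)
  obtain ⟨b1, b3⟩ := moebius3 h12 h23 hr τ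
  rw [e] at a1
  exact neg_inj.1 (mul_right_cancel₀ b3.ne' (a1.trans b1.symm))

theorem y_refl (h12 : a₂ < a₁) (h23 : a₃ < a₂) (hr : r ∈ Ico a₃ a₁) (h2 : r ≠ a₂) (τ : ℝ) :
    y1 a₁ a₂ a₃ r (2 * Ts a₁ a₂ a₃ r - τ) = y1 a₁ a₂ a₃ r τ ∧
    y2 a₁ a₂ a₃ r (2 * Ts a₁ a₂ a₃ r - τ) = y2 a₁ a₂ a₃ r τ ∧
    y3 a₁ a₂ a₃ r (2 * Ts a₁ a₂ a₃ r - τ) = y3 a₁ a₂ a₃ r τ ∧
    v1 a₁ a₂ a₃ r (2 * Ts a₁ a₂ a₃ r - τ) = -v1 a₁ a₂ a₃ r τ ∧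
    v2 a₁ a₂ a₃ r (2 * Ts a₁ a₂ a₃ r - τ) = -v2 a₁ a₂ a₃ r τ ∧
    v3 a₁ a₂ a₃ r (2 * Ts a₁ a₂ a₃ r - τ) = -v3 a₁ a₂ a₃ r τ :=
  ⟨YrelAux.y1_refl h12 h23 hr h2 τ, YrelAux.y2_refl h12 h23 hr h2 τ,
    YrelAux.y3_refl h12 h23 hr h2 τ,
    YrelAux.deriv_refl (isY1 a₁ a₂ a₃ r).hy (YrelAux.y1_refl h12 h23 hr h2) τ,
    YrelAux.deriv_refl (isY2 a₁ a₂ a₃ r).hy (YrelAux.y2_refl h12 h23 hr h2) τ,
    YrelAux.deriv_refl (isY3 a₁ a₂ a₃ r).hy (YrelAux.y3_refl h12 h23 hr h2) τ⟩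

/-- signs of the derivatives in the first half -/
theorem v1_pos (h12 : a₂ < a₁) (h23 : a₃ < a₂) (hr : r ∈ Ico a₃ a₁) (h0 : 0 < τ)
    (h : r ≠ a₂ → τ < Ts a₁ a₂ a₃ r) : 0 < v1 a₁ a₂ a₃ r τ := by
  by_cases h2 : r = a₂
  · subst h2
    exact (half_sep (k := a₁ - r) (n := a₁ - a₃) (by linarith) (by linarith) τ h0).1
  · obtain ⟨k, k', hk, hkk, hk3, -, hy, hv, hT'⟩ := YrelAux.common h12 h23 hr h2
    have h3 := h h2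
    rw [hT'] at h3
    rw [hv]
    exact (half hk (mul_pos (hk.trans hkk) (hk.trans hk3)) (Or.inr hkk) (Or.inr hk3)).2.2.2.1
      τ h0 h3

/-- derivatives of the Moebius relations -/
theorem YrelAux.v2_eq (h12 : a₂ < a₁) (h23 : a₃ < a₂) (hr : r ∈ Ico a₃ a₁) (h2 : r ≠ a₂)
    (τ : ℝ) :
    v2 a₁ a₂ a₃ r τ * ((a₁ - a₃) * (a₁ - r) - y1 a₁ a₂ a₃ r τ * ((a₁ - r) + (a₂ - a₃))) ^ 2
      = (a₂ - a₃) * (r - a₂) * ((a₁ - a₃) * (a₁ - r)) * v1 a₁ a₂ a₃ r τ := by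
  have hm := fun t => (moebius2 h12 h23 hr t).1
  have hy1 := (isY1 a₁ a₂ a₃ r).hy τ
  have hy2 := (isY2 a₁ a₂ a₃ r).hy τ
  have h3 := hy2.fun_mul ((hy1.mul_const ((a₁ - r) + (a₂ - a₃))).const_sub ((a₁ - a₃) * (a₁ - r)))
  have h4 := hy1.const_mul ((a₂ - a₃) * (r - a₂))
  have h5 : (fun t => y2 a₁ a₂ a₃ r t *
      ((a₁ - a₃) * (a₁ - r) - y1 a₁ a₂ a₃ r t * ((a₁ - r) + (a₂ - a₃))))
      = fun t => (a₂ - a₃) * (r - a₂) * y1 a₁ a₂ a₃ r t := funext hm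
  rw [h5] at h3
  have h6 := h3.unique h4
  have h7 := hm τ
  linear_combination ((a₁ - a₃) * (a₁ - r) - y1 a₁ a₂ a₃ r τ * ((a₁ - r) + (a₂ - a₃))) * h6
    + v1 a₁ a₂ a₃ r τ * ((a₁ - r) + (a₂ - a₃)) * h7

theorem YrelAux.v3_eq (h12 : a₂ < a₁) (h23 : a₃ < a₂) (hr : r ∈ Ico a₃ a₁) (τ : ℝ) :
    -v3 a₁ a₂ a₃ r τ * ((a₁ - a₂) * (a₁ - r) - y1 a₁ a₂ a₃ r τ * ((a₁ - r) - (a₂ - a₃))) ^ 2
      = (a₂ - a₃) * (r - a₃) * ((a₁ - a₂) * (a₁ - r)) * v1 a₁ a₂ a₃ r τ := by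
  have hm := fun t => (moebius3 h12 h23 hr t).1
  have hy1 := (isY1 a₁ a₂ a₃ r).hy τ
  have hy3 := ((isY3 a₁ a₂ a₃ r).hy τ).fun_neg
  have h3 := hy3.fun_mul ((hy1.mul_const ((a₁ - r) - (a₂ - a₃))).const_sub ((a₁ - a₂) * (a₁ - r)))
  have h4 := hy1.const_mul ((a₂ - a₃) * (r - a₃))
  have h5 : (fun t => -y3 a₁ a₂ a₃ r t *
      ((a₁ - a₂) * (a₁ - r) - y1 a₁ a₂ a₃ r t * ((a₁ - r) - (a₂ - a₃))))
      = fun t => (a₂ - a₃) * (r - a₃) * y1 a₁ a₂ a₃ r t := funext hm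
  rw [h5] at h3
  have h6 := h3.unique h4
  have h7 := hm τ
  linear_combination ((a₁ - a₂) * (a₁ - r) - y1 a₁ a₂ a₃ r τ * ((a₁ - r) - (a₂ - a₃))) * h6
    + v1 a₁ a₂ a₃ r τ * ((a₁ - r) - (a₂ - a₃)) * h7

theorem v3_neg (h12 : a₂ < a₁) (h23 : a₃ < a₂) (hr : r ∈ Ioo a₃ a₁) (h0 : 0 < τ)
    (h : r ≠ a₂ → τ < Ts a₁ a₂ a₃ r) : v3 a₁ a₂ a₃ r τ < 0 := by
  have hr' : r ∈ Ico a₃ a₁ := ⟨hr.1.le, hr.2⟩
  have h1 := v1_pos h12 h23 hr' h0 h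
  have h2 := YrelAux.v3_eq h12 h23 hr' τ
  have h3 : 0 < (a₂ - a₃) * (r - a₃) * ((a₁ - a₂) * (a₁ - r)) * v1 a₁ a₂ a₃ r τ :=
    mul_pos (mul_pos (mul_pos (by linarith) (by linarith [hr.1]))
      (mul_pos (by linarith) (by linarith [hr.2]))) h1
  rw [← h2] at h3
  have := pos_of_mul_pos_left h3 (sq_nonneg _)
  linarith

theorem v2_posI (h12 : a₂ < a₁) (h23 : a₃ < a₂) (hr : r ∈ Ioo a₂ a₁) (h0 : 0 < τ)
    (h : τ < Ts a₁ a₂ a₃ r) : 0 < v2 a₁ a₂ a₃ r τ := by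
  have hr' : r ∈ Ico a₃ a₁ := ⟨(h23.trans hr.1).le, hr.2⟩
  have h1 := v1_pos h12 h23 hr' h0 fun _ => h
  have h2 := YrelAux.v2_eq h12 h23 hr' hr.1.ne' τ
  have h3 : 0 < (a₂ - a₃) * (r - a₂) * ((a₁ - a₃) * (a₁ - r)) * v1 a₁ a₂ a₃ r τ :=
    mul_pos (mul_pos (mul_pos (by linarith) (by linarith [hr.1]))
      (mul_pos (by linarith) (by linarith [hr.2]))) h1
  rw [← h2] at h3
  exact pos_of_mul_pos_left h3 (sq_nonneg _)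

theorem v2_negT (h12 : a₂ < a₁) (h23 : a₃ < a₂) (hr : r ∈ Ico a₃ a₂) (h0 : 0 < τ)
    (h : τ < Ts a₁ a₂ a₃ r) : v2 a₁ a₂ a₃ r τ < 0 := by
  have hr' : r ∈ Ico a₃ a₁ := ⟨hr.1, hr.2.trans h12⟩
  have h1 := v1_pos h12 h23 hr' h0 fun _ => h
  have h2 := YrelAux.v2_eq h12 h23 hr' hr.2.ne τ
  have h3 : 0 < (a₂ - a₃) * (a₂ - r) * ((a₁ - a₃) * (a₁ - r)) * v1 a₁ a₂ a₃ r τ :=
    mul_pos (mul_pos (mul_pos (by linarith) (by linarith [hr.2]))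
      (mul_pos (by linarith) (by linarith [hr'.2]))) h1
  have h4 : (a₂ - a₃) * (a₂ - r) * ((a₁ - a₃) * (a₁ - r)) * v1 a₁ a₂ a₃ r τ
      = -v2 a₁ a₂ a₃ r τ *
        ((a₁ - a₃) * (a₁ - r) - y1 a₁ a₂ a₃ r τ * ((a₁ - r) + (a₂ - a₃))) ^ 2 := by
    linear_combination h2
  rw [h4] at h3
  have := pos_of_mul_pos_left h3 (sq_nonneg _)
  linarith

/-- strict inequalities inside the period -/
theorem y1_pos (h12 : a₂ < a₁) (h23 : a₃ < a₂) (hr : r ∈ Ico a₃ a₁)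
    (h : Per a₁ a₂ a₃ r τ) : 0 < y1 a₁ a₂ a₃ r τ := by
  by_cases h2 : r = a₂
  · subst h2
    exact (half_sep (k := a₁ - r) (n := a₁ - a₃) (by linarith) (by linarith) τ h.1).2.1
  · obtain ⟨k, k', hk, hkk, hk3, -, hy, hv, hT'⟩ := YrelAux.common h12 h23 hr h2
    have h3 := h.2 h2
    rw [hT'] at h3
    rw [hy]
    exact (YrelAux.strict_half hk (mul_pos (hk.trans hkk) (hk.trans hk3)) (Or.inr hkk)
      (Or.inr hk3) h.1 h3).1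

theorem y1_lt_m2 (h12 : a₂ < a₁) (h23 : a₃ < a₂) (hr : r ∈ Ico a₃ a₁)
    (h : Per a₁ a₂ a₃ r τ) (h' : a₂ ≤ r ∨ τ ≠ Ts a₁ a₂ a₃ r) :
    y1 a₁ a₂ a₃ r τ < a₁ - a₂ := by
  by_cases h2 : r = a₂
  · subst h2
    exact (half_sep (k := a₁ - r) (n := a₁ - a₃) (by linarith) (by linarith) τ h.1).2.2
  · obtain ⟨k, k', hk, hkk, hk3, hc, hy, hv, hT'⟩ := YrelAux.common h12 h23 hr h2
    have h3 := h.2 h2
    rw [hT'] at h3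
    rcases hc with ⟨h4, h5, h6⟩ | ⟨h4, h5, h6⟩
    · have := (y1_range h12 h23 ⟨hr.1, hr.2.le⟩ τ).2.1
      linarith
    · have h7 : τ ≠ Ts a₁ a₂ a₃ r := h'.resolve_left (by linarith)
      rw [hT'] at h7
      rw [hy, ← h5]
      exact (YrelAux.strict_half hk (mul_pos (hk.trans hkk) (hk.trans hk3)) (Or.inr hkk)
        (Or.inr hk3) h.1 h3).2 h7

theorem y1_lt_kap (h12 : a₂ < a₁) (h23 : a₃ < a₂) (hr : r ∈ Ico a₃ a₁)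
    (h : Per a₁ a₂ a₃ r τ) (h' : r ≤ a₂ ∨ τ ≠ Ts a₁ a₂ a₃ r) :
    y1 a₁ a₂ a₃ r τ < a₁ - r := by
  by_cases h2 : r = a₂
  · subst h2
    exact (half_sep (k := a₁ - r) (n := a₁ - a₃) (by linarith) (by linarith) τ h.1).2.2
  · obtain ⟨k, k', hk, hkk, hk3, hc, hy, hv, hT'⟩ := YrelAux.common h12 h23 hr h2
    have h3 := h.2 h2
    rw [hT'] at h3
    rcases hc with ⟨h4, h5, h6⟩ | ⟨h4, h5, h6⟩
    · have h7 : τ ≠ Ts a₁ a₂ a₃ r := h'.resolve_left (by linarith)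
      rw [hT'] at h7
      rw [hy, ← h5]
      exact (YrelAux.strict_half hk (mul_pos (hk.trans hkk) (hk.trans hk3)) (Or.inr hkk)
        (Or.inr hk3) h.1 h3).2 h7
    · have := (y1_range h12 h23 ⟨hr.1, hr.2.le⟩ τ).2.2
      linarith

theorem y3_neg (h12 : a₂ < a₁) (h23 : a₃ < a₂) (hr : r ∈ Ioo a₃ a₁)
    (h : Per a₁ a₂ a₃ r τ) : y3 a₁ a₂ a₃ r τ < 0 := by
  have hr' : r ∈ Ico a₃ a₁ := ⟨hr.1.le, hr.2⟩
  have h1 := y1_pos h12 h23 hr' h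
  obtain ⟨h2, h3⟩ := moebius3 h12 h23 hr' τ
  have h4 : 0 < (a₂ - a₃) * (r - a₃) * y1 a₁ a₂ a₃ r τ :=
    mul_pos (mul_pos (by linarith) (by linarith [hr.1])) h1
  rw [← h2] at h4
  have := pos_of_mul_pos_left h4 h3.le
  linarith

theorem y3_lt_m23 (h12 : a₂ < a₁) (h23 : a₃ < a₂) (hr : r ∈ Ioo a₃ a₁)
    (h : Per a₁ a₂ a₃ r τ) (h' : r ≤ a₂ ∨ τ ≠ Ts a₁ a₂ a₃ r) :
    -y3 a₁ a₂ a₃ r τ < a₂ - a₃ := by
  have hr' : r ∈ Ico a₃ a₁ := ⟨hr.1.le, hr.2⟩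
  have h1 := y1_lt_kap h12 h23 hr' h h'
  obtain ⟨h2, h3⟩ := moebius3 h12 h23 hr' τ
  have h4 : 0 < (a₂ - a₃) * ((a₁ - a₂) * (a₁ - r - y1 a₁ a₂ a₃ r τ)) :=
    mul_pos (by linarith) (mul_pos (by linarith) (by linarith))
  refine lt_of_mul_lt_mul_right ?_ h3.le
  linarith [h2, h4]

theorem y3_lt_kap (h12 : a₂ < a₁) (h23 : a₃ < a₂) (hr : r ∈ Ioo a₃ a₁)
    (h : Per a₁ a₂ a₃ r τ) (h' : a₂ ≤ r ∨ τ ≠ Ts a₁ a₂ a₃ r) :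
    -y3 a₁ a₂ a₃ r τ < r - a₃ := by
  have hr' : r ∈ Ico a₃ a₁ := ⟨hr.1.le, hr.2⟩
  have h1 := y1_lt_m2 h12 h23 hr' h h'
  obtain ⟨h2, h3⟩ := moebius3 h12 h23 hr' τ
  have h4 : 0 < (r - a₃) * ((a₁ - r) * (a₁ - a₂ - y1 a₁ a₂ a₃ r τ)) :=
    mul_pos (by linarith [hr.1]) (mul_pos (by linarith [hr.2]) (by linarith))
  refine lt_of_mul_lt_mul_right ?_ h3.le
  linarith [h2, h4]

theorem y2_strictI (h12 : a₂ < a₁) (h23 : a₃ < a₂) (hr : r ∈ Ioo a₂ a₁)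
    (h : Per a₁ a₂ a₃ r τ) : 0 < y2 a₁ a₂ a₃ r τ ∧
    (τ ≠ Ts a₁ a₂ a₃ r → y2 a₁ a₂ a₃ r τ < a₂ - a₃) := by
  have hr' : r ∈ Ico a₃ a₁ := ⟨(h23.trans hr.1).le, hr.2⟩
  have h1 := y1_pos h12 h23 hr' h
  obtain ⟨h2, -, h3⟩ := moebius2 h12 h23 hr' τ
  have h3 := h3 hr.1.ne'
  constructor
  · have h4 : 0 < (a₂ - a₃) * (r - a₂) * y1 a₁ a₂ a₃ r τ :=
      mul_pos (mul_pos (by linarith) (by linarith [hr.1])) h1
    rw [← h2] at h4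
    exact pos_of_mul_pos_left h4 h3.le
  · intro hne
    have h5 := y1_lt_kap h12 h23 hr' h (Or.inr hne)
    have h4 : 0 < (a₂ - a₃) * ((a₁ - a₃) * (a₁ - r - y1 a₁ a₂ a₃ r τ)) :=
      mul_pos (by linarith) (mul_pos (by linarith) (by linarith))
    refine lt_of_mul_lt_mul_right ?_ h3.le
    linarith [h2, h4]

theorem y2_strictT (h12 : a₂ < a₁) (h23 : a₃ < a₂) (hr : r ∈ Ico a₃ a₂)
    (h : Per a₁ a₂ a₃ r τ) : y2 a₁ a₂ a₃ r τ < 0 ∧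
    (τ ≠ Ts a₁ a₂ a₃ r → -y2 a₁ a₂ a₃ r τ < a₁ - a₂) := by
  have hr' : r ∈ Ico a₃ a₁ := ⟨hr.1, hr.2.trans h12⟩
  have h1 := y1_pos h12 h23 hr' h
  obtain ⟨h2, -, h3⟩ := moebius2 h12 h23 hr' τ
  have h3 := h3 hr.2.ne
  constructor
  · have h4 : 0 < (a₂ - a₃) * (a₂ - r) * y1 a₁ a₂ a₃ r τ :=
      mul_pos (mul_pos (by linarith) (by linarith [hr.2])) h1
    have h5 : (a₂ - a₃) * (a₂ - r) * y1 a₁ a₂ a₃ r τ = -y2 a₁ a₂ a₃ r τ *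
        ((a₁ - a₃) * (a₁ - r) - y1 a₁ a₂ a₃ r τ * ((a₁ - r) + (a₂ - a₃))) := by
      linear_combination h2
    rw [h5] at h4
    have := pos_of_mul_pos_left h4 h3.le
    linarith
  · intro hne
    have h5 := y1_lt_m2 h12 h23 hr' h (Or.inr hne)
    have h4 : 0 < (a₁ - a₃) * ((a₁ - r) * (a₁ - a₂ - y1 a₁ a₂ a₃ r τ)) :=
      mul_pos (by linarith) (mul_pos (by linarith [hr'.2]) (by linarith))
    refine lt_of_mul_lt_mul_right ?_ h3.le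
    linarith [h2, h4]

end yrel

end

end Pool.Agent.CutS3
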