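import Pool.Agent.CutS3.Defs
import Pool.Agent.CutS3.Ya
import Pool.Agent.CutS3.Yrel
import Pool.Agent.CutS3.Grel
import Pool.Agent.CutS3.Clock
import Pool.Agent.CutS3.TauA

set_option autoImplicit false
set_option linter.unusedVariables false

namespace Pool.Agent.CutS3

open Set Quaternion

noncomputable section

/-! ############ Module TAUB1 : the threshold ############ -/

namespace TauBAux

/-- the explicit solution for `r = a₃` -/
theorem isY_a3 {m p w : ℝ} (hm : 0 < m) (hp : 0 < p) (hw : w ^ 2 = (m + p) * p) :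
    IsY (m + p) m (m + p)
      (fun t => m * (m + p) * Real.sin (w * t) ^ 2 / (p + m * Real.sin (w * t) ^ 2))
      (fun t => 2 * m * (m + p) * p * w * (Real.sin (w * t) * Real.cos (w * t)) /
        (p + m * Real.sin (w * t) ^ 2) ^ 2) := by
  have hD : ∀ t, p + m * Real.sin (w * t) ^ 2 ≠ 0 := fun t => by positivity
  have hlin : ∀ t, HasDerivAt (fun t => w * t) w t := fun t => by
    simpa using (hasDerivAt_id t).const_mul w
  have hs : ∀ t, HasDerivAt (fun t => Real.sin (w * t)) (Real.cos (w * t) * w) t := fun t =>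
    (hlin t).sin
  have hc : ∀ t, HasDerivAt (fun t => Real.cos (w * t)) (-Real.sin (w * t) * w) t := fun t =>
    (hlin t).cos
  have hs2 : ∀ t, HasDerivAt (fun t => Real.sin (w * t) ^ 2)
      (2 * Real.sin (w * t) * Real.cos (w * t) * w) t := fun t => by
    refine ((hs t).fun_pow 2).congr_deriv ?_
    push_cast
    ring
  have hDD : ∀ t, HasDerivAt (fun t => p + m * Real.sin (w * t) ^ 2)
      (m * (2 * Real.sin (w * t) * Real.cos (w * t) * w)) t := fun t =>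
    ((hs2 t).const_mul m).const_add p
  refine ⟨by simp, by simp, ?_, ?_⟩
  · intro t
    refine (((hs2 t).const_mul (m * (m + p))).fun_div (hDD t) (hD t)).congr_deriv ?_
    have := hD t
    field_simp
    ring
  · intro t
    have h1 : HasDerivAt (fun t => 2 * m * (m + p) * p * w *
        (Real.sin (w * t) * Real.cos (w * t)))
        (2 * m * (m + p) * p * w * (Real.cos (w * t) * w * Real.cos (w * t)
          + Real.sin (w * t) * (-Real.sin (w * t) * w))) t :=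
      ((hs t).fun_mul (hc t)).const_mul _
    have h2 : HasDerivAt (fun t => (p + m * Real.sin (w * t) ^ 2) ^ 2)
        (((2 : ℕ) : ℝ) * (p + m * Real.sin (w * t) ^ 2) ^ (2 - 1) *
          (m * (2 * Real.sin (w * t) * Real.cos (w * t) * w))) t := (hDD t).fun_pow 2
    refine (h1.fun_div h2 (pow_ne_zero 2 (hD t))).congr_deriv ?_
    have hne := hD t
    have hC : Real.cos (w * t) ^ 2 = 1 - Real.sin (w * t) ^ 2 := by
      have := Real.sin_sq_add_cos_sq (w * t)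
      linarith
    generalize Real.sin (w * t) = S at *
    generalize Real.cos (w * t) = C at *
    have e1 : (2 * m * (m + p) * p * w * (C * w * C + S * (-S * w)) * (p + m * S ^ 2) ^ 2 -
        2 * m * (m + p) * p * w * (S * C) *
          (((2 : ℕ) : ℝ) * (p + m * S ^ 2) ^ (2 - 1) * (m * (2 * S * C * w)))) /
        ((p + m * S ^ 2) ^ 2) ^ 2
        = 2 * m * (m + p) * p * w ^ 2 * ((C ^ 2 - S ^ 2) * (p + m * S ^ 2)
          - 4 * m * S ^ 2 * C ^ 2) / (p + m * S ^ 2) ^ 3 := by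
      push_cast
      field_simp
      ring
    rw [e1, hw, hC]
    unfold PD
    field_simp
    ring

theorem Ts_a3 {a₁ a₂ a₃ : ℝ} (hax : Ax a₁ a₂ a₃) :
    Ts a₁ a₂ a₃ a₃ = Real.pi / (2 * Real.sqrt ((a₁ - a₃) * (a₂ - a₃))) := by
  have h12 := hax.h12
  have h23 := hax.h23
  have hm : 0 < a₁ - a₂ := by linarith
  have hp : 0 < a₂ - a₃ := by linarith
  have hpos : 0 < (a₁ - a₃) * (a₂ - a₃) := mul_pos (by linarith) hp
  set w := Real.sqrt ((a₁ - a₃) * (a₂ - a₃)) with hwdef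
  have hw0 : 0 < w := Real.sqrt_pos.2 hpos
  have hw : w ^ 2 = ((a₁ - a₂) + (a₂ - a₃)) * (a₂ - a₃) := by
    rw [hwdef, Real.sq_sqrt hpos.le]
    ring
  have hY := isY_a3 hm hp hw
  have hV := (yf_unique hY).2
  have e : (a₁ - a₂) + (a₂ - a₃) = a₁ - a₃ := by ring
  rw [e] at hV
  unfold Ts hT
  rw [← hV]
  have hwne : w ≠ 0 := hw0.ne'
  have hpi := Real.pi_pos
  apply IsLeast.csInf_eq
  constructor
  · refine ⟨by positivity, ?_⟩
    have : w * (Real.pi / (2 * w)) = Real.pi / 2 := by field_simp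
    simp [this]
  · intro t ht
    by_contra hlt
    push Not at hlt
    obtain ⟨ht0, ht1⟩ := ht
    have h1 : w * t < Real.pi / 2 := by
      have := mul_lt_mul_of_pos_left hlt hw0
      have e2 : w * (Real.pi / (2 * w)) = Real.pi / 2 := by field_simp
      linarith
    have h2 : 0 < w * t := mul_pos hw0 ht0
    have hs : 0 < Real.sin (w * t) := Real.sin_pos_of_pos_of_lt_pi h2 (by linarith)
    have hc : 0 < Real.cos (w * t) := Real.cos_pos_of_mem_Ioo ⟨by linarith, h1⟩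
    have hm3 : 0 < a₁ - a₃ := by linarith
    have : 0 < 2 * (a₁ - a₂) * (a₁ - a₃) * (a₂ - a₃) * w * (Real.sin (w * t) * Real.cos (w * t)) /
        ((a₂ - a₃) + (a₁ - a₂) * Real.sin (w * t) ^ 2) ^ 2 := by positivity
    exact this.ne' ht1

/-- continuity of a hitting time -/
theorem hit_cont {G : ℝ → ℝ → ℝ} (hG : Continuous fun x : ℝ × ℝ => G x.1 x.2) {s : Set ℝ}
    (hmono : ∀ r ∈ s, StrictMono (G r)) {T : ℝ → ℝ} {c : ℝ} (hT : ∀ r ∈ s, G r (T r) = c) :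
    ContinuousOn T s := by
  intro r0 hr0
  rw [Metric.continuousWithinAt_iff']
  intro ε hε
  have h1 : G r0 (T r0 - ε) < c := (hmono r0 hr0 (by linarith)).trans_eq (hT r0 hr0)
  have h2 : c < G r0 (T r0 + ε) := (hT r0 hr0).symm.trans_lt (hmono r0 hr0 (by linarith))
  have c1 : Continuous fun r => G r (T r0 - ε) :=
    hG.comp (continuous_id.prodMk continuous_const)
  have c2 : Continuous fun r => G r (T r0 + ε) :=
    hG.comp (continuous_id.prodMk continuous_const)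
  have e1 : ∀ᶠ r in nhdsWithin r0 s, G r (T r0 - ε) < c :=
    (c1.continuousAt.eventually_lt continuousAt_const h1).filter_mono nhdsWithin_le_nhds
  have e2 : ∀ᶠ r in nhdsWithin r0 s, c < G r (T r0 + ε) :=
    (continuousAt_const.eventually_lt c2.continuousAt h2).filter_mono nhdsWithin_le_nhds
  filter_upwards [e1, e2, self_mem_nhdsWithin] with r h3 h4 hr
  rw [Real.dist_eq, abs_lt]
  constructor
  · have := (hmono r hr).lt_iff_lt.1 (h3.trans_eq (hT r hr).symm)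
    linarith
  · have := (hmono r hr).lt_iff_lt.1 ((hT r hr).trans_lt h4)
    linarith

theorem tau1_cont {a₁ a₂ a₃ : ℝ} (hax : Ax a₁ a₂ a₃) :
    ContinuousOn (tau1 a₁ a₂ a₃) (Icc a₃ a₁) :=
  hit_cont continuous_G.1 (fun r hr => (G_strictMono hax hr).1) fun r hr => (tau1_spec hax hr).2

theorem tau2_cont {a₁ a₂ a₃ : ℝ} (hax : Ax a₁ a₂ a₃) :
    ContinuousOn (tau2 a₁ a₂ a₃) (Icc a₃ a₁) :=
  hit_cont continuous_G.2.1 (fun r hr => (G_strictMono hax hr).2.1)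
    fun r hr => (tau2_spec hax hr).2

/-- `G₁` at the half period as a complete integral -/
theorem Gstar_eq {a₁ a₂ a₃ r : ℝ} (hax : Ax a₁ a₂ a₃) (hr : r ∈ Ico a₃ a₂) :
    G1 a₁ a₂ a₃ r (Ts a₁ a₂ a₃ r) = gg2T a₁ a₂ a₃ r (a₁ - a₂) := by
  have hr' : r ∈ Ico a₃ a₁ := ⟨hr.1, hr.2.trans hax.h12⟩
  rw [← star12T hax.h12 hax.h23 hr, clock2T hax hr
    ⟨(Ts_pos hax.h12 hax.h23 hr' hr.2.ne).le, fun _ => le_rfl⟩, (TsT hax.h12 hax.h23 hr).2.1,
    neg_sub]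

end TauBAux

section tau
variable {a₁ a₂ a₃ r r' τ : ℝ}

theorem Gstar_strictMono (hax : Ax a₁ a₂ a₃) :
    StrictMonoOn (fun r => G1 a₁ a₂ a₃ r (Ts a₁ a₂ a₃ r)) (Ico a₃ a₂) := by
  intro r hr r' hr' hrr
  show G1 a₁ a₂ a₃ r (Ts a₁ a₂ a₃ r) < G1 a₁ a₂ a₃ r' (Ts a₁ a₂ a₃ r')
  rw [TauBAux.Gstar_eq hax hr, TauBAux.Gstar_eq hax hr']
  have h12 := hax.h12
  have := (gg2T_mono_r (r := r) (r' := r') (x := 0) (x' := a₁ - a₂) hax hr.1 hrr.le hr'.2 le_rfl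
    (by linarith) le_rfl).2 hrr (by linarith)
  have e : ∀ s, gg2T a₁ a₂ a₃ s 0 = 0 := fun s => intervalIntegral.integral_same
  rw [e, e, sub_zero, sub_zero] at this
  exact this

theorem Gstar_a3 (hax : Ax a₁ a₂ a₃) :
    Real.pi ≤ G1 a₁ a₂ a₃ a₃ (Ts a₁ a₂ a₃ a₃) ↔ (a₁ - a₃) * (a₂ - a₃) ≤ a₃ ^ 2 := by
  have h12 := hax.h12
  have h23 := hax.h23
  have h3 := hax.pos
  have hpos : 0 < (a₁ - a₃) * (a₂ - a₃) := mul_pos (by linarith) (by linarith)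
  have hG3 : G3 a₁ a₂ a₃ a₃ (Ts a₁ a₂ a₃ a₃) = a₃ * Ts a₁ a₂ a₃ a₃ := by
    have hy : ∀ s, y3 a₁ a₂ a₃ a₃ s = 0 := by
      intro s
      unfold y3
      rw [sub_self, yf_zero]
    unfold G3
    simp only [hy, sub_zero]
    rw [intervalIntegral.integral_const, smul_eq_mul, sub_zero, mul_comm]
  rw [star13 h12 h23 ⟨le_rfl, by linarith⟩ h23.ne, hG3, TauBAux.Ts_a3 hax]
  set w := Real.sqrt ((a₁ - a₃) * (a₂ - a₃)) with hwdef
  have hw0 : 0 < w := Real.sqrt_pos.2 hpos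
  have hpi := Real.pi_pos
  have key : a₃ * (Real.pi / (2 * w)) + Real.pi / 2 - Real.pi = Real.pi / (2 * w) * (a₃ - w) := by
    field_simp
    ring
  have hc : 0 < Real.pi / (2 * w) := by positivity
  have h4 : (a₁ - a₃) * (a₂ - a₃) ≤ a₃ ^ 2 ↔ w ≤ a₃ := by
    rw [hwdef, Real.sqrt_le_left h3.le]
  rw [h4]
  constructor
  · intro h
    have : 0 ≤ Real.pi / (2 * w) * (a₃ - w) := by linarith
    have := nonneg_of_mul_nonneg_right this hc
    linarith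
  · intro h
    have : 0 ≤ Real.pi / (2 * w) * (a₃ - w) := mul_nonneg hc.le (by linarith)
    linarith

/-- the threshold -/
theorem reg1_all (hax : Ax a₁ a₂ a₃) (h : (a₁ - a₃) * (a₂ - a₃) ≤ a₃ ^ 2) :
    (∀ r ∈ Icc a₃ a₁, Reg1 a₁ a₂ a₃ r) ∧
    (∀ r ∈ Ioo a₃ a₂, Real.pi < G1 a₁ a₂ a₃ r (Ts a₁ a₂ a₃ r)) := by
  have h0 := (Gstar_a3 hax).2 h
  have hm : a₃ ∈ Ico a₃ a₂ := ⟨le_rfl, hax.h23⟩
  have h2 : ∀ r ∈ Ioo a₃ a₂, Real.pi < G1 a₁ a₂ a₃ r (Ts a₁ a₂ a₃ r) := fun r hr =>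
    h0.trans_lt (Gstar_strictMono hax hm ⟨hr.1.le, hr.2⟩ hr.1)
  refine ⟨fun r hr => ?_, h2⟩
  rcases le_or_gt a₂ r with h3 | h3
  · exact Or.inl h3
  · rcases hr.1.eq_or_lt with h4 | h4
    · rw [← h4]
      exact Or.inr h0
    · exact Or.inr (h2 r ⟨h4, h3⟩).le

theorem exists_rK (hax : Ax a₁ a₂ a₃) (h : a₃ ^ 2 < (a₁ - a₃) * (a₂ - a₃)) :
    ∃ rK ∈ Ioo a₃ a₂, G1 a₁ a₂ a₃ rK (Ts a₁ a₂ a₃ rK) = Real.pi ∧
      (∀ r ∈ Icc a₃ a₁, Reg1 a₁ a₂ a₃ r ↔ rK ≤ r) ∧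
      (∀ r ∈ Ioo rK a₂, Real.pi < G1 a₁ a₂ a₃ r (Ts a₁ a₂ a₃ r)) := by
  have h12 := hax.h12
  have h23 := hax.h23
  have h0 : ¬ Real.pi ≤ G1 a₁ a₂ a₃ a₃ (Ts a₁ a₂ a₃ a₃) := fun h' =>
    absurd ((Gstar_a3 hax).1 h') (not_le.2 h)
  have hsub : Icc a₃ a₂ ⊆ Icc a₃ a₁ := Icc_subset_Icc le_rfl h12.le
  have hcont : ContinuousOn (fun r => tau1 a₁ a₂ a₃ r - tau2 a₁ a₂ a₃ r) (Icc a₃ a₂) :=
    ((TauBAux.tau1_cont hax).mono hsub).sub ((TauBAux.tau2_cont hax).mono hsub)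
  have hper : ∀ r ∈ Ico a₃ a₁, ¬ Reg1 a₁ a₂ a₃ r → Per a₁ a₂ a₃ r (tau2 a₁ a₂ a₃ r) := by
    intro r hr hR
    refine tcut_per hax hr (tau2_spec hax ⟨hr.1, hr.2.le⟩).1 ?_
    unfold tcut
    rw [if_neg hR]
  have hper1 : ∀ r ∈ Ico a₃ a₁, Reg1 a₁ a₂ a₃ r → Per a₁ a₂ a₃ r (tau1 a₁ a₂ a₃ r) := by
    intro r hr hR
    refine tcut_per hax hr (tau1_spec hax ⟨hr.1, hr.2.le⟩).1 ?_
    unfold tcut
    rw [if_pos hR]
  -- outside region 1 `tau2 < tau1`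
  have hout : ∀ r ∈ Ico a₃ a₂, ¬ Reg1 a₁ a₂ a₃ r → tau2 a₁ a₂ a₃ r < tau1 a₁ a₂ a₃ r := by
    intro r hr hR
    have hr' : r ∈ Ico a₃ a₁ := ⟨hr.1, hr.2.trans h12⟩
    have h1 := ((rel12T h12 h23 hr (hper r hr' hR)).2 (tau2_second hax hr hR)).1
    have hri : r ∈ Icc a₃ a₁ := ⟨hr'.1, hr'.2.le⟩
    have h2 := (tau2_spec hax hri).2
    have h3 := (tau1_spec hax hri).2
    exact (G_strictMono hax hri).1.lt_iff_lt.1 (by linarith)
  have hR3 : ¬ Reg1 a₁ a₂ a₃ a₃ := by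
    rintro (h1 | h1)
    · exact absurd h1 (not_le.2 h23)
    · exact h0 h1
  have hleft : 0 < tau1 a₁ a₂ a₃ a₃ - tau2 a₁ a₂ a₃ a₃ :=
    sub_pos.2 (hout a₃ ⟨le_rfl, h23⟩ hR3)
  have hright : tau1 a₁ a₂ a₃ a₂ - tau2 a₁ a₂ a₃ a₂ < 0 := by
    have hri : a₂ ∈ Icc a₃ a₁ := ⟨h23.le, h12.le⟩
    have h1 := (rel12I h12 h23 (r := a₂) ⟨le_rfl, h12⟩
      (hper1 a₂ ⟨h23.le, h12⟩ (Or.inl le_rfl))).1
    have h2 := (tau2_spec hax hri).2
    have h3 := (tau1_spec hax hri).2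
    have : tau1 a₁ a₂ a₃ a₂ < tau2 a₁ a₂ a₃ a₂ :=
      (G_strictMono hax hri).2.1.lt_iff_lt.1 (by linarith)
    linarith
  obtain ⟨rK, hrK, hz⟩ := intermediate_value_Icc' h23.le hcont ⟨hright.le, hleft.le⟩
  have hz : tau1 a₁ a₂ a₃ rK = tau2 a₁ a₂ a₃ rK := sub_eq_zero.1 hz
  have hne3 : a₃ ≠ rK := by
    intro he
    rw [← he] at hz
    linarith
  have hne2 : rK ≠ a₂ := by
    intro he
    rw [he] at hz
    linarith
  have hK : rK ∈ Ioo a₃ a₂ := ⟨lt_of_le_of_ne hrK.1 hne3, lt_of_le_of_ne hrK.2 hne2⟩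
  have hKi : rK ∈ Icc a₃ a₁ := hsub hrK
  have hKo : rK ∈ Ico a₃ a₂ := ⟨hK.1.le, hK.2⟩
  have hKo' : rK ∈ Ico a₃ a₁ := ⟨hK.1.le, hK.2.trans h12⟩
  have hGK : G1 a₁ a₂ a₃ rK (Ts a₁ a₂ a₃ rK) = Real.pi := by
    have hR : Reg1 a₁ a₂ a₃ rK := by
      by_contra hR
      have := hout rK hKo hR
      linarith
    have h1 := (tau1_first hax hKo hR).1
    have h2 := (tau2_spec hax hKi).2
    have h3 := (tau1_spec hax hKi).2
    rcases h1.eq_or_lt with h4 | h4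
    · rw [← h4]
      exact h3
    · have h5 := ((rel12T h12 h23 hKo (hper1 rK hKo' hR)).1 h4).1
      rw [← hz] at h2
      linarith
  refine ⟨rK, hK, hGK, ?_, ?_⟩
  · intro r hr
    constructor
    · rintro (h1 | h1)
      · exact hK.2.le.trans h1
      · by_contra hlt
        push Not at hlt
        have := Gstar_strictMono hax ⟨hr.1, hlt.trans hK.2⟩ hKo hlt
        simp only at this
        linarith
    · intro h1
      rcases le_or_gt a₂ r with h2 | h2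
      · exact Or.inl h2
      · refine Or.inr ?_
        have := (Gstar_strictMono hax).monotoneOn hKo ⟨hr.1, h2⟩ h1
        linarith
  · intro r hr
    have := Gstar_strictMono hax hKo ⟨(hK.1.trans hr.1).le, hr.2⟩ hr.1
    simp only at this
    linarith

theorem tcut_cont (hax : Ax a₁ a₂ a₃) : ContinuousOn (tcut a₁ a₂ a₃) (Icc a₃ a₁) := by
  have h12 := hax.h12
  have h23 := hax.h23
  rcases le_or_gt ((a₁ - a₃) * (a₂ - a₃)) (a₃ ^ 2) with h | h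
  · have hR := (reg1_all hax h).1
    refine (TauBAux.tau1_cont hax).congr fun r hr => ?_
    unfold tcut
    rw [if_pos (hR r hr)]
  · obtain ⟨rK, hK, hGK, hiff, -⟩ := exists_rK hax h
    have hKi : rK ∈ Icc a₃ a₁ := ⟨hK.1.le, (hK.2.trans h12).le⟩
    have hKo : rK ∈ Ico a₃ a₂ := ⟨hK.1.le, hK.2⟩
    have hu : Icc a₃ a₁ = Icc a₃ rK ∪ Icc rK a₁ := (Icc_union_Icc_eq_Icc hKi.1 hKi.2).symm
    have e1 : tau1 a₁ a₂ a₃ rK = Ts a₁ a₂ a₃ rK :=
      (G_strictMono hax hKi).1.injective ((tau1_spec hax hKi).2.trans hGK.symm)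
    have e2 : tau2 a₁ a₂ a₃ rK = Ts a₁ a₂ a₃ rK :=
      (G_strictMono hax hKi).2.1.injective ((tau2_spec hax hKi).2.trans
        (hGK.symm.trans (star12T h12 h23 hKo).symm))
    rw [hu]
    refine ContinuousOn.union_of_isClosed ?_ ?_ isClosed_Icc isClosed_Icc
    · refine ((TauBAux.tau2_cont hax).mono (Icc_subset_Icc le_rfl hKi.2)).congr fun r hr => ?_
      unfold tcut
      rcases hr.2.eq_or_lt with h1 | h1
      · rw [h1, if_pos ((hiff rK hKi).2 le_rfl), e1, e2]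
      · rw [if_neg fun hR => absurd ((hiff r ⟨hr.1, hr.2.trans hKi.2⟩).1 hR) (not_le.2 h1)]
    · refine ((TauBAux.tau1_cont hax).mono (Icc_subset_Icc hKi.1 le_rfl)).congr fun r hr => ?_
      unfold tcut
      rw [if_pos ((hiff r ⟨hKi.1.trans hr.1, hr.2⟩).2 hr.1)]

end tau

end

end Pool.Agent.CutS3
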