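import Pool.Agent.CutS3.Defs
import Pool.Agent.CutS3.Ya
import Pool.Agent.CutS3.Yrel
import Pool.Agent.CutS3.Grel
import Pool.Agent.CutS3.Clock
import Pool.Agent.CutS3.TauA
import Pool.Agent.CutS3.TauB1

set_option autoImplicit false
set_option linter.unusedVariables false

namespace Pool.Agent.CutS3

open Set Quaternion

noncomputable section

/-! ############ Module TAUB2 : monotonicity of the end values ############ -/

namespace TauBAux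

variable {a₁ a₂ a₃ r r' τ : ℝ}

theorem gg3_zero (r : ℝ) : gg3 a₁ a₂ a₃ r 0 = 0 := intervalIntegral.integral_same
theorem gg1_zero (r : ℝ) : gg1 a₁ a₂ a₃ r 0 = 0 := intervalIntegral.integral_same
theorem gg2T_zero (r : ℝ) : gg2T a₁ a₂ a₃ r 0 = 0 := intervalIntegral.integral_same

theorem gk3_anti (hax : Ax a₁ a₂ a₃) (hr : a₂ < r) (hrr : r ≤ r') {s : ℝ}
    (hs : s ∈ Icc 0 (a₂ - a₃)) : gk3 a₁ a₂ a₃ r' s ≤ gk3 a₁ a₂ a₃ r s := by
  have h12 := hax.h12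
  have h23 := hax.h23
  have h3 := hax.pos
  unfold gk3
  rcases hs.1.eq_or_lt with h0 | h0
  · rw [← h0]
    simp
  rcases hs.2.eq_or_lt with h1 | h1
  · rw [h1]
    simp
  have hA : 0 < 4 * s * (a₂ - a₃ - s) * (a₁ - a₃ - s) :=
    mul_pos (mul_pos (by linarith) (by linarith)) (by linarith)
  have hB : 0 < r - a₃ - s := by linarith
  apply div_le_div_of_nonneg_left (by linarith)
  · apply Real.sqrt_pos.2
    have := mul_pos hA hB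
    nlinarith
  · apply Real.sqrt_le_sqrt
    have := mul_le_mul_of_nonneg_left (show r - a₃ - s ≤ r' - a₃ - s by linarith) hA.le
    nlinarith

theorem gk3_int (hax : Ax a₁ a₂ a₃) (hr : r ∈ Ioo a₂ a₁) :
    IntervalIntegrable (gk3 a₁ a₂ a₃ r) MeasureTheory.volume 0 (a₂ - a₃) := by
  by_contra h
  have h12 := hax.h12
  have h23 := hax.h23
  have h1 := gg3_strictMono (x := 0) (x' := a₂ - a₃) hax (h23.trans hr.1) hr.2 le_rfl
    (by linarith) (by linarith [hr.1]) le_rfl (Or.inr hr.1.ne')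
  rw [gg3_zero] at h1
  have h2 : gg3 a₁ a₂ a₃ r (a₂ - a₃) = 0 := intervalIntegral.integral_undef h
  linarith

theorem gg3_incr (hax : Ax a₁ a₂ a₃) (hr : r ∈ Ioo a₂ a₁) (hr' : r' ∈ Ioo a₂ a₁) (hrr : r ≤ r')
    {x : ℝ} (hx : x ∈ Icc 0 (a₂ - a₃)) :
    gg3 a₁ a₂ a₃ r' (a₂ - a₃) - gg3 a₁ a₂ a₃ r' x
      ≤ gg3 a₁ a₂ a₃ r (a₂ - a₃) - gg3 a₁ a₂ a₃ r x := by
  have hsub1 : uIcc 0 x ⊆ uIcc 0 (a₂ - a₃) := by
    rw [uIcc_of_le hx.1, uIcc_of_le (hx.1.trans hx.2)]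
    exact Icc_subset_Icc le_rfl hx.2
  have hsub2 : uIcc x (a₂ - a₃) ⊆ uIcc 0 (a₂ - a₃) := by
    rw [uIcc_of_le hx.2, uIcc_of_le (hx.1.trans hx.2)]
    exact Icc_subset_Icc hx.1 le_rfl
  have i := gk3_int hax hr
  have i' := gk3_int hax hr'
  unfold gg3
  rw [intervalIntegral.integral_interval_sub_left i' (i'.mono_set hsub1),
    intervalIntegral.integral_interval_sub_left i (i.mono_set hsub1)]
  apply intervalIntegral.integral_mono_on hx.2 (i'.mono_set hsub2) (i.mono_set hsub2)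
  intro s hs
  exact gk3_anti hax hr.1 hrr ⟨hx.1.trans hs.1, hs.2⟩

/-- the data of the cut time in the second half, type I -/
theorem second_data (hax : Ax a₁ a₂ a₃) (hr : r ∈ Ioo a₂ a₁)
    (hG : G1 a₁ a₂ a₃ r (Ts a₁ a₂ a₃ r) ≤ Real.pi) :
    Per a₁ a₂ a₃ r (tau1 a₁ a₂ a₃ r) ∧
    v1 a₁ a₂ a₃ r (tau1 a₁ a₂ a₃ r) ≤ 0 ∧
    G3 a₁ a₂ a₃ r (tau1 a₁ a₂ a₃ r)
      = 2 * gg3 a₁ a₂ a₃ r (a₂ - a₃) - gg3 a₁ a₂ a₃ r (-y3 a₁ a₂ a₃ r (tau1 a₁ a₂ a₃ r)) ∧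
    gg1 a₁ a₂ a₃ r (y1 a₁ a₂ a₃ r (tau1 a₁ a₂ a₃ r)) ≤ Real.pi := by
  have h12 := hax.h12
  have h23 := hax.h23
  have hr0 : r ∈ Ico a₃ a₁ := ⟨(h23.trans hr.1).le, hr.2⟩
  have hri : r ∈ Icc a₃ a₁ := ⟨hr0.1, hr.2.le⟩
  have hro : r ∈ Ioo a₃ a₁ := ⟨h23.trans hr.1, hr.2⟩
  have hne : r ≠ a₂ := hr.1.ne'
  obtain ⟨ht0, htG⟩ := tau1_spec hax hri
  have hR : Reg1 a₁ a₂ a₃ r := Or.inl hr.1.le
  have hper : Per a₁ a₂ a₃ r (tau1 a₁ a₂ a₃ r) := by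
    refine tcut_per hax hr0 ht0 ?_
    unfold tcut
    rw [if_pos hR]
  set T := tau1 a₁ a₂ a₃ r with hT
  set t := Ts a₁ a₂ a₃ r with ht
  have htT : t ≤ T := (G_strictMono hax hri).1.le_iff_le.1 (hG.trans_eq htG.symm)
  have hT2 : T < 2 * t := hper.2 hne
  have hs0 : 0 < 2 * t - T := by linarith
  have hst : 2 * t - T ≤ t := by linarith
  have htpos : 0 < t := Ts_pos h12 h23 hr0 hne
  have e : 2 * t - (2 * t - T) = T := by ring
  have hyr := y_refl h12 h23 hr0 hne T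
  have hGr := G_refl h12 h23 hr0 hne (2 * t - T)
  rw [← ht] at hyr hGr
  rw [e] at hGr
  obtain ⟨hy1, -, hy3, hv1, -, -⟩ := hyr
  have hfirst : First a₁ a₂ a₃ r (2 * t - T) := ⟨hs0.le, fun _ => hst⟩
  refine ⟨hper, ?_, ?_, ?_⟩
  · rcases hst.eq_or_lt with h1 | h1
    · have h2 : T = t := by linarith
      have h3 := (y_refl h12 h23 hr0 hne t).2.2.2.1
      rw [← ht, show 2 * t - t = t by ring] at h3
      rw [h2]
      linarith
    · have := v1_pos h12 h23 hr0 hs0 fun _ => h1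
      rw [hv1] at this
      linarith
  · have h1 : G3 a₁ a₂ a₃ r t = gg3 a₁ a₂ a₃ r (a₂ - a₃) := by
      rw [clock3 hax hro ⟨htpos.le, fun _ => le_rfl⟩, ht, (TsI h12 h23 hr).2.2, neg_sub]
    have h2 : G3 a₁ a₂ a₃ r (2 * t - T) = gg3 a₁ a₂ a₃ r (-y3 a₁ a₂ a₃ r T) := by
      rw [clock3 hax hro hfirst, hy3]
    rw [hGr.2.2, h1, h2]
  · rw [← hy1, ← clock1 hax hr0 hfirst]
    exact ((G_strictMono hax hri).1.monotone hst).trans hG

theorem Gstar_anti (hax : Ax a₁ a₂ a₃) (hr : r ∈ Ioo a₂ a₁) (hr' : r' ∈ Ioo a₂ a₁)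
    (hrr : r < r') :
    G1 a₁ a₂ a₃ r' (Ts a₁ a₂ a₃ r') < G1 a₁ a₂ a₃ r (Ts a₁ a₂ a₃ r) := by
  have h12 := hax.h12
  have h23 := hax.h23
  have key : ∀ s ∈ Ioo a₂ a₁, G1 a₁ a₂ a₃ s (Ts a₁ a₂ a₃ s)
      = gg3 a₁ a₂ a₃ s (a₂ - a₃) + Real.pi / 2 := by
    intro s hs
    have hs0 : s ∈ Ico a₃ a₁ := ⟨(h23.trans hs.1).le, hs.2⟩
    rw [star13 h12 h23 hs0 hs.1.ne', clock3 hax ⟨h23.trans hs.1, hs.2⟩
      ⟨(Ts_pos h12 h23 hs0 hs.1.ne').le, fun _ => le_rfl⟩, (TsI h12 h23 hs).2.2, neg_sub]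
  rw [key r hr, key r' hr']
  have := (gg3_anti_r (x := a₂ - a₃) hax (h23.trans hr.1) hrr.le hr'.2 (by linarith)
    (by linarith [hr.1]) le_rfl (Or.inr hr.1)).2 hrr (by linarith)
  linarith

/-- type I, both cut times in the second half -/
theorem second_second (hax : Ax a₁ a₂ a₃) (hr : r ∈ Ioo a₂ a₁) (hr' : r' ∈ Ioo a₂ a₁)
    (hrr : r < r') (hG : G1 a₁ a₂ a₃ r (Ts a₁ a₂ a₃ r) ≤ Real.pi)
    (hG' : G1 a₁ a₂ a₃ r' (Ts a₁ a₂ a₃ r') ≤ Real.pi) :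
    y1 a₁ a₂ a₃ r' (tau1 a₁ a₂ a₃ r') < y1 a₁ a₂ a₃ r (tau1 a₁ a₂ a₃ r) := by
  have h12 := hax.h12
  have h23 := hax.h23
  have hr0 : r ∈ Ico a₃ a₁ := ⟨(h23.trans hr.1).le, hr.2⟩
  have hr0' : r' ∈ Ico a₃ a₁ := ⟨(h23.trans hr'.1).le, hr'.2⟩
  have hri : r ∈ Icc a₃ a₁ := ⟨hr0.1, hr.2.le⟩
  have hri' : r' ∈ Icc a₃ a₁ := ⟨hr0'.1, hr'.2.le⟩
  obtain ⟨hper, hv, hG3, -⟩ := second_data hax hr hG
  obtain ⟨hper', hv', hG3', -⟩ := second_data hax hr' hG'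
  have hG1 := (tau1_spec hax hri).2
  have hG1' := (tau1_spec hax hri').2
  obtain ⟨hd0, hdpi, hrel⟩ := rel13 h12 h23 hr0 hper
  obtain ⟨hd0', hdpi', hrel'⟩ := rel13 h12 h23 hr0' hper'
  have hy0 := y1_pos h12 h23 hr0 hper
  have hy0' := y1_pos h12 h23 hr0' hper'
  have hyr := y1_range h12 h23 hri (tau1 a₁ a₂ a₃ r)
  have hyr' := y1_range h12 h23 hri' (tau1 a₁ a₂ a₃ r')
  have hg := y3_range h12 h23 hri (tau1 a₁ a₂ a₃ r)
  have hg' := y3_range h12 h23 hri' (tau1 a₁ a₂ a₃ r')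
  have hmo := moebius3 h12 h23 hr0 (tau1 a₁ a₂ a₃ r)
  have hmo' := moebius3 h12 h23 hr0' (tau1 a₁ a₂ a₃ r')
  have hsq : v1 a₁ a₂ a₃ r (tau1 a₁ a₂ a₃ r) ^ 2
      = PP (a₁ - r) (a₁ - a₂) (a₁ - a₃) (y1 a₁ a₂ a₃ r (tau1 a₁ a₂ a₃ r)) := yd_sq _ _ _ _
  have hsq' : v1 a₁ a₂ a₃ r' (tau1 a₁ a₂ a₃ r') ^ 2
      = PP (a₁ - r') (a₁ - a₂) (a₁ - a₃) (y1 a₁ a₂ a₃ r' (tau1 a₁ a₂ a₃ r')) := yd_sq _ _ _ _
  by_contra hle
  push Not at hle
  generalize hT : tau1 a₁ a₂ a₃ r = T at *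
  generalize hT' : tau1 a₁ a₂ a₃ r' = T' at *
  generalize hyy : y1 a₁ a₂ a₃ r T = y at *
  generalize hyy' : y1 a₁ a₂ a₃ r' T' = y' at *
  generalize hgg : -y3 a₁ a₂ a₃ r T = g at *
  generalize hgg' : -y3 a₁ a₂ a₃ r' T' = g' at *
  generalize v1 a₁ a₂ a₃ r T = v at *
  generalize v1 a₁ a₂ a₃ r' T' = v' at *
  rw [hG1] at hd0 hdpi hrel
  rw [hG1'] at hd0' hdpi' hrel'
  have hr1 := hr.1
  have hr2 := hr.2
  have hr1' := hr'.1
  have hr2' := hr'.2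
  obtain ⟨hmoe, hE⟩ := hmo
  obtain ⟨hmoe', hE'⟩ := hmo'
  obtain ⟨-, hyk, hym⟩ := hyr
  obtain ⟨-, hyk', hym'⟩ := hyr'
  -- comparison of `g`
  have hgle : g ≤ g' := by
    have hid : (a₂ - a₃) * (r' - a₃) * y' * ((a₁ - a₂) * (a₁ - r) - y * ((a₁ - r) - (a₂ - a₃)))
        - (a₂ - a₃) * (r - a₃) * y * ((a₁ - a₂) * (a₁ - r') - y' * ((a₁ - r') - (a₂ - a₃)))
        = (a₂ - a₃) * ((a₁ - a₂) * ((y' - y) * (a₁ - r) * (r' - a₃)
          + y * (r' - r) * (a₁ - a₃ - y'))) := by ring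
    have hnn : 0 ≤ (a₂ - a₃) * ((a₁ - a₂) * ((y' - y) * (a₁ - r) * (r' - a₃)
          + y * (r' - r) * (a₁ - a₃ - y'))) := by
      refine mul_nonneg (by linarith) (mul_nonneg (by linarith) (add_nonneg ?_ ?_))
      · exact mul_nonneg (mul_nonneg (by linarith) (by linarith)) (by linarith)
      · exact mul_nonneg (mul_nonneg (by linarith) (by linarith)) (by linarith)
    rw [← hid, ← hmoe, ← hmoe'] at hnn
    have h5 : 0 ≤ (g' - g) * (((a₁ - a₂) * (a₁ - r) - y * ((a₁ - r) - (a₂ - a₃))) *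
        ((a₁ - a₂) * (a₁ - r') - y' * ((a₁ - r') - (a₂ - a₃)))) := by linarith
    have := nonneg_of_mul_nonneg_left h5 (mul_pos hE hE')
    linarith
  -- comparison of `G₃`
  have hlt : G3 a₁ a₂ a₃ r' T' < G3 a₁ a₂ a₃ r T := by
    rw [hG3, hG3']
    have hg0 : 0 ≤ g := by linarith [hg.1]
    have c1 := (gg3_anti_r (x := a₂ - a₃) hax (h23.trans hr.1) hrr.le hr'.2 (by linarith)
      (by linarith) le_rfl (Or.inr hr.1)).2 hrr (by linarith)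
    have c2 := gg3_incr hax hr hr' hrr.le (x := g) ⟨hg0, hg.2.2⟩
    have c3 : gg3 a₁ a₂ a₃ r' g ≤ gg3 a₁ a₂ a₃ r' g' := by
      rcases hgle.eq_or_lt with h | h
      · rw [h]
      · exact (gg3_strictMono hax (h23.trans hr'.1) hr'.2 hg0 h hg'.2.1 hg'.2.2
          (Or.inr hr'.1.ne')).le
    linarith
  generalize G3 a₁ a₂ a₃ r T = u at *
  generalize G3 a₁ a₂ a₃ r' T' = u' at *
  -- comparison of the cotangents
  set A := 2 * y * (a₁ - a₃ - y) with hA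
  set A' := 2 * y' * (a₁ - a₃ - y') with hA'
  have hApos : 0 < A := mul_pos (by linarith) (by linarith)
  have hApos' : 0 < A' := mul_pos (by linarith) (by linarith)
  have hcmp : A' * v ≤ A * v' := by
    have h1 : A' * v ≤ 0 := mul_nonpos_of_nonneg_of_nonpos hApos'.le hv
    have h2 : A * v' ≤ 0 := mul_nonpos_of_nonneg_of_nonpos hApos.le hv'
    have h3 : (A * v') ^ 2 ≤ (A' * v) ^ 2 := by
      rw [mul_pow A v' 2, mul_pow A' v 2, hsq, hsq']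
      have e1 : A' ^ 2 * PP (a₁ - r) (a₁ - a₂) (a₁ - a₃) y
          - A ^ 2 * PP (a₁ - r') (a₁ - a₂) (a₁ - a₃) y'
          = 16 * y * y' * (a₁ - a₃ - y) * (a₁ - a₃ - y') *
            (((a₁ - r - y) * y') * ((a₁ - a₂ - y) * (a₁ - a₃ - y'))
            - ((a₁ - r' - y') * y) * ((a₁ - a₂ - y') * (a₁ - a₃ - y))) := by
        rw [hA, hA']
        unfold PP
        ring
      have e2 : (a₁ - r' - y') * y ≤ (a₁ - r - y) * y' := by
        have : (a₁ - r') * y ≤ (a₁ - r) * y' :=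
          mul_le_mul (by linarith) hle hy0.le (by linarith)
        linarith
      have e3 : (a₁ - a₂ - y') * (a₁ - a₃ - y) ≤ (a₁ - a₂ - y) * (a₁ - a₃ - y') := by
        have : 0 ≤ (a₂ - a₃) * (y' - y) := mul_nonneg (by linarith) (by linarith)
        linarith
      have e4 : ((a₁ - r' - y') * y) * ((a₁ - a₂ - y') * (a₁ - a₃ - y))
          ≤ ((a₁ - r - y) * y') * ((a₁ - a₂ - y) * (a₁ - a₃ - y')) :=
        mul_le_mul e2 e3 (mul_nonneg (by linarith) (by linarith))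
          (mul_nonneg (by linarith) hy0'.le)
      have e5 : 0 ≤ 16 * y * y' * (a₁ - a₃ - y) * (a₁ - a₃ - y') :=
        mul_nonneg (mul_nonneg (mul_nonneg (by linarith) hy0'.le) (by linarith)) (by linarith)
      have := mul_nonneg e5 (sub_nonneg.2 e4)
      linarith
    have h4 := sq_le_sq.1 h3
    rw [abs_of_nonpos h1, abs_of_nonpos h2] at h4
    linarith
  have hsin : 0 < Real.sin ((Real.pi - u') - (Real.pi - u)) :=
    Real.sin_pos_of_pos_of_lt_pi (by linarith) (by linarith)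
  have hsd : 0 < Real.sin (Real.pi - u) := Real.sin_pos_of_pos_of_lt_pi hd0 hdpi
  have hsd' : 0 < Real.sin (Real.pi - u') := Real.sin_pos_of_pos_of_lt_pi hd0' hdpi'
  have hfin : A * A' * Real.sin ((Real.pi - u') - (Real.pi - u))
      = Real.sin (Real.pi - u) * Real.sin (Real.pi - u') * (A' * v - A * v') := by
    rw [Real.sin_sub (Real.pi - u') (Real.pi - u)]
    linear_combination A' * Real.sin (Real.pi - u') * hrel
      - A * Real.sin (Real.pi - u) * hrel'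
  have h6 : 0 < A * A' * Real.sin ((Real.pi - u') - (Real.pi - u)) :=
    mul_pos (mul_pos hApos hApos') hsin
  rw [hfin] at h6
  have h7 : Real.sin (Real.pi - u) * Real.sin (Real.pi - u') * (A' * v - A * v') ≤ 0 :=
    mul_nonpos_of_nonneg_of_nonpos (mul_pos hsd hsd').le (by linarith)
  linarith

end TauBAux

section tau
variable {a₁ a₂ a₃ r r' τ : ℝ}

theorem yend_anti (hax : Ax a₁ a₂ a₃) (hr : r ∈ Icc a₃ a₁) (hr' : r' ∈ Icc a₃ a₁)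
    (h : Reg1 a₁ a₂ a₃ r) (h' : Reg1 a₁ a₂ a₃ r') (hrr : r < r') :
    y1 a₁ a₂ a₃ r' (tau1 a₁ a₂ a₃ r') < y1 a₁ a₂ a₃ r (tau1 a₁ a₂ a₃ r) := by
  have h12 := hax.h12
  have h23 := hax.h23
  have hr0 : r ∈ Ico a₃ a₁ := ⟨hr.1, hrr.trans_le hr'.2⟩
  have hper : ∀ s ∈ Ico a₃ a₁, Reg1 a₁ a₂ a₃ s → Per a₁ a₂ a₃ s (tau1 a₁ a₂ a₃ s) := by
    intro s hs hR
    refine tcut_per hax hs (tau1_spec hax ⟨hs.1, hs.2.le⟩).1 ?_
    unfold tcut
    rw [if_pos hR]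
  have hy0 := y1_pos h12 h23 hr0 (hper r hr0 h)
  rcases hr'.2.eq_or_lt with he | hlt'
  · have : y1 a₁ a₂ a₃ r' (tau1 a₁ a₂ a₃ r') = 0 := by
      unfold y1
      rw [he, sub_self, yf_zero]
    rw [this]
    exact hy0
  have hr0' : r' ∈ Ico a₃ a₁ := ⟨hr'.1, hlt'⟩
  -- the value of the clock at the end point is at most `π`
  have hle' : gg1 a₁ a₂ a₃ r' (y1 a₁ a₂ a₃ r' (tau1 a₁ a₂ a₃ r')) ≤ Real.pi := by
    by_cases hf : First a₁ a₂ a₃ r' (tau1 a₁ a₂ a₃ r')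
    · rw [← clock1 hax hr0' hf, (tau1_spec hax hr').2]
    · have hne : r' ≠ a₂ := by
        intro he
        exact hf ⟨(tau1_spec hax hr').1.le, fun hh => absurd he hh⟩
      have hTs : Ts a₁ a₂ a₃ r' < tau1 a₁ a₂ a₃ r' := by
        by_contra hh
        push Not at hh
        exact hf ⟨(tau1_spec hax hr').1.le, fun _ => hh⟩
      rcases lt_or_gt_of_ne hne with h3 | h3
      · exact absurd (tau1_first hax ⟨hr'.1, h3⟩ h').1 (not_le.2 hTs)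
      · refine (TauBAux.second_data hax ⟨h3, hlt'⟩ ?_).2.2.2
        have := (G_strictMono hax hr').1 hTs
        rw [(tau1_spec hax hr').2] at this
        exact this.le
  by_cases hf : First a₁ a₂ a₃ r (tau1 a₁ a₂ a₃ r)
  · -- first half
    by_contra hcon
    push Not at hcon
    have e := clock1 hax hr0 hf
    rw [(tau1_spec hax hr).2] at e
    have hyr' := y1_range h12 h23 hr' (tau1 a₁ a₂ a₃ r')
    have hlast : y1 a₁ a₂ a₃ r' (tau1 a₁ a₂ a₃ r') < a₁ - a₂ ∨ r' < a₂ := by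
      rcases lt_or_ge r' a₂ with h3 | h3
      · exact Or.inr h3
      · exact Or.inl (y1_lt_m2 h12 h23 hr0' (hper r' hr0' h') (Or.inl h3))
    have c1 := (gg1_mono_r (x := y1 a₁ a₂ a₃ r (tau1 a₁ a₂ a₃ r)) hax hr.1 hrr.le hlt' hy0.le
      (hcon.trans hyr'.2.1) (hcon.trans hyr'.2.2)
      (hlast.imp (fun h4 => hcon.trans_lt h4) id)).2 hrr hy0
    have c2 : gg1 a₁ a₂ a₃ r' (y1 a₁ a₂ a₃ r (tau1 a₁ a₂ a₃ r))
        ≤ gg1 a₁ a₂ a₃ r' (y1 a₁ a₂ a₃ r' (tau1 a₁ a₂ a₃ r')) := by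
      rcases hcon.eq_or_lt with h3 | h3
      · rw [h3]
      · exact (gg1_strictMono hax hr'.1 hlt' hy0.le h3 hyr'.2.1 hyr'.2.2
          (hlast.imp id fun h4 => h4.ne)).le
    linarith
  · -- second half
    have hne : r ≠ a₂ := by
      intro he
      exact hf ⟨(tau1_spec hax hr).1.le, fun hh => absurd he hh⟩
    have hTs : Ts a₁ a₂ a₃ r < tau1 a₁ a₂ a₃ r := by
      by_contra hh
      push Not at hh
      exact hf ⟨(tau1_spec hax hr).1.le, fun _ => hh⟩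
    have h3 : a₂ < r := by
      rcases lt_or_gt_of_ne hne with h3 | h3
      · exact absurd (tau1_first hax ⟨hr.1, h3⟩ h).1 (not_le.2 hTs)
      · exact h3
    have hG : G1 a₁ a₂ a₃ r (Ts a₁ a₂ a₃ r) ≤ Real.pi := by
      have := (G_strictMono hax hr).1 hTs
      rw [(tau1_spec hax hr).2] at this
      exact this.le
    have hri : r ∈ Ioo a₂ a₁ := ⟨h3, hr0.2⟩
    have hri' : r' ∈ Ioo a₂ a₁ := ⟨h3.trans hrr, hlt'⟩
    exact TauBAux.second_second hax hri hri' hrr hG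
      ((TauBAux.Gstar_anti hax hri hri' hrr).le.trans hG)

theorem wend_mono (hax : Ax a₁ a₂ a₃) (hr : r ∈ Icc a₃ a₁) (hr' : r' ∈ Icc a₃ a₁)
    (h : ¬ Reg1 a₁ a₂ a₃ r) (h' : ¬ Reg1 a₁ a₂ a₃ r') (hrr : r < r') :
    -y2 a₁ a₂ a₃ r (tau2 a₁ a₂ a₃ r) < -y2 a₁ a₂ a₃ r' (tau2 a₁ a₂ a₃ r') := by
  have h12 := hax.h12
  have h23 := hax.h23
  have key : ∀ s ∈ Icc a₃ a₁, ¬ Reg1 a₁ a₂ a₃ s → s < a₂ ∧
      Real.pi = 2 * gg2T a₁ a₂ a₃ s (a₁ - a₂)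
        - gg2T a₁ a₂ a₃ s (-y2 a₁ a₂ a₃ s (tau2 a₁ a₂ a₃ s)) := by
    intro s hs hR
    have hs2 : s < a₂ := by
      by_contra hh
      push Not at hh
      exact hR (Or.inl hh)
    have hs0 : s ∈ Ico a₃ a₁ := ⟨hs.1, hs2.trans h12⟩
    have hsT : s ∈ Ico a₃ a₂ := ⟨hs.1, hs2⟩
    have hne : s ≠ a₂ := hs2.ne
    have hper : Per a₁ a₂ a₃ s (tau2 a₁ a₂ a₃ s) := by
      refine tcut_per hax hs0 (tau2_spec hax hs).1 ?_
      unfold tcut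
      rw [if_neg hR]
    have h1 := tau2_second hax hsT hR
    have h2 := hper.2 hne
    have hfirst : First a₁ a₂ a₃ s (2 * Ts a₁ a₂ a₃ s - tau2 a₁ a₂ a₃ s) :=
      ⟨by linarith, fun _ => by linarith⟩
    have e1 : G2 a₁ a₂ a₃ s (Ts a₁ a₂ a₃ s) = gg2T a₁ a₂ a₃ s (a₁ - a₂) := by
      rw [clock2T hax hsT ⟨(Ts_pos h12 h23 hs0 hne).le, fun _ => le_rfl⟩,
        (TsT h12 h23 hsT).2.1, neg_sub]
    have e2 := (G_refl h12 h23 hs0 hne (tau2 a₁ a₂ a₃ s)).2.1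
    rw [clock2T hax hsT hfirst, (y_refl h12 h23 hs0 hne (tau2 a₁ a₂ a₃ s)).2.1, e1,
      (tau2_spec hax hs).2] at e2
    exact ⟨hs2, by linarith⟩
  obtain ⟨hs, hk⟩ := key r hr h
  obtain ⟨hs', hk'⟩ := key r' hr' h'
  have hw := y2_rangeT h12 h23 ⟨hr.1, hs.le⟩ (tau2 a₁ a₂ a₃ r)
  have hw' := y2_rangeT h12 h23 ⟨hr'.1, hs'.le⟩ (tau2 a₁ a₂ a₃ r')
  by_contra hcon
  push Not at hcon
  generalize -y2 a₁ a₂ a₃ r (tau2 a₁ a₂ a₃ r) = w at *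
  generalize hww : -y2 a₁ a₂ a₃ r' (tau2 a₁ a₂ a₃ r') = w' at *
  have hw0' : 0 ≤ w' := by linarith [hw'.1]
  have c1 := (gg2T_mono_r (r := r) (r' := r') (x := 0) (x' := a₁ - a₂) hax hr.1 hrr.le hs' le_rfl
    (by linarith) le_rfl).2 hrr (by linarith)
  rw [TauBAux.gg2T_zero, TauBAux.gg2T_zero, sub_zero, sub_zero] at c1
  have c2 := (gg2T_mono_r (r := r) (r' := r') (x := w) (x' := a₁ - a₂) hax hr.1 hrr.le hs'
    (hw0'.trans hcon) hw.2 le_rfl).1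
  have c3 : gg2T a₁ a₂ a₃ r' w' ≤ gg2T a₁ a₂ a₃ r' w := by
    rcases hcon.eq_or_lt with h3 | h3
    · rw [h3]
    · exact (gg2T_strictMono hax hr'.1 hs' hw0' h3 hw.2).le
  linarith

end tau

end

end Pool.Agent.CutS3
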