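import Pool.Agent.CutS3.Defs

set_option autoImplicit false

/-!
# Module IDXALG: the algebra of the index data
-/

namespace Pool.Agent.CutS3

open Set Quaternion

noncomputable section

theorem idx_vsq {m n z0 z2 z3 p1 p2 p3 y v : ℝ} (h : IdxAt m n z0 z2 z3 p1 p2 p3 y v) :
    v ^ 2 = 4 * y * (m - y) * (n - y) *
      (m * p2 ^ 2 + n * p3 ^ 2 - y * (p1 ^ 2 + p2 ^ 2 + p3 ^ 2)) := by
  obtain ⟨hu, hy, hI, hv⟩ := h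
  subst hv
  subst hy
  linear_combination ((z0*(-4*m*n^2*z2^2*z3^2 - 4*m^2*n*z2^2*z3^2 - 4*m^3*z3^4 - 4*n^3*z2^4 + 4*m*n^2*z2^2 + 4*m^2*n*z3^2)) * p1
    + (-4*m*n^2*z2^2*z3^3 + 8*m*n^2*z2^4*z3 + 12*m^2*n*z2^2*z3^3 + 4*m^3*z3^5 - 4*n^3*z2^4*z3 - 8*m^2*n*z2^2*z3 - 4*m^2*n*z3^3 - 4*m^3*z3^3 + 4*m^2*n*z3) * p2
    + (-12*m*n^2*z2^3*z3^2 - 8*m^2*n*z2*z3^4 + 4*m^2*n*z2^3*z3^2 + 4*m^3*z2*z3^4 - 4*n^3*z2^5 + 8*m*n^2*z2*z3^2 + 4*m*n^2*z2^3 + 4*n^3*z2^3 - 4*m*n^2*z2) * p3) * hI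
    + (8*m*n^3*p1^2*z2^4*z3^2 + 8*m*n^3*p2*p3*z2^5*z3 + 8*m*n^3*p2^2*z2^4*z3^2 + 4*m^2*n^2*p1^2*z2^2*z3^4 + 4*m^2*n^2*p1^2*z2^4*z3^2 + 16*m^2*n^2*p2*p3*z2^3*z3^3 + 4*m^2*n^2*p2^2*z2^2*z3^4 + 4*m^2*n^2*p3^2*z2^4*z3^2 + 8*m^3*n*p1^2*z2^2*z3^4 + 8*m^3*n*p2*p3*z2*z3^5 + 8*m^3*n*p3^2*z2^2*z3^4 + 4*m^4*p1^2*z3^6 + 4*m^4*p3^2*z3^6 + 4*n^4*p1^2*z2^6 + 4*n^4*p2^2*z2^6 - 4*m*n^3*p1^2*z2^4 - 8*m*n^3*p2*p3*z2^3*z3 - 8*m*n^3*p2^2*z2^4 - 8*m^2*n^2*p1^2*z2^2*z3^2 - 8*m^2*n^2*p2*p3*z2*z3^3 - 8*m^2*n^2*p2*p3*z2^3*z3 - 8*m^2*n^2*p2^2*z2^2*z3^2 - 8*m^2*n^2*p3^2*z2^2*z3^2 - 4*m^3*n*p1^2*z3^4 - 8*m^3*n*p2*p3*z2*z3^3 - 8*m^3*n*p3^2*z3^4 + 8*m^2*n^2*p2*p3*z2*z3 + 4*m^2*n^2*p2^2*z2^2 + 4*m^2*n^2*p3^2*z3^2) * hu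

theorem idx_p {m n z0 z2 z3 p1 p2 p3 y v : ℝ} (h : IdxAt m n z0 z2 z3 p1 p2 p3 y v) :
    2 * y * (m - y) * (n - y) * p1 = -v * (n - m) * z2 * z3
      + 2 * y * (m - y) * (n - y) * (z0 * p1 + z3 * p2 - z2 * p3) * z0 ∧
    2 * y * (m - y) * (n - y) * p2 = v * n * z0 * z2
      + 2 * y * (m - y) * (n - y) * (z0 * p1 + z3 * p2 - z2 * p3) * z3 ∧
    2 * y * (m - y) * (n - y) * p3 = v * m * z0 * z3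
      - 2 * y * (m - y) * (n - y) * (z0 * p1 + z3 * p2 - z2 * p3) * z2 ∧
    2 * (m - y) * (n - y) * (p2 * z2 + p3 * z3) = v * z0 := by
  obtain ⟨hu, hy, hI, hv⟩ := h
  subst hv
  subst hy
  refine ⟨?_, ?_, ?_, ?_⟩
  · linear_combination (-2 * (m^2*z0*z3^4 + 2*m*n*z0*z2^2*z3^2 - m*n*z0*z2^2 - m*n*z0*z3^2 + n^2*z0*z2^4)) * hI
      + (2*m^3*z3^4*p1 + 2*m^2*n*z2^2*z3^2*p1 - 2*m^2*n*z3^2*p1 + 2*m*n^2*z2^2*z3^2*p1 - 2*m*n^2*z2^2*p1 + 2*n^3*z2^4*p1) * hu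
  · linear_combination (-2 * (-m^2*z0^2*z3^3 - m^2*z2^2*z3^3 - m*n*z0^2*z2^2*z3 + m*n*z0^2*z3 - m*n*z2^4*z3 + m*n*z2^2*z3^3 + n^2*z2^4*z3)) * hI
      + (-2*m^3*z0*z3^5*p1 + 2*m^3*z2*z3^5*p3 - 2*m^3*z3^6*p2 + 2*m^3*z3^4*p2 - 4*m^2*n*z0*z2^2*z3^3*p1 + 2*m^2*n*z0*z3^3*p1 + 4*m^2*n*z2^3*z3^3*p3 - 4*m^2*n*z2^2*z3^4*p2 + 2*m^2*n*z2^2*z3^2*p2 - 2*m^2*n*z2*z3^3*p3 + 2*m^2*n*z3^4*p2 - 2*m^2*n*z3^2*p2 - 2*m*n^2*z0*z2^4*z3*p1 + 2*m*n^2*z0*z2^2*z3*p1 + 2*m*n^2*z2^5*z3*p3 - 2*m*n^2*z2^4*z3^2*p2 - 2*m*n^2*z2^3*z3*p3 + 4*m*n^2*z2^2*z3^2*p2 - 2*m*n^2*z2^2*p2 + 2*n^3*z2^4*p2) * hu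
  · linear_combination (-2 * (-m^2*z2*z3^4 + m*n*z0^2*z2*z3^2 - m*n*z0^2*z2 - m*n*z2^3*z3^2 + m*n*z2*z3^4 + n^2*z0^2*z2^3 + n^2*z2^3*z3^2)) * hI
      + (2*m^3*z3^4*p3 + 2*m^2*n*z0*z2*z3^4*p1 - 2*m^2*n*z0*z2*z3^2*p1 - 2*m^2*n*z2^2*z3^4*p3 + 4*m^2*n*z2^2*z3^2*p3 + 2*m^2*n*z2*z3^5*p2 - 2*m^2*n*z2*z3^3*p2 - 2*m^2*n*z3^2*p3 + 4*m*n^2*z0*z2^3*z3^2*p1 - 2*m*n^2*z0*z2^3*p1 - 4*m*n^2*z2^4*z3^2*p3 + 2*m*n^2*z2^4*p3 + 4*m*n^2*z2^3*z3^3*p2 - 2*m*n^2*z2^3*z3*p2 + 2*m*n^2*z2^2*z3^2*p3 - 2*m*n^2*z2^2*p3 + 2*n^3*z0*z2^5*p1 - 2*n^3*z2^6*p3 + 2*n^3*z2^5*z3*p2 + 2*n^3*z2^4*p3) * hu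
  · linear_combination (-2 * (n-m)*z2*z3) * hI
      + (2*m^2*z3^3*p3 + 2*m*n*z2^2*z3*p3 + 2*m*n*z2*z3^2*p2 - 2*m*n*z2*p2 - 2*m*n*z3*p3 + 2*n^2*z2^3*p2) * hu

namespace IdxAux

theorem star_mul_self_one {q : ℍ[ℝ]} (hq : ‖q‖ = 1) : star q * q = 1 := by
  rw [Quaternion.star_mul_self, Quaternion.normSq_eq_norm_mul_self, hq]
  simp

theorem self_mul_star_one {q : ℍ[ℝ]} (hq : ‖q‖ = 1) : q * star q = 1 := by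
  rw [Quaternion.self_mul_star, Quaternion.normSq_eq_norm_mul_self, hq]
  simp

theorem mul_self_un {n : ℍ[ℝ]} (hn : n ∈ Un) : n * n = -1 := by
  have h1 : star n = -n := by
    rw [Quaternion.star_eq_neg]
    exact hn.1
  have h2 := self_mul_star_one hn.2
  rw [h1, mul_neg] at h2
  rw [← h2, neg_neg]

theorem coe_eq (x : ℝ) : (x : ℍ[ℝ]) = x • (1 : ℍ[ℝ]) := by
  have h := Quaternion.smul_coe x (1 : ℝ)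
  rw [mul_one, Quaternion.coe_one] at h
  exact h.symm

theorem rot_mul {n : ℍ[ℝ]} (hn : n ∈ Un) (a b : ℝ) : rot a n * rot b n = rot (a + b) n := by
  have h := mul_self_un hn
  unfold rot
  rw [Real.cos_add, Real.sin_add]
  rw [coe_eq (Real.cos a), coe_eq (Real.cos b),
    coe_eq (Real.cos a * Real.cos b - Real.sin a * Real.sin b), add_mul, mul_add, mul_add]
  simp only [smul_mul_smul_comm, mul_one, one_mul, h]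
  module

theorem rot_zero (n : ℍ[ℝ]) : rot 0 n = 1 := by
  unfold rot
  simp

theorem rot_conj {q n : ℍ[ℝ]} (hq : ‖q‖ = 1) (a : ℝ) :
    rot a (bm n q) = star q * rot a n * q := by
  unfold rot bm
  have h := star_mul_self_one hq
  rw [mul_add, add_mul, mul_smul_comm, smul_mul_assoc]
  congr 1
  rw [← Quaternion.coe_commutes, mul_assoc, h, mul_one]

end IdxAux

theorem zz_shift {q n : ℍ[ℝ]} {G G' : ℝ} (hq : ‖q‖ = 1) (hn : n ∈ Un) :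
    star q * rot G' n = rot (G' - G) (bm n q) * (star q * rot G n) := by
  rw [IdxAux.rot_conj hq]
  have h := IdxAux.self_mul_star_one hq
  calc star q * rot G' n = star q * (rot (G' - G) n * rot G n) := by
        rw [IdxAux.rot_mul hn, sub_add_cancel]
    _ = star q * rot (G' - G) n * (q * star q) * rot G n := by
        rw [h, mul_one, mul_assoc]
    _ = star q * rot (G' - G) n * q * (star q * rot G n) := by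
        simp only [mul_assoc]

/-- the relation between `q`, `z = q̄ exp(G n)` and the body momentum -/
theorem star_eq {q n z : ℍ[ℝ]} {G : ℝ} (hq : ‖q‖ = 1) (hn : n ∈ Un)
    (hz : z = star q * rot G n) : star q = rot (-G) (bm n q) * z := by
  have h := zz_shift (G := G) (G' := 0) hq hn
  rw [IdxAux.rot_zero, mul_one, zero_sub] at h
  rw [hz]
  exact h

/-- twins: same point, same `y`, `v`, at an angle `G = π` (so `z = -q̄`) -/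
theorem idx_twin {m n z0 z2 z3 p1 p2 p3 p1' p2' p3' y v : ℝ}
    (h : IdxAt m n z0 z2 z3 p1 p2 p3 y v) (h' : IdxAt m n z0 z2 z3 p1' p2' p3' y v)
    (hy : y ≠ 0) (hm : m - y ≠ 0) (hn : n - y ≠ 0)
    (hp : p1 ^ 2 + p2 ^ 2 + p3 ^ 2 = 1) (hp' : p1' ^ 2 + p2' ^ 2 + p3' ^ 2 = 1) :
    (p1' = p1 ∧ p2' = p2 ∧ p3' = p3) ∨
    (p1' = p1 - 2 * (z0 * p1 + z3 * p2 - z2 * p3) * z0 ∧
     p2' = p2 - 2 * (z0 * p1 + z3 * p2 - z2 * p3) * z3 ∧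
     p3' = p3 + 2 * (z0 * p1 + z3 * p2 - z2 * p3) * z2) := by
  obtain ⟨e1, e2, e3, -⟩ := idx_p h
  obtain ⟨f1, f2, f3, -⟩ := idx_p h'
  have hu := h.unit
  set T : ℝ := 2 * y * (m - y) * (n - y) with hT
  have hT0 : T ≠ 0 := by
    rw [hT]
    exact mul_ne_zero (mul_ne_zero (mul_ne_zero two_ne_zero hy) hm) hn
  set bn : ℝ := z0 * p1 + z3 * p2 - z2 * p3 with hbn
  set bn' : ℝ := z0 * p1' + z3 * p2' - z2 * p3' with hbn'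
  have k1 : T ^ 2 * (p1 ^ 2 + p2 ^ 2 + p3 ^ 2) = v ^ 2 * ((n - m) ^ 2 * z2 ^ 2 * z3 ^ 2
      + n ^ 2 * z0 ^ 2 * z2 ^ 2 + m ^ 2 * z0 ^ 2 * z3 ^ 2) + T ^ 2 * bn ^ 2 := by
    have : T ^ 2 * (p1 ^ 2 + p2 ^ 2 + p3 ^ 2) = (T * p1) ^ 2 + (T * p2) ^ 2 + (T * p3) ^ 2 := by
      ring
    rw [this, e1, e2, e3]
    linear_combination (T ^ 2 * bn ^ 2) * hu
  have k2 : T ^ 2 * (p1' ^ 2 + p2' ^ 2 + p3' ^ 2) = v ^ 2 * ((n - m) ^ 2 * z2 ^ 2 * z3 ^ 2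
      + n ^ 2 * z0 ^ 2 * z2 ^ 2 + m ^ 2 * z0 ^ 2 * z3 ^ 2) + T ^ 2 * bn' ^ 2 := by
    have : T ^ 2 * (p1' ^ 2 + p2' ^ 2 + p3' ^ 2)
        = (T * p1') ^ 2 + (T * p2') ^ 2 + (T * p3') ^ 2 := by
      ring
    rw [this, f1, f2, f3]
    linear_combination (T ^ 2 * bn' ^ 2) * hu
  have k3 : T ^ 2 * ((bn' - bn) * (bn' + bn)) = 0 := by
    linear_combination k1 - k2 - T ^ 2 * hp + T ^ 2 * hp'
  rcases mul_eq_zero.mp k3 with k4 | k4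
  · exact absurd k4 (pow_ne_zero 2 hT0)
  rcases mul_eq_zero.mp k4 with k5 | k5
  · left
    have k6 : bn' = bn := sub_eq_zero.mp k5
    rw [k6] at f1 f2 f3
    exact ⟨mul_left_cancel₀ hT0 (f1.trans e1.symm), mul_left_cancel₀ hT0 (f2.trans e2.symm),
      mul_left_cancel₀ hT0 (f3.trans e3.symm)⟩
  · right
    have k6 : bn' = -bn := by linarith
    rw [k6] at f1 f2 f3
    refine ⟨mul_left_cancel₀ hT0 ?_, mul_left_cancel₀ hT0 ?_, mul_left_cancel₀ hT0 ?_⟩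
    · linear_combination f1 - e1
    · linear_combination f2 - e2
    · linear_combination f3 - e3

end

end Pool.Agent.CutS3
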