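import Pool.Agent.CutS3.Defs

set_option autoImplicit false

/-!
# Module INDEX, part 1: the core computation with real functions
-/

namespace Pool.Agent.CutS3

open Set Quaternion

noncomputable section

namespace IndexAux

/-- a linear differential inequality with zero initial value -/
theorem zero_of_bound_pos {E : Type} [NormedAddCommGroup E] [NormedSpace ℝ E] (f f' : ℝ → E)
    (K : ℝ → ℝ) (hK : Continuous K) (hf : ∀ t, HasDerivAt f (f' t) t)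
    (hb : ∀ t, ‖f' t‖ ≤ K t * ‖f t‖) (h0 : f 0 = 0) (t : ℝ) (ht : 0 ≤ t) : f t = 0 := by
  obtain ⟨M, hM⟩ := (isCompact_Icc (a := (0 : ℝ)) (b := t)).exists_bound_of_continuousOn
    hK.continuousOn
  have h := eq_zero_of_abs_deriv_le_mul_abs_self_of_eq_zero_right (f := f) (f' := f') (K := M)
    (a := 0) (b := t) (fun x _ => (hf x).continuousAt.continuousWithinAt)
    (fun x _ => (hf x).hasDerivWithinAt) h0 (fun x hx => ?_)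
  · exact h t ⟨ht, le_refl t⟩
  · have h1 := hM x ⟨hx.1, hx.2.le⟩
    refine (hb x).trans (mul_le_mul_of_nonneg_right ?_ (norm_nonneg _))
    exact (le_abs_self _).trans h1

theorem zero_of_bound {E : Type} [NormedAddCommGroup E] [NormedSpace ℝ E] (f f' : ℝ → E)
    (K : ℝ → ℝ) (hK : Continuous K) (hf : ∀ t, HasDerivAt f (f' t) t)
    (hb : ∀ t, ‖f' t‖ ≤ K t * ‖f t‖) (h0 : f 0 = 0) (t : ℝ) : f t = 0 := by
  rcases le_total 0 t with ht | ht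
  · exact zero_of_bound_pos f f' K hK hf hb h0 t ht
  · have h := zero_of_bound_pos (fun s => f (-s)) (fun s => -f' (-s)) (fun s => K (-s))
      (hK.comp continuous_neg) (fun s => ?_) (fun s => ?_) (by simpa using h0) (-t) (by linarith)
    · simpa using h
    · have h1 := (hf (-s)).scomp s (hasDerivAt_neg s)
      simpa [Function.comp_def] using h1
    · simpa using hb (-s)

/-- The core computation. -/
theorem core (m n k : ℝ) (z0 z1 z2 z3 p1 p2 p3 : ℝ → ℝ)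
    (hz0 : ∀ t, HasDerivAt z0 (-(-(n * z2 t ^ 2 + m * z3 t ^ 2) * p1 t * z1 t
      + (m - (n * z2 t ^ 2 + m * z3 t ^ 2)) * p2 t * z2 t
      + (n - (n * z2 t ^ 2 + m * z3 t ^ 2)) * p3 t * z3 t)) t)
    (hz1 : ∀ t, HasDerivAt z1 (-(n * z2 t ^ 2 + m * z3 t ^ 2) * p1 t * z0 t
      + (m - (n * z2 t ^ 2 + m * z3 t ^ 2)) * p2 t * z3 t
      - (n - (n * z2 t ^ 2 + m * z3 t ^ 2)) * p3 t * z2 t) t)
    (hz2 : ∀ t, HasDerivAt z2 ((m - (n * z2 t ^ 2 + m * z3 t ^ 2)) * p2 t * z0 t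
      + (n * z2 t ^ 2 + m * z3 t ^ 2) * p1 t * z3 t
      + (n - (n * z2 t ^ 2 + m * z3 t ^ 2)) * p3 t * z1 t) t)
    (hz3 : ∀ t, HasDerivAt z3 ((n - (n * z2 t ^ 2 + m * z3 t ^ 2)) * p3 t * z0 t
      - (n * z2 t ^ 2 + m * z3 t ^ 2) * p1 t * z2 t
      - (m - (n * z2 t ^ 2 + m * z3 t ^ 2)) * p2 t * z1 t) t)
    (hp1 : ∀ t, HasDerivAt p1 (-2 * (n - m) * p2 t * p3 t) t)
    (hp2 : ∀ t, HasDerivAt p2 (2 * n * p1 t * p3 t) t)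
    (hp3 : ∀ t, HasDerivAt p3 (-2 * m * p1 t * p2 t) t)
    (hu : ∀ t, z0 t ^ 2 + z1 t ^ 2 + z2 t ^ 2 + z3 t ^ 2 = 1)
    (hp : ∀ t, p1 t ^ 2 + p2 t ^ 2 + p3 t ^ 2 = 1) (hk : ∀ t, m * p2 t ^ 2 + n * p3 t ^ 2 = k)
    (i1 : z1 0 = 0) (i2 : z2 0 = 0) (i3 : z3 0 = 0) :
    (∀ t, z1 t = 0) ∧ (∀ t, IdxAt m n (z0 t) (z2 t) (z3 t) (p1 t) (p2 t) (p3 t)
      (n * z2 t ^ 2 + m * z3 t ^ 2)
      (2 * ((n - m) * z2 t * z3 t * (n * z2 t ^ 2 + m * z3 t ^ 2) * p1 t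
        + n * z0 t * z2 t * (m - (n * z2 t ^ 2 + m * z3 t ^ 2)) * p2 t
        + m * z0 t * z3 t * (n - (n * z2 t ^ 2 + m * z3 t ^ 2)) * p3 t))) ∧
    IsY k m n (fun t => n * z2 t ^ 2 + m * z3 t ^ 2)
      (fun t => 2 * ((n - m) * z2 t * z3 t * (n * z2 t ^ 2 + m * z3 t ^ 2) * p1 t
        + n * z0 t * z2 t * (m - (n * z2 t ^ 2 + m * z3 t ^ 2)) * p2 t
        + m * z0 t * z3 t * (n - (n * z2 t ^ 2 + m * z3 t ^ 2)) * p3 t)) := by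
  -- continuity
  have cz0 : Continuous z0 := continuous_iff_continuousAt.mpr fun t => (hz0 t).continuousAt
  have cz1 : Continuous z1 := continuous_iff_continuousAt.mpr fun t => (hz1 t).continuousAt
  have cz2 : Continuous z2 := continuous_iff_continuousAt.mpr fun t => (hz2 t).continuousAt
  have cz3 : Continuous z3 := continuous_iff_continuousAt.mpr fun t => (hz3 t).continuousAt
  have cp1 : Continuous p1 := continuous_iff_continuousAt.mpr fun t => (hp1 t).continuousAt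
  have cp2 : Continuous p2 := continuous_iff_continuousAt.mpr fun t => (hp2 t).continuousAt
  have cp3 : Continuous p3 := continuous_iff_continuousAt.mpr fun t => (hp3 t).continuousAt
  -- the derivative of `y`
  have hY : ∀ t, HasDerivAt (fun t => n * z2 t ^ 2 + m * z3 t ^ 2)
      (n * (2 * z2 t * ((m - (n * z2 t ^ 2 + m * z3 t ^ 2)) * p2 t * z0 t
        + (n * z2 t ^ 2 + m * z3 t ^ 2) * p1 t * z3 t
        + (n - (n * z2 t ^ 2 + m * z3 t ^ 2)) * p3 t * z1 t))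
      + m * (2 * z3 t * ((n - (n * z2 t ^ 2 + m * z3 t ^ 2)) * p3 t * z0 t
        - (n * z2 t ^ 2 + m * z3 t ^ 2) * p1 t * z2 t
        - (m - (n * z2 t ^ 2 + m * z3 t ^ 2)) * p2 t * z1 t))) t := by
    intro t
    refine ((((hz2 t).pow 2).const_mul n).add (((hz3 t).pow 2).const_mul m)).congr_deriv ?_
    norm_num
  -- the invariant `I`
  set I : ℝ → ℝ := fun t => p1 t * z0 t * (n * z2 t ^ 2 + m * z3 t ^ 2)
    - p2 t * z3 t * (m - (n * z2 t ^ 2 + m * z3 t ^ 2))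
    + p3 t * z2 t * (n - (n * z2 t ^ 2 + m * z3 t ^ 2)) with hIdef
  set g : ℝ → ℝ := fun t => -2 * (-(n - m) * z2 t * z3 t * p1 t + n * z0 t * z2 t * p2 t
    + m * z0 t * z3 t * p3 t) with hgdef
  set A : ℝ → ℝ := fun t => (2*m^2*z0 t*z3 t^3*p1 t*p2 t - 2*m^2*z0 t*z3 t*p1 t*p2 t - 2*m^2*z2 t*z3 t^3*p2 t*p3 t + 2*m^2*z2 t*z3 t*p2 t*p3 t + m^2*z3 t^4*p1 t^2 + 3*m^2*z3 t^4*p2 t^2 + m^2*z3 t^4*p3 t^2 - 4*m^2*z3 t^2*p2 t^2 + m^2*p2 t^2 + 2*m*n*z0 t*z2 t^2*z3 t*p1 t*p2 t - 2*m*n*z0 t*z2 t*z3 t^2*p1 t*p3 t - 2*m*n*z2 t^3*z3 t*p2 t*p3 t + 2*m*n*z2 t^2*z3 t^2*p1 t^2 + 4*m*n*z2 t^2*z3 t^2*p2 t^2 + 4*m*n*z2 t^2*z3 t^2*p3 t^2 - 2*m*n*z2 t^2*p2 t^2 - 2*m*n*z2 t*z3 t^3*p2 t*p3 t - 2*m*n*z3 t^2*p3 t^2 - 2*n^2*z0 t*z2 t^3*p1 t*p3 t + 2*n^2*z0 t*z2 t*p1 t*p3 t + n^2*z2 t^4*p1 t^2 + n^2*z2 t^4*p2 t^2 + 3*n^2*z2 t^4*p3 t^2 - 2*n^2*z2 t^3*z3 t*p2 t*p3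 t - 4*n^2*z2 t^2*p3 t^2 + 2*n^2*z2 t*z3 t*p2 t*p3 t + n^2*p3 t^2)
    - (2*m*n*z2 t*p1 t*p2 t + 2*m*n*z3 t*p1 t*p3 t) * z1 t with hAdef
  have hI : ∀ t, HasDerivAt I (g t * I t + A t * z1 t) t := by
    intro t
    refine ((((hp1 t).mul (hz0 t)).mul (hY t)).sub
      (((hp2 t).mul (hz3 t)).mul ((hY t).const_sub m))).add
      (((hp3 t).mul (hz2 t)).mul ((hY t).const_sub n)) |>.congr_deriv ?_
    simp only [Pi.mul_apply, hIdef, hgdef, hAdef]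
    linear_combination (2*m*n*z2 t*p1 t*p2 t + 2*m*n*z3 t*p1 t*p3 t) * hu t
  have hz1' : ∀ t, HasDerivAt z1 (-I t) t := by
    intro t
    refine (hz1 t).congr_deriv ?_
    simp only [hIdef]
    ring
  have hcont : Continuous fun t => 1 + |g t| + |A t| := by
    have c1 : Continuous g := by rw [hgdef]; fun_prop
    have c2 : Continuous A := by rw [hAdef]; fun_prop
    fun_prop
  have hzero := zero_of_bound (fun t => (z1 t, I t)) (fun t => (-I t, g t * I t + A t * z1 t))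
    (fun t => 1 + |g t| + |A t|) hcont (fun t => (hz1' t).prodMk (hI t)) (fun t => ?_) ?_
  rotate_left
  · have b1 : ‖z1 t‖ ≤ ‖(z1 t, I t)‖ := norm_fst_le (z1 t, I t)
    have b2 : ‖I t‖ ≤ ‖(z1 t, I t)‖ := norm_snd_le (z1 t, I t)
    have b0 : 0 ≤ ‖(z1 t, I t)‖ := norm_nonneg _
    set b := ‖(z1 t, I t)‖
    rw [Prod.norm_def]
    apply max_le
    · simp only [norm_neg]
      have : 0 ≤ (|g t| + |A t|) * b := by positivity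
      nlinarith
    · have e0 : ‖g t * I t + A t * z1 t‖ ≤ |g t| * ‖I t‖ + |A t| * ‖z1 t‖ :=
        (norm_add_le _ _).trans (add_le_add (norm_mul_le _ _) (norm_mul_le _ _))
      have e1 : |g t| * ‖I t‖ ≤ |g t| * b := mul_le_mul_of_nonneg_left b2 (abs_nonneg _)
      have e2 : |A t| * ‖z1 t‖ ≤ |A t| * b := mul_le_mul_of_nonneg_left b1 (abs_nonneg _)
      refine e0.trans ?_
      linarith
  · simp only [hIdef, i1, i2, i3]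
    norm_num
  have hz10 : ∀ t, z1 t = 0 := fun t => congrArg Prod.fst (hzero t)
  have hI0 : ∀ t, I t = 0 := fun t => congrArg Prod.snd (hzero t)
  have hu' : ∀ t, z0 t ^ 2 + z2 t ^ 2 + z3 t ^ 2 = 1 := by
    intro t
    have h := hu t
    rw [hz10 t] at h
    linarith
  refine ⟨hz10, fun t => ⟨hu' t, rfl, hI0 t, rfl⟩, ?_, ?_, ?_, ?_⟩
  · simp only [i2, i3]
    norm_num
  · simp only [i2, i3]
    norm_num
  · intro t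
    refine (hY t).congr_deriv ?_
    rw [hz10 t]
    ring
  · intro t
    have hp' := hp t
    have hut := hu' t
    have hIt : p1 t * z0 t * (n * z2 t ^ 2 + m * z3 t ^ 2)
      - p2 t * z3 t * (m - (n * z2 t ^ 2 + m * z3 t ^ 2))
      + p3 t * z2 t * (n - (n * z2 t ^ 2 + m * z3 t ^ 2)) = 0 := hI0 t
    have hd := ((((((hz2 t).const_mul (n - m)).mul (hz3 t)).mul (hY t)).mul (hp1 t)).add
      (((((hz0 t).const_mul n).mul (hz2 t)).mul ((hY t).const_sub m)).mul (hp2 t))).add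
      (((((hz0 t).const_mul m).mul (hz3 t)).mul ((hY t).const_sub n)).mul (hp3 t))
    refine (hd.const_mul 2).congr_deriv ?_
    simp only [Pi.mul_apply, PD]
    rw [← hk t, hz10 t]
    linear_combination (-6*m^2*z0 t*z3 t^2*p1 t + 6*m^2*z2 t*z3 t^2*p3 t + 8*m^2*z3 t^3*p2 t - 4*m^2*z3 t*p2 t - 2*m*n*z0 t*z2 t^2*p1 t - 2*m*n*z0 t*z3 t^2*p1 t + 4*m*n*z0 t*p1 t + 2*m*n*z2 t^3*p3 t + 12*m*n*z2 t^2*z3 t*p2 t - 12*m*n*z2 t*z3 t^2*p3 t + 2*m*n*z2 t*p3 t - 2*m*n*z3 t^3*p2 t - 2*m*n*z3 t*p2 t - 6*n^2*z0 t*z2 t^2*p1 t - 8*n^2*z2 t^3*p3 t - 6*n^2*z2 t^2*z3 t*p2 t + 4*n^2*z2 t*p3 t) * hIt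
      + (6*m^3*z3 t^4*p1 t^2 + 6*m^3*z3 t^4*p3 t^2 + 8*m^2*n*z2 t^2*z3 t^2*p1 t^2 + 8*m^2*n*z2 t^2*z3 t^2*p3 t^2 + 8*m^2*n*z2 t*z3 t^3*p2 t*p3 t - 4*m^2*n*z2 t*z3 t*p2 t*p3 t + 2*m^2*n*z3 t^4*p1 t^2 + 2*m^2*n*z3 t^4*p2 t^2 - 4*m^2*n*z3 t^2*p1 t^2 - 4*m^2*n*z3 t^2*p2 t^2 - 8*m^2*n*z3 t^2*p3 t^2 + 2*m^2*n*p2 t^2 + 2*m*n^2*z2 t^4*p1 t^2 + 2*m*n^2*z2 t^4*p3 t^2 + 8*m*n^2*z2 t^3*z3 t*p2 t*p3 t + 8*m*n^2*z2 t^2*z3 t^2*p1 t^2 + 8*m*n^2*z2 t^2*z3 t^2*p2 t^2 - 4*m*n^2*z2 t^2*p1 t^2 - 8*m*n^2*z2 t^2*p2 t^2 - 4*m*n^2*z2 t^2*p3 t^2 - 4*m*n^2*z2 t*z3 t*p2 t*p3 t + 2*m*n^2*p3 t^2 + 6*n^3*z2 t^4*p1 t^2 + 6*n^3*z2 t^4*p2 t^2) * hut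
      + (2*(-2*(n*z2 t^2+m*z3 t^2)*(m-(n*z2 t^2+m*z3 t^2))*(n-(n*z2 t^2+m*z3 t^2))+(n*z2 t^2+m*z3 t^2)^2*(n-(n*z2 t^2+m*z3 t^2))+(n*z2 t^2+m*z3 t^2)^2*(m-(n*z2 t^2+m*z3 t^2)))) * hp'

end IndexAux

end

end Pool.Agent.CutS3
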