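import Pool.Agent.CutS3.Defs
import Pool.Agent.CutS3.Ode

/-!
Module YA1: the one dimensional equation `y'' = PP'(y)/2`, `y(0) = y'(0) = 0`.
-/

set_option autoImplicit false

namespace Pool.Agent.CutS3

open Set

noncomputable section

namespace YaAux

/-- the vector field -/
def V (k m n : ℝ) (x : ℝ × ℝ) : ℝ × ℝ := (x.2, PD k m n x.1)

lemma V_contDiff (k m n : ℝ) : ContDiff ℝ 1 (V k m n) := by
  unfold V PD
  fun_prop

lemma PP_hasDerivAt (k m n y : ℝ) : HasDerivAt (PP k m n) (2 * PD k m n y) y := by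
  have h1 : HasDerivAt (fun y => 4 * y) 4 y := by
    simpa using (hasDerivAt_id y).const_mul 4
  have hk : HasDerivAt (fun y => k - y) (-1) y := by
    simpa using (hasDerivAt_id y).const_sub k
  have hm : HasDerivAt (fun y => m - y) (-1) y := by
    simpa using (hasDerivAt_id y).const_sub m
  have hn : HasDerivAt (fun y => n - y) (-1) y := by
    simpa using (hasDerivAt_id y).const_sub n
  refine (((h1.mul hk).mul hm).mul hn).congr_deriv ?_
  unfold PD
  simp only [Pi.mul_apply]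
  ring

/-- along a solution `v² - PP(y)` is constant -/
lemma conserved {k m n : ℝ} {y v : ℝ → ℝ} (hy : ∀ t, HasDerivAt y (v t) t)
    (hv : ∀ t, HasDerivAt v (PD k m n (y t)) t) (s t : ℝ) :
    v s ^ 2 - PP k m n (y s) = v t ^ 2 - PP k m n (y t) := by
  have h : ∀ t, HasDerivAt (fun t => v t ^ 2 - PP k m n (y t)) 0 t := by
    intro t
    have h1 := (hv t).pow 2
    have h2 := (PP_hasDerivAt k m n (y t)).comp t (hy t)
    refine (h1.sub h2).congr_deriv ?_
    norm_num
    ring
  exact is_const_of_deriv_eq_zero (fun t => (h t).differentiableAt) (fun t => (h t).deriv) s t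

/-- the quartic is negative outside -/
lemma PP_neg {k m n y : ℝ} (hy : |k| + |m| + |n| < |y|) : PP k m n y < 0 := by
  have hk := abs_nonneg k
  have hm := abs_nonneg m
  have hn := abs_nonneg n
  unfold PP
  rcases le_or_gt 0 y with h | h
  · rw [abs_of_nonneg h] at hy
    have h1 : k < y := lt_of_le_of_lt (le_abs_self k) (by linarith)
    have h2 : m < y := lt_of_le_of_lt (le_abs_self m) (by linarith)
    have h3 : n < y := lt_of_le_of_lt (le_abs_self n) (by linarith)
    have h4 : 0 < y := by linarith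
    have h5 : 0 < 4 * y * (y - k) * (y - m) * (y - n) := by
      have := sub_pos.mpr h1
      have := sub_pos.mpr h2
      have := sub_pos.mpr h3
      positivity
    nlinarith [h5]
  · rw [abs_of_neg h] at hy
    have h1 : y < k := by
      have := neg_abs_le k
      linarith
    have h2 : y < m := by
      have := neg_abs_le m
      linarith
    have h3 : y < n := by
      have := neg_abs_le n
      linarith
    have h5 : 0 < 4 * (-y) * (k - y) * (m - y) * (n - y) := by
      have := sub_pos.mpr h1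
      have := sub_pos.mpr h2
      have := sub_pos.mpr h3
      have : 0 < -y := by linarith
      positivity
    nlinarith [h5]

/-- radius of the ball containing the solution -/
def Rb (k m n : ℝ) : ℝ := |k| + |m| + |n|

lemma Rb_nonneg (k m n : ℝ) : 0 ≤ Rb k m n := by
  unfold Rb
  positivity

lemma PP_le {k m n y : ℝ} (hy : |y| ≤ Rb k m n) : PP k m n y ≤ 32 * Rb k m n ^ 4 := by
  have hR := Rb_nonneg k m n
  have hk : |k - y| ≤ 2 * Rb k m n := by
    have : |k| ≤ Rb k m n := by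
      unfold Rb
      have := abs_nonneg m
      have := abs_nonneg n
      linarith
    calc |k - y| ≤ |k| + |y| := abs_sub _ _
      _ ≤ _ := by linarith
  have hm : |m - y| ≤ 2 * Rb k m n := by
    have : |m| ≤ Rb k m n := by
      unfold Rb
      have := abs_nonneg k
      have := abs_nonneg n
      linarith
    calc |m - y| ≤ |m| + |y| := abs_sub _ _
      _ ≤ _ := by linarith
  have hn : |n - y| ≤ 2 * Rb k m n := by
    have : |n| ≤ Rb k m n := by
      unfold Rb
      have := abs_nonneg m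
      have := abs_nonneg k
      linarith
    calc |n - y| ≤ |n| + |y| := abs_sub _ _
      _ ≤ _ := by linarith
  calc PP k m n y ≤ |PP k m n y| := le_abs_self _
    _ = 4 * |y| * |k - y| * |m - y| * |n - y| := by
        unfold PP
        rw [abs_mul, abs_mul, abs_mul, abs_mul]
        norm_num
    _ ≤ 4 * Rb k m n * (2 * Rb k m n) * (2 * Rb k m n) * (2 * Rb k m n) := by
        gcongr
    _ = 32 * Rb k m n ^ 4 := by ring

lemma bounds {k m n y v : ℝ} (h : v ^ 2 = PP k m n y) :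
    |y| ≤ Rb k m n ∧ |v| ≤ 6 * Rb k m n ^ 2 := by
  have h1 : |y| ≤ Rb k m n := by
    by_contra hlt
    push Not at hlt
    have := PP_neg hlt
    nlinarith [sq_nonneg v]
  refine ⟨h1, ?_⟩
  have h2 := PP_le h1
  have hR := Rb_nonneg k m n
  apply abs_le_of_sq_le_sq _ (by positivity)
  rw [h]
  nlinarith [sq_nonneg (Rb k m n ^ 2)]

lemma exists_isY (k m n : ℝ) : ∃ y v : ℝ → ℝ, IsY k m n y v := by
  have hF : ContDiff ℝ 1 (fun x : ℝ × ℝ => x.2 ^ 2 - PP k m n x.1) := by
    unfold PP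
    fun_prop
  have hcons : ∀ x : ℝ × ℝ, fderiv ℝ (fun x : ℝ × ℝ => x.2 ^ 2 - PP k m n x.1) x (V k m n x) = 0 := by
    intro x
    have h1 : HasFDerivAt (fun x : ℝ × ℝ => x.2) (ContinuousLinearMap.snd ℝ ℝ ℝ) x :=
      hasFDerivAt_snd
    have h2 : HasFDerivAt (fun x : ℝ × ℝ => PP k m n x.1)
        ((2 * PD k m n x.1) • ContinuousLinearMap.fst ℝ ℝ ℝ) x := by
      have h3 : HasFDerivAt (fun x : ℝ × ℝ => x.1) (ContinuousLinearMap.fst ℝ ℝ ℝ) x :=
        hasFDerivAt_fst
      exact (PP_hasDerivAt k m n x.1).comp_hasFDerivAt x h3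
    have h4 : HasFDerivAt (fun x : ℝ × ℝ => x.2 ^ 2 - PP k m n x.1) _ x := (h1.pow 2).sub h2
    rw [h4.fderiv]
    simp only [V]
    simp
    ring
  have hb : Bornology.IsBounded {x : ℝ × ℝ | (fun x : ℝ × ℝ => x.2 ^ 2 - PP k m n x.1) x =
      (fun x : ℝ × ℝ => x.2 ^ 2 - PP k m n x.1) ((0, 0) : ℝ × ℝ)} := by
    rw [isBounded_iff_forall_norm_le]
    refine ⟨Rb k m n + 6 * Rb k m n ^ 2, ?_⟩
    rintro ⟨y, v⟩ hyv
    have h0 : v ^ 2 = PP k m n y := by
      have : v ^ 2 - PP k m n y = 0 ^ 2 - PP k m n 0 := hyv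
      have h1 : PP k m n 0 = 0 := by
        unfold PP
        ring
      rw [h1] at this
      linarith
    obtain ⟨h1, h2⟩ := bounds h0
    have hR := Rb_nonneg k m n
    rw [Prod.norm_def]
    apply max_le
    · simp only [Real.norm_eq_abs]
      nlinarith
    · simp only [Real.norm_eq_abs]
      nlinarith
  obtain ⟨c, hc0, hc⟩ := ode_global (V_contDiff k m n) hF hcons (0, 0) hb
  refine ⟨fun t => (c t).1, fun t => (c t).2, ?_, ?_, ?_, ?_⟩
  · simp [hc0]
  · simp [hc0]
  · intro t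
    exact (hasFDerivAt_fst.comp_hasDerivAt t (hc t))
  · intro t
    exact (hasFDerivAt_snd.comp_hasDerivAt t (hc t))

end YaAux

open YaAux

theorem yf_spec (k m n : ℝ) : IsY k m n (yf k m n) (yd k m n) := by
  have h := exists_isY k m n
  have hy : yf k m n = h.choose := by
    unfold yf
    rw [dif_pos h]
  obtain ⟨v, hv⟩ := h.choose_spec
  rw [← hy] at hv
  have hd : yd k m n = v := by
    funext t
    exact (hv.hy t).deriv
  rw [hd]
  exact hv

namespace YaAux

lemma hasDerivAt_pair {k m n : ℝ} {y v : ℝ → ℝ} {t : ℝ} (hy : HasDerivAt y (v t) t)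
    (hv : HasDerivAt v (PD k m n (y t)) t) :
    HasDerivAt (fun t => (y t, v t)) (V k m n (y t, v t)) t := hy.prodMk hv

lemma pair_unique {k m n : ℝ} {y v y' v' : ℝ → ℝ} (hy : ∀ t, HasDerivAt y (v t) t)
    (hv : ∀ t, HasDerivAt v (PD k m n (y t)) t) (hy' : ∀ t, HasDerivAt y' (v' t) t)
    (hv' : ∀ t, HasDerivAt v' (PD k m n (y' t)) t) {t₀ : ℝ} (h1 : y t₀ = y' t₀)
    (h2 : v t₀ = v' t₀) : y = y' ∧ v = v' := by
  have h := ode_unique (V_contDiff k m n) (c := fun t => (y t, v t)) (d := fun t => (y' t, v' t))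
    (fun t => hasDerivAt_pair (hy t) (hv t)) (fun t => hasDerivAt_pair (hy' t) (hv' t))
    (t₀ := t₀) (by simp [h1, h2])
  constructor
  · funext t
    exact congrArg Prod.fst (congrFun h t)
  · funext t
    exact congrArg Prod.snd (congrFun h t)

end YaAux

theorem yf_unique {k m n : ℝ} {y v : ℝ → ℝ} (h : IsY k m n y v) :
    y = yf k m n ∧ v = yd k m n := by
  have hs := yf_spec k m n
  exact pair_unique h.hy h.hv hs.hy hs.hv (t₀ := 0) (by rw [h.y0, hs.y0]) (by rw [h.v0, hs.v0])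

/-- local version of uniqueness, on an interval around `0` -/
theorem yf_unique_on {k m n : ℝ} {y v : ℝ → ℝ} {a b : ℝ} (ha : a < 0) (hb : 0 < b)
    (y0 : y 0 = 0) (v0 : v 0 = 0) (hy : ∀ t ∈ Ioo a b, HasDerivAt y (v t) t)
    (hv : ∀ t ∈ Ioo a b, HasDerivAt v (PD k m n (y t)) t) :
    ∀ t ∈ Ioo a b, y t = yf k m n t ∧ v t = yd k m n t := by
  intro t ht
  have hs := yf_spec k m n
  obtain ⟨a', ha1, ha2⟩ : ∃ a', a < a' ∧ a' < min 0 t := exists_between (lt_min ha ht.1)
  obtain ⟨b', hb1, hb2⟩ : ∃ b', max 0 t < b' ∧ b' < b := exists_between (max_lt hb ht.2)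
  have ha3 := lt_min_iff.mp ha2
  have hb3 := max_lt_iff.mp hb1
  have hsub : Icc a' b' ⊆ Ioo a b := fun x hx => ⟨lt_of_lt_of_le ha1 hx.1, lt_of_le_of_lt hx.2 hb2⟩
  have hc1 : ContinuousOn (fun t => (y t, v t)) (Icc a' b') := by
    intro x hx
    exact ((hy x (hsub hx)).continuousAt.prodMk
      (hv x (hsub hx)).continuousAt).continuousWithinAt
  have hc2 : ContinuousOn (fun t => (yf k m n t, yd k m n t)) (Icc a' b') := by
    intro x _
    exact ((hs.hy x).continuousAt.prodMk (hs.hv x).continuousAt).continuousWithinAt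
  obtain ⟨C1, hC1⟩ := isCompact_Icc.exists_bound_of_continuousOn hc1
  obtain ⟨C2, hC2⟩ := isCompact_Icc.exists_bound_of_continuousOn hc2
  have hball : IsCompact (Metric.closedBall (0 : ℝ × ℝ) (max C1 C2)) := isCompact_closedBall _ _
  obtain ⟨K, hK⟩ := ((V_contDiff k m n).contDiffOn (s := Metric.closedBall (0 : ℝ × ℝ)
    (max C1 C2))).exists_lipschitzOnWith one_ne_zero (convex_closedBall _ _) hball
  have key : EqOn (fun t => (y t, v t)) (fun t => (yf k m n t, yd k m n t)) (Ioo a' b') := by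
    apply ODE_solution_unique_of_mem_Ioo (v := fun _ => V k m n) (K := K)
      (s := fun _ => Metric.closedBall (0 : ℝ × ℝ) (max C1 C2)) (t₀ := 0)
    · intro t _
      exact hK
    · exact ⟨ha3.1, hb3.1⟩
    · intro x hx
      have hx' := Ioo_subset_Icc_self hx
      refine ⟨hasDerivAt_pair (hy x (hsub hx')) (hv x (hsub hx')), ?_⟩
      rw [mem_closedBall_zero_iff]
      exact (hC1 x hx').trans (le_max_left _ _)
    · intro x hx
      have hx' := Ioo_subset_Icc_self hx
      refine ⟨hasDerivAt_pair (hs.hy x) (hs.hv x), ?_⟩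
      rw [mem_closedBall_zero_iff]
      exact (hC2 x hx').trans (le_max_right _ _)
    · simp only [y0, v0, hs.y0, hs.v0]
  have h := key (show t ∈ Ioo a' b' from ⟨ha3.2, hb3.2⟩)
  exact ⟨congrArg Prod.fst h, congrArg Prod.snd h⟩

theorem yd_sq (k m n t : ℝ) : yd k m n t ^ 2 = PP k m n (yf k m n t) := by
  have hs := yf_spec k m n
  have h := conserved hs.hy hs.hv t 0
  rw [hs.y0, hs.v0] at h
  have h1 : PP k m n 0 = 0 := by
    unfold PP
    ring
  rw [h1] at h
  linarith

namespace YaAux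

lemma isY_even (k m n : ℝ) : IsY k m n (fun t => yf k m n (-t)) (fun t => -yd k m n (-t)) := by
  have hs := yf_spec k m n
  refine ⟨?_, ?_, ?_, ?_⟩
  · simp [hs.y0]
  · simp [hs.v0]
  · intro t
    have := (hs.hy (-t)).comp t (hasDerivAt_neg t)
    refine this.congr_deriv ?_
    ring
  · intro t
    have := ((hs.hv (-t)).comp t (hasDerivAt_neg t)).neg
    refine this.congr_deriv ?_
    ring

lemma isY_neg (k m n : ℝ) : IsY (-k) (-m) (-n) (fun t => -yf k m n t) (fun t => -yd k m n t) := by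
  have hs := yf_spec k m n
  refine ⟨?_, ?_, ?_, ?_⟩
  · simp [hs.y0]
  · simp [hs.v0]
  · intro t
    exact (hs.hy t).neg
  · intro t
    refine (hs.hv t).neg.congr_deriv ?_
    unfold PD
    ring

end YaAux

theorem yf_even (k m n t : ℝ) : yf k m n (-t) = yf k m n t :=
  congrFun (yf_unique (isY_even k m n)).1 t

theorem yd_odd (k m n t : ℝ) : yd k m n (-t) = -yd k m n t := by
  have h : -yd k m n (-t) = yd k m n t := congrFun (yf_unique (isY_even k m n)).2 t
  linarith

theorem yf_swap12 (k m n : ℝ) : yf k m n = yf m k n := by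
  have hs := yf_spec k m n
  refine (yf_unique (k := m) (m := k) (n := n) (v := yd k m n) ⟨hs.y0, hs.v0, hs.hy, ?_⟩).1
  intro t
  refine (hs.hv t).congr_deriv ?_
  unfold PD
  ring

theorem yf_swap23 (k m n : ℝ) : yf k m n = yf k n m := by
  have hs := yf_spec k m n
  refine (yf_unique (k := k) (m := n) (n := m) (v := yd k m n) ⟨hs.y0, hs.v0, hs.hy, ?_⟩).1
  intro t
  refine (hs.hv t).congr_deriv ?_
  unfold PD
  ring

theorem yf_neg (k m n t : ℝ) : yf (-k) (-m) (-n) t = -yf k m n t :=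
  (congrFun (yf_unique (isY_neg k m n)).1 t).symm

theorem yd_neg (k m n t : ℝ) : yd (-k) (-m) (-n) t = -yd k m n t :=
  (congrFun (yf_unique (isY_neg k m n)).2 t).symm

theorem yf_zero (m n t : ℝ) : yf 0 m n t = 0 := by
  have h : IsY 0 m n (fun _ => 0) (fun _ => 0) := by
    refine ⟨rfl, rfl, fun t => hasDerivAt_const t 0, fun t => ?_⟩
    have h1 : PD 0 m n 0 = 0 := by
      unfold PD
      ring
    rw [h1]
    exact hasDerivAt_const t 0
  exact (congrFun (yf_unique h).1 t).symm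

namespace YaAux

lemma continuous_pair : Continuous fun x : (ℝ × ℝ × ℝ) × ℝ =>
    (yf x.1.1 x.1.2.1 x.1.2.2 x.2, yd x.1.1 x.1.2.1 x.1.2.2 x.2) := by
  refine ode_continuous (P := ℝ × ℝ × ℝ) (E := ℝ × ℝ)
    (V := fun z => (z.2.2, PD z.1.1 z.1.2.1 z.1.2.2 z.2.1))
    (c := fun p t => (yf p.1 p.2.1 p.2.2 t, yd p.1 p.2.1 p.2.2 t))
    (B := fun p => Rb p.1 p.2.1 p.2.2 + 6 * Rb p.1 p.2.1 p.2.2 ^ 2) ?_ ?_ ?_ ?_ ?_
  · unfold PD
    fun_prop
  · intro p t
    exact ((yf_spec p.1 p.2.1 p.2.2).hy t).prodMk ((yf_spec p.1 p.2.1 p.2.2).hv t)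
  · have : (fun p : ℝ × ℝ × ℝ => (yf p.1 p.2.1 p.2.2 0, yd p.1 p.2.1 p.2.2 0)) =
        fun _ => ((0 : ℝ), (0 : ℝ)) := by
      funext p
      rw [(yf_spec p.1 p.2.1 p.2.2).y0, (yf_spec p.1 p.2.1 p.2.2).v0]
    rw [this]
    exact continuous_const
  · unfold Rb
    fun_prop
  · intro p t
    obtain ⟨h1, h2⟩ := bounds (yd_sq p.1 p.2.1 p.2.2 t)
    have hR := Rb_nonneg p.1 p.2.1 p.2.2
    rw [Prod.norm_def]
    apply max_le
    · simp only [Real.norm_eq_abs]
      nlinarith
    · simp only [Real.norm_eq_abs]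
      nlinarith

end YaAux

theorem continuous_yf :
    Continuous fun x : ℝ × ℝ × ℝ × ℝ => yf x.1 x.2.1 x.2.2.1 x.2.2.2 :=
  (continuous_fst.comp continuous_pair).comp
    (show Continuous fun x : ℝ × ℝ × ℝ × ℝ => ((x.1, x.2.1, x.2.2.1), x.2.2.2) by fun_prop)

theorem continuous_yd :
    Continuous fun x : ℝ × ℝ × ℝ × ℝ => yd x.1 x.2.1 x.2.2.1 x.2.2.2 :=
  (continuous_snd.comp continuous_pair).comp
    (show Continuous fun x : ℝ × ℝ × ℝ × ℝ => ((x.1, x.2.1, x.2.2.1), x.2.2.2) by fun_prop)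

end

end Pool.Agent.CutS3
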