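import Pool.Agent.CutS3.Geo
import Pool.Agent.CutS3.Ya1
import Pool.Agent.CutS3.IndexCore
import Pool.Agent.CutS3.IdxAlg

set_option autoImplicit false

/-!
# Module INDEX
-/

namespace Pool.Agent.CutS3

open Set Quaternion

noncomputable section

namespace IndexAux

/-! ### coordinates -/

def reL : ℍ[ℝ] →L[ℝ] ℝ := LinearMap.toContinuousLinearMap
  { toFun := fun q => q.re, map_add' := fun _ _ => rfl, map_smul' := fun _ _ => rfl }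
def iL : ℍ[ℝ] →L[ℝ] ℝ := LinearMap.toContinuousLinearMap
  { toFun := fun q => q.imI, map_add' := fun _ _ => rfl, map_smul' := fun _ _ => rfl }
def jL : ℍ[ℝ] →L[ℝ] ℝ := LinearMap.toContinuousLinearMap
  { toFun := fun q => q.imJ, map_add' := fun _ _ => rfl, map_smul' := fun _ _ => rfl }
def kL : ℍ[ℝ] →L[ℝ] ℝ := LinearMap.toContinuousLinearMap
  { toFun := fun q => q.imK, map_add' := fun _ _ => rfl, map_smul' := fun _ _ => rfl }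
def starL : ℍ[ℝ] →L[ℝ] ℍ[ℝ] := LinearMap.toContinuousLinearMap
  { toFun := fun q => star q, map_add' := fun a b => star_add a b,
    map_smul' := fun r a => by simp }

theorem reL_apply (q : ℍ[ℝ]) : reL q = q.re := rfl
theorem iL_apply (q : ℍ[ℝ]) : iL q = q.imI := rfl
theorem jL_apply (q : ℍ[ℝ]) : jL q = q.imJ := rfl
theorem kL_apply (q : ℍ[ℝ]) : kL q = q.imK := rfl
theorem starL_apply (q : ℍ[ℝ]) : starL q = star q := rfl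

def qi : ℍ[ℝ] := ⟨0, 1, 0, 0⟩
def qj : ℍ[ℝ] := ⟨0, 0, 1, 0⟩
def qk : ℍ[ℝ] := ⟨0, 0, 0, 1⟩

theorem hasDerivAt_re {f : ℝ → ℍ[ℝ]} {f' : ℍ[ℝ]} {t : ℝ} (h : HasDerivAt f f' t) :
    HasDerivAt (fun s => (f s).re) f'.re t := reL.hasFDerivAt.comp_hasDerivAt t h
theorem hasDerivAt_imI {f : ℝ → ℍ[ℝ]} {f' : ℍ[ℝ]} {t : ℝ} (h : HasDerivAt f f' t) :
    HasDerivAt (fun s => (f s).imI) f'.imI t := iL.hasFDerivAt.comp_hasDerivAt t h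
theorem hasDerivAt_imJ {f : ℝ → ℍ[ℝ]} {f' : ℍ[ℝ]} {t : ℝ} (h : HasDerivAt f f' t) :
    HasDerivAt (fun s => (f s).imJ) f'.imJ t := jL.hasFDerivAt.comp_hasDerivAt t h
theorem hasDerivAt_imK {f : ℝ → ℍ[ℝ]} {f' : ℍ[ℝ]} {t : ℝ} (h : HasDerivAt f f' t) :
    HasDerivAt (fun s => (f s).imK) f'.imK t := kL.hasFDerivAt.comp_hasDerivAt t h

/-- the four coordinates of a unit quaternion -/
theorem coords_of_norm {q : ℍ[ℝ]} (h : ‖q‖ = 1) :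
    q.re ^ 2 + q.imI ^ 2 + q.imJ ^ 2 + q.imK ^ 2 = 1 := by
  have h1 := Quaternion.normSq_eq_norm_mul_self q
  rw [h, mul_one, Quaternion.normSq_def'] at h1
  exact h1

/-- the right hand side of the equation for `z` -/
def eta (m n : ℝ) (p z : ℍ[ℝ]) : ℍ[ℝ] :=
  ⟨0, -(n * z.imJ ^ 2 + m * z.imK ^ 2) * p.imI, (m - (n * z.imJ ^ 2 + m * z.imK ^ 2)) * p.imJ,
    (n - (n * z.imJ ^ 2 + m * z.imK ^ 2)) * p.imK⟩

theorem mk_eq (x1 x2 x3 : ℝ) : (⟨0, x1, x2, x3⟩ : ℍ[ℝ]) = x1 • qi + x2 • qj + x3 • qk := by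
  ext
  · rw [Quaternion.re_add, Quaternion.re_add, Quaternion.re_smul, Quaternion.re_smul,
      Quaternion.re_smul]
    simp [qi, qj, qk]
  · rw [Quaternion.imI_add, Quaternion.imI_add, Quaternion.imI_smul, Quaternion.imI_smul,
      Quaternion.imI_smul]
    simp [qi, qj, qk]
  · rw [Quaternion.imJ_add, Quaternion.imJ_add, Quaternion.imJ_smul, Quaternion.imJ_smul,
      Quaternion.imJ_smul]
    simp [qi, qj, qk]
  · rw [Quaternion.imK_add, Quaternion.imK_add, Quaternion.imK_smul, Quaternion.imK_smul,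
      Quaternion.imK_smul]
    simp [qi, qj, qk]

theorem eta_eq (m n : ℝ) (p z : ℍ[ℝ]) : eta m n p z =
    (-(n * jL z ^ 2 + m * kL z ^ 2) * iL p) • qi
    + ((m - (n * jL z ^ 2 + m * kL z ^ 2)) * jL p) • qj
    + ((n - (n * jL z ^ 2 + m * kL z ^ 2)) * kL p) • qk := by
  rw [← mk_eq]
  rfl

theorem vf_eq (a₁ a₂ a₃ : ℝ) (m q : ℍ[ℝ]) : vf a₁ a₂ a₃ m q =
    q * ((a₁ * iL (starL q * m * q)) • qi
    + (a₂ * jL (starL q * m * q)) • qj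
    + (a₃ * kL (starL q * m * q)) • qk) := by
  rw [← mk_eq]
  rfl

/-- the vector field for the pair `(q, z)` -/
def field (a₁ a₂ a₃ : ℝ) (n0 : ℍ[ℝ]) (x : ℍ[ℝ] × ℍ[ℝ]) : ℍ[ℝ] × ℍ[ℝ] :=
  (vf a₁ a₂ a₃ n0 x.1, eta (a₁ - a₂) (a₁ - a₃) (bm n0 x.1) x.2 * x.2)

theorem contDiff_field (a₁ a₂ a₃ : ℝ) (n0 : ℍ[ℝ]) : ContDiff ℝ 1 (field a₁ a₂ a₃ n0) := by
  have hq : ContDiff ℝ 1 (fun x : ℍ[ℝ] × ℍ[ℝ] => x.1) := contDiff_fst
  have hz : ContDiff ℝ 1 (fun x : ℍ[ℝ] × ℍ[ℝ] => x.2) := contDiff_snd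
  have hb : ContDiff ℝ 1 (fun x : ℍ[ℝ] × ℍ[ℝ] => starL x.1 * n0 * x.1) :=
    ((starL.contDiff.comp hq).mul contDiff_const).mul hq
  have hbi : ContDiff ℝ 1 (fun x : ℍ[ℝ] × ℍ[ℝ] => iL (starL x.1 * n0 * x.1)) :=
    iL.contDiff.comp hb
  have hbj : ContDiff ℝ 1 (fun x : ℍ[ℝ] × ℍ[ℝ] => jL (starL x.1 * n0 * x.1)) :=
    jL.contDiff.comp hb
  have hbk : ContDiff ℝ 1 (fun x : ℍ[ℝ] × ℍ[ℝ] => kL (starL x.1 * n0 * x.1)) :=
    kL.contDiff.comp hb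
  have hzj : ContDiff ℝ 1 (fun x : ℍ[ℝ] × ℍ[ℝ] => jL x.2) := jL.contDiff.comp hz
  have hzk : ContDiff ℝ 1 (fun x : ℍ[ℝ] × ℍ[ℝ] => kL x.2) := kL.contDiff.comp hz
  have h1 : ContDiff ℝ 1 (fun x : ℍ[ℝ] × ℍ[ℝ] => vf a₁ a₂ a₃ n0 x.1) := by
    simp only [vf_eq]
    exact hq.mul ((((contDiff_const.mul hbi).smul contDiff_const).add
      ((contDiff_const.mul hbj).smul contDiff_const)).add
      ((contDiff_const.mul hbk).smul contDiff_const))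
  have hY : ContDiff ℝ 1 (fun x : ℍ[ℝ] × ℍ[ℝ] =>
      (a₁ - a₃) * jL x.2 ^ 2 + (a₁ - a₂) * kL x.2 ^ 2) :=
    (contDiff_const.mul (hzj.pow 2)).add (contDiff_const.mul (hzk.pow 2))
  have h2 : ContDiff ℝ 1 (fun x : ℍ[ℝ] × ℍ[ℝ] =>
      eta (a₁ - a₂) (a₁ - a₃) (bm n0 x.1) x.2 * x.2) := by
    simp only [eta_eq]
    exact ((((hY.neg.mul hbi).smul contDiff_const).add
      (((contDiff_const.sub hY).mul hbj).smul contDiff_const)).add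
      (((contDiff_const.sub hY).mul hbk).smul contDiff_const)).mul hz
  exact h1.prodMk h2

theorem re_mul_star_pure (q w : ℍ[ℝ]) (hw : w.re = 0) : (q * star (q * w)).re = 0 := by
  simp only [Quaternion.re_mul, Quaternion.re_star, Quaternion.imI_star, Quaternion.imJ_star,
    Quaternion.imK_star, Quaternion.imI_mul, Quaternion.imJ_mul, Quaternion.imK_mul, hw]
  ring

theorem re_mul_star_pure' (w q : ℍ[ℝ]) (hw : w.re = 0) : (q * star (w * q)).re = 0 := by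
  simp only [Quaternion.re_mul, Quaternion.re_star, Quaternion.imI_star, Quaternion.imJ_star,
    Quaternion.imK_star, Quaternion.imI_mul, Quaternion.imJ_mul, Quaternion.imK_mul, hw]
  ring

/-- existence of the curve `z` -/
theorem exists_z (a₁ a₂ a₃ : ℝ) (n0 : ℍ[ℝ]) : ∃ z : ℝ → ℍ[ℝ], z 0 = 1 ∧ (∀ t, ‖z t‖ = 1) ∧
    ∀ t, HasDerivAt z (eta (a₁ - a₂) (a₁ - a₃) (bg a₁ a₂ a₃ n0 t) (z t) * z t) t := by
  have hF : ContDiff ℝ 1 (fun x : ℍ[ℝ] × ℍ[ℝ] => ‖x.1‖ ^ 2 + ‖x.2‖ ^ 2) :=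
    (contDiff_fst.norm_sq ℝ).add (contDiff_snd.norm_sq ℝ)
  have hcons : ∀ x, fderiv ℝ (fun x : ℍ[ℝ] × ℍ[ℝ] => ‖x.1‖ ^ 2 + ‖x.2‖ ^ 2) x
      (field a₁ a₂ a₃ n0 x) = 0 := by
    intro x
    have h1 : HasFDerivAt (fun x : ℍ[ℝ] × ℍ[ℝ] => x.1) (ContinuousLinearMap.fst ℝ ℍ[ℝ] ℍ[ℝ]) x :=
      hasFDerivAt_fst
    have h2 : HasFDerivAt (fun x : ℍ[ℝ] × ℍ[ℝ] => x.2) (ContinuousLinearMap.snd ℝ ℍ[ℝ] ℍ[ℝ]) x :=
      hasFDerivAt_snd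
    have h12 : HasFDerivAt (fun x : ℍ[ℝ] × ℍ[ℝ] => ‖x.1‖ ^ 2 + ‖x.2‖ ^ 2) _ x :=
      h1.norm_sq.add h2.norm_sq
    rw [h12.fderiv]
    have e1 : inner ℝ x.1 (field a₁ a₂ a₃ n0 x).1 = 0 := by
      rw [Quaternion.inner_def]
      exact re_mul_star_pure _ _ rfl
    have e2 : inner ℝ x.2 (field a₁ a₂ a₃ n0 x).2 = 0 := by
      rw [Quaternion.inner_def]
      exact re_mul_star_pure' _ _ rfl
    simp [e1, e2]
  have hb : Bornology.IsBounded {x : ℍ[ℝ] × ℍ[ℝ] | ‖x.1‖ ^ 2 + ‖x.2‖ ^ 2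
      = ‖((1, 1) : ℍ[ℝ] × ℍ[ℝ]).1‖ ^ 2 + ‖((1, 1) : ℍ[ℝ] × ℍ[ℝ]).2‖ ^ 2} := by
    rw [isBounded_iff_forall_norm_le]
    refine ⟨2, fun x hx => ?_⟩
    have hx' : ‖x.1‖ ^ 2 + ‖x.2‖ ^ 2 = 2 := by
      have h3 : ‖x.1‖ ^ 2 + ‖x.2‖ ^ 2 = ‖(1 : ℍ[ℝ])‖ ^ 2 + ‖(1 : ℍ[ℝ])‖ ^ 2 := hx
      rw [h3, norm_one]
      norm_num
    rw [Prod.norm_def]
    apply max_le
    · nlinarith [norm_nonneg x.1, norm_nonneg x.2]
    · nlinarith [norm_nonneg x.1, norm_nonneg x.2]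
  obtain ⟨c, hc0, hc⟩ := ode_global (contDiff_field a₁ a₂ a₃ n0) hF hcons (1, 1) hb
  have hc1 : ∀ t, HasDerivAt (fun t => (c t).1) (vf a₁ a₂ a₃ n0 (c t).1) t := fun t =>
    (ContinuousLinearMap.fst ℝ ℍ[ℝ] ℍ[ℝ]).hasFDerivAt.comp_hasDerivAt t (hc t)
  have hc2 : ∀ t, HasDerivAt (fun t => (c t).2)
      (eta (a₁ - a₂) (a₁ - a₃) (bm n0 (c t).1) (c t).2 * (c t).2) t := fun t =>
    (ContinuousLinearMap.snd ℝ ℍ[ℝ] ℍ[ℝ]).hasFDerivAt.comp_hasDerivAt t (hc t)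
  have hgeo : (fun t => (c t).1) = geo a₁ a₂ a₃ n0 :=
    geo_unique ⟨by simp [hc0], hc1⟩
  refine ⟨fun t => (c t).2, by simp [hc0], fun t => ?_, fun t => ?_⟩
  · -- the norm is constant
    have hd : ∀ s, HasDerivAt (fun s => ‖(c s).2‖ ^ 2) 0 s := by
      intro s
      refine (hc2 s).norm_sq.congr_deriv ?_
      rw [Quaternion.inner_def]
      rw [re_mul_star_pure' _ _ rfl]
      ring
    have h5 := is_const_of_deriv_eq_zero (fun s => (hd s).differentiableAt)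
      (fun s => (hd s).deriv) t 0
    simp only [hc0, norm_one, one_pow] at h5
    exact (pow_eq_one_iff_of_nonneg (norm_nonneg _) two_ne_zero).mp h5
  · have h6 : (c t).1 = geo a₁ a₂ a₃ n0 t := congrFun hgeo t
    have h7 := hc2 t
    rw [h6] at h7
    exact h7

/-- the product `q z` -/
theorem mul_eq_rot (a₁ a₂ a₃ : ℝ) {n0 : ℍ[ℝ]} (hn : n0 ∈ Un) {z : ℝ → ℍ[ℝ]} (z0 : z 0 = 1)
    (hz : ∀ t, HasDerivAt z (eta (a₁ - a₂) (a₁ - a₃) (bg a₁ a₂ a₃ n0 t) (z t) * z t) t) (t : ℝ) :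
    geo a₁ a₂ a₃ n0 t * z t = rot (∫ s in (0 : ℝ)..t,
      (a₁ - ((a₁ - a₃) * (z s).imJ ^ 2 + (a₁ - a₂) * (z s).imK ^ 2))) n0 := by
  set G : ℝ → ℝ := fun t => ∫ s in (0 : ℝ)..t,
      (a₁ - ((a₁ - a₃) * (z s).imJ ^ 2 + (a₁ - a₂) * (z s).imK ^ 2)) with hG
  have cz : Continuous z := continuous_iff_continuousAt.mpr fun t => (hz t).continuousAt
  have cz2 : Continuous fun s => (z s).imJ := Quaternion.continuous_imJ.comp cz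
  have cz3 : Continuous fun s => (z s).imK := Quaternion.continuous_imK.comp cz
  set g : ℝ → ℝ := fun s => a₁ - ((a₁ - a₃) * (z s).imJ ^ 2 + (a₁ - a₂) * (z s).imK ^ 2) with hg
  have cg : Continuous g := by rw [hg]; fun_prop
  have hGd : ∀ t, HasDerivAt G (g t) t := fun t =>
    intervalIntegral.integral_hasDerivAt_right (cg.intervalIntegrable _ _)
      cg.stronglyMeasurable.stronglyMeasurableAtFilter cg.continuousAt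
  have hq : ∀ t, HasDerivAt (geo a₁ a₂ a₃ n0) (vf a₁ a₂ a₃ n0 (geo a₁ a₂ a₃ n0 t)) t :=
    (isGeo_geo a₁ a₂ a₃ n0).2
  have h1 : ∀ t, HasDerivAt (fun t => geo a₁ a₂ a₃ n0 t * z t)
      ((g t) • (n0 * (geo a₁ a₂ a₃ n0 t * z t))) t := by
    intro t
    refine ((hq t).mul (hz t)).congr_deriv ?_
    have hb : geo a₁ a₂ a₃ n0 t * bg a₁ a₂ a₃ n0 t = n0 * geo a₁ a₂ a₃ n0 t := by
      unfold bg bm
      rw [← mul_assoc, ← mul_assoc, IdxAux.self_mul_star_one (norm_geo n0 t), one_mul]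
    have hre : (bg a₁ a₂ a₃ n0 t).re = 0 := bg_re hn.1 t
    have e1 : dg a₁ a₂ a₃ (bg a₁ a₂ a₃ n0 t) + eta (a₁ - a₂) (a₁ - a₃) (bg a₁ a₂ a₃ n0 t) (z t)
        = (g t) • bg a₁ a₂ a₃ n0 t := by
      ext
      · rw [Quaternion.re_add, Quaternion.re_smul, hre]
        simp [dg, eta]
      · rw [Quaternion.imI_add, Quaternion.imI_smul]
        simp only [dg, eta, hg, smul_eq_mul]
        ring
      · rw [Quaternion.imJ_add, Quaternion.imJ_smul]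
        simp only [dg, eta, hg, smul_eq_mul]
        ring
      · rw [Quaternion.imK_add, Quaternion.imK_smul]
        simp only [dg, eta, hg, smul_eq_mul]
        ring
    change geo a₁ a₂ a₃ n0 t * dg a₁ a₂ a₃ (bg a₁ a₂ a₃ n0 t) * z t
      + geo a₁ a₂ a₃ n0 t * (eta (a₁ - a₂) (a₁ - a₃) (bg a₁ a₂ a₃ n0 t) (z t) * z t) = _
    rw [← mul_assoc (geo a₁ a₂ a₃ n0 t), ← add_mul, ← mul_add, e1, mul_smul_comm, smul_mul_assoc,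
      hb, mul_assoc]
  have h2 : ∀ t, HasDerivAt (fun t => rot (G t) n0) ((g t) • (n0 * rot (G t) n0)) t := by
    intro t
    have hc : HasDerivAt (fun t => (Real.cos (G t)) • (1 : ℍ[ℝ]) + (Real.sin (G t)) • n0)
        ((-Real.sin (G t) * g t) • (1 : ℍ[ℝ]) + (Real.cos (G t) * g t) • n0) t :=
      ((hGd t).cos.smul_const 1).add ((hGd t).sin.smul_const n0)
    have e0 : (fun t => rot (G t) n0)
        = fun t => (Real.cos (G t)) • (1 : ℍ[ℝ]) + (Real.sin (G t)) • n0 := by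
      funext s
      unfold rot
      rw [IdxAux.coe_eq]
    rw [e0]
    refine hc.congr_deriv ?_
    simp only [rot, IdxAux.coe_eq]
    rw [mul_add, mul_smul_comm, mul_smul_comm, IdxAux.mul_self_un hn, mul_one]
    module
  have h3 := zero_of_bound (fun t => geo a₁ a₂ a₃ n0 t * z t - rot (G t) n0)
    (fun t => (g t) • (n0 * (geo a₁ a₂ a₃ n0 t * z t)) - (g t) • (n0 * rot (G t) n0))
    (fun t => |g t|) cg.abs (fun t => (h1 t).sub (h2 t)) (fun t => ?_) ?_ t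
  · exact sub_eq_zero.mp h3
  · rw [← smul_sub, ← mul_sub, norm_smul, norm_mul, hn.2, one_mul, Real.norm_eq_abs]
  · simp [hG, z0, geo_zero, IdxAux.rot_zero]

end IndexAux

open IndexAux

theorem index1 (a₁ a₂ a₃ : ℝ) {n : ℍ[ℝ]} (hn : n ∈ Un) (τ : ℝ) :
    ‖zz1 a₁ a₂ a₃ n τ‖ = 1 ∧ (zz1 a₁ a₂ a₃ n τ).imI = 0 ∧
    IdxAt (a₁ - a₂) (a₁ - a₃) (zz1 a₁ a₂ a₃ n τ).re (zz1 a₁ a₂ a₃ n τ).imJ
      (zz1 a₁ a₂ a₃ n τ).imK (bg a₁ a₂ a₃ n τ).imI (bg a₁ a₂ a₃ n τ).imJ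
      (bg a₁ a₂ a₃ n τ).imK (y1 a₁ a₂ a₃ (HH a₁ a₂ a₃ n) τ)
      (v1 a₁ a₂ a₃ (HH a₁ a₂ a₃ n) τ) := by
  obtain ⟨z, z0, zu, hz⟩ := exists_z a₁ a₂ a₃ n
  have hre : ∀ t, (bg a₁ a₂ a₃ n t).re = 0 := fun t => bg_re hn.1 t
  have hpu : ∀ t, (bg a₁ a₂ a₃ n t).imI ^ 2 + (bg a₁ a₂ a₃ n t).imJ ^ 2
      + (bg a₁ a₂ a₃ n t).imK ^ 2 = 1 := by
    intro t
    have h := coords_of_norm ((norm_bg (a₁ := a₁) (a₂ := a₂) (a₃ := a₃) n t).trans hn.2)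
    rw [hre t] at h
    linarith
  have hk : ∀ t, (a₁ - a₂) * (bg a₁ a₂ a₃ n t).imJ ^ 2 + (a₁ - a₃) * (bg a₁ a₂ a₃ n t).imK ^ 2
      = a₁ - HH a₁ a₂ a₃ n := by
    intro t
    have h := HH_bg (a₁ := a₁) (a₂ := a₂) (a₃ := a₃) hn.1 t
    rw [← h]
    unfold HH
    linear_combination (a₁) * hpu t
  obtain ⟨c1, c2, c3⟩ := core (a₁ - a₂) (a₁ - a₃) (a₁ - HH a₁ a₂ a₃ n)
    (fun t => (z t).re) (fun t => (z t).imI) (fun t => (z t).imJ) (fun t => (z t).imK)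
    (fun t => (bg a₁ a₂ a₃ n t).imI) (fun t => (bg a₁ a₂ a₃ n t).imJ)
    (fun t => (bg a₁ a₂ a₃ n t).imK)
    (fun t => (hasDerivAt_re (hz t)).congr_deriv (by
      rw [Quaternion.re_mul]; simp only [eta]; ring))
    (fun t => (hasDerivAt_imI (hz t)).congr_deriv (by
      rw [Quaternion.imI_mul]; simp only [eta]; ring))
    (fun t => (hasDerivAt_imJ (hz t)).congr_deriv (by
      rw [Quaternion.imJ_mul]; simp only [eta]; ring))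
    (fun t => (hasDerivAt_imK (hz t)).congr_deriv (by
      rw [Quaternion.imK_mul]; simp only [eta]; ring))
    (fun t => (hasDerivAt_imI (hasDerivAt_bg hn.1 t)).congr_deriv (by ring))
    (fun t => (hasDerivAt_imJ (hasDerivAt_bg hn.1 t)).congr_deriv (by ring))
    (fun t => (hasDerivAt_imK (hasDerivAt_bg hn.1 t)).congr_deriv (by ring))
    (fun t => coords_of_norm (zu t)) hpu hk (by simp [z0]) (by simp [z0]) (by simp [z0])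
  obtain ⟨d1, d2⟩ := yf_unique c3
  have hG : G1 a₁ a₂ a₃ (HH a₁ a₂ a₃ n) τ = ∫ s in (0 : ℝ)..τ,
      (a₁ - ((a₁ - a₃) * (z s).imJ ^ 2 + (a₁ - a₂) * (z s).imK ^ 2)) := by
    unfold G1 y1
    rw [← d1]
  have hzz : zz1 a₁ a₂ a₃ n τ = z τ := by
    unfold zz1
    rw [hG, ← mul_eq_rot a₁ a₂ a₃ hn z0 hz τ, ← mul_assoc,
      IdxAux.star_mul_self_one (norm_geo n τ), one_mul]
  rw [hzz]
  refine ⟨zu τ, c1 τ, ?_⟩
  have h := c2 τ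
  have e1 : y1 a₁ a₂ a₃ (HH a₁ a₂ a₃ n) τ
      = (a₁ - a₃) * (z τ).imJ ^ 2 + (a₁ - a₂) * (z τ).imK ^ 2 := by
    unfold y1
    rw [← d1]
  rw [e1]
  unfold v1
  rw [← d2]
  exact h

namespace IndexAux

theorem cyc_re (q : ℍ[ℝ]) : (cyc q).re = q.re := rfl
theorem cyc_imI (q : ℍ[ℝ]) : (cyc q).imI = q.imJ := rfl
theorem cyc_imJ (q : ℍ[ℝ]) : (cyc q).imJ = q.imK := rfl
theorem cyc_imK (q : ℍ[ℝ]) : (cyc q).imK = q.imI := rfl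

theorem cyc_mul (p q : ℍ[ℝ]) : cyc (p * q) = cyc p * cyc q := by
  ext <;> simp only [cyc_re, cyc_imI, cyc_imJ, cyc_imK, Quaternion.re_mul, Quaternion.imI_mul,
    Quaternion.imJ_mul, Quaternion.imK_mul] <;> ring

theorem cyc_star (q : ℍ[ℝ]) : cyc (star q) = star (cyc q) := by
  ext <;> simp only [cyc_re, cyc_imI, cyc_imJ, cyc_imK, Quaternion.re_star, Quaternion.imI_star,
    Quaternion.imJ_star, Quaternion.imK_star]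

theorem cyc_rot (x : ℝ) (n : ℍ[ℝ]) : cyc (rot x n) = rot x (cyc n) := by
  unfold rot
  ext <;> simp [cyc_re, cyc_imI, cyc_imJ, cyc_imK]

theorem norm_cyc (q : ℍ[ℝ]) : ‖cyc q‖ = ‖q‖ := by
  have h1 := Quaternion.normSq_eq_norm_mul_self q
  have h2 := Quaternion.normSq_eq_norm_mul_self (cyc q)
  rw [Quaternion.normSq_def'] at h1 h2
  have h3 : ‖cyc q‖ ^ 2 = ‖q‖ ^ 2 := by
    simp only [cyc_re, cyc_imI, cyc_imJ, cyc_imK] at h2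
    linarith
  exact (sq_eq_sq₀ (norm_nonneg _) (norm_nonneg _)).mp h3

theorem cyc_mem_Un {n : ℍ[ℝ]} (hn : n ∈ Un) : cyc n ∈ Un :=
  ⟨hn.1, (norm_cyc n).trans hn.2⟩

theorem HH_cyc (a₁ a₂ a₃ : ℝ) (n : ℍ[ℝ]) : HH a₂ a₃ a₁ (cyc n) = HH a₁ a₂ a₃ n := by
  simp only [HH, cyc_imI, cyc_imJ, cyc_imK]
  ring

theorem zz1_cyc (a₁ a₂ a₃ : ℝ) (n : ℍ[ℝ]) (τ : ℝ) :
    zz1 a₂ a₃ a₁ (cyc n) τ = cyc (zz2 a₁ a₂ a₃ n τ) := by
  unfold zz1 zz2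
  rw [geo_cyc, HH_cyc, cyc_mul, cyc_star, cyc_rot]
  rfl

theorem zz2_cyc (a₁ a₂ a₃ : ℝ) (n : ℍ[ℝ]) (τ : ℝ) :
    zz2 a₂ a₃ a₁ (cyc n) τ = cyc (zz3 a₁ a₂ a₃ n τ) := by
  unfold zz2 zz3
  rw [geo_cyc, HH_cyc, cyc_mul, cyc_star, cyc_rot]
  rfl

end IndexAux

theorem index2 (a₁ a₂ a₃ : ℝ) {n : ℍ[ℝ]} (hn : n ∈ Un) (τ : ℝ) :
    ‖zz2 a₁ a₂ a₃ n τ‖ = 1 ∧ (zz2 a₁ a₂ a₃ n τ).imJ = 0 ∧
    IdxAt (a₂ - a₃) (a₂ - a₁) (zz2 a₁ a₂ a₃ n τ).re (zz2 a₁ a₂ a₃ n τ).imK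
      (zz2 a₁ a₂ a₃ n τ).imI (bg a₁ a₂ a₃ n τ).imJ (bg a₁ a₂ a₃ n τ).imK
      (bg a₁ a₂ a₃ n τ).imI (y2 a₁ a₂ a₃ (HH a₁ a₂ a₃ n) τ)
      (v2 a₁ a₂ a₃ (HH a₁ a₂ a₃ n) τ) := by
  have h := index1 a₂ a₃ a₁ (cyc_mem_Un hn) τ
  rw [zz1_cyc, norm_cyc, HH_cyc, bg_cyc] at h
  exact h

theorem index3 (a₁ a₂ a₃ : ℝ) {n : ℍ[ℝ]} (hn : n ∈ Un) (τ : ℝ) :
    ‖zz3 a₁ a₂ a₃ n τ‖ = 1 ∧ (zz3 a₁ a₂ a₃ n τ).imK = 0 ∧
    IdxAt (a₃ - a₁) (a₃ - a₂) (zz3 a₁ a₂ a₃ n τ).re (zz3 a₁ a₂ a₃ n τ).imI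
      (zz3 a₁ a₂ a₃ n τ).imJ (bg a₁ a₂ a₃ n τ).imK (bg a₁ a₂ a₃ n τ).imI
      (bg a₁ a₂ a₃ n τ).imJ (y3 a₁ a₂ a₃ (HH a₁ a₂ a₃ n) τ)
      (v3 a₁ a₂ a₃ (HH a₁ a₂ a₃ n) τ) := by
  have h := index2 a₂ a₃ a₁ (cyc_mem_Un hn) τ
  rw [zz2_cyc, norm_cyc, HH_cyc, bg_cyc] at h
  exact h

namespace IndexAux

theorem continuous_G (a k m n : ℝ) : Continuous fun τ : ℝ => ∫ s in (0 : ℝ)..τ, (a - yf k m n s) := by
  have h : Continuous fun s => a - yf k m n s :=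
    continuous_const.sub (continuous_iff_continuousAt.mpr
      fun t => ((yf_spec k m n).hy t).continuousAt)
  exact intervalIntegral.continuous_primitive (fun _ _ => h.intervalIntegrable _ _) 0

theorem continuous_rot_comp (n : ℍ[ℝ]) {f : ℝ → ℝ} (hf : Continuous f) :
    Continuous fun t => rot (f t) n := by
  unfold rot
  exact (Quaternion.continuous_coe.comp (Real.continuous_cos.comp hf)).add
    ((Real.continuous_sin.comp hf).smul continuous_const)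

end IndexAux

theorem continuous_zz (a₁ a₂ a₃ : ℝ) {n : ℍ[ℝ]} : Continuous (zz1 a₁ a₂ a₃ n) ∧
    Continuous (zz2 a₁ a₂ a₃ n) ∧ Continuous (zz3 a₁ a₂ a₃ n) := by
  have hs : Continuous fun τ => star (geo a₁ a₂ a₃ n τ) :=
    continuous_star.comp (continuous_iff_continuousAt.mpr
      fun t => ((isGeo_geo a₁ a₂ a₃ n).2 t).continuousAt)
  exact ⟨hs.mul (continuous_rot_comp n (continuous_G _ _ _ _)),
    hs.mul (continuous_rot_comp n (continuous_G _ _ _ _)),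
    hs.mul (continuous_rot_comp n (continuous_G _ _ _ _))⟩

end

end Pool.Agent.CutS3
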