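import Pool.Agent.CutS3.Geo
import Pool.Agent.CutS3.Index
import Pool.Agent.CutS3.IdxAlg
import Pool.Agent.CutS3.Yrel
import Pool.Agent.CutS3.Grel
import Pool.Agent.CutS3.TauA

set_option autoImplicit false
set_option linter.unusedVariables false

namespace Pool.Agent.CutS3

open Set Quaternion

noncomputable section

namespace WallAux

theorem rot_mul_self {p : ℍ[ℝ]} (hp : p ∈ Un) : p * p = -1 := by
  obtain ⟨h0, h1⟩ := hp
  have h2 : p.imI ^ 2 + p.imJ ^ 2 + p.imK ^ 2 = 1 := by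
    have := Quaternion.normSq_eq_norm_mul_self p
    rw [h1, Quaternion.normSq_def', h0] at this
    linarith
  ext
  · simp [Quaternion.re_mul, h0]; nlinarith
  · simp [Quaternion.imI_mul, h0]; ring
  · simp [Quaternion.imJ_mul, h0]; ring
  · simp [Quaternion.imK_mul, h0]; ring

theorem sq_Un {p : ℍ[ℝ]} (hp : p ∈ Un) : p.imI ^ 2 + p.imJ ^ 2 + p.imK ^ 2 = 1 := by
  obtain ⟨h0, h1⟩ := hp
  have := Quaternion.normSq_eq_norm_mul_self p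
  rw [h1, Quaternion.normSq_def', h0] at this
  linarith

theorem sq_unit {q : ℍ[ℝ]} (hq : ‖q‖ = 1) :
    q.re ^ 2 + q.imI ^ 2 + q.imJ ^ 2 + q.imK ^ 2 = 1 := by
  have := Quaternion.normSq_eq_norm_mul_self q
  rw [hq, Quaternion.normSq_def'] at this
  linarith

theorem rot_pi (n : ℍ[ℝ]) : rot Real.pi n = -1 := by
  unfold rot
  simp

theorem rot_zero (n : ℍ[ℝ]) : rot 0 n = 1 := by
  unfold rot
  simp

theorem rot_re (θ : ℝ) {n : ℍ[ℝ]} (hn : n.re = 0) : (rot θ n).re = Real.cos θ := by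
  unfold rot; simp [hn]
theorem rot_imI (θ : ℝ) (n : ℍ[ℝ]) : (rot θ n).imI = Real.sin θ * n.imI := by
  unfold rot; simp
theorem rot_imJ (θ : ℝ) (n : ℍ[ℝ]) : (rot θ n).imJ = Real.sin θ * n.imJ := by
  unfold rot; simp
theorem rot_imK (θ : ℝ) (n : ℍ[ℝ]) : (rot θ n).imK = Real.sin θ * n.imK := by
  unfold rot; simp


theorem continuous_zz1_re (a₁ a₂ a₃ : ℝ) (n : ℍ[ℝ]) :
    Continuous fun τ => (zz1 a₁ a₂ a₃ n τ).re :=
  Quaternion.continuous_re.comp (continuous_zz a₁ a₂ a₃ (n := n)).1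

theorem continuous_zz3_re (a₁ a₂ a₃ : ℝ) (n : ℍ[ℝ]) :
    Continuous fun τ => (zz3 a₁ a₂ a₃ n τ).re :=
  Quaternion.continuous_re.comp (continuous_zz a₁ a₂ a₃ (n := n)).2.2

/-- a continuous function that is `1` at `0` and has no zero on `(0, t]` is positive at `t` -/
theorem pos_of_no_zero {f : ℝ → ℝ} (hf : Continuous f) (h0 : f 0 = 1) {t : ℝ} (ht : 0 ≤ t)
    (h : ∀ s, 0 < s → s ≤ t → f s ≠ 0) : 0 < f t := by
  by_contra hc
  push Not at hc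
  have h1 : (0 : ℝ) ∈ Icc (f t) (f 0) := ⟨hc, by rw [h0]; norm_num⟩
  obtain ⟨s, hs, hs0⟩ := intermediate_value_Icc' ht hf.continuousOn h1
  rcases eq_or_lt_of_le hs.1 with h2 | h2
  · rw [← h2, h0] at hs0; norm_num at hs0
  · exact h s h2 hs.2 hs0

/-- the same on the whole line -/
theorem pos_of_no_zero' {f : ℝ → ℝ} (hf : Continuous f) (h0 : f 0 = 1)
    (h : ∀ s, f s ≠ 0) (t : ℝ) : 0 < f t := by
  by_contra hc
  push Not at hc
  obtain ⟨s, hs⟩ := mem_range_of_exists_le_of_exists_ge hf ⟨t, hc⟩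
    ⟨0, by rw [h0]; norm_num⟩
  exact h s hs

variable {a₁ a₂ a₃ : ℝ}

theorem zz1_zero (n : ℍ[ℝ]) : zz1 a₁ a₂ a₃ n 0 = 1 := by
  unfold zz1
  rw [geo_zero, (G_zero (a₁ := a₁) (a₂ := a₂) (a₃ := a₃)).1, rot_zero]; simp

theorem zz3_zero (n : ℍ[ℝ]) : zz3 a₁ a₂ a₃ n 0 = 1 := by
  unfold zz3
  rw [geo_zero, (G_zero (a₁ := a₁) (a₂ := a₂) (a₃ := a₃)).2.2, rot_zero]; simp

/-- `n = z̄ p z` for `z = q̄ exp(G n)`, `p = q̄ n q` -/
theorem conj_eq {q n z : ℍ[ℝ]} {G : ℝ} (hq : ‖q‖ = 1) (hn : n ∈ Un)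
    (hz : z = star q * rot G n) : n = star z * bm n q * z := by
  have h1 : q * star q = 1 := by
    rw [Quaternion.self_mul_star, Quaternion.normSq_eq_norm_mul_self, hq]; simp
  have hnn : n * n = -1 := rot_mul_self hn
  have hns : star n = -n := by
    ext <;> simp [hn.1]
  have h2 : star (rot G n) * n * rot G n = n := by
    have h3 : n * rot G n = rot G n * n := by
      unfold rot
      rw [mul_add, add_mul, mul_smul_comm, smul_mul_assoc]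
      congr 1
      exact (Quaternion.coe_commutes _ _).symm
    have h4 : star (rot G n) * rot G n = 1 := by
      have h5 : star (rot G n) = rot (-G) n := by
        unfold rot
        rw [star_add, Quaternion.star_smul, hns]
        simp
      rw [h5]
      unfold rot
      have h6 := Real.cos_sq_add_sin_sq G
      rw [Real.cos_neg, Real.sin_neg]
      ext
      · simp [hn.1]
        have := sq_Un hn
        nlinarith
      · simp [hn.1]; ring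
      · simp [hn.1]; ring
      · simp [hn.1]; ring
    rw [mul_assoc, h3, ← mul_assoc, h4, one_mul]
  rw [hz, star_mul, star_star]
  unfold bm
  calc n = star (rot G n) * n * rot G n := h2.symm
    _ = star (rot G n) * (q * star q) * n * (q * star q) * rot G n := by rw [h1]; simp
    _ = _ := by simp only [mul_assoc]

end WallAux

section wall
variable {a₁ a₂ a₃ : ℝ}

open WallAux

/-- at the cut time the end point lies on a wall -/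
theorem wall_cut (hax : Ax a₁ a₂ a₃) {n : ℍ[ℝ]} (hn : n ∈ Un) :
    (Reg1 a₁ a₂ a₃ (HH a₁ a₂ a₃ n) →
      (geo a₁ a₂ a₃ n (tcut a₁ a₂ a₃ (HH a₁ a₂ a₃ n))).imI = 0) ∧
    (¬ Reg1 a₁ a₂ a₃ (HH a₁ a₂ a₃ n) →
      (geo a₁ a₂ a₃ n (tcut a₁ a₂ a₃ (HH a₁ a₂ a₃ n))).imJ = 0) := by
  have hr := (HH_mem_Icc hn hax).1
  refine ⟨fun h => ?_, fun h => ?_⟩
  · have h1 : tcut a₁ a₂ a₃ (HH a₁ a₂ a₃ n) = tau1 a₁ a₂ a₃ (HH a₁ a₂ a₃ n) := by
      unfold tcut; rw [if_pos h]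
    have h2 := (index1 a₁ a₂ a₃ hn (tau1 a₁ a₂ a₃ (HH a₁ a₂ a₃ n))).2.1
    unfold zz1 at h2
    rw [(tau1_spec hax hr).2, rot_pi] at h2
    rw [h1]
    simpa using h2
  · have h1 : tcut a₁ a₂ a₃ (HH a₁ a₂ a₃ n) = tau2 a₁ a₂ a₃ (HH a₁ a₂ a₃ n) := by
      unfold tcut; rw [if_neg h]
    have h2 := (index2 a₁ a₂ a₃ hn (tau2 a₁ a₂ a₃ (HH a₁ a₂ a₃ n))).2.1
    unfold zz2 at h2
    rw [(tau2_spec hax hr).2, rot_pi] at h2
    rw [h1]
    simpa using h2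

/-- points of a geodesic on a wall before the cut time -/
theorem wall_rf (hax : Ax a₁ a₂ a₃) {n : ℍ[ℝ]} (hn : n ∈ Un)
    (hr : HH a₁ a₂ a₃ n ∈ Ioo a₃ a₁) (hr2 : HH a₁ a₂ a₃ n ≠ a₂) {τ : ℝ} (h0 : 0 < τ)
    (hτ : τ < tcut a₁ a₂ a₃ (HH a₁ a₂ a₃ n)) (hne : τ ≠ Ts a₁ a₂ a₃ (HH a₁ a₂ a₃ n)) :
    ((geo a₁ a₂ a₃ n τ).imI = 0 → rf1 (bg a₁ a₂ a₃ n τ) = n) ∧
    ((geo a₁ a₂ a₃ n τ).imJ = 0 → rf2 (bg a₁ a₂ a₃ n τ) = n) ∧
    ((geo a₁ a₂ a₃ n τ).imK = 0 → rf3 (bg a₁ a₂ a₃ n τ) = n) := by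
  have hG := tcut_G hax (Ioo_subset_Icc_self hr) h0 hτ
  have hq : ‖geo a₁ a₂ a₃ n τ‖ = 1 := norm_geo n τ
  have hpU : bg a₁ a₂ a₃ n τ ∈ Un := bg_mem_Un hn τ
  have hp0 : (bm n (geo a₁ a₂ a₃ n τ)).re = 0 := hpU.1
  refine ⟨fun h => ?_, fun h => ?_, fun h => ?_⟩
  · obtain ⟨hz1, hz2, -⟩ := index1 a₁ a₂ a₃ hn τ
    have hs := Real.sin_pos_of_pos_of_lt_pi hG.1.1 hG.1.2
    have e1 := star_eq (z := zz1 a₁ a₂ a₃ n τ) hq hn rfl
    have e2 := conj_eq (z := zz1 a₁ a₂ a₃ n τ) hq hn rfl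
    have e3 := sq_unit hz1
    change bm n (geo a₁ a₂ a₃ n τ) ∈ Un at hpU
    change rf1 (bm n (geo a₁ a₂ a₃ n τ)) = n
    generalize zz1 a₁ a₂ a₃ n τ = z at *
    generalize bm n (geo a₁ a₂ a₃ n τ) = p at *
    have e4 := congrArg QuaternionAlgebra.imI e1
    simp only [Quaternion.imI_star, Quaternion.imI_mul, rot_re _ hp0, rot_imI, rot_imJ, rot_imK,
      h, hz2, Real.cos_neg, Real.sin_neg] at e4
    have hbn : z.re * p.imI + z.imK * p.imJ - z.imJ * p.imK = 0 := by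
      have : Real.sin (G1 a₁ a₂ a₃ (HH a₁ a₂ a₃ n) τ) *
        (z.re * p.imI + z.imK * p.imJ - z.imJ * p.imK) = 0 := by linarith
      exact (mul_eq_zero.mp this).resolve_left hs.ne'
    rw [e2]
    simp only [hz2] at e3
    unfold rf1
    ext
    · simp only [Quaternion.re_mul, Quaternion.imI_mul, Quaternion.imJ_mul, Quaternion.imK_mul,
        Quaternion.re_star, Quaternion.imI_star, Quaternion.imJ_star, Quaternion.imK_star, hz2, hp0]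
      ring
    · simp only [Quaternion.re_mul, Quaternion.imI_mul, Quaternion.imJ_mul, Quaternion.imK_mul,
        Quaternion.re_star, Quaternion.imI_star, Quaternion.imJ_star, Quaternion.imK_star, hz2, hp0]
      linear_combination (-2 * z.re) * hbn + (p.imI) * e3
    · simp only [Quaternion.re_mul, Quaternion.imI_mul, Quaternion.imJ_mul, Quaternion.imK_mul,
        Quaternion.re_star, Quaternion.imI_star, Quaternion.imJ_star, Quaternion.imK_star, hz2, hp0]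
      linear_combination (2 * z.imK) * hbn - (p.imJ) * e3
    · simp only [Quaternion.re_mul, Quaternion.imI_mul, Quaternion.imJ_mul, Quaternion.imK_mul,
        Quaternion.re_star, Quaternion.imI_star, Quaternion.imJ_star, Quaternion.imK_star, hz2, hp0]
      linear_combination (-2 * z.imJ) * hbn - (p.imK) * e3
  · obtain ⟨hz1, hz2, -⟩ := index2 a₁ a₂ a₃ hn τ
    have hs := Real.sin_pos_of_pos_of_lt_pi hG.2.1.1 hG.2.1.2
    have e1 := star_eq (z := zz2 a₁ a₂ a₃ n τ) hq hn rfl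
    have e2 := conj_eq (z := zz2 a₁ a₂ a₃ n τ) hq hn rfl
    have e3 := sq_unit hz1
    change bm n (geo a₁ a₂ a₃ n τ) ∈ Un at hpU
    change rf2 (bm n (geo a₁ a₂ a₃ n τ)) = n
    generalize zz2 a₁ a₂ a₃ n τ = z at *
    generalize bm n (geo a₁ a₂ a₃ n τ) = p at *
    have e4 := congrArg QuaternionAlgebra.imJ e1
    simp only [Quaternion.imJ_star, Quaternion.imJ_mul, rot_re _ hp0, rot_imI, rot_imJ, rot_imK,
      h, hz2, Real.cos_neg, Real.sin_neg] at e4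
    have hbn : z.re * p.imJ + z.imI * p.imK - z.imK * p.imI = 0 := by
      have : Real.sin (G2 a₁ a₂ a₃ (HH a₁ a₂ a₃ n) τ) *
        (z.re * p.imJ + z.imI * p.imK - z.imK * p.imI) = 0 := by linarith
      exact (mul_eq_zero.mp this).resolve_left hs.ne'
    rw [e2]
    simp only [hz2] at e3
    unfold rf2
    ext
    · simp only [Quaternion.re_mul, Quaternion.imI_mul, Quaternion.imJ_mul, Quaternion.imK_mul,
        Quaternion.re_star, Quaternion.imI_star, Quaternion.imJ_star, Quaternion.imK_star, hz2, hp0]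
      ring
    · simp only [Quaternion.re_mul, Quaternion.imI_mul, Quaternion.imJ_mul, Quaternion.imK_mul,
        Quaternion.re_star, Quaternion.imI_star, Quaternion.imJ_star, Quaternion.imK_star, hz2, hp0]
      linear_combination (-2 * z.imK) * hbn - (p.imI) * e3
    · simp only [Quaternion.re_mul, Quaternion.imI_mul, Quaternion.imJ_mul, Quaternion.imK_mul,
        Quaternion.re_star, Quaternion.imI_star, Quaternion.imJ_star, Quaternion.imK_star, hz2, hp0]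
      linear_combination (-2 * z.re) * hbn + (p.imJ) * e3
    · simp only [Quaternion.re_mul, Quaternion.imI_mul, Quaternion.imJ_mul, Quaternion.imK_mul,
        Quaternion.re_star, Quaternion.imI_star, Quaternion.imJ_star, Quaternion.imK_star, hz2, hp0]
      linear_combination (2 * z.imI) * hbn - (p.imK) * e3
  · obtain ⟨hz1, hz2, -⟩ := index3 a₁ a₂ a₃ hn τ
    have hs := Real.sin_pos_of_pos_of_lt_pi hG.2.2.1 hG.2.2.2
    have e1 := star_eq (z := zz3 a₁ a₂ a₃ n τ) hq hn rfl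
    have e2 := conj_eq (z := zz3 a₁ a₂ a₃ n τ) hq hn rfl
    have e3 := sq_unit hz1
    change bm n (geo a₁ a₂ a₃ n τ) ∈ Un at hpU
    change rf3 (bm n (geo a₁ a₂ a₃ n τ)) = n
    generalize zz3 a₁ a₂ a₃ n τ = z at *
    generalize bm n (geo a₁ a₂ a₃ n τ) = p at *
    have e4 := congrArg QuaternionAlgebra.imK e1
    simp only [Quaternion.imK_star, Quaternion.imK_mul, rot_re _ hp0, rot_imI, rot_imJ, rot_imK,
      h, hz2, Real.cos_neg, Real.sin_neg] at e4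
    have hbn : z.re * p.imK + z.imJ * p.imI - z.imI * p.imJ = 0 := by
      have : Real.sin (G3 a₁ a₂ a₃ (HH a₁ a₂ a₃ n) τ) *
        (z.re * p.imK + z.imJ * p.imI - z.imI * p.imJ) = 0 := by linarith
      exact (mul_eq_zero.mp this).resolve_left hs.ne'
    rw [e2]
    simp only [hz2] at e3
    unfold rf3
    ext
    · simp only [Quaternion.re_mul, Quaternion.imI_mul, Quaternion.imJ_mul, Quaternion.imK_mul,
        Quaternion.re_star, Quaternion.imI_star, Quaternion.imJ_star, Quaternion.imK_star, hz2, hp0]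
      ring
    · simp only [Quaternion.re_mul, Quaternion.imI_mul, Quaternion.imJ_mul, Quaternion.imK_mul,
        Quaternion.re_star, Quaternion.imI_star, Quaternion.imJ_star, Quaternion.imK_star, hz2, hp0]
      linear_combination (2 * z.imJ) * hbn - (p.imI) * e3
    · simp only [Quaternion.re_mul, Quaternion.imI_mul, Quaternion.imJ_mul, Quaternion.imK_mul,
        Quaternion.re_star, Quaternion.imI_star, Quaternion.imJ_star, Quaternion.imK_star, hz2, hp0]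
      linear_combination (-2 * z.imI) * hbn - (p.imJ) * e3
    · simp only [Quaternion.re_mul, Quaternion.imI_mul, Quaternion.imJ_mul, Quaternion.imK_mul,
        Quaternion.re_star, Quaternion.imI_star, Quaternion.imJ_star, Quaternion.imK_star, hz2, hp0]
      linear_combination (-2 * z.re) * hbn + (p.imK) * e3

/-- signs of the real parts of `z` -/
theorem zz1_re (hax : Ax a₁ a₂ a₃) {n : ℍ[ℝ]} (hn : n ∈ Un) {τ : ℝ}
    (hr : HH a₁ a₂ a₃ n ∈ Ico a₃ a₁) (h : Per a₁ a₂ a₃ (HH a₁ a₂ a₃ n) τ)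
    (h' : a₂ ≤ HH a₁ a₂ a₃ n ∨ τ < Ts a₁ a₂ a₃ (HH a₁ a₂ a₃ n)) :
    0 < (zz1 a₁ a₂ a₃ n τ).re := by
  refine pos_of_no_zero (f := fun τ => (zz1 a₁ a₂ a₃ n τ).re) (continuous_zz1_re a₁ a₂ a₃ n)
    (by simp [zz1_zero]) h.1.le ?_
  intro s hs hsτ h0
  have hP : Per a₁ a₂ a₃ (HH a₁ a₂ a₃ n) s := ⟨hs, fun h2 => lt_of_le_of_lt hsτ (h.2 h2)⟩
  obtain ⟨hz1, hz2, hI⟩ := index1 a₁ a₂ a₃ hn s
  have e3 := sq_unit hz1
  have hy := hI.hy
  have hlt := y1_lt_m2 hax.h12 hax.h23 hr hP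
    (h'.imp id fun h3 => (lt_of_le_of_lt hsτ h3).ne)
  rw [h0, hz2] at e3
  have h23 := hax.h23
  have h5 : y1 a₁ a₂ a₃ (HH a₁ a₂ a₃ n) s - (a₁ - a₂)
      = (a₂ - a₃) * (zz1 a₁ a₂ a₃ n s).imJ ^ 2 := by
    linear_combination hy + (a₁ - a₂) * e3
  have h6 := mul_nonneg (sub_nonneg.2 h23.le) (sq_nonneg (zz1 a₁ a₂ a₃ n s).imJ)
  linarith

theorem zz3_re (hax : Ax a₁ a₂ a₃) {n : ℍ[ℝ]} (hn : n ∈ Un) {τ : ℝ}
    (hr : HH a₁ a₂ a₃ n ∈ Ico a₃ a₂) : 0 < (zz3 a₁ a₂ a₃ n τ).re := by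
  refine pos_of_no_zero' (f := fun τ => (zz3 a₁ a₂ a₃ n τ).re) (continuous_zz3_re a₁ a₂ a₃ n)
    (by simp [zz3_zero]) ?_ τ
  intro s h0
  obtain ⟨hz1, hz2, hI⟩ := index3 a₁ a₂ a₃ hn s
  have e3 := sq_unit hz1
  have hy := hI.hy
  have h12 := hax.h12
  have h23 := hax.h23
  have hlt := y3_range h12 h23 (⟨hr.1, (hr.2.trans h12).le⟩ : HH a₁ a₂ a₃ n ∈ Icc a₃ a₁) s
  have hr2 := hr.2
  rw [h0, hz2] at e3
  nlinarith [sq_nonneg (zz3 a₁ a₂ a₃ n s).imJ, sq_nonneg (zz3 a₁ a₂ a₃ n s).imI, hlt.2.1]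

theorem zz2_re (hax : Ax a₁ a₂ a₃) {n : ℍ[ℝ]} (hn : n ∈ Un) {τ : ℝ}
    (hr : HH a₁ a₂ a₃ n ∈ Ico a₃ a₂) (h : Per a₁ a₂ a₃ (HH a₁ a₂ a₃ n) τ)
    (h' : Ts a₁ a₂ a₃ (HH a₁ a₂ a₃ n) < τ) : (zz2 a₁ a₂ a₃ n τ).re < 0 := by
  have h12 := hax.h12
  have h23 := hax.h23
  have hr1 : HH a₁ a₂ a₃ n ∈ Ico a₃ a₁ := ⟨hr.1, hr.2.trans h12⟩
  have hr2 : HH a₁ a₂ a₃ n ≠ a₂ := hr.2.ne
  have hu := zz3_re hax hn hr (τ := τ)
  obtain ⟨hz1, hz2, hI⟩ := index3 a₁ a₂ a₃ hn τ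
  have hq : ‖geo a₁ a₂ a₃ n τ‖ = 1 := norm_geo n τ
  have hp0 : (bm n (geo a₁ a₂ a₃ n τ)).re = 0 := (bg_mem_Un hn τ).1
  have e1 : zz2 a₁ a₂ a₃ n τ = _ := zz_shift (G := G3 a₁ a₂ a₃ (HH a₁ a₂ a₃ n) τ) hq hn
  have e2 := congrArg QuaternionAlgebra.re e1
  change (zz2 a₁ a₂ a₃ n τ).re = (rot _ _ * zz3 a₁ a₂ a₃ n τ).re at e2
  simp only [Quaternion.re_mul, rot_re _ hp0, rot_imI, rot_imJ, rot_imK, hz2] at e2
  have hid := (idx_p hI).2.2.2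
  -- signs
  have hT := h.2 hr2
  have hP' : Per a₁ a₂ a₃ (HH a₁ a₂ a₃ n) τ := h
  have hv1 : v1 a₁ a₂ a₃ (HH a₁ a₂ a₃ n) τ < 0 := by
    have h1 := (y_refl h12 h23 hr1 hr2 τ).2.2.2.1
    have h2 := v1_pos (τ := 2 * Ts a₁ a₂ a₃ (HH a₁ a₂ a₃ n) - τ) h12 h23 hr1 (by linarith)
      (fun _ => by linarith)
    linarith
  have hy1 := y1_pos h12 h23 hr1 h
  have hy1' := (y1_range h12 h23 ⟨hr1.1, hr1.2.le⟩ τ).2.2
  obtain ⟨hD0, hDpi, hD⟩ := rel13 h12 h23 hr1 h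
  have hsD := Real.sin_pos_of_pos_of_lt_pi hD0 hDpi
  have hcD : Real.cos (G1 a₁ a₂ a₃ (HH a₁ a₂ a₃ n) τ - G3 a₁ a₂ a₃ (HH a₁ a₂ a₃ n) τ) < 0 := by
    have h1 : 0 < 2 * y1 a₁ a₂ a₃ (HH a₁ a₂ a₃ n) τ *
        (a₁ - a₃ - y1 a₁ a₂ a₃ (HH a₁ a₂ a₃ n) τ) := by
      apply mul_pos (by linarith); linarith
    by_contra hc
    push Not at hc
    have h2 := mul_nonneg hc h1.le
    have h3 := mul_neg_of_pos_of_neg hsD hv1
    linarith
  have hDbig : Real.pi / 2 < G1 a₁ a₂ a₃ (HH a₁ a₂ a₃ n) τ - G3 a₁ a₂ a₃ (HH a₁ a₂ a₃ n) τ := by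
    by_contra hc
    push Not at hc
    have := Real.cos_nonneg_of_mem_Icc (x := G1 a₁ a₂ a₃ (HH a₁ a₂ a₃ n) τ -
      G3 a₁ a₂ a₃ (HH a₁ a₂ a₃ n) τ) ⟨by linarith, hc⟩
    linarith
  have hD12 := ((rel12T h12 h23 hr h).2 h').1
  obtain ⟨hE0, hEpi⟩ := rel23T h12 h23 hr h
  have hsE := Real.sin_pos_of_pos_of_lt_pi hE0 hEpi
  have hcE : Real.cos (G2 a₁ a₂ a₃ (HH a₁ a₂ a₃ n) τ - G3 a₁ a₂ a₃ (HH a₁ a₂ a₃ n) τ) < 0 :=
    Real.cos_neg_of_pi_div_two_lt_of_lt (by linarith) (by linarith)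
  have hr32 := rel32 h12 h23 hr1 h
  have hlt := y3_range h12 h23 (⟨hr.1, (hr.2.trans h12).le⟩ : HH a₁ a₂ a₃ n ∈ Icc a₃ a₁) τ
  have hr22 := hr.2
  have hA : 0 < a₂ - a₃ + y3 a₁ a₂ a₃ (HH a₁ a₂ a₃ n) τ := by linarith [hlt.2.1]
  have hB : 0 < a₁ - a₃ + y3 a₁ a₂ a₃ (HH a₁ a₂ a₃ n) τ := by linarith
  generalize G2 a₁ a₂ a₃ (HH a₁ a₂ a₃ n) τ - G3 a₁ a₂ a₃ (HH a₁ a₂ a₃ n) τ = E at *
  change (zz2 a₁ a₂ a₃ n τ).re = Real.cos E * (zz3 a₁ a₂ a₃ n τ).re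
    - Real.sin E * (bg a₁ a₂ a₃ n τ).imI * (zz3 a₁ a₂ a₃ n τ).imI
    - Real.sin E * (bg a₁ a₂ a₃ n τ).imJ * (zz3 a₁ a₂ a₃ n τ).imJ
    - Real.sin E * (bg a₁ a₂ a₃ n τ).imK * 0 at e2
  set u0 := (zz3 a₁ a₂ a₃ n τ).re
  set y := y3 a₁ a₂ a₃ (HH a₁ a₂ a₃ n) τ
  set v := v3 a₁ a₂ a₃ (HH a₁ a₂ a₃ n) τ
  set pu := (bg a₁ a₂ a₃ n τ).imI * (zz3 a₁ a₂ a₃ n τ).imI
    + (bg a₁ a₂ a₃ n τ).imJ * (zz3 a₁ a₂ a₃ n τ).imJ with hpu
  have e4 : (zz2 a₁ a₂ a₃ n τ).re = Real.cos E * u0 - Real.sin E * pu := by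
    rw [e2, hpu]; ring
  have e5 : 2 * (a₂ - a₃ + y) * (a₁ - a₃ + y) * pu = v * u0 := by
    rw [hpu]; linear_combination hid
  have hAB : 0 < 2 * (a₂ - a₃ + y) * (a₁ - a₃ + y) := by positivity
  have e6 : 2 * (a₂ - a₃ + y) * (a₁ - a₃ + y) * (zz2 a₁ a₂ a₃ n τ).re
      = 2 * (a₂ - a₃ + y) * (a₁ - a₃) * (Real.cos E * u0) := by
    rw [e4]
    linear_combination (-Real.sin E) * e5 + u0 * hr32
  have h7 : 2 * (a₂ - a₃ + y) * (a₁ - a₃ + y) * (zz2 a₁ a₂ a₃ n τ).re < 0 := by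
    rw [e6]
    apply mul_neg_of_pos_of_neg
    · apply mul_pos (by linarith); linarith
    · exact mul_neg_of_neg_of_pos hcE hu
  by_contra hc
  push Not at hc
  have := mul_nonneg hAB.le hc
  linarith

/-- type III at the half period: `z₁ = z₂ = ± k` -/
theorem zz_Ts (hax : Ax a₁ a₂ a₃) {n : ℍ[ℝ]} (hn : n ∈ Un)
    (hr : HH a₁ a₂ a₃ n ∈ Ico a₃ a₂) :
    (0 < n.imK → zz1 a₁ a₂ a₃ n (Ts a₁ a₂ a₃ (HH a₁ a₂ a₃ n)) = ⟨0, 0, 0, 1⟩) ∧
    (n.imK < 0 → zz1 a₁ a₂ a₃ n (Ts a₁ a₂ a₃ (HH a₁ a₂ a₃ n)) = ⟨0, 0, 0, -1⟩) := by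
  have h12 := hax.h12
  have h23 := hax.h23
  have hr1 : HH a₁ a₂ a₃ n ∈ Ico a₃ a₁ := ⟨hr.1, hr.2.trans h12⟩
  have hr2 : HH a₁ a₂ a₃ n ≠ a₂ := hr.2.ne
  have hTT := (TsT h12 h23 hr).1
  have hTpos : 0 ≤ Ts a₁ a₂ a₃ (HH a₁ a₂ a₃ n) := (Ts_pos h12 h23 hr1 hr2).le
  have hs12 := star12T h12 h23 hr
  have hs13 := star13 h12 h23 hr1 hr2
  generalize Ts a₁ a₂ a₃ (HH a₁ a₂ a₃ n) = T at *
  obtain ⟨hz1, hz2, hI⟩ := index1 a₁ a₂ a₃ hn T
  obtain ⟨-, hz2', -⟩ := index2 a₁ a₂ a₃ hn T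
  have h12' : zz2 a₁ a₂ a₃ n T = zz1 a₁ a₂ a₃ n T := by
    unfold zz2 zz1; rw [hs12]
  rw [h12'] at hz2'
  have hy := hI.hy
  rw [hTT, hz2'] at hy
  have e3 := sq_unit hz1
  have hk : (zz1 a₁ a₂ a₃ n T).imK ^ 2 = 1 := by
    have : (a₁ - a₂) * ((zz1 a₁ a₂ a₃ n T).imK ^ 2 - 1) = 0 := by linarith
    rcases mul_eq_zero.mp this with h | h <;> linarith
  have h0 : (zz1 a₁ a₂ a₃ n T).re = 0 := by
    rw [hz2, hz2', hk] at e3
    have : (zz1 a₁ a₂ a₃ n T).re ^ 2 = 0 := by linarith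
    exact pow_eq_zero_iff (two_ne_zero) |>.mp this
  -- sign of the component
  have hp3 : ∀ t, (bg a₁ a₂ a₃ n t).imK ≠ 0 := by
    intro t h3
    have hU := bg_mem_Un (a₁ := a₁) (a₂ := a₂) (a₃ := a₃) hn t
    have hs := sq_Un hU
    have hH := HH_bg (a₁ := a₁) (a₂ := a₂) (a₃ := a₃) hn.1 t
    have hlt := hr.2
    unfold HH at hH hlt
    rw [h3] at hs hH
    have h5 : (a₁ - a₂) * (bg a₁ a₂ a₃ n t).imI ^ 2
        = a₁ * n.imI ^ 2 + a₂ * n.imJ ^ 2 + a₃ * n.imK ^ 2 - a₂ := by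
      linear_combination hH - a₂ * hs
    have h6 := mul_nonneg (sub_nonneg.2 h12.le) (sq_nonneg (bg a₁ a₂ a₃ n t).imI)
    linarith
  have hcont : Continuous fun t => (bg a₁ a₂ a₃ n t).imK := by
    have h1 : Continuous fun t : ℝ => (n, t) := by fun_prop
    have h2 := (continuous_bg (a₁ := a₁) (a₂ := a₂) (a₃ := a₃)).comp h1
    exact Quaternion.continuous_imK.comp h2
  -- relation with zz3
  have hu := zz3_re hax hn hr (τ := T)
  have hq : ‖geo a₁ a₂ a₃ n T‖ = 1 := norm_geo n T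
  have hp0 : (bm n (geo a₁ a₂ a₃ n T)).re = 0 := (bg_mem_Un hn T).1
  have e1 : zz3 a₁ a₂ a₃ n T = rot (G3 a₁ a₂ a₃ (HH a₁ a₂ a₃ n) T -
      G1 a₁ a₂ a₃ (HH a₁ a₂ a₃ n) T) (bm n (geo a₁ a₂ a₃ n T)) * zz1 a₁ a₂ a₃ n T :=
    zz_shift (G := G1 a₁ a₂ a₃ (HH a₁ a₂ a₃ n) T) hq hn
  have e2 := congrArg QuaternionAlgebra.re e1
  simp only [Quaternion.re_mul, rot_re _ hp0, rot_imI, rot_imJ, rot_imK, hz2, hz2', h0] at e2
  have hs : Real.sin (G3 a₁ a₂ a₃ (HH a₁ a₂ a₃ n) T - G1 a₁ a₂ a₃ (HH a₁ a₂ a₃ n) T) = -1 := by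
    rw [hs13, show G3 a₁ a₂ a₃ (HH a₁ a₂ a₃ n) T - (G3 a₁ a₂ a₃ (HH a₁ a₂ a₃ n) T +
      Real.pi / 2) = -(Real.pi / 2) by ring, Real.sin_neg, Real.sin_pi_div_two]
  rw [hs] at e2
  have hpos : 0 < (bg a₁ a₂ a₃ n T).imK * (zz1 a₁ a₂ a₃ n T).imK := by
    have hbg : (bg a₁ a₂ a₃ n T).imK = (bm n (geo a₁ a₂ a₃ n T)).imK := rfl
    rw [hbg]
    linarith
  refine ⟨fun hK => ?_, fun hK => ?_⟩
  · have h1 : 0 < (bg a₁ a₂ a₃ n T).imK := by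
      by_contra hc
      push Not at hc
      obtain ⟨s, hs⟩ := mem_range_of_exists_le_of_exists_ge hcont ⟨T, hc⟩
        ⟨0, by rw [bg_zero]; exact hK.le⟩
      exact hp3 s hs
    have h2 : 0 < (zz1 a₁ a₂ a₃ n T).imK := by
      by_contra hc
      push Not at hc
      have := mul_nonpos_of_nonneg_of_nonpos h1.le hc
      linarith
    have h3 : (zz1 a₁ a₂ a₃ n T).imK = 1 := by nlinarith
    ext
    · exact h0
    · exact hz2
    · exact hz2'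
    · exact h3
  · have h1 : (bg a₁ a₂ a₃ n T).imK < 0 := by
      by_contra hc
      push Not at hc
      obtain ⟨s, hs⟩ := mem_range_of_exists_le_of_exists_ge hcont
        ⟨0, by rw [bg_zero]; exact hK.le⟩ ⟨T, hc⟩
      exact hp3 s hs
    have h2 : (zz1 a₁ a₂ a₃ n T).imK < 0 := by
      by_contra hc
      push Not at hc
      have := mul_nonpos_of_nonpos_of_nonneg h1.le hc
      linarith
    have h3 : (zz1 a₁ a₂ a₃ n T).imK = -1 := by nlinarith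
    ext
    · exact h0
    · exact hz2
    · exact hz2'
    · exact h3

end wall

end

end Pool.Agent.CutS3
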