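import Pool.Agent.CutS3.Corner
import Pool.Agent.CutS3.Wall
import Pool.Agent.CutS3.TauB1
import Pool.Agent.CutS3.TauB

set_option autoImplicit false

namespace Pool.Agent.CutS3

open Set Quaternion Filter Topology

noncomputable section

namespace MaxwAux

variable {a b c : ℝ}

theorem ax_inv (ha : 0 < a) (hab : a < b) (hbc : b < c) : Ax (1 / a) (1 / b) (1 / c) := by
  have hb : 0 < b := ha.trans hab
  have hc : 0 < c := hb.trans hbc
  exact ⟨by positivity, one_div_lt_one_div_of_lt hb hbc, one_div_lt_one_div_of_lt ha hab⟩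

theorem rf1_fix {q : ℍ[ℝ]} (h : q.imI = 0) : rf1 q = q := by
  apply Quaternion.ext <;> simp [rf1, h]

theorem rf2_fix {q : ℍ[ℝ]} (h : q.imJ = 0) : rf2 q = q := by
  apply Quaternion.ext <;> simp [rf2, h]

theorem rf1_rf1 (q : ℍ[ℝ]) : rf1 (rf1 q) = q := by
  apply Quaternion.ext <;> simp [rf1]

theorem rf2_rf2 (q : ℍ[ℝ]) : rf2 (rf2 q) = q := by
  apply Quaternion.ext <;> simp [rf2]

/-- the end point at the cut time lies on a wall -/
theorem wall_Tc (ha : 0 < a) (hab : a < b) (hbc : b < c) {m : ℍ[ℝ]}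
    (hm : m ∈ Ell (1 / a) (1 / b) (1 / c)) :
    (Reg1 (1 / a) (1 / b) (1 / c) (rr m) →
      (geo (1 / a) (1 / b) (1 / c) m (Tc (1 / a) (1 / b) (1 / c) m)).imI = 0) ∧
    (¬ Reg1 (1 / a) (1 / b) (1 / c) (rr m) →
      (geo (1 / a) (1 / b) (1 / c) m (Tc (1 / a) (1 / b) (1 / c) m)).imJ = 0) := by
  have hax := ax_inv ha hab hbc
  obtain ⟨hpos, hU, hHH, -, hgeo, -⟩ := unit_of_Ell hm hax
  have h := wall_cut hax hU
  rw [hHH] at h
  have e : ‖m‖ * Tc (1 / a) (1 / b) (1 / c) m = tcut (1 / a) (1 / b) (1 / c) (rr m) := by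
    unfold Tc
    field_simp
  rw [hgeo, e]
  exact h

theorem Tc_pos (ha : 0 < a) (hab : a < b) (hbc : b < c) {m : ℍ[ℝ]}
    (hm : m ∈ Ell (1 / a) (1 / b) (1 / c)) : 0 < Tc (1 / a) (1 / b) (1 / c) m := by
  have hax := ax_inv ha hab hbc
  obtain ⟨hpos, -, -, hr, -, -⟩ := unit_of_Ell hm hax
  unfold Tc
  exact div_pos (tcut_pos hax hr) hpos

theorem Tc_cont (ha : 0 < a) (hab : a < b) (hbc : b < c) :
    ContinuousOn (Tc (1 / a) (1 / b) (1 / c)) (Ell (1 / a) (1 / b) (1 / c)) := by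
  have hax := ax_inv ha hab hbc
  have hn0 : ∀ m ∈ Ell (1 / a) (1 / b) (1 / c), ‖m‖ ≠ 0 := fun m hm => (unit_of_Ell hm hax).1.ne'
  have h1 : ContinuousOn (fun m : ℍ[ℝ] => rr m) (Ell (1 / a) (1 / b) (1 / c)) := by
    unfold rr
    exact continuousOn_const.div (continuous_norm.pow 2).continuousOn
      (fun m hm => pow_ne_zero 2 (hn0 m hm))
  have h2 : MapsTo (fun m : ℍ[ℝ] => rr m) (Ell (1 / a) (1 / b) (1 / c)) (Icc (1 / c) (1 / a)) :=
    fun m hm => (unit_of_Ell hm hax).2.2.2.1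
  have h3 := (tcut_cont hax).comp h1 h2
  unfold Tc
  exact h3.div continuous_norm.continuousOn hn0

/-- beyond the cut time the body momentum is even for small times -/
theorem even_of_gt (ha : 0 < a) (hb : 0 < b) (hc : 0 < c) (ρ : ℍ[ℝ] → ℍ[ℝ])
    (hρρ : ∀ q, ρ (ρ q) = q) (hnorm : ∀ q, ‖ρ q‖ = ‖q‖)
    (hminl : ∀ m T, Minl a b c m T → Minl a b c (ρ (bg (1 / a) (1 / b) (1 / c) m T)) T)
    (hgeo : ∀ m : ℍ[ℝ], m.re = 0 → ∀ T t, geo (1 / a) (1 / b) (1 / c)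
      (ρ (bg (1 / a) (1 / b) (1 / c) m T)) t
      = ρ (star (geo (1 / a) (1 / b) (1 / c) m (T - t)) * geo (1 / a) (1 / b) (1 / c) m T))
    (hbg : ∀ m : ℍ[ℝ], m.re = 0 → ∀ T t, bg (1 / a) (1 / b) (1 / c)
      (ρ (bg (1 / a) (1 / b) (1 / c) m T)) t = ρ (bg (1 / a) (1 / b) (1 / c) m (T - t)))
    (hEll : ∀ m : ℍ[ℝ], m ∈ Ell (1 / a) (1 / b) (1 / c) → ρ m ∈ Ell (1 / a) (1 / b) (1 / c))
    {m : ℍ[ℝ]} {T T1 : ℝ} (hT1 : 0 < T1) (h : Minl a b c m T) (hT : T1 < T)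
    (hfix : ∀ m' ∈ Ell (1 / a) (1 / b) (1 / c), ‖m'‖ = ‖m‖ →
      ρ (geo (1 / a) (1 / b) (1 / c) m' T1) = geo (1 / a) (1 / b) (1 / c) m' T1) :
    ∀ s ∈ Ioo 0 (T - T1), bg (1 / a) (1 / b) (1 / c) m s = bg (1 / a) (1 / b) (1 / c) m (-s) := by
  -- first step
  have step : ∀ m' T', Minl a b c m' T' → T1 < T' → ‖m'‖ = ‖m‖ →
      ρ (bg (1 / a) (1 / b) (1 / c) m' T1) = m' := by
    intro m' T' hm' hT' hn
    refine minl_unique ha hb hc hm' hT1 hT' (hEll _ (bg_mem_Ell hm'.1 T1)) ?_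
    rw [hgeo m' hm'.1.1, sub_self, geo_zero, star_one, one_mul]
    exact hfix m' hm'.1 hn
  have h1 := step m T h hT rfl
  intro s hs
  have hs0 : 0 < s := hs.1
  have hTs : T1 + s ≤ T := by linarith [hs.2]
  have hM : Minl a b c m (T1 + s) := minl_mono ha hb hc h (by linarith) hTs
  have h2 := step _ (T1 + s) (hminl m (T1 + s) hM) (by linarith)
    (by rw [hnorm, norm_bg])
  rw [hbg m h.1.1, hρρ, add_sub_cancel_left] at h2
  rw [h2]
  have h3 := hbg m h.1.1 T1 (-s)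
  rw [h1, sub_neg_eq_add] at h3
  exact h3.symm

theorem axis_of_gt (ha : 0 < a) (hab : a < b) (hbc : b < c) {m : ℍ[ℝ]} {T : ℝ}
    (h : Minl a b c m T) (hT : Tc (1 / a) (1 / b) (1 / c) m < T) :
    (m.imJ = 0 ∧ m.imK = 0) ∨ (m.imI = 0 ∧ m.imK = 0) ∨ (m.imI = 0 ∧ m.imJ = 0) := by
  have hb : 0 < b := ha.trans hab
  have hc : 0 < c := hb.trans hbc
  have hax := ax_inv ha hab hbc
  have hT1 := Tc_pos ha hab hbc h.1
  have hTc : ∀ m' : ℍ[ℝ], ‖m'‖ = ‖m‖ →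
      rr m' = rr m ∧ Tc (1 / a) (1 / b) (1 / c) m' = Tc (1 / a) (1 / b) (1 / c) m := by
    intro m' hn
    have : rr m' = rr m := by unfold rr; rw [hn]
    refine ⟨this, ?_⟩
    unfold Tc
    rw [this, hn]
  have heven : ∀ s ∈ Ioo 0 (T - Tc (1 / a) (1 / b) (1 / c) m),
      bg (1 / a) (1 / b) (1 / c) m s = bg (1 / a) (1 / b) (1 / c) m (-s) := by
    by_cases hR : Reg1 (1 / a) (1 / b) (1 / c) (rr m)
    · refine even_of_gt ha hb hc rf1 rf1_rf1 norm_rf1 (fun m T hm => minl_rf1 ha hb hc hm)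
        (fun m hm T t => geo_rf1 hm T t) (fun m hm T t => bg_rf1 hm T t)
        (fun m hm => rf1_mem_Ell.mpr hm) hT1 h hT ?_
      intro m' hm' hn
      obtain ⟨e1, e2⟩ := hTc m' hn
      have := (wall_Tc ha hab hbc hm').1 (by rw [e1]; exact hR)
      rw [e2] at this
      exact rf1_fix this
    · refine even_of_gt ha hb hc rf2 rf2_rf2 norm_rf2 (fun m T hm => minl_rf2 ha hb hc hm)
        (fun m hm T t => geo_rf2 hm T t) (fun m hm T t => bg_rf2 hm T t)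
        (fun m hm => rf2_mem_Ell.mpr hm) hT1 h hT ?_
      intro m' hm' hn
      obtain ⟨e1, e2⟩ := hTc m' hn
      have := (wall_Tc ha hab hbc hm').2 (by rw [e1]; exact hR)
      rw [e2] at this
      exact rf2_fix this
  exact axis_of_even hax h.1.1 (sub_pos.mpr hT) heven

/-- the geodesics along the axes stay in circles -/
theorem geo_axis_comp {a₁ a₂ a₃ : ℝ} {m : ℍ[ℝ]} (hm : m.re = 0)
    (h : (m.imJ = 0 ∧ m.imK = 0) ∨ (m.imI = 0 ∧ m.imK = 0) ∨ (m.imI = 0 ∧ m.imJ = 0)) (t : ℝ) :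
    (geo a₁ a₂ a₃ m t).imI * (geo a₁ a₂ a₃ m t).imJ * (geo a₁ a₂ a₃ m t).imK = 0 := by
  rcases h with h | h | h
  · have e : m = ⟨0, m.imI, 0, 0⟩ := by apply Quaternion.ext <;> simp [hm, h.1, h.2]
    rw [e, geo_axis1]
    simp [rot]
  · have e : m = ⟨0, 0, m.imJ, 0⟩ := by apply Quaternion.ext <;> simp [hm, h.1, h.2]
    rw [e, geo_axis2]
    simp [rot]
  · have e : m = ⟨0, 0, 0, m.imK⟩ := by apply Quaternion.ext <;> simp [hm, h.1, h.2]
    rw [e, geo_axis3]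
    simp [rot]

theorem exists_generic {q : ℍ[ℝ]} (hq : ‖q‖ = 1) {ε : ℝ} (hε : 0 < ε) :
    ∃ p : ℍ[ℝ], ‖p‖ = 1 ∧ ‖p - q‖ < ε ∧ p.imI * p.imJ * p.imK ≠ 0 := by
  set w : ℍ[ℝ] := ⟨0, 1, 1, 1⟩ with hw
  have hcont : Continuous fun t : ℝ => q + t • w := by fun_prop
  have hn1 : ‖q + (0 : ℝ) • w‖ = 1 := by rw [zero_smul, add_zero, hq]
  have hc1 : ContinuousAt (fun t : ℝ => ‖q + t • w‖⁻¹) 0 := by
    apply ContinuousAt.inv₀ hcont.norm.continuousAt
    rw [hn1]; exact one_ne_zero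
  have hc2 : ContinuousAt (fun t : ℝ => ‖q + t • w‖⁻¹ • (q + t • w)) 0 :=
    hc1.smul hcont.continuousAt
  have e0 : ‖q + (0 : ℝ) • w‖⁻¹ • (q + (0 : ℝ) • w) = q := by simp [hq]
  have hev : ∀ᶠ t : ℝ in 𝓝 0, ‖‖q + t • w‖⁻¹ • (q + t • w) - q‖ < ε := by
    have h1 : Tendsto (fun t : ℝ => ‖q + t • w‖⁻¹ • (q + t • w)) (𝓝 0) (𝓝 q) := by
      have := hc2.tendsto
      rwa [e0] at this
    have h2 := (Metric.tendsto_nhds.mp h1) ε hε
    filter_upwards [h2] with t ht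
    rwa [dist_eq_norm] at ht
  have hpos : ∀ᶠ t : ℝ in 𝓝 0, 0 < ‖q + t • w‖ := by
    have h1 : Tendsto (fun t : ℝ => ‖q + t • w‖) (𝓝 0) (𝓝 1) := by
      have := (hcont.norm.continuousAt (x := (0 : ℝ))).tendsto
      rwa [hn1] at this
    exact h1.eventually (lt_mem_nhds one_pos)
  have hfin : ({-q.imI, -q.imJ, -q.imK} : Set ℝ).Finite := by
    exact Set.toFinite _
  have hne : ∃ᶠ t : ℝ in 𝓝 0, t ∈ ({-q.imI, -q.imJ, -q.imK} : Set ℝ)ᶜ := by
    have hd : Dense (({-q.imI, -q.imJ, -q.imK} : Set ℝ)ᶜ) := hfin.countable.dense_compl ℝ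
    exact mem_closure_iff_frequently.mp (hd 0)
  obtain ⟨t, ht1, ht2, ht3⟩ := (hne.and_eventually (hev.and hpos)).exists
  refine ⟨‖q + t • w‖⁻¹ • (q + t • w), ?_, ht2, ?_⟩
  · rw [norm_smul, norm_inv, norm_norm]
    field_simp
  · have hinv : ‖q + t • w‖⁻¹ ≠ 0 := (inv_pos.mpr ht3).ne'
    simp only [mem_compl_iff, mem_insert_iff, mem_singleton_iff, not_or] at ht1
    obtain ⟨i1, i2, i3⟩ := ht1
    simp only [Quaternion.imI_smul, Quaternion.imJ_smul, Quaternion.imK_smul,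
      Quaternion.imI_add, Quaternion.imJ_add, Quaternion.imK_add, smul_eq_mul, hw, mul_one]
    have j1 : q.imI + t ≠ 0 := fun h => i1 (by linarith)
    have j2 : q.imJ + t ≠ 0 := fun h => i2 (by linarith)
    have j3 : q.imK + t ≠ 0 := fun h => i3 (by linarith)
    exact mul_ne_zero (mul_ne_zero (mul_ne_zero hinv j1) (mul_ne_zero hinv j2))
      (mul_ne_zero hinv j3)

end MaxwAux

open MaxwAux

theorem minl_le_Tc {a b c : ℝ} (ha : 0 < a) (hab : a < b) (hbc : b < c) {m : ℍ[ℝ]} {T : ℝ}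
    (h : Minl a b c m T) : T ≤ Tc (1 / a) (1 / b) (1 / c) m := by
  have hb : 0 < b := ha.trans hab
  have hc : 0 < c := hb.trans hbc
  have hax := ax_inv ha hab hbc
  by_contra hlt
  push Not at hlt
  have hT1 := Tc_pos ha hab hbc h.1
  set T1 := Tc (1 / a) (1 / b) (1 / c) m with hT1def
  set S := (T1 + T) / 2 with hS
  have hS1 : T1 < S := by rw [hS]; linarith
  have hS2 : S < T := by rw [hS]; linarith
  have hS0 : 0 < S := by linarith
  set q0 := geo (1 / a) (1 / b) (1 / c) m S with hq0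
  have hq0n : ‖q0‖ = 1 := norm_geo m S
  have hMS : Minl a b c m S := minl_mono ha hb hc h hS0.le hS2.le
  have hgS : gdist a b c 1 q0 = S := hMS.2.2
  -- approximation by generic points
  have hex : ∀ k : ℕ, ∃ p : ℍ[ℝ], ‖p‖ = 1 ∧ ‖p - q0‖ < 1 / ((k : ℝ) + 1) ∧
      p.imI * p.imJ * p.imK ≠ 0 := fun k => exists_generic hq0n (by positivity)
  choose p hp1 hp2 hp3 using hex
  have hexm : ∀ k : ℕ, ∃ mk, Minl a b c mk (gdist a b c 1 (p k)) ∧
      geo (1 / a) (1 / b) (1 / c) mk (gdist a b c 1 (p k)) = p k :=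
    fun k => exists_min ha hb hc (p k) (hp1 k)
  choose mk hmk1 hmk2 using hexm
  have hple : ∀ k, gdist a b c 1 (p k) ≤ Tc (1 / a) (1 / b) (1 / c) (mk k) := by
    intro k
    by_contra hk
    push Not at hk
    have hax' := axis_of_gt ha hab hbc (hmk1 k) hk
    have := geo_axis_comp (a₁ := 1 / a) (a₂ := 1 / b) (a₃ := 1 / c) (hmk1 k).1.1 hax'
      (gdist a b c 1 (p k))
    rw [hmk2 k] at this
    exact hp3 k this
  have hptend : Tendsto p atTop (𝓝 q0) := by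
    rw [tendsto_iff_norm_sub_tendsto_zero]
    refine squeeze_zero (fun k => norm_nonneg _) (fun k => (hp2 k).le) ?_
    exact tendsto_one_div_add_atTop_nhds_zero_nat
  obtain ⟨C, hC, hle⟩ := gdist_le_norm ha hb hc
  have hdtend : Tendsto (fun k => gdist a b c 1 (p k)) atTop (𝓝 S) := by
    rw [← hgS, tendsto_iff_norm_sub_tendsto_zero]
    have hb2 : ∀ k, ‖gdist a b c 1 (p k) - gdist a b c 1 q0‖ ≤ C * ‖p k - q0‖ := by
      intro k
      have t1 := gdist_triangle (a := a) (b := b) (c := c) 1 (p k) q0 norm_one (hp1 k) hq0n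
      have t2 := gdist_triangle (a := a) (b := b) (c := c) 1 q0 (p k) norm_one hq0n (hp1 k)
      have l1 := hle (p k) q0 (hp1 k) hq0n
      have l2 := hle q0 (p k) hq0n (hp1 k)
      rw [norm_sub_rev] at l2
      rw [Real.norm_eq_abs, abs_le]
      constructor <;> linarith
    refine squeeze_zero (fun k => norm_nonneg _) hb2 ?_
    have := (tendsto_iff_norm_sub_tendsto_zero.mp hptend).const_mul C
    rwa [mul_zero] at this
  obtain ⟨ms, hms, φ, hφ, hφt⟩ := (isCompact_Ell hax).tendsto_subseq (fun k => (hmk1 k).1)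
  have hpair : Tendsto (fun k => ((mk (φ k), gdist a b c 1 (p (φ k))) : ℍ[ℝ] × ℝ)) atTop
      (𝓝 (ms, S)) := hφt.prodMk_nhds (hdtend.comp hφ.tendsto_atTop)
  have hMs : Minl a b c ms S := by
    have := (minl_closed ha hb hc).mem_of_tendsto hpair
      (Eventually.of_forall fun k => hmk1 (φ k))
    exact this
  have hgeo_s : geo (1 / a) (1 / b) (1 / c) ms S = q0 := by
    have h1 := ((continuous_geo (a₁ := 1 / a) (a₂ := 1 / b) (a₃ := 1 / c)).tendsto (ms, S)).comp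
      hpair
    have h2 : Tendsto (fun k => p (φ k)) atTop (𝓝 (geo (1 / a) (1 / b) (1 / c) ms S)) := by
      refine h1.congr fun k => ?_
      exact hmk2 (φ k)
    exact tendsto_nhds_unique h2 (hptend.comp hφ.tendsto_atTop)
  have hmm : ms = m := minl_unique ha hb hc h hS0 hS2 hms hgeo_s
  have hTct : Tendsto (fun k => Tc (1 / a) (1 / b) (1 / c) (mk (φ k))) atTop
      (𝓝 (Tc (1 / a) (1 / b) (1 / c) ms)) := by
    have h1 := (Tc_cont ha hab hbc) ms hms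
    refine h1.tendsto.comp ?_
    rw [tendsto_nhdsWithin_iff]
    exact ⟨hφt, Eventually.of_forall fun k => (hmk1 (φ k)).1⟩
  have hfinal : S ≤ Tc (1 / a) (1 / b) (1 / c) ms :=
    le_of_tendsto_of_tendsto (hdtend.comp hφ.tendsto_atTop) hTct
      (Eventually.of_forall fun k => hple (φ k))
  rw [hmm] at hfinal
  linarith

end

end Pool.Agent.CutS3
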