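import Pool.Agent.CutS3.Defs

/-!
Module PATHA: identities of the algebraic family through a point.
-/

set_option autoImplicit false

namespace Pool.Agent.CutS3

open Set Quaternion

noncomputable section

section path
variable {a₁ a₂ a₃ s t r : ℝ} {q : ℍ[ℝ]}

theorem normSq_eq (q : ℍ[ℝ]) :
    ‖q‖ ^ 2 = q.re ^ 2 + q.imI ^ 2 + q.imJ ^ 2 + q.imK ^ 2 := by
  rw [sq, ← Quaternion.normSq_eq_norm_mul_self, Quaternion.normSq_def']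

private theorem hq' (hq : ‖q‖ = 1) : q.re ^ 2 + q.imI ^ 2 + q.imJ ^ 2 + q.imK ^ 2 = 1 := by
  rw [← normSq_eq, hq, one_pow]

theorem M2_eq (hq : ‖q‖ = 1) (s : ℝ) :
    M2 a₁ a₂ a₃ q s = M1 a₁ a₂ a₃ q s + (a₁ - a₂) * B3 a₂ a₃ q s := by
  simp only [M2, M1, B1, B3]
  linear_combination (a₁ - a₂) * (s - (a₂ - a₃) * q.re) * hq' hq
theorem M3_eq (hq : ‖q‖ = 1) (s : ℝ) :
    M3 a₁ a₂ a₃ q s = M1 a₁ a₂ a₃ q s + (a₁ - a₃) * s := by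
  simp only [M3, M1, B1, B3]
  linear_combination (a₁ - a₃) * s * hq' hq
theorem N1_eq (hq : ‖q‖ = 1) (s : ℝ) :
    N1 a₁ a₂ a₃ q s = M1 a₁ a₂ a₃ q s ^ 2 + ‖pP a₁ a₂ a₃ q s‖ ^ 2 := by
  have h : M1 a₁ a₂ a₃ q s ^ 2 + ‖pP a₁ a₂ a₃ q s‖ ^ 2 =
      (q.re ^ 2 + q.imI ^ 2 + q.imJ ^ 2 + q.imK ^ 2) * N1 a₁ a₂ a₃ q s := by
    rw [normSq_eq]
    simp only [M1, N1, pP, B1, B3]
    ring
  rw [h, hq' hq, one_mul]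
theorem N2_eq (hq : ‖q‖ = 1) (s : ℝ) :
    N2 a₁ a₂ a₃ q s = M2 a₁ a₂ a₃ q s ^ 2 + ‖pP a₁ a₂ a₃ q s‖ ^ 2 := by
  have h : M2 a₁ a₂ a₃ q s ^ 2 + ‖pP a₁ a₂ a₃ q s‖ ^ 2 =
      (q.re ^ 2 + q.imI ^ 2 + q.imJ ^ 2 + q.imK ^ 2) * N2 a₁ a₂ a₃ q s := by
    rw [normSq_eq]
    simp only [M2, N2, pP, B1, B3]
    ring
  rw [h, hq' hq, one_mul]
theorem N3_eq (hq : ‖q‖ = 1) (s : ℝ) :
    N3 a₁ a₂ a₃ q s = M3 a₁ a₂ a₃ q s ^ 2 + ‖pP a₁ a₂ a₃ q s‖ ^ 2 := by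
  have h : M3 a₁ a₂ a₃ q s ^ 2 + ‖pP a₁ a₂ a₃ q s‖ ^ 2 =
      (q.re ^ 2 + q.imI ^ 2 + q.imJ ^ 2 + q.imK ^ 2) * N3 a₁ a₂ a₃ q s := by
    rw [normSq_eq]
    simp only [M3, N3, pP, B1, B3]
    ring
  rw [h, hq' hq, one_mul]
theorem I1_eq (s : ℝ) : a₁ * ‖pP a₁ a₂ a₃ q s‖ ^ 2 - HH a₁ a₂ a₃ (pP a₁ a₂ a₃ q s)
    = E1 a₁ a₂ a₃ q s * F1 a₁ a₂ a₃ q s := by
  rw [normSq_eq]
  simp only [HH, E1, F1, pP, B1, B3]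
  ring
theorem I2_eq (s : ℝ) : HH a₁ a₂ a₃ (pP a₁ a₂ a₃ q s) - a₂ * ‖pP a₁ a₂ a₃ q s‖ ^ 2
    = E2 a₁ a₂ a₃ q s * F2 a₁ a₂ a₃ q s := by
  rw [normSq_eq]
  simp only [HH, E2, F2, pP, B1, B3]
  ring
theorem I3_eq (s : ℝ) : HH a₁ a₂ a₃ (pP a₁ a₂ a₃ q s) - a₃ * ‖pP a₁ a₂ a₃ q s‖ ^ 2
    = E3 a₁ a₂ a₃ q s * F3 a₁ a₂ a₃ q s := by
  rw [normSq_eq]
  simp only [HH, E3, F3, pP, B1, B3]
  ring
theorem J1_eq (s : ℝ) : E1 a₁ a₂ a₃ q s * N1 a₁ a₂ a₃ q s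
    - B1 a₁ a₂ q s ^ 2 * E2 a₁ a₂ a₃ q s * E3 a₁ a₂ a₃ q s
    = (a₁ - a₂) * (a₁ - a₃) * ‖pP a₁ a₂ a₃ q s‖ ^ 2 := by
  rw [normSq_eq]
  simp only [N1, E1, E2, E3, pP, B1, B3]
  ring
theorem J2_eq (s : ℝ) : s ^ 2 * E1 a₁ a₂ a₃ q s * E3 a₁ a₂ a₃ q s
    - E2 a₁ a₂ a₃ q s * N2 a₁ a₂ a₃ q s
    = (a₁ - a₂) * (a₂ - a₃) * ‖pP a₁ a₂ a₃ q s‖ ^ 2 := by
  rw [normSq_eq]
  simp only [N2, E1, E2, E3, pP, B1, B3]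
  ring
theorem J3_eq (s : ℝ) : E3 a₁ a₂ a₃ q s * N3 a₁ a₂ a₃ q s
    - B3 a₂ a₃ q s ^ 2 * E1 a₁ a₂ a₃ q s * E2 a₁ a₂ a₃ q s
    = (a₁ - a₃) * (a₂ - a₃) * ‖pP a₁ a₂ a₃ q s‖ ^ 2 := by
  rw [normSq_eq]
  simp only [N3, E1, E2, E3, pP, B1, B3]
  ring
theorem Y1a_eq (s : ℝ) : N1 a₁ a₂ a₃ q s - (a₁ - a₃) * F1 a₁ a₂ a₃ q s
    = E2 a₁ a₂ a₃ q s * B3 a₂ a₃ q s ^ 2 := by
  simp only [N1, F1, E2]
  ring
theorem Y1b_eq (s : ℝ) : N1 a₁ a₂ a₃ q s - (a₁ - a₂) * F1 a₁ a₂ a₃ q s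
    = E3 a₁ a₂ a₃ q s * s ^ 2 := by
  simp only [N1, F1, E3]
  ring
theorem Y2a_eq (s : ℝ) : N2 a₁ a₂ a₃ q s + (a₂ - a₃) * F2 a₁ a₂ a₃ q s
    = E1 a₁ a₂ a₃ q s * B3 a₂ a₃ q s ^ 2 := by
  simp only [N2, F2, E1]
  ring
theorem Y2b_eq (s : ℝ) : N2 a₁ a₂ a₃ q s - (a₁ - a₂) * F2 a₁ a₂ a₃ q s
    = E3 a₁ a₂ a₃ q s * B1 a₁ a₂ q s ^ 2 := by
  simp only [N2, F2, E3]
  ring
theorem Y3a_eq (s : ℝ) : N3 a₁ a₂ a₃ q s - (a₁ - a₃) * F3 a₁ a₂ a₃ q s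
    = E2 a₁ a₂ a₃ q s * B1 a₁ a₂ q s ^ 2 := by
  simp only [N3, F3, E2]
  ring
theorem Y3b_eq (s : ℝ) : N3 a₁ a₂ a₃ q s - (a₂ - a₃) * F3 a₁ a₂ a₃ q s
    = E1 a₁ a₂ a₃ q s * s ^ 2 := by
  simp only [N3, F3, E1]
  ring
theorem Y1_def' (s : ℝ) : Y1 a₁ a₂ a₃ q s
    = (a₁ - a₂) * (a₁ - a₃) * F1 a₁ a₂ a₃ q s / N1 a₁ a₂ a₃ q s := rfl
theorem Y2_def' (s : ℝ) : Y2 a₁ a₂ a₃ q s
    = (a₁ - a₂) * (a₂ - a₃) * F2 a₁ a₂ a₃ q s / N2 a₁ a₂ a₃ q s := rfl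
theorem Z3_def' (s : ℝ) : Z3 a₁ a₂ a₃ q s
    = (a₁ - a₃) * (a₂ - a₃) * F3 a₁ a₂ a₃ q s / N3 a₁ a₂ a₃ q s := rfl

/-- positivity, for `x₁, x₂, x₃ > 0`, `s > 0` -/
theorem SP_pos (hax : Ax a₁ a₂ a₃) (h1 : 0 < q.imI) (h2 : 0 < q.imJ) (h3 : 0 < q.imK)
    (hs : 0 < s) : 0 < ‖pP a₁ a₂ a₃ q s‖ ^ 2 ∧ 0 < N1 a₁ a₂ a₃ q s ∧ 0 < E1 a₁ a₂ a₃ q s ∧
      0 < E3 a₁ a₂ a₃ q s ∧ 0 < F1 a₁ a₂ a₃ q s ∧ 0 < F3 a₁ a₂ a₃ q s ∧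
      0 < N3 a₁ a₂ a₃ q s := by
  obtain ⟨hp, h23, h12⟩ := hax
  have hm2 : 0 < a₁ - a₂ := by linarith
  have hm3 : 0 < a₁ - a₃ := by linarith
  have hm23 : 0 < a₂ - a₃ := by linarith
  have hE1 : 0 < E1 a₁ a₂ a₃ q s := by
    unfold E1
    positivity
  have hE3 : 0 < E3 a₁ a₂ a₃ q s := by
    unfold E3
    positivity
  have hF1 : 0 < F1 a₁ a₂ a₃ q s := by
    unfold F1
    positivity
  have hF3 : 0 < F3 a₁ a₂ a₃ q s := by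
    unfold F3
    positivity
  refine ⟨?_, ?_, hE1, hE3, hF1, hF3, ?_⟩
  · have h4 := I1_eq (a₁ := a₁) (a₂ := a₂) (a₃ := a₃) (q := q) s
    have h5 : 0 ≤ HH a₁ a₂ a₃ (pP a₁ a₂ a₃ q s) := by
      have : 0 < a₁ := by linarith
      have : 0 < a₂ := by linarith
      unfold HH
      positivity
    have h6 : 0 < E1 a₁ a₂ a₃ q s * F1 a₁ a₂ a₃ q s := mul_pos hE1 hF1
    have h7 : 0 < a₁ * ‖pP a₁ a₂ a₃ q s‖ ^ 2 := by linarith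
    exact (mul_pos_iff_of_pos_left (by linarith : (0:ℝ) < a₁)).mp h7
  · unfold N1
    positivity
  · unfold N3
    positivity
theorem N2_pos (hax : Ax a₁ a₂ a₃) (hq : ‖q‖ = 1) (h1 : 0 < q.imI) (h2 : 0 < q.imJ)
    (h3 : 0 < q.imK) (hs : 0 < s) : 0 < N2 a₁ a₂ a₃ q s := by
  have h4 := (SP_pos hax h1 h2 h3 hs).1
  rw [N2_eq hq]
  positivity
theorem rb_mem (hax : Ax a₁ a₂ a₃) (h1 : 0 < q.imI) (h2 : 0 < q.imJ) (h3 : 0 < q.imK)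
    (hs : 0 < s) (he : 0 < E2 a₁ a₂ a₃ q s) : rb a₁ a₂ a₃ q s ∈ Ioo a₃ a₁ ∧
      (a₂ < rb a₁ a₂ a₃ q s ↔ 0 < F2 a₁ a₂ a₃ q s) ∧
      (rb a₁ a₂ a₃ q s < a₂ ↔ F2 a₁ a₂ a₃ q s < 0) := by
  obtain ⟨hSP, hN1, hE1, hE3, hF1, hF3, hN3⟩ := SP_pos hax h1 h2 h3 hs
  have hI1 := I1_eq (a₁ := a₁) (a₂ := a₂) (a₃ := a₃) (q := q) s
  have hI2 := I2_eq (a₁ := a₁) (a₂ := a₂) (a₃ := a₃) (q := q) s
  have hI3 := I3_eq (a₁ := a₁) (a₂ := a₂) (a₃ := a₃) (q := q) s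
  have h4 := mul_pos hE1 hF1
  have h5 := mul_pos hE3 hF3
  unfold rb
  refine ⟨⟨?_, ?_⟩, ?_, ?_⟩
  · rw [lt_div_iff₀ hSP]
    linarith
  · rw [div_lt_iff₀ hSP]
    linarith
  · rw [lt_div_iff₀ hSP]
    constructor
    · intro h
      have h6 : 0 < E2 a₁ a₂ a₃ q s * F2 a₁ a₂ a₃ q s := by linarith
      exact (mul_pos_iff_of_pos_left he).mp h6
    · intro h
      have h6 := mul_pos he h
      linarith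
  · rw [div_lt_iff₀ hSP]
    constructor
    · intro h
      have h6 : E2 a₁ a₂ a₃ q s * F2 a₁ a₂ a₃ q s < 0 := by linarith
      by_contra hc
      push Not at hc
      have := mul_nonneg he.le hc
      linarith
    · intro h
      have h6 := mul_neg_of_pos_of_neg he h
      linarith
theorem Y_mem (hax : Ax a₁ a₂ a₃) (hq : ‖q‖ = 1) (h1 : 0 < q.imI) (h2 : 0 < q.imJ)
    (h3 : 0 < q.imK) (hs : 0 < s) (he : 0 < E2 a₁ a₂ a₃ q s) :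
    0 < Y1 a₁ a₂ a₃ q s ∧ Y1 a₁ a₂ a₃ q s ≤ a₁ - a₂ ∧
    (B3 a₂ a₃ q s ≠ 0 → Y1 a₁ a₂ a₃ q s < a₁ - a₂) ∧
    0 < Z3 a₁ a₂ a₃ q s ∧ Z3 a₁ a₂ a₃ q s ≤ a₂ - a₃ ∧
    (B1 a₁ a₂ q s ≠ 0 → Z3 a₁ a₂ a₃ q s < a₂ - a₃) ∧
    -(a₁ - a₂) ≤ Y2 a₁ a₂ a₃ q s ∧ Y2 a₁ a₂ a₃ q s ≤ a₂ - a₃ ∧
    (B3 a₂ a₃ q s ≠ 0 → -(a₁ - a₂) < Y2 a₁ a₂ a₃ q s) := by
  obtain ⟨hSP, hN1, hE1, hE3, hF1, hF3, hN3⟩ := SP_pos hax h1 h2 h3 hs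
  have hN2 := N2_pos hax hq h1 h2 h3 hs
  have hm2 : 0 < a₁ - a₂ := by linarith [hax.h12]
  have hm3 : 0 < a₁ - a₃ := by linarith [hax.h12, hax.h23]
  have hm23 : 0 < a₂ - a₃ := by linarith [hax.h23]
  have e1 : (a₁ - a₂) - Y1 a₁ a₂ a₃ q s =
      (a₁ - a₂) * (E2 a₁ a₂ a₃ q s * B3 a₂ a₃ q s ^ 2) / N1 a₁ a₂ a₃ q s := by
    rw [Y1_def', ← Y1a_eq]
    field_simp
  have e2 : (a₂ - a₃) - Z3 a₁ a₂ a₃ q s =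
      (a₂ - a₃) * (E2 a₁ a₂ a₃ q s * B1 a₁ a₂ q s ^ 2) / N3 a₁ a₂ a₃ q s := by
    rw [Z3_def', ← Y3a_eq]
    field_simp
  have e3 : Y2 a₁ a₂ a₃ q s + (a₁ - a₂) =
      (a₁ - a₂) * (E1 a₁ a₂ a₃ q s * B3 a₂ a₃ q s ^ 2) / N2 a₁ a₂ a₃ q s := by
    rw [Y2_def', ← Y2a_eq]
    field_simp
    ring
  have e4 : (a₂ - a₃) - Y2 a₁ a₂ a₃ q s =
      (a₂ - a₃) * (E3 a₁ a₂ a₃ q s * B1 a₁ a₂ q s ^ 2) / N2 a₁ a₂ a₃ q s := by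
    rw [Y2_def', ← Y2b_eq]
    field_simp
  refine ⟨?_, ?_, ?_, ?_, ?_, ?_, ?_, ?_, ?_⟩
  · rw [Y1_def']
    positivity
  · have : 0 ≤ (a₁ - a₂) - Y1 a₁ a₂ a₃ q s := by
      rw [e1]
      positivity
    linarith
  · intro h
    have : 0 < (a₁ - a₂) - Y1 a₁ a₂ a₃ q s := by
      rw [e1]
      positivity
    linarith
  · rw [Z3_def']
    positivity
  · have : 0 ≤ (a₂ - a₃) - Z3 a₁ a₂ a₃ q s := by
      rw [e2]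
      positivity
    linarith
  · intro h
    have : 0 < (a₂ - a₃) - Z3 a₁ a₂ a₃ q s := by
      rw [e2]
      positivity
    linarith
  · have : 0 ≤ Y2 a₁ a₂ a₃ q s + (a₁ - a₂) := by
      rw [e3]
      positivity
    linarith
  · have : 0 ≤ (a₂ - a₃) - Y2 a₁ a₂ a₃ q s := by
      rw [e4]
      positivity
    linarith
  · intro h
    have : 0 < Y2 a₁ a₂ a₃ q s + (a₁ - a₂) := by
      rw [e3]
      positivity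
    linarith

private theorem div_sqrt_mem {M N S : ℝ} (hN : N = M ^ 2 + S) (hS : 0 < S) :
    M / Real.sqrt N ∈ Ioo (-1 : ℝ) 1 := by
  have hN0 : 0 < N := by
    rw [hN]
    positivity
  have h1 : |M| < Real.sqrt N := by
    rw [← Real.sqrt_sq_eq_abs]
    apply Real.sqrt_lt_sqrt (sq_nonneg _)
    linarith
  have h2 := abs_lt.mp h1
  have h3 : 0 < Real.sqrt N := Real.sqrt_pos.mpr hN0
  constructor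
  · rw [lt_div_iff₀ h3]
    linarith
  · rw [div_lt_iff₀ h3]
    linarith

theorem c_mem (hax : Ax a₁ a₂ a₃) (hq : ‖q‖ = 1) (h1 : 0 < q.imI) (h2 : 0 < q.imJ)
    (h3 : 0 < q.imK) (hs : 0 < s) :
    c1 a₁ a₂ a₃ q s ∈ Ioo (-1) 1 ∧ c2 a₁ a₂ a₃ q s ∈ Ioo (-1) 1 ∧
    c3 a₁ a₂ a₃ q s ∈ Ioo (-1) 1 := by
  have hS := (SP_pos hax h1 h2 h3 hs).1
  exact ⟨div_sqrt_mem (N1_eq hq s) hS, div_sqrt_mem (N2_eq hq s) hS,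
    div_sqrt_mem (N3_eq hq s) hS⟩

/-- the special values -/
theorem at_B1_zero (hax : Ax a₁ a₂ a₃) (hq : ‖q‖ = 1) (h1 : 0 < q.imI) (h2 : 0 < q.imJ)
    (h3 : 0 < q.imK) (hs : 0 < s) (h : B1 a₁ a₂ q s = 0) :
    c2 a₁ a₂ a₃ q s = q.imI ∧ c3 a₁ a₂ a₃ q s = q.imI := by
  have _ := hq
  have _ := h2
  have _ := h3
  have hm2 : 0 < a₁ - a₂ := by linarith [hax.h12]
  have hm3 : 0 < a₁ - a₃ := by linarith [hax.h12, hax.h23]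
  have hm23 : 0 < a₂ - a₃ := by linarith [hax.h23]
  have hx0 : q.re < 0 := by
    unfold B1 at h
    by_contra hc
    push Not at hc
    nlinarith
  have hB3 : 0 < B3 a₂ a₃ q s := by
    unfold B3
    nlinarith
  constructor
  · have e1 : M2 a₁ a₂ a₃ q s = (a₁ - a₂) * q.imI ^ 2 * B3 a₂ a₃ q s := by
      unfold M2
      rw [h]
      ring
    have e2 : N2 a₁ a₂ a₃ q s = ((a₁ - a₂) * q.imI * B3 a₂ a₃ q s) ^ 2 := by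
      unfold N2
      rw [h]
      ring
    unfold c2
    rw [e1, e2, Real.sqrt_sq (by positivity)]
    field_simp
  · have e1 : M3 a₁ a₂ a₃ q s = (a₁ - a₃) * q.imI ^ 2 * s := by
      unfold M3
      rw [h]
      ring
    have e2 : N3 a₁ a₂ a₃ q s = ((a₁ - a₃) * q.imI * s) ^ 2 := by
      unfold N3
      rw [h]
      ring
    unfold c3
    rw [e1, e2, Real.sqrt_sq (by positivity)]
    field_simp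
theorem at_B3_zero (hax : Ax a₁ a₂ a₃) (hq : ‖q‖ = 1) (h1 : 0 < q.imI) (h2 : 0 < q.imJ)
    (h3 : 0 < q.imK) (hs : 0 < s) (h : B3 a₂ a₃ q s = 0) :
    c1 a₁ a₂ a₃ q s = -q.imK ∧ c2 a₁ a₂ a₃ q s = -q.imK ∧
    Real.arccos (c3 a₁ a₂ a₃ q s) = Real.arccos (c2 a₁ a₂ a₃ q s) - Real.pi / 2 ∧
    Y1 a₁ a₂ a₃ q s = a₁ - a₂ ∧ Y2 a₁ a₂ a₃ q s = -(a₁ - a₂) := by
  have _ := h1
  have _ := h2
  have hm2 : 0 < a₁ - a₂ := by linarith [hax.h12]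
  have hm3 : 0 < a₁ - a₃ := by linarith [hax.h12, hax.h23]
  have hm23 : 0 < a₂ - a₃ := by linarith [hax.h23]
  have hs' : s = (a₂ - a₃) * q.re := by
    unfold B3 at h
    linarith
  have hx0 : 0 < q.re := by
    rw [hs'] at hs
    exact (mul_pos_iff_of_pos_left hm23).mp hs
  have hB1' : B1 a₁ a₂ q s = (a₁ - a₃) * q.re := by
    unfold B1
    rw [hs']
    ring
  have hB1 : 0 < B1 a₁ a₂ q s := by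
    rw [hB1']
    positivity
  have hc1 : c1 a₁ a₂ a₃ q s = -q.imK := by
    have e1 : M1 a₁ a₂ a₃ q s = -((a₁ - a₃) * q.imK ^ 2 * s) := by
      unfold M1
      rw [h]
      ring
    have e2 : N1 a₁ a₂ a₃ q s = ((a₁ - a₃) * q.imK * s) ^ 2 := by
      unfold N1
      rw [h]
      ring
    unfold c1
    rw [e1, e2, Real.sqrt_sq (by positivity)]
    field_simp
  have hc2 : c2 a₁ a₂ a₃ q s = -q.imK := by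
    have e1 : M2 a₁ a₂ a₃ q s = -((a₂ - a₃) * q.imK ^ 2 * B1 a₁ a₂ q s) := by
      unfold M2
      rw [h]
      ring
    have e2 : N2 a₁ a₂ a₃ q s = ((a₂ - a₃) * q.imK * B1 a₁ a₂ q s) ^ 2 := by
      unfold N2
      rw [h]
      ring
    unfold c2
    rw [e1, e2, Real.sqrt_sq (by positivity)]
    field_simp
  have hlt : 0 < 1 - q.imK ^ 2 := by
    have := hq' hq
    nlinarith [pow_pos hx0 2, sq_nonneg q.imI, sq_nonneg q.imJ]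
  have hc3 : c3 a₁ a₂ a₃ q s = Real.sqrt (1 - q.imK ^ 2) := by
    have e1 : M3 a₁ a₂ a₃ q s = (a₁ - a₃) * (a₂ - a₃) * q.re * (1 - q.imK ^ 2) := by
      unfold M3
      rw [hB1', hs']
      linear_combination ((a₁ - a₃) * (a₂ - a₃) * q.re) * hq' hq
    have e2 : N3 a₁ a₂ a₃ q s = ((a₁ - a₃) * (a₂ - a₃) * q.re) ^ 2 * (1 - q.imK ^ 2) := by
      unfold N3
      rw [hB1', hs']
      linear_combination (((a₁ - a₃) * (a₂ - a₃) * q.re) ^ 2) * hq' hq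
    unfold c3
    rw [e1, e2, Real.sqrt_mul (by positivity), Real.sqrt_sq (by positivity)]
    have h4 : Real.sqrt (1 - q.imK ^ 2) ≠ 0 := (Real.sqrt_pos.mpr hlt).ne'
    have h5 : (1 - q.imK ^ 2) = Real.sqrt (1 - q.imK ^ 2) * Real.sqrt (1 - q.imK ^ 2) :=
      (Real.mul_self_sqrt hlt.le).symm
    have h6 : (a₁ - a₃) * (a₂ - a₃) * q.re ≠ 0 := by positivity
    rw [div_eq_iff (mul_ne_zero h6 h4)]
    linear_combination ((a₁ - a₃) * (a₂ - a₃) * q.re) * h5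
  refine ⟨hc1, hc2, ?_, ?_, ?_⟩
  · rw [hc3, hc2, ← Real.arcsin_eq_arccos h3.le, Real.arccos_neg, Real.arccos_eq_pi_div_two_sub_arcsin]
    ring
  · have hN1 := (SP_pos hax h1 h2 h3 hs).2.1
    have e1 := Y1a_eq (a₁ := a₁) (a₂ := a₂) (a₃ := a₃) (q := q) s
    rw [h] at e1
    rw [Y1_def', div_eq_iff hN1.ne']
    linear_combination (-(a₁ - a₂)) * e1
  · have hN2 := N2_pos hax hq h1 h2 h3 hs
    have e1 := Y2a_eq (a₁ := a₁) (a₂ := a₂) (a₃ := a₃) (q := q) s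
    rw [h] at e1
    rw [Y2_def', div_eq_iff hN2.ne']
    linear_combination (a₁ - a₂) * e1

end path

end

end Pool.Agent.CutS3
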