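import Pool.Agent.CutS3.PathA

/-!
Module PATHB: derivatives and monotonicity along the algebraic family.
-/

set_option autoImplicit false

namespace Pool.Agent.CutS3

open Set Quaternion

noncomputable section

section path
variable {a₁ a₂ a₃ s t r : ℝ} {q : ℍ[ℝ]}

namespace PathBAux

/-! ### derivatives of the polynomials -/

theorem dB1 (s : ℝ) : HasDerivAt (B1 a₁ a₂ q) 1 s :=
  (hasDerivAt_id s).add_const _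

theorem dB3 (s : ℝ) : HasDerivAt (B3 a₂ a₃ q) 1 s :=
  (hasDerivAt_id s).sub_const _

def dN1 (a₁ a₂ a₃ : ℝ) (q : ℍ[ℝ]) (s : ℝ) : ℝ :=
  2 * s * B3 a₂ a₃ q s ^ 2 + 2 * s ^ 2 * B3 a₂ a₃ q s
    + 2 * (a₁ - a₂) ^ 2 * q.imJ ^ 2 * B3 a₂ a₃ q s + 2 * (a₁ - a₃) ^ 2 * q.imK ^ 2 * s
def dN2 (a₁ a₂ a₃ : ℝ) (q : ℍ[ℝ]) (s : ℝ) : ℝ :=
  2 * B1 a₁ a₂ q s * B3 a₂ a₃ q s ^ 2 + 2 * B1 a₁ a₂ q s ^ 2 * B3 a₂ a₃ q s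
    + 2 * (a₁ - a₂) ^ 2 * q.imI ^ 2 * B3 a₂ a₃ q s
    + 2 * (a₂ - a₃) ^ 2 * q.imK ^ 2 * B1 a₁ a₂ q s
def dN3 (a₁ a₂ a₃ : ℝ) (q : ℍ[ℝ]) (s : ℝ) : ℝ :=
  2 * B1 a₁ a₂ q s * s ^ 2 + 2 * B1 a₁ a₂ q s ^ 2 * s
    + 2 * (a₁ - a₃) ^ 2 * q.imI ^ 2 * s
    + 2 * (a₂ - a₃) ^ 2 * q.imJ ^ 2 * B1 a₁ a₂ q s

def dM1 (a₁ a₂ a₃ : ℝ) (q : ℍ[ℝ]) (s : ℝ) : ℝ :=
  q.re * (B3 a₂ a₃ q s + s) - (a₁ - a₂) * q.imJ ^ 2 - (a₁ - a₃) * q.imK ^ 2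
def dM2 (a₁ a₂ a₃ : ℝ) (q : ℍ[ℝ]) (s : ℝ) : ℝ :=
  q.re * (B3 a₂ a₃ q s + B1 a₁ a₂ q s) + (a₁ - a₂) * q.imI ^ 2 - (a₂ - a₃) * q.imK ^ 2
def dM3 (a₁ a₂ a₃ : ℝ) (q : ℍ[ℝ]) (s : ℝ) : ℝ :=
  q.re * (B1 a₁ a₂ q s + s) + (a₁ - a₃) * q.imI ^ 2 + (a₂ - a₃) * q.imJ ^ 2

def dF1 (a₁ a₂ a₃ : ℝ) (q : ℍ[ℝ]) (s : ℝ) : ℝ :=
  2 * (a₁ - a₂) * q.imJ ^ 2 * B3 a₂ a₃ q s + 2 * (a₁ - a₃) * q.imK ^ 2 * s
def dF2 (a₁ a₂ a₃ : ℝ) (q : ℍ[ℝ]) (s : ℝ) : ℝ :=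
  2 * (a₁ - a₂) * q.imI ^ 2 * B3 a₂ a₃ q s - 2 * (a₂ - a₃) * q.imK ^ 2 * B1 a₁ a₂ q s
def dF3 (a₁ a₂ a₃ : ℝ) (q : ℍ[ℝ]) (s : ℝ) : ℝ :=
  2 * (a₁ - a₃) * q.imI ^ 2 * s + 2 * (a₂ - a₃) * q.imJ ^ 2 * B1 a₁ a₂ q s

theorem hasN1 (s : ℝ) : HasDerivAt (N1 a₁ a₂ a₃ q) (dN1 a₁ a₂ a₃ q s) s := by
  have h0 := hasDerivAt_id s
  have h3 := dB3 (a₂ := a₂) (a₃ := a₃) (q := q) s
  have h := (((h0.pow 2).mul (h3.pow 2)).add ((h3.pow 2).const_mul ((a₁ - a₂) ^ 2 * q.imJ ^ 2))).add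
    ((h0.pow 2).const_mul ((a₁ - a₃) ^ 2 * q.imK ^ 2))
  refine HasDerivAt.congr_deriv h ?_
  simp [dN1]
  ring
theorem hasN2 (s : ℝ) : HasDerivAt (N2 a₁ a₂ a₃ q) (dN2 a₁ a₂ a₃ q s) s := by
  have h1 := dB1 (a₁ := a₁) (a₂ := a₂) (q := q) s
  have h3 := dB3 (a₂ := a₂) (a₃ := a₃) (q := q) s
  have h := (((h1.pow 2).mul (h3.pow 2)).add ((h3.pow 2).const_mul ((a₁ - a₂) ^ 2 * q.imI ^ 2))).add
    ((h1.pow 2).const_mul ((a₂ - a₃) ^ 2 * q.imK ^ 2))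
  refine HasDerivAt.congr_deriv h ?_
  simp [dN2]
  ring
theorem hasN3 (s : ℝ) : HasDerivAt (N3 a₁ a₂ a₃ q) (dN3 a₁ a₂ a₃ q s) s := by
  have h0 := hasDerivAt_id s
  have h1 := dB1 (a₁ := a₁) (a₂ := a₂) (q := q) s
  have h := (((h1.pow 2).mul (h0.pow 2)).add ((h0.pow 2).const_mul ((a₁ - a₃) ^ 2 * q.imI ^ 2))).add
    ((h1.pow 2).const_mul ((a₂ - a₃) ^ 2 * q.imJ ^ 2))
  refine HasDerivAt.congr_deriv h ?_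
  simp [dN3]
  ring
theorem hasM1 (s : ℝ) : HasDerivAt (M1 a₁ a₂ a₃ q) (dM1 a₁ a₂ a₃ q s) s := by
  have h0 := hasDerivAt_id s
  have h3 := dB3 (a₂ := a₂) (a₃ := a₃) (q := q) s
  have h := (((h0.const_mul q.re).mul h3).sub (h3.const_mul ((a₁ - a₂) * q.imJ ^ 2))).sub
    (h0.const_mul ((a₁ - a₃) * q.imK ^ 2))
  refine HasDerivAt.congr_deriv h ?_
  simp [dM1]
  ring
theorem hasM2 (s : ℝ) : HasDerivAt (M2 a₁ a₂ a₃ q) (dM2 a₁ a₂ a₃ q s) s := by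
  have h1 := dB1 (a₁ := a₁) (a₂ := a₂) (q := q) s
  have h3 := dB3 (a₂ := a₂) (a₃ := a₃) (q := q) s
  have h := (((h1.const_mul q.re).mul h3).add (h3.const_mul ((a₁ - a₂) * q.imI ^ 2))).sub
    (h1.const_mul ((a₂ - a₃) * q.imK ^ 2))
  refine HasDerivAt.congr_deriv h ?_
  simp [dM2]
  ring
theorem hasM3 (s : ℝ) : HasDerivAt (M3 a₁ a₂ a₃ q) (dM3 a₁ a₂ a₃ q s) s := by
  have h0 := hasDerivAt_id s
  have h1 := dB1 (a₁ := a₁) (a₂ := a₂) (q := q) s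
  have h := (((h1.const_mul q.re).mul h0).add (h0.const_mul ((a₁ - a₃) * q.imI ^ 2))).add
    (h1.const_mul ((a₂ - a₃) * q.imJ ^ 2))
  refine HasDerivAt.congr_deriv h ?_
  simp [dM3]
  ring
theorem hasF1 (s : ℝ) : HasDerivAt (F1 a₁ a₂ a₃ q) (dF1 a₁ a₂ a₃ q s) s := by
  have h0 := hasDerivAt_id s
  have h3 := dB3 (a₂ := a₂) (a₃ := a₃) (q := q) s
  have h := ((h3.pow 2).const_mul ((a₁ - a₂) * q.imJ ^ 2)).add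
    ((h0.pow 2).const_mul ((a₁ - a₃) * q.imK ^ 2))
  refine HasDerivAt.congr_deriv h ?_
  simp [dF1]
  ring
theorem hasF2 (s : ℝ) : HasDerivAt (F2 a₁ a₂ a₃ q) (dF2 a₁ a₂ a₃ q s) s := by
  have h1 := dB1 (a₁ := a₁) (a₂ := a₂) (q := q) s
  have h3 := dB3 (a₂ := a₂) (a₃ := a₃) (q := q) s
  have h := ((h3.pow 2).const_mul ((a₁ - a₂) * q.imI ^ 2)).sub
    ((h1.pow 2).const_mul ((a₂ - a₃) * q.imK ^ 2))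
  refine HasDerivAt.congr_deriv h ?_
  simp [dF2]
  ring
theorem hasF3 (s : ℝ) : HasDerivAt (F3 a₁ a₂ a₃ q) (dF3 a₁ a₂ a₃ q s) s := by
  have h0 := hasDerivAt_id s
  have h1 := dB1 (a₁ := a₁) (a₂ := a₂) (q := q) s
  have h := ((h0.pow 2).const_mul ((a₁ - a₃) * q.imI ^ 2)).add
    ((h1.pow 2).const_mul ((a₂ - a₃) * q.imJ ^ 2))
  refine HasDerivAt.congr_deriv h ?_
  simp [dF3]
  ring

/-! ### Wronskian identities -/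

theorem wM1 (s : ℝ) : dM1 a₁ a₂ a₃ q s * N1 a₁ a₂ a₃ q s - M1 a₁ a₂ a₃ q s * dN1 a₁ a₂ a₃ q s / 2
    = B1 a₁ a₂ q s * K1 a₁ a₂ a₃ q s := by
  simp only [dM1, M1, dN1, N1, K1, E2, E3, B1, B3]
  ring
theorem wM2 (s : ℝ) : dM2 a₁ a₂ a₃ q s * N2 a₁ a₂ a₃ q s - M2 a₁ a₂ a₃ q s * dN2 a₁ a₂ a₃ q s / 2
    = s * K2 a₁ a₂ a₃ q s := by
  simp only [dM2, M2, dN2, N2, K2, E1, E3, B1, B3]
  ring
theorem wM3 (s : ℝ) : dM3 a₁ a₂ a₃ q s * N3 a₁ a₂ a₃ q s - M3 a₁ a₂ a₃ q s * dN3 a₁ a₂ a₃ q s / 2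
    = -(B3 a₂ a₃ q s * K3 a₁ a₂ a₃ q s) := by
  simp only [dM3, M3, dN3, N3, K3, E1, E2, B1, B3]
  ring
theorem wF1 (s : ℝ) : dF1 a₁ a₂ a₃ q s * N1 a₁ a₂ a₃ q s - F1 a₁ a₂ a₃ q s * dN1 a₁ a₂ a₃ q s
    = -2 * K1 a₁ a₂ a₃ q s * s * B3 a₂ a₃ q s := by
  simp only [dF1, F1, dN1, N1, K1, E2, E3]
  ring
theorem wF2 (s : ℝ) : dF2 a₁ a₂ a₃ q s * N2 a₁ a₂ a₃ q s - F2 a₁ a₂ a₃ q s * dN2 a₁ a₂ a₃ q s
    = 2 * K2 a₁ a₂ a₃ q s * B1 a₁ a₂ q s * B3 a₂ a₃ q s := by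
  simp only [dF2, F2, dN2, N2, K2, E1, E3]
  ring
theorem wF3 (s : ℝ) : dF3 a₁ a₂ a₃ q s * N3 a₁ a₂ a₃ q s - F3 a₁ a₂ a₃ q s * dN3 a₁ a₂ a₃ q s
    = -2 * K3 a₁ a₂ a₃ q s * B1 a₁ a₂ q s * s := by
  simp only [dF3, F3, dN3, N3, K3, E1, E2]
  ring

/-- derivative of `M / √N` -/
theorem deriv_div_sqrt {M N : ℝ → ℝ} {M' N' s : ℝ} (hM : HasDerivAt M M' s)
    (hN : HasDerivAt N N' s) (h0 : 0 < N s) :
    HasDerivAt (fun x => M x / Real.sqrt (N x))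
      ((M' * N s - M s * N' / 2) / (N s * Real.sqrt (N s))) s := by
  have hs := Real.sqrt_pos.mpr h0
  have h1 := hM.div (hN.sqrt h0.ne') hs.ne'
  refine HasDerivAt.congr_deriv h1 ?_
  have h2 : Real.sqrt (N s) ^ 2 = N s := Real.sq_sqrt h0.le
  have h3 : N s * Real.sqrt (N s) ≠ 0 := by positivity
  rw [h2]
  rw [div_eq_div_iff h0.ne' h3]
  field_simp
  rw [h2]
  ring

/-! ### the pure parts -/

theorem dSP (s : ℝ) : ∃ S' H' : ℝ,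
    HasDerivAt (fun x => ‖pP a₁ a₂ a₃ q x‖ ^ 2) S' s ∧
    HasDerivAt (fun x => HH a₁ a₂ a₃ (pP a₁ a₂ a₃ q x)) H' s ∧
    H' * ‖pP a₁ a₂ a₃ q s‖ ^ 2 - HH a₁ a₂ a₃ (pP a₁ a₂ a₃ q s) * S' =
      2 * (s * q.imJ ^ 2 * F2 a₁ a₂ a₃ q s * E1 a₁ a₂ a₃ q s * E3 a₁ a₂ a₃ q s
        - B1 a₁ a₂ q s * q.imI ^ 2 * F1 a₁ a₂ a₃ q s * E2 a₁ a₂ a₃ q s * E3 a₁ a₂ a₃ q s
        + B3 a₂ a₃ q s * q.imK ^ 2 * F3 a₁ a₂ a₃ q s * E1 a₁ a₂ a₃ q s * E2 a₁ a₂ a₃ q s) := by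
  have h0 := hasDerivAt_id s
  have h1 := dB1 (a₁ := a₁) (a₂ := a₂) (q := q) s
  have h3 := dB3 (a₂ := a₂) (a₃ := a₃) (q := q) s
  have hp1 := ((h0.const_mul q.imI).mul h3).sub (h1.const_mul ((a₂ - a₃) * q.imJ * q.imK))
  have hp2 := ((h1.const_mul q.imJ).mul h3).add (h0.const_mul ((a₁ - a₃) * q.imI * q.imK))
  have hp3 := ((h1.const_mul q.imK).mul h0).sub (h3.const_mul ((a₁ - a₂) * q.imI * q.imJ))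
  have hS := ((hp1.pow 2).add (hp2.pow 2)).add (hp3.pow 2)
  have hH := (((hp1.pow 2).const_mul a₁).add ((hp2.pow 2).const_mul a₂)).add
    ((hp3.pow 2).const_mul a₃)
  refine ⟨_, _, hS.congr_of_eventuallyEq ?_, hH.congr_of_eventuallyEq ?_, ?_⟩
  · filter_upwards with x
    rw [normSq_eq]
    simp [pP]
  · filter_upwards with x
    simp [HH, pP]
  · rw [normSq_eq]
    obtain ⟨m2, rfl⟩ : ∃ m2, a₁ = a₂ + m2 := ⟨a₁ - a₂, by ring⟩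
    obtain ⟨m3, rfl⟩ : ∃ m3, a₂ = a₃ + m3 := ⟨a₂ - a₃, by ring⟩
    simp only [HH, pP, Pi.mul_apply, Pi.sub_apply, Pi.add_apply, id]
    simp only [F1, F2, F3, E1, E2, E3, B1, B3]
    have e1 : a₃ + m3 + m2 - (a₃ + m3) = m2 := by ring
    have e2 : a₃ + m3 + m2 - a₃ = m3 + m2 := by ring
    have e3 : a₃ + m3 - a₃ = m3 := by ring
    rw [e1, e2, e3]
    push_cast
    ring

/-! ### signs -/

theorem E2_mono (hs : 0 < s) (hst : s ≤ t) (he : 0 < E2 a₁ a₂ a₃ q s) :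
    0 < E2 a₁ a₂ a₃ q t := by
  unfold E2 at *
  nlinarith

theorem K1_pos (hax : Ax a₁ a₂ a₃) (h1 : 0 < q.imI) (h2 : 0 < q.imJ) (h3 : 0 < q.imK)
    (hs : 0 < s) (he : 0 < E2 a₁ a₂ a₃ q s) (hB3 : 0 ≤ B3 a₂ a₃ q s) :
    0 < K1 a₁ a₂ a₃ q s := by
  obtain ⟨hSP, hN1, hE1, hE3, hF1, hF3, hN3⟩ := SP_pos hax h1 h2 h3 hs
  have hm2 : 0 < a₁ - a₂ := by linarith [hax.h12]
  have hm3 : 0 < a₁ - a₃ := by linarith [hax.h12, hax.h23]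
  unfold K1
  positivity

theorem K3_pos (hax : Ax a₁ a₂ a₃) (h1 : 0 < q.imI) (h2 : 0 < q.imJ) (h3 : 0 < q.imK)
    (hs : 0 < s) (he : 0 < E2 a₁ a₂ a₃ q s) (hB1 : 0 ≤ B1 a₁ a₂ q s) :
    0 < K3 a₁ a₂ a₃ q s := by
  obtain ⟨hSP, hN1, hE1, hE3, hF1, hF3, hN3⟩ := SP_pos hax h1 h2 h3 hs
  have hm23 : 0 < a₂ - a₃ := by linarith [hax.h23]
  have hm3 : 0 < a₁ - a₃ := by linarith [hax.h12, hax.h23]
  unfold K3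
  positivity

theorem K2_neg (hax : Ax a₁ a₂ a₃) (h1 : 0 < q.imI) (h2 : 0 < q.imJ) (h3 : 0 < q.imK)
    (hs : 0 < s) (hB1 : B1 a₁ a₂ q s ≤ 0) (hB3 : 0 < B3 a₂ a₃ q s) :
    K2 a₁ a₂ a₃ q s < 0 := by
  obtain ⟨hSP, hN1, hE1, hE3, hF1, hF3, hN3⟩ := SP_pos hax h1 h2 h3 hs
  have hm23 : 0 < a₂ - a₃ := by linarith [hax.h23]
  have hm2 : 0 < a₁ - a₂ := by linarith [hax.h12]
  have e1 : 0 < (a₁ - a₂) * q.imI ^ 2 * B3 a₂ a₃ q s * E3 a₁ a₂ a₃ q s := by positivity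
  have e2 : 0 ≤ (a₂ - a₃) * q.imK ^ 2 * (-B1 a₁ a₂ q s) * E1 a₁ a₂ a₃ q s := by
    have : 0 ≤ -B1 a₁ a₂ q s := by linarith
    positivity
  unfold K2
  linarith

theorem K2_pos (hax : Ax a₁ a₂ a₃) (h1 : 0 < q.imI) (h2 : 0 < q.imJ) (h3 : 0 < q.imK)
    (hs : 0 < s) (hB1 : 0 < B1 a₁ a₂ q s) (hB3 : B3 a₂ a₃ q s ≤ 0) :
    0 < K2 a₁ a₂ a₃ q s := by
  obtain ⟨hSP, hN1, hE1, hE3, hF1, hF3, hN3⟩ := SP_pos hax h1 h2 h3 hs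
  have hm23 : 0 < a₂ - a₃ := by linarith [hax.h23]
  have hm2 : 0 < a₁ - a₂ := by linarith [hax.h12]
  have e1 : 0 ≤ (a₁ - a₂) * q.imI ^ 2 * (-B3 a₂ a₃ q s) * E3 a₁ a₂ a₃ q s := by
    have : 0 ≤ -B3 a₂ a₃ q s := by linarith
    positivity
  have e2 : 0 < (a₂ - a₃) * q.imK ^ 2 * (B1 a₁ a₂ q s) * E1 a₁ a₂ a₃ q s := by
    positivity
  unfold K2
  linarith

/-- if `B1 ≤ 0` at a positive parameter then `x₀ < 0` -/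
theorem re_neg (hax : Ax a₁ a₂ a₃) (hs : 0 < s) (hB1 : B1 a₁ a₂ q s ≤ 0) : q.re < 0 := by
  have hm2 : 0 < a₁ - a₂ := by linarith [hax.h12]
  unfold B1 at hB1
  by_contra hc
  push Not at hc
  nlinarith

theorem re_pos (hax : Ax a₁ a₂ a₃) (hs : 0 < s) (hB3 : B3 a₂ a₃ q s ≤ 0) : 0 < q.re := by
  have hm23 : 0 < a₂ - a₃ := by linarith [hax.h23]
  unfold B3 at hB3
  by_contra hc
  push Not at hc
  nlinarith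

theorem B3_of_re_neg (hax : Ax a₁ a₂ a₃) (hs : 0 < s) (h : q.re < 0) : 0 < B3 a₂ a₃ q s := by
  have hm23 : 0 < a₂ - a₃ := by linarith [hax.h23]
  unfold B3
  nlinarith

theorem B1_of_re_pos (hax : Ax a₁ a₂ a₃) (hs : 0 < s) (h : 0 < q.re) : 0 < B1 a₁ a₂ q s := by
  have hm2 : 0 < a₁ - a₂ := by linarith [hax.h12]
  unfold B1
  nlinarith

/-- strict antitonicity from a derivative -/
theorem anti_of {f f' : ℝ → ℝ} (hst : s < t) (hc : ContinuousOn f (Icc s t))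
    (hd : ∀ x ∈ Ioo s t, HasDerivAt f (f' x) x) (hn : ∀ x ∈ Ioo s t, f' x < 0) :
    f t < f s := by
  have h := strictAntiOn_of_deriv_neg (convex_Icc s t) hc (by
    intro x hx
    rw [interior_Icc] at hx
    rw [(hd x hx).deriv]
    exact hn x hx)
  exact h ⟨le_refl s, hst.le⟩ ⟨hst.le, le_refl t⟩ hst

theorem mono_of {f f' : ℝ → ℝ} (hst : s < t) (hc : ContinuousOn f (Icc s t))
    (hd : ∀ x ∈ Ioo s t, HasDerivAt f (f' x) x) (hn : ∀ x ∈ Ioo s t, 0 < f' x) :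
    f s < f t := by
  have h := strictMonoOn_of_deriv_pos (convex_Icc s t) hc (by
    intro x hx
    rw [interior_Icc] at hx
    rw [(hd x hx).deriv]
    exact hn x hx)
  exact h ⟨le_refl s, hst.le⟩ ⟨hst.le, le_refl t⟩ hst

end PathBAux

open PathBAux

theorem deriv_Y1 (hax : Ax a₁ a₂ a₃) (hq : ‖q‖ = 1) (h1 : 0 < q.imI) (h2 : 0 < q.imJ)
    (h3 : 0 < q.imK) (hs : 0 < s) :
    HasDerivAt (Y1 a₁ a₂ a₃ q) (-2 * (a₁ - a₂) * (a₁ - a₃) * K1 a₁ a₂ a₃ q s * s *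
      B3 a₂ a₃ q s / N1 a₁ a₂ a₃ q s ^ 2) s := by
  have _ := hq
  have hN := (SP_pos hax h1 h2 h3 hs).2.1
  have h := ((hasF1 (a₁ := a₁) (a₂ := a₂) (a₃ := a₃) (q := q) s).const_mul
    ((a₁ - a₂) * (a₁ - a₃))).div (hasN1 s) hN.ne'
  refine HasDerivAt.congr_deriv h ?_
  rw [div_eq_div_iff (pow_pos hN 2).ne' (pow_pos hN 2).ne']
  linear_combination ((a₁ - a₂) * (a₁ - a₃) * N1 a₁ a₂ a₃ q s ^ 2) *
    wF1 (a₁ := a₁) (a₂ := a₂) (a₃ := a₃) (q := q) s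
theorem deriv_Y2 (hax : Ax a₁ a₂ a₃) (hq : ‖q‖ = 1) (h1 : 0 < q.imI) (h2 : 0 < q.imJ)
    (h3 : 0 < q.imK) (hs : 0 < s) :
    HasDerivAt (Y2 a₁ a₂ a₃ q) (2 * (a₁ - a₂) * (a₂ - a₃) * K2 a₁ a₂ a₃ q s *
      B1 a₁ a₂ q s * B3 a₂ a₃ q s / N2 a₁ a₂ a₃ q s ^ 2) s := by
  have hN := N2_pos hax hq h1 h2 h3 hs
  have h := ((hasF2 (a₁ := a₁) (a₂ := a₂) (a₃ := a₃) (q := q) s).const_mul
    ((a₁ - a₂) * (a₂ - a₃))).div (hasN2 s) hN.ne'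
  refine HasDerivAt.congr_deriv h ?_
  rw [div_eq_div_iff (pow_pos hN 2).ne' (pow_pos hN 2).ne']
  linear_combination ((a₁ - a₂) * (a₂ - a₃) * N2 a₁ a₂ a₃ q s ^ 2) *
    wF2 (a₁ := a₁) (a₂ := a₂) (a₃ := a₃) (q := q) s
theorem deriv_Z3 (hax : Ax a₁ a₂ a₃) (hq : ‖q‖ = 1) (h1 : 0 < q.imI) (h2 : 0 < q.imJ)
    (h3 : 0 < q.imK) (hs : 0 < s) :
    HasDerivAt (Z3 a₁ a₂ a₃ q) (-2 * (a₁ - a₃) * (a₂ - a₃) * K3 a₁ a₂ a₃ q s *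
      B1 a₁ a₂ q s * s / N3 a₁ a₂ a₃ q s ^ 2) s := by
  have _ := hq
  have hN := (SP_pos hax h1 h2 h3 hs).2.2.2.2.2.2
  have h := ((hasF3 (a₁ := a₁) (a₂ := a₂) (a₃ := a₃) (q := q) s).const_mul
    ((a₁ - a₃) * (a₂ - a₃))).div (hasN3 s) hN.ne'
  refine HasDerivAt.congr_deriv h ?_
  rw [div_eq_div_iff (pow_pos hN 2).ne' (pow_pos hN 2).ne']
  linear_combination ((a₁ - a₃) * (a₂ - a₃) * N3 a₁ a₂ a₃ q s ^ 2) *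
    wF3 (a₁ := a₁) (a₂ := a₂) (a₃ := a₃) (q := q) s
theorem deriv_c1 (hax : Ax a₁ a₂ a₃) (hq : ‖q‖ = 1) (h1 : 0 < q.imI) (h2 : 0 < q.imJ)
    (h3 : 0 < q.imK) (hs : 0 < s) :
    HasDerivAt (c1 a₁ a₂ a₃ q) (B1 a₁ a₂ q s * K1 a₁ a₂ a₃ q s /
      (N1 a₁ a₂ a₃ q s * Real.sqrt (N1 a₁ a₂ a₃ q s))) s := by
  have _ := hq
  have hN := (SP_pos hax h1 h2 h3 hs).2.1
  have h := deriv_div_sqrt (hasM1 (a₁ := a₁) (a₂ := a₂) (a₃ := a₃) (q := q) s) (hasN1 s) hN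
  rw [wM1] at h
  exact h
theorem deriv_c2 (hax : Ax a₁ a₂ a₃) (hq : ‖q‖ = 1) (h1 : 0 < q.imI) (h2 : 0 < q.imJ)
    (h3 : 0 < q.imK) (hs : 0 < s) :
    HasDerivAt (c2 a₁ a₂ a₃ q) (s * K2 a₁ a₂ a₃ q s /
      (N2 a₁ a₂ a₃ q s * Real.sqrt (N2 a₁ a₂ a₃ q s))) s := by
  have hN := N2_pos hax hq h1 h2 h3 hs
  have h := deriv_div_sqrt (hasM2 (a₁ := a₁) (a₂ := a₂) (a₃ := a₃) (q := q) s) (hasN2 s) hN
  rw [wM2] at h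
  exact h
theorem deriv_c3 (hax : Ax a₁ a₂ a₃) (hq : ‖q‖ = 1) (h1 : 0 < q.imI) (h2 : 0 < q.imJ)
    (h3 : 0 < q.imK) (hs : 0 < s) :
    HasDerivAt (c3 a₁ a₂ a₃ q) (-(B3 a₂ a₃ q s * K3 a₁ a₂ a₃ q s) /
      (N3 a₁ a₂ a₃ q s * Real.sqrt (N3 a₁ a₂ a₃ q s))) s := by
  have _ := hq
  have hN := (SP_pos hax h1 h2 h3 hs).2.2.2.2.2.2
  have h := deriv_div_sqrt (hasM3 (a₁ := a₁) (a₂ := a₂) (a₃ := a₃) (q := q) s) (hasN3 s) hN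
  rw [wM3] at h
  exact h

namespace PathBAux

/-- derivative of `rb` -/
theorem deriv_rb (hax : Ax a₁ a₂ a₃) (h1 : 0 < q.imI) (h2 : 0 < q.imJ)
    (h3 : 0 < q.imK) (hs : 0 < s) :
    HasDerivAt (rb a₁ a₂ a₃ q) (2 * (s * q.imJ ^ 2 * F2 a₁ a₂ a₃ q s * E1 a₁ a₂ a₃ q s *
        E3 a₁ a₂ a₃ q s
        - B1 a₁ a₂ q s * q.imI ^ 2 * F1 a₁ a₂ a₃ q s * E2 a₁ a₂ a₃ q s * E3 a₁ a₂ a₃ q s
        + B3 a₂ a₃ q s * q.imK ^ 2 * F3 a₁ a₂ a₃ q s * E1 a₁ a₂ a₃ q s * E2 a₁ a₂ a₃ q s) /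
        (‖pP a₁ a₂ a₃ q s‖ ^ 2) ^ 2) s := by
  have hS := (SP_pos hax h1 h2 h3 hs).1
  obtain ⟨S', H', hS', hH', h⟩ := dSP (a₁ := a₁) (a₂ := a₂) (a₃ := a₃) (q := q) s
  have h4 := hH'.div hS' hS.ne'
  rw [h] at h4
  exact h4

end PathBAux

/-- differentiability facts used for continuity -/
theorem path_cont (hax : Ax a₁ a₂ a₃) (hq : ‖q‖ = 1) (h1 : 0 < q.imI) (h2 : 0 < q.imJ)
    (h3 : 0 < q.imK) :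
    ContinuousOn (Y1 a₁ a₂ a₃ q) (Ioi 0) ∧ ContinuousOn (Y2 a₁ a₂ a₃ q) (Ioi 0) ∧
    ContinuousOn (Z3 a₁ a₂ a₃ q) (Ioi 0) ∧ ContinuousOn (c1 a₁ a₂ a₃ q) (Ioi 0) ∧
    ContinuousOn (c2 a₁ a₂ a₃ q) (Ioi 0) ∧ ContinuousOn (c3 a₁ a₂ a₃ q) (Ioi 0) ∧
    ContinuousOn (rb a₁ a₂ a₃ q) (Ioi 0) :=
  ⟨fun _ hs => (deriv_Y1 hax hq h1 h2 h3 hs).continuousAt.continuousWithinAt,
   fun _ hs => (deriv_Y2 hax hq h1 h2 h3 hs).continuousAt.continuousWithinAt,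
   fun _ hs => (deriv_Z3 hax hq h1 h2 h3 hs).continuousAt.continuousWithinAt,
   fun _ hs => (deriv_c1 hax hq h1 h2 h3 hs).continuousAt.continuousWithinAt,
   fun _ hs => (deriv_c2 hax hq h1 h2 h3 hs).continuousAt.continuousWithinAt,
   fun _ hs => (deriv_c3 hax hq h1 h2 h3 hs).continuousAt.continuousWithinAt,
   fun _ hs => (deriv_rb hax h1 h2 h3 hs).continuousAt.continuousWithinAt⟩

private theorem sub_Ioi (hs : 0 < s) : Icc s t ⊆ Ioi 0 := fun _ hx => lt_of_lt_of_le hs hx.1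

private theorem B1_lt (hst : s < t) : B1 a₁ a₂ q s < B1 a₁ a₂ q t := by
  unfold B1
  linarith

private theorem B3_lt (hst : s < t) : B3 a₂ a₃ q s < B3 a₂ a₃ q t := by
  unfold B3
  linarith

theorem c3_anti (hax : Ax a₁ a₂ a₃) (hq : ‖q‖ = 1) (h1 : 0 < q.imI) (h2 : 0 < q.imJ)
    (h3 : 0 < q.imK) (hs : 0 < s) (hst : s < t) (he : 0 < E2 a₁ a₂ a₃ q s)
    (hB1 : 0 ≤ B1 a₁ a₂ q s) (hB3 : 0 ≤ B3 a₂ a₃ q s) :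
    c3 a₁ a₂ a₃ q t < c3 a₁ a₂ a₃ q s := by
  apply anti_of hst ((path_cont hax hq h1 h2 h3).2.2.2.2.2.1.mono (sub_Ioi hs))
    (fun x hx => deriv_c3 hax hq h1 h2 h3 (hs.trans hx.1))
  intro x hx
  have hx0 : 0 < x := hs.trans hx.1
  have hN := (SP_pos hax h1 h2 h3 hx0).2.2.2.2.2.2
  have hb1 := B1_lt (a₁ := a₁) (a₂ := a₂) (q := q) hx.1
  have hb3 := B3_lt (a₂ := a₂) (a₃ := a₃) (q := q) hx.1
  have hK := K3_pos hax h1 h2 h3 hx0 (E2_mono hs hx.1.le he) (by linarith)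
  have hb : 0 < B3 a₂ a₃ q x := by linarith
  apply div_neg_of_neg_of_pos
  · have := mul_pos hb hK
    linarith
  · positivity
theorem Z3_anti (hax : Ax a₁ a₂ a₃) (hq : ‖q‖ = 1) (h1 : 0 < q.imI) (h2 : 0 < q.imJ)
    (h3 : 0 < q.imK) (hs : 0 < s) (hst : s < t) (he : 0 < E2 a₁ a₂ a₃ q s)
    (hB1 : 0 ≤ B1 a₁ a₂ q s) : Z3 a₁ a₂ a₃ q t < Z3 a₁ a₂ a₃ q s := by
  have hm23 : 0 < a₂ - a₃ := by linarith [hax.h23]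
  have hm3 : 0 < a₁ - a₃ := by linarith [hax.h12, hax.h23]
  apply anti_of hst ((path_cont hax hq h1 h2 h3).2.2.1.mono (sub_Ioi hs))
    (fun x hx => deriv_Z3 hax hq h1 h2 h3 (hs.trans hx.1))
  intro x hx
  have hx0 : 0 < x := hs.trans hx.1
  have hN := (SP_pos hax h1 h2 h3 hx0).2.2.2.2.2.2
  have hb1 := B1_lt (a₁ := a₁) (a₂ := a₂) (q := q) hx.1
  have hK := K3_pos hax h1 h2 h3 hx0 (E2_mono hs hx.1.le he) (by linarith)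
  have hb : 0 < B1 a₁ a₂ q x := by linarith
  apply div_neg_of_neg_of_pos
  · have : 0 < 2 * (a₁ - a₃) * (a₂ - a₃) * K3 a₁ a₂ a₃ q x * B1 a₁ a₂ q x * x := by positivity
    linarith
  · positivity
theorem Y1_anti (hax : Ax a₁ a₂ a₃) (hq : ‖q‖ = 1) (h1 : 0 < q.imI) (h2 : 0 < q.imJ)
    (h3 : 0 < q.imK) (hs : 0 < s) (hst : s < t) (he : 0 < E2 a₁ a₂ a₃ q s)
    (hB3 : 0 ≤ B3 a₂ a₃ q s) : Y1 a₁ a₂ a₃ q t < Y1 a₁ a₂ a₃ q s := by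
  have hm2 : 0 < a₁ - a₂ := by linarith [hax.h12]
  have hm3 : 0 < a₁ - a₃ := by linarith [hax.h12, hax.h23]
  apply anti_of hst ((path_cont hax hq h1 h2 h3).1.mono (sub_Ioi hs))
    (fun x hx => deriv_Y1 hax hq h1 h2 h3 (hs.trans hx.1))
  intro x hx
  have hx0 : 0 < x := hs.trans hx.1
  have hN := (SP_pos hax h1 h2 h3 hx0).2.1
  have hb3 := B3_lt (a₂ := a₂) (a₃ := a₃) (q := q) hx.1
  have hK := K1_pos hax h1 h2 h3 hx0 (E2_mono hs hx.1.le he) (by linarith)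
  have hb : 0 < B3 a₂ a₃ q x := by linarith
  apply div_neg_of_neg_of_pos
  · have : 0 < 2 * (a₁ - a₂) * (a₁ - a₃) * K1 a₁ a₂ a₃ q x * x * B3 a₂ a₃ q x := by positivity
    linarith
  · positivity
theorem c2_antiI (hax : Ax a₁ a₂ a₃) (hq : ‖q‖ = 1) (h1 : 0 < q.imI) (h2 : 0 < q.imJ)
    (h3 : 0 < q.imK) (hs : 0 < s) (hst : s < t) (hB1 : B1 a₁ a₂ q t ≤ 0) :
    c2 a₁ a₂ a₃ q t < c2 a₁ a₂ a₃ q s := by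
  have hre := re_neg hax (hs.trans hst) hB1
  apply anti_of hst ((path_cont hax hq h1 h2 h3).2.2.2.2.1.mono (sub_Ioi hs))
    (fun x hx => deriv_c2 hax hq h1 h2 h3 (hs.trans hx.1))
  intro x hx
  have hx0 : 0 < x := hs.trans hx.1
  have hN := N2_pos hax hq h1 h2 h3 hx0
  have hb1 := B1_lt (a₁ := a₁) (a₂ := a₂) (q := q) hx.2
  have hb3 := B3_of_re_neg hax hx0 hre
  have hK := K2_neg hax h1 h2 h3 hx0 (by linarith) hb3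
  apply div_neg_of_neg_of_pos
  · exact mul_neg_of_pos_of_neg hx0 hK
  · positivity
theorem Y2_monoI (hax : Ax a₁ a₂ a₃) (hq : ‖q‖ = 1) (h1 : 0 < q.imI) (h2 : 0 < q.imJ)
    (h3 : 0 < q.imK) (hs : 0 < s) (hst : s < t) (hB1 : B1 a₁ a₂ q t ≤ 0) :
    Y2 a₁ a₂ a₃ q s < Y2 a₁ a₂ a₃ q t := by
  have hm23 : 0 < a₂ - a₃ := by linarith [hax.h23]
  have hm2 : 0 < a₁ - a₂ := by linarith [hax.h12]
  have hre := re_neg hax (hs.trans hst) hB1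
  apply mono_of hst ((path_cont hax hq h1 h2 h3).2.1.mono (sub_Ioi hs))
    (fun x hx => deriv_Y2 hax hq h1 h2 h3 (hs.trans hx.1))
  intro x hx
  have hx0 : 0 < x := hs.trans hx.1
  have hN := N2_pos hax hq h1 h2 h3 hx0
  have hb1 := B1_lt (a₁ := a₁) (a₂ := a₂) (q := q) hx.2
  have hb3 := B3_of_re_neg hax hx0 hre
  have hK := K2_neg hax h1 h2 h3 hx0 (by linarith) hb3
  have hb : B1 a₁ a₂ q x < 0 := by linarith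
  have h4 : 0 < K2 a₁ a₂ a₃ q x * B1 a₁ a₂ q x := mul_pos_of_neg_of_neg hK hb
  have h5 : 2 * (a₁ - a₂) * (a₂ - a₃) * K2 a₁ a₂ a₃ q x * B1 a₁ a₂ q x * B3 a₂ a₃ q x =
    2 * (a₁ - a₂) * (a₂ - a₃) * (K2 a₁ a₂ a₃ q x * B1 a₁ a₂ q x) * B3 a₂ a₃ q x := by ring
  rw [h5]
  positivity

namespace PathBAux

/-- `F2` increases while `B1 ≤ 0` -/
theorem F2_monoI (hax : Ax a₁ a₂ a₃) (h1 : 0 < q.imI) (hs : 0 < s) (hst : s ≤ t)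
    (hB1 : B1 a₁ a₂ q t ≤ 0) (hF : 0 < F2 a₁ a₂ a₃ q s) : 0 < F2 a₁ a₂ a₃ q t := by
  have hm23 : 0 < a₂ - a₃ := by linarith [hax.h23]
  have hm2 : 0 < a₁ - a₂ := by linarith [hax.h12]
  have hre := re_neg hax (lt_of_lt_of_le hs hst) hB1
  have hb3 := B3_of_re_neg hax hs hre
  have hB1s : B1 a₁ a₂ q s ≤ B1 a₁ a₂ q t := by
    unfold B1
    linarith
  have hB3s : B3 a₂ a₃ q s ≤ B3 a₂ a₃ q t := by
    unfold B3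
    linarith
  have e1 : B3 a₂ a₃ q s ^ 2 ≤ B3 a₂ a₃ q t ^ 2 := by nlinarith
  have e2 : B1 a₁ a₂ q t ^ 2 ≤ B1 a₁ a₂ q s ^ 2 := by nlinarith
  have e3 : (a₁ - a₂) * q.imI ^ 2 * B3 a₂ a₃ q s ^ 2 ≤ (a₁ - a₂) * q.imI ^ 2 * B3 a₂ a₃ q t ^ 2 :=
    mul_le_mul_of_nonneg_left e1 (by positivity)
  have e4 : (a₂ - a₃) * q.imK ^ 2 * B1 a₁ a₂ q t ^ 2 ≤ (a₂ - a₃) * q.imK ^ 2 * B1 a₁ a₂ q s ^ 2 :=
    mul_le_mul_of_nonneg_left e2 (by positivity)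
  unfold F2 at *
  linarith

/-- `F2` decreases while `B3 ≤ 0` -/
theorem F2_antiT (hax : Ax a₁ a₂ a₃) (h1 : 0 < q.imI) (hs : 0 < s) (hst : s ≤ t)
    (hB3 : B3 a₂ a₃ q t ≤ 0) (hF : F2 a₁ a₂ a₃ q s < 0) : F2 a₁ a₂ a₃ q t < 0 := by
  have hm23 : 0 < a₂ - a₃ := by linarith [hax.h23]
  have hm2 : 0 < a₁ - a₂ := by linarith [hax.h12]
  have hre := re_pos hax (lt_of_lt_of_le hs hst) hB3
  have hb1 := B1_of_re_pos hax hs hre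
  have hB1s : B1 a₁ a₂ q s ≤ B1 a₁ a₂ q t := by
    unfold B1
    linarith
  have hB3s : B3 a₂ a₃ q s ≤ B3 a₂ a₃ q t := by
    unfold B3
    linarith
  have e1 : B3 a₂ a₃ q t ^ 2 ≤ B3 a₂ a₃ q s ^ 2 := by nlinarith
  have e2 : B1 a₁ a₂ q s ^ 2 ≤ B1 a₁ a₂ q t ^ 2 := by nlinarith
  have e3 : (a₁ - a₂) * q.imI ^ 2 * B3 a₂ a₃ q t ^ 2 ≤ (a₁ - a₂) * q.imI ^ 2 * B3 a₂ a₃ q s ^ 2 :=
    mul_le_mul_of_nonneg_left e1 (by positivity)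
  have e4 : (a₂ - a₃) * q.imK ^ 2 * B1 a₁ a₂ q s ^ 2 ≤ (a₂ - a₃) * q.imK ^ 2 * B1 a₁ a₂ q t ^ 2 :=
    mul_le_mul_of_nonneg_left e2 (by positivity)
  unfold F2 at *
  linarith

end PathBAux

theorem rb_monoI (hax : Ax a₁ a₂ a₃) (hq : ‖q‖ = 1) (h1 : 0 < q.imI) (h2 : 0 < q.imJ)
    (h3 : 0 < q.imK) (hs : 0 < s) (hst : s < t) (he : 0 < E2 a₁ a₂ a₃ q s)
    (hB1 : B1 a₁ a₂ q t ≤ 0) (hr : a₂ < rb a₁ a₂ a₃ q s) :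
    rb a₁ a₂ a₃ q s < rb a₁ a₂ a₃ q t := by
  have hre := re_neg hax (hs.trans hst) hB1
  have hF := ((rb_mem hax h1 h2 h3 hs he).2.1).mp hr
  apply mono_of hst ((path_cont hax hq h1 h2 h3).2.2.2.2.2.2.mono (sub_Ioi hs))
    (fun x hx => deriv_rb hax h1 h2 h3 (hs.trans hx.1))
  intro x hx
  have hx0 : 0 < x := hs.trans hx.1
  obtain ⟨hSP, hN1, hE1, hE3, hF1, hF3, hN3⟩ := SP_pos hax h1 h2 h3 hx0
  have hb1 := B1_lt (a₁ := a₁) (a₂ := a₂) (q := q) hx.2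
  have hb3 := B3_of_re_neg hax hx0 hre
  have hE2 := E2_mono hs hx.1.le he
  have hF2 := F2_monoI hax h1 hs hx.1.le (by linarith) hF
  have hb : 0 < -B1 a₁ a₂ q x := by linarith
  have t1 : 0 < x * q.imJ ^ 2 * F2 a₁ a₂ a₃ q x * E1 a₁ a₂ a₃ q x * E3 a₁ a₂ a₃ q x := by
    positivity
  have t2 : 0 < (-B1 a₁ a₂ q x) * q.imI ^ 2 * F1 a₁ a₂ a₃ q x * E2 a₁ a₂ a₃ q x *
      E3 a₁ a₂ a₃ q x := by positivity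
  have t3 : 0 < B3 a₂ a₃ q x * q.imK ^ 2 * F3 a₁ a₂ a₃ q x * E1 a₁ a₂ a₃ q x *
      E2 a₁ a₂ a₃ q x := by positivity
  apply div_pos
  · linarith
  · positivity
theorem rb_antiT (hax : Ax a₁ a₂ a₃) (hq : ‖q‖ = 1) (h1 : 0 < q.imI) (h2 : 0 < q.imJ)
    (h3 : 0 < q.imK) (hs : 0 < s) (hst : s < t) (he : 0 < E2 a₁ a₂ a₃ q s)
    (hB3 : B3 a₂ a₃ q t ≤ 0) (hr : rb a₁ a₂ a₃ q s < a₂) :
    rb a₁ a₂ a₃ q t < rb a₁ a₂ a₃ q s := by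
  have hre := re_pos hax (hs.trans hst) hB3
  have hF := ((rb_mem hax h1 h2 h3 hs he).2.2).mp hr
  apply anti_of hst ((path_cont hax hq h1 h2 h3).2.2.2.2.2.2.mono (sub_Ioi hs))
    (fun x hx => deriv_rb hax h1 h2 h3 (hs.trans hx.1))
  intro x hx
  have hx0 : 0 < x := hs.trans hx.1
  obtain ⟨hSP, hN1, hE1, hE3, hF1, hF3, hN3⟩ := SP_pos hax h1 h2 h3 hx0
  have hb3 := B3_lt (a₂ := a₂) (a₃ := a₃) (q := q) hx.2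
  have hb1 := B1_of_re_pos hax hx0 hre
  have hE2 := E2_mono hs hx.1.le he
  have hF2 := F2_antiT hax h1 hs hx.1.le (by linarith) hF
  have hb : 0 < -B3 a₂ a₃ q x := by linarith
  have hF2' : 0 < -F2 a₁ a₂ a₃ q x := by linarith
  have t1 : 0 < x * q.imJ ^ 2 * (-F2 a₁ a₂ a₃ q x) * E1 a₁ a₂ a₃ q x * E3 a₁ a₂ a₃ q x := by
    positivity
  have t2 : 0 < (B1 a₁ a₂ q x) * q.imI ^ 2 * F1 a₁ a₂ a₃ q x * E2 a₁ a₂ a₃ q x *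
      E3 a₁ a₂ a₃ q x := by positivity
  have t3 : 0 < (-B3 a₂ a₃ q x) * q.imK ^ 2 * F3 a₁ a₂ a₃ q x * E1 a₁ a₂ a₃ q x *
      E2 a₁ a₂ a₃ q x := by positivity
  apply div_neg_of_neg_of_pos
  · linarith
  · positivity

end path

end

end Pool.Agent.CutS3
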