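import Pool.Agent.CutS3.PathB
import Pool.Agent.CutS3.Clock1

/-!
Module PATHC: the two clock functions decrease along the algebraic family.
-/

set_option autoImplicit false

namespace Pool.Agent.CutS3

open Set Quaternion

noncomputable section

section path
variable {a₁ a₂ a₃ s t r : ℝ} {q : ℍ[ℝ]}

namespace PathCAux

open PathBAux

theorem L1 (hax : Ax a₁ a₂ a₃) (h1 : 0 < q.imI) (h2 : 0 < q.imJ) (h3 : 0 < q.imK)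
    (hs : 0 < s) :
    ‖pP a₁ a₂ a₃ q s‖ ^ 2 * N1 a₁ a₂ a₃ q s * (a₁ - Y1 a₁ a₂ a₃ q s - rb a₁ a₂ a₃ q s) =
      F1 a₁ a₂ a₃ q s * B1 a₁ a₂ q s ^ 2 * E2 a₁ a₂ a₃ q s * E3 a₁ a₂ a₃ q s := by
  obtain ⟨hSP, hN1, hE1, hE3, hF1, hF3, hN3⟩ := SP_pos hax h1 h2 h3 hs
  have i1 := I1_eq (a₁ := a₁) (a₂ := a₂) (a₃ := a₃) (q := q) s
  have j1 := J1_eq (a₁ := a₁) (a₂ := a₂) (a₃ := a₃) (q := q) s
  rw [Y1_def']
  unfold rb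
  have hN := hN1.ne'
  have hS := hSP.ne'
  generalize ‖pP a₁ a₂ a₃ q s‖ ^ 2 = S at *
  generalize HH a₁ a₂ a₃ (pP a₁ a₂ a₃ q s) = H at *
  field_simp
  linear_combination (N1 a₁ a₂ a₃ q s) * i1 + F1 a₁ a₂ a₃ q s * j1

theorem L2 (hax : Ax a₁ a₂ a₃) (hq : ‖q‖ = 1) (h1 : 0 < q.imI) (h2 : 0 < q.imJ)
    (h3 : 0 < q.imK) (hs : 0 < s) :
    ‖pP a₁ a₂ a₃ q s‖ ^ 2 * N2 a₁ a₂ a₃ q s * (a₂ - Y2 a₁ a₂ a₃ q s - rb a₁ a₂ a₃ q s) =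
      -F2 a₁ a₂ a₃ q s * s ^ 2 * E1 a₁ a₂ a₃ q s * E3 a₁ a₂ a₃ q s := by
  obtain ⟨hSP, hN1, hE1, hE3, hF1, hF3, hN3⟩ := SP_pos hax h1 h2 h3 hs
  have hN2 := N2_pos hax hq h1 h2 h3 hs
  have i2 := I2_eq (a₁ := a₁) (a₂ := a₂) (a₃ := a₃) (q := q) s
  have j2 := J2_eq (a₁ := a₁) (a₂ := a₂) (a₃ := a₃) (q := q) s
  rw [Y2_def']
  unfold rb
  have hN := hN2.ne'
  have hS := hSP.ne'
  generalize ‖pP a₁ a₂ a₃ q s‖ ^ 2 = S at *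
  generalize HH a₁ a₂ a₃ (pP a₁ a₂ a₃ q s) = H at *
  field_simp
  linear_combination (-N2 a₁ a₂ a₃ q s) * i2 + F2 a₁ a₂ a₃ q s * j2

theorem rb_pos (hax : Ax a₁ a₂ a₃) (h1 : 0 < q.imI) (h2 : 0 < q.imJ) (h3 : 0 < q.imK)
    (hs : 0 < s) (he : 0 < E2 a₁ a₂ a₃ q s) : 0 < rb a₁ a₂ a₃ q s :=
  hax.pos.trans (rb_mem hax h1 h2 h3 hs he).1.1

/-- `√(1 - (M/√N)²) = |P|/√N` -/
theorem sqrt_one_sub {M N P : ℝ} (hN0 : 0 < N) (hP : 0 < P) (hN : N = M ^ 2 + P ^ 2) :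
    Real.sqrt (1 - (M / Real.sqrt N) ^ 2) = P / Real.sqrt N := by
  have h1 : 1 - (M / Real.sqrt N) ^ 2 = (P / Real.sqrt N) ^ 2 := by
    rw [div_pow, div_pow, Real.sq_sqrt hN0.le]
    field_simp
    linarith
  rw [h1, Real.sqrt_sq (by positivity)]

theorem prod_lt {A r b : ℝ} (hr : 0 < r) (hb : 0 < b) (h1 : 0 < A - r) (_h2 : 0 ≤ A - b) :
    (A - b) * (A - r) < A ^ 2 := by
  nlinarith [mul_nonneg _h2 h1.le]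

/-- the final inequality -/
theorem final_ineq {B T u A n P K N : ℝ} (hA : 0 < A) (hT : 0 < T) (hu : 0 < u) (hn : 0 < n)
    (hP : 0 < P) (hK : 0 < K) (hN : 0 < N) (h : (B * T * u) ^ 2 < (A * n * P) ^ 2) :
    K / N * (B / P - A * n / (T * u)) < 0 := by
  have h1 : |B * T * u| < A * n * P := abs_lt_of_sq_lt_sq h (by positivity)
  have h2 : B * T * u < A * n * P := (le_abs_self _).trans_lt h1
  apply mul_neg_of_pos_of_neg (by positivity)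
  rw [sub_neg, div_lt_div_iff₀ hP (by positivity)]
  linarith

end PathCAux

open PathBAux PathCAux

theorem H1_anti (hax : Ax a₁ a₂ a₃) (hq : ‖q‖ = 1) (h1 : 0 < q.imI) (h2 : 0 < q.imJ)
    (h3 : 0 < q.imK) (hs : 0 < s) (hst : s < t) (he : 0 < E2 a₁ a₂ a₃ q s)
    (hB3 : 0 ≤ B3 a₂ a₃ q s) (hr : r ∈ Ioo a₃ a₁) (hY : Y1 a₁ a₂ a₃ q s ≤ a₁ - r)
    (h' : 0 < B3 a₂ a₃ q s ∨ r < a₂) :
    gg1 a₁ a₂ a₃ r (Y1 a₁ a₂ a₃ q t) - Real.arccos (c1 a₁ a₂ a₃ q t)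
      < gg1 a₁ a₂ a₃ r (Y1 a₁ a₂ a₃ q s) - Real.arccos (c1 a₁ a₂ a₃ q s) := by
  have hm2 : 0 < a₁ - a₂ := by linarith [hax.h12]
  have hm3 : 0 < a₁ - a₃ := by linarith [hax.h12, hax.h23]
  have hcont := path_cont hax hq h1 h2 h3 (q := q)
  have hsub : Icc s t ⊆ Ioi 0 := fun _ hx => lt_of_lt_of_le hs hx.1
  have hanti : ∀ x ∈ Icc s t, Y1 a₁ a₂ a₃ q x ≤ Y1 a₁ a₂ a₃ q s := by
    intro x hx
    rcases eq_or_lt_of_le hx.1 with h | h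
    · rw [h]
    · exact (Y1_anti hax hq h1 h2 h3 hs h he hB3).le
  have hYm := Y_mem hax hq h1 h2 h3 hs he
  have hmem : ∀ x ∈ Icc s t, Y1 a₁ a₂ a₃ q x ∈ Icc 0 (Y1 a₁ a₂ a₃ q s) := by
    intro x hx
    exact ⟨(Y_mem hax hq h1 h2 h3 (hsub hx) (E2_mono hs hx.1 he)).1.le, hanti x hx⟩
  refine anti_of (f := fun x => gg1 a₁ a₂ a₃ r (Y1 a₁ a₂ a₃ q x) - Real.arccos (c1 a₁ a₂ a₃ q x))
    (f' := fun x => K1 a₁ a₂ a₃ q x / N1 a₁ a₂ a₃ q x * (B1 a₁ a₂ q x / ‖pP a₁ a₂ a₃ q x‖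
      - (a₁ - Y1 a₁ a₂ a₃ q x) * Real.sqrt (N1 a₁ a₂ a₃ q x) /
        (Real.sqrt (F1 a₁ a₂ a₃ q x * E2 a₁ a₂ a₃ q x * E3 a₁ a₂ a₃ q x) *
          Real.sqrt (a₁ - Y1 a₁ a₂ a₃ q x - r)))) hst ?_ ?_ ?_
  · apply ContinuousOn.sub
    · apply ContinuousOn.comp (gg1_cont hax hr.1.le hr.2 hY hYm.2.1 ?_)
        (hcont.1.mono hsub) hmem
      rcases h' with h | h
      · left
        exact hYm.2.2.1 h.ne'
      · right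
        exact h.ne
    · exact Real.continuous_arccos.comp_continuousOn (hcont.2.2.2.1.mono hsub)
  · intro x hx
    have hx0 : 0 < x := hs.trans hx.1
    obtain ⟨hSP, hN1, hE1, hE3, hF1, hF3, hN3⟩ := SP_pos hax h1 h2 h3 hx0 (q := q)
    have hE2 := E2_mono hs hx.1.le he
    have hb : 0 < B3 a₂ a₃ q x := by
      have : B3 a₂ a₃ q s < B3 a₂ a₃ q x := by
        unfold B3
        linarith [hx.1]
      linarith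
    have hYx := Y_mem hax hq h1 h2 h3 hx0 hE2
    have hYlt : Y1 a₁ a₂ a₃ q x < Y1 a₁ a₂ a₃ q s := Y1_anti hax hq h1 h2 h3 hs hx.1 he hB3
    have hYr : 0 < a₁ - Y1 a₁ a₂ a₃ q x - r := by linarith
    have hP : 0 < ‖pP a₁ a₂ a₃ q x‖ := by
      rcases (norm_nonneg (pP a₁ a₂ a₃ q x)).lt_or_eq with h | h
      · exact h
      · rw [← h] at hSP
        simp at hSP
    have hg := gg1_deriv hax hr.1.le hr.2 hYx.1 (by linarith) (hYx.2.2.1 hb.ne')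
    have hd1 := hg.comp x (deriv_Y1 hax hq h1 h2 h3 hx0)
    have hcm := (c_mem hax hq h1 h2 h3 hx0).1
    have hd2 := (Real.hasDerivAt_arccos hcm.1.ne' hcm.2.ne).comp x (deriv_c1 hax hq h1 h2 h3 hx0)
    refine HasDerivAt.congr_deriv (hd1.sub hd2) ?_
    have hsq : Real.sqrt (1 - c1 a₁ a₂ a₃ q x ^ 2) =
        ‖pP a₁ a₂ a₃ q x‖ / Real.sqrt (N1 a₁ a₂ a₃ q x) :=
      sqrt_one_sub hN1 hP (N1_eq hq x)
    have hT : 0 < Real.sqrt (F1 a₁ a₂ a₃ q x * E2 a₁ a₂ a₃ q x * E3 a₁ a₂ a₃ q x) :=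
      Real.sqrt_pos.mpr (by positivity)
    have hT2 : Real.sqrt (F1 a₁ a₂ a₃ q x * E2 a₁ a₂ a₃ q x * E3 a₁ a₂ a₃ q x) ^ 2 =
      F1 a₁ a₂ a₃ q x * E2 a₁ a₂ a₃ q x * E3 a₁ a₂ a₃ q x := Real.sq_sqrt (by positivity)
    have hu : 0 < Real.sqrt (a₁ - Y1 a₁ a₂ a₃ q x - r) := Real.sqrt_pos.mpr hYr
    have hu2 : Real.sqrt (a₁ - Y1 a₁ a₂ a₃ q x - r) ^ 2 = a₁ - Y1 a₁ a₂ a₃ q x - r :=
      Real.sq_sqrt hYr.le
    have hn : 0 < Real.sqrt (N1 a₁ a₂ a₃ q x) := Real.sqrt_pos.mpr hN1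
    have hn2 : Real.sqrt (N1 a₁ a₂ a₃ q x) ^ 2 = N1 a₁ a₂ a₃ q x := Real.sq_sqrt hN1.le
    have hk : gk1 a₁ a₂ a₃ r (Y1 a₁ a₂ a₃ q x) = (a₁ - Y1 a₁ a₂ a₃ q x) /
        (2 * (a₁ - a₂) * (a₁ - a₃) * B3 a₂ a₃ q x * x *
          Real.sqrt (F1 a₁ a₂ a₃ q x * E2 a₁ a₂ a₃ q x * E3 a₁ a₂ a₃ q x) *
          Real.sqrt (a₁ - Y1 a₁ a₂ a₃ q x - r) /
          (N1 a₁ a₂ a₃ q x * Real.sqrt (N1 a₁ a₂ a₃ q x))) := by
      unfold gk1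
      congr 1
      have e0 : 4 * Y1 a₁ a₂ a₃ q x * (a₁ - r - Y1 a₁ a₂ a₃ q x) * (a₁ - a₂ - Y1 a₁ a₂ a₃ q x) *
          (a₁ - a₃ - Y1 a₁ a₂ a₃ q x) = (2 * (a₁ - a₂) * (a₁ - a₃) * B3 a₂ a₃ q x * x *
          Real.sqrt (F1 a₁ a₂ a₃ q x * E2 a₁ a₂ a₃ q x * E3 a₁ a₂ a₃ q x) *
          Real.sqrt (a₁ - Y1 a₁ a₂ a₃ q x - r) /
          (N1 a₁ a₂ a₃ q x * Real.sqrt (N1 a₁ a₂ a₃ q x))) ^ 2 := by
        have e1 : a₁ - a₂ - Y1 a₁ a₂ a₃ q x =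
            (a₁ - a₂) * (E2 a₁ a₂ a₃ q x * B3 a₂ a₃ q x ^ 2) / N1 a₁ a₂ a₃ q x := by
          rw [Y1_def', ← Y1a_eq]
          field_simp
        have e2 : a₁ - a₃ - Y1 a₁ a₂ a₃ q x =
            (a₁ - a₃) * (E3 a₁ a₂ a₃ q x * x ^ 2) / N1 a₁ a₂ a₃ q x := by
          rw [Y1_def', ← Y1b_eq]
          field_simp
        rw [div_pow, mul_pow, mul_pow, mul_pow (N1 a₁ a₂ a₃ q x), hT2, hu2, hn2, e1, e2]
        have e3 : 4 * Y1 a₁ a₂ a₃ q x * (a₁ - r - Y1 a₁ a₂ a₃ q x) =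
          4 * ((a₁ - a₂) * (a₁ - a₃) * F1 a₁ a₂ a₃ q x / N1 a₁ a₂ a₃ q x) *
            (a₁ - Y1 a₁ a₂ a₃ q x - r) := by
          rw [← Y1_def']
          ring
        rw [e3]
        generalize (a₁ - Y1 a₁ a₂ a₃ q x - r) = Z
        field_simp
        ring
      rw [e0, Real.sqrt_sq (by positivity)]
    rw [hk, hsq]
    generalize Real.sqrt (F1 a₁ a₂ a₃ q x * E2 a₁ a₂ a₃ q x * E3 a₁ a₂ a₃ q x) = T at *
    generalize Real.sqrt (a₁ - Y1 a₁ a₂ a₃ q x - r) = u at *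
    generalize Real.sqrt (N1 a₁ a₂ a₃ q x) = n at *
    generalize ‖pP a₁ a₂ a₃ q x‖ = P at *
    have hb' := hb.ne'
    have hx0' := hx0.ne'
    have hN1' := hN1.ne'
    have hm2' := hm2.ne'
    have hm3' := hm3.ne'
    generalize B3 a₂ a₃ q x = b3 at *
    generalize a₁ - a₂ = m2 at *
    generalize a₁ - a₃ = m3 at *
    generalize a₁ - Y1 a₁ a₂ a₃ q x = A at *
    field_simp
    ring
  · intro x hx
    have hx0 : 0 < x := hs.trans hx.1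
    obtain ⟨hSP, hN1, hE1, hE3, hF1, hF3, hN3⟩ := SP_pos hax h1 h2 h3 hx0 (q := q)
    have hE2 := E2_mono hs hx.1.le he
    have hb : 0 ≤ B3 a₂ a₃ q x := by
      have : B3 a₂ a₃ q s < B3 a₂ a₃ q x := by
        unfold B3
        linarith [hx.1]
      linarith
    have hK := K1_pos hax h1 h2 h3 hx0 hE2 hb
    have hYx := Y_mem hax hq h1 h2 h3 hx0 hE2
    have hYlt : Y1 a₁ a₂ a₃ q x < Y1 a₁ a₂ a₃ q s := Y1_anti hax hq h1 h2 h3 hs hx.1 he hB3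
    have hYr : 0 < a₁ - Y1 a₁ a₂ a₃ q x - r := by linarith
    have hr0 : 0 < r := hax.pos.trans hr.1
    have hP : 0 < ‖pP a₁ a₂ a₃ q x‖ := by
      rcases (norm_nonneg (pP a₁ a₂ a₃ q x)).lt_or_eq with h | h
      · exact h
      · rw [← h] at hSP
        simp at hSP
    have hrb := rb_pos hax h1 h2 h3 hx0 hE2
    have hL := L1 hax h1 h2 h3 hx0
    have hA : 0 < a₁ - Y1 a₁ a₂ a₃ q x := by linarith
    have hAb : 0 ≤ a₁ - Y1 a₁ a₂ a₃ q x - rb a₁ a₂ a₃ q x := by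
      have h4 : 0 ≤ ‖pP a₁ a₂ a₃ q x‖ ^ 2 * N1 a₁ a₂ a₃ q x *
          (a₁ - Y1 a₁ a₂ a₃ q x - rb a₁ a₂ a₃ q x) := by
        rw [hL]
        positivity
      exact nonneg_of_mul_nonneg_right h4 (by positivity)
    apply final_ineq hA (Real.sqrt_pos.mpr (by positivity)) (Real.sqrt_pos.mpr hYr)
      (Real.sqrt_pos.mpr hN1) hP hK hN1
    rw [mul_pow, mul_pow, mul_pow, mul_pow, Real.sq_sqrt (by positivity), Real.sq_sqrt hYr.le,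
      Real.sq_sqrt hN1.le]
    have h5 := prod_lt hr0 hrb hYr hAb
    calc B1 a₁ a₂ q x ^ 2 * (F1 a₁ a₂ a₃ q x * E2 a₁ a₂ a₃ q x * E3 a₁ a₂ a₃ q x) *
          (a₁ - Y1 a₁ a₂ a₃ q x - r) =
          (‖pP a₁ a₂ a₃ q x‖ ^ 2 * N1 a₁ a₂ a₃ q x *
          (a₁ - Y1 a₁ a₂ a₃ q x - rb a₁ a₂ a₃ q x)) * (a₁ - Y1 a₁ a₂ a₃ q x - r) := by
            rw [hL]
            ring
      _ = ‖pP a₁ a₂ a₃ q x‖ ^ 2 * N1 a₁ a₂ a₃ q x *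
          ((a₁ - Y1 a₁ a₂ a₃ q x - rb a₁ a₂ a₃ q x) * (a₁ - Y1 a₁ a₂ a₃ q x - r)) := by ring
      _ < ‖pP a₁ a₂ a₃ q x‖ ^ 2 * N1 a₁ a₂ a₃ q x * (a₁ - Y1 a₁ a₂ a₃ q x) ^ 2 :=
          mul_lt_mul_of_pos_left h5 (by positivity)
      _ = (a₁ - Y1 a₁ a₂ a₃ q x) ^ 2 * N1 a₁ a₂ a₃ q x * ‖pP a₁ a₂ a₃ q x‖ ^ 2 := by ring

theorem H2_anti (hax : Ax a₁ a₂ a₃) (hq : ‖q‖ = 1) (h1 : 0 < q.imI) (h2 : 0 < q.imJ)
    (h3 : 0 < q.imK) (hs : 0 < s) (hst : s < t) (he : 0 < E2 a₁ a₂ a₃ q s)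
    (hB3 : B3 a₂ a₃ q t ≤ 0) (hrb : rb a₁ a₂ a₃ q s < a₂) (hr : r ∈ Ioo a₃ a₂) :
    -gg2T a₁ a₂ a₃ r (-Y2 a₁ a₂ a₃ q t) - Real.arccos (c2 a₁ a₂ a₃ q t)
      < -gg2T a₁ a₂ a₃ r (-Y2 a₁ a₂ a₃ q s) - Real.arccos (c2 a₁ a₂ a₃ q s) := by
  have hm2 : 0 < a₁ - a₂ := by linarith [hax.h12]
  have hm23 : 0 < a₂ - a₃ := by linarith [hax.h23]
  have hcont := path_cont hax hq h1 h2 h3 (q := q)
  have hsub : Icc s t ⊆ Ioi 0 := fun _ hx => lt_of_lt_of_le hs hx.1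
  have hre := re_pos hax (hs.trans hst) hB3
  have hF := ((rb_mem hax h1 h2 h3 hs he).2.2).mp hrb
  have hF2 : ∀ x ∈ Icc s t, F2 a₁ a₂ a₃ q x < 0 := by
    intro x hx
    apply F2_antiT hax h1 hs hx.1 _ hF
    have : B3 a₂ a₃ q x ≤ B3 a₂ a₃ q t := by
      unfold B3
      linarith [hx.2]
    linarith
  have hYneg : ∀ x ∈ Icc s t, Y2 a₁ a₂ a₃ q x < 0 := by
    intro x hx
    have hN2 := N2_pos hax hq h1 h2 h3 (hsub hx) (q := q)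
    rw [Y2_def']
    apply div_neg_of_neg_of_pos _ hN2
    exact mul_neg_of_pos_of_neg (by positivity) (hF2 x hx)
  have hmem : ∀ x ∈ Icc s t, -Y2 a₁ a₂ a₃ q x ∈ Icc 0 (a₁ - a₂) := by
    intro x hx
    have h4 := (Y_mem hax hq h1 h2 h3 (hsub hx) (E2_mono hs hx.1 he)).2.2.2.2.2.2.1
    have h5 := hYneg x hx
    constructor <;> linarith
  refine anti_of (f := fun x => -gg2T a₁ a₂ a₃ r (-Y2 a₁ a₂ a₃ q x)
      - Real.arccos (c2 a₁ a₂ a₃ q x))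
    (f' := fun x => K2 a₁ a₂ a₃ q x / N2 a₁ a₂ a₃ q x * (x / ‖pP a₁ a₂ a₃ q x‖
      - (a₂ - Y2 a₁ a₂ a₃ q x) * Real.sqrt (N2 a₁ a₂ a₃ q x) /
        (Real.sqrt (-F2 a₁ a₂ a₃ q x * E1 a₁ a₂ a₃ q x * E3 a₁ a₂ a₃ q x) *
          Real.sqrt (a₂ - Y2 a₁ a₂ a₃ q x - r)))) hst ?_ ?_ ?_
  · apply ContinuousOn.sub
    · apply ContinuousOn.neg
      exact ContinuousOn.comp (gg2T_cont hax hr.1.le hr.2) (hcont.2.1.mono hsub).neg hmem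
    · exact Real.continuous_arccos.comp_continuousOn (hcont.2.2.2.2.1.mono hsub)
  · intro x hx
    have hx0 : 0 < x := hs.trans hx.1
    have hxI : x ∈ Icc s t := ⟨hx.1.le, hx.2.le⟩
    obtain ⟨hSP, hN1, hE1, hE3, hF1, hF3, hN3⟩ := SP_pos hax h1 h2 h3 hx0 (q := q)
    have hN2 := N2_pos hax hq h1 h2 h3 hx0 (q := q)
    have hE2 := E2_mono hs hx.1.le he
    have hb : 0 < -B3 a₂ a₃ q x := by
      have : B3 a₂ a₃ q x < B3 a₂ a₃ q t := by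
        unfold B3
        linarith [hx.2]
      linarith
    have hb1 := B1_of_re_pos hax hx0 hre
    have hFx : 0 < -F2 a₁ a₂ a₃ q x := by linarith [hF2 x hxI]
    have hYx := Y_mem hax hq h1 h2 h3 hx0 hE2
    have hYn := hYneg x hxI
    have hYr : 0 < a₂ - Y2 a₁ a₂ a₃ q x - r := by linarith [hr.2]
    have hP : 0 < ‖pP a₁ a₂ a₃ q x‖ := by
      rcases (norm_nonneg (pP a₁ a₂ a₃ q x)).lt_or_eq with h | h
      · exact h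
      · rw [← h] at hSP
        simp at hSP
    have hYm2 : -Y2 a₁ a₂ a₃ q x < a₁ - a₂ := by
      have := hYx.2.2.2.2.2.2.2.2 (by linarith)
      linarith
    have hg := gg2T_deriv hax hr.1.le hr.2 (by linarith : 0 < -Y2 a₁ a₂ a₃ q x) hYm2
    have hd1 := (hg.comp x (deriv_Y2 hax hq h1 h2 h3 hx0).neg).neg
    have hcm := (c_mem hax hq h1 h2 h3 hx0).2.1
    have hd2 := (Real.hasDerivAt_arccos hcm.1.ne' hcm.2.ne).comp x (deriv_c2 hax hq h1 h2 h3 hx0)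
    refine HasDerivAt.congr_deriv (hd1.sub hd2) ?_
    have hsq : Real.sqrt (1 - c2 a₁ a₂ a₃ q x ^ 2) =
        ‖pP a₁ a₂ a₃ q x‖ / Real.sqrt (N2 a₁ a₂ a₃ q x) :=
      sqrt_one_sub hN2 hP (N2_eq hq x)
    have hT : 0 < Real.sqrt (-F2 a₁ a₂ a₃ q x * E1 a₁ a₂ a₃ q x * E3 a₁ a₂ a₃ q x) :=
      Real.sqrt_pos.mpr (by positivity)
    have hT2 : Real.sqrt (-F2 a₁ a₂ a₃ q x * E1 a₁ a₂ a₃ q x * E3 a₁ a₂ a₃ q x) ^ 2 =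
      -F2 a₁ a₂ a₃ q x * E1 a₁ a₂ a₃ q x * E3 a₁ a₂ a₃ q x := Real.sq_sqrt (by positivity)
    have hu : 0 < Real.sqrt (a₂ - Y2 a₁ a₂ a₃ q x - r) := Real.sqrt_pos.mpr hYr
    have hu2 : Real.sqrt (a₂ - Y2 a₁ a₂ a₃ q x - r) ^ 2 = a₂ - Y2 a₁ a₂ a₃ q x - r :=
      Real.sq_sqrt hYr.le
    have hn : 0 < Real.sqrt (N2 a₁ a₂ a₃ q x) := Real.sqrt_pos.mpr hN2
    have hn2 : Real.sqrt (N2 a₁ a₂ a₃ q x) ^ 2 = N2 a₁ a₂ a₃ q x := Real.sq_sqrt hN2.le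
    have hk : gk2T a₁ a₂ a₃ r (-Y2 a₁ a₂ a₃ q x) = (a₂ - Y2 a₁ a₂ a₃ q x) /
        (2 * (a₁ - a₂) * (a₂ - a₃) * B1 a₁ a₂ q x * (-B3 a₂ a₃ q x) *
          Real.sqrt (-F2 a₁ a₂ a₃ q x * E1 a₁ a₂ a₃ q x * E3 a₁ a₂ a₃ q x) *
          Real.sqrt (a₂ - Y2 a₁ a₂ a₃ q x - r) /
          (N2 a₁ a₂ a₃ q x * Real.sqrt (N2 a₁ a₂ a₃ q x))) := by
      unfold gk2T
      congr 1
      have e0 : 4 * -Y2 a₁ a₂ a₃ q x * (a₂ - r + -Y2 a₁ a₂ a₃ q x) *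
          (a₂ - a₃ + -Y2 a₁ a₂ a₃ q x) * (a₁ - a₂ - -Y2 a₁ a₂ a₃ q x) =
          (2 * (a₁ - a₂) * (a₂ - a₃) * B1 a₁ a₂ q x * (-B3 a₂ a₃ q x) *
          Real.sqrt (-F2 a₁ a₂ a₃ q x * E1 a₁ a₂ a₃ q x * E3 a₁ a₂ a₃ q x) *
          Real.sqrt (a₂ - Y2 a₁ a₂ a₃ q x - r) /
          (N2 a₁ a₂ a₃ q x * Real.sqrt (N2 a₁ a₂ a₃ q x))) ^ 2 := by
        have e1 : a₁ - a₂ - -Y2 a₁ a₂ a₃ q x =
            (a₁ - a₂) * (E1 a₁ a₂ a₃ q x * B3 a₂ a₃ q x ^ 2) / N2 a₁ a₂ a₃ q x := by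
          rw [Y2_def', ← Y2a_eq]
          field_simp
          ring
        have e2 : a₂ - a₃ + -Y2 a₁ a₂ a₃ q x =
            (a₂ - a₃) * (E3 a₁ a₂ a₃ q x * B1 a₁ a₂ q x ^ 2) / N2 a₁ a₂ a₃ q x := by
          rw [Y2_def', ← Y2b_eq]
          field_simp
          ring
        rw [div_pow, mul_pow, mul_pow, mul_pow (N2 a₁ a₂ a₃ q x), hT2, hu2, hn2, e1, e2]
        have e3 : 4 * -Y2 a₁ a₂ a₃ q x * (a₂ - r + -Y2 a₁ a₂ a₃ q x) =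
          4 * -((a₁ - a₂) * (a₂ - a₃) * F2 a₁ a₂ a₃ q x / N2 a₁ a₂ a₃ q x) *
            (a₂ - Y2 a₁ a₂ a₃ q x - r) := by
          rw [← Y2_def']
          ring
        rw [e3]
        generalize (a₂ - Y2 a₁ a₂ a₃ q x - r) = Z
        field_simp
        ring
      rw [e0, Real.sqrt_sq (by positivity)]
    rw [hk, hsq]
    generalize Real.sqrt (-F2 a₁ a₂ a₃ q x * E1 a₁ a₂ a₃ q x * E3 a₁ a₂ a₃ q x) = T at *
    generalize Real.sqrt (a₂ - Y2 a₁ a₂ a₃ q x - r) = u at *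
    generalize Real.sqrt (N2 a₁ a₂ a₃ q x) = n at *
    generalize ‖pP a₁ a₂ a₃ q x‖ = P at *
    have hb' : B3 a₂ a₃ q x ≠ 0 := by linarith
    have hb1' := hb1.ne'
    have hx0' := hx0.ne'
    have hN2' := hN2.ne'
    have hm2' := hm2.ne'
    have hm23' := hm23.ne'
    generalize B3 a₂ a₃ q x = b3 at *
    generalize B1 a₁ a₂ q x = b1 at *
    generalize a₁ - a₂ = m2 at *
    generalize a₂ - a₃ = m23 at *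
    generalize a₂ - Y2 a₁ a₂ a₃ q x = A at *
    field_simp
    ring
  · intro x hx
    have hx0 : 0 < x := hs.trans hx.1
    have hxI : x ∈ Icc s t := ⟨hx.1.le, hx.2.le⟩
    obtain ⟨hSP, hN1, hE1, hE3, hF1, hF3, hN3⟩ := SP_pos hax h1 h2 h3 hx0 (q := q)
    have hN2 := N2_pos hax hq h1 h2 h3 hx0 (q := q)
    have hE2 := E2_mono hs hx.1.le he
    have hb : B3 a₂ a₃ q x ≤ 0 := by
      have : B3 a₂ a₃ q x < B3 a₂ a₃ q t := by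
        unfold B3
        linarith [hx.2]
      linarith
    have hb1 := B1_of_re_pos hax hx0 hre
    have hFx : 0 < -F2 a₁ a₂ a₃ q x := by linarith [hF2 x hxI]
    have hK := K2_pos hax h1 h2 h3 hx0 hb1 hb
    have hYn := hYneg x hxI
    have hYr : 0 < a₂ - Y2 a₁ a₂ a₃ q x - r := by linarith [hr.2]
    have hr0 : 0 < r := hax.pos.trans hr.1
    have hP : 0 < ‖pP a₁ a₂ a₃ q x‖ := by
      rcases (norm_nonneg (pP a₁ a₂ a₃ q x)).lt_or_eq with h | h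
      · exact h
      · rw [← h] at hSP
        simp at hSP
    have hrb := rb_pos hax h1 h2 h3 hx0 hE2
    have hL := L2 hax hq h1 h2 h3 hx0
    have hA : 0 < a₂ - Y2 a₁ a₂ a₃ q x := by linarith
    have hAb : 0 ≤ a₂ - Y2 a₁ a₂ a₃ q x - rb a₁ a₂ a₃ q x := by
      have h4 : 0 ≤ ‖pP a₁ a₂ a₃ q x‖ ^ 2 * N2 a₁ a₂ a₃ q x *
          (a₂ - Y2 a₁ a₂ a₃ q x - rb a₁ a₂ a₃ q x) := by
        rw [hL]
        positivity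
      exact nonneg_of_mul_nonneg_right h4 (by positivity)
    apply final_ineq hA (Real.sqrt_pos.mpr (by positivity)) (Real.sqrt_pos.mpr hYr)
      (Real.sqrt_pos.mpr hN2) hP hK hN2
    rw [mul_pow, mul_pow, mul_pow, mul_pow, Real.sq_sqrt (by positivity), Real.sq_sqrt hYr.le,
      Real.sq_sqrt hN2.le]
    have h5 := prod_lt hr0 hrb hYr hAb
    calc x ^ 2 * (-F2 a₁ a₂ a₃ q x * E1 a₁ a₂ a₃ q x * E3 a₁ a₂ a₃ q x) *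
          (a₂ - Y2 a₁ a₂ a₃ q x - r) =
          (‖pP a₁ a₂ a₃ q x‖ ^ 2 * N2 a₁ a₂ a₃ q x *
          (a₂ - Y2 a₁ a₂ a₃ q x - rb a₁ a₂ a₃ q x)) * (a₂ - Y2 a₁ a₂ a₃ q x - r) := by
            rw [hL]
            ring
      _ = ‖pP a₁ a₂ a₃ q x‖ ^ 2 * N2 a₁ a₂ a₃ q x *
          ((a₂ - Y2 a₁ a₂ a₃ q x - rb a₁ a₂ a₃ q x) * (a₂ - Y2 a₁ a₂ a₃ q x - r)) := by ring
      _ < ‖pP a₁ a₂ a₃ q x‖ ^ 2 * N2 a₁ a₂ a₃ q x * (a₂ - Y2 a₁ a₂ a₃ q x) ^ 2 :=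
          mul_lt_mul_of_pos_left h5 (by positivity)
      _ = (a₂ - Y2 a₁ a₂ a₃ q x) ^ 2 * N2 a₁ a₂ a₃ q x * ‖pP a₁ a₂ a₃ q x‖ ^ 2 := by ring

end path

end

end Pool.Agent.CutS3
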