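import Pool.Agent.CutS3.Wall
import Pool.Agent.CutS3.PathA

set_option autoImplicit false
set_option linter.unusedVariables false

namespace Pool.Agent.CutS3

open Set Quaternion

noncomputable section

namespace RepAux

/-- the relations between the point `x`, the auxiliary unit vector `z`, the direction of the
momentum `p` and the three numbers `b`, in adapted coordinates -/
structure Core (m n z0 z2 z3 p1 p2 p3 s c x0 x1 x2 x3 b1 b2 b3 : ℝ) : Prop where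
  e12 : b1 - b2 = m * x0
  e13 : b1 - b3 = n * x0
  r2 : b2 * z2 = m * z0 * x2
  r3 : b3 * z3 = n * z0 * x3
  hc : z0 * x0 - z2 * x2 - z3 * x3 = c
  hp1 : b2 * b3 * (s * p1) = z0 * (x1 * b2 * b3 - (n - m) * x2 * x3 * b1)
  hp2 : b2 * b3 * (s * p2) = z0 * (x2 * b1 * b3 + n * x1 * x3 * b2)
  hp3 : b2 * b3 * (s * p3) = z0 * (x3 * b1 * b2 - m * x1 * x2 * b3)

theorem core {m n z0 z2 z3 p1 p2 p3 y v s c x0 x1 x2 x3 θ : ℝ}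
    (h : IdxAt m n z0 z2 z3 p1 p2 p3 y v) (hy : y ≠ 0) (hm : m - y ≠ 0) (hn : n - y ≠ 0)
    (hθ : θ = s * v / (2 * y * (m - y) * (n - y)))
    (hx0 : x0 = c * z0 + s * (p2 * z2 + p3 * z3))
    (hx1 : x1 = s * (p1 * z0 + p2 * z3 - p3 * z2))
    (hx2 : x2 = -c * z2 + s * (p2 * z0 - p1 * z3))
    (hx3 : x3 = -c * z3 + s * (p1 * z2 + p3 * z0)) :
    Core m n z0 z2 z3 p1 p2 p3 s c x0 x1 x2 x3 (m * n * z0 * θ)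
      (m * z0 * (θ * (n - y) - c)) (n * z0 * (θ * (m - y) - c)) := by
  obtain ⟨i1, i2, i3, i4⟩ := idx_p h
  have hu := h.unit
  have hyy := h.hy
  set bn := z0 * p1 + z3 * p2 - z2 * p3 with hbn
  set α := v / (2 * y * (m - y) * (n - y)) with hα
  have hD : 2 * y * (m - y) * (n - y) ≠ 0 := by
    refine mul_ne_zero (mul_ne_zero (mul_ne_zero two_ne_zero hy) hm) hn
  have hvα : v = α * (2 * y * (m - y) * (n - y)) := by rw [hα]; field_simp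
  have hθα : θ = s * α := by rw [hθ, hα]; ring
  have q1 : p1 = -α * (n - m) * z2 * z3 + bn * z0 := by
    apply mul_left_cancel₀ hD; rw [i1, hvα]; ring
  have q2 : p2 = α * n * z0 * z2 + bn * z3 := by
    apply mul_left_cancel₀ hD; rw [i2, hvα]; ring
  have q3 : p3 = α * m * z0 * z3 - bn * z2 := by
    apply mul_left_cancel₀ hD; rw [i3, hvα]; ring
  have q4 : p2 * z2 + p3 * z3 = α * y * z0 := by
    apply mul_left_cancel₀ hD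
    rw [hvα] at i4
    linear_combination y * i4
  have k1 : x1 = s * bn := by rw [hx1, hbn]; ring
  have k0 : x0 = z0 * (c + θ * y) := by rw [hx0, q4, hθα]; ring
  have k2 : x2 = z2 * (-c + θ * (n - y)) := by
    rw [hx2, q2, q1, hθα, hyy]
    linear_combination (s * α * z2 * n) * hu
  have k3 : x3 = z3 * (-c + θ * (m - y)) := by
    rw [hx3, q3, q1, hθα, hyy]
    linear_combination (s * α * z3 * m) * hu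
  have r2 : m * z0 * (θ * (n - y) - c) * z2 = m * z0 * x2 := by rw [k2]; ring
  have r3 : n * z0 * (θ * (m - y) - c) * z3 = n * z0 * x3 := by rw [k3]; ring
  refine ⟨?_, ?_, r2, r3, ?_, ?_, ?_, ?_⟩
  · rw [k0]; ring
  · rw [k0]; ring
  · rw [k0, k2, k3, hyy]
    linear_combination (c + θ * (n * z2 ^ 2 + m * z3 ^ 2)) * hu
  · generalize hb2 : m * z0 * (θ * (n - y) - c) = b2 at *
    generalize hb3 : n * z0 * (θ * (m - y) - c) = b3 at *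
    have e1 : s * p1 = -θ * (n - m) * z2 * z3 + x1 * z0 := by
      rw [k1, hθα]; linear_combination s * q1
    rw [e1]
    linear_combination (-θ * (n - m) * (b3 * z3)) * r2 - (θ * (n - m) * (m * z0 * x2)) * r3
  · generalize hb2 : m * z0 * (θ * (n - y) - c) = b2 at *
    generalize hb3 : n * z0 * (θ * (m - y) - c) = b3 at *
    have e1 : s * p2 = θ * n * z0 * z2 + x1 * z3 := by
      rw [k1, hθα]; linear_combination s * q2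
    rw [e1]
    linear_combination (θ * n * z0 * b3) * r2 + (x1 * b2) * r3
  · generalize hb2 : m * z0 * (θ * (n - y) - c) = b2 at *
    generalize hb3 : n * z0 * (θ * (m - y) - c) = b3 at *
    have e1 : s * p3 = θ * m * z0 * z3 - x1 * z2 := by
      rw [k1, hθα]; linear_combination s * q3
    rw [e1]
    linear_combination (-x1 * b3) * r2 + (θ * m * z0 * b2) * r3

theorem b_rel2 {m n y v z0 Gb Gj : ℝ} (hy : y ≠ 0) (hm : m - y ≠ 0) (hn : n - y ≠ 0)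
    (hrel : Real.cos (Gb - Gj) * (2 * y * (m - y)) = Real.sin (Gb - Gj) * v) :
    Real.sin (Gb - Gj) * (m * z0 * (Real.sin Gb * v / (2 * y * (m - y) * (n - y)) * (n - y)
      - Real.cos Gb)) = m * z0 * Real.sin Gj := by
  have h1 : Real.sin Gb * v / (2 * y * (m - y) * (n - y)) * (n - y)
      = Real.sin Gb * (v / (2 * y * (m - y))) := by field_simp
  have h2 : Real.sin (Gb - Gj) * (v / (2 * y * (m - y))) = Real.cos (Gb - Gj) := by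
    rw [← mul_div_assoc, ← hrel]; field_simp
  have h3 : Real.sin Gj = Real.sin Gb * Real.cos (Gb - Gj) - Real.cos Gb * Real.sin (Gb - Gj) := by
    rw [← Real.sin_sub]; congr 1; ring
  rw [h1, h3, ← h2]
  ring

theorem b_rel3 {m n y v z0 Gb Gj : ℝ} (hy : y ≠ 0) (hm : m - y ≠ 0) (hn : n - y ≠ 0)
    (hrel : Real.cos (Gb - Gj) * (2 * y * (n - y)) = Real.sin (Gb - Gj) * v) :
    Real.sin (Gb - Gj) * (n * z0 * (Real.sin Gb * v / (2 * y * (m - y) * (n - y)) * (m - y)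
      - Real.cos Gb)) = n * z0 * Real.sin Gj := by
  have h1 : Real.sin Gb * v / (2 * y * (m - y) * (n - y)) * (m - y)
      = Real.sin Gb * (v / (2 * y * (n - y))) := by field_simp
  have h2 : Real.sin (Gb - Gj) * (v / (2 * y * (n - y))) = Real.cos (Gb - Gj) := by
    rw [← mul_div_assoc, ← hrel]; field_simp
  have h3 : Real.sin Gj = Real.sin Gb * Real.cos (Gb - Gj) - Real.cos Gb * Real.sin (Gb - Gj) := by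
    rw [← Real.sin_sub]; congr 1; ring
  rw [h1, h3, ← h2]
  ring

theorem cos_from {M P N s c : ℝ} (hP : 0 < P) (hs : 0 < s) (h1 : s ^ 2 + c ^ 2 = 1)
    (hM : M * s = P * c) (hN : N = M ^ 2 + P ^ 2) : M / Real.sqrt N = c := by
  have h2 : N = (P / s) ^ 2 := by
    rw [hN]; field_simp
    have : M ^ 2 * s ^ 2 = P ^ 2 * c ^ 2 := by
      rw [← mul_pow, hM, mul_pow]
    nlinarith
  have h3 : Real.sqrt N = P / s := by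
    rw [h2, Real.sqrt_sq (by positivity)]
  rw [h3]
  field_simp
  linarith

section consequences

variable {m n z0 z2 z3 p1 p2 p3 s c x0 x1 x2 x3 b1 b2 b3 y : ℝ}

theorem core_N (h : Core m n z0 z2 z3 p1 p2 p3 s c x0 x1 x2 x3 b1 b2 b3)
    (hu : z0 ^ 2 + z2 ^ 2 + z3 ^ 2 = 1) :
    z0 ^ 2 * (b2 ^ 2 * b3 ^ 2 + m ^ 2 * x2 ^ 2 * b3 ^ 2 + n ^ 2 * x3 ^ 2 * b2 ^ 2)
      = b2 ^ 2 * b3 ^ 2 := by
  have r2 := h.r2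
  have r3 := h.r3
  linear_combination (-b3 ^ 2 * (b2 * z2 + m * z0 * x2)) * r2
    - (b2 ^ 2 * (b3 * z3 + n * z0 * x3)) * r3 + b2 ^ 2 * b3 ^ 2 * hu

theorem core_M (h : Core m n z0 z2 z3 p1 p2 p3 s c x0 x1 x2 x3 b1 b2 b3) :
    z0 * (x0 * b2 * b3 - m * x2 ^ 2 * b3 - n * x3 ^ 2 * b2) = b2 * b3 * c := by
  have r2 := h.r2
  have r3 := h.r3
  have hc := h.hc
  linear_combination (x2 * b3) * r2 + (x3 * b2) * r3 + b2 * b3 * hc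

theorem core_Y (h : Core m n z0 z2 z3 p1 p2 p3 s c x0 x1 x2 x3 b1 b2 b3)
    (hu : z0 ^ 2 + z2 ^ 2 + z3 ^ 2 = 1) (hz : z0 ≠ 0)
    (hy : y = n * z2 ^ 2 + m * z3 ^ 2) :
    m * n * (m * x2 ^ 2 * b3 ^ 2 + n * x3 ^ 2 * b2 ^ 2)
      = y * (b2 ^ 2 * b3 ^ 2 + m ^ 2 * x2 ^ 2 * b3 ^ 2 + n ^ 2 * x3 ^ 2 * b2 ^ 2) := by
  have r2 := h.r2
  have r3 := h.r3
  have hN := core_N h hu
  apply mul_left_cancel₀ (pow_ne_zero 2 hz)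
  have : z0 ^ 2 * (m * n * (m * x2 ^ 2 * b3 ^ 2 + n * x3 ^ 2 * b2 ^ 2)) =
      y * (b2 ^ 2 * b3 ^ 2) := by
    rw [hy]
    linear_combination (-n * b3 ^ 2 * (b2 * z2 + m * z0 * x2)) * r2
      - (m * b2 ^ 2 * (b3 * z3 + n * z0 * x3)) * r3
  linear_combination this - y * hN

end consequences

theorem Mj {z0 Mb P b2 b3 m Gb Gj : ℝ} (hz : z0 ≠ 0) (hM : z0 * Mb = b2 * b3 * Real.cos Gb)
    (hP : z0 * P = Real.sin Gb * (b2 * b3))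
    (hr : Real.sin (Gb - Gj) * b2 = m * z0 * Real.sin Gj) :
    (Mb + m * b3) * Real.sin Gj = P * Real.cos Gj := by
  apply mul_left_cancel₀ hz
  rw [Real.sin_sub] at hr
  linear_combination Real.sin Gj * hM - Real.cos Gj * hP - b3 * hr

/-- components of `star q = rot (-G) p * z` -/
theorem comps {q p z : ℍ[ℝ]} {G : ℝ} (hp : p.re = 0) (h : star q = rot (-G) p * z) :
    q.re = Real.cos G * z.re + Real.sin G * (p.imI * z.imI + p.imJ * z.imJ + p.imK * z.imK) ∧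
    q.imI = -Real.cos G * z.imI + Real.sin G * (p.imI * z.re + p.imJ * z.imK - p.imK * z.imJ) ∧
    q.imJ = -Real.cos G * z.imJ + Real.sin G * (p.imJ * z.re + p.imK * z.imI - p.imI * z.imK) ∧
    q.imK = -Real.cos G * z.imK + Real.sin G * (p.imK * z.re + p.imI * z.imJ - p.imJ * z.imI) := by
  have r0 : (rot (-G) p).re = Real.cos G := by unfold rot; simp [hp]
  have r1 : (rot (-G) p).imI = -Real.sin G * p.imI := by unfold rot; simp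
  have r2 : (rot (-G) p).imJ = -Real.sin G * p.imJ := by unfold rot; simp
  have r3 : (rot (-G) p).imK = -Real.sin G * p.imK := by unfold rot; simp
  have h0 := congrArg QuaternionAlgebra.re h
  have h1 := congrArg QuaternionAlgebra.imI h
  have h2 := congrArg QuaternionAlgebra.imJ h
  have h3 := congrArg QuaternionAlgebra.imK h
  simp only [Quaternion.re_mul, Quaternion.re_star, r0, r1, r2, r3] at h0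
  simp only [Quaternion.imI_mul, Quaternion.imI_star, r0, r1, r2, r3] at h1
  simp only [Quaternion.imJ_mul, Quaternion.imJ_star, r0, r1, r2, r3] at h2
  simp only [Quaternion.imK_mul, Quaternion.imK_star, r0, r1, r2, r3] at h3
  refine ⟨?_, ?_, ?_, ?_⟩
  · rw [h0]; ring
  · linear_combination -h1
  · linear_combination -h2
  · linear_combination -h3

section path
variable {a₁ a₂ a₃ s : ℝ} {q : ℍ[ℝ]}

theorem idA (h1 : N1 a₁ a₂ a₃ q s ≠ 0) (h2 : N2 a₁ a₂ a₃ q s ≠ 0)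
    (hP : ‖pP a₁ a₂ a₃ q s‖ ^ 2 ≠ 0) :
    Y2 a₁ a₂ a₃ q s * ((a₁ - a₃) * (a₁ - rb a₁ a₂ a₃ q s) -
      Y1 a₁ a₂ a₃ q s * ((a₁ - rb a₁ a₂ a₃ q s) + (a₂ - a₃)))
    = (a₂ - a₃) * (rb a₁ a₂ a₃ q s - a₂) * Y1 a₁ a₂ a₃ q s := by
  have i1 := I1_eq (a₁ := a₁) (a₂ := a₂) (a₃ := a₃) (q := q) s
  have i2 := I2_eq (a₁ := a₁) (a₂ := a₂) (a₃ := a₃) (q := q) s
  have j2 := J2_eq (a₁ := a₁) (a₂ := a₂) (a₃ := a₃) (q := q) s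
  have y1b := Y1b_eq (a₁ := a₁) (a₂ := a₂) (a₃ := a₃) (q := q) s
  rw [Y1_def', Y2_def']
  unfold rb
  generalize N1 a₁ a₂ a₃ q s = n1 at *
  generalize N2 a₁ a₂ a₃ q s = n2 at *
  generalize ‖pP a₁ a₂ a₃ q s‖ ^ 2 = P at *
  generalize HH a₁ a₂ a₃ (pP a₁ a₂ a₃ q s) = H at *
  generalize E1 a₁ a₂ a₃ q s = e1 at *
  generalize E2 a₁ a₂ a₃ q s = e2 at *
  generalize E3 a₁ a₂ a₃ q s = e3 at *
  generalize F1 a₁ a₂ a₃ q s = f1 at *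
  generalize F2 a₁ a₂ a₃ q s = f2 at *
  have k1 : a₁ - H / P = e1 * f1 / P := by field_simp; linarith
  have k2 : H / P - a₂ = e2 * f2 / P := by field_simp; linarith
  rw [k1, k2]
  field_simp
  have key : e1 * n1 - (a₁ - a₂) * (e1 * f1 + (a₂ - a₃) * P) = e2 * n2 := by
    linear_combination e1 * y1b + j2
  linear_combination (a₁ - a₂) * (a₂ - a₃) * f2 * (a₁ - a₃) * f1 * key

theorem idB (h1 : N1 a₁ a₂ a₃ q s ≠ 0) (h3 : N3 a₁ a₂ a₃ q s ≠ 0)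
    (hP : ‖pP a₁ a₂ a₃ q s‖ ^ 2 ≠ 0) :
    Z3 a₁ a₂ a₃ q s * ((a₁ - a₂) * (a₁ - rb a₁ a₂ a₃ q s) -
      Y1 a₁ a₂ a₃ q s * ((a₁ - rb a₁ a₂ a₃ q s) - (a₂ - a₃)))
    = (a₂ - a₃) * (rb a₁ a₂ a₃ q s - a₃) * Y1 a₁ a₂ a₃ q s := by
  have i1 := I1_eq (a₁ := a₁) (a₂ := a₂) (a₃ := a₃) (q := q) s
  have i3 := I3_eq (a₁ := a₁) (a₂ := a₂) (a₃ := a₃) (q := q) s
  have j3 := J3_eq (a₁ := a₁) (a₂ := a₂) (a₃ := a₃) (q := q) s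
  have y1a := Y1a_eq (a₁ := a₁) (a₂ := a₂) (a₃ := a₃) (q := q) s
  rw [Y1_def', Z3_def']
  unfold rb
  generalize N1 a₁ a₂ a₃ q s = n1 at *
  generalize N3 a₁ a₂ a₃ q s = n3 at *
  generalize ‖pP a₁ a₂ a₃ q s‖ ^ 2 = P at *
  generalize HH a₁ a₂ a₃ (pP a₁ a₂ a₃ q s) = H at *
  generalize E1 a₁ a₂ a₃ q s = e1 at *
  generalize E2 a₁ a₂ a₃ q s = e2 at *
  generalize E3 a₁ a₂ a₃ q s = e3 at *
  generalize F1 a₁ a₂ a₃ q s = f1 at *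
  generalize F3 a₁ a₂ a₃ q s = f3 at *
  have k1 : a₁ - H / P = e1 * f1 / P := by field_simp; linarith
  have k3 : H / P - a₃ = e3 * f3 / P := by field_simp; linarith
  rw [k1, k3]
  field_simp
  have key : e1 * n1 - (a₁ - a₃) * (e1 * f1 - (a₂ - a₃) * P) = e3 * n3 := by
    linear_combination e1 * y1a - j3
  linear_combination (a₁ - a₃) * (a₂ - a₃) * f3 * (a₁ - a₂) * f1 * key

/-- `p = σ • pP` -/
theorem of_smul {p : ℍ[ℝ]} (hp : p ∈ Un) {σ : ℝ} (hσ : 0 < σ)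
    (h : p = σ • pP a₁ a₂ a₃ q s) :
    ‖pP a₁ a₂ a₃ q s‖ = σ⁻¹ ∧ rb a₁ a₂ a₃ q s = HH a₁ a₂ a₃ p := by
  have h1 : ‖pP a₁ a₂ a₃ q s‖ = σ⁻¹ := by
    have h2 := hp.2
    rw [h, norm_smul, Real.norm_eq_abs, abs_of_pos hσ] at h2
    field_simp
    linarith
  refine ⟨h1, ?_⟩
  unfold rb
  rw [h1, h]
  unfold HH
  simp only [Quaternion.imI_smul, Quaternion.imJ_smul, Quaternion.imK_smul, smul_eq_mul]
  field_simp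

end path

theorem v1_sign {a₁ a₂ a₃ r τ : ℝ} (h12 : a₂ < a₁) (h23 : a₃ < a₂) (hr : r ∈ Ico a₃ a₁)
    (h : Per a₁ a₂ a₃ r τ) :
    (First a₁ a₂ a₃ r τ → 0 ≤ v1 a₁ a₂ a₃ r τ) ∧
    (r ≠ a₂ → Ts a₁ a₂ a₃ r < τ → v1 a₁ a₂ a₃ r τ < 0) := by
  constructor
  · intro hF
    by_cases hr2 : r = a₂
    · exact (v1_pos h12 h23 hr h.1 fun h' => absurd hr2 h').le
    · rcases lt_or_eq_of_le (hF.2 hr2) with hlt | heq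
      · exact (v1_pos h12 h23 hr h.1 fun _ => hlt).le
      · have h1 := (y_refl h12 h23 hr hr2 τ).2.2.2.1
        rw [heq, show 2 * Ts a₁ a₂ a₃ r - Ts a₁ a₂ a₃ r = Ts a₁ a₂ a₃ r by ring] at h1
        rw [heq]; linarith
  · intro hr2 hT
    have h1 := (y_refl h12 h23 hr hr2 τ).2.2.2.1
    have hT2 := h.2 hr2
    have h2 := v1_pos (τ := 2 * Ts a₁ a₂ a₃ r - τ) h12 h23 hr (by linarith)
      (fun _ => by linarith)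
    linarith

theorem v3_sign {a₁ a₂ a₃ r τ : ℝ} (h12 : a₂ < a₁) (h23 : a₃ < a₂) (hr : r ∈ Ioo a₃ a₁)
    (h : Per a₁ a₂ a₃ r τ) :
    (First a₁ a₂ a₃ r τ → v3 a₁ a₂ a₃ r τ ≤ 0) ∧
    (r ≠ a₂ → Ts a₁ a₂ a₃ r < τ → 0 < v3 a₁ a₂ a₃ r τ) := by
  have hr' : r ∈ Ico a₃ a₁ := ⟨hr.1.le, hr.2⟩
  constructor
  · intro hF
    by_cases hr2 : r = a₂
    · exact (v3_neg h12 h23 hr h.1 fun h' => absurd hr2 h').le
    · rcases lt_or_eq_of_le (hF.2 hr2) with hlt | heq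
      · exact (v3_neg h12 h23 hr h.1 fun _ => hlt).le
      · have h1 := (y_refl h12 h23 hr' hr2 τ).2.2.2.2.2
        rw [heq, show 2 * Ts a₁ a₂ a₃ r - Ts a₁ a₂ a₃ r = Ts a₁ a₂ a₃ r by ring] at h1
        rw [heq]; linarith
  · intro hr2 hT
    have h1 := (y_refl h12 h23 hr' hr2 τ).2.2.2.2.2
    have hT2 := h.2 hr2
    have h2 := v3_neg (τ := 2 * Ts a₁ a₂ a₃ r - τ) h12 h23 hr (by linarith)
      (fun _ => by linarith)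
    linarith

theorem pP_comps (a₁ a₂ a₃ : ℝ) (q : ℍ[ℝ]) (β : ℝ) :
    (pP a₁ a₂ a₃ q β).re = 0 ∧
    (pP a₁ a₂ a₃ q β).imI = q.imI * β * B3 a₂ a₃ q β - (a₂ - a₃) * q.imJ * q.imK * B1 a₁ a₂ q β ∧
    (pP a₁ a₂ a₃ q β).imJ = q.imJ * B1 a₁ a₂ q β * B3 a₂ a₃ q β + (a₁ - a₃) * q.imI * q.imK * β ∧
    (pP a₁ a₂ a₃ q β).imK = q.imK * B1 a₁ a₂ q β * β - (a₁ - a₂) * q.imI * q.imJ * B3 a₂ a₃ q β :=
  ⟨rfl, rfl, rfl, rfl⟩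

/-- base index `1` -/
theorem rep_base1 {a₁ a₂ a₃ : ℝ} (hax : Ax a₁ a₂ a₃) {n : ℍ[ℝ]} (hn : n ∈ Un) {τ : ℝ}
    (h0 : 0 < τ)
    (hτ : τ < tcut a₁ a₂ a₃ (HH a₁ a₂ a₃ n)) (h1 : 0 < (geo a₁ a₂ a₃ n τ).imI)
    (h2 : 0 < (geo a₁ a₂ a₃ n τ).imJ) (h3 : 0 < (geo a₁ a₂ a₃ n τ).imK)
    (hr : HH a₁ a₂ a₃ n ∈ Ico a₂ a₁) :
    ∃ β, RepAt a₁ a₂ a₃ (geo a₁ a₂ a₃ n τ) n τ β := by
  have h12 := hax.h12
  have h23 := hax.h23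
  have hr1 : HH a₁ a₂ a₃ n ∈ Ico a₃ a₁ := ⟨h23.le.trans hr.1, hr.2⟩
  have hr1c : HH a₁ a₂ a₃ n ∈ Icc a₃ a₁ := ⟨hr1.1, hr1.2.le⟩
  have hPer := tcut_per hax hr1 h0 hτ.le
  obtain ⟨⟨hG10, hG1p⟩, ⟨hG20, hG2p⟩, ⟨hG30, hG3p⟩⟩ := tcut_G hax hr1c h0 hτ
  have hs1 := Real.sin_pos_of_pos_of_lt_pi hG10 hG1p
  have hs2 := Real.sin_pos_of_pos_of_lt_pi hG20 hG2p
  have hs3 := Real.sin_pos_of_pos_of_lt_pi hG30 hG3p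
  have hq : ‖geo a₁ a₂ a₃ n τ‖ = 1 := norm_geo n τ
  have hpU : bm n (geo a₁ a₂ a₃ n τ) ∈ Un := bg_mem_Un hn τ
  have hHp : HH a₁ a₂ a₃ (bm n (geo a₁ a₂ a₃ n τ)) = HH a₁ a₂ a₃ n := HH_bg hn.1 τ
  obtain ⟨hz1, hz2, hI⟩ := index1 a₁ a₂ a₃ hn τ
  have e1 := star_eq (z := zz1 a₁ a₂ a₃ n τ) hq hn rfl
  have hz0 := zz1_re hax hn hr1 hPer (Or.inl hr.1)
  obtain ⟨c0, c1', c2', c3'⟩ := comps hpU.1 e1
  have hy := y1_pos h12 h23 hr1 hPer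
  have hm := y1_lt_m2 h12 h23 hr1 hPer (Or.inl hr.1)
  have hnn : y1 a₁ a₂ a₃ (HH a₁ a₂ a₃ n) τ < a₁ - a₃ := by linarith
  have hR12 := rel12 h12 h23 hr1 hPer
  have hR13 := (rel13 h12 h23 hr1 hPer).2.2
  obtain ⟨hD2, hD2'⟩ := rel12I h12 h23 ⟨hr.1, hr.2⟩ hPer
  obtain ⟨hD3, hD3', -⟩ := rel13 h12 h23 hr1 hPer
  have hsD2 := Real.sin_pos_of_pos_of_lt_pi hD2 hD2'
  have hsD3 := Real.sin_pos_of_pos_of_lt_pi hD3 hD3'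
  have mo2 := moebius2 h12 h23 hr1 τ
  have mo3 := moebius3 h12 h23 hr1 τ
  have hu := hI.unit
  have hyy := hI.hy
  -- the theta
  have hcore := core (θ := Real.sin (G1 a₁ a₂ a₃ (HH a₁ a₂ a₃ n) τ) *
    v1 a₁ a₂ a₃ (HH a₁ a₂ a₃ n) τ / (2 * y1 a₁ a₂ a₃ (HH a₁ a₂ a₃ n) τ *
      (a₁ - a₂ - y1 a₁ a₂ a₃ (HH a₁ a₂ a₃ n) τ) *
      (a₁ - a₃ - y1 a₁ a₂ a₃ (HH a₁ a₂ a₃ n) τ)))
    (s := Real.sin (G1 a₁ a₂ a₃ (HH a₁ a₂ a₃ n) τ))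
    (c := Real.cos (G1 a₁ a₂ a₃ (HH a₁ a₂ a₃ n) τ))
    (x0 := (geo a₁ a₂ a₃ n τ).re) (x1 := (geo a₁ a₂ a₃ n τ).imI)
    (x2 := (geo a₁ a₂ a₃ n τ).imJ) (x3 := (geo a₁ a₂ a₃ n τ).imK)
    hI hy.ne' (by linarith : (0:ℝ) < a₁ - a₂ - y1 a₁ a₂ a₃ (HH a₁ a₂ a₃ n) τ).ne'
    (by linarith : (0:ℝ) < a₁ - a₃ - y1 a₁ a₂ a₃ (HH a₁ a₂ a₃ n) τ).ne' rfl
    (by rw [c0, hz2]; unfold bg; ring) (by rw [c1', hz2]; unfold bg; ring)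
    (by rw [c2', hz2]; unfold bg; ring) (by rw [c3', hz2]; unfold bg; ring)
  obtain ⟨θ, hθ⟩ : ∃ θ, θ = Real.sin (G1 a₁ a₂ a₃ (HH a₁ a₂ a₃ n) τ) *
    v1 a₁ a₂ a₃ (HH a₁ a₂ a₃ n) τ / (2 * y1 a₁ a₂ a₃ (HH a₁ a₂ a₃ n) τ *
      (a₁ - a₂ - y1 a₁ a₂ a₃ (HH a₁ a₂ a₃ n) τ) *
      (a₁ - a₃ - y1 a₁ a₂ a₃ (HH a₁ a₂ a₃ n) τ)) := ⟨_, rfl⟩
  have hb2 := b_rel2 (z0 := (zz1 a₁ a₂ a₃ n τ).re) hy.ne'
    (by linarith : (0:ℝ) < a₁ - a₂ - y1 a₁ a₂ a₃ (HH a₁ a₂ a₃ n) τ).ne'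
    (by linarith : (0:ℝ) < a₁ - a₃ - y1 a₁ a₂ a₃ (HH a₁ a₂ a₃ n) τ).ne' hR12
  have hb3 := b_rel3 (z0 := (zz1 a₁ a₂ a₃ n τ).re) hy.ne'
    (by linarith : (0:ℝ) < a₁ - a₂ - y1 a₁ a₂ a₃ (HH a₁ a₂ a₃ n) τ).ne'
    (by linarith : (0:ℝ) < a₁ - a₃ - y1 a₁ a₂ a₃ (HH a₁ a₂ a₃ n) τ).ne' hR13
  rw [← hθ] at hcore hb2 hb3
  -- abbreviations
  have hθpos : 0 ≤ v1 a₁ a₂ a₃ (HH a₁ a₂ a₃ n) τ → 0 ≤ θ := by
    intro hv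
    rw [hθ]
    apply div_nonneg (mul_nonneg hs1.le hv)
    apply mul_nonneg (mul_nonneg (by linarith) (by linarith)) (by linarith)
  have hθneg : v1 a₁ a₂ a₃ (HH a₁ a₂ a₃ n) τ < 0 → θ < 0 := by
    intro hv
    rw [hθ]
    apply div_neg_of_neg_of_pos (mul_neg_of_pos_of_neg hs1 hv)
    apply mul_pos (mul_pos (by linarith) (by linarith)) (by linarith)
  have hm2 : 0 < a₁ - a₂ := by linarith
  have hm3 : 0 < a₁ - a₃ := by linarith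
  have hm23 : 0 < a₂ - a₃ := by linarith
  obtain ⟨b1, hb1e⟩ : ∃ b, b = (a₁ - a₂) * (a₁ - a₃) * (zz1 a₁ a₂ a₃ n τ).re * θ := ⟨_, rfl⟩
  obtain ⟨b2, hb2e⟩ : ∃ b, b = (a₁ - a₂) * (zz1 a₁ a₂ a₃ n τ).re *
    (θ * (a₁ - a₃ - y1 a₁ a₂ a₃ (HH a₁ a₂ a₃ n) τ) -
      Real.cos (G1 a₁ a₂ a₃ (HH a₁ a₂ a₃ n) τ)) := ⟨_, rfl⟩
  obtain ⟨b3, hb3e⟩ : ∃ b, b = (a₁ - a₃) * (zz1 a₁ a₂ a₃ n τ).re *
    (θ * (a₁ - a₂ - y1 a₁ a₂ a₃ (HH a₁ a₂ a₃ n) τ) -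
      Real.cos (G1 a₁ a₂ a₃ (HH a₁ a₂ a₃ n) τ)) := ⟨_, rfl⟩
  rw [← hb1e, ← hb2e, ← hb3e] at hcore
  rw [← hb2e] at hb2
  rw [← hb3e] at hb3
  have hb2pos : 0 < b2 := by
    have : 0 < Real.sin (G1 a₁ a₂ a₃ (HH a₁ a₂ a₃ n) τ - G2 a₁ a₂ a₃ (HH a₁ a₂ a₃ n) τ) * b2 := by
      rw [hb2]; positivity
    exact (pos_iff_pos_of_mul_pos this).mp hsD2
  have hb3pos : 0 < b3 := by
    have : 0 < Real.sin (G1 a₁ a₂ a₃ (HH a₁ a₂ a₃ n) τ - G3 a₁ a₂ a₃ (HH a₁ a₂ a₃ n) τ) * b3 := by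
      rw [hb3]; positivity
    exact (pos_iff_pos_of_mul_pos this).mp hsD3
  have hB1 : B1 a₁ a₂ (geo a₁ a₂ a₃ n τ) b2 = b1 := by
    unfold B1; linarith [hcore.e12]
  have hB3 : B3 a₂ a₃ (geo a₁ a₂ a₃ n τ) b2 = b3 := by
    unfold B3; linarith [hcore.e12, hcore.e13]
  have hb1nn : 0 ≤ v1 a₁ a₂ a₃ (HH a₁ a₂ a₃ n) τ → 0 ≤ b1 := by
    intro hv
    rw [hb1e]; have := hθpos hv; positivity
  have hb1neg : v1 a₁ a₂ a₃ (HH a₁ a₂ a₃ n) τ < 0 → b1 < 0 := by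
    intro hv
    rw [hb1e]; exact mul_neg_of_pos_of_neg (by positivity) (hθneg hv)
  have hcN := core_N hcore hu
  have hcM := core_M hcore
  have hcY := core_Y hcore hu hz0.ne' hyy
  -- the momentum
  have hσ : 0 < (zz1 a₁ a₂ a₃ n τ).re /
    (Real.sin (G1 a₁ a₂ a₃ (HH a₁ a₂ a₃ n) τ) * (b2 * b3)) := by positivity
  have hmom : bm n (geo a₁ a₂ a₃ n τ) = ((zz1 a₁ a₂ a₃ n τ).re /
    (Real.sin (G1 a₁ a₂ a₃ (HH a₁ a₂ a₃ n) τ) * (b2 * b3))) •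
      pP a₁ a₂ a₃ (geo a₁ a₂ a₃ n τ) b2 := by
    have hp1 := hcore.hp1
    have hp2 := hcore.hp2
    have hp3 := hcore.hp3
    unfold bg at hp1 hp2 hp3
    obtain ⟨g0, g1, g2, g3⟩ := pP_comps a₁ a₂ a₃ (geo a₁ a₂ a₃ n τ) b2
    rw [hB1, hB3] at g1 g2 g3
    ext
    · rw [Quaternion.re_smul, g0, hpU.1, smul_zero]
    · rw [Quaternion.imI_smul, g1, smul_eq_mul]
      field_simp
      linear_combination hp1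
    · rw [Quaternion.imJ_smul, g2, smul_eq_mul]
      field_simp
      linear_combination hp2
    · rw [Quaternion.imK_smul, g3, smul_eq_mul]
      field_simp
      linear_combination hp3
  obtain ⟨hPn, hrb⟩ := of_smul hpU hσ hmom
  have hP0 : 0 < ‖pP a₁ a₂ a₃ (geo a₁ a₂ a₃ n τ) b2‖ := by rw [hPn]; positivity
  have hzP : (zz1 a₁ a₂ a₃ n τ).re * ‖pP a₁ a₂ a₃ (geo a₁ a₂ a₃ n τ) b2‖
      = Real.sin (G1 a₁ a₂ a₃ (HH a₁ a₂ a₃ n) τ) * (b2 * b3) := by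
    rw [hPn]; field_simp
  have hM1 : (zz1 a₁ a₂ a₃ n τ).re * M1 a₁ a₂ a₃ (geo a₁ a₂ a₃ n τ) b2
      = b2 * b3 * Real.cos (G1 a₁ a₂ a₃ (HH a₁ a₂ a₃ n) τ) := by
    unfold M1; rw [hB3]; exact hcM
  have hN1pos : 0 < N1 a₁ a₂ a₃ (geo a₁ a₂ a₃ n τ) b2 :=
    (SP_pos hax h1 h2 h3 hb2pos).2.1
  have hN3pos : 0 < N3 a₁ a₂ a₃ (geo a₁ a₂ a₃ n τ) b2 :=
    (SP_pos hax h1 h2 h3 hb2pos).2.2.2.2.2.2
  have hN2pos : 0 < N2 a₁ a₂ a₃ (geo a₁ a₂ a₃ n τ) b2 := N2_pos hax hq h1 h2 h3 hb2pos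
  have hrb' : rb a₁ a₂ a₃ (geo a₁ a₂ a₃ n τ) b2 = HH a₁ a₂ a₃ n := hrb.trans hHp
  have hY1 : Y1 a₁ a₂ a₃ (geo a₁ a₂ a₃ n τ) b2 = y1 a₁ a₂ a₃ (HH a₁ a₂ a₃ n) τ := by
    unfold Y1
    rw [div_eq_iff hN1pos.ne']
    unfold N1
    rw [hB3]; exact hcY
  have hE2 : 0 < E2 a₁ a₂ a₃ (geo a₁ a₂ a₃ n τ) b2 := by
    have hh1 := Y1a_eq (a₁ := a₁) (a₂ := a₂) (a₃ := a₃) (q := geo a₁ a₂ a₃ n τ) b2
    have hh2 := Y1_def' (a₁ := a₁) (a₂ := a₂) (a₃ := a₃) (q := geo a₁ a₂ a₃ n τ) b2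
    rw [hY1, eq_div_iff hN1pos.ne'] at hh2
    rw [hB3] at hh1
    have hh3 : (a₁ - a₂) * (E2 a₁ a₂ a₃ (geo a₁ a₂ a₃ n τ) b2 * b3 ^ 2)
        = (a₁ - a₂ - y1 a₁ a₂ a₃ (HH a₁ a₂ a₃ n) τ) * N1 a₁ a₂ a₃ (geo a₁ a₂ a₃ n τ) b2 := by
      rw [← hh1]; linear_combination hh2
    have hh4 : 0 < (a₁ - a₂) * (E2 a₁ a₂ a₃ (geo a₁ a₂ a₃ n τ) b2 * b3 ^ 2) := by
      rw [hh3]; exact mul_pos (by linarith) hN1pos
    have hh5 := (pos_iff_pos_of_mul_pos hh4).mp hm2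
    exact (pos_iff_pos_of_mul_pos hh5).mpr (by positivity)
  have hP2 : ‖pP a₁ a₂ a₃ (geo a₁ a₂ a₃ n τ) b2‖ ^ 2 ≠ 0 := by positivity
  have hA := idA hN1pos.ne' hN2pos.ne' hP2
  have hB := idB hN1pos.ne' hN3pos.ne' hP2
  rw [hY1, hrb'] at hA hB
  refine ⟨b2, hb2pos, hE2, ⟨_, hσ, hmom⟩, hrb', hY1, ?_, ?_, ?_, ?_, ?_, ?_⟩
  · -- Y2
    by_cases hr2 : HH a₁ a₂ a₃ n = a₂
    · have hi2 := I2_eq (a₁ := a₁) (a₂ := a₂) (a₃ := a₃) (q := geo a₁ a₂ a₃ n τ) b2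
      have hi3 : HH a₁ a₂ a₃ (pP a₁ a₂ a₃ (geo a₁ a₂ a₃ n τ) b2)
          = a₂ * ‖pP a₁ a₂ a₃ (geo a₁ a₂ a₃ n τ) b2‖ ^ 2 := by
        rw [hr2] at hrb'
        unfold rb at hrb'
        rwa [div_eq_iff hP2] at hrb'
      rw [hi3, sub_self] at hi2
      have hF2 : F2 a₁ a₂ a₃ (geo a₁ a₂ a₃ n τ) b2 = 0 :=
        (mul_eq_zero.mp hi2.symm).resolve_left hE2.ne'
      rw [Y2_def', hF2, hr2]
      unfold y2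
      rw [sub_self, yf_zero]
      simp
    · have hD := mo2.2.2 hr2
      apply mul_right_cancel₀ hD.ne'
      rw [hA, mo2.1]
  · -- Z3
    apply mul_right_cancel₀ mo3.2.ne'
    rw [hB, mo3.1]
  · -- c1
    unfold c1
    refine cos_from hP0 hs1 (Real.sin_sq_add_cos_sq _) ?_ (N1_eq hq b2)
    apply mul_left_cancel₀ hz0.ne'
    linear_combination Real.sin (G1 a₁ a₂ a₃ (HH a₁ a₂ a₃ n) τ) * hM1
      - Real.cos (G1 a₁ a₂ a₃ (HH a₁ a₂ a₃ n) τ) * hzP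
  · -- c2
    unfold c2
    refine cos_from hP0 hs2 (Real.sin_sq_add_cos_sq _) ?_ (N2_eq hq b2)
    rw [M2_eq hq, hB3]
    exact Mj hz0.ne' hM1 hzP hb2
  · -- c3
    unfold c3
    refine cos_from hP0 hs3 (Real.sin_sq_add_cos_sq _) ?_ (N3_eq hq b2)
    rw [M3_eq hq]
    exact Mj (b2 := b3) (b3 := b2) hz0.ne' (by rw [hM1]; ring) (by rw [hzP]; ring) hb3
  · -- half
    rw [hB1, hB3]
    have hv := v1_sign h12 h23 hr1 hPer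
    by_cases hF : First a₁ a₂ a₃ (HH a₁ a₂ a₃ n) τ
    · left
      exact ⟨hb1nn (hv.1 hF), hb3pos.le, fun _ => hb3pos, hF⟩
    · right; left
      have hr2 : HH a₁ a₂ a₃ n ≠ a₂ := by
        intro hc
        exact hF ⟨h0.le, fun h' => absurd hc h'⟩
      have hT : Ts a₁ a₂ a₃ (HH a₁ a₂ a₃ n) < τ := by
        by_contra hc
        push Not at hc
        exact hF ⟨h0.le, fun _ => hc⟩
      exact ⟨hb1neg (hv.2 hr2 hT), lt_of_le_of_ne hr.1 (Ne.symm hr2), hT⟩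

theorem coef_pos {m ra k z : ℝ} (hm : 0 < m) (ha : 0 < ra) (hk : 0 < k) (hz0 : 0 ≤ z)
    (hz : z ≤ ra) : 0 < m * ra + z * (k - m) := by
  have h1 := mul_nonneg hm.le (sub_nonneg.2 hz)
  rcases hz0.eq_or_lt with h | h
  · rw [← h]; have := mul_pos hm ha; linarith
  · have := mul_pos h hk; linarith

/-- base index `3` -/
theorem rep_base3 {a₁ a₂ a₃ : ℝ} (hax : Ax a₁ a₂ a₃) {n : ℍ[ℝ]} (hn : n ∈ Un) {τ : ℝ}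
    (h0 : 0 < τ)
    (hτ : τ < tcut a₁ a₂ a₃ (HH a₁ a₂ a₃ n)) (h1 : 0 < (geo a₁ a₂ a₃ n τ).imI)
    (h2 : 0 < (geo a₁ a₂ a₃ n τ).imJ) (h3 : 0 < (geo a₁ a₂ a₃ n τ).imK)
    (hr : HH a₁ a₂ a₃ n ∈ Ioo a₃ a₂) :
    ∃ β, RepAt a₁ a₂ a₃ (geo a₁ a₂ a₃ n τ) n τ β := by
  have h12 := hax.h12
  have h23 := hax.h23
  have hrT : HH a₁ a₂ a₃ n ∈ Ico a₃ a₂ := ⟨hr.1.le, hr.2⟩
  have hr1 : HH a₁ a₂ a₃ n ∈ Ico a₃ a₁ := ⟨hr.1.le, hr.2.trans h12⟩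
  have hr1o : HH a₁ a₂ a₃ n ∈ Ioo a₃ a₁ := ⟨hr.1, hr.2.trans h12⟩
  have hr1c : HH a₁ a₂ a₃ n ∈ Icc a₃ a₁ := ⟨hr1.1, hr1.2.le⟩
  have hr2 : HH a₁ a₂ a₃ n ≠ a₂ := hr.2.ne
  have hrlo := hr.1
  have hrhi := hr.2
  have hPer := tcut_per hax hr1 h0 hτ.le
  obtain ⟨⟨hG10, hG1p⟩, ⟨hG20, hG2p⟩, ⟨hG30, hG3p⟩⟩ := tcut_G hax hr1c h0 hτ
  have hs1 := Real.sin_pos_of_pos_of_lt_pi hG10 hG1p
  have hs2 := Real.sin_pos_of_pos_of_lt_pi hG20 hG2p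
  have hs3 := Real.sin_pos_of_pos_of_lt_pi hG30 hG3p
  have hq : ‖geo a₁ a₂ a₃ n τ‖ = 1 := norm_geo n τ
  have hpU : bm n (geo a₁ a₂ a₃ n τ) ∈ Un := bg_mem_Un hn τ
  have hHp : HH a₁ a₂ a₃ (bm n (geo a₁ a₂ a₃ n τ)) = HH a₁ a₂ a₃ n := HH_bg hn.1 τ
  obtain ⟨hz1, hz2, hI⟩ := index3 a₁ a₂ a₃ hn τ
  have e1 := star_eq (z := zz3 a₁ a₂ a₃ n τ) hq hn rfl
  have hz0 := zz3_re hax hn hrT (τ := τ)
  obtain ⟨c0, c1', c2', c3'⟩ := comps hpU.1 e1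
  have hy := y3_neg h12 h23 hr1o hPer
  have hylo := (y3_range h12 h23 hr1c τ).2.1
  have hm : a₃ - a₁ - y3 a₁ a₂ a₃ (HH a₁ a₂ a₃ n) τ < 0 := by linarith
  have hnn : a₃ - a₂ - y3 a₁ a₂ a₃ (HH a₁ a₂ a₃ n) τ < 0 := by linarith
  have hR31 : Real.cos (G3 a₁ a₂ a₃ (HH a₁ a₂ a₃ n) τ - G1 a₁ a₂ a₃ (HH a₁ a₂ a₃ n) τ) *
      (2 * y3 a₁ a₂ a₃ (HH a₁ a₂ a₃ n) τ * (a₃ - a₁ - y3 a₁ a₂ a₃ (HH a₁ a₂ a₃ n) τ))
      = Real.sin (G3 a₁ a₂ a₃ (HH a₁ a₂ a₃ n) τ - G1 a₁ a₂ a₃ (HH a₁ a₂ a₃ n) τ) *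
        v3 a₁ a₂ a₃ (HH a₁ a₂ a₃ n) τ := by
    have h := rel31 h12 h23 hr1 hPer
    rw [← neg_sub (G1 a₁ a₂ a₃ (HH a₁ a₂ a₃ n) τ) (G3 a₁ a₂ a₃ (HH a₁ a₂ a₃ n) τ),
      Real.cos_neg, Real.sin_neg]
    linear_combination -h
  have hR32 : Real.cos (G3 a₁ a₂ a₃ (HH a₁ a₂ a₃ n) τ - G2 a₁ a₂ a₃ (HH a₁ a₂ a₃ n) τ) *
      (2 * y3 a₁ a₂ a₃ (HH a₁ a₂ a₃ n) τ * (a₃ - a₂ - y3 a₁ a₂ a₃ (HH a₁ a₂ a₃ n) τ))
      = Real.sin (G3 a₁ a₂ a₃ (HH a₁ a₂ a₃ n) τ - G2 a₁ a₂ a₃ (HH a₁ a₂ a₃ n) τ) *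
        v3 a₁ a₂ a₃ (HH a₁ a₂ a₃ n) τ := by
    have h := rel32 h12 h23 hr1 hPer
    rw [← neg_sub (G2 a₁ a₂ a₃ (HH a₁ a₂ a₃ n) τ) (G3 a₁ a₂ a₃ (HH a₁ a₂ a₃ n) τ),
      Real.cos_neg, Real.sin_neg]
    linear_combination -h
  obtain ⟨hD3, hD3', -⟩ := rel13 h12 h23 hr1 hPer
  obtain ⟨hD2, hD2'⟩ := rel23T h12 h23 hrT hPer
  have hsD1 : Real.sin (G3 a₁ a₂ a₃ (HH a₁ a₂ a₃ n) τ - G1 a₁ a₂ a₃ (HH a₁ a₂ a₃ n) τ) < 0 := by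
    rw [← neg_sub, Real.sin_neg]
    linarith [Real.sin_pos_of_pos_of_lt_pi hD3 hD3']
  have hsD2 : Real.sin (G3 a₁ a₂ a₃ (HH a₁ a₂ a₃ n) τ - G2 a₁ a₂ a₃ (HH a₁ a₂ a₃ n) τ) < 0 := by
    rw [← neg_sub, Real.sin_neg]
    linarith [Real.sin_pos_of_pos_of_lt_pi hD2 hD2']
  have mo2 := moebius2 h12 h23 hr1 τ
  have mo3 := moebius3 h12 h23 hr1 τ
  have hu := hI.unit
  have hyy := hI.hy
  -- the theta
  have hcore := core (θ := Real.sin (G3 a₁ a₂ a₃ (HH a₁ a₂ a₃ n) τ) *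
    v3 a₁ a₂ a₃ (HH a₁ a₂ a₃ n) τ / (2 * y3 a₁ a₂ a₃ (HH a₁ a₂ a₃ n) τ *
      (a₃ - a₁ - y3 a₁ a₂ a₃ (HH a₁ a₂ a₃ n) τ) *
      (a₃ - a₂ - y3 a₁ a₂ a₃ (HH a₁ a₂ a₃ n) τ)))
    (s := Real.sin (G3 a₁ a₂ a₃ (HH a₁ a₂ a₃ n) τ))
    (c := Real.cos (G3 a₁ a₂ a₃ (HH a₁ a₂ a₃ n) τ))
    (x0 := (geo a₁ a₂ a₃ n τ).re) (x1 := (geo a₁ a₂ a₃ n τ).imK)
    (x2 := (geo a₁ a₂ a₃ n τ).imI) (x3 := (geo a₁ a₂ a₃ n τ).imJ)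
    hI hy.ne hm.ne hnn.ne rfl
    (by rw [c0, hz2]; unfold bg; ring) (by rw [c3', hz2]; unfold bg; ring)
    (by rw [c1', hz2]; unfold bg; ring) (by rw [c2', hz2]; unfold bg; ring)
  obtain ⟨θ, hθ⟩ : ∃ θ, θ = Real.sin (G3 a₁ a₂ a₃ (HH a₁ a₂ a₃ n) τ) *
    v3 a₁ a₂ a₃ (HH a₁ a₂ a₃ n) τ / (2 * y3 a₁ a₂ a₃ (HH a₁ a₂ a₃ n) τ *
      (a₃ - a₁ - y3 a₁ a₂ a₃ (HH a₁ a₂ a₃ n) τ) *
      (a₃ - a₂ - y3 a₁ a₂ a₃ (HH a₁ a₂ a₃ n) τ)) := ⟨_, rfl⟩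
  have hb2 := b_rel2 (z0 := (zz3 a₁ a₂ a₃ n τ).re) hy.ne hm.ne hnn.ne hR31
  have hb3 := b_rel3 (z0 := (zz3 a₁ a₂ a₃ n τ).re) hy.ne hm.ne hnn.ne hR32
  rw [← hθ] at hcore hb2 hb3
  have hden : 2 * y3 a₁ a₂ a₃ (HH a₁ a₂ a₃ n) τ *
      (a₃ - a₁ - y3 a₁ a₂ a₃ (HH a₁ a₂ a₃ n) τ) *
      (a₃ - a₂ - y3 a₁ a₂ a₃ (HH a₁ a₂ a₃ n) τ) < 0 :=
    mul_neg_of_pos_of_neg (mul_pos_of_neg_of_neg (by linarith) hm) hnn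
  have hθpos : v3 a₁ a₂ a₃ (HH a₁ a₂ a₃ n) τ ≤ 0 → 0 ≤ θ := by
    intro hv
    rw [hθ]
    exact div_nonneg_of_nonpos (mul_nonpos_of_nonneg_of_nonpos hs3.le hv) hden.le
  have hθneg : 0 < v3 a₁ a₂ a₃ (HH a₁ a₂ a₃ n) τ → θ < 0 := by
    intro hv
    rw [hθ]
    exact div_neg_of_pos_of_neg (mul_pos hs3 hv) hden
  have hm2 : 0 < a₁ - a₂ := by linarith
  have hm3 : 0 < a₁ - a₃ := by linarith
  have hm23 : 0 < a₂ - a₃ := by linarith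
  obtain ⟨b3, hb3e⟩ : ∃ b, b = (a₃ - a₁) * (a₃ - a₂) * (zz3 a₁ a₂ a₃ n τ).re * θ := ⟨_, rfl⟩
  obtain ⟨b1, hb1e⟩ : ∃ b, b = (a₃ - a₁) * (zz3 a₁ a₂ a₃ n τ).re *
    (θ * (a₃ - a₂ - y3 a₁ a₂ a₃ (HH a₁ a₂ a₃ n) τ) -
      Real.cos (G3 a₁ a₂ a₃ (HH a₁ a₂ a₃ n) τ)) := ⟨_, rfl⟩
  obtain ⟨b2, hb2e⟩ : ∃ b, b = (a₃ - a₂) * (zz3 a₁ a₂ a₃ n τ).re *
    (θ * (a₃ - a₁ - y3 a₁ a₂ a₃ (HH a₁ a₂ a₃ n) τ) -
      Real.cos (G3 a₁ a₂ a₃ (HH a₁ a₂ a₃ n) τ)) := ⟨_, rfl⟩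
  rw [← hb1e, ← hb2e, ← hb3e] at hcore
  rw [← hb1e] at hb2
  rw [← hb2e] at hb3
  have hb1pos : 0 < b1 := by
    have : Real.sin (G3 a₁ a₂ a₃ (HH a₁ a₂ a₃ n) τ - G1 a₁ a₂ a₃ (HH a₁ a₂ a₃ n) τ) * b1 < 0 := by
      rw [hb2]
      exact mul_neg_of_neg_of_pos (mul_neg_of_neg_of_pos (by linarith) hz0) hs1
    by_contra hc
    push Not at hc
    linarith [mul_nonneg_of_nonpos_of_nonpos hsD1.le hc]
  have hb2pos : 0 < b2 := by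
    have : Real.sin (G3 a₁ a₂ a₃ (HH a₁ a₂ a₃ n) τ - G2 a₁ a₂ a₃ (HH a₁ a₂ a₃ n) τ) * b2 < 0 := by
      rw [hb3]
      exact mul_neg_of_neg_of_pos (mul_neg_of_neg_of_pos (by linarith) hz0) hs2
    by_contra hc
    push Not at hc
    linarith [mul_nonneg_of_nonpos_of_nonpos hsD2.le hc]
  have hB1 : B1 a₁ a₂ (geo a₁ a₂ a₃ n τ) b2 = b1 := by
    unfold B1; linarith [hcore.e12, hcore.e13]
  have hB3 : B3 a₂ a₃ (geo a₁ a₂ a₃ n τ) b2 = b3 := by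
    unfold B3; linarith [hcore.e12, hcore.e13]
  have hmn : 0 < (a₃ - a₁) * (a₃ - a₂) := mul_pos_of_neg_of_neg (by linarith) (by linarith)
  have hb3nn : v3 a₁ a₂ a₃ (HH a₁ a₂ a₃ n) τ ≤ 0 → 0 ≤ b3 := by
    intro hv
    rw [hb3e]; have := hθpos hv; positivity
  have hb3neg : 0 < v3 a₁ a₂ a₃ (HH a₁ a₂ a₃ n) τ → b3 < 0 := by
    intro hv
    rw [hb3e]; exact mul_neg_of_pos_of_neg (by positivity) (hθneg hv)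
  have hcM := core_M hcore
  have hcY := core_Y hcore hu hz0.ne' hyy
  -- the momentum
  have hσ : 0 < (zz3 a₁ a₂ a₃ n τ).re /
    (Real.sin (G3 a₁ a₂ a₃ (HH a₁ a₂ a₃ n) τ) * (b1 * b2)) := by positivity
  have hmom : bm n (geo a₁ a₂ a₃ n τ) = ((zz3 a₁ a₂ a₃ n τ).re /
    (Real.sin (G3 a₁ a₂ a₃ (HH a₁ a₂ a₃ n) τ) * (b1 * b2))) •
      pP a₁ a₂ a₃ (geo a₁ a₂ a₃ n τ) b2 := by
    have hp1 := hcore.hp1
    have hp2 := hcore.hp2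
    have hp3 := hcore.hp3
    unfold bg at hp1 hp2 hp3
    obtain ⟨g0, g1, g2, g3⟩ := pP_comps a₁ a₂ a₃ (geo a₁ a₂ a₃ n τ) b2
    rw [hB1, hB3] at g1 g2 g3
    ext
    · rw [Quaternion.re_smul, g0, hpU.1, smul_zero]
    · rw [Quaternion.imI_smul, g1, smul_eq_mul]
      field_simp
      linear_combination hp2
    · rw [Quaternion.imJ_smul, g2, smul_eq_mul]
      field_simp
      linear_combination hp3
    · rw [Quaternion.imK_smul, g3, smul_eq_mul]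
      field_simp
      linear_combination hp1
  obtain ⟨hPn, hrb⟩ := of_smul hpU hσ hmom
  have hP0 : 0 < ‖pP a₁ a₂ a₃ (geo a₁ a₂ a₃ n τ) b2‖ := by rw [hPn]; positivity
  have hzP : (zz3 a₁ a₂ a₃ n τ).re * ‖pP a₁ a₂ a₃ (geo a₁ a₂ a₃ n τ) b2‖
      = Real.sin (G3 a₁ a₂ a₃ (HH a₁ a₂ a₃ n) τ) * (b1 * b2) := by
    rw [hPn]; field_simp
  have hM3 : (zz3 a₁ a₂ a₃ n τ).re * M3 a₁ a₂ a₃ (geo a₁ a₂ a₃ n τ) b2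
      = b1 * b2 * Real.cos (G3 a₁ a₂ a₃ (HH a₁ a₂ a₃ n) τ) := by
    unfold M3; rw [hB1]; linear_combination hcM
  have hN1pos : 0 < N1 a₁ a₂ a₃ (geo a₁ a₂ a₃ n τ) b2 :=
    (SP_pos hax h1 h2 h3 hb2pos).2.1
  have hN3pos : 0 < N3 a₁ a₂ a₃ (geo a₁ a₂ a₃ n τ) b2 :=
    (SP_pos hax h1 h2 h3 hb2pos).2.2.2.2.2.2
  have hN2pos : 0 < N2 a₁ a₂ a₃ (geo a₁ a₂ a₃ n τ) b2 := N2_pos hax hq h1 h2 h3 hb2pos
  have hrb' : rb a₁ a₂ a₃ (geo a₁ a₂ a₃ n τ) b2 = HH a₁ a₂ a₃ n := hrb.trans hHp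
  have hZ3 : Z3 a₁ a₂ a₃ (geo a₁ a₂ a₃ n τ) b2 = -y3 a₁ a₂ a₃ (HH a₁ a₂ a₃ n) τ := by
    unfold Z3
    rw [div_eq_iff hN3pos.ne']
    unfold N3
    rw [hB1]; linear_combination -hcY
  have hE2 : 0 < E2 a₁ a₂ a₃ (geo a₁ a₂ a₃ n τ) b2 := by
    have hh1 := Y3a_eq (a₁ := a₁) (a₂ := a₂) (a₃ := a₃) (q := geo a₁ a₂ a₃ n τ) b2
    have hh2 := Z3_def' (a₁ := a₁) (a₂ := a₂) (a₃ := a₃) (q := geo a₁ a₂ a₃ n τ) b2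
    rw [hZ3, eq_div_iff hN3pos.ne'] at hh2
    rw [hB1] at hh1
    have hh3 : (a₂ - a₃) * (E2 a₁ a₂ a₃ (geo a₁ a₂ a₃ n τ) b2 * b1 ^ 2)
        = (a₂ - a₃ + y3 a₁ a₂ a₃ (HH a₁ a₂ a₃ n) τ) * N3 a₁ a₂ a₃ (geo a₁ a₂ a₃ n τ) b2 := by
      rw [← hh1]; linear_combination hh2
    have hh4 : 0 < (a₂ - a₃) * (E2 a₁ a₂ a₃ (geo a₁ a₂ a₃ n τ) b2 * b1 ^ 2) := by
      rw [hh3]; exact mul_pos (by linarith) hN3pos
    have hh5 := (pos_iff_pos_of_mul_pos hh4).mp hm23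
    exact (pos_iff_pos_of_mul_pos hh5).mpr (by positivity)
  have hP2 : ‖pP a₁ a₂ a₃ (geo a₁ a₂ a₃ n τ) b2‖ ^ 2 ≠ 0 := by positivity
  have hA := idA hN1pos.ne' hN2pos.ne' hP2
  have hB := idB hN1pos.ne' hN3pos.ne' hP2
  rw [hrb'] at hA hB
  rw [hZ3] at hB
  have hY1 : Y1 a₁ a₂ a₃ (geo a₁ a₂ a₃ n τ) b2 = y1 a₁ a₂ a₃ (HH a₁ a₂ a₃ n) τ := by
    have hk : (Y1 a₁ a₂ a₃ (geo a₁ a₂ a₃ n τ) b2 - y1 a₁ a₂ a₃ (HH a₁ a₂ a₃ n) τ) *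
      ((a₂ - a₃) * (HH a₁ a₂ a₃ n - a₃) + (-y3 a₁ a₂ a₃ (HH a₁ a₂ a₃ n) τ) *
        ((a₁ - HH a₁ a₂ a₃ n) - (a₂ - a₃))) = 0 := by
      linear_combination mo3.1 - hB
    have hc : 0 < (a₂ - a₃) * (HH a₁ a₂ a₃ n - a₃) + (-y3 a₁ a₂ a₃ (HH a₁ a₂ a₃ n) τ) *
        ((a₁ - HH a₁ a₂ a₃ n) - (a₂ - a₃)) := by
      exact coef_pos hm23 (by linarith) (by linarith) (by linarith) hylo
    rcases mul_eq_zero.mp hk with h | h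
    · linarith
    · exact absurd h hc.ne'
  rw [hY1] at hA hB
  refine ⟨b2, hb2pos, hE2, ⟨_, hσ, hmom⟩, hrb', hY1, ?_, hZ3, ?_, ?_, ?_, ?_⟩
  · -- Y2
    have hD := mo2.2.2 hr2
    apply mul_right_cancel₀ hD.ne'
    rw [hA, mo2.1]
  · -- c1
    unfold c1
    refine cos_from hP0 hs1 (Real.sin_sq_add_cos_sq _) ?_ (N1_eq hq b2)
    have hM13 : M1 a₁ a₂ a₃ (geo a₁ a₂ a₃ n τ) b2
        = M3 a₁ a₂ a₃ (geo a₁ a₂ a₃ n τ) b2 + (a₃ - a₁) * b2 := by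
      rw [M3_eq hq]; ring
    rw [hM13]
    exact Mj hz0.ne' hM3 hzP hb2
  · -- c2
    unfold c2
    refine cos_from hP0 hs2 (Real.sin_sq_add_cos_sq _) ?_ (N2_eq hq b2)
    have hM23 : M2 a₁ a₂ a₃ (geo a₁ a₂ a₃ n τ) b2
        = M3 a₁ a₂ a₃ (geo a₁ a₂ a₃ n τ) b2 + (a₃ - a₂) * b1 := by
      rw [M2_eq hq, M3_eq hq, hB3]
      linear_combination (a₁ - a₃) * hcore.e13 - (a₂ - a₃) * hcore.e12
    rw [hM23]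
    exact Mj (b2 := b2) (b3 := b1) hz0.ne' (by rw [hM3]; ring) (by rw [hzP]; ring) hb3
  · -- c3
    unfold c3
    refine cos_from hP0 hs3 (Real.sin_sq_add_cos_sq _) ?_ (N3_eq hq b2)
    apply mul_left_cancel₀ hz0.ne'
    linear_combination Real.sin (G3 a₁ a₂ a₃ (HH a₁ a₂ a₃ n) τ) * hM3
      - Real.cos (G3 a₁ a₂ a₃ (HH a₁ a₂ a₃ n) τ) * hzP
  · -- half
    rw [hB1, hB3]
    have hv := v3_sign h12 h23 hr1o hPer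
    by_cases hF : First a₁ a₂ a₃ (HH a₁ a₂ a₃ n) τ
    · left
      exact ⟨hb1pos.le, hb3nn (hv.1 hF), fun h' => absurd h' hr2, hF⟩
    · right; right
      have hT : Ts a₁ a₂ a₃ (HH a₁ a₂ a₃ n) < τ := by
        by_contra hc
        push Not at hc
        exact hF ⟨h0.le, fun _ => hc⟩
      exact ⟨hb3neg (hv.2 hr2 hT), hr.2, hT⟩

end RepAux

section rep
variable {a₁ a₂ a₃ : ℝ}

theorem exists_rep (hax : Ax a₁ a₂ a₃) {n : ℍ[ℝ]} (hn : n ∈ Un) {τ : ℝ} (h0 : 0 < τ)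
    (hτ : τ < tcut a₁ a₂ a₃ (HH a₁ a₂ a₃ n)) (h1 : 0 < (geo a₁ a₂ a₃ n τ).imI)
    (h2 : 0 < (geo a₁ a₂ a₃ n τ).imJ) (h3 : 0 < (geo a₁ a₂ a₃ n τ).imK) :
    ∃ β, RepAt a₁ a₂ a₃ (geo a₁ a₂ a₃ n τ) n τ β := by
  obtain ⟨hr, hra1, hra3⟩ := HH_mem_Icc hn hax
  have hne1 : HH a₁ a₂ a₃ n ≠ a₁ := by
    intro hc
    obtain ⟨hJ, hK⟩ := hra1 hc
    have e : n = ⟨0, n.imI, 0, 0⟩ := by
      ext
      · exact hn.1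
      · rfl
      · exact hJ
      · exact hK
    have h4 := geo_axis1 (a₁ := a₁) (a₂ := a₂) (a₃ := a₃) n.imI τ
    rw [← e] at h4
    have h5 : (rot (a₁ * n.imI * τ) ⟨0, 1, 0, 0⟩).imJ = Real.sin (a₁ * n.imI * τ) * 0 :=
      WallAux.rot_imJ _ _
    rw [h4, h5, mul_zero] at h2
    exact lt_irrefl _ h2
  have hne3 : HH a₁ a₂ a₃ n ≠ a₃ := by
    intro hc
    obtain ⟨hI, hJ⟩ := hra3 hc
    have e : n = ⟨0, 0, 0, n.imK⟩ := by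
      ext
      · exact hn.1
      · exact hI
      · exact hJ
      · rfl
    have h4 := geo_axis3 (a₁ := a₁) (a₂ := a₂) (a₃ := a₃) n.imK τ
    rw [← e] at h4
    have h5 : (rot (a₃ * n.imK * τ) ⟨0, 0, 0, 1⟩).imJ = Real.sin (a₃ * n.imK * τ) * 0 :=
      WallAux.rot_imJ _ _
    rw [h4, h5, mul_zero] at h2
    exact lt_irrefl _ h2
  rcases le_or_gt a₂ (HH a₁ a₂ a₃ n) with h | h
  · exact RepAux.rep_base1 hax hn h0 hτ h1 h2 h3 ⟨h, lt_of_le_of_ne hr.2 hne1⟩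
  · exact RepAux.rep_base3 hax hn h0 hτ h1 h2 h3 ⟨lt_of_le_of_ne hr.1 (Ne.symm hne3), h⟩

end rep

end

end Pool.Agent.CutS3
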