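import Pool.Agent.CutS3.Geo
import Pool.Agent.CutS3.Rep
import Pool.Agent.CutS3.PathA
import Pool.Agent.CutS3.PathB
import Pool.Agent.CutS3.PathC
import Pool.Agent.CutS3.Clock
import Pool.Agent.CutS3.TauA
import Pool.Agent.CutS3.Grel
import Pool.Agent.CutS3.Yrel

set_option autoImplicit false

/-!
# Uniqueness of the geodesic before the cut time
-/

namespace Pool.Agent.CutS3

open Set Quaternion

noncomputable section

namespace UniqAux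

variable {a₁ a₂ a₃ : ℝ}

theorem gg2I_zero (a₁ a₂ a₃ r : ℝ) : gg2I a₁ a₂ a₃ r 0 = 0 := by
  simp [gg2I]

theorem gg2T_zero (a₁ a₂ a₃ r : ℝ) : gg2T a₁ a₂ a₃ r 0 = 0 := by
  simp [gg2T]

theorem E2_mono {q : ℍ[ℝ]} {s t : ℝ} (hs : 0 < s) (hst : s ≤ t)
    (he : 0 < E2 a₁ a₂ a₃ q s) : 0 < E2 a₁ a₂ a₃ q t := by
  unfold E2 at *
  nlinarith

/-- the arc cosines are the angles -/
theorem arc {a₁ a₂ a₃ : ℝ} {q n : ℍ[ℝ]} {τ β : ℝ} (h : RepAt a₁ a₂ a₃ q n τ β)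
    (hG : (0 < G1 a₁ a₂ a₃ (HH a₁ a₂ a₃ n) τ ∧ G1 a₁ a₂ a₃ (HH a₁ a₂ a₃ n) τ < Real.pi) ∧
    (0 < G2 a₁ a₂ a₃ (HH a₁ a₂ a₃ n) τ ∧ G2 a₁ a₂ a₃ (HH a₁ a₂ a₃ n) τ < Real.pi) ∧
    (0 < G3 a₁ a₂ a₃ (HH a₁ a₂ a₃ n) τ ∧ G3 a₁ a₂ a₃ (HH a₁ a₂ a₃ n) τ < Real.pi)) :
    Real.arccos (c1 a₁ a₂ a₃ q β) = G1 a₁ a₂ a₃ (HH a₁ a₂ a₃ n) τ ∧
    Real.arccos (c2 a₁ a₂ a₃ q β) = G2 a₁ a₂ a₃ (HH a₁ a₂ a₃ n) τ ∧
    Real.arccos (c3 a₁ a₂ a₃ q β) = G3 a₁ a₂ a₃ (HH a₁ a₂ a₃ n) τ := by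
  obtain ⟨⟨h1, h1'⟩, ⟨h2, h2'⟩, h3, h3'⟩ := hG
  refine ⟨?_, ?_, ?_⟩
  · rw [h.hc1, Real.arccos_cos h1.le h1'.le]
  · rw [h.hc2, Real.arccos_cos h2.le h2'.le]
  · rw [h.hc3, Real.arccos_cos h3.le h3'.le]

theorem arccos_lt {x y : ℝ} (hx : x ∈ Ioo (-1 : ℝ) 1) (hy : y ∈ Ioo (-1 : ℝ) 1) (h : x < y) :
    Real.arccos y < Real.arccos x :=
  Real.strictAntiOn_arccos ⟨hx.1.le, hx.2.le⟩ ⟨hy.1.le, hy.2.le⟩ h

theorem no_two (hax : Ax a₁ a₂ a₃) {q n n' : ℍ[ℝ]} (hq : ‖q‖ = 1)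
    {τ τ' β β' : ℝ} (h0 : 0 < τ) (hτ : τ < tcut a₁ a₂ a₃ (HH a₁ a₂ a₃ n))
    (h0' : 0 < τ') (hτ' : τ' < tcut a₁ a₂ a₃ (HH a₁ a₂ a₃ n'))
    (h1 : 0 < q.imI) (h2 : 0 < q.imJ) (h3 : 0 < q.imK)
    (h : RepAt a₁ a₂ a₃ q n τ β) (h' : RepAt a₁ a₂ a₃ q n' τ' β') (hβ : β' < β) : False := by
  have hr0 := (rb_mem hax h1 h2 h3 h.beta_pos h.e2).1
  have hr0' := (rb_mem hax h1 h2 h3 h'.beta_pos h'.e2).1
  rw [h.hr] at hr0
  rw [h'.hr] at hr0'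
  have hG := tcut_G hax ⟨hr0.1.le, hr0.2.le⟩ h0 hτ
  have hG' := tcut_G hax ⟨hr0'.1.le, hr0'.2.le⟩ h0' hτ'
  obtain ⟨ac1, ac2, ac3⟩ := arc h hG
  obtain ⟨ac1', ac2', ac3'⟩ := arc h' hG'
  have hper := tcut_per hax ⟨hr0.1.le, hr0.2⟩ h0 hτ.le
  have hper' := tcut_per hax ⟨hr0'.1.le, hr0'.2⟩ h0' hτ'.le
  have hm := G_strictMono hax (r := HH a₁ a₂ a₃ n) ⟨hr0.1.le, hr0.2.le⟩
  have hm' := G_strictMono hax (r := HH a₁ a₂ a₃ n') ⟨hr0'.1.le, hr0'.2.le⟩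
  obtain ⟨m1, m2, m3⟩ := hm
  obtain ⟨m1', m2', m3'⟩ := hm'
  have hY := y1_range hax.h12 hax.h23 ⟨hr0.1.le, hr0.2.le⟩ τ
  have hY' := y1_range hax.h12 hax.h23 ⟨hr0'.1.le, hr0'.2.le⟩ τ'
  have hZ := y3_range hax.h12 hax.h23 ⟨hr0.1.le, hr0.2.le⟩ τ
  have hZ' := y3_range hax.h12 hax.h23 ⟨hr0'.1.le, hr0'.2.le⟩ τ'
  have hya := h.hy1
  have hya' := h'.hy1
  have hyb := h.hy2
  have hyb' := h'.hy2
  have hyc := h.hz3
  have hyc' := h'.hz3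
  have hbp := h.beta_pos
  have hbp' := h'.beta_pos
  have he' := h'.e2
  have he := h.e2
  have hrb := h.hr
  have hrb' := h'.hr
  have hhalf := h.half
  have hhalf' := h'.half
  clear h h'
  generalize HH a₁ a₂ a₃ n = r at *
  generalize HH a₁ a₂ a₃ n' = r' at *
  have hp12 := hax.h12
  have hp23 := hax.h23
  have hp3 := hax.pos
  have hd12 : 0 < a₁ - a₂ := by linarith
  have hd23 : 0 < a₂ - a₃ := by linarith
  have hB1 : B1 a₁ a₂ q β' < B1 a₁ a₂ q β := by unfold B1; linarith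
  have hB3 : B3 a₂ a₃ q β' < B3 a₂ a₃ q β := by unfold B3; linarith
  -- `B1 < 0` forces `B3 > 0`
  have hx : ∀ s, 0 < s → B1 a₁ a₂ q s ≤ 0 → 0 < B3 a₂ a₃ q s := by
    intro s hs hB
    unfold B1 at hB
    unfold B3
    have hre : q.re < 0 := by
      by_contra hcon
      push Not at hcon
      nlinarith
    nlinarith
  have hx' : ∀ s, 0 < s → B3 a₂ a₃ q s ≤ 0 → 0 < B1 a₁ a₂ q s := by
    intro s hs hB
    by_contra hcon
    push Not at hcon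
    exact absurd (hx s hs hcon) (not_lt.mpr hB)
  have hcm := c_mem hax hq h1 h2 h3 hbp
  have hcm' := c_mem hax hq h1 h2 h3 hbp'
  -- second half reflection facts for the primed and unprimed geodesics
  rcases hhalf with ⟨hA1, hA3, hA2, hAF⟩ | ⟨hBB, hBr, hBt⟩ | ⟨hCB, hCr, hCt⟩
  · -- the first geodesic is in its first half
    have key_a : r ≤ r' → 0 ≤ B3 a₂ a₃ q β' → (0 < B3 a₂ a₃ q β' ∨ r' < a₂) →
        gg1 a₁ a₂ a₃ r' (Y1 a₁ a₂ a₃ q β') ≤ Real.arccos (c1 a₁ a₂ a₃ q β') → False := by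
      intro hrr hb3 hor hle
      have hYle : Y1 a₁ a₂ a₃ q β' ≤ a₁ - r' := by rw [hya']; exact hY'.2.1
      have hH := H1_anti hax hq h1 h2 h3 hbp' hβ he' hb3 hr0' hYle hor
      have hYlt := Y1_anti hax hq h1 h2 h3 hbp' hβ he' hb3
      have hYm' : Y1 a₁ a₂ a₃ q β' ≤ a₁ - a₂ := by rw [hya']; exact hY'.2.2
      have hmono := (gg1_mono_r (x := Y1 a₁ a₂ a₃ q β) hax hr0.1.le hrr hr0'.2
        (by rw [hya]; exact hY.1) (by linarith) (by linarith) (Or.inl (by linarith))).1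
      have hcl := clock1 hax ⟨hr0.1.le, hr0.2⟩ hAF
      rw [← hya] at hcl
      linarith
    rcases hhalf' with ⟨hA1', hA3', hA2', hAF'⟩ | ⟨hBB', hBr', hBt'⟩ | ⟨hCB', hCr', hCt'⟩
    · -- both in the first half
      rcases le_or_gt r r' with hrr | hrr
      · refine key_a hrr hA3' ?_ ?_
        · rcases hA3'.lt_or_eq with hlt | heq
          · exact Or.inl hlt
          · right
            by_contra hcon
            push Not at hcon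
            rcases hcon.lt_or_eq with hlt2 | heq2
            · have hh := (at_B3_zero hax hq h1 h2 h3 hbp' heq.symm).2.2.2.1
              rw [hya'] at hh
              linarith [hY'.2.1]
            · exact absurd (hA2' heq2.symm) (by rw [← heq]; exact lt_irrefl _)
        · have hcl := clock1 hax ⟨hr0'.1.le, hr0'.2⟩ hAF'
          rw [← hya'] at hcl
          linarith
      · have hc := c3_anti hax hq h1 h2 h3 hbp' hβ he' hA1' hA3'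
        have hz := Z3_anti hax hq h1 h2 h3 hbp' hβ he' hA1'
        have hcc := arccos_lt hcm.2.2 hcm'.2.2 hc
        have hcl := clock3 hax hr0 hAF
        have hcl' := clock3 hax hr0' hAF'
        rw [← hyc] at hcl
        rw [← hyc'] at hcl'
        have hz0 : 0 ≤ Z3 a₁ a₂ a₃ q β := by rw [hyc]; linarith [hZ.1]
        have hz1 : Z3 a₁ a₂ a₃ q β' ≤ r' - a₃ := by rw [hyc']; exact hZ'.2.1
        have hz2 : Z3 a₁ a₂ a₃ q β' ≤ a₂ - a₃ := by rw [hyc']; exact hZ'.2.2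
        have hmono := (gg3_anti_r (x := Z3 a₁ a₂ a₃ q β) hax hr0'.1 hrr.le hr0.2 hz0
          (by linarith) (by linarith) (Or.inl (by linarith))).1
        have hor : Z3 a₁ a₂ a₃ q β' < a₂ - a₃ ∨ r' ≠ a₂ := by
          by_cases hra : r' = a₂
          · left
            rw [hyc']
            exact y3_lt_m23 hp12 hp23 hr0' hper' (Or.inl hra.le)
          · exact Or.inr hra
        have hst := gg3_strictMono hax hr0'.1 hr0'.2 hz0 hz hz1 hz2 hor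
        linarith
    · -- second geodesic type I second half
      have hr2' : r' ≠ a₂ := ne_of_gt hBr'
      have hB3' : 0 < B3 a₂ a₃ q β' := hx _ hbp' hBB'.le
      have hrefl := G_refl hp12 hp23 ⟨hr0'.1.le, hr0'.2⟩ hr2' τ'
      have hyr := y_refl hp12 hp23 ⟨hr0'.1.le, hr0'.2⟩ hr2' τ'
      have hF' : First a₁ a₂ a₃ r' (2 * Ts a₁ a₂ a₃ r' - τ') := by
        refine ⟨by linarith [hper'.2 hr2'], fun _ => by linarith⟩
      rcases le_or_gt r r' with hrr | hrr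
      · refine key_a hrr hB3'.le (Or.inl hB3') ?_
        have hcl := clock1 hax ⟨hr0'.1.le, hr0'.2⟩ hF'
        rw [hyr.1, ← hya'] at hcl
        rw [← hcl, ac1']
        exact (m1' (by linarith)).le
      · have hre : q.re < 0 := by
          by_contra hcon
          push Not at hcon
          unfold B1 at hBB'
          nlinarith
        set βh : ℝ := -((a₁ - a₂) * q.re) with hβh
        have hβhpos : 0 < βh := by rw [hβh]; nlinarith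
        have hB1h : B1 a₁ a₂ q βh = 0 := by rw [hβh]; unfold B1; ring
        have hlt : β' < βh := by
          have : B1 a₁ a₂ q β' < B1 a₁ a₂ q βh := by rw [hB1h]; exact hBB'
          unfold B1 at this
          linarith
        have hle : βh ≤ β := by
          have : B1 a₁ a₂ q βh ≤ B1 a₁ a₂ q β := by rw [hB1h]; exact hA1
          unfold B1 at this
          linarith
        have hcmh := c_mem hax hq h1 h2 h3 hβhpos
        have e1 := c2_antiI hax hq h1 h2 h3 hbp' hlt hB1h.le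
        have e2 := arccos_lt hcmh.2.1 hcm'.2.1 e1
        have e3 := at_B1_zero hax hq h1 h2 h3 hβhpos hB1h
        have e4 : Real.arccos (c3 a₁ a₂ a₃ q βh) ≤ Real.arccos (c3 a₁ a₂ a₃ q β) := by
          rcases hle.lt_or_eq with hlt2 | heq
          · exact (arccos_lt hcm.2.2 hcmh.2.2 (c3_anti hax hq h1 h2 h3 hβhpos hlt2
              (E2_mono hbp' hlt.le he') hB1h.ge (hx _ hβhpos hB1h.le).le)).le
          · rw [heq]
        have hra : a₂ < r := lt_trans hBr' hrr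
        have hτTs : τ ≤ Ts a₁ a₂ a₃ r := hAF.2 (ne_of_gt hra)
        have e5 : G3 a₁ a₂ a₃ r τ ≤ G3 a₁ a₂ a₃ r (Ts a₁ a₂ a₃ r) := m3.monotone hτTs
        have hFs : First a₁ a₂ a₃ r (Ts a₁ a₂ a₃ r) := ⟨by linarith, fun _ => le_refl _⟩
        have hTs' : 0 < Ts a₁ a₂ a₃ r' := Ts_pos hp12 hp23 ⟨hr0'.1.le, hr0'.2⟩ hr2'
        have hFs' : First a₁ a₂ a₃ r' (Ts a₁ a₂ a₃ r') := ⟨hTs'.le, fun _ => le_refl _⟩
        have e6 := clock3 hax hr0 hFs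
        have e7 := clock3 hax hr0' hFs'
        rw [(TsI hp12 hp23 ⟨hra, hr0.2⟩).2.2] at e6
        rw [(TsI hp12 hp23 ⟨hBr', hr0'.2⟩).2.2] at e7
        have hneg : -(a₃ - a₂) = a₂ - a₃ := by ring
        rw [hneg] at e6 e7
        have e8 := (gg3_anti_r (x := a₂ - a₃) hax hr0'.1 hrr.le hr0.2 hd23.le
          (by linarith) (le_refl _) (Or.inr hBr')).1
        have e9 := star23I hp12 hp23 (r := r') ⟨hBr', hr0'.2⟩
        have e10 : G2 a₁ a₂ a₃ r' (Ts a₁ a₂ a₃ r') < G2 a₁ a₂ a₃ r' τ' := m2' hBt'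
        have e11 : Real.arccos (c2 a₁ a₂ a₃ q βh) = Real.arccos (c3 a₁ a₂ a₃ q βh) := by
          rw [e3.1, e3.2]
        linarith
    · -- second geodesic type III second half
      have hr2' : r' ≠ a₂ := ne_of_lt hCr'
      have hre : 0 < q.re := by
        by_contra hcon
        push Not at hcon
        unfold B3 at hCB'
        nlinarith
      have hrefl := G_refl hp12 hp23 ⟨hr0'.1.le, hr0'.2⟩ hr2' τ'
      have hyr := y_refl hp12 hp23 ⟨hr0'.1.le, hr0'.2⟩ hr2' τ'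
      have hF' : First a₁ a₂ a₃ r' (2 * Ts a₁ a₂ a₃ r' - τ') := by
        refine ⟨by linarith [hper'.2 hr2'], fun _ => by linarith⟩
      have hTs' : 0 < Ts a₁ a₂ a₃ r' := Ts_pos hp12 hp23 ⟨hr0'.1.le, hr0'.2⟩ hr2'
      have hFs' : First a₁ a₂ a₃ r' (Ts a₁ a₂ a₃ r') := ⟨hTs'.le, fun _ => le_refl _⟩
      set βh : ℝ := (a₂ - a₃) * q.re with hβh
      have hβhpos : 0 < βh := by rw [hβh]; positivity
      have hB3h : B3 a₂ a₃ q βh = 0 := by rw [hβh]; unfold B3; ring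
      have hlt : β' < βh := by
        have : B3 a₂ a₃ q β' < B3 a₂ a₃ q βh := by rw [hB3h]; exact hCB'
        unfold B3 at this
        linarith
      have hle : βh ≤ β := by
        have : B3 a₂ a₃ q βh ≤ B3 a₂ a₃ q β := by rw [hB3h]; exact hA3
        unfold B3 at this
        linarith
      have hcmh := c_mem hax hq h1 h2 h3 hβhpos
      obtain ⟨z1, z2, z3, z4, z5⟩ := at_B3_zero hax hq h1 h2 h3 hβhpos hB3h
      have heh := E2_mono hbp' hlt.le he'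
      have hTT := TsT hp12 hp23 (r := r') ⟨hr0'.1.le, hCr'⟩
      have s12 := star12T hp12 hp23 (r := r') ⟨hr0'.1.le, hCr'⟩
      have s13 := star13 hp12 hp23 (r := r') ⟨hr0'.1.le, hr0'.2⟩ hr2'
      have claim : Real.arccos (c2 a₁ a₂ a₃ q βh) ≤ G2 a₁ a₂ a₃ r' (Ts a₁ a₂ a₃ r') := by
        rcases le_or_gt r r' with hrr | hrr
        · have hYm : Y1 a₁ a₂ a₃ q β ≤ a₁ - a₂ := by rw [hya]; exact hY.2.2
          have hmono := (gg1_mono_r (x := Y1 a₁ a₂ a₃ q β) hax hr0.1.le hrr hr0'.2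
            (by rw [hya]; exact hY.1) (by linarith) hYm (Or.inr hCr')).1
          have hcl := clock1 hax ⟨hr0.1.le, hr0.2⟩ hAF
          rw [← hya] at hcl
          have hcl' := clock1 hax ⟨hr0'.1.le, hr0'.2⟩ hFs'
          rw [hTT.1] at hcl'
          have h5 : Real.arccos (c1 a₁ a₂ a₃ q βh) ≤ gg1 a₁ a₂ a₃ r' (Y1 a₁ a₂ a₃ q βh) := by
            rcases hle.lt_or_eq with hlt2 | heq
            · have hH := H1_anti hax hq h1 h2 h3 hβhpos hlt2 heh hB3h.ge hr0'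
                (by rw [z4]; linarith) (Or.inr hCr')
              linarith
            · rw [heq]
              linarith
          rw [z4] at h5
          rw [z1] at h5
          rw [z2, s12, hcl']
          exact h5
        · have h6 : Real.arccos (c3 a₁ a₂ a₃ q βh) ≤ Real.arccos (c3 a₁ a₂ a₃ q β) := by
            rcases hle.lt_or_eq with hlt2 | heq
            · exact (arccos_lt hcm.2.2 hcmh.2.2 (c3_anti hax hq h1 h2 h3 hβhpos hlt2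
                heh (hx' _ hβhpos hB3h.le).le hB3h.ge)).le
            · rw [heq]
          have hz := Z3_anti hax hq h1 h2 h3 hbp' hβ he' (hx' _ hbp' hCB'.le).le
          have hz0 : 0 ≤ Z3 a₁ a₂ a₃ q β := by rw [hyc]; linarith [hZ.1]
          have hz1 : Z3 a₁ a₂ a₃ q β' ≤ r' - a₃ := by rw [hyc']; exact hZ'.2.1
          have hcl := clock3 hax hr0 hAF
          rw [← hyc] at hcl
          have hcl' := clock3 hax hr0' hFs'
          rw [hTT.2.2] at hcl'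
          have hneg : -(a₃ - r') = r' - a₃ := by ring
          rw [hneg] at hcl'
          have hmono := (gg3_anti_r (x := Z3 a₁ a₂ a₃ q β) hax hr0'.1 hrr.le hr0.2 hz0
            (by linarith) (by linarith) (Or.inl (by linarith))).1
          have hst := gg3_strictMono (x := Z3 a₁ a₂ a₃ q β) (x' := r' - a₃) hax hr0'.1 hr0'.2
            hz0 (by linarith) (le_refl _) (by linarith) (Or.inr hr2')
          linarith
      have hH := H2_anti hax hq h1 h2 h3 hbp' hlt he' hB3h.le (by rw [hrb']; exact hCr')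
        ⟨hr0'.1, hCr'⟩
      have hc2 := clock2T hax ⟨hr0'.1.le, hCr'⟩ hFs'
      have hc2' := clock2T hax ⟨hr0'.1.le, hCr'⟩ hF'
      rw [hyr.2.1, ← hyb'] at hc2'
      rw [hTT.2.1] at hc2
      rw [z5] at hH
      have hneg : -(a₂ - a₁) = - -(a₁ - a₂) := by ring
      rw [hneg] at hc2
      linarith [hrefl.2.1]
  · -- first geodesic type I second half
    rcases hhalf' with ⟨hA1', -, -, -⟩ | ⟨hBB', hBr', hBt'⟩ | ⟨hCB', hCr', hCt'⟩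
    · linarith
    · have hrm := rb_monoI hax hq h1 h2 h3 hbp' hβ he' hBB.le (by rw [hrb']; exact hBr')
      rw [hrb, hrb'] at hrm
      have hY2 := Y2_monoI hax hq h1 h2 h3 hbp' hβ hBB.le
      have hc2 := arccos_lt hcm.2.1 hcm'.2.1 (c2_antiI hax hq h1 h2 h3 hbp' hβ hBB.le)
      have hne : r ≠ a₂ := ne_of_gt hBr
      have hne' : r' ≠ a₂ := ne_of_gt hBr'
      have hrefl := G_refl hp12 hp23 ⟨hr0.1.le, hr0.2⟩ hne τ
      have hyr := y_refl hp12 hp23 ⟨hr0.1.le, hr0.2⟩ hne τ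
      have hrefl' := G_refl hp12 hp23 ⟨hr0'.1.le, hr0'.2⟩ hne' τ'
      have hyr' := y_refl hp12 hp23 ⟨hr0'.1.le, hr0'.2⟩ hne' τ'
      have hF : First a₁ a₂ a₃ r (2 * Ts a₁ a₂ a₃ r - τ) :=
        ⟨by linarith [hper.2 hne], fun _ => by linarith⟩
      have hF' : First a₁ a₂ a₃ r' (2 * Ts a₁ a₂ a₃ r' - τ') :=
        ⟨by linarith [hper'.2 hne'], fun _ => by linarith⟩
      have hTs : 0 < Ts a₁ a₂ a₃ r := Ts_pos hp12 hp23 ⟨hr0.1.le, hr0.2⟩ hne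
      have hTs' : 0 < Ts a₁ a₂ a₃ r' := Ts_pos hp12 hp23 ⟨hr0'.1.le, hr0'.2⟩ hne'
      have hFs : First a₁ a₂ a₃ r (Ts a₁ a₂ a₃ r) := ⟨hTs.le, fun _ => le_refl _⟩
      have hFs' : First a₁ a₂ a₃ r' (Ts a₁ a₂ a₃ r') := ⟨hTs'.le, fun _ => le_refl _⟩
      have k1 := clock2I hax ⟨hBr, hr0.2⟩ hF
      have k2 := clock2I hax ⟨hBr, hr0.2⟩ hFs
      have k1' := clock2I hax ⟨hBr', hr0'.2⟩ hF'
      have k2' := clock2I hax ⟨hBr', hr0'.2⟩ hFs'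
      rw [hyr.2.1, ← hyb] at k1
      rw [hyr'.2.1, ← hyb'] at k1'
      rw [(TsI hp12 hp23 ⟨hBr, hr0.2⟩).2.1] at k2
      rw [(TsI hp12 hp23 ⟨hBr', hr0'.2⟩).2.1] at k2'
      have hyr2 := y2_rangeI hp12 hp23 ⟨hBr.le, hr0.2.le⟩ τ
      have hyr2' := y2_rangeI hp12 hp23 ⟨hBr'.le, hr0'.2.le⟩ τ'
      rw [← hyb] at hyr2
      rw [← hyb'] at hyr2'
      have q1 := (gg2I_anti_r hax hBr' hrm.le hr0.2 hyr2.1 hyr2.2 (le_refl _)).1
      have q2 := (gg2I_anti_r (x := 0) hax hBr' hrm.le hr0.2 (le_refl _) hd23.le (le_refl _)).1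
      rw [gg2I_zero, gg2I_zero] at q2
      have q3 := gg2I_strictMono hax hBr' hr0'.2 hyr2'.1 hY2 hyr2.2
      linarith [hrefl.2.1, hrefl'.2.1]
    · exact absurd (hx _ hbp' (by linarith)) (not_lt.mpr hCB'.le)
  · -- first geodesic type III second half
    rcases hhalf' with ⟨-, hA3', -, -⟩ | ⟨hBB', hBr', hBt'⟩ | ⟨hCB', hCr', hCt'⟩
    · linarith
    · exact absurd (hx _ hbp' hBB'.le) (not_lt.mpr (by linarith))
    · have hrm := rb_antiT hax hq h1 h2 h3 hbp' hβ he' hCB.le (by rw [hrb']; exact hCr')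
      rw [hrb, hrb'] at hrm
      have hH := H2_anti hax hq h1 h2 h3 hbp' hβ he' hCB.le (by rw [hrb']; exact hCr')
        ⟨hr0'.1, hCr'⟩
      have hne : r ≠ a₂ := ne_of_lt hCr
      have hne' : r' ≠ a₂ := ne_of_lt hCr'
      have hrefl := G_refl hp12 hp23 ⟨hr0.1.le, hr0.2⟩ hne τ
      have hyr := y_refl hp12 hp23 ⟨hr0.1.le, hr0.2⟩ hne τ
      have hrefl' := G_refl hp12 hp23 ⟨hr0'.1.le, hr0'.2⟩ hne' τ'
      have hyr' := y_refl hp12 hp23 ⟨hr0'.1.le, hr0'.2⟩ hne' τ'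
      have hF : First a₁ a₂ a₃ r (2 * Ts a₁ a₂ a₃ r - τ) :=
        ⟨by linarith [hper.2 hne], fun _ => by linarith⟩
      have hF' : First a₁ a₂ a₃ r' (2 * Ts a₁ a₂ a₃ r' - τ') :=
        ⟨by linarith [hper'.2 hne'], fun _ => by linarith⟩
      have hTs : 0 < Ts a₁ a₂ a₃ r := Ts_pos hp12 hp23 ⟨hr0.1.le, hr0.2⟩ hne
      have hTs' : 0 < Ts a₁ a₂ a₃ r' := Ts_pos hp12 hp23 ⟨hr0'.1.le, hr0'.2⟩ hne'
      have hFs : First a₁ a₂ a₃ r (Ts a₁ a₂ a₃ r) := ⟨hTs.le, fun _ => le_refl _⟩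
      have hFs' : First a₁ a₂ a₃ r' (Ts a₁ a₂ a₃ r') := ⟨hTs'.le, fun _ => le_refl _⟩
      have k1 := clock2T hax ⟨hr0.1.le, hCr⟩ hF
      have k2 := clock2T hax ⟨hr0.1.le, hCr⟩ hFs
      have k1' := clock2T hax ⟨hr0'.1.le, hCr'⟩ hF'
      have k2' := clock2T hax ⟨hr0'.1.le, hCr'⟩ hFs'
      rw [hyr.2.1, ← hyb] at k1
      rw [hyr'.2.1, ← hyb'] at k1'
      rw [(TsT hp12 hp23 ⟨hr0.1.le, hCr⟩).2.1] at k2
      rw [(TsT hp12 hp23 ⟨hr0'.1.le, hCr'⟩).2.1] at k2'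
      have hneg : -(a₂ - a₁) = a₁ - a₂ := by ring
      rw [hneg] at k2 k2'
      have hyr2 := y2_rangeT hp12 hp23 ⟨hr0.1.le, hCr.le⟩ τ
      rw [← hyb] at hyr2
      have q1 := (gg2T_mono_r (x := -Y2 a₁ a₂ a₃ q β) hax hr0.1.le hrm.le hCr'
        (by linarith [hyr2.1]) hyr2.2 (le_refl _)).1
      have q2 := (gg2T_mono_r (x := 0) hax hr0.1.le hrm.le hCr' (le_refl _) hd12.le
        (le_refl _)).1
      rw [gg2T_zero, gg2T_zero] at q2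
      linarith [hrefl.2.1, hrefl'.2.1]

theorem pos_case (hax : Ax a₁ a₂ a₃) {n n' : ℍ[ℝ]} (hn : n ∈ Un) (hn' : n' ∈ Un) {τ τ' : ℝ}
    (h0 : 0 < τ) (hτ : τ < tcut a₁ a₂ a₃ (HH a₁ a₂ a₃ n))
    (h0' : 0 < τ') (hτ' : τ' < tcut a₁ a₂ a₃ (HH a₁ a₂ a₃ n'))
    (he : geo a₁ a₂ a₃ n τ = geo a₁ a₂ a₃ n' τ')
    (h1 : 0 < (geo a₁ a₂ a₃ n τ).imI) (h2 : 0 < (geo a₁ a₂ a₃ n τ).imJ)
    (h3 : 0 < (geo a₁ a₂ a₃ n τ).imK) : n = n' ∧ τ = τ' := by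
  obtain ⟨β, hβ⟩ := exists_rep hax hn h0 hτ h1 h2 h3
  obtain ⟨β', hβ'⟩ := exists_rep hax hn' h0' hτ' (he ▸ h1) (he ▸ h2) (he ▸ h3)
  rw [← he] at hβ'
  have hq : ‖geo a₁ a₂ a₃ n τ‖ = 1 := norm_geo n τ
  rcases lt_trichotomy β' β with hlt | heq | hgt
  · exact (no_two hax hq h0 hτ h0' hτ' h1 h2 h3 hβ hβ' hlt).elim
  · subst heq
    obtain ⟨σ, hσ, hs⟩ := hβ.mom
    obtain ⟨σ', hσ', hs'⟩ := hβ'.mom
    have e1 := norm_bm n hq
    have e2 := norm_bm n' hq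
    rw [hs, norm_smul, Real.norm_eq_abs, abs_of_pos hσ, hn.2] at e1
    rw [hs', norm_smul, Real.norm_eq_abs, abs_of_pos hσ', hn'.2] at e2
    have hne : ‖pP a₁ a₂ a₃ (geo a₁ a₂ a₃ n τ) β'‖ ≠ 0 := by
      intro h
      rw [h] at e1
      simp at e1
    have hσσ : σ = σ' := by
      have : (σ - σ') * ‖pP a₁ a₂ a₃ (geo a₁ a₂ a₃ n τ) β'‖ = 0 := by linarith
      rcases mul_eq_zero.mp this with h | h
      · linarith
      · exact absurd h hne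
    have hnn : n = n' := bm_inj hq (by rw [hs, hs', hσσ])
    subst hnn
    refine ⟨rfl, ?_⟩
    have hr0 := HH_mem_Icc hn hax
    have hG := (tcut_G hax hr0.1 h0 hτ).1
    have hG' := (tcut_G hax hr0.1 h0' hτ').1
    have hc : Real.cos (G1 a₁ a₂ a₃ (HH a₁ a₂ a₃ n) τ)
        = Real.cos (G1 a₁ a₂ a₃ (HH a₁ a₂ a₃ n) τ') := by rw [← hβ.hc1, ← hβ'.hc1]
    have hinj := Real.injOn_cos ⟨hG.1.le, hG.2.le⟩ ⟨hG'.1.le, hG'.2.le⟩ hc
    exact (G_strictMono hax hr0.1).1.injective hinj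
  · exact (no_two hax hq h0' hτ' h0 hτ h1 h2 h3 hβ' hβ hgt).elim

theorem rf1_Un {m : ℍ[ℝ]} (hm : m ∈ Un) : rf1 m ∈ Un := ⟨hm.1, by rw [norm_rf1]; exact hm.2⟩
theorem rf2_Un {m : ℍ[ℝ]} (hm : m ∈ Un) : rf2 m ∈ Un := ⟨hm.1, by rw [norm_rf2]; exact hm.2⟩
theorem rf3_Un {m : ℍ[ℝ]} (hm : m ∈ Un) : rf3 m ∈ Un := ⟨hm.1, by rw [norm_rf3]; exact hm.2⟩
theorem HH_rf1 (m : ℍ[ℝ]) : HH a₁ a₂ a₃ (rf1 m) = HH a₁ a₂ a₃ m := by simp [HH, rf1]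
theorem HH_rf2 (m : ℍ[ℝ]) : HH a₁ a₂ a₃ (rf2 m) = HH a₁ a₂ a₃ m := by simp [HH, rf2]
theorem HH_rf3 (m : ℍ[ℝ]) : HH a₁ a₂ a₃ (rf3 m) = HH a₁ a₂ a₃ m := by simp [HH, rf3]
theorem rf1_rf1 (q : ℍ[ℝ]) : rf1 (rf1 q) = q := by ext <;> simp [rf1]
theorem rf2_rf2 (q : ℍ[ℝ]) : rf2 (rf2 q) = q := by ext <;> simp [rf2]
theorem rf3_rf3 (q : ℍ[ℝ]) : rf3 (rf3 q) = q := by ext <;> simp [rf3]
theorem geo_rf1' {m : ℍ[ℝ]} (hm : m ∈ Un) (T : ℝ) :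
    geo a₁ a₂ a₃ (rf1 (bg a₁ a₂ a₃ m T)) T = rf1 (geo a₁ a₂ a₃ m T) := by
  rw [geo_rf1 hm.1, sub_self, geo_zero, star_one, one_mul]
theorem geo_rf2' {m : ℍ[ℝ]} (hm : m ∈ Un) (T : ℝ) :
    geo a₁ a₂ a₃ (rf2 (bg a₁ a₂ a₃ m T)) T = rf2 (geo a₁ a₂ a₃ m T) := by
  rw [geo_rf2 hm.1, sub_self, geo_zero, star_one, one_mul]
theorem geo_rf3' {m : ℍ[ℝ]} (hm : m ∈ Un) (T : ℝ) :
    geo a₁ a₂ a₃ (rf3 (bg a₁ a₂ a₃ m T)) T = rf3 (geo a₁ a₂ a₃ m T) := by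
  rw [geo_rf3 hm.1, sub_self, geo_zero, star_one, one_mul]
theorem HH_b1 {m : ℍ[ℝ]} (hm : m ∈ Un) (T : ℝ) :
    HH a₁ a₂ a₃ (rf1 (bg a₁ a₂ a₃ m T)) = HH a₁ a₂ a₃ m := by rw [HH_rf1, HH_bg hm.1]
theorem HH_b2 {m : ℍ[ℝ]} (hm : m ∈ Un) (T : ℝ) :
    HH a₁ a₂ a₃ (rf2 (bg a₁ a₂ a₃ m T)) = HH a₁ a₂ a₃ m := by rw [HH_rf2, HH_bg hm.1]
theorem HH_b3 {m : ℍ[ℝ]} (hm : m ∈ Un) (T : ℝ) :
    HH a₁ a₂ a₃ (rf3 (bg a₁ a₂ a₃ m T)) = HH a₁ a₂ a₃ m := by rw [HH_rf3, HH_bg hm.1]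

/-- from equality of the body momenta at a common end point -/
theorem eq_of_bg {n n' : ℍ[ℝ]} {τ τ' : ℝ} (he : geo a₁ a₂ a₃ n τ = geo a₁ a₂ a₃ n' τ')
    (h : bg a₁ a₂ a₃ n τ = bg a₁ a₂ a₃ n' τ') : n = n' := by
  unfold bg at h
  rw [← he] at h
  exact bm_inj (norm_geo n τ) h

theorem case3 (hax : Ax a₁ a₂ a₃) {n n' : ℍ[ℝ]} (hn : n ∈ Un) (hn' : n' ∈ Un) {τ τ' : ℝ}
    (h0 : 0 < τ) (hτ : τ < tcut a₁ a₂ a₃ (HH a₁ a₂ a₃ n))
    (h0' : 0 < τ') (hτ' : τ' < tcut a₁ a₂ a₃ (HH a₁ a₂ a₃ n'))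
    (he : geo a₁ a₂ a₃ n τ = geo a₁ a₂ a₃ n' τ')
    (h1 : 0 < (geo a₁ a₂ a₃ n τ).imI) (h2 : 0 < (geo a₁ a₂ a₃ n τ).imJ)
    (h3 : (geo a₁ a₂ a₃ n τ).imK ≠ 0) : n = n' ∧ τ = τ' := by
  rcases h3.lt_or_gt with hneg | hpos
  · have key := pos_case hax (rf3_Un (bg_mem_Un (a₁ := a₁) (a₂ := a₂) (a₃ := a₃) hn τ))
      (rf3_Un (bg_mem_Un (a₁ := a₁) (a₂ := a₂) (a₃ := a₃) hn' τ')) h0
      (by rw [HH_b3 hn]; exact hτ) h0' (by rw [HH_b3 hn']; exact hτ')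
      (by rw [geo_rf3' hn, geo_rf3' hn', he])
      (by rw [geo_rf3' hn]; exact h1) (by rw [geo_rf3' hn]; exact h2)
      (by rw [geo_rf3' hn]; show 0 < -(geo a₁ a₂ a₃ n τ).imK; linarith)
    refine ⟨eq_of_bg he ?_, key.2⟩
    have := congrArg rf3 key.1
    rwa [rf3_rf3, rf3_rf3] at this
  · exact pos_case hax hn hn' h0 hτ h0' hτ' he h1 h2 hpos

theorem case2 (hax : Ax a₁ a₂ a₃) {n n' : ℍ[ℝ]} (hn : n ∈ Un) (hn' : n' ∈ Un) {τ τ' : ℝ}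
    (h0 : 0 < τ) (hτ : τ < tcut a₁ a₂ a₃ (HH a₁ a₂ a₃ n))
    (h0' : 0 < τ') (hτ' : τ' < tcut a₁ a₂ a₃ (HH a₁ a₂ a₃ n'))
    (he : geo a₁ a₂ a₃ n τ = geo a₁ a₂ a₃ n' τ')
    (h1 : 0 < (geo a₁ a₂ a₃ n τ).imI) (h2 : (geo a₁ a₂ a₃ n τ).imJ ≠ 0)
    (h3 : (geo a₁ a₂ a₃ n τ).imK ≠ 0) : n = n' ∧ τ = τ' := by
  rcases h2.lt_or_gt with hneg | hpos
  · have key := case3 hax (rf2_Un (bg_mem_Un (a₁ := a₁) (a₂ := a₂) (a₃ := a₃) hn τ))
      (rf2_Un (bg_mem_Un (a₁ := a₁) (a₂ := a₂) (a₃ := a₃) hn' τ')) h0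
      (by rw [HH_b2 hn]; exact hτ) h0' (by rw [HH_b2 hn']; exact hτ')
      (by rw [geo_rf2' hn, geo_rf2' hn', he])
      (by rw [geo_rf2' hn]; exact h1)
      (by rw [geo_rf2' hn]; show 0 < -(geo a₁ a₂ a₃ n τ).imJ; linarith)
      (by rw [geo_rf2' hn]; exact h3)
    refine ⟨eq_of_bg he ?_, key.2⟩
    have := congrArg rf2 key.1
    rwa [rf2_rf2, rf2_rf2] at this
  · exact case3 hax hn hn' h0 hτ h0' hτ' he h1 hpos h3

end UniqAux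

open UniqAux in
/-- Uniqueness: off the three walls, at most one geodesic reaches a point before its cut time. -/
theorem uniq {a₁ a₂ a₃ : ℝ} (hax : Ax a₁ a₂ a₃) {n n' : ℍ[ℝ]} (hn : n ∈ Un) (hn' : n' ∈ Un)
    {τ τ' : ℝ}
    (h0 : 0 < τ) (hτ : τ < tcut a₁ a₂ a₃ (HH a₁ a₂ a₃ n))
    (h0' : 0 < τ') (hτ' : τ' < tcut a₁ a₂ a₃ (HH a₁ a₂ a₃ n'))
    (he : geo a₁ a₂ a₃ n τ = geo a₁ a₂ a₃ n' τ')
    (h1 : (geo a₁ a₂ a₃ n τ).imI ≠ 0) (h2 : (geo a₁ a₂ a₃ n τ).imJ ≠ 0)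
    (h3 : (geo a₁ a₂ a₃ n τ).imK ≠ 0) : n = n' ∧ τ = τ' := by
  rcases h1.lt_or_gt with hneg | hpos
  · have key := case2 hax (rf1_Un (bg_mem_Un (a₁ := a₁) (a₂ := a₂) (a₃ := a₃) hn τ))
      (rf1_Un (bg_mem_Un (a₁ := a₁) (a₂ := a₂) (a₃ := a₃) hn' τ')) h0
      (by rw [HH_b1 hn]; exact hτ) h0' (by rw [HH_b1 hn']; exact hτ')
      (by rw [geo_rf1' hn, geo_rf1' hn', he])
      (by rw [geo_rf1' hn]; show 0 < -(geo a₁ a₂ a₃ n τ).imI; linarith)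
      (by rw [geo_rf1' hn]; exact h2)
      (by rw [geo_rf1' hn]; exact h3)
    refine ⟨eq_of_bg he ?_, key.2⟩
    have := congrArg rf1 key.1
    rwa [rf1_rf1, rf1_rf1] at this
  · exact case2 hax hn hn' h0 hτ h0' hτ' he hpos h2 h3

end

end Pool.Agent.CutS3
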