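import Pool.Agent.CutS3.Geo
import Pool.Agent.CutS3.Dist
import Pool.Agent.CutS3.VarB
import Pool.Agent.CutS3.Corner
import Pool.Agent.CutS3.TauA
import Pool.Agent.CutS3.TauB
import Pool.Agent.CutS3.Uniq
import Pool.Agent.CutS3.Wall
import Pool.Agent.CutS3.Maxwell

set_option autoImplicit false
set_option linter.unusedVariables false

/-!
# Module CLOS: the geodesics are minimising exactly up to the cut time `Tc`
-/

namespace Pool.Agent.CutS3

open Set Quaternion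

namespace ClosAux

noncomputable section

theorem ax_inv {a b c : ℝ} (ha : 0 < a) (hab : a < b) (hbc : b < c) :
    Ax (1 / a) (1 / b) (1 / c) := by
  have hb : 0 < b := ha.trans hab
  have hc : 0 < c := hb.trans hbc
  exact ⟨by positivity, one_div_lt_one_div_of_lt hb hbc, one_div_lt_one_div_of_lt ha hab⟩

variable {a₁ a₂ a₃ : ℝ}

theorem Tc_pos (hax : Ax a₁ a₂ a₃) {m : ℍ[ℝ]} (hm : m ∈ Ell a₁ a₂ a₃) :
    0 < Tc a₁ a₂ a₃ m := by
  obtain ⟨h1, _, _, h4, _, _⟩ := unit_of_Ell hm hax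
  exact div_pos (tcut_pos hax h4) h1

theorem Tc_contOn (hax : Ax a₁ a₂ a₃) : ContinuousOn (Tc a₁ a₂ a₃) (Ell a₁ a₂ a₃) := by
  have hne : ∀ m ∈ Ell a₁ a₂ a₃, ‖m‖ ≠ 0 := fun m hm => (unit_of_Ell hm hax).1.ne'
  have hrr : ContinuousOn (rr : ℍ[ℝ] → ℝ) (Ell a₁ a₂ a₃) := by
    unfold rr
    exact continuousOn_const.div ((continuous_norm.pow 2).continuousOn)
      (fun m hm => pow_ne_zero 2 (hne m hm))
  have hmap : MapsTo (rr : ℍ[ℝ] → ℝ) (Ell a₁ a₂ a₃) (Icc a₃ a₁) :=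
    fun m hm => (unit_of_Ell hm hax).2.2.2.1
  have h := (tcut_cont hax).comp hrr hmap
  exact h.div continuous_norm.continuousOn hne

/-- on a nonempty open interval a product of three continuous functions vanishes only if one
of them vanishes on a subinterval -/
theorem exists_subinterval {f g h : ℝ → ℝ} (hf : Continuous f) (hg : Continuous g)
    (hh : Continuous h) {s t : ℝ} (hst : s < t)
    (H : ∀ x ∈ Ioo s t, f x = 0 ∨ g x = 0 ∨ h x = 0) :
    ∃ s' t', s ≤ s' ∧ s' < t' ∧ t' ≤ t ∧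
      ((∀ x ∈ Ioo s' t', f x = 0) ∨ (∀ x ∈ Ioo s' t', g x = 0) ∨
        (∀ x ∈ Ioo s' t', h x = 0)) := by
  have key : ∀ (u : ℝ → ℝ), Continuous u → ∀ p q : ℝ, p < q →
      (∀ x ∈ Ioo p q, u x = 0) ∨ ∃ p' q', p ≤ p' ∧ p' < q' ∧ q' ≤ q ∧
        ∀ x ∈ Ioo p' q', u x ≠ 0 := by
    intro u hu p q hpq
    by_cases hall : ∀ x ∈ Ioo p q, u x = 0
    · exact Or.inl hall
    · right
      push Not at hall
      obtain ⟨x, hx, hux⟩ := hall
      have hop : IsOpen (Ioo p q ∩ u ⁻¹' {0}ᶜ) :=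
        isOpen_Ioo.inter (isOpen_compl_singleton.preimage hu)
      obtain ⟨ε, hε, hball⟩ := Metric.isOpen_iff.1 hop x ⟨hx, hux⟩
      refine ⟨x - ε / 2, x + ε / 2, ?_, by linarith, ?_, ?_⟩
      · have : x - ε / 2 ∈ Metric.ball x ε := by
          rw [Metric.mem_ball, Real.dist_eq, abs_lt]; constructor <;> linarith
        exact (hball this).1.1.le
      · have : x + ε / 2 ∈ Metric.ball x ε := by
          rw [Metric.mem_ball, Real.dist_eq, abs_lt]; constructor <;> linarith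
        exact (hball this).1.2.le
      · intro y hy
        have : y ∈ Metric.ball x ε := by
          rw [Metric.mem_ball, Real.dist_eq, abs_lt]
          constructor <;> linarith [hy.1, hy.2]
        exact (hball this).2
  rcases key f hf s t hst with h1 | ⟨p, q, hp, hpq, hq, h1⟩
  · exact ⟨s, t, le_rfl, hst, le_rfl, Or.inl h1⟩
  · rcases key g hg p q hpq with h2 | ⟨p', q', hp', hpq', hq', h2⟩
    · exact ⟨p, q, hp, hpq, hq, Or.inr (Or.inl h2)⟩
    · refine ⟨p', q', hp.trans hp', hpq', hq'.trans hq, Or.inr (Or.inr ?_)⟩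
      intro x hx
      have hx1 : x ∈ Ioo p q := ⟨lt_of_le_of_lt hp' hx.1, lt_of_lt_of_le hx.2 hq'⟩
      have hx0 : x ∈ Ioo s t := ⟨lt_of_le_of_lt hp hx1.1, lt_of_lt_of_le hx1.2 hq⟩
      rcases H x hx0 with h0 | h0 | h0
      · exact absurd h0 (h1 x hx1)
      · exact absurd h0 (h2 x hx)
      · exact h0

theorem rf1_inv (q : ℍ[ℝ]) : rf1 (rf1 q) = q := by simp [rf1]
theorem rf2_inv (q : ℍ[ℝ]) : rf2 (rf2 q) = q := by simp [rf2]
theorem rf3_inv (q : ℍ[ℝ]) : rf3 (rf3 q) = q := by simp [rf3]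

/-- a unit momentum on an axis has energy `a_i` -/
theorem not_axis (hax : Ax a₁ a₂ a₃) {n : ℍ[ℝ]} (hn : n ∈ Un)
    (h1 : HH a₁ a₂ a₃ n ≠ a₁) (h2 : HH a₁ a₂ a₃ n ≠ a₂) (h3 : HH a₁ a₂ a₃ n ≠ a₃) :
    ¬ ((n.imJ = 0 ∧ n.imK = 0) ∨ (n.imI = 0 ∧ n.imK = 0) ∨ (n.imI = 0 ∧ n.imJ = 0)) := by
  have hsq : n.imI ^ 2 + n.imJ ^ 2 + n.imK ^ 2 = 1 := by
    have h := Quaternion.normSq_eq_norm_mul_self n
    rw [hn.2, Quaternion.normSq_def', hn.1] at h
    nlinarith [h]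
  rintro (⟨e1, e2⟩ | ⟨e1, e2⟩ | ⟨e1, e2⟩)
  · apply h1
    rw [e1, e2] at hsq
    unfold HH
    rw [e1, e2]
    have : n.imI ^ 2 = 1 := by linarith
    rw [this]; ring
  · apply h2
    rw [e1, e2] at hsq
    unfold HH
    rw [e1, e2]
    have : n.imJ ^ 2 = 1 := by linarith
    rw [this]; ring
  · apply h3
    rw [e1, e2] at hsq
    unfold HH
    rw [e1, e2]
    have : n.imK ^ 2 = 1 := by linarith
    rw [this]; ring

theorem cont_geo_time (n : ℍ[ℝ]) : Continuous (fun x : ℝ => geo a₁ a₂ a₃ n x) := by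
  have hp : Continuous (fun x : ℝ => ((n, x) : ℍ[ℝ] × ℝ)) := by fun_prop
  have h := (continuous_geo (a₁ := a₁) (a₂ := a₂) (a₃ := a₃)).comp hp
  exact h

/-- times off the three walls are dense before the cut time, for regular momenta -/
theorem exists_offwall (hax : Ax a₁ a₂ a₃) {n : ℍ[ℝ]} (hn : n ∈ Un)
    (hr : HH a₁ a₂ a₃ n ∈ Ioo a₃ a₁) (hr2 : HH a₁ a₂ a₃ n ≠ a₂) {s t : ℝ} (h0 : 0 ≤ s)
    (hst : s < t) (ht : t ≤ tcut a₁ a₂ a₃ (HH a₁ a₂ a₃ n)) :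
    ∃ x ∈ Ioo s t, (geo a₁ a₂ a₃ n x).imI ≠ 0 ∧ (geo a₁ a₂ a₃ n x).imJ ≠ 0 ∧
      (geo a₁ a₂ a₃ n x).imK ≠ 0 := by
  by_contra hcon
  push Not at hcon
  have hgeo : Continuous (fun x : ℝ => geo a₁ a₂ a₃ n x) := cont_geo_time n
  have hI : Continuous (fun x : ℝ => (geo a₁ a₂ a₃ n x).imI) :=
    Quaternion.continuous_imI.comp hgeo
  have hJ : Continuous (fun x : ℝ => (geo a₁ a₂ a₃ n x).imJ) :=
    Quaternion.continuous_imJ.comp hgeo
  have hK : Continuous (fun x : ℝ => (geo a₁ a₂ a₃ n x).imK) :=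
    Quaternion.continuous_imK.comp hgeo
  -- avoid the half period
  obtain ⟨s₁, t₁, hs₁, hst₁, ht₁, hTs⟩ : ∃ s₁ t₁, s ≤ s₁ ∧ s₁ < t₁ ∧ t₁ ≤ t ∧
      Ts a₁ a₂ a₃ (HH a₁ a₂ a₃ n) ∉ Ioo s₁ t₁ := by
    by_cases hT : Ts a₁ a₂ a₃ (HH a₁ a₂ a₃ n) ∈ Ioo s t
    · exact ⟨s, Ts a₁ a₂ a₃ (HH a₁ a₂ a₃ n), le_rfl, hT.1, hT.2.le, fun h => lt_irrefl _ h.2⟩
    · exact ⟨s, t, le_rfl, hst, le_rfl, hT⟩
  have H : ∀ x ∈ Ioo s₁ t₁, (geo a₁ a₂ a₃ n x).imI = 0 ∨ (geo a₁ a₂ a₃ n x).imJ = 0 ∨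
      (geo a₁ a₂ a₃ n x).imK = 0 := by
    intro x hx
    by_contra hx'
    push Not at hx'
    exact hx'.2.2 (hcon x ⟨lt_of_le_of_lt hs₁ hx.1, lt_of_lt_of_le hx.2 ht₁⟩ hx'.1 hx'.2.1)
  obtain ⟨s₂, t₂, hs₂, hst₂, ht₂, hcase⟩ := exists_subinterval hI hJ hK hst₁ H
  have hconst : ∃ w : ℍ[ℝ], ∀ x ∈ Ioo s₂ t₂, bg a₁ a₂ a₃ n x = w := by
    have hbase : ∀ x ∈ Ioo s₂ t₂, 0 < x ∧ x < tcut a₁ a₂ a₃ (HH a₁ a₂ a₃ n) ∧
        x ≠ Ts a₁ a₂ a₃ (HH a₁ a₂ a₃ n) := by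
      intro x hx
      refine ⟨by linarith [hx.1], by linarith [hx.2], ?_⟩
      intro hxT
      apply hTs
      rw [← hxT]
      exact ⟨by linarith [hx.1], by linarith [hx.2]⟩
    rcases hcase with hz | hz | hz
    · refine ⟨rf1 n, fun x hx => ?_⟩
      obtain ⟨b1, b2, b3⟩ := hbase x hx
      have := (wall_rf hax hn hr hr2 b1 b2 b3).1 (hz x hx)
      exact (rf1_inv _).symm.trans (congrArg rf1 this)
    · refine ⟨rf2 n, fun x hx => ?_⟩
      obtain ⟨b1, b2, b3⟩ := hbase x hx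
      have := (wall_rf hax hn hr hr2 b1 b2 b3).2.1 (hz x hx)
      exact (rf2_inv _).symm.trans (congrArg rf2 this)
    · refine ⟨rf3 n, fun x hx => ?_⟩
      obtain ⟨b1, b2, b3⟩ := hbase x hx
      have := (wall_rf hax hn hr hr2 b1 b2 b3).2.2 (hz x hx)
      exact (rf3_inv _).symm.trans (congrArg rf3 this)
  obtain ⟨w, hw⟩ := hconst
  have hmid : (s₂ + t₂) / 2 ∈ Ioo s₂ t₂ := ⟨by linarith, by linarith⟩
  have haxis := axis_of_const hax hn.1 (s := (s₂ + t₂) / 2) (t := t₂) (by linarith)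
    (fun x hx => by
      rw [hw x ⟨by linarith [hx.1], hx.2⟩, hw _ hmid])
  exact not_axis hax hn hr.2.ne hr2 hr.1.ne' haxis

end

end ClosAux

noncomputable section

open ClosAux

/-- the off-wall case -/
private theorem minl_offwall {a b c : ℝ} (ha : 0 < a) (hab : a < b) (hbc : b < c) {m : ℍ[ℝ]}
    (hm : m ∈ Ell (1 / a) (1 / b) (1 / c)) {T : ℝ} (h0 : 0 < T)
    (hT : T < Tc (1 / a) (1 / b) (1 / c) m)
    (h1 : (geo (1 / a) (1 / b) (1 / c) m T).imI ≠ 0)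
    (h2 : (geo (1 / a) (1 / b) (1 / c) m T).imJ ≠ 0)
    (h3 : (geo (1 / a) (1 / b) (1 / c) m T).imK ≠ 0) : Minl a b c m T := by
  have hax := ax_inv ha hab hbc
  have hb : 0 < b := ha.trans hab
  have hc : 0 < c := hb.trans hbc
  set q := geo (1 / a) (1 / b) (1 / c) m T with hq
  have hq1 : ‖q‖ = 1 := norm_geo m T
  obtain ⟨m', hm', hgm'⟩ := exists_min ha hb hc q hq1
  set d := gdist a b c 1 q with hd
  have hd0 : 0 < d := by
    rcases hm'.2.1.lt_or_eq with h | h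
    · exact h
    · exfalso
      rw [← h, geo_zero] at hgm'
      apply h1
      rw [← hgm']
      simp
  have hdle : d ≤ Tc (1 / a) (1 / b) (1 / c) m' := minl_le_Tc ha hab hbc hm'
  obtain ⟨un1, un2, un3, un4, un5, un6⟩ := unit_of_Ell hm hax
  obtain ⟨vn1, vn2, vn3, vn4, vn5, vn6⟩ := unit_of_Ell hm'.1 hax
  set n := ‖m‖⁻¹ • m with hn
  set n' := ‖m'‖⁻¹ • m' with hn'
  have hTc : Tc (1 / a) (1 / b) (1 / c) m = tcut (1 / a) (1 / b) (1 / c)
      (HH (1 / a) (1 / b) (1 / c) n) / ‖m‖ := by rw [un3]; rfl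
  have hTc' : Tc (1 / a) (1 / b) (1 / c) m' = tcut (1 / a) (1 / b) (1 / c)
      (HH (1 / a) (1 / b) (1 / c) n') / ‖m'‖ := by rw [vn3]; rfl
  -- `d ≠ Tc m'`
  have hdlt : d < Tc (1 / a) (1 / b) (1 / c) m' := by
    rcases hdle.lt_or_eq with h | h
    · exact h
    · exfalso
      have hd' : ‖m'‖ * d = tcut (1 / a) (1 / b) (1 / c)
          (HH (1 / a) (1 / b) (1 / c) n') := by
        rw [h, hTc', mul_div_cancel₀ _ vn1.ne']
      have hw := wall_cut hax vn2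
      rw [← hd', ← vn5, hgm'] at hw
      by_cases hR : Reg1 (1 / a) (1 / b) (1 / c) (HH (1 / a) (1 / b) (1 / c) n')
      · exact h1 (hw.1 hR)
      · exact h2 (hw.2 hR)
  have e1 : geo (1 / a) (1 / b) (1 / c) n (‖m‖ * T) = q := by rw [← un5]
  have e2 : geo (1 / a) (1 / b) (1 / c) n' (‖m'‖ * d) = q := by rw [← vn5, hgm']
  have hu := uniq hax un2 vn2 (τ := ‖m‖ * T) (τ' := ‖m'‖ * d) (mul_pos un1 h0)
    (by
      have := (lt_div_iff₀ un1).1 (hTc ▸ hT)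
      linarith [mul_comm T ‖m‖])
    (mul_pos vn1 hd0)
    (by
      have := (lt_div_iff₀ vn1).1 (hTc' ▸ hdlt)
      linarith [mul_comm d ‖m'‖])
    (by rw [e1, e2]) (by rw [e1]; exact h1) (by rw [e1]; exact h2) (by rw [e1]; exact h3)
  obtain ⟨hu1, hu2⟩ := hu
  have hnorm : ‖m‖ = ‖m'‖ := by
    have h := un3
    rw [hu1, vn3] at h
    unfold rr at h
    have h' : ‖m'‖ ^ 2 = ‖m‖ ^ 2 := by
      have := congrArg (fun x : ℝ => x⁻¹) h
      simpa using this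
    exact (abs_eq_abs.1 (sq_eq_sq_iff_abs_eq_abs _ _ |>.1 h'.symm)).elim id (fun h => by linarith)
  have hmm : m = m' := by
    have h := hu1
    rw [hn, hn', ← hnorm] at h
    have h2 := congrArg (fun x => ‖m‖ • x) h
    simpa [smul_smul, mul_inv_cancel₀ un1.ne'] using h2
  have hTd : T = d := by
    rw [← hnorm] at hu2
    exact mul_left_cancel₀ un1.ne' hu2
  rw [hmm, hTd]
  exact hm'

private theorem minl_regular {a b c : ℝ} (ha : 0 < a) (hab : a < b) (hbc : b < c) {m : ℍ[ℝ]}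
    (hm : m ∈ Ell (1 / a) (1 / b) (1 / c)) (hr : rr m ∈ Ioo (1 / c) (1 / a))
    (hr2 : rr m ≠ 1 / b) {T : ℝ} (h0 : 0 ≤ T)
    (hT : T < Tc (1 / a) (1 / b) (1 / c) m) : Minl a b c m T := by
  have hax := ax_inv ha hab hbc
  have hb : 0 < b := ha.trans hab
  have hc : 0 < c := hb.trans hbc
  obtain ⟨un1, un2, un3, un4, un5, un6⟩ := unit_of_Ell hm hax
  have hTc : Tc (1 / a) (1 / b) (1 / c) m = tcut (1 / a) (1 / b) (1 / c)
      (HH (1 / a) (1 / b) (1 / c) (‖m‖⁻¹ • m)) / ‖m‖ := by rw [un3]; rfl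
  have hlt : ‖m‖ * T < tcut (1 / a) (1 / b) (1 / c)
      (HH (1 / a) (1 / b) (1 / c) (‖m‖⁻¹ • m)) := by
    have := (lt_div_iff₀ un1).1 (hTc ▸ hT)
    linarith [mul_comm T ‖m‖]
  obtain ⟨x, hx, hx1, hx2, hx3⟩ := exists_offwall hax un2 (by rw [un3]; exact hr)
    (by rw [un3]; exact hr2) (mul_nonneg un1.le h0) hlt le_rfl
  have hxe : ‖m‖ * (x / ‖m‖) = x := by field_simp
  have hgx : geo (1 / a) (1 / b) (1 / c) m (x / ‖m‖)
      = geo (1 / a) (1 / b) (1 / c) (‖m‖⁻¹ • m) x := by rw [un5, hxe]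
  have hTx : T < x / ‖m‖ := by
    rw [lt_div_iff₀ un1]; linarith [hx.1, mul_comm T ‖m‖]
  have hM := minl_offwall ha hab hbc hm (T := x / ‖m‖) (lt_of_le_of_lt h0 hTx)
    (by rw [hTc]; exact div_lt_div_of_pos_right hx.2 un1)
    (by rw [hgx]; exact hx1) (by rw [hgx]; exact hx2) (by rw [hgx]; exact hx3)
  exact minl_mono ha hb hc hM h0 hTx.le

theorem minl_iff {a b c : ℝ} (ha : 0 < a) (hab : a < b) (hbc : b < c) {m : ℍ[ℝ]} {T : ℝ} :
    Minl a b c m T ↔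
      m ∈ Ell (1 / a) (1 / b) (1 / c) ∧ 0 ≤ T ∧ T ≤ Tc (1 / a) (1 / b) (1 / c) m := by
  have hax := ax_inv ha hab hbc
  have hb : 0 < b := ha.trans hab
  have hc : 0 < c := hb.trans hbc
  constructor
  · intro h
    exact ⟨h.1, h.2.1, minl_le_Tc ha hab hbc h⟩
  · rintro ⟨hm, h0, hT⟩
    -- regular momenta converging to `m`
    have hseq : ∀ k : ℕ, ∃ m' ∈ Ell (1 / a) (1 / b) (1 / c), ‖m' - m‖ < 1 / ((k : ℝ) + 1) ∧
        rr m' ∈ Ioo (1 / c) (1 / a) ∧ rr m' ≠ 1 / b := fun k =>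
      dense_regular hax hm (by positivity)
    choose u hu1 hu2 hu3 hu4 using hseq
    have hlim : Filter.Tendsto u Filter.atTop (nhds m) := by
      rw [tendsto_iff_norm_sub_tendsto_zero]
      refine squeeze_zero (fun k => norm_nonneg _) (fun k => (hu2 k).le) ?_
      exact tendsto_one_div_add_atTop_nhds_zero_nat
    have hlimT : Filter.Tendsto (fun k => Tc (1 / a) (1 / b) (1 / c) (u k)) Filter.atTop
        (nhds (Tc (1 / a) (1 / b) (1 / c) m)) := by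
      have h := (Tc_contOn hax) m hm
      exact h.tendsto.comp (tendsto_nhdsWithin_iff.2 ⟨hlim, Filter.Eventually.of_forall hu1⟩)
    -- times slightly before the cut time
    set S : ℕ → ℝ := fun k => (1 - 1 / ((k : ℝ) + 2)) *
      min T (Tc (1 / a) (1 / b) (1 / c) (u k)) with hS
    have hTcp : ∀ k, 0 < Tc (1 / a) (1 / b) (1 / c) (u k) := fun k => Tc_pos hax (hu1 k)
    have hfac : ∀ k : ℕ, 0 ≤ 1 - 1 / ((k : ℝ) + 2) ∧ 1 - 1 / ((k : ℝ) + 2) < 1 := by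
      intro k
      have hk : (0 : ℝ) < (k : ℝ) + 2 := by positivity
      have h1 : 1 / ((k : ℝ) + 2) ≤ 1 := by
        rw [div_le_one hk]
        have : (0 : ℝ) ≤ k := Nat.cast_nonneg k
        linarith
      have h2 : 0 < 1 / ((k : ℝ) + 2) := by positivity
      exact ⟨by linarith, by linarith⟩
    have hSmin : ∀ k, Minl a b c (u k) (S k) := by
      intro k
      have hmin0 : 0 ≤ min T (Tc (1 / a) (1 / b) (1 / c) (u k)) :=
        le_min h0 (hTcp k).le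
      refine minl_regular ha hab hbc (hu1 k) (hu3 k) (hu4 k)
        (mul_nonneg (hfac k).1 hmin0) ?_
      calc (1 - 1 / ((k : ℝ) + 2)) * min T (Tc (1 / a) (1 / b) (1 / c) (u k))
          ≤ (1 - 1 / ((k : ℝ) + 2)) * Tc (1 / a) (1 / b) (1 / c) (u k) :=
            mul_le_mul_of_nonneg_left (min_le_right _ _) (hfac k).1
        _ < 1 * Tc (1 / a) (1 / b) (1 / c) (u k) :=
            mul_lt_mul_of_pos_right (hfac k).2 (hTcp k)
        _ = _ := one_mul _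
    have hSlim : Filter.Tendsto S Filter.atTop (nhds T) := by
      have h1 : Filter.Tendsto (fun k : ℕ => 1 - 1 / ((k : ℝ) + 2)) Filter.atTop
          (nhds (1 - 0)) := by
        refine tendsto_const_nhds.sub ?_
        have h2 : Filter.Tendsto (fun k : ℕ => 1 / (((k + 1 : ℕ) : ℝ) + 1)) Filter.atTop
            (nhds 0) :=
          tendsto_one_div_add_atTop_nhds_zero_nat.comp (Filter.tendsto_add_atTop_nat 1)
        refine h2.congr (fun k => ?_)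
        push_cast
        ring
      have h2 : Filter.Tendsto (fun k => min T (Tc (1 / a) (1 / b) (1 / c) (u k)))
          Filter.atTop (nhds (min T (Tc (1 / a) (1 / b) (1 / c) m))) :=
        tendsto_const_nhds.min hlimT
      rw [min_eq_left hT] at h2
      have h3 := h1.mul h2
      rw [sub_zero, one_mul] at h3
      exact h3
    have hpair : Filter.Tendsto (fun k => (u k, S k)) Filter.atTop (nhds (m, T)) :=
      hlim.prodMk_nhds hSlim
    exact (minl_closed ha hb hc).mem_of_tendsto hpair (Filter.Eventually.of_forall hSmin)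

end

end Pool.Agent.CutS3
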