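import Pool.Agent.CutS3.Defs

set_option autoImplicit false

namespace Pool.Agent.CutS3

open Set

/-- two continuous maps from a compact space with the same fibres have homeomorphic images -/
theorem compact_quot {X Y Z : Type} [TopologicalSpace X] [TopologicalSpace Y]
    [TopologicalSpace Z] [T2Space Y] [T2Space Z] {K : Set X} (hK : IsCompact K) {f : X → Y}
    {g : X → Z} (hf : ContinuousOn f K) (hg : ContinuousOn g K)
    (h : ∀ x ∈ K, ∀ y ∈ K, (f x = f y ↔ g x = g y)) :
    ∃ φ : g '' K → Y, Topology.IsEmbedding φ ∧ range φ = f '' K ∧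
      ∀ x (hx : x ∈ K), φ ⟨g x, mem_image_of_mem g hx⟩ = f x := by
  classical
  haveI : CompactSpace K := isCompact_iff_compactSpace.mp hK
  haveI : CompactSpace (g '' K) := isCompact_iff_compactSpace.mp (hK.image_of_continuousOn hg)
  let G : K → g '' K := fun x => ⟨g x, mem_image_of_mem g x.2⟩
  have hG : Continuous G := by
    refine Continuous.subtype_mk ?_ _
    exact continuousOn_iff_continuous_restrict.mp hg
  have hGsurj : Function.Surjective G := by
    rintro ⟨z, x, hx, rfl⟩
    exact ⟨⟨x, hx⟩, rfl⟩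
  have hq : Topology.IsQuotientMap G := hG.isClosedMap.isQuotientMap hG hGsurj
  let φ : g '' K → Y := fun z => f z.2.choose
  have hφ : ∀ x (hx : x ∈ K), φ ⟨g x, mem_image_of_mem g hx⟩ = f x := by
    intro x hx
    have hs := (mem_image_of_mem g hx).choose_spec
    exact (h _ hs.1 x hx).mpr hs.2
  have hφc : Continuous φ := by
    rw [hq.continuous_iff]
    have : φ ∘ G = K.restrict f := by
      funext x
      exact hφ x.1 x.2
    rw [this]
    exact continuousOn_iff_continuous_restrict.mp hf
  have hφi : Function.Injective φ := by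
    rintro ⟨z, x, hx, rfl⟩ ⟨w, y, hy, rfl⟩ he
    have h1 := hφ x hx
    have h2 := hφ y hy
    have : f x = f y := by rw [← h1, ← h2]; exact he
    exact Subtype.ext ((h x hx y hy).mp this)
  refine ⟨φ, (hφc.isClosedEmbedding hφi).isEmbedding, ?_, hφ⟩
  ext y
  constructor
  · rintro ⟨⟨z, x, hx, rfl⟩, rfl⟩
    exact ⟨x, hx, (hφ x hx).symm⟩
  · rintro ⟨x, hx, rfl⟩
    exact ⟨⟨g x, mem_image_of_mem g hx⟩, hφ x hx⟩

end Pool.Agent.CutS3
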