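import Pool.Agent.CutS3.Corner

set_option autoImplicit false

namespace Pool.Agent.CutS3

open Set Quaternion

noncomputable section

section seg
variable {a b c : ℝ}

namespace SegAux

theorem clamp_eq {T t : ℝ} (ht : t ∈ Icc (0 : ℝ) T) : max 0 (min t T) = t := by
  rw [min_eq_left ht.2, max_eq_right ht.1]

theorem isSegment_of_minl (ha : 0 < a) (hb : 0 < b) (hc : 0 < c) {T : ℝ} {m : ℍ[ℝ]}
    (hm : Minl a b c m T) :
    IsSegment a b c T (fun t => geo (1 / a) (1 / b) (1 / c) m (max 0 (min t T))) := by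
  have hT := hm.2.1
  refine ⟨hT, fun t => norm_geo m _, ?_, ?_, ?_, ?_⟩
  · rw [clamp_eq ⟨le_rfl, hT⟩]
    exact geo_zero m
  · intro s hs t ht
    rw [clamp_eq hs, clamp_eq ht]
    rcases le_total s t with h | h
    · rw [minl_dist ha hb hc hm hs.1 h ht.2, abs_of_nonpos (by linarith)]
      ring
    · rw [gdist_comm _ _ (norm_geo m s) (norm_geo m t), minl_dist ha hb hc hm ht.1 h hs.2,
        abs_of_nonneg (by linarith)]
  · intro t ht
    rw [clamp_eq ⟨le_rfl, hT⟩, min_eq_left (by linarith : t ≤ T), max_eq_left ht.le]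
  · intro t ht
    rw [clamp_eq ⟨hT, le_rfl⟩, min_eq_right ht.le, max_eq_right hT]

/-- the momentum of a segment of positive length -/
theorem exists_momentum (ha : 0 < a) (hb : 0 < b) (hc : 0 < c) {T : ℝ} {γ : ℝ → ℍ[ℝ]}
    (h : IsSegment a b c T γ) (hT : 0 < T) :
    ∃ m, Minl a b c m T ∧ ∀ t ∈ Icc (0 : ℝ) T, geo (1 / a) (1 / b) (1 / c) m t = γ t := by
  have hd : ∀ s ∈ Icc (0 : ℝ) T, ∀ t ∈ Icc (0 : ℝ) T, s ≤ t → gdist a b c (γ s) (γ t) = t - s := by
    intro s hs t ht hst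
    rw [h.isometric s hs t ht, abs_of_nonpos (by linarith)]
    ring
  have h0 : (0 : ℝ) ∈ Icc (0 : ℝ) T := ⟨le_rfl, hT.le⟩
  have hTT : T ∈ Icc (0 : ℝ) T := ⟨hT.le, le_rfl⟩
  -- joins
  have join : ∀ s ∈ Ioo (0 : ℝ) T, ∃ m, Minl a b c m T ∧
      geo (1 / a) (1 / b) (1 / c) m s = γ s ∧ geo (1 / a) (1 / b) (1 / c) m T = γ T := by
    intro s hs
    have hs' : s ∈ Icc (0 : ℝ) T := ⟨hs.1.le, hs.2.le⟩
    have e1 := hd 0 h0 s hs' hs.1.le
    have e2 := hd s hs' T hTT hs.2.le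
    have e3 := hd 0 h0 T hTT hT.le
    rw [h.source, sub_zero] at e1 e3
    obtain ⟨m, hm, hm1, hm2⟩ := minl_join ha hb hc (h.unit s) (h.unit T) hs.1
      (sub_pos.mpr hs.2) e1 e2 (by rw [e3]; ring)
    rw [add_sub_cancel] at hm hm2
    exact ⟨m, hm, hm1, hm2⟩
  have join2 : ∀ s s' : ℝ, 0 < s → s < s' → s' < T → ∀ m, Minl a b c m T →
      geo (1 / a) (1 / b) (1 / c) m s' = γ s' → geo (1 / a) (1 / b) (1 / c) m s = γ s := by
    intro s s' hs hss hs'T m hm hms'
    have hs1 : s ∈ Icc (0 : ℝ) T := ⟨hs.le, by linarith⟩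
    have hs1' : s' ∈ Icc (0 : ℝ) T := ⟨by linarith, hs'T.le⟩
    have e1 := hd 0 h0 s hs1 hs.le
    have e2 := hd s hs1 s' hs1' hss.le
    have e3 := hd 0 h0 s' hs1' (by linarith)
    rw [h.source, sub_zero] at e1 e3
    obtain ⟨m1, hm1, hm1s, hm1s'⟩ := minl_join ha hb hc (h.unit s) (h.unit s') hs
      (sub_pos.mpr hss) e1 e2 (by rw [e3]; ring)
    rw [add_sub_cancel] at hm1s'
    have : m1 = m := minl_unique ha hb hc hm (hs.trans hss) hs'T hm1.1
      (by rw [hm1s', hms'])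
    rw [← this]
    exact hm1s
  obtain ⟨m, hm, hm1, hm2⟩ := join (T / 2) ⟨by linarith, by linarith⟩
  refine ⟨m, hm, fun t ht => ?_⟩
  rcases eq_or_lt_of_le ht.1 with h1 | h1
  · rw [← h1, geo_zero, h.source]
  rcases eq_or_lt_of_le ht.2 with h2 | h2
  · rw [h2, hm2]
  rcases lt_trichotomy t (T / 2) with h3 | h3 | h3
  · exact join2 t (T / 2) h1 h3 (by linarith) m hm hm1
  · rw [h3, hm1]
  · obtain ⟨m', hm', hm'1, _⟩ := join t ⟨h1, h2⟩
    have h4 := join2 (T / 2) t (by linarith) h3 h2 m' hm' hm'1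
    have : m' = m := minl_unique ha hb hc hm (by linarith : (0 : ℝ) < T / 2) (by linarith) hm'.1
      (by rw [h4, hm1])
    rw [← this]
    exact hm'1

theorem gdist_pos (ha : 0 < a) (hb : 0 < b) (hc : 0 < c) {q : ℍ[ℝ]} (hq : ‖q‖ = 1)
    (hq1 : q ≠ 1) : 0 < gdist a b c 1 q := by
  obtain ⟨C, hC, hle⟩ := norm_le_gdist ha hb hc
  have h1 := hle 1 q norm_one hq
  have h2 : 0 < ‖1 - q‖ := norm_pos_iff.mpr (sub_ne_zero.mpr (Ne.symm hq1))
  by_contra hneg
  push Not at hneg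
  have : C * gdist a b c 1 q ≤ 0 := mul_nonpos_of_nonneg_of_nonpos hC.le hneg
  linarith

end SegAux

open SegAux

theorem isSegment_iff (ha : 0 < a) (hb : 0 < b) (hc : 0 < c) (T : ℝ) (γ : ℝ → ℍ[ℝ]) :
    IsSegment a b c T γ ↔ ∃ m, Minl a b c m T ∧
      γ = fun t => geo (1 / a) (1 / b) (1 / c) m (max 0 (min t T)) := by
  constructor
  · intro h
    rcases eq_or_lt_of_le h.nonneg with h0 | h0
    · obtain ⟨m, hm, -⟩ := exists_min ha hb hc 1 norm_one
      rw [gdist_self 1 norm_one] at hm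
      refine ⟨m, h0 ▸ hm, ?_⟩
      funext t
      rw [← h0]
      have h3 : max 0 (min t (0 : ℝ)) = 0 := max_eq_left (min_le_right _ _)
      rw [h3, geo_zero]
      rcases lt_trichotomy t 0 with h1 | h1 | h1
      · rw [h.before t h1, h.source]
      · rw [h1, h.source]
      · rw [h.after t (h0 ▸ h1), ← h0, h.source]
    · obtain ⟨m, hm, hmt⟩ := exists_momentum ha hb hc h h0
      refine ⟨m, hm, ?_⟩
      funext t
      rcases lt_or_ge t 0 with h1 | h1
      · rw [h.before t h1, min_eq_left (by linarith : t ≤ T), max_eq_left h1.le,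
          hmt 0 ⟨le_rfl, h0.le⟩]
      rcases lt_or_ge T t with h2 | h2
      · rw [h.after t h2, min_eq_right h2.le, max_eq_right h0.le, hmt T ⟨h0.le, le_rfl⟩]
      · rw [clamp_eq ⟨h1, h2⟩, hmt t ⟨h1, h2⟩]
  · rintro ⟨m, hm, rfl⟩
    exact isSegment_of_minl ha hb hc hm

theorem segments_equiv (ha : 0 < a) (hb : 0 < b) (hc : 0 < c) (q : ℍ[ℝ]) (hq : ‖q‖ = 1)
    (hq1 : q ≠ 1) :
    Nonempty (segments a b c q ≃ {m : ℍ[ℝ] | Minl a b c m (gdist a b c 1 q) ∧
      geo (1 / a) (1 / b) (1 / c) m (gdist a b c 1 q) = q}) := by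
  set d := gdist a b c 1 q with hd
  have hdpos : 0 < d := gdist_pos ha hb hc hq hq1
  have hF : ∀ m : {m : ℍ[ℝ] | Minl a b c m d ∧ geo (1 / a) (1 / b) (1 / c) m d = q},
      (fun t => geo (1 / a) (1 / b) (1 / c) m.1 (max 0 (min t d))) ∈ segments a b c q := by
    rintro ⟨m, hm, hmq⟩
    refine ⟨d, isSegment_of_minl ha hb hc hm, ?_⟩
    simp only
    rw [clamp_eq ⟨hdpos.le, le_rfl⟩, hmq]
  let F : {m : ℍ[ℝ] | Minl a b c m d ∧ geo (1 / a) (1 / b) (1 / c) m d = q} →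
      segments a b c q := fun m => ⟨_, hF m⟩
  have hbij : Function.Bijective F := by
    constructor
    · rintro ⟨m, hm, hmq⟩ ⟨m', hm', hmq'⟩ he
      have h1 := congrFun (congrArg Subtype.val he) (d / 2)
      simp only [F] at h1
      rw [clamp_eq ⟨by linarith, by linarith⟩] at h1
      have := minl_unique ha hb hc hm (by linarith : (0 : ℝ) < d / 2) (by linarith) hm'.1 h1.symm
      exact Subtype.ext this.symm
    · rintro ⟨γ, T, hγ, hγq⟩
      obtain ⟨m, hm, hme⟩ := (isSegment_iff ha hb hc T γ).mp hγ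
      have hTd : T = d := by
        have := hγ.isometric 0 ⟨le_rfl, hγ.nonneg⟩ T ⟨hγ.nonneg, le_rfl⟩
        rw [hγ.source, hγq, zero_sub, abs_neg, abs_of_nonneg hγ.nonneg] at this
        rw [hd, this]
      subst hTd
      have hmq : geo (1 / a) (1 / b) (1 / c) m d = q := by
        rw [← hγq, hme]
        simp only
        rw [clamp_eq ⟨hγ.nonneg, le_rfl⟩]
      refine ⟨⟨m, hm, hmq⟩, ?_⟩
      apply Subtype.ext
      exact hme.symm
  exact ⟨(Equiv.ofBijective F hbij).symm⟩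

theorem mem_cutLocus_iff (ha : 0 < a) (hb : 0 < b) (hc : 0 < c) (q : ℍ[ℝ]) :
    q ∈ cutLocus a b c ↔ ∃ m T, 0 < T ∧ Minl a b c m T ∧
      geo (1 / a) (1 / b) (1 / c) m T = q ∧ ∀ T', T < T' → ¬ Minl a b c m T' := by
  constructor
  · rintro ⟨T, γ, hγ, hγq, hmax⟩
    have hT : 0 < T := by
      rcases eq_or_lt_of_le hγ.nonneg with h0 | h0
      · exfalso
        have hne : (-1 : ℍ[ℝ]) ≠ 1 := by
          intro he
          have := congrArg QuaternionAlgebra.re he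
          norm_num at this
        have hn1 : ‖(-1 : ℍ[ℝ])‖ = 1 := by rw [norm_neg, norm_one]
        have hpos := gdist_pos ha hb hc hn1 hne
        obtain ⟨m', hm', -⟩ := exists_min ha hb hc (-1) hn1
        refine hmax _ _ (h0 ▸ hpos) (isSegment_of_minl ha hb hc hm') ?_
        intro t ht
        rw [← h0] at ht
        have ht0 : t = 0 := le_antisymm ht.2 ht.1
        rw [ht0, hγ.source, min_eq_left hpos.le, max_self, geo_zero]
      · exact h0
    obtain ⟨m, hm, hme⟩ := (isSegment_iff ha hb hc T γ).mp hγ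
    refine ⟨m, T, hT, hm, ?_, ?_⟩
    · rw [← hγq, hme]
      simp only
      rw [clamp_eq ⟨hT.le, le_rfl⟩]
    · intro T' hTT' hm'
      refine hmax T' _ hTT' (isSegment_of_minl ha hb hc hm') ?_
      intro t ht
      rw [hme]
      simp only
      rw [clamp_eq ht, clamp_eq ⟨ht.1, by linarith [ht.2]⟩]
  · rintro ⟨m, T, hT, hm, hmq, hmax⟩
    refine ⟨T, _, isSegment_of_minl ha hb hc hm, ?_, ?_⟩
    · rw [clamp_eq ⟨hT.le, le_rfl⟩, hmq]
    · intro T' γ' hTT' hγ' hall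
      obtain ⟨m', hm', hme'⟩ := (isSegment_iff ha hb hc T' γ').mp hγ'
      have h1 := hall T ⟨hT.le, le_rfl⟩
      rw [hme'] at h1
      simp only at h1
      rw [clamp_eq ⟨hT.le, hTT'.le⟩, clamp_eq ⟨hT.le, le_rfl⟩] at h1
      have h2 := minl_unique ha hb hc hm' hT hTT' hm.1 h1.symm
      rw [← h2] at hm'
      exact hmax T' hTT' hm'

end seg

end

end Pool.Agent.CutS3
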