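import Pool.Agent.CutS3.Closure
import Pool.Agent.CutS3.Seg

set_option autoImplicit false
set_option linter.unusedVariables false

/-!
# Module CUTSET: the cut locus is the image of `Phi`
-/

namespace Pool.Agent.CutS3

open Set Quaternion

namespace CutSetAux

noncomputable section

open ClosAux

variable {a₁ a₂ a₃ : ℝ}

theorem Tc_bg {m : ℍ[ℝ]} (s : ℝ) : Tc a₁ a₂ a₃ (bg a₁ a₂ a₃ m s) = Tc a₁ a₂ a₃ m := by
  unfold Tc rr
  rw [norm_bg]

/-- the end point in terms of the momentum at the middle -/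
theorem Phi_bg {m : ℍ[ℝ]} {T : ℝ} (hT : Tc a₁ a₂ a₃ m = T) :
    Phi a₁ a₂ a₃ (bg a₁ a₂ a₃ m (T / 2)) = geo a₁ a₂ a₃ m T := by
  set g : ℍ[ℝ] := geo a₁ a₂ a₃ m (T / 2) with hg
  set P : ℍ[ℝ] := bg a₁ a₂ a₃ m (T / 2) with hP
  have hg1 : ‖g‖ = 1 := norm_geo m (T / 2)
  have hTP : Tc a₁ a₂ a₃ P = T := by rw [hP, Tc_bg, hT]
  have h1 : g * geo a₁ a₂ a₃ P (-(T / 2)) = 1 := by
    have h := geo_add (a₁ := a₁) (a₂ := a₂) (a₃ := a₃) m (T / 2) (-(T / 2))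
    rw [add_neg_cancel, geo_zero] at h
    exact h.symm
  have h2 : g * geo a₁ a₂ a₃ P (T / 2) = geo a₁ a₂ a₃ m T := by
    have h := geo_add (a₁ := a₁) (a₂ := a₂) (a₃ := a₃) m (T / 2) (T / 2)
    rw [add_halves] at h
    exact h.symm
  have hstar : star g * g = 1 := by
    rw [Quaternion.star_mul_self, Quaternion.normSq_eq_norm_mul_self, hg1]
    simp
  have h3 : geo a₁ a₂ a₃ P (-(T / 2)) = star g := by
    calc geo a₁ a₂ a₃ P (-(T / 2)) = (star g * g) * geo a₁ a₂ a₃ P (-(T / 2)) := by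
          rw [hstar, one_mul]
      _ = star g * (g * geo a₁ a₂ a₃ P (-(T / 2))) := mul_assoc _ _ _
      _ = star g := by rw [h1, mul_one]
  unfold Phi
  rw [hTP, h3, star_star, h2]

theorem bg_bg_neg (m : ℍ[ℝ]) (s : ℝ) : bg a₁ a₂ a₃ (bg a₁ a₂ a₃ m s) (-s) = m := by
  rw [← bg_add, add_neg_cancel, bg_zero]

theorem bg_neg_bg (m : ℍ[ℝ]) (s : ℝ) : bg a₁ a₂ a₃ (bg a₁ a₂ a₃ m (-s)) s = m := by
  rw [← bg_add, neg_add_cancel, bg_zero]

theorem Phi_eq (P : ℍ[ℝ]) :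
    Phi a₁ a₂ a₃ P = geo a₁ a₂ a₃ (bg a₁ a₂ a₃ P (-(Tc a₁ a₂ a₃ P / 2))) (Tc a₁ a₂ a₃ P) := by
  have h := Phi_bg (a₁ := a₁) (a₂ := a₂) (a₃ := a₃)
    (m := bg a₁ a₂ a₃ P (-(Tc a₁ a₂ a₃ P / 2))) (T := Tc a₁ a₂ a₃ P) (Tc_bg _)
  rw [bg_neg_bg] at h
  exact h

end

end CutSetAux

noncomputable section

open ClosAux CutSetAux

/-- the cut locus in terms of the momenta -/
private theorem mem_cut_iff {a b c : ℝ} (ha : 0 < a) (hab : a < b) (hbc : b < c) (q : ℍ[ℝ]) :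
    q ∈ cutLocus a b c ↔ ∃ m, m ∈ Ell (1 / a) (1 / b) (1 / c) ∧
      geo (1 / a) (1 / b) (1 / c) m (Tc (1 / a) (1 / b) (1 / c) m) = q := by
  have hax := ax_inv ha hab hbc
  have hb : 0 < b := ha.trans hab
  have hc : 0 < c := hb.trans hbc
  rw [mem_cutLocus_iff ha hb hc]
  constructor
  · rintro ⟨m, T, hT, hM, hg, hmax⟩
    obtain ⟨h1, h2, h3⟩ := (minl_iff ha hab hbc).1 hM
    have hTe : T = Tc (1 / a) (1 / b) (1 / c) m := by
      refine le_antisymm h3 (le_of_not_gt fun hlt => ?_)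
      exact hmax _ hlt ((minl_iff ha hab hbc).2 ⟨h1, (h2.trans h3), le_rfl⟩)
    exact ⟨m, h1, hTe ▸ hg⟩
  · rintro ⟨m, hm, hg⟩
    have hpos := Tc_pos hax hm
    refine ⟨m, Tc (1 / a) (1 / b) (1 / c) m, hpos,
      (minl_iff ha hab hbc).2 ⟨hm, hpos.le, le_rfl⟩, hg, ?_⟩
    intro T' hT' hM'
    exact absurd ((minl_iff ha hab hbc).1 hM').2.2 (not_le.2 hT')

theorem cutLocus_eq {a b c : ℝ} (ha : 0 < a) (hab : a < b) (hbc : b < c) :
    cutLocus a b c = Phi (1 / a) (1 / b) (1 / c) '' Ell (1 / a) (1 / b) (1 / c) := by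
  ext q
  rw [mem_cut_iff ha hab hbc]
  constructor
  · rintro ⟨m, hm, hg⟩
    exact ⟨bg (1 / a) (1 / b) (1 / c) m (Tc (1 / a) (1 / b) (1 / c) m / 2),
      bg_mem_Ell hm _, (Phi_bg rfl).trans hg⟩
  · rintro ⟨P, hP, hPq⟩
    refine ⟨bg (1 / a) (1 / b) (1 / c) P (-(Tc (1 / a) (1 / b) (1 / c) P / 2)),
      bg_mem_Ell hP _, ?_⟩
    rw [Tc_bg, ← Phi_eq, hPq]

/-- the segments with end point `q` in terms of the momenta -/
private theorem minl_geo_iff {a b c : ℝ} (ha : 0 < a) (hab : a < b) (hbc : b < c) {q : ℍ[ℝ]}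
    (hq : q ∈ cutLocus a b c) (m : ℍ[ℝ]) :
    (Minl a b c m (gdist a b c 1 q) ∧
      geo (1 / a) (1 / b) (1 / c) m (gdist a b c 1 q) = q) ↔
    (m ∈ Ell (1 / a) (1 / b) (1 / c) ∧
      geo (1 / a) (1 / b) (1 / c) m (Tc (1 / a) (1 / b) (1 / c) m) = q) := by
  have hax := ax_inv ha hab hbc
  have hb : 0 < b := ha.trans hab
  have hc : 0 < c := hb.trans hbc
  have hfull : ∀ m' : ℍ[ℝ], m' ∈ Ell (1 / a) (1 / b) (1 / c) →
      geo (1 / a) (1 / b) (1 / c) m' (Tc (1 / a) (1 / b) (1 / c) m') = q →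
      gdist a b c 1 q = Tc (1 / a) (1 / b) (1 / c) m' := by
    intro m' hm' hg'
    have h := ((minl_iff ha hab hbc).2 ⟨hm', (Tc_pos hax hm').le, le_rfl⟩).2.2
    rw [hg'] at h
    exact h
  constructor
  · rintro ⟨hM, hg⟩
    obtain ⟨m0, hm0, hg0⟩ := (mem_cut_iff ha hab hbc q).1 hq
    have hd0 := hfull m0 hm0 hg0
    obtain ⟨h1, h2, h3⟩ := (minl_iff ha hab hbc).1 hM
    refine ⟨h1, ?_⟩
    rcases h3.lt_or_eq with hlt | heq
    · exfalso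
      have hpos : 0 < gdist a b c 1 q := by rw [hd0]; exact Tc_pos hax hm0
      have hMfull : Minl a b c m (Tc (1 / a) (1 / b) (1 / c) m) :=
        (minl_iff ha hab hbc).2 ⟨h1, (Tc_pos hax h1).le, le_rfl⟩
      have he : geo (1 / a) (1 / b) (1 / c) m0 (gdist a b c 1 q)
          = geo (1 / a) (1 / b) (1 / c) m (gdist a b c 1 q) := by
        rw [hg, hd0, hg0]
      have := minl_unique ha hb hc hMfull hpos hlt hm0 he
      rw [this] at hd0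
      exact hlt.ne hd0
    · rw [← heq]; exact hg
  · rintro ⟨hm, hg⟩
    have hd := hfull m hm hg
    rw [hd]
    exact ⟨(minl_iff ha hab hbc).2 ⟨hm, (Tc_pos hax hm).le, le_rfl⟩, hg⟩

theorem segments_fibre {a b c : ℝ} (ha : 0 < a) (hab : a < b) (hbc : b < c) {q : ℍ[ℝ]}
    (hq : q ∈ cutLocus a b c) :
    Nonempty (segments a b c q ≃
      {P : ℍ[ℝ] | P ∈ Ell (1 / a) (1 / b) (1 / c) ∧ Phi (1 / a) (1 / b) (1 / c) P = q}) := by
  have hax := ax_inv ha hab hbc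
  have hb : 0 < b := ha.trans hab
  have hc : 0 < c := hb.trans hbc
  obtain ⟨m0, hm0, hg0⟩ := (mem_cut_iff ha hab hbc q).1 hq
  have hq1 : ‖q‖ = 1 := by rw [← hg0]; exact norm_geo m0 _
  have hne : q ≠ 1 := by
    intro h1
    have h := ((minl_iff ha hab hbc).2 ⟨hm0, (Tc_pos hax hm0).le, le_rfl⟩).2.2
    rw [hg0, h1, gdist_self 1 norm_one] at h
    exact (Tc_pos hax hm0).ne h
  obtain ⟨e⟩ := segments_equiv ha hb hc q hq1 hne
  refine ⟨e.trans ?_⟩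
  refine
    { toFun := fun m => ⟨bg (1 / a) (1 / b) (1 / c) m.1 (Tc (1 / a) (1 / b) (1 / c) m.1 / 2),
        ?_⟩
      invFun := fun P => ⟨bg (1 / a) (1 / b) (1 / c) P.1
        (-(Tc (1 / a) (1 / b) (1 / c) P.1 / 2)), ?_⟩
      left_inv := ?_
      right_inv := ?_ }
  · have h := (minl_geo_iff ha hab hbc hq m.1).1 m.2
    exact ⟨bg_mem_Ell h.1 _, (Phi_bg rfl).trans h.2⟩
  · have h := P.2
    refine (minl_geo_iff ha hab hbc hq _).2 ⟨bg_mem_Ell h.1 _, ?_⟩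
    rw [Tc_bg, ← Phi_eq]
    exact h.2
  · intro m
    apply Subtype.ext
    show bg _ _ _ (bg _ _ _ m.1 _) (-(Tc _ _ _ (bg _ _ _ m.1 _) / 2)) = m.1
    rw [Tc_bg, bg_bg_neg]
  · intro P
    apply Subtype.ext
    show bg _ _ _ (bg _ _ _ P.1 _) (Tc _ _ _ (bg _ _ _ P.1 _) / 2) = P.1
    rw [Tc_bg, bg_neg_bg]

theorem Phi_cont {a b c : ℝ} (ha : 0 < a) (hab : a < b) (hbc : b < c) :
    ContinuousOn (Phi (1 / a) (1 / b) (1 / c)) (Ell (1 / a) (1 / b) (1 / c)) := by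
  have hax := ax_inv ha hab hbc
  have hT := Tc_contOn hax
  have hg := continuous_geo (a₁ := 1 / a) (a₂ := 1 / b) (a₃ := 1 / c)
  have h1 : ContinuousOn (fun P : ℍ[ℝ] => ((P, -(Tc (1 / a) (1 / b) (1 / c) P / 2)) :
      ℍ[ℝ] × ℝ)) (Ell (1 / a) (1 / b) (1 / c)) :=
    continuousOn_id.prodMk (hT.div_const 2).neg
  have h2 : ContinuousOn (fun P : ℍ[ℝ] => ((P, Tc (1 / a) (1 / b) (1 / c) P / 2) :
      ℍ[ℝ] × ℝ)) (Ell (1 / a) (1 / b) (1 / c)) :=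
    continuousOn_id.prodMk (hT.div_const 2)
  have h3 := hg.comp_continuousOn h1
  have h4 := hg.comp_continuousOn h2
  have h5 := (continuous_star.comp_continuousOn h3).mul h4
  exact h5

end

end Pool.Agent.CutS3
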