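import Pool.Agent.CutS3.Pub

set_option autoImplicit false

/-!
# The cut locus of the left-invariant metrics `g_{a,b,c}` on `S^3` : internal definitions
-/

namespace Pool.Agent.CutS3

open Set Quaternion

noncomputable section

/-- The angular velocity `ω` belonging to the momentum `p`: `ω = (a₁ p₁, a₂ p₂, a₃ p₃)`. -/
def dg (a₁ a₂ a₃ : ℝ) (p : ℍ[ℝ]) : ℍ[ℝ] := ⟨0, a₁ * p.imI, a₂ * p.imJ, a₃ * p.imK⟩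

/-- Body momentum at `q` for the spatial momentum `m`. -/
def bm (m q : ℍ[ℝ]) : ℍ[ℝ] := star q * m * q

/-- The geodesic vector field on quaternions with spatial momentum `m`. -/
def vf (a₁ a₂ a₃ : ℝ) (m q : ℍ[ℝ]) : ℍ[ℝ] := q * dg a₁ a₂ a₃ (bm m q)

/-- `c` is the geodesic from `1` with momentum `m`. -/
def IsGeo (a₁ a₂ a₃ : ℝ) (m : ℍ[ℝ]) (c : ℝ → ℍ[ℝ]) : Prop :=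
  c 0 = 1 ∧ ∀ t, HasDerivAt c (vf a₁ a₂ a₃ m (c t)) t

open Classical in
/-- The geodesic from `1` with momentum `m`. -/
def geo (a₁ a₂ a₃ : ℝ) (m : ℍ[ℝ]) : ℝ → ℍ[ℝ] :=
  if h : ∃ c, IsGeo a₁ a₂ a₃ m c then h.choose else fun _ => 1

/-- Twice the kinetic energy. -/
def HH (a₁ a₂ a₃ : ℝ) (p : ℍ[ℝ]) : ℝ :=
  a₁ * p.imI ^ 2 + a₂ * p.imJ ^ 2 + a₃ * p.imK ^ 2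

/-- pure quaternions of norm one (momenta in rescaled time) -/
def Un : Set ℍ[ℝ] := {n | n.re = 0 ∧ ‖n‖ = 1}

/-- the cyclic rotation of the three axes -/
def cyc (q : ℍ[ℝ]) : ℍ[ℝ] := ⟨q.re, q.imJ, q.imK, q.imI⟩

/-- the ordering of the inverse moments of inertia -/
structure Ax (a₁ a₂ a₃ : ℝ) : Prop where
  pos : 0 < a₃
  h23 : a₃ < a₂
  h12 : a₂ < a₁

/-- Unit covectors. -/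
def Ell (a₁ a₂ a₃ : ℝ) : Set ℍ[ℝ] := {p | p.re = 0 ∧ HH a₁ a₂ a₃ p = 1}

/-- The reflections negating one imaginary coordinate. -/
def rf1 (q : ℍ[ℝ]) : ℍ[ℝ] := ⟨q.re, -q.imI, q.imJ, q.imK⟩
def rf2 (q : ℍ[ℝ]) : ℍ[ℝ] := ⟨q.re, q.imI, -q.imJ, q.imK⟩
def rf3 (q : ℍ[ℝ]) : ℍ[ℝ] := ⟨q.re, q.imI, q.imJ, -q.imK⟩

/-- The geodesic with momentum `m` is minimising on `[0,T]`. -/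
def Minl (a b c : ℝ) (m : ℍ[ℝ]) (T : ℝ) : Prop :=
  m ∈ Ell (1 / a) (1 / b) (1 / c) ∧ 0 ≤ T ∧ gdist a b c 1 (geo (1 / a) (1 / b) (1 / c) m T) = T

/-! ### one dimensional reduction -/

def PP (k m n y : ℝ) : ℝ := 4 * y * (k - y) * (m - y) * (n - y)

/-- half of the derivative of `PP` -/
def PD (k m n y : ℝ) : ℝ :=
  2 * ((k - y) * (m - y) * (n - y) - y * (m - y) * (n - y) - y * (k - y) * (n - y)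
    - y * (k - y) * (m - y))

structure IsY (k m n : ℝ) (y v : ℝ → ℝ) : Prop where
  y0 : y 0 = 0
  v0 : v 0 = 0
  hy : ∀ t, HasDerivAt y (v t) t
  hv : ∀ t, HasDerivAt v (PD k m n (y t)) t

open Classical in
/-- The solution of `y'' = P'(y)/2`, `y(0) = y'(0) = 0`, `P = PP k m n`. -/
def yf (k m n : ℝ) : ℝ → ℝ :=
  if h : ∃ y : ℝ → ℝ, ∃ v : ℝ → ℝ, IsY k m n y v then h.choose else fun _ => 0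

/-- its derivative -/
def yd (k m n : ℝ) : ℝ → ℝ := deriv (yf k m n)

/-- The first positive zero of the derivative (half period). -/
def hT (k m n : ℝ) : ℝ := sInf {t : ℝ | 0 < t ∧ yd k m n t = 0}

/-- The functions `y` for the three axes (in rescaled time `τ = ‖m‖ t`, `r = 1/‖m‖²`). -/
def y1 (a₁ a₂ a₃ r : ℝ) : ℝ → ℝ := yf (a₁ - r) (a₁ - a₂) (a₁ - a₃)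
def y2 (a₁ a₂ a₃ r : ℝ) : ℝ → ℝ := yf (a₂ - r) (a₂ - a₃) (a₂ - a₁)
def y3 (a₁ a₂ a₃ r : ℝ) : ℝ → ℝ := yf (a₃ - r) (a₃ - a₁) (a₃ - a₂)
/-- their derivatives -/
def v1 (a₁ a₂ a₃ r : ℝ) : ℝ → ℝ := yd (a₁ - r) (a₁ - a₂) (a₁ - a₃)
def v2 (a₁ a₂ a₃ r : ℝ) : ℝ → ℝ := yd (a₂ - r) (a₂ - a₃) (a₂ - a₁)
def v3 (a₁ a₂ a₃ r : ℝ) : ℝ → ℝ := yd (a₃ - r) (a₃ - a₁) (a₃ - a₂)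

/-- the angles -/
def G1 (a₁ a₂ a₃ r τ : ℝ) : ℝ := ∫ s in (0 : ℝ)..τ, (a₁ - y1 a₁ a₂ a₃ r s)
def G2 (a₁ a₂ a₃ r τ : ℝ) : ℝ := ∫ s in (0 : ℝ)..τ, (a₂ - y2 a₁ a₂ a₃ r s)
def G3 (a₁ a₂ a₃ r τ : ℝ) : ℝ := ∫ s in (0 : ℝ)..τ, (a₃ - y3 a₁ a₂ a₃ r s)

/-- common half period -/
def Ts (a₁ a₂ a₃ r : ℝ) : ℝ := hT (a₁ - r) (a₁ - a₂) (a₁ - a₃)

/-- the open period (the half line at the separatrix) -/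
def Per (a₁ a₂ a₃ r τ : ℝ) : Prop := 0 < τ ∧ (r ≠ a₂ → τ < 2 * Ts a₁ a₂ a₃ r)

/-- first half of the period -/
def First (a₁ a₂ a₃ r τ : ℝ) : Prop := 0 ≤ τ ∧ (r ≠ a₂ → τ ≤ Ts a₁ a₂ a₃ r)

/-- first hitting time of `π` -/
def tau1 (a₁ a₂ a₃ r : ℝ) : ℝ := sInf {τ : ℝ | 0 ≤ τ ∧ Real.pi ≤ G1 a₁ a₂ a₃ r τ}
def tau2 (a₁ a₂ a₃ r : ℝ) : ℝ := sInf {τ : ℝ | 0 ≤ τ ∧ Real.pi ≤ G2 a₁ a₂ a₃ r τ}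

/-- region 1 : the cut time is `tau1` -/
def Reg1 (a₁ a₂ a₃ r : ℝ) : Prop := a₂ ≤ r ∨ Real.pi ≤ G1 a₁ a₂ a₃ r (Ts a₁ a₂ a₃ r)

open Classical in
/-- rescaled cut time -/
def tcut (a₁ a₂ a₃ r : ℝ) : ℝ :=
  if Reg1 a₁ a₂ a₃ r then tau1 a₁ a₂ a₃ r else tau2 a₁ a₂ a₃ r

/-- `r = 1/‖m‖²` -/
def rr (m : ℍ[ℝ]) : ℝ := 1 / ‖m‖ ^ 2

/-- cut time of the geodesic with momentum `m` -/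
def Tc (a₁ a₂ a₃ : ℝ) (m : ℍ[ℝ]) : ℝ := tcut a₁ a₂ a₃ (rr m) / ‖m‖

/-- `exp (θ n)` for a pure unit quaternion `n` -/
def rot (θ : ℝ) (n : ℍ[ℝ]) : ℍ[ℝ] :=
  ((Real.cos θ : ℝ) : ℍ[ℝ]) + (Real.sin θ) • n

/-! ### the algebraic family of configurations through a point `q` -/

def B1 (a₁ a₂ : ℝ) (q : ℍ[ℝ]) (β : ℝ) : ℝ := β + (a₁ - a₂) * q.re
def B3 (a₂ a₃ : ℝ) (q : ℍ[ℝ]) (β : ℝ) : ℝ := β - (a₂ - a₃) * q.re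

def N1 (a₁ a₂ a₃ : ℝ) (q : ℍ[ℝ]) (β : ℝ) : ℝ :=
  β ^ 2 * B3 a₂ a₃ q β ^ 2 + (a₁ - a₂) ^ 2 * q.imJ ^ 2 * B3 a₂ a₃ q β ^ 2
    + (a₁ - a₃) ^ 2 * q.imK ^ 2 * β ^ 2
def N2 (a₁ a₂ a₃ : ℝ) (q : ℍ[ℝ]) (β : ℝ) : ℝ :=
  B1 a₁ a₂ q β ^ 2 * B3 a₂ a₃ q β ^ 2 + (a₁ - a₂) ^ 2 * q.imI ^ 2 * B3 a₂ a₃ q β ^ 2
    + (a₂ - a₃) ^ 2 * q.imK ^ 2 * B1 a₁ a₂ q β ^ 2
def N3 (a₁ a₂ a₃ : ℝ) (q : ℍ[ℝ]) (β : ℝ) : ℝ :=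
  B1 a₁ a₂ q β ^ 2 * β ^ 2 + (a₁ - a₃) ^ 2 * q.imI ^ 2 * β ^ 2
    + (a₂ - a₃) ^ 2 * q.imJ ^ 2 * B1 a₁ a₂ q β ^ 2

def Y1 (a₁ a₂ a₃ : ℝ) (q : ℍ[ℝ]) (β : ℝ) : ℝ :=
  (a₁ - a₂) * (a₁ - a₃) * ((a₁ - a₂) * q.imJ ^ 2 * B3 a₂ a₃ q β ^ 2
    + (a₁ - a₃) * q.imK ^ 2 * β ^ 2) / N1 a₁ a₂ a₃ q β
def Y2 (a₁ a₂ a₃ : ℝ) (q : ℍ[ℝ]) (β : ℝ) : ℝ :=
  (a₁ - a₂) * (a₂ - a₃) * ((a₁ - a₂) * q.imI ^ 2 * B3 a₂ a₃ q β ^ 2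
    - (a₂ - a₃) * q.imK ^ 2 * B1 a₁ a₂ q β ^ 2) / N2 a₁ a₂ a₃ q β
/-- this is `-y₃` -/
def Z3 (a₁ a₂ a₃ : ℝ) (q : ℍ[ℝ]) (β : ℝ) : ℝ :=
  (a₁ - a₃) * (a₂ - a₃) * ((a₁ - a₃) * q.imI ^ 2 * β ^ 2
    + (a₂ - a₃) * q.imJ ^ 2 * B1 a₁ a₂ q β ^ 2) / N3 a₁ a₂ a₃ q β

def M1 (a₁ a₂ a₃ : ℝ) (q : ℍ[ℝ]) (β : ℝ) : ℝ :=
  q.re * β * B3 a₂ a₃ q β - (a₁ - a₂) * q.imJ ^ 2 * B3 a₂ a₃ q β - (a₁ - a₃) * q.imK ^ 2 * β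
def M2 (a₁ a₂ a₃ : ℝ) (q : ℍ[ℝ]) (β : ℝ) : ℝ :=
  q.re * B1 a₁ a₂ q β * B3 a₂ a₃ q β + (a₁ - a₂) * q.imI ^ 2 * B3 a₂ a₃ q β
    - (a₂ - a₃) * q.imK ^ 2 * B1 a₁ a₂ q β
def M3 (a₁ a₂ a₃ : ℝ) (q : ℍ[ℝ]) (β : ℝ) : ℝ :=
  q.re * B1 a₁ a₂ q β * β + (a₁ - a₃) * q.imI ^ 2 * β + (a₂ - a₃) * q.imJ ^ 2 * B1 a₁ a₂ q β

/-- the cosines of the three angles -/
def c1 (a₁ a₂ a₃ : ℝ) (q : ℍ[ℝ]) (β : ℝ) : ℝ :=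
  M1 a₁ a₂ a₃ q β / Real.sqrt (N1 a₁ a₂ a₃ q β)
def c2 (a₁ a₂ a₃ : ℝ) (q : ℍ[ℝ]) (β : ℝ) : ℝ :=
  M2 a₁ a₂ a₃ q β / Real.sqrt (N2 a₁ a₂ a₃ q β)
def c3 (a₁ a₂ a₃ : ℝ) (q : ℍ[ℝ]) (β : ℝ) : ℝ :=
  M3 a₁ a₂ a₃ q β / Real.sqrt (N3 a₁ a₂ a₃ q β)

def E1 (a₁ a₂ a₃ : ℝ) (q : ℍ[ℝ]) (β : ℝ) : ℝ :=
  B1 a₁ a₂ q β ^ 2 + (a₁ - a₂) * (a₁ - a₃) * q.imI ^ 2
def E2 (a₁ a₂ a₃ : ℝ) (q : ℍ[ℝ]) (β : ℝ) : ℝ :=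
  β ^ 2 - (a₁ - a₂) * (a₂ - a₃) * q.imJ ^ 2
def E3 (a₁ a₂ a₃ : ℝ) (q : ℍ[ℝ]) (β : ℝ) : ℝ :=
  B3 a₂ a₃ q β ^ 2 + (a₁ - a₃) * (a₂ - a₃) * q.imK ^ 2
def F1 (a₁ a₂ a₃ : ℝ) (q : ℍ[ℝ]) (β : ℝ) : ℝ :=
  (a₁ - a₂) * q.imJ ^ 2 * B3 a₂ a₃ q β ^ 2 + (a₁ - a₃) * q.imK ^ 2 * β ^ 2
def F2 (a₁ a₂ a₃ : ℝ) (q : ℍ[ℝ]) (β : ℝ) : ℝ :=
  (a₁ - a₂) * q.imI ^ 2 * B3 a₂ a₃ q β ^ 2 - (a₂ - a₃) * q.imK ^ 2 * B1 a₁ a₂ q β ^ 2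
def F3 (a₁ a₂ a₃ : ℝ) (q : ℍ[ℝ]) (β : ℝ) : ℝ :=
  (a₁ - a₃) * q.imI ^ 2 * β ^ 2 + (a₂ - a₃) * q.imJ ^ 2 * B1 a₁ a₂ q β ^ 2
def K1 (a₁ a₂ a₃ : ℝ) (q : ℍ[ℝ]) (β : ℝ) : ℝ :=
  (a₁ - a₂) * q.imJ ^ 2 * B3 a₂ a₃ q β * E3 a₁ a₂ a₃ q β
    + (a₁ - a₃) * q.imK ^ 2 * β * E2 a₁ a₂ a₃ q β
def K2 (a₁ a₂ a₃ : ℝ) (q : ℍ[ℝ]) (β : ℝ) : ℝ :=
  -(a₁ - a₂) * q.imI ^ 2 * B3 a₂ a₃ q β * E3 a₁ a₂ a₃ q β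
    + (a₂ - a₃) * q.imK ^ 2 * B1 a₁ a₂ q β * E1 a₁ a₂ a₃ q β
def K3 (a₁ a₂ a₃ : ℝ) (q : ℍ[ℝ]) (β : ℝ) : ℝ :=
  (a₁ - a₃) * q.imI ^ 2 * β * E2 a₁ a₂ a₃ q β
    + (a₂ - a₃) * q.imJ ^ 2 * B1 a₁ a₂ q β * E1 a₁ a₂ a₃ q β

/-- the direction of the body momentum -/
def pP (a₁ a₂ a₃ : ℝ) (q : ℍ[ℝ]) (β : ℝ) : ℍ[ℝ] :=
  ⟨0, q.imI * β * B3 a₂ a₃ q β - (a₂ - a₃) * q.imJ * q.imK * B1 a₁ a₂ q β,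
    q.imJ * B1 a₁ a₂ q β * B3 a₂ a₃ q β + (a₁ - a₃) * q.imI * q.imK * β,
    q.imK * B1 a₁ a₂ q β * β - (a₁ - a₂) * q.imI * q.imJ * B3 a₂ a₃ q β⟩

/-- `r = 1/ρ²` as a function of `β` -/
def rb (a₁ a₂ a₃ : ℝ) (q : ℍ[ℝ]) (β : ℝ) : ℝ :=
  HH a₁ a₂ a₃ (pP a₁ a₂ a₃ q β) / ‖pP a₁ a₂ a₃ q β‖ ^ 2

/-! ### clocks: the angles as functions of `|yᵢ|` on the first half -/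

def gk1 (a₁ a₂ a₃ r x : ℝ) : ℝ :=
  (a₁ - x) / Real.sqrt (4 * x * (a₁ - r - x) * (a₁ - a₂ - x) * (a₁ - a₃ - x))
def gk3 (a₁ a₂ a₃ r x : ℝ) : ℝ :=
  (a₃ + x) / Real.sqrt (4 * x * (r - a₃ - x) * (a₂ - a₃ - x) * (a₁ - a₃ - x))
/-- index 2, `r > a₂`, `x = y₂` -/
def gk2I (a₁ a₂ a₃ r x : ℝ) : ℝ :=
  (a₂ - x) / Real.sqrt (4 * x * (r - a₂ + x) * (a₂ - a₃ - x) * (a₁ - a₂ + x))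
/-- index 2, `r < a₂`, `x = -y₂` -/
def gk2T (a₁ a₂ a₃ r x : ℝ) : ℝ :=
  (a₂ + x) / Real.sqrt (4 * x * (a₂ - r + x) * (a₂ - a₃ + x) * (a₁ - a₂ - x))
def gg1 (a₁ a₂ a₃ r x : ℝ) : ℝ := ∫ s in (0 : ℝ)..x, gk1 a₁ a₂ a₃ r s
def gg3 (a₁ a₂ a₃ r x : ℝ) : ℝ := ∫ s in (0 : ℝ)..x, gk3 a₁ a₂ a₃ r s
def gg2I (a₁ a₂ a₃ r x : ℝ) : ℝ := ∫ s in (0 : ℝ)..x, gk2I a₁ a₂ a₃ r s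
def gg2T (a₁ a₂ a₃ r x : ℝ) : ℝ := ∫ s in (0 : ℝ)..x, gk2T a₁ a₂ a₃ r s

/-! ### index data at one time -/

/-- The relations satisfied by `z = conj(q) exp(G n)` and the body momentum `p` in the adapted
coordinates (the index is called `1`, the other two are called `2, 3`, `m = a₁ - a₂`,
`n = a₁ - a₃`), `v` is the time derivative of `y`. -/
structure IdxAt (m n z0 z2 z3 p1 p2 p3 y v : ℝ) : Prop where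
  unit : z0 ^ 2 + z2 ^ 2 + z3 ^ 2 = 1
  hy : y = n * z2 ^ 2 + m * z3 ^ 2
  hI : p1 * z0 * y - p2 * z3 * (m - y) + p3 * z2 * (n - y) = 0
  hv : v = 2 * ((n - m) * z2 * z3 * y * p1 + n * z0 * z2 * (m - y) * p2
    + m * z0 * z3 * (n - y) * p3)

/-- the points `zᵢ(τ) = conj(q(τ)) exp(Gᵢ(τ) n)` for a unit momentum `n` -/
def zz1 (a₁ a₂ a₃ : ℝ) (n : ℍ[ℝ]) (τ : ℝ) : ℍ[ℝ] :=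
  star (geo a₁ a₂ a₃ n τ) * rot (G1 a₁ a₂ a₃ (HH a₁ a₂ a₃ n) τ) n
def zz2 (a₁ a₂ a₃ : ℝ) (n : ℍ[ℝ]) (τ : ℝ) : ℍ[ℝ] :=
  star (geo a₁ a₂ a₃ n τ) * rot (G2 a₁ a₂ a₃ (HH a₁ a₂ a₃ n) τ) n
def zz3 (a₁ a₂ a₃ : ℝ) (n : ℍ[ℝ]) (τ : ℝ) : ℍ[ℝ] :=
  star (geo a₁ a₂ a₃ n τ) * rot (G3 a₁ a₂ a₃ (HH a₁ a₂ a₃ n) τ) n

/-- body momentum along the geodesic with spatial momentum `m` -/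
def bg (a₁ a₂ a₃ : ℝ) (m : ℍ[ℝ]) (t : ℝ) : ℍ[ℝ] := bm m (geo a₁ a₂ a₃ m t)

/-- `β` represents the geodesic with unit momentum `n` at its point `q` at the rescaled
time `τ`. -/
structure RepAt (a₁ a₂ a₃ : ℝ) (q n : ℍ[ℝ]) (τ β : ℝ) : Prop where
  beta_pos : 0 < β
  e2 : 0 < E2 a₁ a₂ a₃ q β
  mom : ∃ σ : ℝ, 0 < σ ∧ bm n q = σ • pP a₁ a₂ a₃ q β
  hr : rb a₁ a₂ a₃ q β = HH a₁ a₂ a₃ n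
  hy1 : Y1 a₁ a₂ a₃ q β = y1 a₁ a₂ a₃ (HH a₁ a₂ a₃ n) τ
  hy2 : Y2 a₁ a₂ a₃ q β = y2 a₁ a₂ a₃ (HH a₁ a₂ a₃ n) τ
  hz3 : Z3 a₁ a₂ a₃ q β = -y3 a₁ a₂ a₃ (HH a₁ a₂ a₃ n) τ
  hc1 : c1 a₁ a₂ a₃ q β = Real.cos (G1 a₁ a₂ a₃ (HH a₁ a₂ a₃ n) τ)
  hc2 : c2 a₁ a₂ a₃ q β = Real.cos (G2 a₁ a₂ a₃ (HH a₁ a₂ a₃ n) τ)
  hc3 : c3 a₁ a₂ a₃ q β = Real.cos (G3 a₁ a₂ a₃ (HH a₁ a₂ a₃ n) τ)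
  half : (0 ≤ B1 a₁ a₂ q β ∧ 0 ≤ B3 a₂ a₃ q β ∧
      (HH a₁ a₂ a₃ n = a₂ → 0 < B3 a₂ a₃ q β) ∧ First a₁ a₂ a₃ (HH a₁ a₂ a₃ n) τ) ∨
    (B1 a₁ a₂ q β < 0 ∧ a₂ < HH a₁ a₂ a₃ n ∧ Ts a₁ a₂ a₃ (HH a₁ a₂ a₃ n) < τ) ∨
    (B3 a₂ a₃ q β < 0 ∧ HH a₁ a₂ a₃ n < a₂ ∧ Ts a₁ a₂ a₃ (HH a₁ a₂ a₃ n) < τ)

/-! ### midpoint parametrisation of the cut locus -/

/-- the fibres of the parametrisation, case of one disc -/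
def eqvA (P P' : ℍ[ℝ]) : Prop := P' = P ∨ P' = rf1 P

/-- the fibres of the parametrisation, case of three discs -/
def eqvB (s : ℝ) (P P' : ℍ[ℝ]) : Prop :=
  (‖P‖ ^ 2 < s ∧ (P' = P ∨ P' = rf1 P)) ∨ (s < ‖P‖ ^ 2 ∧ (P' = P ∨ P' = rf2 P)) ∨
  (‖P‖ ^ 2 = s ∧ ‖P'‖ ^ 2 = s ∧ 0 < P.imK * P'.imK)

/-- end point at the cut time of the geodesic whose momentum at the middle is `P` -/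
def Phi (a₁ a₂ a₃ : ℝ) (P : ℍ[ℝ]) : ℍ[ℝ] :=
  star (geo a₁ a₂ a₃ P (-(Tc a₁ a₂ a₃ P / 2))) * geo a₁ a₂ a₃ P (Tc a₁ a₂ a₃ P / 2)

end

end Pool.Agent.CutS3
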