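import Pool.Agent.CutS3.Wall
import Pool.Agent.CutS3.TauB

set_option autoImplicit false
set_option linter.unusedVariables false

namespace Pool.Agent.CutS3

open Set Quaternion

noncomputable section

namespace FibreAux

open WallAux

variable {a₁ a₂ a₃ : ℝ}

/-- initial momentum (unit) of the geodesic whose momentum at the middle is `P` -/
def ini (a₁ a₂ a₃ : ℝ) (P : ℍ[ℝ]) : ℍ[ℝ] :=
  bg a₁ a₂ a₃ (‖P‖⁻¹ • P) (-(tcut a₁ a₂ a₃ (rr P) / 2))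

theorem ini_spec (hax : Ax a₁ a₂ a₃) {P : ℍ[ℝ]} (hP : P ∈ Ell a₁ a₂ a₃) :
    ini a₁ a₂ a₃ P ∈ Un ∧ HH a₁ a₂ a₃ (ini a₁ a₂ a₃ P) = rr P ∧
    Phi a₁ a₂ a₃ P = geo a₁ a₂ a₃ (ini a₁ a₂ a₃ P) (tcut a₁ a₂ a₃ (rr P)) ∧
    bg a₁ a₂ a₃ (ini a₁ a₂ a₃ P) (tcut a₁ a₂ a₃ (rr P) / 2) = ‖P‖⁻¹ • P := by
  obtain ⟨h0, hU, hH, hI, hg, -⟩ := unit_of_Ell hP hax
  have hU' : ini a₁ a₂ a₃ P ∈ Un := bg_mem_Un hU _
  refine ⟨hU', ?_, ?_, ?_⟩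
  · rw [ini, HH_bg hU.1, hH]
  · unfold Phi Tc
    rw [hg, hg]
    have e1 : ‖P‖ * -(tcut a₁ a₂ a₃ (rr P) / ‖P‖ / 2) = -(tcut a₁ a₂ a₃ (rr P) / 2) := by
      field_simp
    have e2 : ‖P‖ * (tcut a₁ a₂ a₃ (rr P) / ‖P‖ / 2) = -(tcut a₁ a₂ a₃ (rr P) / 2) +
        tcut a₁ a₂ a₃ (rr P) := by
      field_simp; ring
    rw [e1, e2, geo_add, ← mul_assoc]
    have h1 : star (geo a₁ a₂ a₃ (‖P‖⁻¹ • P) (-(tcut a₁ a₂ a₃ (rr P) / 2))) *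
        geo a₁ a₂ a₃ (‖P‖⁻¹ • P) (-(tcut a₁ a₂ a₃ (rr P) / 2)) = 1 := by
      rw [Quaternion.star_mul_self, Quaternion.normSq_eq_norm_mul_self, norm_geo]; simp
    rw [h1, one_mul]
    rfl
  · unfold ini
    rw [← bg_add]
    have : -(tcut a₁ a₂ a₃ (rr P) / 2) + tcut a₁ a₂ a₃ (rr P) / 2 = 0 := by ring
    rw [this, bg_zero]

theorem rf1c (q : ℍ[ℝ]) : (rf1 q).re = q.re ∧ (rf1 q).imI = -q.imI ∧ (rf1 q).imJ = q.imJ ∧
    (rf1 q).imK = q.imK := ⟨rfl, rfl, rfl, rfl⟩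

theorem rf2c (q : ℍ[ℝ]) : (rf2 q).re = q.re ∧ (rf2 q).imI = q.imI ∧ (rf2 q).imJ = -q.imJ ∧
    (rf2 q).imK = q.imK := ⟨rfl, rfl, rfl, rfl⟩

theorem rf1_smul (s : ℝ) (q : ℍ[ℝ]) : rf1 (s • q) = s • rf1 q := by
  obtain ⟨h0, h1, h2, h3⟩ := rf1c q
  obtain ⟨g0, g1, g2, g3⟩ := rf1c (s • q)
  ext
  · rw [g0, Quaternion.re_smul, Quaternion.re_smul, h0]
  · rw [g1, Quaternion.imI_smul, Quaternion.imI_smul, h1]; simp
  · rw [g2, Quaternion.imJ_smul, Quaternion.imJ_smul, h2]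
  · rw [g3, Quaternion.imK_smul, Quaternion.imK_smul, h3]

theorem rf2_smul (s : ℝ) (q : ℍ[ℝ]) : rf2 (s • q) = s • rf2 q := by
  obtain ⟨h0, h1, h2, h3⟩ := rf2c q
  obtain ⟨g0, g1, g2, g3⟩ := rf2c (s • q)
  ext
  · rw [g0, Quaternion.re_smul, Quaternion.re_smul, h0]
  · rw [g1, Quaternion.imI_smul, Quaternion.imI_smul, h1]
  · rw [g2, Quaternion.imJ_smul, Quaternion.imJ_smul, h2]; simp
  · rw [g3, Quaternion.imK_smul, Quaternion.imK_smul, h3]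

theorem rf1_star (q : ℍ[ℝ]) : star (rf1 q) = rf1 (star q) := by
  obtain ⟨h0, h1, h2, h3⟩ := rf1c q
  obtain ⟨g0, g1, g2, g3⟩ := rf1c (star q)
  ext
  · rw [g0, Quaternion.re_star, Quaternion.re_star, h0]
  · rw [g1, Quaternion.imI_star, Quaternion.imI_star, h1]
  · rw [g2, Quaternion.imJ_star, Quaternion.imJ_star, h2]
  · rw [g3, Quaternion.imK_star, Quaternion.imK_star, h3]

theorem rf2_star (q : ℍ[ℝ]) : star (rf2 q) = rf2 (star q) := by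
  obtain ⟨h0, h1, h2, h3⟩ := rf2c q
  obtain ⟨g0, g1, g2, g3⟩ := rf2c (star q)
  ext
  · rw [g0, Quaternion.re_star, Quaternion.re_star, h0]
  · rw [g1, Quaternion.imI_star, Quaternion.imI_star, h1]
  · rw [g2, Quaternion.imJ_star, Quaternion.imJ_star, h2]
  · rw [g3, Quaternion.imK_star, Quaternion.imK_star, h3]

theorem rf1_fix {q : ℍ[ℝ]} (h : q.imI = 0) : rf1 q = q := by
  obtain ⟨h0, h1, h2, h3⟩ := rf1c q
  ext
  · exact h0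
  · rw [h1, h, neg_zero]
  · exact h2
  · exact h3

theorem rf2_fix {q : ℍ[ℝ]} (h : q.imJ = 0) : rf2 q = q := by
  obtain ⟨h0, h1, h2, h3⟩ := rf2c q
  ext
  · exact h0
  · exact h1
  · rw [h2, h, neg_zero]
  · exact h3

theorem Tc_rf1 (P : ℍ[ℝ]) : Tc a₁ a₂ a₃ (rf1 P) = Tc a₁ a₂ a₃ P := by
  unfold Tc rr; rw [norm_rf1]

theorem Tc_rf2 (P : ℍ[ℝ]) : Tc a₁ a₂ a₃ (rf2 P) = Tc a₁ a₂ a₃ P := by
  unfold Tc rr; rw [norm_rf2]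

theorem Phi_rf1 {P : ℍ[ℝ]} (hP : P.re = 0) :
    Phi a₁ a₂ a₃ (rf1 P) = rf1 (Phi a₁ a₂ a₃ P) := by
  have h : ∀ t, geo a₁ a₂ a₃ (rf1 P) t = rf1 (star (geo a₁ a₂ a₃ P (-t))) := by
    intro t
    have := geo_rf1 (a₁ := a₁) (a₂ := a₂) (a₃ := a₃) hP 0 t
    rw [bg_zero, geo_zero, mul_one, zero_sub] at this
    exact this
  unfold Phi
  rw [Tc_rf1, h, h, rf1_star, star_star, ← rf1_mul, neg_neg]

theorem Phi_rf2 {P : ℍ[ℝ]} (hP : P.re = 0) :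
    Phi a₁ a₂ a₃ (rf2 P) = rf2 (Phi a₁ a₂ a₃ P) := by
  have h : ∀ t, geo a₁ a₂ a₃ (rf2 P) t = rf2 (star (geo a₁ a₂ a₃ P (-t))) := by
    intro t
    have := geo_rf2 (a₁ := a₁) (a₂ := a₂) (a₃ := a₃) hP 0 t
    rw [bg_zero, geo_zero, mul_one, zero_sub] at this
    exact this
  unfold Phi
  rw [Tc_rf2, h, h, rf2_star, star_star, ← rf2_mul, neg_neg]

theorem norm_of_rr {P P' : ℍ[ℝ]} (h0 : 0 < ‖P‖) (h0' : 0 < ‖P'‖) (h : rr P = rr P') :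
    ‖P‖ = ‖P'‖ := by
  unfold rr at h
  have h1 : ‖P‖ ^ 2 = ‖P'‖ ^ 2 := by
    field_simp at h
    linarith
  exact (sq_eq_sq₀ h0.le h0'.le).mp h1

/-- strict region 1 -/
def S1 (a₁ a₂ a₃ r : ℝ) : Prop := a₂ ≤ r ∨ Real.pi < G1 a₁ a₂ a₃ r (Ts a₁ a₂ a₃ r)

theorem S1.reg {r : ℝ} (h : S1 a₁ a₂ a₃ r) : Reg1 a₁ a₂ a₃ r := h.imp id le_of_lt

theorem tcut_reg {r : ℝ} (h : Reg1 a₁ a₂ a₃ r) : tcut a₁ a₂ a₃ r = tau1 a₁ a₂ a₃ r := by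
  unfold tcut; rw [if_pos h]
theorem tcut_not {r : ℝ} (h : ¬ Reg1 a₁ a₂ a₃ r) : tcut a₁ a₂ a₃ r = tau2 a₁ a₂ a₃ r := by
  unfold tcut; rw [if_neg h]

/-- at `r = a₁` the point `z₁` is `1` -/
theorem zz1_a1 (hax : Ax a₁ a₂ a₃) {n : ℍ[ℝ]} (hn : n ∈ Un) (h : HH a₁ a₂ a₃ n = a₁)
    (τ : ℝ) : zz1 a₁ a₂ a₃ n τ = 1 := by
  have h12 := hax.h12
  have h23 := hax.h23
  have key : ∀ t, (zz1 a₁ a₂ a₃ n t).re ^ 2 = 1 ∧ (zz1 a₁ a₂ a₃ n t).imI = 0 ∧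
      (zz1 a₁ a₂ a₃ n t).imJ = 0 ∧ (zz1 a₁ a₂ a₃ n t).imK = 0 := by
    intro t
    obtain ⟨hz1, hz2, hI⟩ := index1 a₁ a₂ a₃ hn t
    have hy := hI.hy
    have hr := y1_range h12 h23 (HH_mem_Icc hn hax).1 t
    have hu := sq_unit hz1
    rw [h] at hr hy
    have h0 : (a₁ - a₃) * (zz1 a₁ a₂ a₃ n t).imJ ^ 2 + (a₁ - a₂) * (zz1 a₁ a₂ a₃ n t).imK ^ 2 = 0 := by
      linarith [hr.1, hr.2.1]
    have hJ2 := sq_nonneg (zz1 a₁ a₂ a₃ n t).imJ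
    have hK2 := sq_nonneg (zz1 a₁ a₂ a₃ n t).imK
    have hJ3 := mul_nonneg (by linarith : (0:ℝ) ≤ a₁ - a₃) hJ2
    have hK3 := mul_nonneg (by linarith : (0:ℝ) ≤ a₁ - a₂) hK2
    have hJ4 : (zz1 a₁ a₂ a₃ n t).imJ = 0 := by
      have : (a₁ - a₃) * (zz1 a₁ a₂ a₃ n t).imJ ^ 2 = 0 := by linarith
      rcases mul_eq_zero.mp this with h' | h'
      · linarith
      · exact pow_eq_zero_iff two_ne_zero |>.mp h'
    have hK4 : (zz1 a₁ a₂ a₃ n t).imK = 0 := by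
      have : (a₁ - a₂) * (zz1 a₁ a₂ a₃ n t).imK ^ 2 = 0 := by linarith
      rcases mul_eq_zero.mp this with h' | h'
      · linarith
      · exact pow_eq_zero_iff two_ne_zero |>.mp h'
    refine ⟨?_, hz2, hJ4, hK4⟩
    rw [hz2, hJ4, hK4] at hu
    linarith
  have hpos := pos_of_no_zero' (f := fun τ => (zz1 a₁ a₂ a₃ n τ).re)
    (continuous_zz1_re a₁ a₂ a₃ n) (by simp [zz1_zero])
    (fun s hs => by have := (key s).1; rw [hs] at this; norm_num at this) τ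
  obtain ⟨k0, k1, k2, k3⟩ := key τ
  have k4 : (zz1 a₁ a₂ a₃ n τ).re = 1 := by
    nlinarith
  ext
  · rw [k4]; rfl
  · rw [k1]; rfl
  · rw [k2]; rfl
  · rw [k3]; rfl

theorem zz1_cut (hax : Ax a₁ a₂ a₃) {n : ℍ[ℝ]} (hn : n ∈ Un)
    (h : Reg1 a₁ a₂ a₃ (HH a₁ a₂ a₃ n)) :
    zz1 a₁ a₂ a₃ n (tau1 a₁ a₂ a₃ (HH a₁ a₂ a₃ n))
      = -star (geo a₁ a₂ a₃ n (tcut a₁ a₂ a₃ (HH a₁ a₂ a₃ n))) := by
  rw [tcut_reg h]
  unfold zz1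
  rw [(tau1_spec hax (HH_mem_Icc hn hax).1).2, rot_pi]
  simp

theorem zz2_cut (hax : Ax a₁ a₂ a₃) {n : ℍ[ℝ]} (hn : n ∈ Un)
    (h : ¬ Reg1 a₁ a₂ a₃ (HH a₁ a₂ a₃ n)) :
    zz2 a₁ a₂ a₃ n (tau2 a₁ a₂ a₃ (HH a₁ a₂ a₃ n))
      = -star (geo a₁ a₂ a₃ n (tcut a₁ a₂ a₃ (HH a₁ a₂ a₃ n))) := by
  rw [tcut_not h]
  unfold zz2
  rw [(tau2_spec hax (HH_mem_Icc hn hax).1).2, rot_pi]
  simp

theorem L1 (hax : Ax a₁ a₂ a₃) {n : ℍ[ℝ]} (hn : n ∈ Un)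
    (h : S1 a₁ a₂ a₃ (HH a₁ a₂ a₃ n)) :
    (geo a₁ a₂ a₃ n (tcut a₁ a₂ a₃ (HH a₁ a₂ a₃ n))).re < 0 ∧
    y1 a₁ a₂ a₃ (HH a₁ a₂ a₃ n) (tau1 a₁ a₂ a₃ (HH a₁ a₂ a₃ n)) =
      (a₁ - a₃) * (geo a₁ a₂ a₃ n (tcut a₁ a₂ a₃ (HH a₁ a₂ a₃ n))).imJ ^ 2
      + (a₁ - a₂) * (geo a₁ a₂ a₃ n (tcut a₁ a₂ a₃ (HH a₁ a₂ a₃ n))).imK ^ 2 := by
  have hz := zz1_cut hax hn h.reg
  have hr := (HH_mem_Icc hn hax).1
  have hI := (index1 a₁ a₂ a₃ hn (tau1 a₁ a₂ a₃ (HH a₁ a₂ a₃ n))).2.2.hy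
  constructor
  · have h0 : 0 < (zz1 a₁ a₂ a₃ n (tau1 a₁ a₂ a₃ (HH a₁ a₂ a₃ n))).re := by
      by_cases h1 : HH a₁ a₂ a₃ n = a₁
      · rw [zz1_a1 hax hn h1]; simp
      · have hr1 : HH a₁ a₂ a₃ n ∈ Ico a₃ a₁ := ⟨hr.1, lt_of_le_of_ne hr.2 h1⟩
        refine zz1_re hax hn hr1 (tcut_per hax hr1 (tau1_spec hax hr).1
          (tcut_reg h.reg).ge) ?_
        rcases h with h' | h'
        · exact Or.inl h'
        · by_cases h2 : a₂ ≤ HH a₁ a₂ a₃ n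
          · exact Or.inl h2
          · push Not at h2
            exact Or.inr ((tau1_first hax ⟨hr.1, h2⟩ (Or.inr h'.le)).2 h')
    rw [hz] at h0
    simp at h0
    exact h0
  · rw [hz] at hI
    simpa using hI

theorem L2 (hax : Ax a₁ a₂ a₃) {n : ℍ[ℝ]} (hn : n ∈ Un)
    (h : ¬ Reg1 a₁ a₂ a₃ (HH a₁ a₂ a₃ n)) :
    0 < (geo a₁ a₂ a₃ n (tcut a₁ a₂ a₃ (HH a₁ a₂ a₃ n))).re ∧
    y2 a₁ a₂ a₃ (HH a₁ a₂ a₃ n) (tau2 a₁ a₂ a₃ (HH a₁ a₂ a₃ n)) =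
      (a₂ - a₁) * (geo a₁ a₂ a₃ n (tcut a₁ a₂ a₃ (HH a₁ a₂ a₃ n))).imK ^ 2
      + (a₂ - a₃) * (geo a₁ a₂ a₃ n (tcut a₁ a₂ a₃ (HH a₁ a₂ a₃ n))).imI ^ 2 := by
  have hz := zz2_cut hax hn h
  have hr := (HH_mem_Icc hn hax).1
  have h2 : HH a₁ a₂ a₃ n < a₂ := by
    by_contra hc
    push Not at hc
    exact h (Or.inl hc)
  have hr1 : HH a₁ a₂ a₃ n ∈ Ico a₃ a₁ := ⟨hr.1, h2.trans hax.h12⟩
  have hI := (index2 a₁ a₂ a₃ hn (tau2 a₁ a₂ a₃ (HH a₁ a₂ a₃ n))).2.2.hy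
  constructor
  · have h0 := zz2_re hax hn ⟨hr.1, h2⟩ (tcut_per hax hr1 (tau2_spec hax hr).1
      (tcut_not h).ge) (tau2_second hax ⟨hr.1, h2⟩ h)
    rw [hz] at h0
    simp at h0
    exact h0
  · rw [hz] at hI
    simpa using hI

theorem U1 (hax : Ax a₁ a₂ a₃) {n n' : ℍ[ℝ]} (hn : n ∈ Un) (hn' : n' ∈ Un)
    (h : S1 a₁ a₂ a₃ (HH a₁ a₂ a₃ n)) (h' : S1 a₁ a₂ a₃ (HH a₁ a₂ a₃ n'))
    (he : geo a₁ a₂ a₃ n (tcut a₁ a₂ a₃ (HH a₁ a₂ a₃ n))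
      = geo a₁ a₂ a₃ n' (tcut a₁ a₂ a₃ (HH a₁ a₂ a₃ n'))) :
    HH a₁ a₂ a₃ n = HH a₁ a₂ a₃ n' := by
  have h1 := (L1 hax hn h).2
  have h2 := (L1 hax hn' h').2
  rw [he] at h1
  have hr := (HH_mem_Icc hn hax).1
  have hr' := (HH_mem_Icc hn' hax).1
  rcases lt_trichotomy (HH a₁ a₂ a₃ n) (HH a₁ a₂ a₃ n') with hlt | heq | hlt
  · have := yend_anti hax hr hr' h.reg h'.reg hlt
    rw [h1, h2] at this
    exact absurd this (lt_irrefl _)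
  · exact heq
  · have := yend_anti hax hr' hr h'.reg h.reg hlt
    rw [h1, h2] at this
    exact absurd this (lt_irrefl _)

theorem U2 (hax : Ax a₁ a₂ a₃) {n n' : ℍ[ℝ]} (hn : n ∈ Un) (hn' : n' ∈ Un)
    (h : ¬ Reg1 a₁ a₂ a₃ (HH a₁ a₂ a₃ n)) (h' : ¬ Reg1 a₁ a₂ a₃ (HH a₁ a₂ a₃ n'))
    (he : geo a₁ a₂ a₃ n (tcut a₁ a₂ a₃ (HH a₁ a₂ a₃ n))
      = geo a₁ a₂ a₃ n' (tcut a₁ a₂ a₃ (HH a₁ a₂ a₃ n'))) :
    HH a₁ a₂ a₃ n = HH a₁ a₂ a₃ n' := by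
  have h1 := (L2 hax hn h).2
  have h2 := (L2 hax hn' h').2
  rw [he] at h1
  have hr := (HH_mem_Icc hn hax).1
  have hr' := (HH_mem_Icc hn' hax).1
  rcases lt_trichotomy (HH a₁ a₂ a₃ n) (HH a₁ a₂ a₃ n') with hlt | heq | hlt
  · have := wend_mono hax hr hr' h h' hlt
    rw [h1, h2] at this
    exact absurd this (lt_irrefl _)
  · exact heq
  · have := wend_mono hax hr' hr h' h hlt
    rw [h1, h2] at this
    exact absurd this (lt_irrefl _)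

theorem T1 (hax : Ax a₁ a₂ a₃) {n n' : ℍ[ℝ]} (hn : n ∈ Un) (hn' : n' ∈ Un)
    (h : S1 a₁ a₂ a₃ (HH a₁ a₂ a₃ n)) (hr' : HH a₁ a₂ a₃ n' = HH a₁ a₂ a₃ n)
    (he : geo a₁ a₂ a₃ n (tcut a₁ a₂ a₃ (HH a₁ a₂ a₃ n))
      = geo a₁ a₂ a₃ n' (tcut a₁ a₂ a₃ (HH a₁ a₂ a₃ n)))
    (hI0 : (geo a₁ a₂ a₃ n (tcut a₁ a₂ a₃ (HH a₁ a₂ a₃ n))).imI = 0) :
    n' = n ∨ n' = rf1 (bg a₁ a₂ a₃ n (tcut a₁ a₂ a₃ (HH a₁ a₂ a₃ n))) := by
  have h12 := hax.h12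
  have h23 := hax.h23
  have hr := (HH_mem_Icc hn hax).1
  have hG : G1 a₁ a₂ a₃ (HH a₁ a₂ a₃ n) (tcut a₁ a₂ a₃ (HH a₁ a₂ a₃ n)) = Real.pi := by
    rw [tcut_reg h.reg]; exact (tau1_spec hax hr).2
  have htp := tcut_pos hax hr
  have hTs : HH a₁ a₂ a₃ n < a₂ →
      tcut a₁ a₂ a₃ (HH a₁ a₂ a₃ n) < Ts a₁ a₂ a₃ (HH a₁ a₂ a₃ n) := by
    intro h2
    rcases h with h' | h'
    · exact absurd h' (not_le.mpr h2)
    · rw [tcut_reg (Or.inr h'.le)]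
      exact (tau1_first hax ⟨hr.1, h2⟩ (Or.inr h'.le)).2 h'
  have hper : HH a₁ a₂ a₃ n < a₁ → Per a₁ a₂ a₃ (HH a₁ a₂ a₃ n)
      (tcut a₁ a₂ a₃ (HH a₁ a₂ a₃ n)) := fun h' => tcut_per hax ⟨hr.1, h'⟩ htp le_rfl
  generalize tcut a₁ a₂ a₃ (HH a₁ a₂ a₃ n) = τ at *
  obtain ⟨hz1, hz2, hI⟩ := index1 a₁ a₂ a₃ hn τ
  have hI' := (index1 a₁ a₂ a₃ hn' τ).2.2
  have hzz : zz1 a₁ a₂ a₃ n' τ = zz1 a₁ a₂ a₃ n τ := by
    unfold zz1; rw [← he, hr', hG, rot_pi, rot_pi]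
  rw [hzz, hr'] at hI'
  have hq : ‖geo a₁ a₂ a₃ n τ‖ = 1 := norm_geo n τ
  have hpU : bg a₁ a₂ a₃ n τ ∈ Un := bg_mem_Un hn τ
  have hpU' : bg a₁ a₂ a₃ n' τ ∈ Un := bg_mem_Un hn' τ
  have hc := conj_eq (z := zz1 a₁ a₂ a₃ n τ) hq hn rfl
  change n = star (zz1 a₁ a₂ a₃ n τ) * bg a₁ a₂ a₃ n τ * zz1 a₁ a₂ a₃ n τ at hc
  have hinj : ∀ {x y : ℍ[ℝ]}, geo a₁ a₂ a₃ x τ = geo a₁ a₂ a₃ y τ →
      bg a₁ a₂ a₃ x τ = bg a₁ a₂ a₃ y τ → x = y := by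
    intro x y h1 h2
    unfold bg at h2
    rw [h1] at h2
    exact bm_inj (norm_geo y τ) h2
  by_cases h1 : HH a₁ a₂ a₃ n = a₁
  · -- the axis
    have hz := zz1_a1 hax hn h1 τ
    rw [hz] at hc
    simp only [star_one, one_mul, mul_one] at hc
    obtain ⟨hJ, hK⟩ := (HH_mem_Icc hn hax).2.1 h1
    obtain ⟨hJ', hK'⟩ := (HH_mem_Icc hn' hax).2.1 (hr'.trans h1)
    have e1 := sq_Un hn
    have e2 := sq_Un hn'
    rw [hJ, hK] at e1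
    rw [hJ', hK'] at e2
    have e3 : (n'.imI - n.imI) * (n'.imI + n.imI) = 0 := by linear_combination e2 - e1
    rcases mul_eq_zero.mp e3 with h' | h'
    · left
      ext
      · rw [hn.1, hn'.1]
      · linarith
      · rw [hJ, hJ']
      · rw [hK, hK']
    · right
      rw [← hc]
      obtain ⟨g0, g1, g2, g3⟩ := rf1c n
      ext
      · rw [g0, hn.1, hn'.1]
      · rw [g1]; linarith
      · rw [g2, hJ, hJ']
      · rw [g3, hK, hK']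
  · have hr1 : HH a₁ a₂ a₃ n ∈ Ico a₃ a₁ := ⟨hr.1, lt_of_le_of_ne hr.2 h1⟩
    have hP := hper hr1.2
    have hy := y1_pos h12 h23 hr1 hP
    have hm : y1 a₁ a₂ a₃ (HH a₁ a₂ a₃ n) τ < a₁ - a₂ := by
      refine y1_lt_m2 h12 h23 hr1 hP ?_
      rcases le_or_gt a₂ (HH a₁ a₂ a₃ n) with h2 | h2
      · exact Or.inl h2
      · exact Or.inr (hTs h2).ne
    rcases idx_twin hI hI' hy.ne' (by linarith : (0:ℝ) < _).ne' (by linarith : (0:ℝ) < _).ne'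
      (sq_Un hpU) (sq_Un hpU') with ⟨t1, t2, t3⟩ | ⟨t1, t2, t3⟩
    · left
      refine hinj he.symm ?_
      ext
      · rw [hpU.1, hpU'.1]
      · exact t1
      · exact t2
      · exact t3
    · right
      have hg : geo a₁ a₂ a₃ (rf1 (bg a₁ a₂ a₃ n τ)) τ = geo a₁ a₂ a₃ n τ := by
        rw [geo_rf1 hn.1, sub_self, geo_zero, star_one, one_mul]
        exact rf1_fix hI0
      have hb : bg a₁ a₂ a₃ (rf1 (bg a₁ a₂ a₃ n τ)) τ = rf1 n := by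
        rw [bg_rf1 hn.1, sub_self, bg_zero]
      refine hinj (he.symm.trans hg.symm) ?_
      rw [hb]
      obtain ⟨g0, g1, g2, g3⟩ := rf1c n
      have hu := sq_unit hz1
      rw [hz2] at hu
      have k0 := hpU.1
      generalize zz1 a₁ a₂ a₃ n τ = z at *
      generalize bg a₁ a₂ a₃ n τ = p at *
      have c1 := congrArg QuaternionAlgebra.imI hc
      have c2 := congrArg QuaternionAlgebra.imJ hc
      have c3 := congrArg QuaternionAlgebra.imK hc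
      simp only [Quaternion.re_mul, Quaternion.imI_mul, Quaternion.imJ_mul, Quaternion.imK_mul,
        Quaternion.re_star, Quaternion.imI_star, Quaternion.imJ_star, Quaternion.imK_star,
        hz2, k0] at c1 c2 c3
      ext
      · rw [g0, hn.1, hpU'.1]
      · rw [g1, t1, c1]; linear_combination (-p.imI) * hu
      · rw [g2, t2, c2]; linear_combination (-p.imJ) * hu
      · rw [g3, t3, c3]; linear_combination (-p.imK) * hu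

theorem T2 (hax : Ax a₁ a₂ a₃) {n n' : ℍ[ℝ]} (hn : n ∈ Un) (hn' : n' ∈ Un)
    (h : ¬ Reg1 a₁ a₂ a₃ (HH a₁ a₂ a₃ n)) (hr' : HH a₁ a₂ a₃ n' = HH a₁ a₂ a₃ n)
    (he : geo a₁ a₂ a₃ n (tcut a₁ a₂ a₃ (HH a₁ a₂ a₃ n))
      = geo a₁ a₂ a₃ n' (tcut a₁ a₂ a₃ (HH a₁ a₂ a₃ n)))
    (hJ0 : (geo a₁ a₂ a₃ n (tcut a₁ a₂ a₃ (HH a₁ a₂ a₃ n))).imJ = 0) :
    n' = n ∨ n' = rf2 (bg a₁ a₂ a₃ n (tcut a₁ a₂ a₃ (HH a₁ a₂ a₃ n))) := by
  have h12 := hax.h12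
  have h23 := hax.h23
  have hr := (HH_mem_Icc hn hax).1
  have h2 : HH a₁ a₂ a₃ n < a₂ := by
    by_contra hc
    push Not at hc
    exact h (Or.inl hc)
  have hr1 : HH a₁ a₂ a₃ n ∈ Ico a₃ a₁ := ⟨hr.1, h2.trans hax.h12⟩
  have hG : G2 a₁ a₂ a₃ (HH a₁ a₂ a₃ n) (tcut a₁ a₂ a₃ (HH a₁ a₂ a₃ n)) = Real.pi := by
    rw [tcut_not h]; exact (tau2_spec hax hr).2
  have htp := tcut_pos hax hr
  have hTs : Ts a₁ a₂ a₃ (HH a₁ a₂ a₃ n) < tcut a₁ a₂ a₃ (HH a₁ a₂ a₃ n) := by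
    rw [tcut_not h]; exact tau2_second hax ⟨hr.1, h2⟩ h
  have hP : Per a₁ a₂ a₃ (HH a₁ a₂ a₃ n) (tcut a₁ a₂ a₃ (HH a₁ a₂ a₃ n)) :=
    tcut_per hax hr1 htp le_rfl
  generalize tcut a₁ a₂ a₃ (HH a₁ a₂ a₃ n) = τ at *
  obtain ⟨hz1, hz2, hI⟩ := index2 a₁ a₂ a₃ hn τ
  have hI' := (index2 a₁ a₂ a₃ hn' τ).2.2
  have hzz : zz2 a₁ a₂ a₃ n' τ = zz2 a₁ a₂ a₃ n τ := by
    unfold zz2; rw [← he, hr', hG, rot_pi, rot_pi]
  rw [hzz, hr'] at hI'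
  have hq : ‖geo a₁ a₂ a₃ n τ‖ = 1 := norm_geo n τ
  have hpU : bg a₁ a₂ a₃ n τ ∈ Un := bg_mem_Un hn τ
  have hpU' : bg a₁ a₂ a₃ n' τ ∈ Un := bg_mem_Un hn' τ
  have hc := conj_eq (z := zz2 a₁ a₂ a₃ n τ) hq hn rfl
  change n = star (zz2 a₁ a₂ a₃ n τ) * bg a₁ a₂ a₃ n τ * zz2 a₁ a₂ a₃ n τ at hc
  have hinj : ∀ {x y : ℍ[ℝ]}, geo a₁ a₂ a₃ x τ = geo a₁ a₂ a₃ y τ →
      bg a₁ a₂ a₃ x τ = bg a₁ a₂ a₃ y τ → x = y := by
    intro x y h1 h2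
    unfold bg at h2
    rw [h1] at h2
    exact bm_inj (norm_geo y τ) h2
  obtain ⟨hy, hy2⟩ := y2_strictT h12 h23 ⟨hr.1, h2⟩ hP
  have hy3 := hy2 hTs.ne'
  have e1 := sq_Un hpU
  have e1' := sq_Un hpU'
  rcases idx_twin hI hI' hy.ne (by linarith : (0:ℝ) < _).ne'
    (by linarith : a₂ - a₁ - y2 a₁ a₂ a₃ (HH a₁ a₂ a₃ n) τ < 0).ne
    (by linarith) (by linarith) with ⟨t1, t2, t3⟩ | ⟨t1, t2, t3⟩
  · left
    refine hinj he.symm ?_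
    ext
    · rw [hpU.1, hpU'.1]
    · exact t3
    · exact t1
    · exact t2
  · right
    have hg : geo a₁ a₂ a₃ (rf2 (bg a₁ a₂ a₃ n τ)) τ = geo a₁ a₂ a₃ n τ := by
      rw [geo_rf2 hn.1, sub_self, geo_zero, star_one, one_mul]
      exact rf2_fix hJ0
    have hb : bg a₁ a₂ a₃ (rf2 (bg a₁ a₂ a₃ n τ)) τ = rf2 n := by
      rw [bg_rf2 hn.1, sub_self, bg_zero]
    refine hinj (he.symm.trans hg.symm) ?_
    rw [hb]
    obtain ⟨g0, g1, g2, g3⟩ := rf2c n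
    have hu := sq_unit hz1
    rw [hz2] at hu
    have k0 := hpU.1
    generalize zz2 a₁ a₂ a₃ n τ = z at *
    generalize bg a₁ a₂ a₃ n τ = p at *
    have c1 := congrArg QuaternionAlgebra.imI hc
    have c2 := congrArg QuaternionAlgebra.imJ hc
    have c3 := congrArg QuaternionAlgebra.imK hc
    simp only [Quaternion.re_mul, Quaternion.imI_mul, Quaternion.imJ_mul, Quaternion.imK_mul,
      Quaternion.re_star, Quaternion.imI_star, Quaternion.imJ_star, Quaternion.imK_star,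
      hz2, k0] at c1 c2 c3
    ext
    · rw [g0, hn.1, hpU'.1]
    · rw [g1, t3, c1]; linear_combination (-p.imI) * hu
    · rw [g2, t1, c2]; linear_combination (-p.imJ) * hu
    · rw [g3, t2, c3]; linear_combination (-p.imK) * hu

/-- the third component never vanishes in type III -/
theorem signK (hax : Ax a₁ a₂ a₃) {n : ℍ[ℝ]} (hn : n ∈ Un) (hr : HH a₁ a₂ a₃ n < a₂) (T : ℝ) :
    (0 < n.imK → 0 < (bg a₁ a₂ a₃ n T).imK) ∧ (n.imK < 0 → (bg a₁ a₂ a₃ n T).imK < 0) ∧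
    (bg a₁ a₂ a₃ n T).imK ≠ 0 := by
  have h12 := hax.h12
  have hp3 : ∀ t, (bg a₁ a₂ a₃ n t).imK ≠ 0 := by
    intro t h3
    have hU := bg_mem_Un (a₁ := a₁) (a₂ := a₂) (a₃ := a₃) hn t
    have hs := sq_Un hU
    have hH := HH_bg (a₁ := a₁) (a₂ := a₂) (a₃ := a₃) hn.1 t
    have hlt := hr
    unfold HH at hH hlt
    rw [h3] at hs hH
    have h5 : (a₁ - a₂) * (bg a₁ a₂ a₃ n t).imI ^ 2
        = a₁ * n.imI ^ 2 + a₂ * n.imJ ^ 2 + a₃ * n.imK ^ 2 - a₂ := by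
      linear_combination hH - a₂ * hs
    have h6 := mul_nonneg (sub_nonneg.2 h12.le) (sq_nonneg (bg a₁ a₂ a₃ n t).imI)
    linarith
  have hcont : Continuous fun t => (bg a₁ a₂ a₃ n t).imK := by
    have h1 : Continuous fun t : ℝ => (n, t) := by fun_prop
    have h2 := (continuous_bg (a₁ := a₁) (a₂ := a₂) (a₃ := a₃)).comp h1
    exact Quaternion.continuous_imK.comp h2
  refine ⟨fun hK => ?_, fun hK => ?_, hp3 T⟩
  · by_contra hc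
    push Not at hc
    obtain ⟨s, hs⟩ := mem_range_of_exists_le_of_exists_ge hcont ⟨T, hc⟩
      ⟨0, by rw [bg_zero]; exact hK.le⟩
    exact hp3 s hs
  · by_contra hc
    push Not at hc
    obtain ⟨s, hs⟩ := mem_range_of_exists_le_of_exists_ge hcont
      ⟨0, by rw [bg_zero]; exact hK.le⟩ ⟨T, hc⟩
    exact hp3 s hs

theorem L0 (hax : Ax a₁ a₂ a₃) {n : ℍ[ℝ]} (hn : n ∈ Un) (hr : HH a₁ a₂ a₃ n < a₂)
    (h : G1 a₁ a₂ a₃ (HH a₁ a₂ a₃ n) (Ts a₁ a₂ a₃ (HH a₁ a₂ a₃ n)) = Real.pi) :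
    (0 < n.imK → geo a₁ a₂ a₃ n (tcut a₁ a₂ a₃ (HH a₁ a₂ a₃ n)) = ⟨0, 0, 0, 1⟩) ∧
    (n.imK < 0 → geo a₁ a₂ a₃ n (tcut a₁ a₂ a₃ (HH a₁ a₂ a₃ n)) = ⟨0, 0, 0, -1⟩) := by
  have hr' := (HH_mem_Icc hn hax).1
  have hreg : Reg1 a₁ a₂ a₃ (HH a₁ a₂ a₃ n) := Or.inr h.ge
  have hT : Ts a₁ a₂ a₃ (HH a₁ a₂ a₃ n) = tau1 a₁ a₂ a₃ (HH a₁ a₂ a₃ n) := by
    apply (G_strictMono hax hr').1.injective
    rw [h, (tau1_spec hax hr').2]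
  have hz := zz1_cut hax hn hreg
  have hzz := zz_Ts hax hn ⟨hr'.1, hr⟩
  rw [hT, hz] at hzz
  have key : ∀ (q : ℍ[ℝ]) (e : ℝ), -star q = (⟨0, 0, 0, e⟩ : ℍ[ℝ]) → q = ⟨0, 0, 0, e⟩ := by
    intro q e hqe
    have c0 := congrArg QuaternionAlgebra.re hqe
    have c1 := congrArg QuaternionAlgebra.imI hqe
    have c2 := congrArg QuaternionAlgebra.imJ hqe
    have c3 := congrArg QuaternionAlgebra.imK hqe
    simp only [Quaternion.re_neg, Quaternion.imI_neg, Quaternion.imJ_neg, Quaternion.imK_neg,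
      Quaternion.re_star, Quaternion.imI_star, Quaternion.imJ_star, Quaternion.imK_star,
      neg_neg] at c0 c1 c2 c3
    ext
    · change q.re = 0; linarith
    · exact c1
    · exact c2
    · exact c3
  exact ⟨fun hK => key _ _ (hzz.1 hK), fun hK => key _ _ (hzz.2 hK)⟩

/-- recover `P` from the initial momentum -/
theorem rec_eq (hax : Ax a₁ a₂ a₃) {P P' : ℍ[ℝ]} (hP : P ∈ Ell a₁ a₂ a₃)
    (hP' : P' ∈ Ell a₁ a₂ a₃) (hr : rr P = rr P')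
    (h : ini a₁ a₂ a₃ P' = ini a₁ a₂ a₃ P) : P' = P := by
  obtain ⟨-, -, -, e1⟩ := ini_spec hax hP
  obtain ⟨-, -, -, e2⟩ := ini_spec hax hP'
  have h0 := (unit_of_Ell hP hax).1
  have h0' := (unit_of_Ell hP' hax).1
  rw [h, ← hr, e1] at e2
  rw [norm_of_rr h0 h0' hr] at e2
  have := congrArg (fun x : ℍ[ℝ] => ‖P'‖ • x) e2
  simp only [smul_smul] at this
  rw [mul_inv_cancel₀ h0'.ne', one_smul, one_smul] at this
  exact this.symm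

theorem rec_rf1 (hax : Ax a₁ a₂ a₃) {P P' : ℍ[ℝ]} (hP : P ∈ Ell a₁ a₂ a₃)
    (hP' : P' ∈ Ell a₁ a₂ a₃) (hr : rr P = rr P')
    (h : ini a₁ a₂ a₃ P' = rf1 (bg a₁ a₂ a₃ (ini a₁ a₂ a₃ P) (tcut a₁ a₂ a₃ (rr P)))) :
    P' = rf1 P := by
  obtain ⟨hU, -, -, e1⟩ := ini_spec hax hP
  obtain ⟨-, -, -, e2⟩ := ini_spec hax hP'
  have h0 := (unit_of_Ell hP hax).1
  have h0' := (unit_of_Ell hP' hax).1
  rw [h, ← hr, bg_rf1 hU.1, show tcut a₁ a₂ a₃ (rr P) - tcut a₁ a₂ a₃ (rr P) / 2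
    = tcut a₁ a₂ a₃ (rr P) / 2 by ring, e1, rf1_smul] at e2
  rw [norm_of_rr h0 h0' hr] at e2
  have := congrArg (fun x : ℍ[ℝ] => ‖P'‖ • x) e2
  simp only [smul_smul] at this
  rw [mul_inv_cancel₀ h0'.ne', one_smul, one_smul] at this
  exact this.symm

theorem rec_rf2 (hax : Ax a₁ a₂ a₃) {P P' : ℍ[ℝ]} (hP : P ∈ Ell a₁ a₂ a₃)
    (hP' : P' ∈ Ell a₁ a₂ a₃) (hr : rr P = rr P')
    (h : ini a₁ a₂ a₃ P' = rf2 (bg a₁ a₂ a₃ (ini a₁ a₂ a₃ P) (tcut a₁ a₂ a₃ (rr P)))) :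
    P' = rf2 P := by
  obtain ⟨hU, -, -, e1⟩ := ini_spec hax hP
  obtain ⟨-, -, -, e2⟩ := ini_spec hax hP'
  have h0 := (unit_of_Ell hP hax).1
  have h0' := (unit_of_Ell hP' hax).1
  rw [h, ← hr, bg_rf2 hU.1, show tcut a₁ a₂ a₃ (rr P) - tcut a₁ a₂ a₃ (rr P) / 2
    = tcut a₁ a₂ a₃ (rr P) / 2 by ring, e1, rf2_smul] at e2
  rw [norm_of_rr h0 h0' hr] at e2
  have := congrArg (fun x : ℍ[ℝ] => ‖P'‖ • x) e2
  simp only [smul_smul] at this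
  rw [mul_inv_cancel₀ h0'.ne', one_smul, one_smul] at this
  exact this.symm

theorem signP (hax : Ax a₁ a₂ a₃) {P : ℍ[ℝ]} (hP : P ∈ Ell a₁ a₂ a₃) (hr : rr P < a₂) :
    (0 < P.imK → 0 < (ini a₁ a₂ a₃ P).imK) ∧ (P.imK < 0 → (ini a₁ a₂ a₃ P).imK < 0) ∧
    P.imK ≠ 0 := by
  obtain ⟨h0, hU, hH, -, -, -⟩ := unit_of_Ell hP hax
  rw [← hH] at hr
  have hs := signK hax hU hr (-(tcut a₁ a₂ a₃ (rr P) / 2))
  have hs0 := (signK hax hU hr 0).2.2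
  rw [bg_zero] at hs0
  have hi : (‖P‖⁻¹ • P).imK = ‖P‖⁻¹ * P.imK := by
    rw [Quaternion.imK_smul, smul_eq_mul]
  have h0i : 0 < ‖P‖⁻¹ := inv_pos.mpr h0
  rw [hi] at hs hs0
  refine ⟨fun h => hs.1 (mul_pos h0i h), fun h => hs.2.1 (mul_neg_of_pos_of_neg h0i h), ?_⟩
  intro hc
  exact hs0 (by rw [hc, mul_zero])

/-- type-independent facts in the strict region 1 -/
theorem fwd1 (hax : Ax a₁ a₂ a₃) {P P' : ℍ[ℝ]} (hP : P ∈ Ell a₁ a₂ a₃)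
    (hP' : P' ∈ Ell a₁ a₂ a₃) (h : S1 a₁ a₂ a₃ (rr P)) (h' : S1 a₁ a₂ a₃ (rr P'))
    (he : Phi a₁ a₂ a₃ P = Phi a₁ a₂ a₃ P') : P' = P ∨ P' = rf1 P := by
  obtain ⟨hU, hH, hPhi, -⟩ := ini_spec hax hP
  obtain ⟨hU', hH', hPhi', -⟩ := ini_spec hax hP'
  rw [hPhi, hPhi'] at he
  have he1 := he
  rw [← hH, ← hH'] at he
  have hr := U1 hax hU hU' (by rw [hH]; exact h) (by rw [hH']; exact h') he
  have hrr : rr P = rr P' := by rw [← hH, ← hH', hr]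
  rw [← hr] at he
  have hw := (wall_cut hax hU).1 (by rw [hH]; exact h.reg)
  rcases T1 hax hU hU' (by rw [hH]; exact h) hr.symm he hw with h1 | h1
  · exact Or.inl (rec_eq hax hP hP' hrr h1)
  · rw [hH] at h1
    exact Or.inr (rec_rf1 hax hP hP' hrr h1)

theorem fwd2 (hax : Ax a₁ a₂ a₃) {P P' : ℍ[ℝ]} (hP : P ∈ Ell a₁ a₂ a₃)
    (hP' : P' ∈ Ell a₁ a₂ a₃) (h : ¬ Reg1 a₁ a₂ a₃ (rr P)) (h' : ¬ Reg1 a₁ a₂ a₃ (rr P'))
    (he : Phi a₁ a₂ a₃ P = Phi a₁ a₂ a₃ P') : P' = P ∨ P' = rf2 P := by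
  obtain ⟨hU, hH, hPhi, -⟩ := ini_spec hax hP
  obtain ⟨hU', hH', hPhi', -⟩ := ini_spec hax hP'
  rw [hPhi, hPhi'] at he
  rw [← hH, ← hH'] at he
  have hr := U2 hax hU hU' (by rw [hH]; exact h) (by rw [hH']; exact h') he
  have hrr : rr P = rr P' := by rw [← hH, ← hH', hr]
  rw [← hr] at he
  have hw := (wall_cut hax hU).2 (by rw [hH]; exact h)
  rcases T2 hax hU hU' (by rw [hH]; exact h) hr.symm he hw with h1 | h1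
  · exact Or.inl (rec_eq hax hP hP' hrr h1)
  · rw [hH] at h1
    exact Or.inr (rec_rf2 hax hP hP' hrr h1)

theorem bwd1 (hax : Ax a₁ a₂ a₃) {P : ℍ[ℝ]} (hP : P ∈ Ell a₁ a₂ a₃)
    (h : Reg1 a₁ a₂ a₃ (rr P)) : Phi a₁ a₂ a₃ (rf1 P) = Phi a₁ a₂ a₃ P := by
  obtain ⟨hU, hH, hPhi, -⟩ := ini_spec hax hP
  rw [Phi_rf1 hP.1]
  apply rf1_fix
  rw [hPhi, ← hH]
  exact (wall_cut hax hU).1 (by rw [hH]; exact h)

theorem bwd2 (hax : Ax a₁ a₂ a₃) {P : ℍ[ℝ]} (hP : P ∈ Ell a₁ a₂ a₃)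
    (h : ¬ Reg1 a₁ a₂ a₃ (rr P)) : Phi a₁ a₂ a₃ (rf2 P) = Phi a₁ a₂ a₃ P := by
  obtain ⟨hU, hH, hPhi, -⟩ := ini_spec hax hP
  rw [Phi_rf2 hP.1]
  apply rf2_fix
  rw [hPhi, ← hH]
  exact (wall_cut hax hU).2 (by rw [hH]; exact h)

theorem re1 (hax : Ax a₁ a₂ a₃) {P : ℍ[ℝ]} (hP : P ∈ Ell a₁ a₂ a₃)
    (h : S1 a₁ a₂ a₃ (rr P)) : (Phi a₁ a₂ a₃ P).re < 0 := by
  obtain ⟨hU, hH, hPhi, -⟩ := ini_spec hax hP
  rw [hPhi, ← hH]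
  exact (L1 hax hU (by rw [hH]; exact h)).1

theorem re2 (hax : Ax a₁ a₂ a₃) {P : ℍ[ℝ]} (hP : P ∈ Ell a₁ a₂ a₃)
    (h : ¬ Reg1 a₁ a₂ a₃ (rr P)) : 0 < (Phi a₁ a₂ a₃ P).re := by
  obtain ⟨hU, hH, hPhi, -⟩ := ini_spec hax hP
  rw [hPhi, ← hH]
  exact (L2 hax hU (by rw [hH]; exact h)).1

theorem re0 (hax : Ax a₁ a₂ a₃) {P : ℍ[ℝ]} (hP : P ∈ Ell a₁ a₂ a₃) (hr : rr P < a₂)
    (h : G1 a₁ a₂ a₃ (rr P) (Ts a₁ a₂ a₃ (rr P)) = Real.pi) :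
    (0 < P.imK → Phi a₁ a₂ a₃ P = ⟨0, 0, 0, 1⟩) ∧
    (P.imK < 0 → Phi a₁ a₂ a₃ P = ⟨0, 0, 0, -1⟩) ∧ (Phi a₁ a₂ a₃ P).re = 0 ∧
    (Phi a₁ a₂ a₃ P).imK ≠ 0 ∧ (0 < P.imK ↔ 0 < (Phi a₁ a₂ a₃ P).imK) := by
  obtain ⟨hU, hH, hPhi, -⟩ := ini_spec hax hP
  obtain ⟨s1, s2, s3⟩ := signP hax hP hr
  have hL := L0 hax hU (by rw [hH]; exact hr) (by rw [hH]; exact h)
  rw [hH, ← hPhi] at hL
  have c1 : 0 < P.imK → Phi a₁ a₂ a₃ P = ⟨0, 0, 0, 1⟩ := fun hk => hL.1 (s1 hk)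
  have c2 : P.imK < 0 → Phi a₁ a₂ a₃ P = ⟨0, 0, 0, -1⟩ := fun hk => hL.2 (s2 hk)
  refine ⟨c1, c2, ?_⟩
  rcases lt_or_gt_of_ne s3 with hk | hk
  · rw [c2 hk]
    refine ⟨rfl, ?_, ?_⟩
    · change (-1 : ℝ) ≠ 0; norm_num
    · change 0 < P.imK ↔ (0 : ℝ) < -1
      constructor
      · intro h'; linarith
      · intro h'; norm_num at h'
  · rw [c1 hk]
    refine ⟨rfl, ?_, ?_⟩
    · change (1 : ℝ) ≠ 0; norm_num
    · change 0 < P.imK ↔ (0 : ℝ) < 1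
      simp [hk]

end FibreAux

section fibre
variable {a₁ a₂ a₃ : ℝ}

open FibreAux

theorem fibreA (hax : Ax a₁ a₂ a₃) (h : (a₁ - a₃) * (a₂ - a₃) ≤ a₃ ^ 2) {P P' : ℍ[ℝ]}
    (hP : P ∈ Ell a₁ a₂ a₃) (hP' : P' ∈ Ell a₁ a₂ a₃) :
    Phi a₁ a₂ a₃ P = Phi a₁ a₂ a₃ P' ↔ eqvA P P' := by
  obtain ⟨hall, hgt⟩ := reg1_all hax h
  have hr := (unit_of_Ell hP hax).2.2.2.1
  have hr' := (unit_of_Ell hP' hax).2.2.2.1
  -- outside the strict region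
  have hS0 : ∀ r ∈ Icc a₃ a₁, ¬ S1 a₁ a₂ a₃ r → r = a₃ ∧ r < a₂ ∧
      G1 a₁ a₂ a₃ r (Ts a₁ a₂ a₃ r) = Real.pi := by
    intro r hr h1
    have h2 : r < a₂ := by
      by_contra hc
      push Not at hc
      exact h1 (Or.inl hc)
    have h3 : G1 a₁ a₂ a₃ r (Ts a₁ a₂ a₃ r) ≤ Real.pi := by
      by_contra hc
      push Not at hc
      exact h1 (Or.inr hc)
    have h4 : r = a₃ := by
      by_contra hc
      exact absurd (hgt r ⟨lt_of_le_of_ne hr.1 (Ne.symm hc), h2⟩) (not_lt.mpr h3)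
    refine ⟨h4, h2, le_antisymm h3 ?_⟩
    rcases hall r hr with h5 | h5
    · exact absurd h5 (not_le.mpr h2)
    · exact h5
  constructor
  · intro he
    by_cases h1 : S1 a₁ a₂ a₃ (rr P)
    · by_cases h2 : S1 a₁ a₂ a₃ (rr P')
      · exact fwd1 hax hP hP' h1 h2 he
      · exfalso
        obtain ⟨-, k2, k3⟩ := hS0 _ hr' h2
        have := re1 hax hP h1
        rw [he, (re0 hax hP' k2 k3).2.2.1] at this
        exact lt_irrefl _ this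
    · obtain ⟨k1, k2, k3⟩ := hS0 _ hr h1
      have h0 := re0 hax hP k2 k3
      have h2 : ¬ S1 a₁ a₂ a₃ (rr P') := by
        intro h2
        have := re1 hax hP' h2
        rw [← he, h0.2.2.1] at this
        exact lt_irrefl _ this
      obtain ⟨k1', k2', k3'⟩ := hS0 _ hr' h2
      have h0' := re0 hax hP' k2' k3'
      left
      -- both on the third axis
      obtain ⟨hn0, hU, hH, -, -, -⟩ := unit_of_Ell hP hax
      obtain ⟨hn0', hU', hH', -, -, -⟩ := unit_of_Ell hP' hax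
      obtain ⟨hI, hJ⟩ := (HH_mem_Icc hU hax).2.2 (hH.trans k1)
      obtain ⟨hI', hJ'⟩ := (HH_mem_Icc hU' hax).2.2 (hH'.trans k1')
      have hnn := norm_of_rr hn0 hn0' (k1.trans k1'.symm)
      have hi : ∀ Q : ℍ[ℝ], 0 < ‖Q‖ → (‖Q‖⁻¹ • Q).imI = 0 → Q.imI = 0 := by
        intro Q hQ hq
        rw [Quaternion.imI_smul, smul_eq_mul] at hq
        exact (mul_eq_zero.mp hq).resolve_left (inv_ne_zero hQ.ne')
      have hj : ∀ Q : ℍ[ℝ], 0 < ‖Q‖ → (‖Q‖⁻¹ • Q).imJ = 0 → Q.imJ = 0 := by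
        intro Q hQ hq
        rw [Quaternion.imJ_smul, smul_eq_mul] at hq
        exact (mul_eq_zero.mp hq).resolve_left (inv_ne_zero hQ.ne')
      have hI2 := hi P hn0 hI
      have hJ2 := hj P hn0 hJ
      have hI2' := hi P' hn0' hI'
      have hJ2' := hj P' hn0' hJ'
      have hsq : ∀ Q : ℍ[ℝ], Q.re = 0 → Q.imI = 0 → Q.imJ = 0 → Q.imK ^ 2 = ‖Q‖ ^ 2 := by
        intro Q q0 q1 q2
        have := Quaternion.normSq_eq_norm_mul_self Q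
        rw [Quaternion.normSq_def', q0, q1, q2] at this
        nlinarith
      have hK : P'.imK ^ 2 = P.imK ^ 2 := by
        rw [hsq P hP.1 hI2 hJ2, hsq P' hP'.1 hI2' hJ2', hnn]
      have hsign : 0 < P.imK ↔ 0 < P'.imK := by
        rw [h0.2.2.2.2, h0'.2.2.2.2, he]
      have s3 := (signP hax hP k2).2.2
      have s3' := (signP hax hP' k2').2.2
      have hKK : P'.imK = P.imK := by
        have : (P'.imK - P.imK) * (P'.imK + P.imK) = 0 := by linear_combination hK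
        rcases mul_eq_zero.mp this with h' | h'
        · linarith
        · exfalso
          rcases lt_or_gt_of_ne s3 with hk | hk
          · have hk' : 0 < P'.imK := by linarith
            have := hsign.mpr hk'
            linarith
          · have := hsign.mp hk
            linarith
      ext
      · rw [hP.1, hP'.1]
      · rw [hI2, hI2']
      · rw [hJ2, hJ2']
      · exact hKK
  · rintro (h1 | h1)
    · rw [h1]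
    · rw [h1, bwd1 hax hP (hall _ hr)]

theorem fibreB (hax : Ax a₁ a₂ a₃) (h : a₃ ^ 2 < (a₁ - a₃) * (a₂ - a₃)) :
    ∃ s ∈ Ioo (1 / a₂) (1 / a₃), (∀ P P' : ℍ[ℝ], P ∈ Ell a₁ a₂ a₃ → P' ∈ Ell a₁ a₂ a₃ →
      (Phi a₁ a₂ a₃ P = Phi a₁ a₂ a₃ P' ↔ eqvB s P P')) ∧
    (∀ P ∈ Ell a₁ a₂ a₃, ‖P‖ ^ 2 = s → 0 < P.imK → Phi a₁ a₂ a₃ P = ⟨0, 0, 0, 1⟩) ∧
    (∀ P ∈ Ell a₁ a₂ a₃, ‖P‖ ^ 2 = s → P.imK < 0 → Phi a₁ a₂ a₃ P = ⟨0, 0, 0, -1⟩) ∧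
    (∀ P ∈ Ell a₁ a₂ a₃, ‖P‖ ^ 2 ≤ s →
      (Phi a₁ a₂ a₃ P).imI = 0 ∧ (Phi a₁ a₂ a₃ P).re ≤ 0) ∧
    (∀ P ∈ Ell a₁ a₂ a₃, s ≤ ‖P‖ ^ 2 →
      (Phi a₁ a₂ a₃ P).imJ = 0 ∧ 0 ≤ (Phi a₁ a₂ a₃ P).re) := by
  obtain ⟨rK, hrK, hG, hreg, hgt⟩ := exists_rK hax h
  have h3 := hax.pos
  have hrKpos : 0 < rK := h3.trans hrK.1
  have h2pos : 0 < a₂ := h3.trans hax.h23
  -- relation between `‖P‖²` and `r`
  have hrel : ∀ P ∈ Ell a₁ a₂ a₃, (‖P‖ ^ 2 < 1 / rK ↔ rK < rr P) ∧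
      (1 / rK < ‖P‖ ^ 2 ↔ rr P < rK) ∧ (‖P‖ ^ 2 = 1 / rK ↔ rr P = rK) := by
    intro P hP
    have h0 := (unit_of_Ell hP hax).1
    have h0' : 0 < ‖P‖ ^ 2 := by positivity
    unfold rr
    refine ⟨?_, ?_, ?_⟩
    · rw [lt_div_iff₀ hrKpos, lt_div_iff₀ h0', mul_comm]
    · rw [div_lt_iff₀ hrKpos, div_lt_iff₀ h0', mul_comm]
    · rw [eq_div_iff hrKpos.ne', div_eq_iff h0'.ne', mul_comm, eq_comm]
  have hS1 : ∀ r ∈ Icc a₃ a₁, rK < r → S1 a₁ a₂ a₃ r := by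
    intro r hr hlt
    rcases le_or_gt a₂ r with h' | h'
    · exact Or.inl h'
    · exact Or.inr (hgt r ⟨hlt, h'⟩)
  have hS2 : ∀ r ∈ Icc a₃ a₁, r < rK → ¬ Reg1 a₁ a₂ a₃ r := by
    intro r hr hlt hc
    exact absurd ((hreg r hr).mp hc) (not_le.mpr hlt)
  have hS0 : ∀ P ∈ Ell a₁ a₂ a₃, rr P = rK → (0 < P.imK → Phi a₁ a₂ a₃ P = ⟨0, 0, 0, 1⟩) ∧
    (P.imK < 0 → Phi a₁ a₂ a₃ P = ⟨0, 0, 0, -1⟩) ∧ (Phi a₁ a₂ a₃ P).re = 0 ∧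
    (Phi a₁ a₂ a₃ P).imK ≠ 0 ∧ (0 < P.imK ↔ 0 < (Phi a₁ a₂ a₃ P).imK) := by
    intro P hP hr
    exact re0 hax hP (by rw [hr]; exact hrK.2) (by rw [hr]; exact hG)
  have hK : ∀ P ∈ Ell a₁ a₂ a₃, rr P = rK → (Phi a₁ a₂ a₃ P).imI = 0 ∧
      (Phi a₁ a₂ a₃ P).imJ = 0 ∧ (Phi a₁ a₂ a₃ P).re = 0 := by
    intro P hP hr
    obtain ⟨k1, k2, k3, -, -⟩ := hS0 P hP hr
    rcases lt_or_gt_of_ne (signP hax hP (by rw [hr]; exact hrK.2)).2.2 with hk | hk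
    · rw [k2 hk]
      exact ⟨rfl, rfl, rfl⟩
    · rw [k1 hk]
      exact ⟨rfl, rfl, rfl⟩
  refine ⟨1 / rK, ⟨one_div_lt_one_div_of_lt hrKpos hrK.2, one_div_lt_one_div_of_lt h3 hrK.1⟩,
    ?_, ?_, ?_, ?_, ?_⟩
  · intro P P' hP hP'
    have hr := (unit_of_Ell hP hax).2.2.2.1
    have hr' := (unit_of_Ell hP' hax).2.2.2.1
    obtain ⟨r1, r2, r3⟩ := hrel P hP
    obtain ⟨r1', r2', r3'⟩ := hrel P' hP'
    unfold eqvB
    rw [r1, r2, r3, r3']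
    constructor
    · intro he
      rcases lt_trichotomy rK (rr P) with hlt | heq | hlt
      · left
        refine ⟨hlt, ?_⟩
        have hre := re1 hax hP (hS1 _ hr hlt)
        have hlt' : rK < rr P' := by
          rcases lt_trichotomy rK (rr P') with h' | h' | h'
          · exact h'
          · exfalso
            rw [he, (hS0 P' hP' h'.symm).2.2.1] at hre
            exact lt_irrefl _ hre
          · exfalso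
            have := re2 hax hP' (hS2 _ hr' h')
            rw [he] at hre
            linarith
        exact fwd1 hax hP hP' (hS1 _ hr hlt) (hS1 _ hr' hlt') he
      · right; right
        have h0 := hS0 P hP heq.symm
        have heq' : rr P' = rK := by
          rcases lt_trichotomy rK (rr P') with h' | h' | h'
          · exfalso
            have := re1 hax hP' (hS1 _ hr' h')
            rw [← he, h0.2.2.1] at this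
            exact lt_irrefl _ this
          · exact h'.symm
          · exfalso
            have := re2 hax hP' (hS2 _ hr' h')
            rw [← he, h0.2.2.1] at this
            exact lt_irrefl _ this
        have h0' := hS0 P' hP' heq'
        refine ⟨heq.symm, heq', ?_⟩
        have hsign : 0 < P.imK ↔ 0 < P'.imK := by
          rw [h0.2.2.2.2, h0'.2.2.2.2, he]
        have s3 := (signP hax hP (by rw [← heq]; exact hrK.2)).2.2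
        have s3' := (signP hax hP' (by rw [heq']; exact hrK.2)).2.2
        rcases lt_or_gt_of_ne s3 with hk | hk
        · have hk' : P'.imK < 0 := by
            rcases lt_or_gt_of_ne s3' with h' | h'
            · exact h'
            · exact absurd (hsign.mpr h') (not_lt.mpr hk.le)
          exact mul_pos_of_neg_of_neg hk hk'
        · exact mul_pos hk (hsign.mp hk)
      · right; left
        refine ⟨hlt, ?_⟩
        have hre := re2 hax hP (hS2 _ hr hlt)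
        have hlt' : rr P' < rK := by
          rcases lt_trichotomy rK (rr P') with h' | h' | h'
          · exfalso
            have := re1 hax hP' (hS1 _ hr' h')
            rw [he] at hre
            linarith
          · exfalso
            rw [he, (hS0 P' hP' h'.symm).2.2.1] at hre
            exact lt_irrefl _ hre
          · exact h'
        exact fwd2 hax hP hP' (hS2 _ hr hlt) (hS2 _ hr' hlt') he
    · rintro (⟨hlt, h1 | h1⟩ | ⟨hlt, h1 | h1⟩ | ⟨e1, e2, hpos⟩)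
      · rw [h1]
      · rw [h1, bwd1 hax hP (hS1 _ hr hlt).reg]
      · rw [h1]
      · rw [h1, bwd2 hax hP (hS2 _ hr hlt)]
      · have h0 := hS0 P hP e1
        have h0' := hS0 P' hP' e2
        rcases pos_and_pos_or_neg_and_neg_of_mul_pos hpos with ⟨k1, k2⟩ | ⟨k1, k2⟩
        · rw [h0.1 k1, h0'.1 k2]
        · rw [h0.2.1 k1, h0'.2.1 k2]
  · intro P hP hs hk
    exact (hS0 P hP ((hrel P hP).2.2.mp hs)).1 hk
  · intro P hP hs hk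
    exact (hS0 P hP ((hrel P hP).2.2.mp hs)).2.1 hk
  · intro P hP hs
    have hr := (unit_of_Ell hP hax).2.2.2.1
    rcases hs.lt_or_eq with hlt | heq
    · have hS := hS1 _ hr ((hrel P hP).1.mp hlt)
      obtain ⟨hU, hH, hPhi, -⟩ := ini_spec hax hP
      refine ⟨?_, (re1 hax hP hS).le⟩
      rw [hPhi, ← hH]
      exact (wall_cut hax hU).1 (by rw [hH]; exact hS.reg)
    · obtain ⟨k1, -, k3⟩ := hK P hP ((hrel P hP).2.2.mp heq)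
      exact ⟨k1, k3.le⟩
  · intro P hP hs
    have hr := (unit_of_Ell hP hax).2.2.2.1
    rcases hs.lt_or_eq with hlt | heq
    · have hS := hS2 _ hr ((hrel P hP).2.1.mp hlt)
      obtain ⟨hU, hH, hPhi, -⟩ := ini_spec hax hP
      refine ⟨?_, (re2 hax hP hS).le⟩
      rw [hPhi, ← hH]
      exact (wall_cut hax hU).2 (by rw [hH]; exact hS)
    · obtain ⟨-, k2, k3⟩ := hK P hP ((hrel P hP).2.2.mp heq.symm)
      exact ⟨k2, k3.ge⟩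

/-- location of the cut locus when `(a₁ - a₃) (a₂ - a₃) ≤ a₃²` -/
theorem Phi_wallA (hax : Ax a₁ a₂ a₃) (h : (a₁ - a₃) * (a₂ - a₃) ≤ a₃ ^ 2) {P : ℍ[ℝ]}
    (hP : P ∈ Ell a₁ a₂ a₃) : (Phi a₁ a₂ a₃ P).imI = 0 ∧ (Phi a₁ a₂ a₃ P).re ≤ 0 := by
  obtain ⟨hall, hgt⟩ := reg1_all hax h
  have hr := (unit_of_Ell hP hax).2.2.2.1
  have hreg := hall _ hr
  obtain ⟨hU, hH, hPhi, -⟩ := ini_spec hax hP
  refine ⟨?_, ?_⟩
  · rw [hPhi, ← hH]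
    exact (wall_cut hax hU).1 (by rw [hH]; exact hreg)
  · by_cases hS : S1 a₁ a₂ a₃ (rr P)
    · exact (re1 hax hP hS).le
    · have h2 : rr P < a₂ := by
        by_contra hc
        push Not at hc
        exact hS (Or.inl hc)
      have h3 : G1 a₁ a₂ a₃ (rr P) (Ts a₁ a₂ a₃ (rr P)) = Real.pi := by
        rcases hreg with h' | h'
        · exact absurd h' (not_le.mpr h2)
        · rcases h'.lt_or_eq with h'' | h''
          · exact absurd (Or.inr h'') hS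
          · exact h''.symm
      exact (re0 hax hP h2 h3).2.2.1.le

end fibre

end

end Pool.Agent.CutS3
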