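import Pool.Agent.CutS3.Defs

set_option autoImplicit false

namespace Pool.Agent.CutS3

open Set

namespace NotDiscAux

/-- the open unit disc without a point is preconnected -/
theorem ball_diff (q : ℂ) : IsPreconnected (Metric.ball (0 : ℂ) 1 \ {q}) := by
  by_cases hq : q ∈ Metric.ball (0 : ℂ) 1
  · let φ : ℂ ≃ₜ Metric.ball (0 : ℂ) 1 := Homeomorph.unitBall
    have h1 : IsConnected ({φ.symm ⟨q, hq⟩}ᶜ : Set ℂ) :=
      isConnected_compl_singleton_of_one_lt_rank (by rw [Complex.rank_real_complex]; norm_num) _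
    have h2 : Metric.ball (0 : ℂ) 1 \ {q}
        = (fun z => (φ z : ℂ)) '' ({φ.symm ⟨q, hq⟩}ᶜ : Set ℂ) := by
      ext z
      constructor
      · rintro ⟨hz, hzq⟩
        refine ⟨φ.symm ⟨z, hz⟩, ?_, ?_⟩
        · intro h
          have := φ.symm.injective h
          exact hzq (congrArg Subtype.val this)
        · simp
      · rintro ⟨w, hw, rfl⟩
        refine ⟨(φ w).2, ?_⟩
        intro h
        apply hw
        have : φ w = ⟨q, hq⟩ := Subtype.ext h
        rw [mem_singleton_iff, ← this, Homeomorph.symm_apply_apply]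
    rw [h2]
    exact h1.isPreconnected.image _ (continuous_subtype_val.comp φ.continuous).continuousOn
  · rw [sdiff_singleton_eq_self hq]
    exact Metric.isPreconnected_ball

/-- the closed unit disc without a point is preconnected -/
theorem closedBall_diff (q : ℂ) : IsPreconnected (Metric.closedBall (0 : ℂ) 1 \ {q}) := by
  apply (ball_diff q).subset_closure
  · exact sdiff_subset_sdiff_left Metric.ball_subset_closedBall
  · rintro z ⟨hz, hzq⟩
    have hlim : Filter.Tendsto (fun e : ℝ => ((1 - e : ℝ) : ℂ) * z) (nhdsWithin 0 (Ioi 0))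
        (nhds z) := by
      have hc : Continuous (fun e : ℝ => ((1 - e : ℝ) : ℂ) * z) := by fun_prop
      have := (hc.tendsto 0).mono_left (nhdsWithin_le_nhds (s := Ioi (0 : ℝ)))
      simpa using this
    apply mem_closure_of_tendsto hlim
    have h1 : ∀ᶠ e : ℝ in nhdsWithin 0 (Ioi 0), ((1 - e : ℝ) : ℂ) * z ≠ q :=
      hlim.eventually_ne hzq
    have h2 : ∀ᶠ e : ℝ in nhdsWithin 0 (Ioi 0), e ∈ Ioo (0 : ℝ) 1 :=
      Ioo_mem_nhdsGT one_pos
    filter_upwards [h1, h2] with e he1 he2
    refine ⟨?_, he1⟩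
    rw [Metric.mem_ball, dist_zero_right, norm_mul, Complex.norm_real, Real.norm_eq_abs,
      abs_of_pos (by linarith [he2.2])]
    rw [Metric.mem_closedBall, dist_zero_right] at hz
    have h3 : 0 < 1 - e := by linarith [he2.2]
    calc (1 - e) * ‖z‖ ≤ (1 - e) * 1 := mul_le_mul_of_nonneg_left hz h3.le
      _ < 1 := by linarith [he2.1]

theorem sq_of_mem {z : ℂ} {x : ℝ} (h : z ∈ Metric.closedBall (x : ℂ) 1) :
    (z.re - x) ^ 2 + z.im ^ 2 ≤ 1 := by
  rw [Metric.mem_closedBall, dist_eq_norm] at h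
  have h2 := Complex.sq_norm (z - x)
  rw [Complex.normSq_apply] at h2
  simp at h2
  nlinarith [norm_nonneg (z - (x : ℂ))]

theorem re_one {z : ℂ} (h : z ∈ threeDiscs) (hr : z.re = 1) : z = 1 := by
  have key : z.im = 0 := by
    unfold threeDiscs at h
    rcases h with (h | h) | h
    · have h1 := sq_of_mem (x := -2) (by push_cast; exact h)
      rw [hr] at h1
      nlinarith [sq_nonneg z.im]
    · have h1 := sq_of_mem (x := 0) (by push_cast; exact h)
      rw [hr] at h1
      nlinarith [sq_nonneg z.im]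
    · have h1 := sq_of_mem (x := 2) (by push_cast; exact h)
      rw [hr] at h1
      nlinarith [sq_nonneg z.im]
  apply Complex.ext
  · simpa using hr
  · simpa using key

end NotDiscAux

open NotDiscAux

theorem threeDiscs_not_disc :
    ¬ Nonempty (threeDiscs ≃ₜ Metric.closedBall (0 : ℂ) 1) := by
  rintro ⟨φ⟩
  have m0 : (0 : ℂ) ∈ threeDiscs := by
    unfold threeDiscs; left; right; simp
  have m1 : (1 : ℂ) ∈ threeDiscs := by
    unfold threeDiscs; left; right; simp
  have m2 : (2 : ℂ) ∈ threeDiscs := by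
    unfold threeDiscs; right; simp
  let p : threeDiscs := ⟨1, m1⟩
  have h1 : IsPreconnected ({φ p}ᶜ : Set (Metric.closedBall (0 : ℂ) 1)) := by
    have h2 := closedBall_diff (φ p : ℂ)
    have h3 : Metric.closedBall (0 : ℂ) 1 \ {(φ p : ℂ)}
        = Subtype.val '' ({φ p}ᶜ : Set (Metric.closedBall (0 : ℂ) 1)) := by
      ext z
      constructor
      · rintro ⟨hz, hzq⟩
        refine ⟨⟨z, hz⟩, ?_, rfl⟩
        intro h
        exact hzq (congrArg Subtype.val h)
      · rintro ⟨w, hw, rfl⟩
        exact ⟨w.2, fun h => hw (Subtype.ext h)⟩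
    rw [h3] at h2
    exact Topology.IsInducing.subtypeVal.isPreconnected_image.mp h2
  let f : Metric.closedBall (0 : ℂ) 1 → ℝ := fun z => (φ.symm z : ℂ).re
  have hf : Continuous f :=
    Complex.continuous_re.comp (continuous_subtype_val.comp φ.symm.continuous)
  have h4 := h1.image f hf.continuousOn
  have h5 : (0 : ℝ) ∈ f '' {φ p}ᶜ := by
    refine ⟨φ ⟨0, m0⟩, ?_, ?_⟩
    · intro h
      have := congrArg Subtype.val (φ.injective h)
      simp [p] at this
    · simp [f]
  have h6 : (2 : ℝ) ∈ f '' {φ p}ᶜ := by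
    refine ⟨φ ⟨2, m2⟩, ?_, ?_⟩
    · intro h
      have := congrArg Subtype.val (φ.injective h)
      simp [p] at this
    · simp [f]
  have h7 := h4.Icc_subset h5 h6 (⟨by norm_num, by norm_num⟩ : (1 : ℝ) ∈ Icc (0 : ℝ) 2)
  obtain ⟨z, hz, hz1⟩ := h7
  apply hz
  have h8 : (φ.symm z : ℂ) = 1 := re_one (φ.symm z).2 hz1
  have h9 : φ.symm z = p := Subtype.ext h8
  rw [mem_singleton_iff, ← h9, Homeomorph.apply_symm_apply]

end Pool.Agent.CutS3
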