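import Pool.Agent.CutS3.Defs

set_option autoImplicit false

namespace Pool.Agent.CutS3

open Set Quaternion

noncomputable section

namespace TopAAux

def gA (b c : ℝ) (P : ℍ[ℝ]) : ℂ := ⟨P.imJ / Real.sqrt b, P.imK / Real.sqrt c⟩

theorem gA_cont (b c : ℝ) : Continuous (gA b c) := by
  have h : gA b c = fun P => ((P.imJ / Real.sqrt b : ℝ) : ℂ) + ((P.imK / Real.sqrt c : ℝ) : ℂ) * Complex.I := by
    funext P
    apply Complex.ext <;> simp [gA]
  rw [h]
  have h1 : Continuous fun P : ℍ[ℝ] => P.imJ := Quaternion.continuous_imJ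
  have h2 : Continuous fun P : ℍ[ℝ] => P.imK := Quaternion.continuous_imK
  fun_prop

theorem normSq_gA {b c : ℝ} (hb : 0 < b) (hc : 0 < c) (P : ℍ[ℝ]) :
    ‖gA b c P‖ ^ 2 = P.imJ ^ 2 / b + P.imK ^ 2 / c := by
  rw [Complex.sq_norm, Complex.normSq_apply]
  simp only [gA]
  have h1 := Real.sq_sqrt hb.le
  have h2 := Real.sq_sqrt hc.le
  have e1 : P.imJ / Real.sqrt b * (P.imJ / Real.sqrt b) = P.imJ ^ 2 / (Real.sqrt b) ^ 2 := by ring
  have e2 : P.imK / Real.sqrt c * (P.imK / Real.sqrt c) = P.imK ^ 2 / (Real.sqrt c) ^ 2 := by ring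
  rw [e1, e2, h1, h2]

theorem Ell_eq {a b c : ℝ} {P : ℍ[ℝ]}
    (hP : P ∈ Ell (1 / a) (1 / b) (1 / c)) :
    P.imI ^ 2 / a + P.imJ ^ 2 / b + P.imK ^ 2 / c = 1 := by
  have h := hP.2
  unfold HH at h
  have h2 : P.imI ^ 2 / a + P.imJ ^ 2 / b + P.imK ^ 2 / c
      = 1 / a * P.imI ^ 2 + 1 / b * P.imJ ^ 2 + 1 / c * P.imK ^ 2 := by ring
  exact h2.trans h

end TopAAux

open TopAAux

theorem topA {a b c : ℝ} (ha : 0 < a) (hb : 0 < b) (hc : 0 < c) :
    ∃ g : ℍ[ℝ] → ℂ, Continuous g ∧
      g '' Ell (1 / a) (1 / b) (1 / c) = Metric.closedBall 0 1 ∧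
      (∀ P P' : ℍ[ℝ], P ∈ Ell (1 / a) (1 / b) (1 / c) → P' ∈ Ell (1 / a) (1 / b) (1 / c) →
        (g P = g P' ↔ eqvA P P')) ∧
      (∀ P ∈ Ell (1 / a) (1 / b) (1 / c), (‖g P‖ < 1 ↔ P.imI ≠ 0)) := by
  have hsb := Real.sqrt_pos.mpr hb
  have hsc := Real.sqrt_pos.mpr hc
  refine ⟨gA b c, gA_cont b c, ?_, ?_, ?_⟩
  · ext z
    rw [Metric.mem_closedBall, dist_zero_right]
    constructor
    · rintro ⟨P, hP, rfl⟩
      have h1 := Ell_eq hP
      have h2 := normSq_gA hb hc P
      have h3 : 0 ≤ P.imI ^ 2 / a := by positivity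
      have h4 : ‖gA b c P‖ ^ 2 ≤ 1 ^ 2 := by rw [h2]; linarith
      exact (pow_le_pow_iff_left₀ (norm_nonneg _) zero_le_one two_ne_zero).mp h4
    · intro hz
      have hz2 : z.re ^ 2 + z.im ^ 2 ≤ 1 := by
        have := Complex.sq_norm z
        rw [Complex.normSq_apply] at this
        have h0 := norm_nonneg z
        nlinarith
      refine ⟨⟨0, Real.sqrt (a * (1 - (z.re ^ 2 + z.im ^ 2))), Real.sqrt b * z.re,
        Real.sqrt c * z.im⟩, ⟨rfl, ?_⟩, ?_⟩
      · have h5 : 0 ≤ a * (1 - (z.re ^ 2 + z.im ^ 2)) := by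
          apply mul_nonneg ha.le; linarith
        unfold HH
        simp only
        rw [Real.sq_sqrt h5, mul_pow, mul_pow, Real.sq_sqrt hb.le, Real.sq_sqrt hc.le]
        field_simp
        ring
      · apply Complex.ext
        · simp only [gA]
          field_simp
        · simp only [gA]
          field_simp
  · intro P P' hP hP'
    have h1 := Ell_eq hP
    have h2 := Ell_eq hP'
    constructor
    · intro h
      have hj : P.imJ = P'.imJ := by
        have := congrArg Complex.re h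
        simp only [gA] at this
        field_simp at this
        exact this
      have hk : P.imK = P'.imK := by
        have := congrArg Complex.im h
        simp only [gA] at this
        field_simp at this
        exact this
      have hi : P.imI ^ 2 = P'.imI ^ 2 := by
        rw [hj, hk] at h1
        have : P.imI ^ 2 / a = P'.imI ^ 2 / a := by linarith
        field_simp at this
        exact this
      rcases sq_eq_sq_iff_eq_or_eq_neg.mp hi with h | h
      · left
        apply Quaternion.ext <;> simp [hP.1, hP'.1, h, hj, hk]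
      · right
        apply Quaternion.ext <;> simp [rf1, hP.1, hP'.1, h, hj, hk]
    · rintro (rfl | rfl)
      · rfl
      · rfl
  · intro P hP
    have h1 := Ell_eq hP
    have h2 := normSq_gA hb hc P
    constructor
    · intro h h0
      rw [h0, zero_pow two_ne_zero, zero_div, zero_add] at h1
      have : ‖gA b c P‖ ^ 2 = 1 := by rw [h2]; exact h1
      nlinarith [norm_nonneg (gA b c P)]
    · intro h
      have h3 : 0 < P.imI ^ 2 / a := by positivity
      have h4 : ‖gA b c P‖ ^ 2 < 1 ^ 2 := by rw [h2]; linarith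
      exact (pow_lt_pow_iff_left₀ (norm_nonneg _) zero_le_one two_ne_zero).mp h4

end

end Pool.Agent.CutS3
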