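import Pool.Agent.CutS3.Defs

set_option autoImplicit false

namespace Pool.Agent.CutS3

open Set Quaternion

noncomputable section

namespace TopBAux

/-- positive part of the normalised energy excess -/
def tt (a b c s u v w : ℝ) : ℝ := max 0 ((a * u ^ 2 + b * v ^ 2 + c * w ^ 2 - s) / (c - s))

def TT (a b c s v w : ℝ) : ℝ :=
  max (-1) (min 1 (w * Real.sqrt (c - a) / Real.sqrt (s - a - (b - a) * v ^ 2)))

def MM (a b c s T : ℝ) : ℝ :=
  Real.sqrt ((1 - T ^ 2) * (c - a - T ^ 2 * (b - a)) / (c - a - T ^ 2 * (s - a)))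

def gg (a b c s u v w : ℝ) : ℂ :=
  ⟨TT a b c s v w * (1 + 2 * tt a b c s u v w),
    v * MM a b c s (TT a b c s v w) + 2 * u * Real.sqrt ((c - a) * tt a b c s u v w / (c - s))⟩

section core
variable {a b c s u v w : ℝ}

theorem TT_abs : -1 ≤ TT a b c s v w ∧ TT a b c s v w ≤ 1 :=
  ⟨le_max_left _ _, max_le (by norm_num) (min_le_left _ _)⟩

theorem TT_sq_le : TT a b c s v w ^ 2 ≤ 1 := by
  have h := TT_abs (a := a) (b := b) (c := c) (s := s) (v := v) (w := w)
  nlinarith [h.1, h.2]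

theorem den_pos (hab : a < b) (hbs : b < s) (h : u ^ 2 + v ^ 2 + w ^ 2 = 1) :
    0 < s - a - (b - a) * v ^ 2 := by
  have : v ^ 2 ≤ 1 := by nlinarith [sq_nonneg u, sq_nonneg w]
  nlinarith

theorem r1 (hab : a < b) (hbs : b < s) (hsc : s < c) (h : u ^ 2 + v ^ 2 + w ^ 2 = 1)
    (hk : a * u ^ 2 + b * v ^ 2 + c * w ^ 2 ≤ s) :
    TT a b c s v w * Real.sqrt (s - a - (b - a) * v ^ 2) = w * Real.sqrt (c - a) ∧
      tt a b c s u v w = 0 := by
  have hd := den_pos hab hbs h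
  have hds := Real.sqrt_pos.mpr hd
  have hC : 0 < c - a := by linarith
  have hsq : (w * Real.sqrt (c - a)) ^ 2 ≤ (Real.sqrt (s - a - (b - a) * v ^ 2)) ^ 2 := by
    rw [mul_pow, Real.sq_sqrt hC.le, Real.sq_sqrt hd.le]
    have : u ^ 2 = 1 - v ^ 2 - w ^ 2 := by linarith
    rw [this] at hk
    nlinarith
  have habs := abs_le_of_sq_le_sq' hsq hds.le
  constructor
  · unfold TT
    have e1 : w * Real.sqrt (c - a) / Real.sqrt (s - a - (b - a) * v ^ 2) ≤ 1 := by
      rw [div_le_one hds]; exact habs.2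
    have e2 : -1 ≤ w * Real.sqrt (c - a) / Real.sqrt (s - a - (b - a) * v ^ 2) := by
      rw [le_div_iff₀ hds]; linarith [habs.1]
    rw [min_eq_right e1, max_eq_right e2]
    field_simp
  · unfold tt
    apply max_eq_left
    apply div_nonpos_of_nonpos_of_nonneg <;> linarith

theorem r1_sq (hab : a < b) (hbs : b < s) (hsc : s < c) (h : u ^ 2 + v ^ 2 + w ^ 2 = 1)
    (hk : a * u ^ 2 + b * v ^ 2 + c * w ^ 2 ≤ s) :
    TT a b c s v w ^ 2 * (s - a - (b - a) * v ^ 2) = w ^ 2 * (c - a) := by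
  have hd := den_pos hab hbs h
  have hC : 0 < c - a := by linarith
  have h1 := (r1 hab hbs hsc h hk).1
  have h2 : (TT a b c s v w * Real.sqrt (s - a - (b - a) * v ^ 2)) ^ 2
      = (w * Real.sqrt (c - a)) ^ 2 := by rw [h1]
  rw [mul_pow, mul_pow, Real.sq_sqrt hC.le, Real.sq_sqrt hd.le] at h2
  exact h2

theorem r1_lt (hab : a < b) (hbs : b < s) (hsc : s < c) (h : u ^ 2 + v ^ 2 + w ^ 2 = 1)
    (hk : a * u ^ 2 + b * v ^ 2 + c * w ^ 2 < s) : TT a b c s v w ^ 2 < 1 := by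
  have hd := den_pos hab hbs h
  have h1 := r1_sq hab hbs hsc h hk.le
  by_contra hc
  push Not at hc
  have hu : u ^ 2 = 1 - v ^ 2 - w ^ 2 := by linarith
  rw [hu] at hk
  nlinarith

theorem r1_abs (hab : a < b) (hbs : b < s) (hsc : s < c) (h : u ^ 2 + v ^ 2 + w ^ 2 = 1)
    (hk : a * u ^ 2 + b * v ^ 2 + c * w ^ 2 < s) : |TT a b c s v w| < 1 := by
  have := r1_lt hab hbs hsc h hk
  rw [← sq_abs] at this
  nlinarith [abs_nonneg (TT a b c s v w)]

theorem r2 (hab : a < b) (hbs : b < s) (hsc : s < c) (h : u ^ 2 + v ^ 2 + w ^ 2 = 1)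
    (hk : s ≤ a * u ^ 2 + b * v ^ 2 + c * w ^ 2) :
    w ≠ 0 ∧ (0 < w → TT a b c s v w = 1) ∧ (w < 0 → TT a b c s v w = -1) ∧
      tt a b c s u v w = (a * u ^ 2 + b * v ^ 2 + c * w ^ 2 - s) / (c - s) := by
  have hd := den_pos hab hbs h
  have hds := Real.sqrt_pos.mpr hd
  have hC : 0 < c - a := by linarith
  have hCs := Real.sqrt_pos.mpr hC
  have hsq : (Real.sqrt (s - a - (b - a) * v ^ 2)) ^ 2 ≤ (w * Real.sqrt (c - a)) ^ 2 := by
    rw [mul_pow, Real.sq_sqrt hC.le, Real.sq_sqrt hd.le]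
    have : u ^ 2 = 1 - v ^ 2 - w ^ 2 := by linarith
    rw [this] at hk
    nlinarith
  refine ⟨?_, ?_, ?_, ?_⟩
  · rintro rfl
    nlinarith [sq_nonneg u, sq_nonneg v]
  · intro hw
    have e1 : 1 ≤ w * Real.sqrt (c - a) / Real.sqrt (s - a - (b - a) * v ^ 2) := by
      rw [le_div_iff₀ hds, one_mul]
      exact (pow_le_pow_iff_left₀ hds.le (by positivity) two_ne_zero).mp hsq
    unfold TT
    rw [min_eq_left e1]
    norm_num
  · intro hw
    have e1 : w * Real.sqrt (c - a) / Real.sqrt (s - a - (b - a) * v ^ 2) ≤ -1 := by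
      rw [div_le_iff₀ hds]
      have : (Real.sqrt (s - a - (b - a) * v ^ 2)) ^ 2 ≤ (-w * Real.sqrt (c - a)) ^ 2 := by
        calc _ ≤ _ := hsq
          _ = _ := by ring
      have hw' : 0 < -w := by linarith
      have h3 := (pow_le_pow_iff_left₀ hds.le (by positivity) two_ne_zero).mp this
      linarith
    unfold TT
    rw [min_eq_right (by linarith), max_eq_left e1]
  · unfold tt
    apply max_eq_right
    apply div_nonneg <;> linarith

theorem MM_pos (hab : a < b) (hbs : b < s) (hsc : s < c) {T : ℝ} (hT : T ^ 2 < 1) :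
    0 < MM a b c s T := by
  unfold MM
  apply Real.sqrt_pos.mpr
  apply div_pos
  · apply mul_pos
    · linarith
    · nlinarith [sq_nonneg T]
  · nlinarith [sq_nonneg T]

theorem MM_one {T : ℝ} (hT : T ^ 2 = 1) : MM a b c s T = 0 := by
  unfold MM
  rw [hT]
  simp

theorem MM_sq (hab : a < b) (hbs : b < s) (hsc : s < c) {T : ℝ} (hT : T ^ 2 ≤ 1) :
    MM a b c s T ^ 2 * (c - a - T ^ 2 * (s - a)) = (1 - T ^ 2) * (c - a - T ^ 2 * (b - a)) := by
  have h1 : 0 < c - a - T ^ 2 * (s - a) := by nlinarith [sq_nonneg T]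
  unfold MM
  rw [Real.sq_sqrt]
  · field_simp
  · apply div_nonneg
    · apply mul_nonneg
      · linarith
      · nlinarith [sq_nonneg T]
    · exact h1.le

/-- the squared norm in region one -/
theorem norm1 (hab : a < b) (hbs : b < s) (hsc : s < c) (h : u ^ 2 + v ^ 2 + w ^ 2 = 1)
    (hk : a * u ^ 2 + b * v ^ 2 + c * w ^ 2 ≤ s) :
    (1 - ‖gg a b c s u v w‖ ^ 2) * (c - a - TT a b c s v w ^ 2 * (s - a))
      = (1 - TT a b c s v w ^ 2) * (c - a) * u ^ 2 := by
  have h1 := r1_sq hab hbs hsc h hk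
  have h2 := (r1 hab hbs hsc h hk).2
  have h3 := MM_sq hab hbs hsc (TT_sq_le (a := a) (b := b) (c := c) (s := s) (v := v) (w := w))
  rw [Complex.sq_norm, Complex.normSq_apply]
  simp only [gg, h2]
  set T := TT a b c s v w
  set M := MM a b c s T
  have hu : u ^ 2 = 1 - v ^ 2 - w ^ 2 := by linarith
  simp only [mul_zero, zero_div, Real.sqrt_zero, add_zero, mul_one]
  rw [hu]
  linear_combination (-v ^ 2) * h3 - (1 - T ^ 2) * h1

theorem norm1_le (hab : a < b) (hbs : b < s) (hsc : s < c) (h : u ^ 2 + v ^ 2 + w ^ 2 = 1)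
    (hk : a * u ^ 2 + b * v ^ 2 + c * w ^ 2 ≤ s) : ‖gg a b c s u v w‖ ≤ 1 := by
  have h1 := norm1 hab hbs hsc h hk
  have hT := TT_sq_le (a := a) (b := b) (c := c) (s := s) (v := v) (w := w)
  have h2 : 0 < c - a - TT a b c s v w ^ 2 * (s - a) := by nlinarith [sq_nonneg (TT a b c s v w)]
  have h3 : 0 ≤ (1 - TT a b c s v w ^ 2) * (c - a) * u ^ 2 := by
    apply mul_nonneg (mul_nonneg _ _) (sq_nonneg _) <;> linarith
  have h4 : 0 ≤ 1 - ‖gg a b c s u v w‖ ^ 2 := by
    by_contra hc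
    push Not at hc
    nlinarith
  nlinarith [norm_nonneg (gg a b c s u v w)]

theorem norm1_lt_iff (hab : a < b) (hbs : b < s) (hsc : s < c) (h : u ^ 2 + v ^ 2 + w ^ 2 = 1)
    (hk : a * u ^ 2 + b * v ^ 2 + c * w ^ 2 < s) : ‖gg a b c s u v w‖ < 1 ↔ u ≠ 0 := by
  have h1 := norm1 hab hbs hsc h hk.le
  have hT := r1_lt hab hbs hsc h hk
  have h2 : 0 < c - a - TT a b c s v w ^ 2 * (s - a) := by nlinarith [sq_nonneg (TT a b c s v w)]
  constructor
  · rintro h3 rfl
    have h4 : 0 < 1 - ‖gg a b c s 0 v w‖ ^ 2 := by nlinarith [norm_nonneg (gg a b c s 0 v w)]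
    have h5 := mul_pos h4 h2
    rw [h1] at h5
    simp at h5
  · intro hu
    have h3 : 0 < (1 - TT a b c s v w ^ 2) * (c - a) * u ^ 2 := by
      apply mul_pos (mul_pos _ _) (by positivity) <;> linarith
    rw [← h1] at h3
    have h4 := (pos_iff_pos_of_mul_pos h3).mpr h2
    nlinarith [norm_nonneg (gg a b c s u v w)]

/-- the squared distance to the centre in region two -/
theorem norm2 (hab : a < b) (hbs : b < s) (hsc : s < c) (h : u ^ 2 + v ^ 2 + w ^ 2 = 1)
    (hk : s ≤ a * u ^ 2 + b * v ^ 2 + c * w ^ 2) {e : ℝ} (he : e = 1 ∧ 0 < w ∨ e = -1 ∧ w < 0) :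
    ‖gg a b c s u v w - 2 * e‖ ^ 2 = 1 - 4 * tt a b c s u v w * (c - b) * v ^ 2 / (c - s) ∧
      TT a b c s v w = e := by
  obtain ⟨h1, h2, h3, h4⟩ := r2 hab hbs hsc h hk
  have hTe : TT a b c s v w = e := by
    rcases he with ⟨rfl, hw⟩ | ⟨rfl, hw⟩
    · exact h2 hw
    · exact h3 hw
  refine ⟨?_, hTe⟩
  have he2 : e ^ 2 = 1 := by rcases he with ⟨rfl, _⟩ | ⟨rfl, _⟩ <;> norm_num
  have hcs : 0 < c - s := by linarith
  have ht0 : 0 ≤ tt a b c s u v w := le_max_left _ _
  have hM : MM a b c s (TT a b c s v w) = 0 := MM_one (by rw [hTe, he2])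
  have hq : 0 ≤ (c - a) * tt a b c s u v w / (c - s) := by
    apply div_nonneg (mul_nonneg _ ht0) hcs.le; linarith
  have hsq := Real.sq_sqrt hq
  rw [Complex.sq_norm, Complex.normSq_apply]
  simp only [gg, hM, Complex.sub_re, Complex.sub_im, Complex.mul_re, Complex.mul_im,
    Complex.re_ofNat, Complex.im_ofNat, Complex.ofReal_re, Complex.ofReal_im]
  rw [hTe]
  set S := Real.sqrt ((c - a) * tt a b c s u v w / (c - s))
  have hu : w ^ 2 = 1 - v ^ 2 - u ^ 2 := by linarith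
  have ht : tt a b c s u v w * (c - s) = a * u ^ 2 + b * v ^ 2 + c * (1 - v ^ 2 - u ^ 2) - s := by
    rw [h4, hu]; field_simp
  set t := tt a b c s u v w
  have e1 : (e * (1 + 2 * t) - (2 * e - 0 * 0)) * (e * (1 + 2 * t) - (2 * e - 0 * 0))
      = e ^ 2 * (2 * t - 1) ^ 2 := by ring
  have e2 : (v * 0 + 2 * u * S - (2 * 0 + 0 * e)) * (v * 0 + 2 * u * S - (2 * 0 + 0 * e))
      = 4 * u ^ 2 * S ^ 2 := by ring
  rw [e1, e2, he2, hsq]
  have : c - s ≠ 0 := hcs.ne'
  field_simp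
  linear_combination (4 * t) * ht

theorem gg_cont (hab : a < b) (hbs : b < s) (hsc : s < c) :
    ContinuousOn (fun x : ℝ × ℝ × ℝ => gg a b c s x.1 x.2.1 x.2.2)
      {x | x.1 ^ 2 + x.2.1 ^ 2 + x.2.2 ^ 2 = 1} := by
  have hT : ContinuousOn (fun x : ℝ × ℝ × ℝ => TT a b c s x.2.1 x.2.2)
      {x | x.1 ^ 2 + x.2.1 ^ 2 + x.2.2 ^ 2 = 1} := by
    unfold TT
    have h1 : ContinuousOn (fun x : ℝ × ℝ × ℝ => x.2.2 * Real.sqrt (c - a) /
        Real.sqrt (s - a - (b - a) * x.2.1 ^ 2)) {x | x.1 ^ 2 + x.2.1 ^ 2 + x.2.2 ^ 2 = 1} := by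
      apply ContinuousOn.div
      · fun_prop
      · fun_prop
      · intro x hx
        exact (Real.sqrt_pos.mpr (den_pos hab hbs hx)).ne'
    exact (continuous_const.max (continuous_const.min continuous_id)).comp_continuousOn h1
  have ht : Continuous (fun x : ℝ × ℝ × ℝ => tt a b c s x.1 x.2.1 x.2.2) := by
    unfold tt
    fun_prop
  have hM : ContinuousOn (fun x : ℝ × ℝ × ℝ => MM a b c s (TT a b c s x.2.1 x.2.2))
      {x | x.1 ^ 2 + x.2.1 ^ 2 + x.2.2 ^ 2 = 1} := by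
    unfold MM
    apply Real.continuous_sqrt.comp_continuousOn
    apply ContinuousOn.div
    · exact (continuousOn_const.sub (hT.pow 2)).mul
        (continuousOn_const.sub ((hT.pow 2).mul continuousOn_const))
    · exact continuousOn_const.sub ((hT.pow 2).mul continuousOn_const)
    · intro x _
      have := TT_sq_le (a := a) (b := b) (c := c) (s := s) (v := x.2.1) (w := x.2.2)
      have : 0 < c - a - TT a b c s x.2.1 x.2.2 ^ 2 * (s - a) := by
        nlinarith [sq_nonneg (TT a b c s x.2.1 x.2.2)]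
      exact this.ne'
  have hre : ContinuousOn (fun x : ℝ × ℝ × ℝ => TT a b c s x.2.1 x.2.2 *
      (1 + 2 * tt a b c s x.1 x.2.1 x.2.2)) {x | x.1 ^ 2 + x.2.1 ^ 2 + x.2.2 ^ 2 = 1} :=
    hT.mul (by fun_prop)
  have him : ContinuousOn (fun x : ℝ × ℝ × ℝ => x.2.1 * MM a b c s (TT a b c s x.2.1 x.2.2)
      + 2 * x.1 * Real.sqrt ((c - a) * tt a b c s x.1 x.2.1 x.2.2 / (c - s)))
      {x | x.1 ^ 2 + x.2.1 ^ 2 + x.2.2 ^ 2 = 1} := by
    apply ContinuousOn.add
    · exact ContinuousOn.mul (by fun_prop) hM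
    · apply Continuous.continuousOn
      fun_prop
  have : (fun x : ℝ × ℝ × ℝ => gg a b c s x.1 x.2.1 x.2.2) = fun x : ℝ × ℝ × ℝ =>
      ((TT a b c s x.2.1 x.2.2 * (1 + 2 * tt a b c s x.1 x.2.1 x.2.2) : ℝ) : ℂ) +
      ((x.2.1 * MM a b c s (TT a b c s x.2.1 x.2.2)
      + 2 * x.1 * Real.sqrt ((c - a) * tt a b c s x.1 x.2.1 x.2.2 / (c - s)) : ℝ) : ℂ)
        * Complex.I := by
    funext x
    apply Complex.ext <;> simp [gg]
  rw [this]
  exact (Complex.continuous_ofReal.comp_continuousOn hre).add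
    ((Complex.continuous_ofReal.comp_continuousOn him).mul continuousOn_const)

/-- in region two the real part has modulus at least one -/
theorem re2 (hab : a < b) (hbs : b < s) (hsc : s < c) (h : u ^ 2 + v ^ 2 + w ^ 2 = 1)
    (hk : s < a * u ^ 2 + b * v ^ 2 + c * w ^ 2) :
    (0 < w → 1 < (gg a b c s u v w).re) ∧ (w < 0 → (gg a b c s u v w).re < -1) ∧
      0 < tt a b c s u v w := by
  obtain ⟨h1, h2, h3, h4⟩ := r2 hab hbs hsc h hk.le
  have ht : 0 < tt a b c s u v w := by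
    rw [h4]; apply div_pos <;> linarith
  refine ⟨fun hw => ?_, fun hw => ?_, ht⟩
  · simp only [gg, h2 hw]; linarith
  · simp only [gg, h3 hw]; linarith

theorem re1 (hab : a < b) (hbs : b < s) (hsc : s < c) (h : u ^ 2 + v ^ 2 + w ^ 2 = 1)
    (hk : a * u ^ 2 + b * v ^ 2 + c * w ^ 2 < s) : |(gg a b c s u v w).re| < 1 := by
  have h1 := (r1 hab hbs hsc h hk.le).2
  have h2 := r1_abs hab hbs hsc h hk
  simp only [gg, h1]
  simpa using h2

theorem gg_eq (hab : a < b) (hbs : b < s) (hsc : s < c) (h : u ^ 2 + v ^ 2 + w ^ 2 = 1)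
    (hk : a * u ^ 2 + b * v ^ 2 + c * w ^ 2 = s) :
    w ≠ 0 ∧ (0 < w → gg a b c s u v w = 1) ∧ (w < 0 → gg a b c s u v w = -1) := by
  obtain ⟨h1, h2, h3, h4⟩ := r2 hab hbs hsc h hk.ge
  have ht : tt a b c s u v w = 0 := by rw [h4, hk]; simp
  refine ⟨h1, fun hw => ?_, fun hw => ?_⟩
  · apply Complex.ext
    · simp [gg, ht, h2 hw]
    · simp [gg, ht, h2 hw, MM_one (a := a) (b := b) (c := c) (s := s) (T := 1) (by norm_num)]
  · apply Complex.ext
    · simp [gg, ht, h3 hw]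
    · simp [gg, ht, h3 hw, MM_one (a := a) (b := b) (c := c) (s := s) (T := -1) (by norm_num)]

theorem norm_ge_re (z : ℂ) : |z.re| ≤ ‖z‖ := Complex.abs_re_le_norm z

/-- first characterisation -/
theorem char1 (hab : a < b) (hbs : b < s) (hsc : s < c) (h : u ^ 2 + v ^ 2 + w ^ 2 = 1) :
    ‖gg a b c s u v w‖ < 1 ↔ a * u ^ 2 + b * v ^ 2 + c * w ^ 2 < s ∧ u ≠ 0 := by
  constructor
  · intro h1
    have hk : a * u ^ 2 + b * v ^ 2 + c * w ^ 2 < s := by
      by_contra hc
      push Not at hc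
      have hr := Complex.abs_re_le_norm (gg a b c s u v w)
      rcases hc.eq_or_lt with hc | hc
      · obtain ⟨h2, h3, h4⟩ := gg_eq hab hbs hsc h hc.symm
        rcases lt_or_gt_of_ne h2 with hw | hw
        · rw [h4 hw] at h1; simp at h1
        · rw [h3 hw] at h1; simp at h1
      · obtain ⟨h2, h3, h4⟩ := re2 hab hbs hsc h hc
        have hw0 := (r2 hab hbs hsc h hc.le).1
        rcases lt_or_gt_of_ne hw0 with hw | hw
        · have := h3 hw
          have h5 := (abs_lt.mp (hr.trans_lt h1)).1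
          linarith
        · have := h2 hw
          have h5 := (abs_lt.mp (hr.trans_lt h1)).2
          linarith
    exact ⟨hk, (norm1_lt_iff hab hbs hsc h hk).mp h1⟩
  · rintro ⟨hk, hu⟩
    exact (norm1_lt_iff hab hbs hsc h hk).mpr hu

theorem far {z : ℂ} (hz : ‖z‖ ≤ 1) : 1 ≤ ‖z - 2‖ ∧ 1 ≤ ‖z + 2‖ := by
  have h2 : ‖(2 : ℂ)‖ = 2 := by simp
  constructor
  · have := norm_sub_norm_le (2 : ℂ) z
    rw [norm_sub_rev] at this
    linarith
  · have := norm_sub_norm_le (2 : ℂ) (-z)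
    rw [norm_neg, sub_neg_eq_add, add_comm] at this
    linarith

theorem sqd (hab : a < b) (hbs : b < s) (hsc : s < c) (h : u ^ 2 + v ^ 2 + w ^ 2 = 1)
    (hk : s ≤ a * u ^ 2 + b * v ^ 2 + c * w ^ 2) :
    (0 < w → ‖gg a b c s u v w - 2‖ ^ 2 = 1 - 4 * tt a b c s u v w * (c - b) * v ^ 2 / (c - s)) ∧
    (w < 0 → ‖gg a b c s u v w + 2‖ ^ 2
      = 1 - 4 * tt a b c s u v w * (c - b) * v ^ 2 / (c - s)) := by
  constructor
  · intro hw
    have := (norm2 hab hbs hsc h hk (Or.inl ⟨rfl, hw⟩)).1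
    simpa using this
  · intro hw
    have := (norm2 hab hbs hsc h hk (Or.inr ⟨rfl, hw⟩)).1
    simpa using this

theorem char2 (hab : a < b) (hbs : b < s) (hsc : s < c) (h : u ^ 2 + v ^ 2 + w ^ 2 = 1) :
    (‖gg a b c s u v w - 2‖ < 1 ∨ ‖gg a b c s u v w + 2‖ < 1) ↔
      s < a * u ^ 2 + b * v ^ 2 + c * w ^ 2 ∧ v ≠ 0 := by
  by_cases hk : a * u ^ 2 + b * v ^ 2 + c * w ^ 2 ≤ s
  · have h1 := far (norm1_le hab hbs hsc h hk)
    constructor
    · rintro (h2 | h2) <;> linarith [h1.1, h1.2]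
    · rintro ⟨h2, _⟩; linarith
  · push Not at hk
    obtain ⟨h2, h3, h4⟩ := re2 hab hbs hsc h hk
    obtain ⟨h5, h6⟩ := sqd hab hbs hsc h hk.le
    have hw0 := (r2 hab hbs hsc h hk.le).1
    have hcs : 0 < c - s := by linarith
    have hcb : 0 < c - b := by linarith
    have key : ∀ x : ℝ, 0 ≤ x → x ^ 2 = 1 - 4 * tt a b c s u v w * (c - b) * v ^ 2 / (c - s) →
        (x < 1 ↔ v ≠ 0) := by
      intro x hx hxx
      constructor
      · rintro hx1 rfl
        have : x ^ 2 = 1 := by rw [hxx]; simp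
        nlinarith
      · intro hv
        have : 0 < 4 * tt a b c s u v w * (c - b) * v ^ 2 / (c - s) := by positivity
        nlinarith
    rcases lt_or_gt_of_ne hw0 with hw | hw
    · have h7 := key _ (norm_nonneg _) (h6 hw)
      rw [← h7]
      constructor
      · rintro (h8 | h8)
        · exfalso
          have h9 := Complex.abs_re_le_norm (gg a b c s u v w - 2)
          have h10 := (abs_lt.mp (h9.trans_lt h8)).1
          have h11 := h3 hw
          simp at h10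
          linarith
        · exact ⟨hk, h8⟩
      · rintro ⟨_, h8⟩; exact Or.inr h8
    · have h7 := key _ (norm_nonneg _) (h5 hw)
      rw [← h7]
      constructor
      · rintro (h8 | h8)
        · exact ⟨hk, h8⟩
        · exfalso
          have h9 := Complex.abs_re_le_norm (gg a b c s u v w + 2)
          have h10 := (abs_lt.mp (h9.trans_lt h8)).2
          have h11 := h2 hw
          simp at h10
          linarith
      · rintro ⟨_, h8⟩; exact Or.inl h8

theorem char3 (hab : a < b) (hbs : b < s) (hsc : s < c) (h : u ^ 2 + v ^ 2 + w ^ 2 = 1) :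
    (gg a b c s u v w = 1 ↔ a * u ^ 2 + b * v ^ 2 + c * w ^ 2 = s ∧ 0 < w) ∧
    (gg a b c s u v w = -1 ↔ a * u ^ 2 + b * v ^ 2 + c * w ^ 2 = s ∧ w < 0) := by
  rcases lt_trichotomy (a * u ^ 2 + b * v ^ 2 + c * w ^ 2) s with hk | hk | hk
  · have h1 := re1 hab hbs hsc h hk
    constructor
    · constructor
      · intro h2; rw [h2] at h1; simp at h1
      · rintro ⟨h2, _⟩; linarith
    · constructor
      · intro h2; rw [h2] at h1; simp at h1
      · rintro ⟨h2, _⟩; linarith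
  · obtain ⟨h1, h2, h3⟩ := gg_eq hab hbs hsc h hk
    rcases lt_or_gt_of_ne h1 with hw | hw
    · rw [h3 hw]
      constructor
      · constructor
        · intro h4
          have := congrArg Complex.re h4
          norm_num at this
        · rintro ⟨_, h4⟩; linarith
      · exact ⟨fun _ => ⟨hk, hw⟩, fun _ => rfl⟩
    · rw [h2 hw]
      constructor
      · exact ⟨fun _ => ⟨hk, hw⟩, fun _ => rfl⟩
      · constructor
        · intro h4
          have := congrArg Complex.re h4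
          norm_num at this
        · rintro ⟨_, h4⟩; linarith
  · obtain ⟨h2, h3, h4⟩ := re2 hab hbs hsc h hk
    have hw0 := (r2 hab hbs hsc h hk.le).1
    constructor
    · constructor
      · intro h5
        rcases lt_or_gt_of_ne hw0 with hw | hw
        · have := h3 hw
          rw [h5] at this
          norm_num at this
        · have := h2 hw
          rw [h5] at this
          norm_num at this
      · rintro ⟨h5, _⟩; linarith
    · constructor
      · intro h5
        rcases lt_or_gt_of_ne hw0 with hw | hw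
        · have := h3 hw
          rw [h5] at this
          norm_num at this
        · have := h2 hw
          rw [h5] at this
          norm_num at this
      · rintro ⟨h5, _⟩; linarith

theorem mem_three (hab : a < b) (hbs : b < s) (hsc : s < c) (h : u ^ 2 + v ^ 2 + w ^ 2 = 1) :
    gg a b c s u v w ∈ threeDiscs := by
  unfold threeDiscs
  by_cases hk : a * u ^ 2 + b * v ^ 2 + c * w ^ 2 ≤ s
  · left; right
    rw [Metric.mem_closedBall, dist_zero_right]
    exact norm1_le hab hbs hsc h hk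
  · push Not at hk
    obtain ⟨h5, h6⟩ := sqd hab hbs hsc h hk.le
    have hw0 := (r2 hab hbs hsc h hk.le).1
    have ht0 : 0 ≤ tt a b c s u v w := le_max_left _ _
    have hcs : 0 < c - s := by linarith
    have hcb : 0 < c - b := by linarith
    have h7 : 0 ≤ 4 * tt a b c s u v w * (c - b) * v ^ 2 / (c - s) := by positivity
    rcases lt_or_gt_of_ne hw0 with hw | hw
    · left; left
      rw [Metric.mem_closedBall, dist_eq_norm]
      have h8 := h6 hw
      have h9 : gg a b c s u v w - -2 = gg a b c s u v w + 2 := by ring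
      rw [h9]
      nlinarith [norm_nonneg (gg a b c s u v w + 2)]
    · right
      rw [Metric.mem_closedBall, dist_eq_norm]
      have h8 := h5 hw
      nlinarith [norm_nonneg (gg a b c s u v w - 2)]

/-- region of a point read off from the real part -/
theorem region (hab : a < b) (hbs : b < s) (hsc : s < c) (h : u ^ 2 + v ^ 2 + w ^ 2 = 1) :
    (a * u ^ 2 + b * v ^ 2 + c * w ^ 2 < s ↔ |(gg a b c s u v w).re| < 1) ∧
    (s < a * u ^ 2 + b * v ^ 2 + c * w ^ 2 ↔ 1 < |(gg a b c s u v w).re|) ∧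
    (s ≤ a * u ^ 2 + b * v ^ 2 + c * w ^ 2 → (0 < w ↔ 0 < (gg a b c s u v w).re)) := by
  rcases lt_trichotomy (a * u ^ 2 + b * v ^ 2 + c * w ^ 2) s with hk | hk | hk
  · have h1 := re1 hab hbs hsc h hk
    exact ⟨⟨fun _ => h1, fun _ => hk⟩, ⟨fun h2 => by linarith, fun h2 => by linarith⟩,
      fun h2 => by linarith⟩
  · obtain ⟨h1, h2, h3⟩ := gg_eq hab hbs hsc h hk
    rcases lt_or_gt_of_ne h1 with hw | hw
    · rw [h3 hw]
      simp only [Complex.neg_re, Complex.one_re, abs_neg, abs_one, lt_irrefl, iff_false]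
      refine ⟨by rw [hk]; exact lt_irrefl _, by rw [hk]; exact lt_irrefl _, fun _ => ?_⟩
      constructor
      · intro; linarith
      · intro h; norm_num at h
    · rw [h2 hw]
      simp only [Complex.one_re, abs_one, lt_irrefl, iff_false]
      refine ⟨by rw [hk]; exact lt_irrefl _, by rw [hk]; exact lt_irrefl _, fun _ => ?_⟩
      constructor
      · intro; norm_num
      · intro; exact hw
  · obtain ⟨h2, h3, h4⟩ := re2 hab hbs hsc h hk
    have hw0 := (r2 hab hbs hsc h hk.le).1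
    have h5 : 1 < |(gg a b c s u v w).re| := by
      rcases lt_or_gt_of_ne hw0 with hw | hw
      · rw [lt_abs]; right; linarith [h3 hw]
      · rw [lt_abs]; left; exact h2 hw
    refine ⟨⟨fun h6 => by linarith, fun h6 => by linarith⟩, ⟨fun _ => h5, fun _ => hk⟩,
      fun _ => ⟨fun hw => by linarith [h2 hw], fun h6 => ?_⟩⟩
    by_contra hc
    have hw : w < 0 := lt_of_le_of_ne (not_lt.mp hc) hw0
    linarith [h3 hw]

theorem inj1 {u' v' w' : ℝ} (hab : a < b) (hbs : b < s) (hsc : s < c)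
    (h : u ^ 2 + v ^ 2 + w ^ 2 = 1) (h' : u' ^ 2 + v' ^ 2 + w' ^ 2 = 1)
    (hk : a * u ^ 2 + b * v ^ 2 + c * w ^ 2 < s) (hk' : a * u' ^ 2 + b * v' ^ 2 + c * w' ^ 2 < s)
    (he : gg a b c s u v w = gg a b c s u' v' w') : v' = v ∧ w' = w ∧ u' ^ 2 = u ^ 2 := by
  obtain ⟨h1, h2⟩ := r1 hab hbs hsc h hk.le
  obtain ⟨h1', h2'⟩ := r1 hab hbs hsc h' hk'.le
  have hre := congrArg Complex.re he
  have him := congrArg Complex.im he
  simp only [gg, h2, h2', mul_zero, add_zero, mul_one, zero_div, Real.sqrt_zero] at hre him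
  rw [hre] at him h1
  have hM := MM_pos hab hbs hsc (r1_lt hab hbs hsc h' hk')
  have hv : v = v' := mul_right_cancel₀ hM.ne' him
  subst hv
  have hC : 0 < c - a := by linarith
  have hw : w * Real.sqrt (c - a) = w' * Real.sqrt (c - a) := by rw [← h1, ← h1']
  have hw2 : w = w' := mul_right_cancel₀ (Real.sqrt_pos.mpr hC).ne' hw
  subst hw2
  exact ⟨rfl, rfl, by linarith⟩

theorem inj2 {u' v' w' : ℝ} (hab : a < b) (hbs : b < s) (hsc : s < c)
    (h : u ^ 2 + v ^ 2 + w ^ 2 = 1) (h' : u' ^ 2 + v' ^ 2 + w' ^ 2 = 1)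
    (hk : s < a * u ^ 2 + b * v ^ 2 + c * w ^ 2) (hk' : s < a * u' ^ 2 + b * v' ^ 2 + c * w' ^ 2)
    (he : gg a b c s u v w = gg a b c s u' v' w') : u' = u ∧ w' = w ∧ v' ^ 2 = v ^ 2 := by
  obtain ⟨h1, h2, h3, h4⟩ := r2 hab hbs hsc h hk.le
  obtain ⟨h1', h2', h3', h4'⟩ := r2 hab hbs hsc h' hk'.le
  have hww : 0 < w ↔ 0 < w' := by
    rw [(region hab hbs hsc h).2.2 hk.le, (region hab hbs hsc h').2.2 hk'.le, he]
  have hTT : TT a b c s v w = TT a b c s v' w' := by
    rcases lt_or_gt_of_ne h1 with hw | hw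
    · have : w' < 0 := by
        rcases lt_or_gt_of_ne h1' with hw' | hw'
        · exact hw'
        · have := hww.mpr hw'; linarith
      rw [h3 hw, h3' this]
    · rw [h2 hw, h2' (hww.mp hw)]
  have hT2 : TT a b c s v w ^ 2 = 1 := by
    rcases lt_or_gt_of_ne h1 with hw | hw
    · rw [h3 hw]; norm_num
    · rw [h2 hw]; norm_num
  have hT0 : TT a b c s v w ≠ 0 := by
    intro h0; rw [h0] at hT2; norm_num at hT2
  have hre := congrArg Complex.re he
  have him := congrArg Complex.im he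
  simp only [gg] at hre him
  rw [← hTT] at hre him
  have ht : tt a b c s u v w = tt a b c s u' v' w' := by
    have := mul_left_cancel₀ hT0 hre
    linarith
  rw [← ht, MM_one hT2] at him
  have ht0 := (re2 hab hbs hsc h hk).2.2
  have hcs : 0 < c - s := by linarith
  have hC : 0 < c - a := by linarith
  have hS : 0 < Real.sqrt ((c - a) * tt a b c s u v w / (c - s)) := by
    apply Real.sqrt_pos.mpr; positivity
  have hu : u = u' := by
    have : u * Real.sqrt ((c - a) * tt a b c s u v w / (c - s))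
        = u' * Real.sqrt ((c - a) * tt a b c s u v w / (c - s)) := by linarith
    exact mul_right_cancel₀ hS.ne' this
  subst hu
  rw [h4, h4'] at ht
  have ht2 : a * u ^ 2 + b * v ^ 2 + c * w ^ 2 = a * u ^ 2 + b * v' ^ 2 + c * w' ^ 2 := by
    rw [div_left_inj' hcs.ne'] at ht
    linarith
  have hw2 : w ^ 2 = w' ^ 2 := by
    have : (c - b) * w ^ 2 = (c - b) * w' ^ 2 := by linear_combination ht2 - b * h + b * h'
    exact mul_left_cancel₀ (by linarith : c - b ≠ 0) this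
  have hw3 : w' = w := by
    rcases sq_eq_sq_iff_eq_or_eq_neg.mp hw2 with h5 | h5
    · exact h5.symm
    · exfalso
      rcases lt_or_gt_of_ne h1 with hw | hw
      · have : 0 < w' := by linarith
        have := hww.mpr this
        linarith
      · have := hww.mp hw
        linarith
  exact ⟨rfl, hw3, by linarith⟩

theorem gg_neg_u (hab : a < b) (hbs : b < s) (hsc : s < c)
    (h : u ^ 2 + v ^ 2 + w ^ 2 = 1) (hk : a * u ^ 2 + b * v ^ 2 + c * w ^ 2 ≤ s) :
    gg a b c s (-u) v w = gg a b c s u v w := by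
  have h2 := (r1 hab hbs hsc h hk).2
  have h2' : tt a b c s (-u) v w = 0 := by
    rw [← h2]; unfold tt; rw [neg_sq]
  simp [gg, h2, h2']

theorem gg_neg_v (hab : a < b) (hbs : b < s) (hsc : s < c)
    (h : u ^ 2 + v ^ 2 + w ^ 2 = 1) (hk : s ≤ a * u ^ 2 + b * v ^ 2 + c * w ^ 2) :
    gg a b c s u (-v) w = gg a b c s u v w := by
  obtain ⟨h1, h2, h3, h4⟩ := r2 hab hbs hsc h hk
  have hT : TT a b c s (-v) w = TT a b c s v w := by unfold TT; rw [neg_sq]
  have ht : tt a b c s u (-v) w = tt a b c s u v w := by unfold tt; rw [neg_sq]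
  have hT2 : TT a b c s v w ^ 2 = 1 := by
    rcases lt_or_gt_of_ne h1 with hw | hw
    · rw [h3 hw]; norm_num
    · rw [h2 hw]; norm_num
  simp [gg, hT, ht, MM_one hT2]

/-- surjectivity onto the central disc -/
theorem surj1 (hab : a < b) (hbs : b < s) (hsc : s < c) {x y : ℝ} (hxy : x ^ 2 + y ^ 2 ≤ 1)
    (hx : x ^ 2 < 1) : ∃ u v w : ℝ, u ^ 2 + v ^ 2 + w ^ 2 = 1 ∧ gg a b c s u v w = ⟨x, y⟩ := by
  have hM := MM_pos hab hbs hsc hx
  have hMs := MM_sq hab hbs hsc hx.le
  have hC : 0 < c - a := by linarith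
  have hCs := Real.sqrt_pos.mpr hC
  have hd1 : 0 < c - a - x ^ 2 * (s - a) := by nlinarith [sq_nonneg x]
  have hd2 : 0 < c - a - x ^ 2 * (b - a) := by nlinarith [sq_nonneg x]
  set M := MM a b c s x
  set v := y / M with hv
  have hvM : v * M = y := by rw [hv]; field_simp
  -- v^2 (c - a - x^2 (b-a)) ≤ c - a - x^2 (s - a)
  have hv2 : v ^ 2 * (c - a - x ^ 2 * (b - a)) ≤ c - a - x ^ 2 * (s - a) := by
    have e1 : v ^ 2 * ((1 - x ^ 2) * (c - a - x ^ 2 * (b - a))) = y ^ 2 * (c - a - x ^ 2 * (s - a)) := by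
      rw [← hMs, ← hvM]; ring
    have e2 : y ^ 2 * (c - a - x ^ 2 * (s - a)) ≤ (1 - x ^ 2) * (c - a - x ^ 2 * (s - a)) := by
      apply mul_le_mul_of_nonneg_right _ hd1.le
      linarith
    have e3 : (1 - x ^ 2) * (v ^ 2 * (c - a - x ^ 2 * (b - a)))
        ≤ (1 - x ^ 2) * (c - a - x ^ 2 * (s - a)) := by
      calc _ = v ^ 2 * ((1 - x ^ 2) * (c - a - x ^ 2 * (b - a))) := by ring
        _ ≤ _ := by rw [e1]; exact e2
    exact le_of_mul_le_mul_left e3 (by linarith)
  have hv1 : v ^ 2 ≤ 1 := by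
    by_contra hc
    push Not at hc
    nlinarith [sq_nonneg x, mul_nonneg (sq_nonneg x) (by linarith : (0:ℝ) ≤ s - b)]
  have hD : 0 < s - a - (b - a) * v ^ 2 := by nlinarith
  have hDs := Real.sqrt_pos.mpr hD
  set w := x * Real.sqrt (s - a - (b - a) * v ^ 2) / Real.sqrt (c - a) with hw
  have hwC : w * Real.sqrt (c - a) = x * Real.sqrt (s - a - (b - a) * v ^ 2) := by
    rw [hw]; field_simp
  have hw2 : w ^ 2 * (c - a) = x ^ 2 * (s - a - (b - a) * v ^ 2) := by
    have : (w * Real.sqrt (c - a)) ^ 2 = (x * Real.sqrt (s - a - (b - a) * v ^ 2)) ^ 2 := by rw [hwC]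
    rw [mul_pow, mul_pow, Real.sq_sqrt hC.le, Real.sq_sqrt hD.le] at this
    exact this
  have hu0 : 0 ≤ 1 - v ^ 2 - w ^ 2 := by
    have : 0 ≤ (c - a) * (1 - v ^ 2 - w ^ 2) := by nlinarith
    exact nonneg_of_mul_nonneg_right this hC
  refine ⟨Real.sqrt (1 - v ^ 2 - w ^ 2), v, w, ?_, ?_⟩
  · rw [Real.sq_sqrt hu0]; ring
  · have hT : TT a b c s v w = x := by
      unfold TT
      rw [hwC]
      have e1 : x * Real.sqrt (s - a - (b - a) * v ^ 2) / Real.sqrt (s - a - (b - a) * v ^ 2) = x := by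
        field_simp
      have hxa := abs_le.mp (sq_le_one_iff_abs_le_one x |>.mp hx.le)
      rw [e1, min_eq_right hxa.2, max_eq_right hxa.1]
    have ht : tt a b c s (Real.sqrt (1 - v ^ 2 - w ^ 2)) v w = 0 := by
      unfold tt
      apply max_eq_left
      apply div_nonpos_of_nonpos_of_nonneg
      · rw [Real.sq_sqrt hu0]
        nlinarith [sq_nonneg x]
      · linarith
    apply Complex.ext
    · simp [gg, hT, ht]
    · simp only [gg, hT, ht]
      simp only [mul_zero, zero_div, Real.sqrt_zero, add_zero]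
      exact hvM

/-- surjectivity onto the outer discs -/
theorem surj2 (hab : a < b) (hbs : b < s) (hsc : s < c) {x y e : ℝ} (he : e = 1 ∨ e = -1)
    (hxy : (x - 2 * e) ^ 2 + y ^ 2 ≤ 1) :
    ∃ u v w : ℝ, u ^ 2 + v ^ 2 + w ^ 2 = 1 ∧ gg a b c s u v w = ⟨x, y⟩ := by
  have he2 : e ^ 2 = 1 := by rcases he with rfl | rfl <;> norm_num
  have hcs : 0 < c - s := by linarith
  have hcb : 0 < c - b := by linarith
  have hC : 0 < c - a := by linarith
  obtain ⟨t, ht⟩ : ∃ t, t = (e * x - 1) / 2 := ⟨_, rfl⟩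
  have hx : x = e * (1 + 2 * t) := by
    rw [ht]; linear_combination (-x) * he2
  have hyt : y ^ 2 ≤ 4 * t * (1 - t) := by
    have : (x - 2 * e) ^ 2 = (2 * t - 1) ^ 2 := by
      rw [hx]; linear_combination ((2 * t - 1) ^ 2) * he2
    nlinarith
  have ht0 : 0 ≤ t := by
    by_contra hc
    push Not at hc
    nlinarith [sq_nonneg y]
  have ht1 : t ≤ 1 := by
    by_contra hc
    push Not at hc
    nlinarith [sq_nonneg y]
  -- the coordinate u
  obtain ⟨u, hu1, hu2⟩ : ∃ u : ℝ, u ^ 2 * (c - a) ≤ (1 - t) * (c - s) ∧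
      2 * u * Real.sqrt ((c - a) * t / (c - s)) = y := by
    rcases ht0.eq_or_lt with h0 | h0
    · refine ⟨0, ?_, ?_⟩
      · rw [← h0]; simp; linarith
      · rw [← h0] at hyt
        have : y ^ 2 ≤ 0 := by simpa using hyt
        have : y = 0 := by nlinarith
        rw [this]; ring
    · have hS : 0 < Real.sqrt ((c - a) * t / (c - s)) := Real.sqrt_pos.mpr (by positivity)
      have hS2 := Real.sq_sqrt (by positivity : 0 ≤ (c - a) * t / (c - s))
      set S := Real.sqrt ((c - a) * t / (c - s))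
      refine ⟨y / (2 * S), ?_, ?_⟩
      · have e1 : S ^ 2 * (c - s) = (c - a) * t := by rw [hS2]; field_simp
        have e2 : (y / (2 * S)) ^ 2 * (4 * S ^ 2) = y ^ 2 := by field_simp; norm_num
        have e3 : (y / (2 * S)) ^ 2 * (c - a) * (4 * t) = y ^ 2 * (c - s) := by
          rw [← e2]; linear_combination (-4 * (y / (2 * S)) ^ 2) * e1
        have e4 : (y / (2 * S)) ^ 2 * (c - a) * (4 * t) ≤ (1 - t) * (c - s) * (4 * t) := by
          rw [e3]; nlinarith
        exact le_of_mul_le_mul_right e4 (by linarith)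
      · field_simp
  have hw0 : 0 < (s - b + t * (c - s) + (b - a) * u ^ 2) / (c - b) := by
    apply div_pos _ hcb
    have := mul_nonneg ht0 hcs.le
    have := mul_nonneg (by linarith : 0 ≤ b - a) (sq_nonneg u)
    linarith
  set W := Real.sqrt ((s - b + t * (c - s) + (b - a) * u ^ 2) / (c - b)) with hW
  have hWp : 0 < W := Real.sqrt_pos.mpr hw0
  have hW2 : W ^ 2 * (c - b) = s - b + t * (c - s) + (b - a) * u ^ 2 := by
    rw [hW, Real.sq_sqrt hw0.le]; field_simp
  have hv0 : 0 ≤ 1 - u ^ 2 - W ^ 2 := by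
    have : 0 ≤ (c - b) * (1 - u ^ 2 - W ^ 2) := by nlinarith
    exact nonneg_of_mul_nonneg_right this hcb
  have heW : (e * W) ^ 2 = W ^ 2 := by rw [mul_pow, he2, one_mul]
  have hsum : u ^ 2 + Real.sqrt (1 - u ^ 2 - W ^ 2) ^ 2 + (e * W) ^ 2 = 1 := by
    rw [Real.sq_sqrt hv0, heW]; ring
  have hk : a * u ^ 2 + b * Real.sqrt (1 - u ^ 2 - W ^ 2) ^ 2 + c * (e * W) ^ 2
      = s + t * (c - s) := by
    rw [Real.sq_sqrt hv0, heW]; linear_combination hW2
  refine ⟨u, Real.sqrt (1 - u ^ 2 - W ^ 2), e * W, hsum, ?_⟩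
  obtain ⟨h1, h2, h3, h4⟩ := r2 hab hbs hsc hsum (by
    rw [hk]; have := mul_nonneg ht0 hcs.le; linarith)
  have hT : TT a b c s (Real.sqrt (1 - u ^ 2 - W ^ 2)) (e * W) = e := by
    rcases he with rfl | rfl
    · exact h2 (by linarith)
    · exact h3 (by linarith)
  rw [hk] at h4
  have ht' : tt a b c s u (Real.sqrt (1 - u ^ 2 - W ^ 2)) (e * W) = t := by
    rw [h4]; field_simp; ring
  apply Complex.ext
  · simp only [gg, hT, ht']
    exact hx.symm
  · simp only [gg, hT, ht', MM_one he2]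
    rw [mul_zero, zero_add]
    exact hu2

theorem surj (hab : a < b) (hbs : b < s) (hsc : s < c) {z : ℂ} (hz : z ∈ threeDiscs) :
    ∃ u v w : ℝ, u ^ 2 + v ^ 2 + w ^ 2 = 1 ∧ gg a b c s u v w = z := by
  have key : ∀ (e : ℝ), dist z (2 * e : ℂ) ≤ 1 → (z.re - 2 * e) ^ 2 + z.im ^ 2 ≤ 1 := by
    intro e h
    rw [dist_eq_norm] at h
    have h2 := Complex.sq_norm (z - 2 * e)
    rw [Complex.normSq_apply] at h2
    simp at h2
    nlinarith [norm_nonneg (z - 2 * (e : ℂ))]
  unfold threeDiscs at hz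
  rcases hz with (hz | hz) | hz
  · have h1 := key (-1) (by
      rw [Metric.mem_closedBall] at hz
      have : (2 * ((-1 : ℝ) : ℂ)) = -2 := by push_cast; ring
      rw [this]; exact hz)
    exact surj2 hab hbs hsc (Or.inr rfl) h1
  · have h1 := key 0 (by
      rw [Metric.mem_closedBall] at hz
      simpa using hz)
    rcases lt_or_ge (z.re ^ 2) 1 with h2 | h2
    · exact surj1 hab hbs hsc (by simpa using h1) h2
    · have h3 : z.im = 0 := by
        have : z.im ^ 2 ≤ 0 := by simp at h1; linarith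
        nlinarith
      have h4 : z.re ^ 2 = 1 := by
        simp at h1; nlinarith [sq_nonneg z.im]
      have h5 : z.re = 1 ∨ z.re = -1 := by
        have h6 : (z.re - 1) * (z.re + 1) = 0 := by linear_combination h4
        rcases mul_eq_zero.mp h6 with h | h
        · left; linarith
        · right; linarith
      rcases h5 with h5 | h5
      · have := surj2 (a := a) (b := b) (c := c) (s := s) (x := z.re) (y := z.im) hab hbs hsc
          (Or.inl rfl) (by rw [h5, h3]; norm_num)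
        exact this
      · have := surj2 (a := a) (b := b) (c := c) (s := s) (x := z.re) (y := z.im) hab hbs hsc
          (Or.inr rfl) (by rw [h5, h3]; norm_num)
        exact this
  · have h1 := key 1 (by
      rw [Metric.mem_closedBall] at hz
      simpa using hz)
    exact surj2 hab hbs hsc (Or.inl rfl) h1

end core

/-- the sphere coordinates -/
def gB (a b c s : ℝ) (P : ℍ[ℝ]) : ℂ :=
  gg a b c s (P.imI / Real.sqrt a) (P.imJ / Real.sqrt b) (P.imK / Real.sqrt c)

end TopBAux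

open TopBAux

/-- the model of the chain of three discs, with the regions read off from the real part -/
theorem topB_loc {a b c : ℝ} (ha : 0 < a) (hab : a < b) (hbc : b < c) {s : ℝ}
    (hs : s ∈ Ioo b c) :
    ∃ g : ℍ[ℝ] → ℂ, ContinuousOn g (Ell (1 / a) (1 / b) (1 / c)) ∧
      g '' Ell (1 / a) (1 / b) (1 / c) = threeDiscs ∧
      (∀ P P' : ℍ[ℝ], P ∈ Ell (1 / a) (1 / b) (1 / c) → P' ∈ Ell (1 / a) (1 / b) (1 / c) →
        (g P = g P' ↔ eqvB s P P')) ∧
      (∀ P ∈ Ell (1 / a) (1 / b) (1 / c), (‖g P‖ < 1 ↔ ‖P‖ ^ 2 < s ∧ P.imI ≠ 0) ∧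
        ((‖g P - 2‖ < 1 ∨ ‖g P + 2‖ < 1) ↔ s < ‖P‖ ^ 2 ∧ P.imJ ≠ 0) ∧
        (g P = 1 ↔ ‖P‖ ^ 2 = s ∧ 0 < P.imK) ∧ (g P = -1 ↔ ‖P‖ ^ 2 = s ∧ P.imK < 0)) ∧
      (∀ P ∈ Ell (1 / a) (1 / b) (1 / c), (‖P‖ ^ 2 < s ↔ |(g P).re| < 1) ∧
        (s < ‖P‖ ^ 2 ↔ 1 < |(g P).re|)) := by
  have hb : 0 < b := by linarith
  have hc : 0 < c := by linarith
  have hbs := hs.1
  have hsc := hs.2
  have hsa := Real.sqrt_pos.mpr ha
  have hsb := Real.sqrt_pos.mpr hb
  have hsc' := Real.sqrt_pos.mpr hc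
  have ea : ∀ x : ℝ, a * (x / Real.sqrt a) ^ 2 = x ^ 2 := fun x => by
    rw [div_pow, Real.sq_sqrt ha.le]; field_simp
  have eb : ∀ x : ℝ, b * (x / Real.sqrt b) ^ 2 = x ^ 2 := fun x => by
    rw [div_pow, Real.sq_sqrt hb.le]; field_simp
  have ec : ∀ x : ℝ, c * (x / Real.sqrt c) ^ 2 = x ^ 2 := fun x => by
    rw [div_pow, Real.sq_sqrt hc.le]; field_simp
  have hsph : ∀ P ∈ Ell (1 / a) (1 / b) (1 / c), (P.imI / Real.sqrt a) ^ 2
      + (P.imJ / Real.sqrt b) ^ 2 + (P.imK / Real.sqrt c) ^ 2 = 1 := by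
    intro P hP
    have h := hP.2
    unfold HH at h
    rw [div_pow, div_pow, div_pow, Real.sq_sqrt ha.le, Real.sq_sqrt hb.le, Real.sq_sqrt hc.le]
    exact Eq.trans (by ring) h
  have hnorm : ∀ P ∈ Ell (1 / a) (1 / b) (1 / c), a * (P.imI / Real.sqrt a) ^ 2
      + b * (P.imJ / Real.sqrt b) ^ 2 + c * (P.imK / Real.sqrt c) ^ 2 = ‖P‖ ^ 2 := by
    intro P hP
    have h1 : ‖P‖ ^ 2 = P.re ^ 2 + P.imI ^ 2 + P.imJ ^ 2 + P.imK ^ 2 := by
      have := Quaternion.normSq_eq_norm_mul_self P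
      rw [Quaternion.normSq_def'] at this
      rw [pow_two ‖P‖, ← this]
    rw [ea, eb, ec, h1, hP.1]; ring
  have hI0 : ∀ P : ℍ[ℝ], P.imI / Real.sqrt a ≠ 0 ↔ P.imI ≠ 0 := fun P => by
    rw [ne_eq, div_eq_zero_iff, not_or]
    exact ⟨fun h => h.1, fun h => ⟨h, hsa.ne'⟩⟩
  have hJ0 : ∀ P : ℍ[ℝ], P.imJ / Real.sqrt b ≠ 0 ↔ P.imJ ≠ 0 := fun P => by
    rw [ne_eq, div_eq_zero_iff, not_or]
    exact ⟨fun h => h.1, fun h => ⟨h, hsb.ne'⟩⟩
  have hK0 : ∀ P : ℍ[ℝ], 0 < P.imK / Real.sqrt c ↔ 0 < P.imK := fun P => div_pos_iff_of_pos_right hsc'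
  have hK1 : ∀ P : ℍ[ℝ], P.imK / Real.sqrt c < 0 ↔ P.imK < 0 := fun P => by
    rw [div_lt_iff₀ hsc', zero_mul]
  have hEllK : ∀ P ∈ Ell (1 / a) (1 / b) (1 / c), s ≤ ‖P‖ ^ 2 → P.imK ≠ 0 := by
    intro P hP hk h0
    have h1 := (r2 hab hbs hsc (hsph P hP) (by rw [hnorm P hP]; exact hk)).1
    exact h1 (by rw [h0]; simp)
  refine ⟨gB a b c s, ?_, ?_, ?_, ?_, ?_⟩
  · have h1 := gg_cont (a := a) (b := b) (c := c) (s := s) hab hbs hsc
    have h2 : Continuous fun P : ℍ[ℝ] => ((P.imI / Real.sqrt a, P.imJ / Real.sqrt b,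
        P.imK / Real.sqrt c) : ℝ × ℝ × ℝ) := by
      have h1 : Continuous fun P : ℍ[ℝ] => P.imI := Quaternion.continuous_imI
      have h2 : Continuous fun P : ℍ[ℝ] => P.imJ := Quaternion.continuous_imJ
      have h3 : Continuous fun P : ℍ[ℝ] => P.imK := Quaternion.continuous_imK
      fun_prop
    exact h1.comp h2.continuousOn hsph
  · ext z
    constructor
    · rintro ⟨P, hP, rfl⟩
      exact mem_three hab hbs hsc (hsph P hP)
    · intro hz
      obtain ⟨u, v, w, h1, h2⟩ := surj hab hbs hsc hz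
      refine ⟨⟨0, Real.sqrt a * u, Real.sqrt b * v, Real.sqrt c * w⟩, ⟨rfl, ?_⟩, ?_⟩
      · unfold HH
        simp only
        rw [mul_pow, mul_pow, mul_pow, Real.sq_sqrt ha.le, Real.sq_sqrt hb.le, Real.sq_sqrt hc.le]
        rw [← h1]
        field_simp
        exact h1
      · unfold gB
        simp only
        rw [mul_div_cancel_left₀ _ hsa.ne', mul_div_cancel_left₀ _ hsb.ne',
          mul_div_cancel_left₀ _ hsc'.ne']
        exact h2
  · intro P P' hP hP'
    have h1 := hsph P hP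
    have h1' := hsph P' hP'
    have h2 := hnorm P hP
    have h2' := hnorm P' hP'
    obtain ⟨q1, q2, q3⟩ := region hab hbs hsc h1
    obtain ⟨q1', q2', q3'⟩ := region hab hbs hsc h1'
    constructor
    · intro he
      unfold gB at he
      rcases lt_trichotomy (‖P‖ ^ 2) s with hk | hk | hk
      · left
        have hk' : ‖P'‖ ^ 2 < s := by rw [← h2', q1', ← he, ← q1, h2]; exact hk
        obtain ⟨e1, e2, e3⟩ := inj1 hab hbs hsc h1 h1' (by rw [h2]; exact hk)
          (by rw [h2']; exact hk') he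
        refine ⟨hk, ?_⟩
        have f1 : P'.imJ = P.imJ := by field_simp at e1; exact e1
        have f2 : P'.imK = P.imK := by field_simp at e2; exact e2
        have f3 : P'.imI ^ 2 = P.imI ^ 2 := by rw [← ea, ← ea P.imI, e3]
        rcases sq_eq_sq_iff_eq_or_eq_neg.mp f3 with h | h
        · left
          apply Quaternion.ext <;> simp [hP.1, hP'.1, h, f1, f2]
        · right
          apply Quaternion.ext <;> simp [rf1, hP.1, hP'.1, h, f1, f2]
      · right; right
        have hk' : ‖P'‖ ^ 2 = s := by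
          apply le_antisymm
          · rw [← not_lt, ← h2', q2', ← he, ← q2, h2, not_lt]; exact hk.le
          · rw [← not_lt, ← h2', q1', ← he, ← q1, h2, not_lt]; exact hk.ge
        refine ⟨hk, hk', ?_⟩
        have h3 := hEllK P hP hk.ge
        have h3' := hEllK P' hP' hk'.ge
        have h4 : 0 < P.imK ↔ 0 < P'.imK := by
          rw [← hK0, ← hK0, q3 (by rw [h2]; exact hk.ge), q3' (by rw [h2']; exact hk'.ge), he]
        rcases lt_or_gt_of_ne h3 with hw | hw
        · have : P'.imK < 0 := by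
            rcases lt_or_gt_of_ne h3' with hw' | hw'
            · exact hw'
            · have := h4.mpr hw'; linarith
          exact mul_pos_of_neg_of_neg hw this
        · exact mul_pos hw (h4.mp hw)
      · right; left
        have hk' : s < ‖P'‖ ^ 2 := by rw [← h2', q2', ← he, ← q2, h2]; exact hk
        obtain ⟨e1, e2, e3⟩ := inj2 hab hbs hsc h1 h1' (by rw [h2]; exact hk)
          (by rw [h2']; exact hk') he
        refine ⟨hk, ?_⟩
        have f1 : P'.imI = P.imI := by field_simp at e1; exact e1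
        have f2 : P'.imK = P.imK := by field_simp at e2; exact e2
        have f3 : P'.imJ ^ 2 = P.imJ ^ 2 := by rw [← eb, ← eb P.imJ, e3]
        rcases sq_eq_sq_iff_eq_or_eq_neg.mp f3 with h | h
        · left
          apply Quaternion.ext <;> simp [hP.1, hP'.1, h, f1, f2]
        · right
          apply Quaternion.ext <;> simp [rf2, hP.1, hP'.1, h, f1, f2]
    · rintro (⟨hk, rfl | rfl⟩ | ⟨hk, rfl | rfl⟩ | ⟨hk, hk', hw⟩)
      · rfl
      · have := gg_neg_u hab hbs hsc h1 (by rw [h2]; exact hk.le)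
        unfold gB rf1
        rw [← this, neg_div]
      · rfl
      · have := gg_neg_v hab hbs hsc h1 (by rw [h2]; exact hk.le)
        unfold gB rf2
        rw [← this, neg_div]
      · obtain ⟨g1, g2, g3⟩ := gg_eq hab hbs hsc h1 (by rw [h2]; exact hk)
        obtain ⟨g1', g2', g3'⟩ := gg_eq hab hbs hsc h1' (by rw [h2']; exact hk')
        unfold gB
        rcases pos_and_pos_or_neg_and_neg_of_mul_pos hw with ⟨w1, w2⟩ | ⟨w1, w2⟩
        · rw [g2 ((hK0 P).mpr w1), g2' ((hK0 P').mpr w2)]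
        · rw [g3 ((hK1 P).mpr w1), g3' ((hK1 P').mpr w2)]
  · intro P hP
    have h1 := hsph P hP
    have h2 := hnorm P hP
    have c1 := char1 hab hbs hsc h1
    have c2 := char2 hab hbs hsc h1
    have c3 := char3 hab hbs hsc h1
    rw [h2, hI0] at c1
    rw [h2, hJ0] at c2
    rw [h2, hK0, hK1] at c3
    exact ⟨c1, c2, c3.1, c3.2⟩
  · intro P hP
    have h := region hab hbs hsc (hsph P hP)
    rw [hnorm P hP] at h
    exact ⟨h.1, h.2.1⟩

theorem topB {a b c : ℝ} (ha : 0 < a) (hab : a < b) (hbc : b < c) {s : ℝ} (hs : s ∈ Ioo b c) :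
    ∃ g : ℍ[ℝ] → ℂ, ContinuousOn g (Ell (1 / a) (1 / b) (1 / c)) ∧
      g '' Ell (1 / a) (1 / b) (1 / c) = threeDiscs ∧
      (∀ P P' : ℍ[ℝ], P ∈ Ell (1 / a) (1 / b) (1 / c) → P' ∈ Ell (1 / a) (1 / b) (1 / c) →
        (g P = g P' ↔ eqvB s P P')) ∧
      (∀ P ∈ Ell (1 / a) (1 / b) (1 / c), (‖g P‖ < 1 ↔ ‖P‖ ^ 2 < s ∧ P.imI ≠ 0) ∧
        ((‖g P - 2‖ < 1 ∨ ‖g P + 2‖ < 1) ↔ s < ‖P‖ ^ 2 ∧ P.imJ ≠ 0) ∧
        (g P = 1 ↔ ‖P‖ ^ 2 = s ∧ 0 < P.imK) ∧ (g P = -1 ↔ ‖P‖ ^ 2 = s ∧ P.imK < 0)) := by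
  obtain ⟨g, h1, h2, h3, h4, -⟩ := topB_loc ha hab hbc hs
  exact ⟨g, h1, h2, h3, h4⟩

end

end Pool.Agent.CutS3
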