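import Pool.Agent.CutS3.Geo
import Pool.Agent.CutS3.PathA
import Pool.Agent.CutS3.TopA
import Pool.Agent.CutS3.TopB
import Pool.Agent.CutS3.CompactQuot
import Pool.Agent.CutS3.NotDisc
import Pool.Agent.CutS3.CutSet
import Pool.Agent.CutS3.Fibre

set_option autoImplicit false

/-!
# The structure of the cut locus : final assembly
-/

namespace Pool.Agent.CutS3

open Set Quaternion

noncomputable section

namespace FinalAux

theorem compact_quot' {X Y Z : Type} [TopologicalSpace X] [TopologicalSpace Y]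
    [TopologicalSpace Z] [T2Space Y] [T2Space Z] {K : Set X} (hK : IsCompact K) {f : X → Y}
    {g : X → Z} {B : Set Z} (hB : g '' K = B) (hf : ContinuousOn f K) (hg : ContinuousOn g K)
    (h : ∀ x ∈ K, ∀ y ∈ K, (f x = f y ↔ g x = g y)) :
    ∃ φ : B → Y, Topology.IsEmbedding φ ∧ range φ = f '' K ∧
      ∀ z : B, ∃ x ∈ K, g x = z ∧ φ z = f x := by
  subst hB
  obtain ⟨φ, h1, h2, h3⟩ := compact_quot hK hf hg h
  refine ⟨φ, h1, h2, ?_⟩
  rintro ⟨z, x, hx, rfl⟩
  exact ⟨x, hx, rfl, h3 x hx⟩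

theorem ax {a b c : ℝ} (ha : 0 < a) (hab : a < b) (hbc : b < c) :
    Ax (1 / a) (1 / b) (1 / c) where
  pos := one_div_pos.mpr ((ha.trans hab).trans hbc)
  h23 := one_div_lt_one_div_of_lt (ha.trans hab) hbc
  h12 := one_div_lt_one_div_of_lt ha hab

theorem cond_iff {a b c : ℝ} (ha : 0 < a) (hb : 0 < b) (hc : 0 < c) :
    (1 / a - 1 / c) * (1 / b - 1 / c) ≤ (1 / c) ^ 2 ↔ c ≤ a + b := by
  have h : (1 / c) ^ 2 - (1 / a - 1 / c) * (1 / b - 1 / c) = (a + b - c) / (a * b * c) := by
    field_simp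
    ring
  constructor
  · intro hle
    have h1 : 0 ≤ (a + b - c) / (a * b * c) := by linarith
    have h2 : 0 < a * b * c := by positivity
    have h3 := (div_nonneg_iff.mp h1)
    rcases h3 with h3 | h3
    · linarith [h3.1]
    · linarith [h3.2]
  · intro hle
    have h1 : 0 ≤ (a + b - c) / (a * b * c) := div_nonneg (by linarith) (by positivity)
    linarith

theorem rf1_ne {P : ℍ[ℝ]} : rf1 P ≠ P ↔ P.imI ≠ 0 := by
  constructor
  · intro h h0
    exact h (by ext <;> simp [rf1, h0])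
  · intro h h0
    have := congrArg (fun q : ℍ[ℝ] => q.imI) h0
    simp only [rf1] at this
    exact h (by linarith)

theorem rf2_ne {P : ℍ[ℝ]} : rf2 P ≠ P ↔ P.imJ ≠ 0 := by
  constructor
  · intro h h0
    exact h (by ext <;> simp [rf2, h0])
  · intro h h0
    have := congrArg (fun q : ℍ[ℝ] => q.imJ) h0
    simp only [rf2] at this
    exact h (by linarith)

theorem encard_two {P P' : ℍ[ℝ]} (h : P' ≠ P) : ({P, P'} : Set ℍ[ℝ]).encard = 2 :=
  Set.encard_pair h.symm

theorem norm_rf1' (q : ℍ[ℝ]) : ‖rf1 q‖ = ‖q‖ := norm_rf1 q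

/-- the circle of momenta has the cardinality of the continuum -/
theorem circle_card {a b c s : ℝ} (ha : 0 < a) (hab : a < b) (hbc : b < c) (hs : s ∈ Ioo b c)
    (e : ℝ) (he : e = 1 ∨ e = -1) :
    Cardinal.mk {P : ℍ[ℝ] | P ∈ Ell (1 / a) (1 / b) (1 / c) ∧ ‖P‖ ^ 2 = s ∧ 0 < P.imK * e}
      = Cardinal.continuum := by
  have hb : 0 < b := ha.trans hab
  have hc : 0 < c := hb.trans hbc
  have hs0 : 0 < s := hb.trans hs.1
  have hbc' : 0 < 1 / b - 1 / c := sub_pos.mpr (one_div_lt_one_div_of_lt hb hbc)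
  have hac' : 0 < 1 / a - 1 / c := sub_pos.mpr (one_div_lt_one_div_of_lt ha (hab.trans hbc))
  have hab' : 0 < 1 / a - 1 / b := sub_pos.mpr (one_div_lt_one_div_of_lt ha hab)
  have h1 : 0 < 1 - s / c := by
    rw [sub_pos, div_lt_one hc]; exact hs.2
  have h2 : 0 < s / b - 1 := by
    rw [sub_pos, one_lt_div hb]; exact hs.1
  set x0 : ℝ := Real.sqrt ((1 - s / c) / (1 / a - 1 / c)) with hx0
  have hx0pos : 0 < x0 := Real.sqrt_pos.mpr (by positivity)
  have hx0sq : x0 ^ 2 = (1 - s / c) / (1 / a - 1 / c) := Real.sq_sqrt (by positivity)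
  apply le_antisymm
  · calc Cardinal.mk _ ≤ Cardinal.mk ℍ[ℝ] := Cardinal.mk_set_le _
      _ = Cardinal.continuum := by
          rw [Cardinal.mk_quaternion_of_infinite, Cardinal.mk_real]
  · rw [← Cardinal.mk_Ioo_real hx0pos]
    let Y : ℝ → ℝ := fun x => ((1 - s / c) - x ^ 2 * (1 / a - 1 / c)) / (1 / b - 1 / c)
    let Z : ℝ → ℝ := fun x => ((s / b - 1) + x ^ 2 * (1 / a - 1 / b)) / (1 / b - 1 / c)
    have hY : ∀ x ∈ Ioo 0 x0, 0 ≤ Y x := by
      intro x hx
      have hx2 : x ^ 2 ≤ x0 ^ 2 := pow_le_pow_left₀ hx.1.le hx.2.le 2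
      rw [hx0sq, le_div_iff₀ hac'] at hx2
      exact div_nonneg (by linarith) hbc'.le
    have hZ : ∀ x : ℝ, 0 < Z x := fun x => by
      have : 0 ≤ x ^ 2 * (1 / a - 1 / b) := by positivity
      exact div_pos (by linarith) hbc'
    have hsum : ∀ x : ℝ, x ^ 2 + Y x + Z x = s := by
      intro x
      have hne : (1 / b - 1 / c) ≠ 0 := hbc'.ne'
      simp only [Y, Z]
      rw [add_assoc, ← add_div]
      have : (1 - s / c) - x ^ 2 * (1 / a - 1 / c) + ((s / b - 1) + x ^ 2 * (1 / a - 1 / b))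
          = (s - x ^ 2) * (1 / b - 1 / c) := by ring
      rw [this, mul_div_assoc, div_self hne]
      ring
    have hell : ∀ x : ℝ, 1 / a * x ^ 2 + 1 / b * Y x + 1 / c * Z x = 1 := by
      intro x
      have hne : (1 / b - 1 / c) ≠ 0 := hbc'.ne'
      have hz : Z x = s - x ^ 2 - Y x := by linarith [hsum x]
      rw [hz]
      have hy : Y x * (1 / b - 1 / c) = (1 - s / c) - x ^ 2 * (1 / a - 1 / c) := by
        simp only [Y]
        rw [div_mul_cancel₀ _ hne]
      have : 1 / c * (s - x ^ 2 - Y x) = s / c - x ^ 2 * (1 / c) - Y x * (1 / c) := by ring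
      rw [this]
      linarith
    refine Cardinal.mk_le_of_injective (f := fun x : Ioo 0 x0 =>
      (⟨⟨0, x, Real.sqrt (Y x), e * Real.sqrt (Z x)⟩, ?_, ?_, ?_⟩ :
        {P : ℍ[ℝ] | P ∈ Ell (1 / a) (1 / b) (1 / c) ∧ ‖P‖ ^ 2 = s ∧ 0 < P.imK * e})) ?_
    · refine ⟨rfl, ?_⟩
      have hy := Real.sq_sqrt (hY x x.2)
      have hz := Real.sq_sqrt (hZ x).le
      have he2 : e ^ 2 = 1 := by rcases he with rfl | rfl <;> norm_num
      have hh := hell x
      simp only [HH, mul_pow, hy, hz, he2, one_mul]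
      exact hh
    · have hy := Real.sq_sqrt (hY x x.2)
      have hz := Real.sq_sqrt (hZ x).le
      have he2 : e ^ 2 = 1 := by rcases he with rfl | rfl <;> norm_num
      have hh := hsum x
      refine (normSq_eq (⟨0, x, Real.sqrt (Y x), e * Real.sqrt (Z x)⟩ : ℍ[ℝ])).trans ?_
      simp only [mul_pow, hy, hz, he2, one_mul]
      linarith
    · have hz := Real.sqrt_pos.mpr (hZ x)
      have he2 : e * e = 1 := by rcases he with rfl | rfl <;> norm_num
      show 0 < e * Real.sqrt (Z x) * e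
      nlinarith
    · intro x y hxy
      have := congrArg (fun P : {P : ℍ[ℝ] | P ∈ Ell (1 / a) (1 / b) (1 / c) ∧
        ‖P‖ ^ 2 = s ∧ 0 < P.imK * e} => (P : ℍ[ℝ]).imI) hxy
      exact Subtype.ext this

theorem mem_threeDiscs_one : (1 : ℂ) ∈ threeDiscs := by
  left; right
  simp

end FinalAux

open FinalAux

theorem main (a b c : ℝ) (ha : 0 < a) (hab : a < b) (hbc : b < c) :
    (c ≤ a + b →
      ∃ φ : Metric.closedBall (0 : ℂ) 1 → ℍ[ℝ], Topology.IsEmbedding φ ∧
        range φ = cutLocus a b c ∧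
        (∀ z : Metric.closedBall (0 : ℂ) 1, ‖(z : ℂ)‖ < 1 → (segments a b c (φ z)).encard = 2) ∧
        (∀ z : Metric.closedBall (0 : ℂ) 1, ‖(z : ℂ)‖ = 1 →
          (segments a b c (φ z)).encard = 1) ∧
        (∀ z : Metric.closedBall (0 : ℂ) 1, (φ z).imI = 0 ∧ (φ z).re ≤ 0)) ∧
    (a + b < c →
      (∃ φ : threeDiscs → ℍ[ℝ], Topology.IsEmbedding φ ∧
        range φ = cutLocus a b c ∧
        (∀ z : threeDiscs, (z : ℂ) = 1 → φ z = ⟨0, 0, 0, 1⟩) ∧
        (∀ z : threeDiscs, (z : ℂ) = -1 → φ z = ⟨0, 0, 0, -1⟩) ∧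
        (∀ z : threeDiscs, ((z : ℂ) = 1 ∨ (z : ℂ) = -1) →
          Cardinal.mk (segments a b c (φ z)) = Cardinal.continuum) ∧
        (∀ z : threeDiscs, (‖(z : ℂ)‖ < 1 ∨ ‖(z : ℂ) - 2‖ < 1 ∨ ‖(z : ℂ) + 2‖ < 1) →
          (segments a b c (φ z)).encard = 2) ∧
        (∀ z : threeDiscs, (z : ℂ) ≠ 1 → (z : ℂ) ≠ -1 →
          ¬ (‖(z : ℂ)‖ < 1 ∨ ‖(z : ℂ) - 2‖ < 1 ∨ ‖(z : ℂ) + 2‖ < 1) →
          (segments a b c (φ z)).encard = 1) ∧
        (∀ z : threeDiscs, ‖(z : ℂ)‖ ≤ 1 → (φ z).imI = 0 ∧ (φ z).re ≤ 0) ∧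
        (∀ z : threeDiscs, (‖(z : ℂ) - 2‖ ≤ 1 ∨ ‖(z : ℂ) + 2‖ ≤ 1) →
          (φ z).imJ = 0 ∧ 0 ≤ (φ z).re)) ∧
      ¬ Nonempty (cutLocus a b c ≃ₜ Metric.closedBall (0 : ℂ) 1)) := by
  have hb : 0 < b := ha.trans hab
  have hc : 0 < c := hb.trans hbc
  have hax := ax ha hab hbc
  have hK := isCompact_Ell hax
  have hf := Phi_cont ha hab hbc
  have hcut := cutLocus_eq ha hab hbc
  refine ⟨fun hle => ?_, fun hlt => ?_⟩
  · have hcond := (cond_iff ha hb hc).mpr hle
    obtain ⟨g, hg, hgi, hgf, hgn⟩ := topA ha hb hc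
    have hfib := fun P P' hP hP' => fibreA hax hcond (P := P) (P' := P') hP hP'
    obtain ⟨φ, h1, h2, h3⟩ := compact_quot' hK hgi hf hg.continuousOn
      (fun x hx y hy => (hfib x y hx hy).trans (hgf x y hx hy).symm)
    have hcount : ∀ P ∈ Ell (1 / a) (1 / b) (1 / c),
        (segments a b c (Phi (1 / a) (1 / b) (1 / c) P)).encard
          = ({P, rf1 P} : Set ℍ[ℝ]).encard := by
      intro P hP
      obtain ⟨e⟩ := segments_fibre ha hab hbc (q := Phi (1 / a) (1 / b) (1 / c) P)
        (by rw [hcut]; exact mem_image_of_mem _ hP)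
      rw [Set.encard_congr e]
      congr 1
      ext P'
      constructor
      · rintro ⟨hP', hPP⟩
        rcases (hfib P P' hP hP').mp hPP.symm with h | h
        · rw [h]; exact mem_insert _ _
        · rw [h]; exact mem_insert_of_mem _ rfl
      · rintro (h | h)
        · rw [h]; exact ⟨hP, rfl⟩
        · have h' : P' = rf1 P := h
          have hP' : P' ∈ Ell (1 / a) (1 / b) (1 / c) := by rw [h']; exact rf1_mem_Ell.mpr hP
          exact ⟨hP', ((hfib P P' hP hP').mpr (Or.inr h')).symm⟩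
    refine ⟨φ, h1, by rw [h2, hcut], ?_, ?_, ?_⟩
    · intro z hz
      obtain ⟨P, hP, hgz, hφ⟩ := h3 z
      rw [hφ, hcount P hP]
      rw [← hgz] at hz
      exact encard_two (rf1_ne.mpr ((hgn P hP).mp hz))
    · intro z hz
      obtain ⟨P, hP, hgz, hφ⟩ := h3 z
      rw [hφ, hcount P hP]
      rw [← hgz] at hz
      have h0 : P.imI = 0 := by
        by_contra hne
        exact absurd ((hgn P hP).mpr hne) (by rw [hz]; exact lt_irrefl _)
      have h4 : rf1 P = P := by
        by_contra hne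
        exact rf1_ne.mp hne h0
      rw [h4, pair_eq_singleton, Set.encard_singleton]
    · intro z
      obtain ⟨P, hP, hgz, hφ⟩ := h3 z
      rw [hφ]
      exact Phi_wallA hax hcond hP
  · have hcond : (1 / c) ^ 2 < (1 / a - 1 / c) * (1 / b - 1 / c) := by
      by_contra hcon
      push Not at hcon
      linarith [(cond_iff ha hb hc).mp hcon]
    obtain ⟨s, hs, hfib, hk, hk', hw1, hw2⟩ := fibreB hax hcond
    rw [one_div_one_div, one_div_one_div] at hs
    obtain ⟨g, hg, hgi, hgf, hgn, hgl⟩ := topB_loc ha hab hbc hs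
    obtain ⟨φ, h1, h2, h3⟩ := compact_quot' hK hgi hf hg
      (fun x hx y hy => (hfib x y hx hy).trans (hgf x y hx hy).symm)
    have hset : ∀ P ∈ Ell (1 / a) (1 / b) (1 / c),
        {P' : ℍ[ℝ] | P' ∈ Ell (1 / a) (1 / b) (1 / c) ∧
          Phi (1 / a) (1 / b) (1 / c) P' = Phi (1 / a) (1 / b) (1 / c) P}
        = {P' : ℍ[ℝ] | P' ∈ Ell (1 / a) (1 / b) (1 / c) ∧ eqvB s P P'} := by
      intro P hP
      ext P'
      constructor
      · rintro ⟨hP', h⟩
        exact ⟨hP', (hfib P P' hP hP').mp h.symm⟩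
      · rintro ⟨hP', h⟩
        exact ⟨hP', ((hfib P P' hP hP').mpr h).symm⟩
    have hmem : ∀ P ∈ Ell (1 / a) (1 / b) (1 / c),
        Phi (1 / a) (1 / b) (1 / c) P ∈ cutLocus a b c := by
      intro P hP
      rw [hcut]
      exact mem_image_of_mem _ hP
    have hcount1 : ∀ P ∈ Ell (1 / a) (1 / b) (1 / c), ‖P‖ ^ 2 < s →
        (segments a b c (Phi (1 / a) (1 / b) (1 / c) P)).encard
          = ({P, rf1 P} : Set ℍ[ℝ]).encard := by
      intro P hP hPs
      obtain ⟨e⟩ := segments_fibre ha hab hbc (hmem P hP)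
      rw [Set.encard_congr e, hset P hP]
      congr 1
      ext P'
      constructor
      · rintro ⟨hP', h | h | h⟩
        · rcases h.2 with h | h
          · rw [h]; exact mem_insert _ _
          · rw [h]; exact mem_insert_of_mem _ rfl
        · linarith [h.1]
        · linarith [h.1]
      · rintro (h | h)
        · rw [h]; exact ⟨hP, Or.inl ⟨hPs, Or.inl rfl⟩⟩
        · have h' : P' = rf1 P := h
          have hP' : P' ∈ Ell (1 / a) (1 / b) (1 / c) := by rw [h']; exact rf1_mem_Ell.mpr hP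
          exact ⟨hP', Or.inl ⟨hPs, Or.inr h'⟩⟩
    have hcount2 : ∀ P ∈ Ell (1 / a) (1 / b) (1 / c), s < ‖P‖ ^ 2 →
        (segments a b c (Phi (1 / a) (1 / b) (1 / c) P)).encard
          = ({P, rf2 P} : Set ℍ[ℝ]).encard := by
      intro P hP hPs
      obtain ⟨e⟩ := segments_fibre ha hab hbc (hmem P hP)
      rw [Set.encard_congr e, hset P hP]
      congr 1
      ext P'
      constructor
      · rintro ⟨hP', h | h | h⟩
        · linarith [h.1]
        · rcases h.2 with h | h
          · rw [h]; exact mem_insert _ _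
          · rw [h]; exact mem_insert_of_mem _ rfl
        · linarith [h.1]
      · rintro (h | h)
        · rw [h]; exact ⟨hP, Or.inr (Or.inl ⟨hPs, Or.inl rfl⟩)⟩
        · have h' : P' = rf2 P := h
          have hP' : P' ∈ Ell (1 / a) (1 / b) (1 / c) := by rw [h']; exact rf2_mem_Ell.mpr hP
          exact ⟨hP', Or.inr (Or.inl ⟨hPs, Or.inr h'⟩)⟩
    have hcard : ∀ P ∈ Ell (1 / a) (1 / b) (1 / c), ‖P‖ ^ 2 = s → P.imK ≠ 0 →
        Cardinal.mk (segments a b c (Phi (1 / a) (1 / b) (1 / c) P)) = Cardinal.continuum := by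
      intro P hP hPs hne
      obtain ⟨e⟩ := segments_fibre ha hab hbc (hmem P hP)
      rw [Cardinal.mk_congr e, hset P hP]
      have hmain : ∀ e : ℝ, (e = 1 ∨ e = -1) → 0 < P.imK * e →
          {P' : ℍ[ℝ] | P' ∈ Ell (1 / a) (1 / b) (1 / c) ∧ eqvB s P P'}
          = {P' : ℍ[ℝ] | P' ∈ Ell (1 / a) (1 / b) (1 / c) ∧ ‖P'‖ ^ 2 = s ∧ 0 < P'.imK * e} := by
        intro e he hpe
        have he2 : e * e = 1 := by rcases he with rfl | rfl <;> norm_num
        ext P'
        constructor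
        · rintro ⟨hP', h | h | h⟩
          · linarith [h.1]
          · linarith [h.1]
          · refine ⟨hP', h.2.1, ?_⟩
            have h5 : 0 < (P.imK * e) * (P'.imK * e) := by
              have : (P.imK * e) * (P'.imK * e) = P.imK * P'.imK * (e * e) := by ring
              rw [this, he2, mul_one]
              exact h.2.2
            exact (pos_iff_pos_of_mul_pos h5).mp hpe
        · rintro ⟨hP', h, h'⟩
          refine ⟨hP', Or.inr (Or.inr ⟨hPs, h, ?_⟩)⟩
          have : P.imK * P'.imK = (P.imK * e) * (P'.imK * e) := by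
            have : (P.imK * e) * (P'.imK * e) = P.imK * P'.imK * (e * e) := by ring
            rw [this, he2, mul_one]
          rw [this]
          exact mul_pos hpe h'
      rcases hne.lt_or_gt with hneg | hpos
      · rw [hmain (-1) (Or.inr rfl) (by linarith)]
        exact circle_card ha hab hbc hs (-1) (Or.inr rfl)
      · rw [hmain 1 (Or.inl rfl) (by linarith)]
        exact circle_card ha hab hbc hs 1 (Or.inl rfl)
    refine ⟨⟨φ, h1, by rw [h2, hcut], ?_, ?_, ?_, ?_, ?_, ?_, ?_⟩, ?_⟩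
    · intro z hz
      obtain ⟨P, hP, hgz, hφ⟩ := h3 z
      rw [hz] at hgz
      have h4 := (hgn P hP).2.2.1.mp hgz
      rw [hφ]
      exact hk P hP h4.1 h4.2
    · intro z hz
      obtain ⟨P, hP, hgz, hφ⟩ := h3 z
      rw [hz] at hgz
      have h4 := (hgn P hP).2.2.2.mp hgz
      rw [hφ]
      exact hk' P hP h4.1 h4.2
    · intro z hz
      obtain ⟨P, hP, hgz, hφ⟩ := h3 z
      rw [hφ]
      rcases hz with hz | hz
      · rw [hz] at hgz
        have h4 := (hgn P hP).2.2.1.mp hgz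
        exact hcard P hP h4.1 h4.2.ne'
      · rw [hz] at hgz
        have h4 := (hgn P hP).2.2.2.mp hgz
        exact hcard P hP h4.1 h4.2.ne
    · intro z hz
      obtain ⟨P, hP, hgz, hφ⟩ := h3 z
      rw [hφ]
      rw [← hgz] at hz
      rcases hz with hz | hz
      · have h4 := (hgn P hP).1.mp hz
        rw [hcount1 P hP h4.1]
        exact encard_two (rf1_ne.mpr h4.2)
      · have h4 := (hgn P hP).2.1.mp hz
        rw [hcount2 P hP h4.1]
        exact encard_two (rf2_ne.mpr h4.2)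
    · intro z hz1 hz2 hz
      obtain ⟨P, hP, hgz, hφ⟩ := h3 z
      rw [hφ]
      rw [← hgz] at hz hz1 hz2
      rcases lt_trichotomy (‖P‖ ^ 2) s with h4 | h4 | h4
      · have h0 : P.imI = 0 := by
          by_contra hne
          exact hz (Or.inl ((hgn P hP).1.mpr ⟨h4, hne⟩))
        have h5 : rf1 P = P := by
          by_contra hne
          exact rf1_ne.mp hne h0
        rw [hcount1 P hP h4, h5, pair_eq_singleton, Set.encard_singleton]
      · exfalso
        have h0 : P.imK = 0 := by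
          by_contra hne
          rcases lt_or_gt_of_ne hne with hneg | hpos
          · exact hz2 ((hgn P hP).2.2.2.mpr ⟨h4, hneg⟩)
          · exact hz1 ((hgn P hP).2.2.1.mpr ⟨h4, hpos⟩)
        have h5 := hP.2
        have h6 := normSq_eq P
        rw [h4, hP.1, h0] at h6
        unfold HH at h5
        rw [h0] at h5
        have h7 : P.imI ^ 2 = s - P.imJ ^ 2 := by linarith
        rw [h7] at h5
        have h8 : 1 / b < 1 / a := one_div_lt_one_div_of_lt ha hab
        have h9 : 0 ≤ P.imI ^ 2 := sq_nonneg _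
        have h10 : s * (1 / b) ≤ 1 := by nlinarith
        rw [mul_one_div, div_le_one hb] at h10
        linarith [hs.1]
      · have h0 : P.imJ = 0 := by
          by_contra hne
          exact hz (Or.inr ((hgn P hP).2.1.mpr ⟨h4, hne⟩))
        have h5 : rf2 P = P := by
          by_contra hne
          exact rf2_ne.mp hne h0
        rw [hcount2 P hP h4, h5, pair_eq_singleton, Set.encard_singleton]
    · intro z hz
      obtain ⟨P, hP, hgz, hφ⟩ := h3 z
      rw [hφ]
      apply hw1 P hP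
      by_contra hcon
      push Not at hcon
      have h4 := (hgl P hP).2.mp hcon
      rw [hgz] at h4
      linarith [Complex.abs_re_le_norm (z : ℂ)]
    · intro z hz
      obtain ⟨P, hP, hgz, hφ⟩ := h3 z
      rw [hφ]
      apply hw2 P hP
      by_contra hcon
      push Not at hcon
      have h4 := (hgl P hP).1.mp hcon
      rw [hgz] at h4
      rw [abs_lt] at h4
      rcases hz with hz | hz
      · have h5 := (Complex.abs_re_le_norm ((z : ℂ) - 2)).trans hz
        rw [abs_le] at h5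
        simp only [Complex.sub_re, Complex.re_ofNat] at h5
        linarith [h5.1, h4.2]
      · have h5 := (Complex.abs_re_le_norm ((z : ℂ) + 2)).trans hz
        rw [abs_le] at h5
        simp only [Complex.add_re, Complex.re_ofNat] at h5
        linarith [h5.2, h4.1]
    · rintro ⟨ψ⟩
      apply threeDiscs_not_disc
      have e1 : threeDiscs ≃ₜ range φ := h1.toHomeomorph
      have h6 : range φ = cutLocus a b c := by rw [h2, hcut]
      exact ⟨e1.trans ((Homeomorph.setCongr h6).trans ψ)⟩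

end

end Pool.Agent.CutS3
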