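import Mathlib

set_option autoImplicit false

/-!
# The cut locus of the left-invariant metrics `g_{a,b,c}` on `S^3` : public definitions

`S^3` is the group of unit quaternions, the basis of the Lie algebra is `i, j, k`; it is
orthonormal for the round metric, and `g_{a,b,c}(i,i) = a`, `g_{a,b,c}(j,j) = b`,
`g_{a,b,c}(k,k) = c`.
-/

namespace Pool.Agent.CutS3

open Set Quaternion

noncomputable section

/-- The `g_{a,b,c}`-norm of the tangent vector `v` at the unit quaternion `q`: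
`v = q * w` with `w = star q * v = w₁ i + w₂ j + w₃ k`, and the norm is
`√(a w₁² + b w₂² + c w₃²)`. -/
def speed (a b c : ℝ) (q v : ℍ[ℝ]) : ℝ :=
  Real.sqrt (a * (star q * v).imI ^ 2 + b * (star q * v).imJ ^ 2 + c * (star q * v).imK ^ 2)

/-- `γ` restricted to `[0,1]` is a `C^1` path in `S^3` from `p` to `q`. -/
structure IsPath (p q : ℍ[ℝ]) (γ : ℝ → ℍ[ℝ]) : Prop where
  smooth : ContDiff ℝ 1 γ
  unit : ∀ t, ‖γ t‖ = 1
  source : γ 0 = p
  target : γ 1 = q

/-- The `g_{a,b,c}`-length of the restriction of `γ` to `[0,1]`. -/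
def pathLength (a b c : ℝ) (γ : ℝ → ℍ[ℝ]) : ℝ :=
  ∫ t in (0 : ℝ)..1, speed a b c (γ t) (deriv γ t)

/-- The Riemannian distance of `g_{a,b,c}`. -/
def gdist (a b c : ℝ) (p q : ℍ[ℝ]) : ℝ :=
  sInf {L : ℝ | ∃ γ : ℝ → ℍ[ℝ], IsPath p q γ ∧ L = pathLength a b c γ}

/-- A segment (minimising unit speed geodesic) of length `T` starting at the identity:
an isometric embedding of `[0,T]`, extended by constants outside `[0,T]`. -/
structure IsSegment (a b c T : ℝ) (γ : ℝ → ℍ[ℝ]) : Prop where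
  nonneg : 0 ≤ T
  unit : ∀ t, ‖γ t‖ = 1
  source : γ 0 = 1
  isometric : ∀ s ∈ Icc (0 : ℝ) T, ∀ t ∈ Icc (0 : ℝ) T, gdist a b c (γ s) (γ t) = |s - t|
  before : ∀ t, t < 0 → γ t = γ 0
  after : ∀ t, T < t → γ t = γ T

/-- The segments from the identity to `q`. -/
def segments (a b c : ℝ) (q : ℍ[ℝ]) : Set (ℝ → ℍ[ℝ]) :=
  {γ | ∃ T, IsSegment a b c T γ ∧ γ T = q}

/-- The cut locus of the identity: end points of the segments from the identity that cannot be
prolonged to a longer segment. -/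
def cutLocus (a b c : ℝ) : Set ℍ[ℝ] :=
  {q | ∃ T γ, IsSegment a b c T γ ∧ γ T = q ∧
    ∀ T' γ', T < T' → IsSegment a b c T' γ' → ¬ ∀ t ∈ Icc (0 : ℝ) T, γ' t = γ t}

/-- A chain of three closed round discs, consecutive ones touching at `-1` and at `1`. -/
def threeDiscs : Set ℂ :=
  Metric.closedBall (-2) 1 ∪ Metric.closedBall 0 1 ∪ Metric.closedBall 2 1

end

end Pool.Agent.CutS3
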