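import Pool.Agent.CutS3.Dist

/-! # Module VARA: near minimising paths have almost constant momentum -/

set_option autoImplicit false
set_option linter.unusedVariables false

namespace Pool.Agent.CutS3

open Set Quaternion

noncomputable section

section var
variable {a b c : ℝ}

/-- spatial momentum of the tangent vector `v` at `q` -/
def mom (a b c : ℝ) (q v : ℍ[ℝ]) : ℍ[ℝ] :=
  q * ⟨0, a * (star q * v).imI, b * (star q * v).imJ, c * (star q * v).imK⟩ * star q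

end var

namespace VarAAux

theorem inner_eq (p q : ℍ[ℝ]) :
    inner ℝ p q = p.re * q.re + p.imI * q.imI + p.imJ * q.imJ + p.imK * q.imK := by
  rw [Quaternion.inner_def, Quaternion.re_mul]
  simp

theorem norm_sq_eq (p : ℍ[ℝ]) : ‖p‖ ^ 2 = p.re ^ 2 + p.imI ^ 2 + p.imJ ^ 2 + p.imK ^ 2 := by
  rw [sq, ← Quaternion.normSq_eq_norm_mul_self, Quaternion.normSq_def']

/-- the quadratic form -/
def QI (a b c : ℝ) (w : ℍ[ℝ]) : ℝ := a * w.imI ^ 2 + b * w.imJ ^ 2 + c * w.imK ^ 2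

/-- the inertia operator -/
def II (a b c : ℝ) (w : ℍ[ℝ]) : ℍ[ℝ] := ⟨0, a * w.imI, b * w.imJ, c * w.imK⟩

theorem speed_eq (a b c : ℝ) (q v : ℍ[ℝ]) : speed a b c q v = Real.sqrt (QI a b c (star q * v)) :=
  rfl

theorem mom_eq (a b c : ℝ) (q v : ℍ[ℝ]) : mom a b c q v = q * II a b c (star q * v) * star q := rfl

theorem QI_nonneg {a b c : ℝ} (ha : 0 < a) (hb : 0 < b) (hc : 0 < c) (w : ℍ[ℝ]) :
    0 ≤ QI a b c w := by
  unfold QI
  positivity

theorem QI_add (a b c : ℝ) (w e : ℍ[ℝ]) :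
    QI a b c (w + e) = QI a b c w + 2 * inner ℝ (II a b c w) e + QI a b c e := by
  rw [inner_eq]
  simp only [QI, II, Quaternion.imI_add, Quaternion.imJ_add, Quaternion.imK_add]
  ring

theorem QI_add_real (a b c : ℝ) (w : ℍ[ℝ]) (x : ℝ) : QI a b c (w + (x : ℍ[ℝ])) = QI a b c w := by
  simp [QI]

theorem QI_le {a b c : ℝ} (ha : 0 < a) (hb : 0 < b) (hc : 0 < c) (w : ℍ[ℝ]) :
    QI a b c w ≤ (a + b + c) * ‖w‖ ^ 2 := by
  rw [norm_sq_eq]
  unfold QI
  nlinarith [mul_nonneg ha.le (sq_nonneg w.re), mul_nonneg hb.le (sq_nonneg w.re),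
    mul_nonneg hc.le (sq_nonneg w.re), mul_nonneg ha.le (sq_nonneg w.imJ),
    mul_nonneg ha.le (sq_nonneg w.imK), mul_nonneg hb.le (sq_nonneg w.imI),
    mul_nonneg hb.le (sq_nonneg w.imK), mul_nonneg hc.le (sq_nonneg w.imI),
    mul_nonneg hc.le (sq_nonneg w.imJ)]

theorem norm_II_sq {a b c : ℝ} (ha : 0 < a) (hb : 0 < b) (hc : 0 < c) (w : ℍ[ℝ]) :
    ‖II a b c w‖ ^ 2 ≤ (a + b + c) * QI a b c w := by
  rw [norm_sq_eq]
  unfold QI II
  simp only
  nlinarith [mul_nonneg (mul_nonneg ha.le hb.le) (sq_nonneg w.imI),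
    mul_nonneg (mul_nonneg ha.le hc.le) (sq_nonneg w.imI),
    mul_nonneg (mul_nonneg ha.le hb.le) (sq_nonneg w.imJ),
    mul_nonneg (mul_nonneg hb.le hc.le) (sq_nonneg w.imJ),
    mul_nonneg (mul_nonneg ha.le hc.le) (sq_nonneg w.imK),
    mul_nonneg (mul_nonneg hb.le hc.le) (sq_nonneg w.imK)]

theorem star_mul_unit {q : ℍ[ℝ]} (hq : ‖q‖ = 1) : star q * q = 1 := by
  rw [Quaternion.star_mul_self, Quaternion.normSq_eq_norm_mul_self, hq]
  simp

theorem unit_mul_star {q : ℍ[ℝ]} (hq : ‖q‖ = 1) : q * star q = 1 := by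
  rw [Quaternion.self_mul_star, Quaternion.normSq_eq_norm_mul_self, hq]
  simp

theorem inner_conj (p q z : ℍ[ℝ]) :
    inner ℝ p (star q * z * q) = inner ℝ (q * p * star q) z := by
  rw [inner_eq, inner_eq]
  simp only [Quaternion.re_mul, Quaternion.imI_mul, Quaternion.imJ_mul, Quaternion.imK_mul,
    Quaternion.re_star, Quaternion.imI_star, Quaternion.imJ_star, Quaternion.imK_star]
  ring

theorem speed_sq {a b c : ℝ} (ha : 0 < a) (hb : 0 < b) (hc : 0 < c) (q v : ℍ[ℝ]) :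
    speed a b c q v ^ 2 = QI a b c (star q * v) := by
  rw [speed_eq, Real.sq_sqrt (QI_nonneg ha hb hc _)]

theorem speed_nonneg (a b c : ℝ) (q v : ℍ[ℝ]) : 0 ≤ speed a b c q v := Real.sqrt_nonneg _

theorem norm_mom {a b c : ℝ} (ha : 0 < a) (hb : 0 < b) (hc : 0 < c) {q : ℍ[ℝ]} (hq : ‖q‖ = 1)
    (v : ℍ[ℝ]) : ‖mom a b c q v‖ ≤ Real.sqrt (a + b + c) * speed a b c q v := by
  rw [mom_eq, norm_mul, norm_mul, norm_star, hq, one_mul, mul_one, speed_eq,
    ← Real.sqrt_mul (by positivity)]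
  exact Real.le_sqrt_of_sq_le (norm_II_sq ha hb hc _)

theorem mom_re (a b c : ℝ) (q v : ℍ[ℝ]) : (mom a b c q v).re = 0 := by
  rw [mom_eq]
  simp only [II, Quaternion.re_mul, Quaternion.imI_mul, Quaternion.imJ_mul, Quaternion.imK_mul,
    Quaternion.re_star, Quaternion.imI_star, Quaternion.imJ_star, Quaternion.imK_star]
  ring

/-- pointwise estimate -/
theorem pointwise {a b c : ℝ} (ha : 0 < a) (hb : 0 < b) (hc : 0 < c) {q v Φ ψ : ℍ[ℝ]}
    (hq : ‖q‖ = 1) (hΦ : Φ.re = 0) {ε B w x : ℝ} (hε : 0 < ε) (hε1 : ε ≤ 1) (hB : ‖Φ‖ ≤ B)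
    (hw : 0 < w) (hsw : speed a b c q v ≤ w)
    (hψ : ‖ψ‖ ≤ 2 * Real.sqrt (a + b + c) * w) :
    speed a b c (‖1 + ε • Φ‖⁻¹ • (1 + ε • Φ) * q)
        ((‖1 + ε • Φ‖⁻¹ • (ε • ψ) + x • (1 + ε • Φ)) * q + ‖1 + ε • Φ‖⁻¹ • (1 + ε • Φ) * v)
      ≤ w + ε * (inner ℝ (mom a b c q v) ψ / w)
        + 4 * (a + b + c) * (a + b + c + B ^ 2 + B) * ε ^ 2 * w := by
  set A := a + b + c with hA
  have hA0 : 0 < A := by positivity
  set K := Real.sqrt A with hK
  have hK0 : 0 ≤ K := Real.sqrt_nonneg _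
  have hKK : K * K = A := Real.mul_self_sqrt hA0.le
  have hB0 : 0 ≤ B := (norm_nonneg _).trans hB
  set u := 1 + ε • Φ with hu
  set N := ‖u‖ with hN
  have hN2 : N ^ 2 = 1 + ε ^ 2 * ‖Φ‖ ^ 2 := by
    rw [hN, hu, norm_sq_eq, norm_sq_eq]
    simp only [Quaternion.re_add, Quaternion.re_one, Quaternion.re_smul, Quaternion.imI_add,
      Quaternion.imI_one, Quaternion.imI_smul, Quaternion.imJ_add, Quaternion.imJ_one,
      Quaternion.imJ_smul, Quaternion.imK_add, Quaternion.imK_one, Quaternion.imK_smul,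
      smul_eq_mul, hΦ]
    ring
  have hN1 : 1 ≤ N := by
    have h1 : 1 ≤ N ^ 2 := by rw [hN2]; nlinarith [sq_nonneg (ε * ‖Φ‖)]
    nlinarith [norm_nonneg u]
  have hNp : 0 < N := by linarith
  have hstar : star Φ = -Φ := by
    ext <;> simp [hΦ]
  have hsu : star u = 1 - ε • Φ := by
    rw [hu, star_add, star_one, Quaternion.star_smul, hstar, smul_neg, sub_eq_add_neg]
  have hsuu : star u * u = ((N ^ 2 : ℝ) : ℍ[ℝ]) := by
    rw [Quaternion.star_mul_self, Quaternion.normSq_eq_norm_mul_self, hN]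
    norm_cast
    ring_nf
  -- the logarithmic derivative
  set ζ : ℍ[ℝ] := (N⁻¹ ^ 2) • (star u * (ε • ψ)) with hζ
  have hlog : star (N⁻¹ • u * q) * ((N⁻¹ • (ε • ψ) + x • u) * q + N⁻¹ • u * v)
      = (star q * v + star q * ζ * q) + ((x * N : ℝ) : ℍ[ℝ]) := by
    have e1 : star (N⁻¹ • u * q) = N⁻¹ • (star q * star u) := by
      rw [star_mul, Quaternion.star_smul, mul_smul_comm]
    have e2 : star q * (star u * u) * v = (N ^ 2) • (star q * v) := by
      rw [hsuu]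
      rw [← Quaternion.coe_commutes, mul_assoc, Quaternion.coe_mul_eq_smul]
    have e3 : star q * (star u * u) * q = ((N ^ 2 : ℝ) : ℍ[ℝ]) := by
      rw [hsuu, ← Quaternion.coe_commutes, mul_assoc, star_mul_unit hq, mul_one]
    have e4 : star (N⁻¹ • u * q) * ((N⁻¹ • (ε • ψ) + x • u) * q + N⁻¹ • u * v)
        = (N⁻¹ * N⁻¹) • (star q * (star u * (ε • ψ)) * q)
          + (N⁻¹ * x) • (star q * (star u * u) * q) + (N⁻¹ * N⁻¹) • (star q * (star u * u) * v) := by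
      rw [e1]
      simp only [smul_mul_assoc, mul_smul_comm, mul_add, add_mul, smul_smul, mul_assoc]
      rw [mul_comm ε N⁻¹, mul_comm x N⁻¹]
    rw [e4, e2, e3, hζ]
    have e5 : (N⁻¹ * N⁻¹) • (N ^ 2) • (star q * v) = star q * v := by
      rw [smul_smul]
      have : N⁻¹ * N⁻¹ * N ^ 2 = 1 := by field_simp
      rw [this, one_smul]
    have e6 : (N⁻¹ * x) • (((N ^ 2 : ℝ)) : ℍ[ℝ]) = ((x * N : ℝ) : ℍ[ℝ]) := by
      rw [← Quaternion.coe_mul_eq_smul, ← Quaternion.coe_mul]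
      congr 1
      field_simp
    rw [e5, e6]
    simp only [mul_smul_comm, smul_mul_assoc, sq]
    abel
  rw [speed_eq, hlog, QI_add_real]
  set X := Real.sqrt (QI a b c (star q * v + star q * ζ * q)) with hX
  have hX2 : X ^ 2 = QI a b c (star q * v + star q * ζ * q) :=
    Real.sq_sqrt (QI_nonneg ha hb hc _)
  rw [QI_add, inner_conj, ← mom_eq] at hX2
  set μ := mom a b c q v with hμ
  -- bounds
  have hμK : ‖μ‖ ≤ K * w := (norm_mom ha hb hc hq v).trans (mul_le_mul_of_nonneg_left hsw hK0)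
  have hQs : QI a b c (star q * v) ≤ w ^ 2 := by
    rw [← speed_sq ha hb hc]
    exact pow_le_pow_left₀ (speed_nonneg _ _ _ _ _) hsw 2
  have hnu : ‖star u‖ = N := by rw [Quaternion.norm_star]
  have hζn : ‖ζ‖ ≤ ε * ‖ψ‖ := by
    rw [hζ, norm_smul, norm_mul, hnu, norm_smul, norm_pow, norm_inv, Real.norm_eq_abs,
      Real.norm_eq_abs, abs_of_pos hNp, abs_of_pos hε]
    have : N⁻¹ ^ 2 * (N * (ε * ‖ψ‖)) = N⁻¹ * (ε * ‖ψ‖) := by
      field_simp
    rw [this]
    have h1 : N⁻¹ ≤ 1 := inv_le_one_of_one_le₀ hN1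
    have h2 : 0 ≤ ε * ‖ψ‖ := by positivity
    nlinarith
  have hρ : ‖ζ - ε • ψ‖ ≤ ε ^ 2 * (B ^ 2 + B) * ‖ψ‖ := by
    have e1 : ζ - ε • ψ = (N⁻¹ ^ 2 - 1) • (ε • ψ) - (N⁻¹ ^ 2) • ((ε • Φ) * (ε • ψ)) := by
      rw [hζ, hsu, sub_mul, one_mul, smul_sub, sub_smul, one_smul]
      abel
    rw [e1]
    have h1 : |N⁻¹ ^ 2 - 1| ≤ ε ^ 2 * ‖Φ‖ ^ 2 := by
      have e2 : N⁻¹ ^ 2 - 1 = -(ε ^ 2 * ‖Φ‖ ^ 2) / N ^ 2 := by
        field_simp
        rw [hN2]
        ring
      rw [e2, abs_div, abs_neg, abs_of_nonneg (by positivity), abs_of_nonneg (by positivity)]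
      apply div_le_self (by positivity)
      nlinarith
    have h2 : N⁻¹ ^ 2 ≤ 1 := by
      have : N⁻¹ ≤ 1 := inv_le_one_of_one_le₀ hN1
      have : 0 < N⁻¹ := by positivity
      nlinarith
    have h3 : ‖(N⁻¹ ^ 2 - 1) • (ε • ψ)‖ ≤ ε ^ 2 * B ^ 2 * ‖ψ‖ := by
      rw [norm_smul, norm_smul, Real.norm_eq_abs, Real.norm_eq_abs, abs_of_pos hε]
      calc |N⁻¹ ^ 2 - 1| * (ε * ‖ψ‖) ≤ (ε ^ 2 * ‖Φ‖ ^ 2) * (1 * ‖ψ‖) := by
            apply mul_le_mul h1 _ (by positivity) (by positivity)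
            exact mul_le_mul_of_nonneg_right hε1 (norm_nonneg _)
        _ ≤ (ε ^ 2 * B ^ 2) * (1 * ‖ψ‖) := by gcongr
        _ = ε ^ 2 * B ^ 2 * ‖ψ‖ := by ring
    have h4 : ‖(N⁻¹ ^ 2) • ((ε • Φ) * (ε • ψ))‖ ≤ ε ^ 2 * B * ‖ψ‖ := by
      rw [norm_smul, norm_mul, norm_smul, norm_smul, Real.norm_eq_abs, Real.norm_eq_abs,
        abs_of_pos hε, abs_of_nonneg (by positivity)]
      calc N⁻¹ ^ 2 * (ε * ‖Φ‖ * (ε * ‖ψ‖)) ≤ 1 * (ε * B * (ε * ‖ψ‖)) := by gcongr
        _ = ε ^ 2 * B * ‖ψ‖ := by ring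
    calc _ ≤ ‖(N⁻¹ ^ 2 - 1) • (ε • ψ)‖ + ‖(N⁻¹ ^ 2) • ((ε • Φ) * (ε • ψ))‖ := norm_sub_le _ _
      _ ≤ ε ^ 2 * B ^ 2 * ‖ψ‖ + ε ^ 2 * B * ‖ψ‖ := add_le_add h3 h4
      _ = _ := by ring
  have hin : inner ℝ μ ζ ≤ ε * inner ℝ μ ψ + (K * w) * (ε ^ 2 * (B ^ 2 + B) * ‖ψ‖) := by
    have e1 : ζ = ε • ψ + (ζ - ε • ψ) := by abel
    rw [e1, inner_add_right, inner_smul_right]
    have := real_inner_le_norm μ (ζ - ε • ψ)
    have h2 : ‖μ‖ * ‖ζ - ε • ψ‖ ≤ (K * w) * (ε ^ 2 * (B ^ 2 + B) * ‖ψ‖) :=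
      mul_le_mul hμK hρ (norm_nonneg _) (by positivity)
    linarith
  have hQζ : QI a b c (star q * ζ * q) ≤ A * (ε * ‖ψ‖) ^ 2 := by
    refine (QI_le ha hb hc _).trans ?_
    rw [norm_mul, norm_mul, Quaternion.norm_star, hq, one_mul, mul_one]
    gcongr
  have hψ0 := norm_nonneg ψ
  -- the final estimate
  have hX3 : 2 * w * X ≤ X ^ 2 + w ^ 2 := by nlinarith [sq_nonneg (X - w)]
  have h5 : K * w * (ε ^ 2 * (B ^ 2 + B) * ‖ψ‖) ≤ 2 * A * (B ^ 2 + B) * ε ^ 2 * w ^ 2 := by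
    calc K * w * (ε ^ 2 * (B ^ 2 + B) * ‖ψ‖)
        ≤ K * w * (ε ^ 2 * (B ^ 2 + B) * (2 * K * w)) := by gcongr
      _ = 2 * (K * K) * (B ^ 2 + B) * ε ^ 2 * w ^ 2 := by ring
      _ = 2 * A * (B ^ 2 + B) * ε ^ 2 * w ^ 2 := by rw [hKK]
  have h6 : A * (ε * ‖ψ‖) ^ 2 ≤ 4 * A ^ 2 * ε ^ 2 * w ^ 2 := by
    calc A * (ε * ‖ψ‖) ^ 2 ≤ A * (ε * (2 * K * w)) ^ 2 := by gcongr
      _ = 4 * A * (K * K) * ε ^ 2 * w ^ 2 := by ring
      _ = 4 * A ^ 2 * ε ^ 2 * w ^ 2 := by rw [hKK]; ring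
  have h7 : 0 ≤ A * (B ^ 2 + B) * ε ^ 2 * w ^ 2 := by positivity
  have h8 : 0 ≤ A ^ 2 * ε ^ 2 * w ^ 2 := by positivity
  have h9 : 2 * w * X ≤ 2 * w ^ 2 + 2 * (ε * inner ℝ μ ψ)
      + 8 * A * (A + B ^ 2 + B) * ε ^ 2 * w ^ 2 := by
    nlinarith
  have h10 : X ≤ (2 * w ^ 2 + 2 * (ε * inner ℝ μ ψ)
      + 8 * A * (A + B ^ 2 + B) * ε ^ 2 * w ^ 2) / (2 * w) := by
    rw [le_div_iff₀ (by positivity)]
    linarith
  refine h10.trans (le_of_eq ?_)
  field_simp
  ring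

/-- `II` as a linear map -/
def IIlin (a b c : ℝ) : ℍ[ℝ] →ₗ[ℝ] ℍ[ℝ] where
  toFun := II a b c
  map_add' x y := by ext <;> simp [II] <;> ring
  map_smul' r x := by ext <;> simp [II] <;> ring

theorem continuous_II (a b c : ℝ) : Continuous (II a b c) :=
  (IIlin a b c).continuous_of_finiteDimensional

theorem continuous_speed (a b c : ℝ) {γ : ℝ → ℍ[ℝ]} (hγ : ContDiff ℝ 1 γ) :
    Continuous fun t => speed a b c (γ t) (deriv γ t) := by
  have h1 : Continuous γ := hγ.continuous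
  have h2 : Continuous (deriv γ) := hγ.continuous_deriv le_rfl
  have h3 : Continuous fun t => star (γ t) * deriv γ t := (continuous_star.comp h1).mul h2
  have hI := Quaternion.continuous_imI.comp h3
  have hJ := Quaternion.continuous_imJ.comp h3
  have hK := Quaternion.continuous_imK.comp h3
  exact Real.continuous_sqrt.comp (((continuous_const.mul (hI.pow 2)).add
    (continuous_const.mul (hJ.pow 2))).add (continuous_const.mul (hK.pow 2)))

theorem continuous_mom (a b c : ℝ) {γ : ℝ → ℍ[ℝ]} (hγ : ContDiff ℝ 1 γ) :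
    Continuous fun t => mom a b c (γ t) (deriv γ t) := by
  have h1 : Continuous γ := hγ.continuous
  have h2 : Continuous (deriv γ) := hγ.continuous_deriv le_rfl
  have h3 : Continuous fun t => star (γ t) * deriv γ t := (continuous_star.comp h1).mul h2
  exact (h1.mul ((continuous_II a b c).comp h3)).mul (continuous_star.comp h1)

theorem re_integral {f : ℝ → ℍ[ℝ]} (hf : Continuous f) (h0 : ∀ t, (f t).re = 0) (s t : ℝ) :
    (∫ x in s..t, f x).re = 0 := by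
  have h1 := (innerSL ℝ (1 : ℍ[ℝ])).intervalIntegral_comp_comm (hf.intervalIntegrable (μ := MeasureTheory.volume) s t)
  have e : ∀ z : ℍ[ℝ], innerSL ℝ (1 : ℍ[ℝ]) z = z.re := by
    intro z
    rw [innerSL_apply_apply, inner_eq]
    simp
  simp only [e, h0] at h1
  rw [← h1]
  simp

end VarAAux

open VarAAux in
/-- VARA -/
theorem near_min {a b c : ℝ} (ha : 0 < a) (hb : 0 < b) (hc : 0 < c) :
    ∃ C : ℝ, 0 < C ∧ ∀ (q : ℍ[ℝ]) (γ : ℝ → ℍ[ℝ]) (ε : ℝ), IsPath 1 q γ → 0 < ε → ε ≤ 1 →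
      pathLength a b c γ ≤ gdist a b c 1 q + ε ^ 2 →
      ∃ m : ℍ[ℝ], m.re = 0 ∧ ‖m‖ ≤ C ∧
        ∫ t in (0 : ℝ)..1, (speed a b c (γ t) (deriv γ t) + ε ^ 2) *
          ‖(speed a b c (γ t) (deriv γ t) + ε ^ 2)⁻¹ • mom a b c (γ t) (deriv γ t) - m‖ ^ 2
        ≤ C * ε := by
  obtain ⟨C0, hC0, hdist⟩ := gdist_le_norm (a := a) (b := b) (c := c) ha hb hc
  set A := a + b + c with hA
  have hA0 : 0 < A := by positivity
  set K := Real.sqrt A with hK
  have hK0 : 0 ≤ K := Real.sqrt_nonneg _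
  set D := 2 * C0 + 2 with hD
  have hD0 : 0 < D := by positivity
  set B := 2 * K * D with hB
  have hB0 : 0 ≤ B := by positivity
  set C2 := 4 * A * (A + B ^ 2 + B) with hC2
  have hC20 : 0 ≤ C2 := by positivity
  refine ⟨K + 2 + C2 * D, by positivity, ?_⟩
  intro q γ ε hγ hε hε1 hL
  have hq : ‖q‖ = 1 := by rw [← hγ.target]; exact hγ.unit 1
  set s : ℝ → ℝ := fun t => speed a b c (γ t) (deriv γ t) with hs
  have hsc : Continuous s := continuous_speed a b c hγ.smooth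
  set w : ℝ → ℝ := fun t => s t + ε ^ 2 with hw
  have hwc : Continuous w := hsc.add continuous_const
  have hs0 : ∀ t, 0 ≤ s t := fun t => speed_nonneg _ _ _ _ _
  have hw0 : ∀ t, 0 < w t := fun t => by
    have := hs0 t
    have h2 : 0 < ε ^ 2 := by positivity
    simp only [hw]
    linarith
  set μ : ℝ → ℍ[ℝ] := fun t => mom a b c (γ t) (deriv γ t) with hμ
  have hμc : Continuous μ := continuous_mom a b c hγ.smooth
  have hμK : ∀ t, ‖μ t‖ ≤ K * w t := fun t =>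
    (norm_mom ha hb hc (hγ.unit t) _).trans (mul_le_mul_of_nonneg_left (by
      simp only [hw, hs]
      nlinarith [sq_nonneg ε]) hK0)
  have hwi : ∀ x y, IntervalIntegrable w MeasureTheory.volume x y :=
    fun x y => hwc.intervalIntegrable x y
  have hμi : ∀ x y, IntervalIntegrable μ MeasureTheory.volume x y :=
    fun x y => hμc.intervalIntegrable x y
  set W := ∫ t in (0 : ℝ)..1, w t with hW
  have hWL : W = pathLength a b c γ + ε ^ 2 := by
    rw [hW, pathLength]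
    simp only [hw, hs]
    rw [intervalIntegral.integral_add (hsc.intervalIntegrable _ _)
      (continuous_const.intervalIntegrable _ _)]
    simp [hs]
  have hW0 : 0 < W := by
    have h1 : 0 ≤ pathLength a b c γ := by
      unfold pathLength
      exact intervalIntegral.integral_nonneg (by norm_num) fun t _ => speed_nonneg _ _ _ _ _
    rw [hWL]
    positivity
  have hg : gdist a b c 1 q ≤ 2 * C0 := by
    have h1 := hdist 1 q (by simp) hq
    have h2 : ‖(1 : ℍ[ℝ]) - q‖ ≤ 2 := (norm_sub_le _ _).trans (by rw [hq, norm_one]; norm_num)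
    nlinarith
  have hWD : W ≤ D := by
    rw [hWL, hD]
    nlinarith
  obtain ⟨m, hm⟩ : ∃ m : ℍ[ℝ], m = W⁻¹ • ∫ t in (0 : ℝ)..1, μ t := ⟨_, rfl⟩
  have hmre : m.re = 0 := by
    rw [hm, Quaternion.re_smul, re_integral hμc (fun t => mom_re _ _ _ _ _)]
    simp
  have hmK : ‖m‖ ≤ K := by
    have h1 : ‖∫ t in (0 : ℝ)..1, μ t‖ ≤ K * W := by
      have h2 := intervalIntegral.norm_integral_le_of_norm_le (μ := MeasureTheory.volume)
        (zero_le_one (α := ℝ))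
        (MeasureTheory.ae_of_all _ fun t _ => hμK t) ((hwi 0 1).const_mul K)
      rwa [intervalIntegral.integral_const_mul] at h2
    rw [hm, norm_smul, norm_inv, Real.norm_eq_abs, abs_of_pos hW0]
    calc W⁻¹ * ‖∫ t in (0 : ℝ)..1, μ t‖ ≤ W⁻¹ * (K * W) := by gcongr
      _ = K := by field_simp
  set ψ : ℝ → ℍ[ℝ] := fun t => w t • m - μ t with hψ
  have hψc : Continuous ψ := (hwc.smul continuous_const).sub hμc
  have hψK : ∀ t, ‖ψ t‖ ≤ 2 * K * w t := by
    intro t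
    have h1 := hμK t
    have h2 := hw0 t
    calc ‖ψ t‖ ≤ ‖w t • m‖ + ‖μ t‖ := norm_sub_le _ _
      _ ≤ w t * K + K * w t := by
          rw [norm_smul, Real.norm_eq_abs, abs_of_pos h2]
          gcongr
      _ = 2 * K * w t := by ring
  set Φ : ℝ → ℍ[ℝ] := fun t => ∫ x in (0 : ℝ)..t, ψ x with hΦ
  have hΦd : ∀ t, HasDerivAt Φ (ψ t) t := fun t =>
    (hψc.integral_hasStrictDerivAt 0 t).hasDerivAt
  have hΦre : ∀ t, (Φ t).re = 0 := fun t => re_integral hψc (fun x => by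
    simp only [hψ, Quaternion.re_sub, Quaternion.re_smul, hmre]
    rw [hμ]
    simp [mom_re]) 0 t
  have hΦ0 : Φ 0 = 0 := by simp [hΦ]
  have hΦ1 : Φ 1 = 0 := by
    have hwm : Continuous fun t => w t • m := hwc.smul continuous_const
    simp only [hΦ, hψ]
    rw [intervalIntegral.integral_sub (hwm.intervalIntegrable _ _)
      (hμi 0 1), intervalIntegral.integral_smul_const, hm, smul_smul, mul_inv_cancel₀ hW0.ne',
      one_smul, sub_self]
  have hΦB : ∀ t ∈ Icc (0 : ℝ) 1, ‖Φ t‖ ≤ B := by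
    intro t ht
    have h2 := intervalIntegral.norm_integral_le_of_norm_le (μ := MeasureTheory.volume)
      ht.1 (MeasureTheory.ae_of_all _ fun x _ => hψK x) ((hwi 0 t).const_mul (2 * K))
    rw [intervalIntegral.integral_const_mul] at h2
    have h3 : ∫ x in (0 : ℝ)..t, w x ≤ W := by
      rw [hW]
      apply intervalIntegral.integral_mono_interval le_rfl ht.1 ht.2 _ (hwi 0 1)
      exact MeasureTheory.ae_of_all _ fun x => (hw0 x).le
    calc ‖Φ t‖ ≤ 2 * K * ∫ x in (0 : ℝ)..t, w x := h2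
      _ ≤ 2 * K * D := by gcongr; exact h3.trans hWD
      _ = B := by rw [hB]
  have hΦs : ContDiff ℝ 1 Φ := by
    rw [contDiff_one_iff_deriv]
    refine ⟨fun t => (hΦd t).differentiableAt, ?_⟩
    have : deriv Φ = ψ := funext fun t => (hΦd t).deriv
    rw [this]
    exact hψc
  -- the new path
  set u : ℝ → ℍ[ℝ] := fun t => 1 + ε • Φ t with hu
  have hus0 : ContDiff ℝ 1 fun t => ε • Φ t := hΦs.const_smul ε
  have hus : ContDiff ℝ 1 u := contDiff_const.add hus0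
  have hu0 : ∀ t, u t ≠ 0 := by
    intro t h0
    have h1 : (u t).re = 1 := by simp [hu, hΦre]
    rw [h0] at h1
    simp at h1
  have hun : ContDiff ℝ 1 fun t => ‖u t‖⁻¹ :=
    (hus.norm ℝ hu0).inv fun t => norm_ne_zero_iff.2 (hu0 t)
  have hud : ∀ t, HasDerivAt u (ε • ψ t) t := fun t => by
    have := ((hΦd t).const_smul ε).const_add (1 : ℍ[ℝ])
    exact this
  have hund : ∀ t, HasDerivAt (fun t => ‖u t‖⁻¹) (deriv (fun t => ‖u t‖⁻¹) t) t := fun t =>
    (hun.differentiable one_ne_zero t).hasDerivAt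
  set x : ℝ → ℝ := deriv (fun t => ‖u t‖⁻¹) with hx
  set g : ℝ → ℍ[ℝ] := fun t => ‖u t‖⁻¹ • u t * γ t with hgdef
  have hgs : ContDiff ℝ 1 g := (hun.smul hus).mul hγ.smooth
  have hgd : ∀ t, HasDerivAt g ((‖u t‖⁻¹ • (ε • ψ t) + x t • u t) * γ t
      + ‖u t‖⁻¹ • u t * deriv γ t) t := by
    intro t
    have h1 := (hund t).smul (hud t)
    have h2 : HasDerivAt γ (deriv γ t) t := (hγ.smooth.differentiable one_ne_zero t).hasDerivAt
    exact h1.mul h2
  have hgp : IsPath 1 q g := by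
    refine ⟨hgs, ?_, ?_, ?_⟩
    · intro t
      simp only [hgdef]
      rw [norm_mul, hγ.unit t, mul_one, norm_smul, norm_inv, norm_norm,
        inv_mul_cancel₀ (norm_ne_zero_iff.2 (hu0 t))]
    · simp [hgdef, hu, hΦ0, hγ.source]
    · simp [hgdef, hu, hΦ1, hγ.target]
  have hlen := gdist_le_pathLength (a := a) (b := b) (c := c) hgp
  set J := ∫ t in (0 : ℝ)..1, w t * ‖(w t)⁻¹ • μ t - m‖ ^ 2 with hJ
  have hJc : Continuous fun t => w t * ‖(w t)⁻¹ • μ t - m‖ ^ 2 :=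
    hwc.mul ((((hwc.inv₀ fun t => (hw0 t).ne').smul hμc).sub continuous_const).norm.pow 2)
  have hpt : ∀ t ∈ Icc (0 : ℝ) 1, speed a b c (g t) (deriv g t)
      ≤ w t + ε * (inner ℝ m (ψ t) - w t * ‖(w t)⁻¹ • μ t - m‖ ^ 2) + C2 * ε ^ 2 * w t := by
    intro t ht
    rw [(hgd t).deriv]
    have h1 := pointwise ha hb hc (hγ.unit t) (hΦre t) hε hε1 (hΦB t ht) (hw0 t)
      (x := x t) (v := deriv γ t) (ψ := ψ t) (by
        simp only [hw, hs]
        nlinarith [sq_nonneg ε]) (hψK t)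
    refine h1.trans (le_of_eq ?_)
    have e1 : inner ℝ (μ t) (ψ t) / w t = inner ℝ m (ψ t) - w t * ‖(w t)⁻¹ • μ t - m‖ ^ 2 := by
      have hne := (hw0 t).ne'
      have e2 : ‖(w t)⁻¹ • μ t - m‖ ^ 2
          = (w t)⁻¹ ^ 2 * inner ℝ (μ t) (μ t) - 2 * (w t)⁻¹ * inner ℝ (μ t) m + inner ℝ m m := by
        rw [← real_inner_self_eq_norm_sq, inner_sub_left, inner_sub_right, inner_sub_right,
          real_inner_smul_left, real_inner_smul_right, real_inner_smul_left, real_inner_smul_right,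
          real_inner_comm m (μ t)]
        ring
      rw [e2]
      simp only [hψ]
      rw [inner_sub_right, inner_sub_right, real_inner_smul_right, real_inner_smul_right,
        real_inner_comm (μ t) m]
      field_simp
      ring
    rw [show inner ℝ (mom a b c (γ t) (deriv γ t)) (ψ t) / w t = _ from e1]
  have hint : pathLength a b c g ≤ W + ε * (0 - J) + C2 * ε ^ 2 * W := by
    have h1 : pathLength a b c g ≤ ∫ t in (0 : ℝ)..1,
        (w t + ε * (inner ℝ m (ψ t) - w t * ‖(w t)⁻¹ • μ t - m‖ ^ 2) + C2 * ε ^ 2 * w t) := by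
      unfold pathLength
      apply intervalIntegral.integral_mono_on (by norm_num)
        ((continuous_speed a b c hgs).intervalIntegrable _ _)
      · apply Continuous.intervalIntegrable
        exact (hwc.add (continuous_const.mul ((continuous_const.inner hψc).sub hJc))).add
          (continuous_const.mul hwc)
      · exact hpt
    have hin : Continuous fun t => inner ℝ m (ψ t) := continuous_const.inner hψc
    have e0 : ∫ t in (0 : ℝ)..1, inner ℝ m (ψ t) = 0 := by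
      have := (innerSL ℝ m).intervalIntegral_comp_comm
        (hψc.intervalIntegrable (μ := MeasureTheory.volume) 0 1)
      simp only [innerSL_apply_apply] at this
      rw [this]
      have h5 : ∫ x in (0 : ℝ)..1, ψ x = 0 := hΦ1
      rw [h5, inner_zero_right]
    have e1 : ∫ t in (0 : ℝ)..1,
        (w t + ε * (inner ℝ m (ψ t) - w t * ‖(w t)⁻¹ • μ t - m‖ ^ 2) + C2 * ε ^ 2 * w t)
        = W + ε * (0 - J) + C2 * ε ^ 2 * W := by
      have c2 : Continuous fun t =>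
          ε * (inner ℝ m (ψ t) - w t * ‖(w t)⁻¹ • μ t - m‖ ^ 2) :=
        continuous_const.mul (hin.sub hJc)
      have c1 : Continuous fun t =>
          w t + ε * (inner ℝ m (ψ t) - w t * ‖(w t)⁻¹ • μ t - m‖ ^ 2) := hwc.add c2
      have c3 : Continuous fun t => C2 * ε ^ 2 * w t := continuous_const.mul hwc
      rw [intervalIntegral.integral_add (c1.intervalIntegrable _ _) (c3.intervalIntegrable _ _),
        intervalIntegral.integral_add (hwi 0 1) (c2.intervalIntegrable _ _),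
        intervalIntegral.integral_const_mul, intervalIntegral.integral_const_mul,
        intervalIntegral.integral_sub (hin.intervalIntegrable _ _) (hJc.intervalIntegrable _ _),
        e0]
    rw [← e1]
    exact h1
  refine ⟨m, hmre, hmK.trans (by nlinarith [mul_nonneg hC20 hD0.le]), ?_⟩
  show J ≤ _
  have h1 : gdist a b c 1 q ≤ W - ε * J + C2 * ε ^ 2 * W := by linarith
  have h2 : W ≤ gdist a b c 1 q + 2 * ε ^ 2 := by rw [hWL]; linarith
  have h3 : C2 * ε ^ 2 * W ≤ C2 * ε ^ 2 * D := by gcongr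
  have h4 : ε * J ≤ ε * ((2 + C2 * D) * ε) := by nlinarith
  have h5 : J ≤ (2 + C2 * D) * ε := le_of_mul_le_mul_left h4 hε
  nlinarith [mul_nonneg hK0 hε.le]

end

end Pool.Agent.CutS3
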